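import Mathlib

/-!
Reflections of type B acting on an even number of sites: combinatorics on natural numbers.
-/

namespace Pool.Agent.Lib.MP_6d896a_gt

/-- the reflection exchanging `x` with `y` and `M - x` with `M - y` -/
def tv (M x y z : ℕ) : ℕ :=
  if z = x then y else if z = y then x else if z + x = M then M - y
  else if z + y = M then M - x else z

/-- displacement of the site `z` under the move at the edge `e` -/
def dd (M z e : ℕ) : ℤ :=
  (if z = e then 1 else 0) - (if z = e + 1 then 1 else 0) +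
    (if 2 * e + 1 = M then 0 else (if z + e + 1 = M then 1 else 0) - (if z + e = M then 1 else 0))

lemma tv_le {M x y z : ℕ} (hx : x ≤ M) (hy : y ≤ M) (hz : z ≤ M) : tv M x y z ≤ M := by
  unfold tv
  split_ifs <;> omega

lemma tv_tv {M x y z : ℕ} (hM : M % 2 = 1) (hxy : x < y) (hy : y ≤ M) (hz : z ≤ M) :
    tv M x y (tv M x y z) = z := by
  unfold tv
  split_ifs <;> omega

lemma tv_rev {M x y z : ℕ} (hM : M % 2 = 1) (hxy : x < y) (hy : y ≤ M) (hz : z ≤ M) :
    tv M x y (M - z) = M - tv M x y z := by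
  unfold tv
  split_ifs <;> omega

/-- order of the images under a simple reflection -/
lemma sv_lt {M x y e : ℕ} (hM : M % 2 = 1) (hxy : x < y) (hy : y ≤ M) (he : e < M)
    (h1 : ¬ (x = e ∧ y = e + 1)) (h2 : ¬ (x + e + 1 = M ∧ y + e = M)) :
    tv M e (e + 1) x < tv M e (e + 1) y := by
  unfold tv
  split_ifs <;> omega

lemma tv_eq_sv {M x y e z : ℕ} (hM : M % 2 = 1) (hxy : x < y) (hy : y ≤ M) (he : e < M)
    (hz : z ≤ M) (h : (x = e ∧ y = e + 1) ∨ (x + e + 1 = M ∧ y + e = M)) :
    tv M x y z = tv M e (e + 1) z := by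
  unfold tv
  split_ifs <;> omega

lemma sv_val {M z e : ℕ} (hM : M % 2 = 1) (hz : z ≤ M) (he : e < M) :
    (tv M e (e + 1) z : ℤ) = z + dd M z e := by
  unfold tv dd
  split_ifs <;> omega

set_option maxHeartbeats 4000000 in
lemma tv_desc {M x y e : ℕ} (hM : M % 2 = 1) (hxy : x < y) (hy : y ≤ M) (he : e < M)
    (h1 : ¬ (x = e ∧ y = e + 1)) (h2 : ¬ (x + e + 1 = M ∧ y + e = M))
    (hc : 0 < dd M x e - dd M y e) : ¬ (tv M x y e < tv M x y (e + 1)) := by
  unfold dd at hc
  split_ifs at hc
  all_goals first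
    | (exfalso; omega)
    | (unfold tv; split_ifs <;> omega)

set_option maxHeartbeats 4000000 in
lemma tv_fix {M x y e : ℕ} (hM : M % 2 = 1) (hxy : x < y) (hy : y ≤ M) (he : e < M)
    (hc : dd M x e - dd M y e = 0) :
    (tv M x y e = e ∧ tv M x y (e + 1) = e + 1) ∨
      (tv M x y e + e + 1 = M ∧ tv M x y (e + 1) + e = M) := by
  unfold dd at hc
  split_ifs at hc
  all_goals first
    | (exfalso; omega)
    | (unfold tv; split_ifs <;> omega)

end Pool.Agent.Lib.MP_6d896a_gt
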