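import Mathlib

/-!
The `L^1` Poincare inequality of the standard Gaussian measure (rotation argument).
-/

namespace Pool.Agent.Lib.MP_6d896a_gt

open MeasureTheory ProbabilityTheory Real
open scoped ENNReal

section

variable {F : Type*} [NormedAddCommGroup F] [InnerProductSpace ℝ F] [FiniteDimensional ℝ F]
  [MeasurableSpace F] [BorelSpace F]

lemma gauss_abs_dual (L : StrongDual ℝ F) :
    ∫⁻ y, ‖L y‖ₑ ∂(stdGaussian F) ≤ ‖L‖ₑ := by
  have hmem : MemLp (fun y => L y) 2 (stdGaussian F) :=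
    IsGaussian.memLp_dual (stdGaussian F) L 2 (by simp)
  have hint : Integrable (fun y => L y) (stdGaussian F) := hmem.integrable (by norm_num)
  have h0 : ∫ y, L y ∂(stdGaussian F) = 0 := integral_strongDual_stdGaussian L
  have hvar := variance_dual_stdGaussian L
  rw [variance_eq_sub hmem] at hvar
  have h0' : ∫ y, L y ∂(stdGaussian F) = 0 := h0
  rw [h0'] at hvar
  simp only [Pi.pow_apply] at hvar
  have hvar' : ∫ y, (L y) ^ 2 ∂(stdGaussian F) = ‖L‖ ^ 2 := by
    simpa using hvar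
  have hmem' : MemLp (fun y => |L y|) 2 (stdGaussian F) := hmem.abs
  have hv := variance_nonneg (fun y => |L y|) (stdGaussian F)
  rw [variance_eq_sub hmem'] at hv
  simp only [Pi.pow_apply, sq_abs] at hv
  rw [hvar'] at hv
  have hle : ∫ y, |L y| ∂(stdGaussian F) ≤ ‖L‖ := by
    apply abs_le_of_sq_le_sq' _ (norm_nonneg _) |>.2
    linarith
  calc ∫⁻ y, ‖L y‖ₑ ∂(stdGaussian F) = ENNReal.ofReal (∫ y, |L y| ∂(stdGaussian F)) := by
        rw [ofReal_integral_eq_lintegral_ofReal hint.abs (ae_of_all _ fun y => abs_nonneg _)]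
        congr 1
        funext y
        rw [← Real.norm_eq_abs, ofReal_norm]
    _ ≤ ENNReal.ofReal ‖L‖ := ENNReal.ofReal_le_ofReal hle
    _ = ‖L‖ₑ := ofReal_norm L

/-- `L^1` Poincare inequality for the Gaussian measure -/
theorem gauss_L1 {G : F → ℝ} (hG : ContDiff ℝ 1 G) :
    ∫⁻ p, ‖G p.2 - G p.1‖ₑ ∂((stdGaussian F).prod (stdGaussian F)) ≤
      ENNReal.ofReal (π / 2) * ∫⁻ x, ‖fderiv ℝ G x‖ₑ ∂(stdGaussian F) := by
  set γ := stdGaussian F with hγ
  let K : F × F → ℝ := fun p => fderiv ℝ G p.1 p.2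
  have hKc : Continuous K := by
    have h1 : Continuous (fderiv ℝ G) := hG.continuous_fderiv (by norm_num)
    exact (h1.comp continuous_fst).clm_apply continuous_snd
  let ρ : ℝ → F × F → F × F := fun θ p => ContinuousLinearMap.rotation θ p
  have hρ : ∀ θ p, ρ θ p = (cos θ • p.1 + sin θ • p.2, -sin θ • p.1 + cos θ • p.2) := by
    intro θ p
    exact ContinuousLinearMap.rotation_apply θ p
  -- pointwise bound
  have hpt : ∀ p : F × F, ‖G p.2 - G p.1‖ₑ ≤ ∫⁻ θ in Set.Ioc 0 (π / 2), ‖K (ρ θ p)‖ₑ := by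
    intro p
    have hpos : (0 : ℝ) ≤ π / 2 := by positivity
    have hder : ∀ θ ∈ Set.uIcc 0 (π / 2), HasDerivAt (fun θ => G (ρ θ p).1) (K (ρ θ p)) θ := by
      intro θ _
      have h1 : HasDerivAt (fun θ => cos θ • p.1 + sin θ • p.2) (-sin θ • p.1 + cos θ • p.2) θ :=
        ((Real.hasDerivAt_cos θ).smul_const p.1).add ((Real.hasDerivAt_sin θ).smul_const p.2)
      have h2 : HasFDerivAt G (fderiv ℝ G (cos θ • p.1 + sin θ • p.2))
          (cos θ • p.1 + sin θ • p.2) := ((hG.differentiable (by norm_num)) _).hasFDerivAt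
      have h3 := h2.comp_hasDerivAt θ h1
      have e3 : (fun θ => G (ρ θ p).1) = G ∘ (fun θ => cos θ • p.1 + sin θ • p.2) := by
        funext θ; rw [hρ]; rfl
      have e4 : K (ρ θ p) = (fderiv ℝ G (cos θ • p.1 + sin θ • p.2))
          (-sin θ • p.1 + cos θ • p.2) := by
        simp only [K]; rw [hρ]
      rw [e3, e4]
      exact h3
    have hc1 : Continuous (fun θ => ρ θ p) := by
      simp only [hρ]
      fun_prop
    have hcont : Continuous (fun θ => K (ρ θ p)) := hKc.comp hc1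
    have h2 := intervalIntegral.integral_eq_sub_of_hasDerivAt hder
      (hcont.intervalIntegrable _ _)
    have e1 : (ρ (π / 2) p).1 = p.2 := by rw [hρ]; simp
    have e2 : (ρ 0 p).1 = p.1 := by rw [hρ]; simp
    rw [e1, e2] at h2
    rw [← h2, intervalIntegral.integral_of_le hpos]
    exact enorm_integral_le_lintegral_enorm _
  have hmeas : Measurable (fun q : (F × F) × ℝ => ‖K (ρ q.2 q.1)‖ₑ) := by
    apply Measurable.enorm
    have hc2 : Continuous (fun q : (F × F) × ℝ => ρ q.2 q.1) := by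
      simp only [hρ]
      fun_prop
    exact (hKc.comp hc2).measurable
  calc ∫⁻ p, ‖G p.2 - G p.1‖ₑ ∂(γ.prod γ)
      ≤ ∫⁻ p, (∫⁻ θ in Set.Ioc 0 (π / 2), ‖K (ρ θ p)‖ₑ) ∂(γ.prod γ) := lintegral_mono hpt
    _ = ∫⁻ θ in Set.Ioc 0 (π / 2), (∫⁻ p, ‖K (ρ θ p)‖ₑ ∂(γ.prod γ)) := by
        rw [lintegral_lintegral_swap]
        exact hmeas.aemeasurable
    _ = ∫⁻ _θ in Set.Ioc 0 (π / 2), (∫⁻ p, ‖K p‖ₑ ∂(γ.prod γ)) := by
        congr 1
        funext θ
        have h3 : (γ.prod γ).map (ContinuousLinearMap.rotation θ) = γ.prod γ := by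
          apply IsGaussian.map_rotation_eq_self
          exact integral_id_stdGaussian
        conv_rhs => rw [← h3]
        rw [lintegral_map hKc.measurable.enorm (ContinuousLinearMap.continuous _).measurable]
    _ = ENNReal.ofReal (π / 2) * ∫⁻ p, ‖K p‖ₑ ∂(γ.prod γ) := by
        rw [lintegral_const, Measure.restrict_apply MeasurableSet.univ, Set.univ_inter,
          Real.volume_Ioc, sub_zero, mul_comm]
    _ ≤ ENNReal.ofReal (π / 2) * ∫⁻ x, ‖fderiv ℝ G x‖ₑ ∂γ := by
        gcongr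
        rw [lintegral_prod _ hKc.measurable.enorm.aemeasurable]
        apply lintegral_mono
        intro x
        exact gauss_abs_dual (fderiv ℝ G x)

end

end Pool.Agent.Lib.MP_6d896a_gt
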