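import Mathlib
import Pool.Agent.Lib.MP_6d896a_gt.GaussL1

/-!
Measures which are images of standard Gaussian measures under Lipschitz `C^1` maps, and their
stability under one step of a contracting chain with Gaussian noise.
-/

namespace Pool.Agent.Lib.MP_6d896a_gt

open MeasureTheory ProbabilityTheory Real
open scoped ENNReal

section split

variable {ι κ : Type} [Fintype ι] [Fintype κ]

/-- split the coordinates of a Euclidean space -/
def split (z : EuclideanSpace ℝ (ι ⊕ κ)) : EuclideanSpace ℝ ι × EuclideanSpace ℝ κ :=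
  (WithLp.toLp 2 (fun i => z (Sum.inl i)), WithLp.toLp 2 (fun i => z (Sum.inr i)))

lemma split_contDiff : ContDiff ℝ 1 (split : EuclideanSpace ℝ (ι ⊕ κ) → _) := by
  unfold split
  apply ContDiff.prodMk
  · rw [contDiff_euclidean]
    intro i
    exact (EuclideanSpace.proj (𝕜 := ℝ) (Sum.inl i : ι ⊕ κ)).contDiff
  · rw [contDiff_euclidean]
    intro i
    exact (EuclideanSpace.proj (𝕜 := ℝ) (Sum.inr i : ι ⊕ κ)).contDiff

lemma split_norm (z w : EuclideanSpace ℝ (ι ⊕ κ)) :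
    ‖z - w‖ ^ 2 = ‖(split z).1 - (split w).1‖ ^ 2 + ‖(split z).2 - (split w).2‖ ^ 2 := by
  rw [EuclideanSpace.norm_sq_eq, EuclideanSpace.norm_sq_eq, EuclideanSpace.norm_sq_eq,
    Fintype.sum_sum_type]
  rfl

lemma split_gauss : (stdGaussian (EuclideanSpace ℝ (ι ⊕ κ))).map split =
    (stdGaussian (EuclideanSpace ℝ ι)).prod (stdGaussian (EuclideanSpace ℝ κ)) := by
  have hm : Measurable (split : EuclideanSpace ℝ (ι ⊕ κ) → _) := split_contDiff.continuous.measurable
  have m1 : ∀ {α : Type} [Fintype α], Measurable (WithLp.toLp 2 : (α → ℝ) → EuclideanSpace ℝ α) :=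
    fun {α} _ => (PiLp.continuous_toLp 2 (fun _ : α => ℝ)).measurable
  rw [← map_pi_eq_stdGaussian, Measure.map_map hm m1, ← map_pi_eq_stdGaussian,
    ← map_pi_eq_stdGaussian, Measure.map_prod_map _ _ m1 m1]
  have h1 := (measurePreserving_sumPiEquivProdPi (X := fun _ : ι ⊕ κ => ℝ)
    (fun _ => gaussianReal 0 1)).map_eq
  rw [← h1, Measure.map_map (m1.prodMap m1) (MeasurableEquiv.measurable _)]
  rfl

end split

section GI

variable {E : Type*} [NormedAddCommGroup E] [InnerProductSpace ℝ E] [FiniteDimensional ℝ E]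
  [MeasurableSpace E] [BorelSpace E]

/-- images of standard Gaussian measures under `C^1` maps which are `L`-Lipschitz -/
def GI (L : ℝ) (ν : Measure E) : Prop :=
  ∃ (ι : Type) (_ : Fintype ι) (Φ : EuclideanSpace ℝ ι → E), ContDiff ℝ 1 Φ ∧
    (∀ z w, ‖Φ z - Φ w‖ ≤ L * ‖z - w‖) ∧ (stdGaussian (EuclideanSpace ℝ ι)).map Φ = ν

omit [FiniteDimensional ℝ E] in
lemma GI_prob {L : ℝ} {ν : Measure E} (h : GI L ν) : IsProbabilityMeasure ν := by
  obtain ⟨ι, _, Φ, hΦ, _, h⟩ := h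
  rw [← h]
  exact Measure.isProbabilityMeasure_map hΦ.continuous.measurable.aemeasurable

omit [FiniteDimensional ℝ E] [BorelSpace E] in
lemma GI_mono {L L' : ℝ} (hL : L ≤ L') {ν : Measure E} (h : GI L ν) : GI L' ν := by
  obtain ⟨ι, i, Φ, hΦ, h1, h2⟩ := h
  exact ⟨ι, i, Φ, hΦ, fun z w => (h1 z w).trans (mul_le_mul_of_nonneg_right hL (norm_nonneg _)), h2⟩

omit [FiniteDimensional ℝ E] [BorelSpace E] in
lemma GI_dirac (x : E) : GI 0 (Measure.dirac x) := by
  refine ⟨Empty, inferInstance, fun _ => x, contDiff_const, by simp, ?_⟩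
  rw [Measure.map_const]
  simp

/-- `L^1` Poincare inequality for Lipschitz images of Gaussian measures -/
theorem GI_L1 {L : ℝ} (hL : 0 ≤ L) {ν : Measure E} (h : GI L ν) {g : E → ℝ}
    (hg : ContDiff ℝ 1 g) :
    ∫⁻ p, ‖g p.2 - g p.1‖ₑ ∂(ν.prod ν) ≤
      ENNReal.ofReal (π / 2 * L) * ∫⁻ x, ‖fderiv ℝ g x‖ₑ ∂ν := by
  obtain ⟨ι, _, Φ, hΦ, hlip, rfl⟩ := h
  have hΦm : Measurable Φ := hΦ.continuous.measurable
  have hgc : Continuous g := hg.continuous
  rw [Measure.map_prod_map _ _ hΦm hΦm]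
  have hmeas1 : Measurable (fun p : E × E => ‖g p.2 - g p.1‖ₑ) :=
    ((hgc.comp continuous_snd).sub (hgc.comp continuous_fst)).measurable.enorm
  rw [lintegral_map hmeas1 (hΦm.prodMap hΦm)]
  have hmeas2 : Measurable (fun x : E => ‖fderiv ℝ g x‖ₑ) :=
    (hg.continuous_fderiv (by norm_num)).measurable.enorm
  rw [lintegral_map hmeas2 hΦm]
  have h1 := gauss_L1 (G := g ∘ Φ) (hg.comp hΦ)
  refine h1.trans ?_
  rw [ENNReal.ofReal_mul (by positivity), mul_assoc]
  gcongr
  have hmeas3 : Measurable (fun z => ‖fderiv ℝ g (Φ z)‖ₑ) := hmeas2.comp hΦm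
  rw [← lintegral_const_mul _ hmeas3]
  apply lintegral_mono
  intro z
  have h2 : fderiv ℝ (g ∘ Φ) z = (fderiv ℝ g (Φ z)).comp (fderiv ℝ Φ z) :=
    fderiv_comp z ((hg.differentiable (by norm_num)) _) ((hΦ.differentiable (by norm_num)) _)
  have h3 : ‖fderiv ℝ Φ z‖ ≤ L := by
    have : LipschitzWith (Real.toNNReal L) Φ := by
      apply LipschitzWith.of_dist_le_mul
      intro a b
      rw [dist_eq_norm, dist_eq_norm, Real.coe_toNNReal L hL]
      exact hlip a b
    have h4 := norm_fderiv_le_of_lipschitz ℝ (x₀ := z) this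
    rwa [Real.coe_toNNReal L hL] at h4
  have h4 : ‖fderiv ℝ (g ∘ Φ) z‖ ≤ L * ‖fderiv ℝ g (Φ z)‖ := by
    rw [h2]
    refine (ContinuousLinearMap.opNorm_comp_le _ _).trans ?_
    rw [mul_comm]
    exact mul_le_mul_of_nonneg_right h3 (norm_nonneg _)
  calc ‖fderiv ℝ (g ∘ Φ) z‖ₑ = ENNReal.ofReal ‖fderiv ℝ (g ∘ Φ) z‖ := (ofReal_norm _).symm
    _ ≤ ENNReal.ofReal (L * ‖fderiv ℝ g (Φ z)‖) := ENNReal.ofReal_le_ofReal h4
    _ = ENNReal.ofReal L * ‖fderiv ℝ g (Φ z)‖ₑ := by
      rw [ENNReal.ofReal_mul hL, ofReal_norm]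

end GI

section step

variable {κ : Type} [Fintype κ]

/-- one step: contraction and Gaussian noise -/
noncomputable def stepM (φ : EuclideanSpace ℝ κ → EuclideanSpace ℝ κ) (b : ℝ)
    (ν : Measure (EuclideanSpace ℝ κ)) : Measure (EuclideanSpace ℝ κ) :=
  (ν.prod (stdGaussian (EuclideanSpace ℝ κ))).map (fun p => φ p.1 + b • p.2)

lemma GI_step {L a b : ℝ} (hL : 0 ≤ L) (ha : 0 ≤ a) (hb : 0 ≤ b)
    {φ : EuclideanSpace ℝ κ → EuclideanSpace ℝ κ}
    (hφ : ContDiff ℝ 1 φ) (hlip : ∀ x y, ‖φ x - φ y‖ ≤ a * ‖x - y‖)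
    {ν : Measure (EuclideanSpace ℝ κ)} (h : GI L ν) :
    GI (Real.sqrt (a ^ 2 * L ^ 2 + b ^ 2)) (stepM φ b ν) := by
  obtain ⟨ι, _, Φ, hΦ, hΦl, rfl⟩ := h
  have hΦm : Measurable Φ := hΦ.continuous.measurable
  have hφm : Measurable φ := hφ.continuous.measurable
  refine ⟨ι ⊕ κ, inferInstance, fun z => φ (Φ (split z).1) + b • (split z).2, ?_, ?_, ?_⟩
  · exact (hφ.comp (hΦ.comp (contDiff_fst.comp split_contDiff))).add
      ((contDiff_snd.comp split_contDiff).const_smul b)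
  · intro z w
    have h1 : ‖φ (Φ (split z).1) + b • (split z).2 - (φ (Φ (split w).1) + b • (split w).2)‖ ≤
        a * L * ‖(split z).1 - (split w).1‖ + b * ‖(split z).2 - (split w).2‖ := by
      have e : φ (Φ (split z).1) + b • (split z).2 - (φ (Φ (split w).1) + b • (split w).2) =
        (φ (Φ (split z).1) - φ (Φ (split w).1)) + b • ((split z).2 - (split w).2) := by
        rw [smul_sub]; abel
      rw [e]
      refine (norm_add_le _ _).trans (add_le_add ?_ ?_)
      · refine (hlip _ _).trans ?_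
        rw [mul_assoc]
        exact mul_le_mul_of_nonneg_left (hΦl _ _) ha
      · rw [norm_smul, Real.norm_eq_abs, abs_of_nonneg hb]
    refine h1.trans ?_
    have h2 := split_norm z w
    set p := ‖(split z).1 - (split w).1‖
    set q := ‖(split z).2 - (split w).2‖
    have h3 : ‖z - w‖ = Real.sqrt (p ^ 2 + q ^ 2) := by
      rw [← h2, Real.sqrt_sq (norm_nonneg _)]
    rw [h3, ← Real.sqrt_mul (by positivity)]
    apply Real.le_sqrt_of_sq_le
    nlinarith [sq_nonneg (a * L * q - b * p)]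
  · unfold stepM
    have e : (stdGaussian (EuclideanSpace ℝ ι)).map Φ = (stdGaussian (EuclideanSpace ℝ ι)).map Φ := rfl
    have h1 : ((stdGaussian (EuclideanSpace ℝ ι)).map Φ).prod (stdGaussian (EuclideanSpace ℝ κ)) =
        ((stdGaussian (EuclideanSpace ℝ ι)).prod (stdGaussian (EuclideanSpace ℝ κ))).map
          (Prod.map Φ id) := by
      rw [← Measure.map_prod_map _ _ hΦm measurable_id, Measure.map_id]
    have hsm : Measurable (split : EuclideanSpace ℝ (ι ⊕ κ) → _) :=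
      split_contDiff.continuous.measurable
    have hm2 : Measurable (fun p : EuclideanSpace ℝ κ × EuclideanSpace ℝ κ =>
        φ p.1 + b • p.2) := (hφm.comp measurable_fst).add (measurable_snd.const_smul b)
    rw [h1, ← split_gauss, Measure.map_map (hΦm.prodMap measurable_id) hsm,
      Measure.map_map hm2 ((hΦm.prodMap measurable_id).comp hsm)]
    rfl

/-- integral against a step -/
lemma lintegral_stepM {φ : EuclideanSpace ℝ κ → EuclideanSpace ℝ κ} (hφ : Measurable φ) (b : ℝ)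
    (ν : Measure (EuclideanSpace ℝ κ)) [SFinite ν] {F : EuclideanSpace ℝ κ → ℝ≥0∞}
    (hF : Measurable F) :
    ∫⁻ x, F x ∂(stepM φ b ν) = ∫⁻ x, ∫⁻ z, F (φ x + b • z)
      ∂(stdGaussian (EuclideanSpace ℝ κ)) ∂ν := by
  unfold stepM
  have hm2 : Measurable (fun p : EuclideanSpace ℝ κ × EuclideanSpace ℝ κ =>
        φ p.1 + b • p.2) := (hφ.comp measurable_fst).add (measurable_snd.const_smul b)
  have hm3 : Measurable (fun p : EuclideanSpace ℝ κ × EuclideanSpace ℝ κ =>
        F (φ p.1 + b • p.2)) := hF.comp hm2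
  rw [lintegral_map hF hm2, lintegral_prod _ hm3.aemeasurable]

end step

end Pool.Agent.Lib.MP_6d896a_gt
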