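import Mathlib
import Pool.Agent.Lib.MP_6d896a_gt.GImage

/-!
Density of the scaled Gaussian measure.
-/

namespace Pool.Agent.Lib.MP_6d896a_gt

open MeasureTheory ProbabilityTheory Real
open scoped ENNReal

variable {E : Type*} [NormedAddCommGroup E] [InnerProductSpace ℝ E] [FiniteDimensional ℝ E]
  [MeasurableSpace E] [BorelSpace E]

variable (E) in
/-- normalising constant -/
noncomputable def gZ (s : ℝ) : ℝ := ∫ v : E, Real.exp (-s * ‖v‖ ^ 2)

/-- Gaussian kernel -/
noncomputable def gk (s : ℝ) (w : E) : ℝ := (gZ E s)⁻¹ * Real.exp (-s * ‖w‖ ^ 2)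

lemma gZ_pos {s : ℝ} (hs : 0 < s) : 0 < gZ E s := by
  unfold gZ
  rw [GaussianFourier.integral_rexp_neg_mul_sq_norm hs]
  positivity

lemma gexp_integrable {s : ℝ} (hs : 0 < s) :
    Integrable (fun v : E => Real.exp (-s * ‖v‖ ^ 2)) := by
  have h := GaussianFourier.integrable_cexp_neg_mul_sq_norm_add (V := E) (b := (s : ℂ))
    (by simpa using hs) 0 0
  have h2 := h.re
  refine h2.congr (ae_of_all _ fun v => ?_)
  have e : (-(s : ℂ) * (‖v‖ : ℂ) ^ 2 + 0 * ((inner ℝ (0 : E) v : ℝ) : ℂ)) =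
    ((-s * ‖v‖ ^ 2 : ℝ) : ℂ) := by push_cast; ring
  show (Complex.exp (-(s : ℂ) * (‖v‖ : ℂ) ^ 2 + 0 * ((inner ℝ (0 : E) v : ℝ) : ℂ))).re = _
  rw [e, Complex.exp_ofReal_re]

lemma gk_pos {s : ℝ} (hs : 0 < s) (w : E) : 0 < gk s w := by
  unfold gk
  have := gZ_pos (E := E) hs
  positivity

lemma gk_continuous (s : ℝ) : Continuous (gk s : E → ℝ) := by
  unfold gk
  fun_prop

lemma gk_integrable {s : ℝ} (hs : 0 < s) : Integrable (gk s : E → ℝ) :=
  (gexp_integrable hs).const_mul _

lemma gk_integral {s : ℝ} (hs : 0 < s) : ∫ w : E, gk s w = 1 := by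
  unfold gk
  rw [integral_const_mul]
  exact inv_mul_cancel₀ (gZ_pos hs).ne'

/-- the measure with density the Gaussian kernel -/
noncomputable def gM (s : ℝ) : Measure E := volume.withDensity (fun w => ENNReal.ofReal (gk s w))

lemma gM_prob {s : ℝ} (hs : 0 < s) : IsProbabilityMeasure (gM s : Measure E) := by
  constructor
  unfold gM
  rw [withDensity_apply _ MeasurableSet.univ, Measure.restrict_univ,
    ← ofReal_integral_eq_lintegral_ofReal (gk_integrable hs) (ae_of_all _ fun w => (gk_pos hs w).le),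
    gk_integral hs, ENNReal.ofReal_one]

lemma charFun_gM {s : ℝ} (hs : 0 < s) (t : E) :
    charFun (gM s : Measure E) t = Complex.exp (-(‖t‖ ^ 2 / (4 * s) : ℝ)) := by
  rw [charFun_apply]
  have h1 : (gM s : Measure E) = volume.withDensity
      (fun w => ((Real.toNNReal (gk s w) : NNReal) : ℝ≥0∞)) := rfl
  rw [h1, integral_withDensity_eq_integral_smul
    ((gk_continuous s).measurable.real_toNNReal)]
  have hZ := gZ_pos (E := E) hs
  have h2 : ∀ w : E, (Real.toNNReal (gk s w)) • Complex.exp ((inner ℝ w t : ℝ) * Complex.I) =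
      ((gZ E s)⁻¹ : ℝ) * Complex.exp (-(s : ℂ) * (‖w‖ : ℂ) ^ 2 + Complex.I * (inner ℝ t w : ℝ)) := by
    intro w
    rw [NNReal.smul_def, Real.coe_toNNReal _ (gk_pos hs w).le, gk, Complex.real_smul,
      Complex.ofReal_mul, Complex.ofReal_exp, mul_assoc, ← Complex.exp_add]
    congr 2
    rw [real_inner_comm]
    push_cast
    ring
  simp_rw [h2]
  rw [integral_const_mul, GaussianFourier.integral_cexp_neg_mul_sq_norm_add (by simpa using hs)]
  have h3 : gZ E s = (π / s) ^ ((Module.finrank ℝ E : ℝ) / 2) := by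
    unfold gZ
    rw [GaussianFourier.integral_rexp_neg_mul_sq_norm hs]
  have h4 : ((π : ℂ) / (s : ℂ)) ^ ((Module.finrank ℝ E : ℂ) / 2) = ((gZ E s : ℝ) : ℂ) := by
    rw [h3, Complex.ofReal_cpow (by positivity)]
    push_cast
    rfl
  rw [h4, ← mul_assoc, ← Complex.ofReal_mul, inv_mul_cancel₀ hZ.ne']
  rw [Complex.ofReal_one, one_mul, Complex.I_sq]
  congr 1
  push_cast
  ring

/-- the law of `b Z` -/
lemma map_smul_gauss {b : ℝ} (hb : 0 < b) :
    (stdGaussian E).map (fun z => b • z) = gM (1 / (2 * b ^ 2)) := by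
  have hs : 0 < 1 / (2 * b ^ 2) := by positivity
  have hp := gM_prob (E := E) hs
  have hp2 : IsProbabilityMeasure ((stdGaussian E).map (fun z => b • z)) :=
    Measure.isProbabilityMeasure_map (by fun_prop)
  apply Measure.ext_of_charFun
  funext t
  rw [charFun_map_smul, charFun_stdGaussian, charFun_gM hs, norm_smul, Real.norm_eq_abs]
  congr 1
  push_cast
  rw [mul_pow, ← Complex.ofReal_pow |b| 2, sq_abs]
  push_cast
  field_simp
  ring

/-- change of variables for one Gaussian step -/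
lemma lintegral_gauss_step {b : ℝ} (hb : 0 < b) (a : E) {G : E → ℝ≥0∞} (hG : Measurable G) :
    ∫⁻ z, G (a + b • z) ∂(stdGaussian E) =
      ∫⁻ x, G x * ENNReal.ofReal (gk (1 / (2 * b ^ 2)) (x - a)) := by
  have hm : Measurable (fun w : E => G (a + w)) := hG.comp (measurable_const_add a)
  have hm2 : Measurable (fun z : E => b • z) := by fun_prop
  have h1 : ∫⁻ z, G (a + b • z) ∂(stdGaussian E) =
      ∫⁻ w, G (a + w) ∂((stdGaussian E).map (fun z => b • z)) := by
    rw [lintegral_map hm hm2]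
  have hk : Measurable (fun w : E => ENNReal.ofReal (gk (1 / (2 * b ^ 2)) w)) :=
    (gk_continuous _).measurable.ennreal_ofReal
  rw [h1, map_smul_gauss hb, gM, lintegral_withDensity_eq_lintegral_mul _ hk hm]
  have h2 := lintegral_add_right_eq_self (μ := (volume : Measure E))
    (fun x => G x * ENNReal.ofReal (gk (1 / (2 * b ^ 2)) (x - a))) a
  rw [← h2]
  apply lintegral_congr
  intro w
  simp only [Pi.mul_apply, add_sub_cancel_right]
  rw [mul_comm, add_comm a w]

end Pool.Agent.Lib.MP_6d896a_gt
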