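import Mathlib
import Pool.Agent.Lib.MP_6d896a_gt.GDensity

/-!
One step of the discretised Langevin chain almost preserves the target measure.
-/

namespace Pool.Agent.Lib.MP_6d896a_gt

open MeasureTheory ProbabilityTheory Real
open scoped ENNReal

variable {E : Type*} [NormedAddCommGroup E] [InnerProductSpace ℝ E] [FiniteDimensional ℝ E]
  [MeasurableSpace E] [BorelSpace E]

/-- a potential with its gradient and the bounds which are used -/
structure Pot (V : E → ℝ) (D : E → E) (kap Lam C3 : ℝ) : Prop where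
  kpos : 0 < kap
  Lpos : 0 ≤ Lam
  Cpos : 0 ≤ C3
  cV : Continuous V
  cD : ContDiff ℝ 1 D
  trap : ∀ x y, |V y - V x - (1 / 2) * inner ℝ (D x + D y) (y - x)| ≤ C3 * ‖y - x‖ ^ 3
  lip : ∀ x y, ‖D x - D y‖ ≤ Lam * ‖x - y‖
  contr : ∀ h, 0 ≤ h → h * (kap + Lam) ≤ 1 → ∀ x y,
    ‖(x - h • D x) - (y - h • D y)‖ ≤ (1 - kap * h) * ‖x - y‖
  mom : ∫⁻ x, ENNReal.ofReal (Real.exp (-V x) * (1 + ‖x‖) ^ 4) < ∞

/-- the target measure, not normalised -/
noncomputable def tgt (V : E → ℝ) : Measure E :=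
  volume.withDensity (fun x => ENNReal.ofReal (Real.exp (-V x)))

/-- joint density -/
noncomputable def Jr (V : E → ℝ) (D : E → E) (h : ℝ) (p : E × E) : ℝ :=
  Real.exp (-V p.1) * gk (1 / (4 * h)) (p.2 - (p.1 - h • D p.1))

/-- difference of the logarithms of the joint densities -/
noncomputable def Dl (V : E → ℝ) (D : E → E) (h : ℝ) (p : E × E) : ℝ :=
  V p.2 - V p.1 - (1 / 2) * inner ℝ (D p.1 + D p.2) (p.2 - p.1)
    - (h / 4) * (‖D p.1‖ ^ 2 - ‖D p.2‖ ^ 2)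

lemma Jr_pos (V : E → ℝ) (D : E → E) {h : ℝ} (hh : 0 < h) (p : E × E) : 0 < Jr V D h p := by
  unfold Jr
  exact mul_pos (Real.exp_pos _) (gk_pos (by positivity) _)

lemma Jr_swap (V : E → ℝ) (D : E → E) {h : ℝ} (hh : 0 < h) (p : E × E) :
    Jr V D h p = Real.exp (Dl V D h p) * Jr V D h p.swap := by
  unfold Jr gk Dl
  simp only [Prod.fst_swap, Prod.snd_swap]
  have e : Real.exp (-V p.1) * ((gZ E (1 / (4 * h)))⁻¹ *
      Real.exp (-(1 / (4 * h)) * ‖p.2 - (p.1 - h • D p.1)‖ ^ 2)) =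
      (gZ E (1 / (4 * h)))⁻¹ * Real.exp (-V p.1 +
        -(1 / (4 * h)) * ‖p.2 - (p.1 - h • D p.1)‖ ^ 2) := by
    rw [Real.exp_add]; ring
  have e2 : Real.exp (-V p.2) * ((gZ E (1 / (4 * h)))⁻¹ *
      Real.exp (-(1 / (4 * h)) * ‖p.1 - (p.2 - h • D p.2)‖ ^ 2)) =
      (gZ E (1 / (4 * h)))⁻¹ * Real.exp (-V p.2 +
        -(1 / (4 * h)) * ‖p.1 - (p.2 - h • D p.2)‖ ^ 2) := by
    rw [Real.exp_add]; ring
  rw [e, e2, mul_left_comm, ← Real.exp_add]
  congr 2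
  have n1 : ‖p.2 - (p.1 - h • D p.1)‖ ^ 2 = ‖p.2 - p.1‖ ^ 2 +
      2 * h * inner ℝ (D p.1) (p.2 - p.1) + h ^ 2 * ‖D p.1‖ ^ 2 := by
    have : p.2 - (p.1 - h • D p.1) = (p.2 - p.1) + h • D p.1 := by abel
    rw [this, norm_add_sq_real, inner_smul_right, norm_smul, mul_pow, Real.norm_eq_abs, sq_abs,
      real_inner_comm]
    ring
  have n2 : ‖p.1 - (p.2 - h • D p.2)‖ ^ 2 = ‖p.2 - p.1‖ ^ 2 -
      2 * h * inner ℝ (D p.2) (p.2 - p.1) + h ^ 2 * ‖D p.2‖ ^ 2 := by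
    have : p.1 - (p.2 - h • D p.2) = -((p.2 - p.1) - h • D p.2) := by abel
    rw [this, norm_neg, norm_sub_sq_real, inner_smul_right, norm_smul, mul_pow, Real.norm_eq_abs,
      sq_abs, real_inner_comm]
    ring
  rw [n1, n2, inner_add_left]
  field_simp
  ring

omit [FiniteDimensional ℝ E] [MeasurableSpace E] [BorelSpace E] in
lemma Dl_swap (V : E → ℝ) (D : E → E) (h : ℝ) (p : E × E) :
    Dl V D h p.swap = - Dl V D h p := by
  unfold Dl
  simp only [Prod.fst_swap, Prod.snd_swap]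
  have : p.1 - p.2 = -(p.2 - p.1) := by abel
  rw [this, inner_neg_right, add_comm (D p.2) (D p.1)]
  ring

lemma exp_sub_one_le (a : ℝ) : |Real.exp a - 1| ≤ |a| * (Real.exp a + 1) := by
  rcases le_total 0 a with h | h
  · rw [abs_of_nonneg h, abs_of_nonneg (by linarith [Real.add_one_le_exp a])]
    have h1 := Real.add_one_le_exp (-a)
    have h2 : Real.exp a * Real.exp (-a) = 1 := by rw [← Real.exp_add]; simp
    have h3 := Real.exp_pos a
    nlinarith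
  · rw [abs_of_nonpos h, abs_of_nonpos (by
      have : Real.exp a ≤ 1 := Real.exp_le_one_iff.mpr h
      linarith)]
    have h1 := Real.add_one_le_exp a
    have h3 := Real.exp_pos a
    nlinarith

lemma Jr_diff (V : E → ℝ) (D : E → E) {h : ℝ} (hh : 0 < h) (p : E × E) :
    |Jr V D h p - Jr V D h p.swap| ≤ |Dl V D h p| * (Jr V D h p + Jr V D h p.swap) := by
  have h1 := Jr_swap V D hh p
  have h2 := Jr_pos V D hh p.swap
  have h3 := exp_sub_one_le (Dl V D h p)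
  rw [h1]
  have e : Real.exp (Dl V D h p) * Jr V D h p.swap - Jr V D h p.swap =
    (Real.exp (Dl V D h p) - 1) * Jr V D h p.swap := by ring
  rw [e, abs_mul, abs_of_pos h2]
  calc |Real.exp (Dl V D h p) - 1| * Jr V D h p.swap
      ≤ (|Dl V D h p| * (Real.exp (Dl V D h p) + 1)) * Jr V D h p.swap :=
        mul_le_mul_of_nonneg_right h3 h2.le
    _ = _ := by ring

section

variable {V : E → ℝ} {D : E → E} {kap Lam C3 : ℝ}

lemma Dl_le (hP : Pot V D kap Lam C3) {h : ℝ} (hh : 0 < h) (p : E × E) :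
    |Dl V D h p| ≤ C3 * ‖p.2 - p.1‖ ^ 3 +
      (h / 4) * (Lam * ‖p.2 - p.1‖ * (2 * ‖D p.1‖ + Lam * ‖p.2 - p.1‖)) := by
  unfold Dl
  refine (abs_sub _ _).trans (add_le_add (hP.trap _ _) ?_)
  rw [abs_mul, abs_of_pos (by positivity : (0 : ℝ) < h / 4)]
  apply mul_le_mul_of_nonneg_left _ (by positivity)
  have h1 := hP.lip p.1 p.2
  rw [norm_sub_rev p.1 p.2] at h1
  have h2 : |‖D p.1‖ - ‖D p.2‖| ≤ Lam * ‖p.2 - p.1‖ := (abs_norm_sub_norm_le _ _).trans h1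
  have h3 : ‖D p.1‖ ^ 2 - ‖D p.2‖ ^ 2 = (‖D p.1‖ - ‖D p.2‖) * (‖D p.1‖ + ‖D p.2‖) := by ring
  rw [h3, abs_mul]
  have h4 : |‖D p.1‖ + ‖D p.2‖| ≤ 2 * ‖D p.1‖ + Lam * ‖p.2 - p.1‖ := by
    rw [abs_of_nonneg (by positivity)]
    have := abs_le.mp h2
    linarith [this.1]
  exact mul_le_mul h2 h4 (abs_nonneg _) (by have := hP.Lpos; positivity)

/-- the increments times the asymmetry -/
lemma step_bound (hP : Pot V D kap Lam C3) {h : ℝ} (hh : 0 < h) (h1 : h ≤ 1) (x z : E) :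
    ‖(x - h • D x + Real.sqrt (2 * h) • z) - x‖ *
      |Dl V D h (x, x - h • D x + Real.sqrt (2 * h) • z)| ≤
    h ^ 2 * (C3 * (‖D x‖ + 2 * ‖z‖) ^ 4 + Lam * (2 + Lam) * (‖D x‖ + 2 * ‖z‖) ^ 3) := by
  set Q := ‖D x‖ + 2 * ‖z‖ with hQ
  set δ := ‖(x - h • D x + Real.sqrt (2 * h) • z) - x‖ with hδ
  have hL := hP.Lpos
  have hC := hP.Cpos
  have hQ0 : 0 ≤ Q := by positivity
  have hs0 : 0 ≤ Real.sqrt h := Real.sqrt_nonneg _
  have hs1 : Real.sqrt h ≤ 1 := Real.sqrt_le_one.mpr h1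
  have hss : Real.sqrt h * Real.sqrt h = h := Real.mul_self_sqrt hh.le
  have hδ0 : 0 ≤ δ := norm_nonneg _
  have hδle : δ ≤ Real.sqrt h * Q := by
    have e : (x - h • D x + Real.sqrt (2 * h) • z) - x = -(h • D x) + Real.sqrt (2 * h) • z := by
      abel
    rw [hδ, e]
    refine (norm_add_le _ _).trans ?_
    rw [norm_neg, norm_smul, norm_smul, Real.norm_eq_abs, Real.norm_eq_abs, abs_of_pos hh,
      abs_of_nonneg (Real.sqrt_nonneg _), Real.sqrt_mul (by norm_num), hQ, mul_add]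
    apply add_le_add
    · apply mul_le_mul_of_nonneg_right _ (norm_nonneg _)
      nlinarith
    · have h2 : Real.sqrt 2 ≤ 2 := by
        rw [Real.sqrt_le_left (by norm_num)]; norm_num
      have : Real.sqrt 2 * Real.sqrt h * ‖z‖ = Real.sqrt 2 * (Real.sqrt h * ‖z‖) := by ring
      rw [this]
      have h3 : 0 ≤ Real.sqrt h * ‖z‖ := by positivity
      nlinarith
  have hδQ : δ ≤ Q := hδle.trans (by nlinarith)
  have hδ2 : δ ^ 2 ≤ h * Q ^ 2 := by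
    calc δ ^ 2 ≤ (Real.sqrt h * Q) ^ 2 := pow_le_pow_left₀ hδ0 hδle 2
      _ = h * Q ^ 2 := by rw [mul_pow, sq (Real.sqrt h), hss]
  have hDQ : ‖D x‖ ≤ Q := by rw [hQ]; linarith [norm_nonneg z]
  have hb := Dl_le hP hh (x, x - h • D x + Real.sqrt (2 * h) • z)
  simp only at hb
  rw [← hδ] at hb
  have hδ4 : δ ^ 4 ≤ h ^ 2 * Q ^ 4 := by
    calc δ ^ 4 = (δ ^ 2) ^ 2 := by ring
      _ ≤ (h * Q ^ 2) ^ 2 := pow_le_pow_left₀ (by positivity) hδ2 2
      _ = _ := by ring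
  calc δ * |Dl V D h (x, x - h • D x + Real.sqrt (2 * h) • z)|
      ≤ δ * (C3 * δ ^ 3 + (h / 4) * (Lam * δ * (2 * ‖D x‖ + Lam * δ))) :=
        mul_le_mul_of_nonneg_left hb hδ0
    _ = C3 * δ ^ 4 + (h / 4) * (Lam * δ ^ 2 * (2 * ‖D x‖ + Lam * δ)) := by ring
    _ ≤ C3 * (h ^ 2 * Q ^ 4) + (h / 4) * (Lam * (h * Q ^ 2) * (2 * Q + Lam * Q)) := by
        gcongr
    _ = h ^ 2 * (C3 * Q ^ 4 + (1 / 4) * (Lam * (2 + Lam) * Q ^ 3)) := by ring
    _ ≤ h ^ 2 * (C3 * Q ^ 4 + Lam * (2 + Lam) * Q ^ 3) := by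
        apply mul_le_mul_of_nonneg_left _ (by positivity)
        have : 0 ≤ Lam * (2 + Lam) * Q ^ 3 := by positivity
        linarith

end

end Pool.Agent.Lib.MP_6d896a_gt
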