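import Mathlib
import Pool.Agent.Lib.MP_6d896a_gt.Bias

/-!
One step of the discretised Langevin chain almost preserves the target measure: integrated form.
-/

namespace Pool.Agent.Lib.MP_6d896a_gt

open MeasureTheory ProbabilityTheory Real
open scoped ENNReal

variable {E : Type*} [NormedAddCommGroup E] [InnerProductSpace ℝ E] [FiniteDimensional ℝ E]
  [MeasurableSpace E] [BorelSpace E]
  {V : E → ℝ} {D : E → E} {kap Lam C3 : ℝ}

/-- the update map of the chain -/
noncomputable def upd (D : E → E) (h : ℝ) (p : E × E) : E :=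
  p.1 - h • D p.1 + Real.sqrt (2 * h) • p.2

lemma upd_measurable (hP : Pot V D kap Lam C3) (h : ℝ) : Measurable (upd D h) := by
  unfold upd
  have hD : Continuous D := hP.cD.continuous
  have : Continuous (fun p : E × E => p.1 - h • D p.1 + Real.sqrt (2 * h) • p.2) := by fun_prop
  exact this.measurable

lemma Jr_measurable (hP : Pot V D kap Lam C3) (h : ℝ) : Measurable (Jr V D h) := by
  unfold Jr
  have hD : Continuous D := hP.cD.continuous
  have hV : Continuous V := hP.cV
  have hk := gk_continuous (E := E) (1 / (4 * h))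
  have : Continuous (fun p : E × E =>
    Real.exp (-V p.1) * gk (1 / (4 * h)) (p.2 - (p.1 - h • D p.1))) := by
    apply Continuous.mul
    · exact Real.continuous_exp.comp (hV.comp continuous_fst).neg
    · apply hk.comp
      fun_prop
  exact this.measurable

lemma tgt_sfinite (V : E → ℝ) (hV : Continuous V) : SFinite (tgt V) := by
  unfold tgt
  infer_instance

lemma tgt_finite (hP : Pot V D kap Lam C3) : IsFiniteMeasure (tgt V) := by
  constructor
  unfold tgt
  rw [withDensity_apply _ MeasurableSet.univ, Measure.restrict_univ]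
  refine lt_of_le_of_lt ?_ hP.mom
  apply lintegral_mono
  intro x
  apply ENNReal.ofReal_le_ofReal
  have h1 : (1 : ℝ) ≤ (1 + ‖x‖) ^ 4 := one_le_pow₀ (by linarith [norm_nonneg x])
  have h2 := Real.exp_pos (-V x)
  nlinarith

/-- joint law of one step started from the target -/
lemma joint_lintegral (hP : Pot V D kap Lam C3) {h : ℝ} (hh : 0 < h) {F : E × E → ℝ≥0∞}
    (hF : Measurable F) :
    ∫⁻ p, F (p.1, upd D h p) ∂((tgt V).prod (stdGaussian E)) =
      ∫⁻ p, F p * ENNReal.ofReal (Jr V D h p) ∂((volume : Measure E).prod volume) := by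
  have hsf := tgt_sfinite V hP.cV
  have hm1 : Measurable (fun p : E × E => F (p.1, upd D h p)) :=
    hF.comp (measurable_fst.prodMk (upd_measurable hP h))
  rw [lintegral_prod _ hm1.aemeasurable]
  have hm2 : Measurable (fun p : E × E => F p * ENNReal.ofReal (Jr V D h p)) :=
    hF.mul (Jr_measurable hP h).ennreal_ofReal
  rw [lintegral_prod _ hm2.aemeasurable]
  have hb : 0 < Real.sqrt (2 * h) := Real.sqrt_pos.mpr (by positivity)
  have hb2 : 1 / (2 * Real.sqrt (2 * h) ^ 2) = 1 / (4 * h) := by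
    rw [Real.sq_sqrt (by positivity)]; ring_nf
  have h1 : ∀ x, ∫⁻ z, F (x, upd D h (x, z)) ∂(stdGaussian E) =
      ∫⁻ y, F (x, y) * ENNReal.ofReal (gk (1 / (4 * h)) (y - (x - h • D x))) := by
    intro x
    have hG : Measurable (fun y => F (x, y)) := hF.comp (measurable_const.prodMk measurable_id)
    have := lintegral_gauss_step hb (x - h • D x) hG
    rw [hb2] at this
    exact this
  simp only [h1]
  unfold tgt
  have hmV : Measurable (fun x => ENNReal.ofReal (Real.exp (-V x))) :=
    (Real.measurable_exp.comp hP.cV.measurable.neg).ennreal_ofReal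
  have hD : Continuous D := hP.cD.continuous
  have hmk : Measurable (fun p : E × E => F (p.1, p.2) *
      ENNReal.ofReal (gk (1 / (4 * h)) (p.2 - (p.1 - h • D p.1)))) := by
    apply Measurable.mul
    · exact hF
    · apply Measurable.ennreal_ofReal
      apply (gk_continuous (E := E) (1 / (4 * h))).measurable.comp
      have : Continuous (fun p : E × E => p.2 - (p.1 - h • D p.1)) := by fun_prop
      exact this.measurable
  rw [lintegral_withDensity_eq_lintegral_mul _ hmV hmk.lintegral_prod_right']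
  apply lintegral_congr
  intro x
  simp only [Pi.mul_apply]
  rw [← lintegral_const_mul']
  · apply lintegral_congr
    intro y
    unfold Jr
    rw [ENNReal.ofReal_mul (Real.exp_pos _).le]
    ring
  · exact ENNReal.ofReal_ne_top

/-- the constant in the bias estimate -/
noncomputable def C0 (V : E → ℝ) (D : E → E) (Lam C3 : ℝ) : ℝ≥0∞ :=
  ∫⁻ p, ENNReal.ofReal (C3 * (‖D p.1‖ + 2 * ‖p.2‖) ^ 4 +
    Lam * (2 + Lam) * (‖D p.1‖ + 2 * ‖p.2‖) ^ 3) ∂((tgt V).prod (stdGaussian E))

lemma C0_lt_top (hP : Pot V D kap Lam C3) : C0 V D Lam C3 < ∞ := by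
  have hsf := tgt_sfinite V hP.cV
  have hL := hP.Lpos
  have hC := hP.Cpos
  set K : ℝ := ‖D 0‖ + Lam + 2 with hK
  have hK1 : 1 ≤ K := by
    have := norm_nonneg (D 0)
    linarith
  set A : ℝ := (C3 + Lam * (2 + Lam)) * K ^ 4 with hA
  have hA0 : 0 ≤ A := by positivity
  have hbound : ∀ p : E × E, C3 * (‖D p.1‖ + 2 * ‖p.2‖) ^ 4 +
    Lam * (2 + Lam) * (‖D p.1‖ + 2 * ‖p.2‖) ^ 3 ≤ (A * (1 + ‖p.1‖) ^ 4) * (1 + ‖p.2‖) ^ 4 := by
    intro p
    have hx : 0 ≤ ‖p.1‖ := norm_nonneg _
    have hz : 0 ≤ ‖p.2‖ := norm_nonneg _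
    have hD : ‖D p.1‖ ≤ ‖D 0‖ + Lam * ‖p.1‖ := by
      have h1 := hP.lip p.1 0
      rw [sub_zero] at h1
      have h2 := norm_sub_norm_le (D p.1) (D 0)
      linarith
    have hD0 := norm_nonneg (D 0)
    have hQ : ‖D p.1‖ + 2 * ‖p.2‖ ≤ K * ((1 + ‖p.1‖) * (1 + ‖p.2‖)) := by
      rw [hK]
      nlinarith [mul_nonneg hx hz, mul_nonneg hD0 hx, mul_nonneg hD0 hz, mul_nonneg hL hx,
        mul_nonneg hL hz, mul_nonneg hL (mul_nonneg hx hz), mul_nonneg hD0 (mul_nonneg hx hz)]
    have hQ0 : 0 ≤ ‖D p.1‖ + 2 * ‖p.2‖ := by positivity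
    have hR : 1 ≤ K * ((1 + ‖p.1‖) * (1 + ‖p.2‖)) := by
      have h3 : 1 ≤ (1 + ‖p.1‖) * (1 + ‖p.2‖) := by nlinarith
      nlinarith
    have h4 : (‖D p.1‖ + 2 * ‖p.2‖) ^ 4 ≤ (K * ((1 + ‖p.1‖) * (1 + ‖p.2‖))) ^ 4 :=
      pow_le_pow_left₀ hQ0 hQ 4
    have h3 : (‖D p.1‖ + 2 * ‖p.2‖) ^ 3 ≤ (K * ((1 + ‖p.1‖) * (1 + ‖p.2‖))) ^ 4 :=
      (pow_le_pow_left₀ hQ0 hQ 3).trans (pow_le_pow_right₀ hR (by norm_num))
    calc C3 * (‖D p.1‖ + 2 * ‖p.2‖) ^ 4 + Lam * (2 + Lam) * (‖D p.1‖ + 2 * ‖p.2‖) ^ 3
        ≤ C3 * (K * ((1 + ‖p.1‖) * (1 + ‖p.2‖))) ^ 4 +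
          Lam * (2 + Lam) * (K * ((1 + ‖p.1‖) * (1 + ‖p.2‖))) ^ 4 :=
          add_le_add (mul_le_mul_of_nonneg_left h4 hC)
            (mul_le_mul_of_nonneg_left h3 (by positivity))
      _ = _ := by rw [hA]; ring
  unfold C0
  have hle : ∫⁻ p, ENNReal.ofReal (C3 * (‖D p.1‖ + 2 * ‖p.2‖) ^ 4 +
    Lam * (2 + Lam) * (‖D p.1‖ + 2 * ‖p.2‖) ^ 3) ∂((tgt V).prod (stdGaussian E)) ≤
    ∫⁻ p, ENNReal.ofReal (A * (1 + ‖p.1‖) ^ 4) * ENNReal.ofReal ((1 + ‖p.2‖) ^ 4)
      ∂((tgt V).prod (stdGaussian E)) := by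
    apply lintegral_mono
    intro p
    beta_reduce
    rw [← ENNReal.ofReal_mul (by positivity)]
    exact ENNReal.ofReal_le_ofReal (hbound p)
  refine lt_of_le_of_lt hle ?_
  have m1 : Measurable (fun x : E => ENNReal.ofReal (A * (1 + ‖x‖) ^ 4)) := by
    apply Measurable.ennreal_ofReal
    have : Continuous (fun x : E => A * (1 + ‖x‖) ^ 4) := by fun_prop
    exact this.measurable
  have m2 : Measurable (fun x : E => ENNReal.ofReal ((1 + ‖x‖) ^ 4)) := by
    apply Measurable.ennreal_ofReal
    have : Continuous (fun x : E => (1 + ‖x‖) ^ 4) := by fun_prop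
    exact this.measurable
  rw [lintegral_prod_mul m1.aemeasurable m2.aemeasurable]
  apply ENNReal.mul_lt_top
  · unfold tgt
    have hmV : Measurable (fun x => ENNReal.ofReal (Real.exp (-V x))) :=
      (Real.measurable_exp.comp hP.cV.measurable.neg).ennreal_ofReal
    rw [lintegral_withDensity_eq_lintegral_mul _ hmV m1]
    have e : ∀ x : E, ENNReal.ofReal (Real.exp (-V x)) * ENNReal.ofReal (A * (1 + ‖x‖) ^ 4) =
        ENNReal.ofReal A * ENNReal.ofReal (Real.exp (-V x) * (1 + ‖x‖) ^ 4) := by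
      intro x
      rw [← ENNReal.ofReal_mul (Real.exp_pos _).le, ← ENNReal.ofReal_mul hA0]
      congr 1
      ring
    simp only [Pi.mul_apply, e]
    rw [lintegral_const_mul']
    · exact ENNReal.mul_lt_top ENNReal.ofReal_lt_top hP.mom
    · exact ENNReal.ofReal_ne_top
  · have hmem : MemLp (fun z : E => (1 : ℝ) + ‖z‖) 4 (stdGaussian E) := by
      apply MemLp.add
      · exact memLp_const 1
      · have : MemLp (id : E → E) 4 (stdGaussian E) := IsGaussian.memLp_id _ 4 (by simp)
        exact this.norm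
    have h2 := hmem.integrable_norm_pow (by norm_num)
    have h3 := h2.lintegral_lt_top
    refine lt_of_le_of_lt (lintegral_mono fun z => ?_) h3
    apply ENNReal.ofReal_le_ofReal
    rw [Real.norm_eq_abs, abs_of_nonneg (by positivity)]

/-- the bias estimate -/
theorem bias (hP : Pot V D kap Lam C3) {h : ℝ} (hh : 0 < h) (h1 : h ≤ 1) {u : E → ℝ} {l : ℝ}
    (hl : 0 ≤ l) (hu : ∀ x y, |u x - u y| ≤ l * ‖x - y‖) :
    ‖∫ p, (u (upd D h p) - u p.1) ∂((tgt V).prod (stdGaussian E))‖ₑ ≤
      ENNReal.ofReal (l * h ^ 2) * C0 V D Lam C3 := by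
  have hsf := tgt_sfinite V hP.cV
  have huc : Continuous u := by
    have : LipschitzWith (Real.toNNReal l) u := by
      apply LipschitzWith.of_dist_le_mul
      intro a b
      rw [Real.dist_eq, dist_eq_norm, Real.coe_toNNReal l hl]
      exact hu a b
    exact this.continuous
  set vv2 : Measure (E × E) := (volume : Measure E).prod volume with hvv
  have hJm := Jr_measurable hP h
  have hmap : Measurable (fun p : E × E => (p.1, upd D h p)) :=
    measurable_fst.prodMk (upd_measurable hP h)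
  -- law as density
  have hlaw : ((tgt V).prod (stdGaussian E)).map (fun p => (p.1, upd D h p)) =
      vv2.withDensity (fun p => ENNReal.ofReal (Jr V D h p)) := by
    apply Measure.ext_of_lintegral
    intro F hF
    rw [lintegral_map hF hmap, joint_lintegral hP hh hF,
      lintegral_withDensity_eq_lintegral_mul _ hJm.ennreal_ofReal hF]
    apply lintegral_congr
    intro p
    simp [mul_comm]
  set f : E × E → ℝ := fun p => u p.2 - u p.1 with hf
  have hfm : Measurable f := (huc.comp continuous_snd).measurable.sub (huc.comp continuous_fst).measurable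
  have e1 : ∫ p, (u (upd D h p) - u p.1) ∂((tgt V).prod (stdGaussian E)) =
      ∫ p, f p * Jr V D h p ∂vv2 := by
    have e2 : ∫ p, (u (upd D h p) - u p.1) ∂((tgt V).prod (stdGaussian E)) =
        ∫ p, f p ∂(((tgt V).prod (stdGaussian E)).map (fun p => (p.1, upd D h p))) := by
      rw [integral_map hmap.aemeasurable hfm.aestronglyMeasurable]
    rw [e2, hlaw]
    have e3 : (fun p => ENNReal.ofReal (Jr V D h p)) =
      fun p => ((Real.toNNReal (Jr V D h p) : NNReal) : ℝ≥0∞) := rfl
    rw [e3, integral_withDensity_eq_integral_smul hJm.real_toNNReal]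
    apply integral_congr_ae
    apply ae_of_all
    intro p
    simp only
    rw [NNReal.smul_def, Real.coe_toNNReal _ (Jr_pos V D hh p).le, smul_eq_mul, mul_comm]
  -- swap
  have hswap : vv2.map Prod.swap = vv2 := Measure.prod_swap
  have e4 : ∫ p, f p * Jr V D h p ∂vv2 = - ∫ p, f p * Jr V D h p.swap ∂vv2 := by
    have : ∫ p, f p * Jr V D h p ∂vv2 = ∫ p, f p.swap * Jr V D h p.swap ∂vv2 := by
      conv_lhs => rw [← hswap]
      have hm3 : Measurable (fun p => f p * Jr V D h p) := hfm.mul hJm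
      rw [integral_map measurable_swap.aemeasurable hm3.aestronglyMeasurable]
    rw [this, ← integral_neg]
    apply integral_congr_ae
    apply ae_of_all
    intro p
    simp only [hf, Prod.fst_swap, Prod.snd_swap]
    ring
  -- the main bound
  set W : E × E → ℝ := fun p => ‖p.2 - p.1‖ * |Dl V D h p| with hW
  have hWm : Measurable W := by
    apply Measurable.mul
    · exact (continuous_snd.sub continuous_fst).norm.measurable
    · unfold Dl
      have hD : Continuous D := hP.cD.continuous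
      have hV : Continuous V := hP.cV
      have : Continuous (fun p : E × E => V p.2 - V p.1 - (1 / 2) * inner ℝ (D p.1 + D p.2)
        (p.2 - p.1) - (h / 4) * (‖D p.1‖ ^ 2 - ‖D p.2‖ ^ 2)) := by fun_prop
      exact this.abs.measurable
  have hmain : ∫⁻ p, ENNReal.ofReal (W p) * ENNReal.ofReal (Jr V D h p) ∂vv2 ≤
      ENNReal.ofReal (h ^ 2) * C0 V D Lam C3 := by
    rw [← joint_lintegral hP hh hWm.ennreal_ofReal]
    unfold C0
    rw [← lintegral_const_mul']
    · apply lintegral_mono
      intro p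
      beta_reduce
      rw [← ENNReal.ofReal_mul (by positivity)]
      apply ENNReal.ofReal_le_ofReal
      exact step_bound hP hh h1 p.1 p.2
    · exact ENNReal.ofReal_ne_top
  have hWs : ∀ p, W p.swap = W p := by
    intro p
    simp only [hW, Prod.fst_swap, Prod.snd_swap]
    rw [Dl_swap, abs_neg, norm_sub_rev]
  have hmain2 : ∫⁻ p, ENNReal.ofReal (W p) * ENNReal.ofReal (Jr V D h p.swap) ∂vv2 =
      ∫⁻ p, ENNReal.ofReal (W p) * ENNReal.ofReal (Jr V D h p) ∂vv2 := by
    conv_rhs => rw [← hswap]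
    have hm4 : Measurable (fun p => ENNReal.ofReal (W p) * ENNReal.ofReal (Jr V D h p)) :=
      hWm.ennreal_ofReal.mul hJm.ennreal_ofReal
    rw [lintegral_map hm4 measurable_swap]
    apply lintegral_congr
    intro p
    rw [hWs]
  -- integrability
  have hfin := C0_lt_top hP
  have hf_le : ∀ p, |f p| ≤ l * ‖p.2 - p.1‖ := fun p => hu _ _
  have hI1 : Integrable (fun p => f p * Jr V D h p) vv2 ∨ ¬ Integrable (fun p => f p * Jr V D h p) vv2 :=
    em _
  rcases hI1 with hI | hI
  · have hI2 : Integrable (fun p => f p * Jr V D h p.swap) vv2 := by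
      have h2 : Integrable (fun p : E × E => f p.swap * Jr V D h p.swap) vv2 := by
        have : Integrable (fun p => f p * Jr V D h p) (vv2.map Prod.swap) := by rwa [hswap]
        exact (integrable_map_measure (hfm.mul hJm).aestronglyMeasurable
          measurable_swap.aemeasurable).mp this
      refine h2.neg.congr (ae_of_all _ fun p => ?_)
      simp only [hf, Pi.neg_apply, Prod.fst_swap, Prod.snd_swap]
      ring
    have e5 : (2 : ℝ) * ∫ p, f p * Jr V D h p ∂vv2 =
        ∫ p, f p * (Jr V D h p - Jr V D h p.swap) ∂vv2 := by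
      have : ∫ p, f p * (Jr V D h p - Jr V D h p.swap) ∂vv2 =
          ∫ p, f p * Jr V D h p ∂vv2 - ∫ p, f p * Jr V D h p.swap ∂vv2 := by
        rw [← integral_sub hI hI2]
        congr 1
        funext p
        ring
      rw [this]
      linarith
    have e6 : ‖(2 : ℝ) * ∫ p, f p * Jr V D h p ∂vv2‖ₑ ≤
        2 * (ENNReal.ofReal (l * h ^ 2) * C0 V D Lam C3) := by
      rw [e5]
      refine (enorm_integral_le_lintegral_enorm _).trans ?_
      calc ∫⁻ p, ‖f p * (Jr V D h p - Jr V D h p.swap)‖ₑ ∂vv2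
          ≤ ∫⁻ p, ENNReal.ofReal l * (ENNReal.ofReal (W p) * ENNReal.ofReal (Jr V D h p) +
            ENNReal.ofReal (W p) * ENNReal.ofReal (Jr V D h p.swap)) ∂vv2 := by
            apply lintegral_mono
            intro p
            have hJ1 := Jr_pos V D hh p
            have hJ2 := Jr_pos V D hh p.swap
            have hWp : 0 ≤ W p := by simp only [hW]; positivity
            beta_reduce
            rw [← ENNReal.ofReal_mul hWp, ← ENNReal.ofReal_mul hWp, ← ENNReal.ofReal_add
              (by positivity) (by positivity), ← ENNReal.ofReal_mul hl, ← ofReal_norm]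
            apply ENNReal.ofReal_le_ofReal
            rw [norm_mul, Real.norm_eq_abs, Real.norm_eq_abs]
            calc |f p| * |Jr V D h p - Jr V D h p.swap|
                ≤ (l * ‖p.2 - p.1‖) * (|Dl V D h p| * (Jr V D h p + Jr V D h p.swap)) :=
                  mul_le_mul (hf_le p) (Jr_diff V D hh p) (abs_nonneg _) (by positivity)
              _ = _ := by simp only [hW]; ring
        _ = ENNReal.ofReal l * (∫⁻ p, ENNReal.ofReal (W p) * ENNReal.ofReal (Jr V D h p) ∂vv2 +
            ∫⁻ p, ENNReal.ofReal (W p) * ENNReal.ofReal (Jr V D h p.swap) ∂vv2) := by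
            rw [lintegral_const_mul', lintegral_add_left]
            · exact hWm.ennreal_ofReal.mul hJm.ennreal_ofReal
            · exact ENNReal.ofReal_ne_top
        _ ≤ ENNReal.ofReal l * (ENNReal.ofReal (h ^ 2) * C0 V D Lam C3 +
            ENNReal.ofReal (h ^ 2) * C0 V D Lam C3) := by
            rw [hmain2]
            gcongr
        _ = _ := by
            rw [ENNReal.ofReal_mul hl]
            ring
    rw [e1]
    rw [enorm_mul] at e6
    have h2 : ‖(2 : ℝ)‖ₑ = 2 := by
      rw [← ofReal_norm]; norm_num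
    rw [h2] at e6
    exact (ENNReal.mul_le_mul_iff_right (by norm_num) (by norm_num)).mp e6
  · rw [e1, integral_undef hI]
    simp

end Pool.Agent.Lib.MP_6d896a_gt
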