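import Mathlib

/-!
Coordinate vectors, reflections in coordinate hyperplanes, and test functions with Lipschitz
gradient.
-/

set_option autoImplicit false

namespace Pool.Agent.Lib.MP_6d896a_gt

open MeasureTheory ProbabilityTheory Filter Topology Metric
open scoped ENNReal NNReal

variable {n : ℕ}

/-- coordinate vector -/
noncomputable abbrev ej (j : Fin n) : EuclideanSpace ℝ (Fin n) := EuclideanSpace.single j (1 : ℝ)

lemma sum_ej (x : EuclideanSpace ℝ (Fin n)) : ∑ j, x j • ej j = x := by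
  ext k
  simp [ej, Finset.sum_apply, Pi.single_apply]

lemma ej_norm (j : Fin n) : ‖ej j‖ = 1 := by simp [ej]

/-- test functions with Lipschitz gradient -/
structure CL (f : EuclideanSpace ℝ (Fin n) → ℝ) (b l L : ℝ) : Prop where
  cd : ContDiff ℝ 1 f
  bd : ∀ x, |f x| ≤ b
  gd : ∀ x, ‖fderiv ℝ f x‖ ≤ l
  hd : ∀ x y, ‖fderiv ℝ f x - fderiv ℝ f y‖ ≤ L * ‖x - y‖

lemma CL.nonneg {f : EuclideanSpace ℝ (Fin n) → ℝ} {b l L : ℝ} (hf : CL f b l L) :
    0 ≤ b ∧ 0 ≤ l :=
  ⟨(abs_nonneg _).trans (hf.bd 0), (norm_nonneg _).trans (hf.gd 0)⟩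

lemma CL.fdc {f : EuclideanSpace ℝ (Fin n) → ℝ} {b l L : ℝ} (hf : CL f b l L) :
    Continuous (fderiv ℝ f) := hf.cd.continuous_fderiv (by simp)

lemma CL.lip {f : EuclideanSpace ℝ (Fin n) → ℝ} {b l L : ℝ} (hf : CL f b l L)
    (x y : EuclideanSpace ℝ (Fin n)) : |f x - f y| ≤ l * ‖x - y‖ := by
  have := convex_univ.norm_image_sub_le_of_norm_fderiv_le (𝕜 := ℝ)
    (fun x _ => (hf.cd.differentiable (by simp)).differentiableAt (x := x)) (fun x _ => hf.gd x)
    (Set.mem_univ y) (Set.mem_univ x)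
  exact this

lemma opNorm_sq (L : EuclideanSpace ℝ (Fin n) →L[ℝ] ℝ) : ‖L‖ ^ 2 = ∑ i, (L (ej i)) ^ 2 := by
  set v := (InnerProductSpace.toDual ℝ (EuclideanSpace ℝ (Fin n))).symm L with hv
  have h1 : ‖v‖ = ‖L‖ := by rw [hv]; exact LinearIsometryEquiv.norm_map _ _
  have h2 : ∀ x, L x = inner ℝ v x := by
    intro x
    rw [hv, InnerProductSpace.toDual_symm_apply]
  rw [← h1, EuclideanSpace.norm_sq_eq]
  apply Finset.sum_congr rfl
  intro i _
  rw [h2, Real.norm_eq_abs, sq_abs]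
  congr 1
  simp [ej, EuclideanSpace.inner_single_right]

/-- the reflection in a coordinate hyperplane -/
noncomputable def Rf (i : Fin n) : EuclideanSpace ℝ (Fin n) ≃ₗᵢ[ℝ] EuclideanSpace ℝ (Fin n) :=
  LinearIsometryEquiv.piLpCongrRight 2 (fun j => if j = i then LinearIsometryEquiv.neg ℝ else
    LinearIsometryEquiv.refl ℝ ℝ)

lemma Rf_apply (i : Fin n) (x : EuclideanSpace ℝ (Fin n)) (j : Fin n) :
    Rf i x j = if j = i then - x j else x j := by
  unfold Rf
  simp only [LinearIsometryEquiv.piLpCongrRight_apply]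
  by_cases hj : j = i
  · simp [hj]
  · simp [hj]

lemma Rf_ej (i : Fin n) : Rf i (ej i) = - ej i := by
  ext k
  rw [Rf_apply]
  by_cases hk : k = i <;> simp [ej, hk]

lemma Rf_Rf (i : Fin n) (x : EuclideanSpace ℝ (Fin n)) : Rf i (Rf i x) = x := by
  ext k
  rw [Rf_apply, Rf_apply]
  by_cases hk : k = i <;> simp [hk]

lemma Rf_comm (i j : Fin n) (x : EuclideanSpace ℝ (Fin n)) : Rf i (Rf j x) = Rf j (Rf i x) := by
  ext k
  rw [Rf_apply, Rf_apply, Rf_apply, Rf_apply]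
  split_ifs <;> rfl

lemma gauss_pow (k : ℕ) :
    Integrable (fun z : EuclideanSpace ℝ (Fin n) => ‖z‖ ^ k)
      (stdGaussian (EuclideanSpace ℝ (Fin n))) := by
  have h1 : MemLp (id : EuclideanSpace ℝ (Fin n) → EuclideanSpace ℝ (Fin n)) k
      (stdGaussian (EuclideanSpace ℝ (Fin n))) :=
    IsGaussian.memLp_id _ _ (by simp)
  rcases Nat.eq_zero_or_pos k with hk | hk
  · subst hk; simp
  · have := h1.integrable_norm_pow hk.ne'
    simpa using this

end Pool.Agent.Lib.MP_6d896a_gt
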