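import Mathlib

/-!
A growth bound.
-/

set_option autoImplicit false

namespace Pool.Agent.Lib.MP_6d896a_gt

open MeasureTheory ProbabilityTheory Real
open scoped ENNReal

lemma growth_bound {s r : ℝ} (hs : 0 < s) (_hr : 0 ≤ r) :
    (1 + r) ^ 4 ≤ (8 + 16 / s ^ 2) * Real.exp (s * r ^ 2) := by
  have h1 : (1 + r) ^ 4 ≤ 8 + 8 * r ^ 4 := by
    nlinarith [sq_nonneg (r - 1), sq_nonneg (r ^ 2 - 1), sq_nonneg (r + 1),
      mul_nonneg (sq_nonneg (r - 1)) (sq_nonneg (r - 1)),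
      mul_nonneg (sq_nonneg (r - 1)) (sq_nonneg (r + 1))]
  have h2 : 1 ≤ Real.exp (s * r ^ 2) := Real.one_le_exp (by positivity)
  have h3 : (s * r ^ 2) ^ 2 / 2 ≤ Real.exp (s * r ^ 2) := by
    have := Real.quadratic_le_exp_of_nonneg (x := s * r ^ 2) (by positivity)
    have h4 : 0 ≤ s * r ^ 2 := by positivity
    linarith
  have h5 : r ^ 4 ≤ 2 / s ^ 2 * Real.exp (s * r ^ 2) := by
    have : r ^ 4 = 2 / s ^ 2 * ((s * r ^ 2) ^ 2 / 2) := by
      field_simp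
    rw [this]
    exact mul_le_mul_of_nonneg_left h3 (by positivity)
  calc (1 + r) ^ 4 ≤ 8 + 8 * r ^ 4 := h1
    _ ≤ 8 * Real.exp (s * r ^ 2) + 8 * (2 / s ^ 2 * Real.exp (s * r ^ 2)) := by
      linarith
    _ = _ := by ring

end Pool.Agent.Lib.MP_6d896a_gt
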