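import Mathlib
import Pool.Agent.Lib.MP_6d896a_gt.GDensity
import Pool.Agent.Lib.MP_6d896a_gt.Growth

/-!
Gaussian convolutions of bounded functions are `C^1`, with the gradient estimate by the variance.
-/

namespace Pool.Agent.Lib.MP_6d896a_gt

open MeasureTheory ProbabilityTheory Real Filter Topology
open scoped ENNReal

variable {E : Type*} [NormedAddCommGroup E] [InnerProductSpace ℝ E] [FiniteDimensional ℝ E]
  [MeasurableSpace E] [BorelSpace E]

/-- Gaussian convolution -/
noncomputable def gconv (s : ℝ) (m : E → ℝ) (x : E) : ℝ := ∫ y, m y * gk s (x - y)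

/-- derivative of the kernel in the first variable -/
noncomputable def dk (s : ℝ) (z : E) : E →L[ℝ] ℝ := (-(2 * s) * gk s z) • innerSL ℝ z

lemma gk_hasFDerivAt (s : ℝ) (z : E) : HasFDerivAt (gk s : E → ℝ) (dk s z) z := by
  have h1 : HasFDerivAt (fun z : E => ‖z‖ ^ 2) (2 • innerSL ℝ z) z :=
    (hasStrictFDerivAt_norm_sq z).hasFDerivAt
  have h2 : HasFDerivAt (fun z : E => (gZ E s)⁻¹ * Real.exp (-s * ‖z‖ ^ 2))
    ((gZ E s)⁻¹ • (Real.exp (-s * ‖z‖ ^ 2) • (-s • (2 • innerSL ℝ z)))) z :=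
    (h1.const_mul (-s)).exp.const_mul ((gZ E s)⁻¹)
  have e : dk s z = ((gZ E s)⁻¹ • (Real.exp (-s * ‖z‖ ^ 2) • (-s • (2 • innerSL ℝ z)))) := by
    ext v
    simp only [dk, gk, _root_.smul_apply, smul_eq_mul, nsmul_eq_mul]
    push_cast
    ring
  rw [e]
  exact h2

lemma dk_norm_le {s : ℝ} (hs : 0 < s) (z : E) :
    ‖dk s z‖ ≤ ((gZ E s)⁻¹ * (2 * s) * (8 + 16 / (s / 2) ^ 2)) * Real.exp (-(s / 2) * ‖z‖ ^ 2) := by
  have hZ := gZ_pos (E := E) hs
  unfold dk
  rw [norm_smul, innerSL_apply_norm, Real.norm_eq_abs, abs_mul, abs_neg,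
    abs_of_pos (by positivity : (0 : ℝ) < 2 * s), abs_of_pos (gk_pos hs z)]
  unfold gk
  have h1 := growth_bound (s := s / 2) (r := ‖z‖) (by positivity) (norm_nonneg z)
  have h2 : ‖z‖ ≤ (1 + ‖z‖) ^ 4 := by
    have h0 := norm_nonneg z
    nlinarith [sq_nonneg ‖z‖, mul_nonneg h0 h0, mul_nonneg (mul_nonneg h0 h0) h0,
      mul_nonneg (mul_nonneg h0 h0) (mul_nonneg h0 h0)]
  have h3 : ‖z‖ ≤ (8 + 16 / (s / 2) ^ 2) * Real.exp (s / 2 * ‖z‖ ^ 2) := h2.trans h1
  calc 2 * s * ((gZ E s)⁻¹ * Real.exp (-s * ‖z‖ ^ 2)) * ‖z‖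
      ≤ 2 * s * ((gZ E s)⁻¹ * Real.exp (-s * ‖z‖ ^ 2)) *
        ((8 + 16 / (s / 2) ^ 2) * Real.exp (s / 2 * ‖z‖ ^ 2)) :=
        mul_le_mul_of_nonneg_left h3 (by positivity)
    _ = ((gZ E s)⁻¹ * (2 * s) * (8 + 16 / (s / 2) ^ 2)) *
        (Real.exp (-s * ‖z‖ ^ 2) * Real.exp (s / 2 * ‖z‖ ^ 2)) := by ring
    _ = _ := by
        rw [← Real.exp_add]
        congr 2
        ring

lemma dk_continuous (s : ℝ) : Continuous (dk s : E → _) := by
  unfold dk
  have h1 := gk_continuous (E := E) s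
  have h2 : Continuous (fun z : E => innerSL ℝ z) := (innerSL ℝ (E := E)).continuous
  exact (continuous_const.mul h1).smul h2

/-- the domination constant -/
noncomputable def cdom (E : Type*) [NormedAddCommGroup E] [InnerProductSpace ℝ E]
    [FiniteDimensional ℝ E] [MeasurableSpace E] [BorelSpace E] (s : ℝ) : ℝ :=
  ((gZ E s)⁻¹ * (2 * s) * (8 + 16 / (s / 2) ^ 2))

lemma cdom_nonneg {s : ℝ} (hs : 0 < s) : 0 ≤ cdom E s := by
  unfold cdom
  have hZ := gZ_pos (E := E) hs
  positivity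

lemma dk_dom {s : ℝ} (hs : 0 < s) {x0 x y : E} (hx : x ∈ Metric.ball x0 1) :
    ‖dk s (x - y)‖ ≤ (cdom E s * Real.exp (s / 2)) * Real.exp (-(s / 4) * ‖x0 - y‖ ^ 2) := by
  refine (dk_norm_le hs _).trans ?_
  have hc := cdom_nonneg (E := E) hs
  show cdom E s * _ ≤ _
  rw [mul_assoc]
  apply mul_le_mul_of_nonneg_left _ hc
  rw [← Real.exp_add]
  apply Real.exp_le_exp.mpr
  have h1 : ‖x0 - y‖ ≤ ‖x - y‖ + 1 := by
    have h2 : x0 - y = (x - y) + (x0 - x) := by abel
    rw [h2]
    refine (norm_add_le _ _).trans ?_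
    have h3 : ‖x0 - x‖ < 1 := by
      rw [← dist_eq_norm, dist_comm]
      exact hx
    linarith
  have h4 : ‖x0 - y‖ ^ 2 ≤ (‖x - y‖ + 1) ^ 2 := pow_le_pow_left₀ (norm_nonneg _) h1 2
  nlinarith [sq_nonneg (‖x - y‖ - 1)]

variable {m : E → ℝ}

lemma gconv_integrable {s : ℝ} (hs : 0 < s) (hm : Measurable m) (hb : ∀ y, |m y| ≤ 1) (x : E) :
    Integrable (fun y => m y * gk s (x - y)) := by
  have h1 : Integrable (fun y : E => gk s (x - y)) := (gk_integrable hs).comp_sub_left x
  refine h1.mono' (hm.aestronglyMeasurable.mul h1.aestronglyMeasurable) (ae_of_all _ fun y => ?_)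
  rw [Real.norm_eq_abs, abs_mul, abs_of_pos (gk_pos hs _)]
  exact mul_le_of_le_one_left (gk_pos hs _).le (hb y)

lemma gconv_hasFDerivAt {s : ℝ} (hs : 0 < s) (hm : Measurable m) (hb : ∀ y, |m y| ≤ 1) (x : E) :
    HasFDerivAt (gconv s m) (∫ y, m y • dk s (x - y)) x := by
  have hball : Metric.ball x 1 ∈ 𝓝 x := Metric.ball_mem_nhds x zero_lt_one
  have hbound : Integrable (fun y : E =>
      (cdom E s * Real.exp (s / 2)) * Real.exp (-(s / 4) * ‖x - y‖ ^ 2)) := by
    apply Integrable.const_mul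
    exact (gexp_integrable (by positivity : 0 < s / 4)).comp_sub_left x
  refine hasFDerivAt_integral_of_dominated_of_fderiv_le (F := fun x y => m y * gk s (x - y))
    (F' := fun x y => m y • dk s (x - y)) hball ?_ ?_ ?_ ?_ hbound ?_
  · filter_upwards with x'
    exact (gconv_integrable hs hm hb x').aestronglyMeasurable
  · exact gconv_integrable hs hm hb x
  · apply AEStronglyMeasurable.smul hm.aestronglyMeasurable
    exact ((dk_continuous s).comp (continuous_const.sub continuous_id)).aestronglyMeasurable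
  · apply ae_of_all
    intro y x' hx'
    rw [norm_smul, Real.norm_eq_abs]
    calc |m y| * ‖dk s (x' - y)‖ ≤ 1 * ‖dk s (x' - y)‖ :=
          mul_le_mul_of_nonneg_right (hb y) (norm_nonneg _)
      _ ≤ _ := by rw [one_mul]; exact dk_dom hs hx'
  · apply ae_of_all
    intro y x' _
    have h1 : HasFDerivAt (fun x : E => gk s (x - y)) (dk s (x' - y)) x' := by
      have h2 := (gk_hasFDerivAt s (x' - y)).comp x' ((hasFDerivAt_id x').sub_const y)
      exact h2
    exact h1.const_mul (m y)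

lemma gconv_contDiff {s : ℝ} (hs : 0 < s) (hm : Measurable m) (hb : ∀ y, |m y| ≤ 1) :
    ContDiff ℝ 1 (gconv s m) := by
  rw [contDiff_one_iff_fderiv]
  refine ⟨fun x => (gconv_hasFDerivAt hs hm hb x).differentiableAt, ?_⟩
  have e : fderiv ℝ (gconv s m) = fun x => ∫ y, m y • dk s (x - y) := by
    funext x
    exact (gconv_hasFDerivAt hs hm hb x).fderiv
  rw [e, continuous_iff_continuousAt]
  intro x
  have hball : Metric.ball x 1 ∈ 𝓝 x := Metric.ball_mem_nhds x zero_lt_one
  have hbound : Integrable (fun y : E =>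
      (cdom E s * Real.exp (s / 2)) * Real.exp (-(s / 4) * ‖x - y‖ ^ 2)) := by
    apply Integrable.const_mul
    exact (gexp_integrable (by positivity : 0 < s / 4)).comp_sub_left x
  apply continuousAt_of_dominated (bound := fun y : E =>
      (cdom E s * Real.exp (s / 2)) * Real.exp (-(s / 4) * ‖x - y‖ ^ 2))
  · filter_upwards with x'
    apply AEStronglyMeasurable.smul hm.aestronglyMeasurable
    exact ((dk_continuous s).comp (continuous_const.sub continuous_id)).aestronglyMeasurable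
  · filter_upwards [hball] with x' hx'
    apply ae_of_all
    intro y
    rw [norm_smul, Real.norm_eq_abs]
    calc |m y| * ‖dk s (x' - y)‖ ≤ 1 * ‖dk s (x' - y)‖ :=
          mul_le_mul_of_nonneg_right (hb y) (norm_nonneg _)
      _ ≤ _ := by rw [one_mul]; exact dk_dom hs hx'
  · exact hbound
  · apply ae_of_all
    intro y
    exact (((dk_continuous s).comp (continuous_id.sub continuous_const)).const_smul (m y)).continuousAt

lemma gconv_abs_le {s : ℝ} (hs : 0 < s) (hb : ∀ y, |m y| ≤ 1) (x : E) :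
    |gconv s m x| ≤ 1 := by
  unfold gconv
  have h1 : Integrable (fun y : E => gk s (x - y)) := (gk_integrable hs).comp_sub_left x
  rw [← Real.norm_eq_abs]
  refine (norm_integral_le_of_norm_le h1 (ae_of_all _ fun y => ?_)).trans ?_
  · rw [Real.norm_eq_abs, abs_mul, abs_of_pos (gk_pos hs _)]
    exact mul_le_of_le_one_left (gk_pos hs _).le (hb y)
  · rw [integral_sub_left_eq_self (fun z : E => gk s z) volume x, gk_integral hs]

lemma gconv_fderiv_bound {s : ℝ} (hs : 0 < s) (hm : Measurable m) (hb : ∀ y, |m y| ≤ 1) :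
    ∃ B, 0 ≤ B ∧ ∀ x, ‖fderiv ℝ (gconv s m) x‖ ≤ B := by
  refine ⟨∫ z : E, cdom E s * Real.exp (-(s / 2) * ‖z‖ ^ 2), ?_, fun x => ?_⟩
  · apply integral_nonneg
    intro z
    have := cdom_nonneg (E := E) hs
    simp only [Pi.zero_apply]
    positivity
  · rw [(gconv_hasFDerivAt hs hm hb x).fderiv]
    have hi : Integrable (fun z : E => cdom E s * Real.exp (-(s / 2) * ‖z‖ ^ 2)) :=
      (gexp_integrable (by positivity : 0 < s / 2)).const_mul _
    have h1 : Integrable (fun y : E => cdom E s * Real.exp (-(s / 2) * ‖x - y‖ ^ 2)) :=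
      hi.comp_sub_left x
    refine (norm_integral_le_of_norm_le h1 (ae_of_all _ fun y => ?_)).trans ?_
    · rw [norm_smul, Real.norm_eq_abs]
      calc |m y| * ‖dk s (x - y)‖ ≤ 1 * ‖dk s (x - y)‖ :=
            mul_le_mul_of_nonneg_right (hb y) (norm_nonneg _)
        _ ≤ _ := by rw [one_mul]; exact dk_norm_le hs _
    · rw [integral_sub_left_eq_self (fun z : E => cdom E s * Real.exp (-(s / 2) * ‖z‖ ^ 2)) volume x]

lemma gconv_lip {s : ℝ} (hs : 0 < s) (hm : Measurable m) (hb : ∀ y, |m y| ≤ 1) :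
    ∃ B, 0 ≤ B ∧ ∀ x x', |gconv s m x - gconv s m x'| ≤ B * ‖x - x'‖ := by
  obtain ⟨B, hB0, hB⟩ := gconv_fderiv_bound hs hm hb
  refine ⟨B, hB0, fun x x' => ?_⟩
  have := convex_univ.norm_image_sub_le_of_norm_fderiv_le (𝕜 := ℝ)
    (fun x _ => (gconv_hasFDerivAt hs hm hb x).differentiableAt) (fun x _ => hB x)
    (Set.mem_univ x') (Set.mem_univ x)
  exact this

/-! ### Gaussian moments of the kernel -/

lemma gM_integral {s : ℝ} (hs : 0 < s) (f : E → ℝ) :
    ∫ z, f z ∂(gM s : Measure E) = ∫ z, f z * gk s z := by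
  unfold gM
  have e3 : (fun x : E => ENNReal.ofReal (gk s x)) =
      fun x => ((Real.toNNReal (gk s x) : NNReal) : ℝ≥0∞) := rfl
  have hm : Measurable (fun x : E => Real.toNNReal (gk s x)) :=
    (gk_continuous s).measurable.real_toNNReal
  rw [e3, integral_withDensity_eq_integral_smul hm]
  congr 1
  funext x
  rw [NNReal.smul_def, Real.coe_toNNReal _ (gk_pos hs x).le, smul_eq_mul, mul_comm]

lemma gM_eq {s : ℝ} (hs : 0 < s) :
    (gM s : Measure E) = (stdGaussian E).map (fun z => (Real.sqrt (2 * s))⁻¹ • z) := by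
  have h1 : 0 < (Real.sqrt (2 * s))⁻¹ := by positivity
  rw [map_smul_gauss h1]
  congr 1
  rw [inv_pow, Real.sq_sqrt (by positivity)]
  field_simp

lemma gM_inner_sq {s : ℝ} (hs : 0 < s) (v : E) :
    Integrable (fun z : E => (inner ℝ z v) ^ 2) (gM s) ∧
      ∫ z, (inner ℝ z v) ^ 2 ∂(gM s : Measure E) = ‖v‖ ^ 2 / (2 * s) := by
  have hmeas : Measurable (fun z : E => (Real.sqrt (2 * s))⁻¹ • z) := by fun_prop
  have hL : MemLp (fun y : E => innerSL ℝ v y) 2 (stdGaussian E) :=
    IsGaussian.memLp_dual (stdGaussian E) (innerSL ℝ v) 2 (by simp)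
  have hvar := variance_dual_stdGaussian (innerSL ℝ v)
  rw [variance_eq_sub hL] at hvar
  have h0 : ∫ y, innerSL ℝ v y ∂(stdGaussian E) = 0 := integral_strongDual_stdGaussian _
  rw [h0, innerSL_apply_norm] at hvar
  simp only [Pi.pow_apply, innerSL_apply_apply] at hvar
  have hint : Integrable (fun z : E => (inner ℝ v z) ^ 2) (stdGaussian E) := hL.integrable_sq
  have hcont : Continuous (fun z : E => (inner ℝ z v : ℝ) ^ 2) := by fun_prop
  have e : (fun z : E => (inner ℝ ((Real.sqrt (2 * s))⁻¹ • z) v : ℝ) ^ 2) =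
      fun z => (1 / (2 * s)) * (inner ℝ v z) ^ 2 := by
    funext z
    rw [inner_smul_left, conj_trivial, mul_pow, inv_pow, Real.sq_sqrt (by positivity),
      real_inner_comm]
    ring
  rw [gM_eq hs]
  constructor
  · rw [integrable_map_measure hcont.measurable.aestronglyMeasurable hmeas.aemeasurable]
    show Integrable (fun z : E => (inner ℝ ((Real.sqrt (2 * s))⁻¹ • z) v : ℝ) ^ 2) _
    rw [e]
    exact hint.const_mul _
  · rw [integral_map hmeas.aemeasurable hcont.measurable.aestronglyMeasurable, e,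
      integral_const_mul]
    have : ∫ z, (inner ℝ v z) ^ 2 ∂(stdGaussian E) = ‖v‖ ^ 2 := by linarith
    rw [this]
    ring

lemma gM_inner {s : ℝ} (hs : 0 < s) (v : E) :
    Integrable (fun z : E => (inner ℝ z v : ℝ)) (gM s) ∧
      ∫ z, (inner ℝ z v : ℝ) ∂(gM s : Measure E) = 0 := by
  have hmeas : Measurable (fun z : E => (Real.sqrt (2 * s))⁻¹ • z) := by fun_prop
  have hL : MemLp (fun y : E => innerSL ℝ v y) 1 (stdGaussian E) :=
    IsGaussian.memLp_dual (stdGaussian E) (innerSL ℝ v) 1 (by simp)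
  have h0 : ∫ y, innerSL ℝ v y ∂(stdGaussian E) = 0 := integral_strongDual_stdGaussian _
  simp only [innerSL_apply_apply] at h0
  have hint : Integrable (fun z : E => (inner ℝ v z : ℝ)) (stdGaussian E) := memLp_one_iff_integrable.mp hL
  have hcont : Continuous (fun z : E => (inner ℝ z v : ℝ)) := by fun_prop
  have e : (fun z : E => (inner ℝ ((Real.sqrt (2 * s))⁻¹ • z) v : ℝ)) =
      fun z => (Real.sqrt (2 * s))⁻¹ * (inner ℝ v z) := by
    funext z
    rw [inner_smul_left, conj_trivial, real_inner_comm]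
  rw [gM_eq hs]
  constructor
  · rw [integrable_map_measure hcont.measurable.aestronglyMeasurable hmeas.aemeasurable]
    show Integrable (fun z : E => (inner ℝ ((Real.sqrt (2 * s))⁻¹ • z) v : ℝ)) _
    rw [e]
    exact hint.const_mul _
  · rw [integral_map hmeas.aemeasurable hcont.measurable.aestronglyMeasurable, e,
      integral_const_mul, h0, mul_zero]

end Pool.Agent.Lib.MP_6d896a_gt
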