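import Mathlib
import Pool.Agent.Lib.MP_6d896a_gt.Smooth

/-!
The Gaussian channel: a Poincare inequality and `L^1` inequalities for the posterior
measures give an `L^1` inequality.
-/

namespace Pool.Agent.Lib.MP_6d896a_gt

open MeasureTheory ProbabilityTheory Real Filter Topology
open scoped ENNReal

/-- Cauchy-Schwarz for integrals -/
lemma cs_int {α : Type*} [MeasurableSpace α] {μ : Measure α} {f g : α → ℝ}
    (hf : Integrable (fun x => f x ^ 2) μ) (hg : Integrable (fun x => g x ^ 2) μ)
    (hfg : Integrable (fun x => f x * g x) μ) :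
    (∫ x, f x * g x ∂μ) ^ 2 ≤ (∫ x, f x ^ 2 ∂μ) * ∫ x, g x ^ 2 ∂μ := by
  set a := ∫ x, g x ^ 2 ∂μ with ha
  set b := ∫ x, f x * g x ∂μ with hb
  set F := ∫ x, f x ^ 2 ∂μ with hF
  have ha0 : 0 ≤ a := integral_nonneg fun x => by positivity
  have hF0 : 0 ≤ F := integral_nonneg fun x => by positivity
  have h1 : 0 ≤ ∫ x, (a * f x - b * g x) ^ 2 ∂μ := integral_nonneg fun x => by positivity
  have h2 : ∫ x, (a * f x - b * g x) ^ 2 ∂μ = a ^ 2 * F - 2 * a * b * b + b ^ 2 * a := by
    have e : ∀ x, (a * f x - b * g x) ^ 2 =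
      a ^ 2 * f x ^ 2 - 2 * a * b * (f x * g x) + b ^ 2 * g x ^ 2 := by intro x; ring
    simp only [e]
    rw [integral_add, integral_sub, integral_const_mul, integral_const_mul, integral_const_mul]
    · exact hf.const_mul _
    · exact hfg.const_mul _
    · exact (hf.const_mul _).sub (hfg.const_mul _)
    · exact hg.const_mul _
  rw [h2] at h1
  rcases ha0.eq_or_lt with h | h
  · have hg0 : (fun x => g x ^ 2) =ᵐ[μ] 0 :=
      (integral_eq_zero_iff_of_nonneg (fun x => by positivity) hg).mp h.symm
    have hb0 : b = 0 := by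
      rw [hb]
      have : (fun x => f x * g x) =ᵐ[μ] fun _ => 0 := by
        filter_upwards [hg0] with x hx
        have : g x = 0 := by simpa using hx
        rw [this, mul_zero]
      rw [integral_congr_ae this, integral_zero]
    rw [hb0, ← h]
    simp
  · have h3 : a * (a * F - b ^ 2) ≥ 0 := by nlinarith
    have h4 : 0 ≤ a * F - b ^ 2 := by
      by_contra hcon
      push Not at hcon
      nlinarith
    linarith

variable {E : Type*} [NormedAddCommGroup E] [InnerProductSpace ℝ E] [FiniteDimensional ℝ E]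
  [MeasurableSpace E] [BorelSpace E]

/-- gradient of a Gaussian convolution is controlled by the variance -/
lemma gconv_grad {s : ℝ} (hs : 0 < s) {m : E → ℝ} (hm : Measurable m) (hb : ∀ y, |m y| ≤ 1)
    (x : E) :
    ‖fderiv ℝ (gconv s m) x‖ ^ 2 ≤
      2 * s * (gconv s (fun y => m y ^ 2) x - gconv s m x ^ 2) := by
  have hp := gM_prob (E := E) hs
  set γ : Measure E := gM s with hγ
  set U := gconv s m x with hU
  have e1 : ∀ f : E → ℝ, gconv s f x = ∫ z, f (x - z) ∂γ := by
    intro f
    rw [gM_integral hs]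
    unfold gconv
    have := integral_sub_left_eq_self (fun z : E => f (x - z) * gk s z) volume x
    rw [← this]
    congr 1
    funext y
    rw [sub_sub_cancel]
  have hmx : Measurable (fun z => m (x - z)) := hm.comp (measurable_const.sub measurable_id)
  have hI1 : Integrable (fun z => m (x - z)) γ :=
    (integrable_const (1 : ℝ)).mono' hmx.aestronglyMeasurable
      (ae_of_all _ fun z => by rw [Real.norm_eq_abs]; exact hb _)
  have hI2 : Integrable (fun z => m (x - z) ^ 2) γ :=
    (integrable_const (1 : ℝ)).mono' (hmx.pow_const 2).aestronglyMeasurable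
      (ae_of_all _ fun z => by
        rw [Real.norm_eq_abs, abs_pow]
        exact pow_le_one₀ (abs_nonneg _) (hb _))
  have hUe : U = ∫ z, m (x - z) ∂γ := e1 m
  have hW : gconv s (fun y => m y ^ 2) x = ∫ z, m (x - z) ^ 2 ∂γ := e1 _
  have hvar : ∫ z, (m (x - z) - U) ^ 2 ∂γ = gconv s (fun y => m y ^ 2) x - U ^ 2 := by
    have e : ∀ z, (m (x - z) - U) ^ 2 = m (x - z) ^ 2 - 2 * U * m (x - z) + U ^ 2 := by
      intro z; ring
    simp only [e]
    have i1 : Integrable (fun z => m (x - z) ^ 2 - 2 * U * m (x - z)) γ :=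
      hI2.sub (hI1.const_mul _)
    rw [integral_add i1 (integrable_const _),
      integral_sub hI2 (hI1.const_mul _), integral_const_mul, ← hUe, hW]
    simp
    ring
  have hvar0 : 0 ≤ gconv s (fun y => m y ^ 2) x - U ^ 2 := by
    rw [← hvar]
    exact integral_nonneg fun z => by positivity
  have key : ∀ v, (fderiv ℝ (gconv s m) x v) ^ 2 ≤
      2 * s * (gconv s (fun y => m y ^ 2) x - U ^ 2) * ‖v‖ ^ 2 := by
    intro v
    obtain ⟨hi1, hi0⟩ := gM_inner hs v
    obtain ⟨hi2, hi2v⟩ := gM_inner_sq hs v
    have hmi : Integrable (fun z => m (x - z) * inner ℝ z v) γ := by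
      refine hi1.norm.mono' (hmx.aestronglyMeasurable.mul hi1.aestronglyMeasurable)
        (ae_of_all _ fun z => ?_)
      rw [norm_mul, Real.norm_eq_abs]
      calc |m (x - z)| * ‖(inner ℝ z v : ℝ)‖ ≤ 1 * ‖(inner ℝ z v : ℝ)‖ :=
            mul_le_mul_of_nonneg_right (hb _) (norm_nonneg _)
        _ = _ := one_mul _
    have hL : fderiv ℝ (gconv s m) x v = -(2 * s) * ∫ z, (m (x - z) - U) * inner ℝ z v ∂γ := by
      rw [(gconv_hasFDerivAt hs hm hb x).fderiv]
      have hint : Integrable (fun y => m y • dk s (x - y)) := by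
        have hbound : Integrable (fun y : E =>
            (cdom E s * Real.exp (s / 2)) * Real.exp (-(s / 4) * ‖x - y‖ ^ 2)) := by
          apply Integrable.const_mul
          exact (gexp_integrable (by positivity : 0 < s / 4)).comp_sub_left x
        refine hbound.mono' ?_ (ae_of_all _ fun y => ?_)
        · apply AEStronglyMeasurable.smul hm.aestronglyMeasurable
          exact ((dk_continuous s).comp (continuous_const.sub continuous_id)).aestronglyMeasurable
        · rw [norm_smul, Real.norm_eq_abs]
          calc |m y| * ‖dk s (x - y)‖ ≤ 1 * ‖dk s (x - y)‖ :=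
                mul_le_mul_of_nonneg_right (hb y) (norm_nonneg _)
            _ ≤ _ := by rw [one_mul]; exact dk_dom hs (Metric.mem_ball_self zero_lt_one)
      rw [ContinuousLinearMap.integral_apply hint]
      have e2 : ∫ y, (m y • dk s (x - y)) v = ∫ z, (m (x - z) • dk s z) v := by
        have := integral_sub_left_eq_self (fun z : E => (m (x - z) • dk s z) v) volume x
        rw [← this]
        congr 1
        funext y
        rw [sub_sub_cancel]
      rw [e2]
      have e3 : ∀ z, (m (x - z) • dk s z) v = -(2 * s) * (m (x - z) * inner ℝ z v) * gk s z := by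
        intro z
        simp only [dk, _root_.smul_apply, smul_eq_mul, innerSL_apply_apply]
        ring
      simp only [e3]
      rw [← gM_integral hs (fun z => -(2 * s) * (m (x - z) * inner ℝ z v)), integral_const_mul]
      congr 1
      have e4 : ∀ z, (m (x - z) - U) * inner ℝ z v = m (x - z) * inner ℝ z v - U * inner ℝ z v := by
        intro z; ring
      simp only [e4]
      rw [integral_sub hmi (hi1.const_mul U), integral_const_mul, hi0, mul_zero, sub_zero]
    rw [hL]
    have hcs := cs_int (μ := γ) (f := fun z => m (x - z) - U) (g := fun z => (inner ℝ z v : ℝ))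
      (by
        have e : ∀ z, (m (x - z) - U) ^ 2 = m (x - z) ^ 2 - 2 * U * m (x - z) + U ^ 2 := by
          intro z; ring
        simp only [e]
        exact (hI2.sub (hI1.const_mul _)).add (integrable_const _)) hi2
      (by
        have e4 : ∀ z, (m (x - z) - U) * (inner ℝ z v : ℝ) =
          m (x - z) * inner ℝ z v - U * inner ℝ z v := by
          intro z; ring
        simp only [e4]
        exact hmi.sub (hi1.const_mul U))
    rw [hvar, hi2v] at hcs
    calc (-(2 * s) * ∫ z, (m (x - z) - U) * inner ℝ z v ∂γ) ^ 2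
        = (2 * s) ^ 2 * (∫ z, (m (x - z) - U) * inner ℝ z v ∂γ) ^ 2 := by ring
      _ ≤ (2 * s) ^ 2 * ((gconv s (fun y => m y ^ 2) x - U ^ 2) * (‖v‖ ^ 2 / (2 * s))) :=
          mul_le_mul_of_nonneg_left hcs (by positivity)
      _ = _ := by
          field_simp
  have hA : 0 ≤ 2 * s * (gconv s (fun y => m y ^ 2) x - U ^ 2) := by positivity
  have hop : ‖fderiv ℝ (gconv s m) x‖ ≤
      Real.sqrt (2 * s * (gconv s (fun y => m y ^ 2) x - U ^ 2)) := by
    apply ContinuousLinearMap.opNorm_le_bound _ (Real.sqrt_nonneg _)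
    intro v
    rw [Real.norm_eq_abs]
    apply abs_le_of_sq_le_sq _ (by positivity)
    rw [mul_pow, Real.sq_sqrt hA]
    exact key v
  calc ‖fderiv ℝ (gconv s m) x‖ ^ 2 ≤ (Real.sqrt (2 * s * (gconv s (fun y => m y ^ 2) x - U ^ 2))) ^ 2 :=
        pow_le_pow_left₀ (norm_nonneg _) hop 2
    _ = _ := Real.sq_sqrt hA

section fubini

variable (mm : Measure E) [IsFiniteMeasure mm]

lemma fub_integrable {s : ℝ} (hs : 0 < s) {h F : E → ℝ} (hh : Measurable h) (hF : Measurable F)
    {C : ℝ} (hhb : ∀ x, |h x| ≤ C) (hFb : ∀ y, |F y| ≤ 1) :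
    Integrable (fun p : E × E => h p.1 * (F p.2 * gk s (p.1 - p.2))) (mm.prod volume) := by
  have hC : 0 ≤ C := (abs_nonneg _).trans (hhb 0)
  have hkm : Measurable (fun p : E × E => gk s (p.1 - p.2)) :=
    ((gk_continuous s).comp (continuous_fst.sub continuous_snd)).measurable
  have hk : Integrable (fun p : E × E => gk s (p.1 - p.2)) (mm.prod volume) := by
    rw [integrable_prod_iff hkm.aestronglyMeasurable]
    constructor
    · apply ae_of_all
      intro x
      exact (gk_integrable hs).comp_sub_left x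
    · have : (fun x : E => ∫ y, ‖gk s (x - y)‖) = fun _ => 1 := by
        funext x
        have e : ∀ y : E, ‖gk s (x - y)‖ = gk s (x - y) := fun y => by
          rw [Real.norm_eq_abs, abs_of_pos (gk_pos hs _)]
        simp only [e]
        rw [integral_sub_left_eq_self (fun z : E => gk s z) volume x, gk_integral hs]
      simp only [this]
      exact integrable_const _
  refine (hk.const_mul C).mono' ?_ (ae_of_all _ fun p => ?_)
  · exact ((hh.comp measurable_fst).mul ((hF.comp measurable_snd).mul hkm)).aestronglyMeasurable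
  · rw [Real.norm_eq_abs, abs_mul, abs_mul, abs_of_pos (gk_pos hs _)]
    have h1 := gk_pos hs (p.1 - p.2)
    calc |h p.1| * (|F p.2| * gk s (p.1 - p.2)) ≤ C * (1 * gk s (p.1 - p.2)) := by
          gcongr
          · exact hhb _
          · exact hFb _
      _ = _ := by rw [one_mul]

lemma fub {s : ℝ} (hs : 0 < s) {h F : E → ℝ} (hh : Measurable h) (hF : Measurable F)
    {C : ℝ} (hhb : ∀ x, |h x| ≤ C) (hFb : ∀ y, |F y| ≤ 1) :
    ∫ y, F y * (∫ x, h x * gk s (x - y) ∂mm) = ∫ x, h x * gconv s F x ∂mm := by
  have hI := fub_integrable mm hs hh hF hhb hFb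
  have h1 : ∫ x, h x * gconv s F x ∂mm = ∫ x, ∫ y, h x * (F y * gk s (x - y)) ∂volume ∂mm := by
    congr 1
    funext x
    unfold gconv
    rw [integral_const_mul]
  rw [h1, integral_integral_swap hI]
  congr 1
  funext y
  rw [← integral_const_mul]
  congr 1
  funext x
  ring

end fubini

end Pool.Agent.Lib.MP_6d896a_gt
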