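import Mathlib
import Pool.Agent.Lib.MP_6d896a_gt.Channel

/-!
The Gaussian channel: main statement.
-/

namespace Pool.Agent.Lib.MP_6d896a_gt

open MeasureTheory ProbabilityTheory Real Filter Topology
open scoped ENNReal

variable {E : Type*} [NormedAddCommGroup E] [InnerProductSpace ℝ E] [FiniteDimensional ℝ E]
  [MeasurableSpace E] [BorelSpace E]

omit [InnerProductSpace ℝ E] [FiniteDimensional ℝ E] [BorelSpace E] in
lemma bdd_integrable (mm : Measure E) [IsFiniteMeasure mm] {f : E → ℝ} (hf : Measurable f)
    {C : ℝ} (hb : ∀ x, |f x| ≤ C) : Integrable f mm :=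
  (integrable_const C).mono' hf.aestronglyMeasurable
    (ae_of_all _ fun x => by rw [Real.norm_eq_abs]; exact hb x)

lemma gk_le {s : ℝ} (hs : 0 < s) (z : E) : gk s z ≤ (gZ E s)⁻¹ := by
  unfold gk
  have hZ := gZ_pos (E := E) hs
  apply mul_le_of_le_one_right (by positivity)
  apply Real.exp_le_one_iff.mpr
  nlinarith [sq_nonneg ‖z‖]

lemma param_meas (mm : Measure E) [IsFiniteMeasure mm] {s : ℝ} {h : E → ℝ} (hh : Measurable h) :
    Measurable (fun y => ∫ x, h x * gk s (x - y) ∂mm) := by
  have hkm : Measurable (fun p : E × E => h p.1 * gk s (p.1 - p.2)) :=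
    (hh.comp measurable_fst).mul
      ((gk_continuous s).comp (continuous_fst.sub continuous_snd)).measurable
  exact (hkm.stronglyMeasurable.integral_prod_left').measurable

lemma gconv_one {s : ℝ} (hs : 0 < s) (x : E) : gconv s (fun _ => 1) x = 1 := by
  unfold gconv
  simp only [one_mul]
  rw [integral_sub_left_eq_self (fun z : E => gk s z) volume x, gk_integral hs]

theorem channel (mm : Measure E) [IsFiniteMeasure mm] (hmm : mm ≠ 0) {s CP cL th : ℝ}
    (hs : 0 < s) (hth : 0 < th) (hthe : th * (2 * s * CP) = 1)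
    (hP : ∀ u : E → ℝ, ContDiff ℝ 1 u → (∀ x, |u x| ≤ 1) →
      (∃ B, 0 ≤ B ∧ ∀ x x', |u x - u x'| ≤ B * ‖x - x'‖) →
      mm.real Set.univ * ∫ x, u x ^ 2 ∂mm - (∫ x, u x ∂mm) ^ 2 ≤
        CP * (mm.real Set.univ * ∫ x, ‖fderiv ℝ u x‖ ^ 2 ∂mm))
    {g D : E → ℝ} (hg : Measurable g) (hg0 : ∀ x, 0 ≤ g x) (hg1 : ∀ x, g x ≤ 1)
    (hD : Measurable D) {C : ℝ} (hDb : ∀ x, |D x| ≤ C)
    (hL : ∀ y, ∫ x, (∫ x', |g x' - g x| * gk s (x' - y) ∂mm) * gk s (x - y) ∂mm ≤
      cL * ((∫ x, gk s (x - y) ∂mm) * ∫ x, D x * gk s (x - y) ∂mm)) :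
    mm.real Set.univ * ∫ x, g x ^ 2 ∂mm - (∫ x, g x ∂mm) ^ 2 ≤
      ((1 + th) / th) * (cL / 2) * (mm.real Set.univ * ∫ x, D x ∂mm) := by
  set M := mm.real Set.univ with hM
  have hMpos : 0 < M := by
    rw [hM, measureReal_def]
    exact ENNReal.toReal_pos (by simpa using hmm) (measure_ne_top _ _)
  have hgabs : ∀ x, |g x| ≤ 1 := fun x => by rw [abs_of_nonneg (hg0 x)]; exact hg1 x
  set q : E → ℝ := fun y => ∫ x, gk s (x - y) ∂mm with hq
  set G : E → ℝ := fun y => ∫ x, g x * gk s (x - y) ∂mm with hG
  set G2 : E → ℝ := fun y => ∫ x, g x ^ 2 * gk s (x - y) ∂mm with hG2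
  set DD : E → ℝ := fun y => ∫ x, D x * gk s (x - y) ∂mm with hDD
  have hkm : ∀ y, Measurable (fun x : E => gk s (x - y)) := fun y =>
    ((gk_continuous s).comp (continuous_id.sub continuous_const)).measurable
  have hki : ∀ y, Integrable (fun x : E => gk s (x - y)) mm := fun y =>
    bdd_integrable mm (hkm y) (C := (gZ E s)⁻¹) (fun x => by
      rw [abs_of_pos (gk_pos hs _)]; exact gk_le hs _)
  have hfk : ∀ (f : E → ℝ), Measurable f → ∀ K : ℝ, (∀ x, |f x| ≤ K) → ∀ y,
      Integrable (fun x : E => f x * gk s (x - y)) mm := by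
    intro f hf K hK y
    have hK0 : 0 ≤ K := (abs_nonneg _).trans (hK 0)
    refine ((hki y).const_mul K).mono' (hf.mul (hkm y)).aestronglyMeasurable
      (ae_of_all _ fun x => ?_)
    rw [Real.norm_eq_abs, abs_mul, abs_of_pos (gk_pos hs _)]
    exact mul_le_mul_of_nonneg_right (hK x) (gk_pos hs _).le
  have hqpos : ∀ y, 0 < q y := by
    intro y
    rw [hq]
    rw [integral_pos_iff_support_of_nonneg (fun x => (gk_pos hs _).le) (hki y)]
    have : Function.support (fun x : E => gk s (x - y)) = Set.univ := by
      ext x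
      simp only [Function.mem_support, Set.mem_univ, iff_true]
      exact (gk_pos hs _).ne'
    rw [this]
    exact (Measure.measure_univ_pos).mpr hmm
  have hG0 : ∀ y, 0 ≤ G y := fun y =>
    integral_nonneg fun x => mul_nonneg (hg0 x) (gk_pos hs _).le
  have hGq : ∀ y, G y ≤ q y := fun y =>
    integral_mono (hfk g hg 1 hgabs y) (hki y)
      (fun x => mul_le_of_le_one_left (gk_pos hs _).le (hg1 x))
  have hqm : Measurable q := by
    have := param_meas mm (s := s) (h := fun _ => 1) measurable_const
    simpa only [one_mul] using this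
  have hGm : Measurable G := param_meas mm hg
  set mg : E → ℝ := fun y => G y / q y with hmg
  have hmgm : Measurable mg := hGm.div hqm
  have hmg0 : ∀ y, 0 ≤ mg y := fun y => div_nonneg (hG0 y) (hqpos y).le
  have hmg1 : ∀ y, mg y ≤ 1 := fun y => (div_le_one (hqpos y)).mpr (hGq y)
  have hmgb : ∀ y, |mg y| ≤ 1 := fun y => by rw [abs_of_nonneg (hmg0 y)]; exact hmg1 y
  have hmgq : ∀ y, mg y * q y = G y := fun y => div_mul_cancel₀ _ (hqpos y).ne'
  set u := gconv s mg with hu
  have huC := gconv_contDiff hs hmgm hmgb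
  have hub := gconv_abs_le hs hmgb
  have hulip := gconv_lip hs hmgm hmgb
  have hum : Measurable u := huC.continuous.measurable
  have hmg2m : Measurable (fun y => mg y ^ 2) := hmgm.pow_const 2
  have hmg2b : ∀ y, |mg y ^ 2| ≤ 1 := fun y => by
    rw [abs_pow]; exact pow_le_one₀ (abs_nonneg _) (hmgb y)
  set w2 := gconv s (fun y => mg y ^ 2) with hw2
  have hw2m : Measurable w2 := (gconv_contDiff hs hmg2m hmg2b).continuous.measurable
  have hw2b := gconv_abs_le hs hmg2b
  -- identities
  have I1 : ∫ y, mg y * G y = ∫ x, g x * u x ∂mm := fub mm hs hg hmgm hgabs hmgb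
  have I2 : ∫ y, mg y * q y = ∫ x, u x ∂mm := by
    have := fub mm hs (h := fun _ => 1) (C := 1) measurable_const hmgm (by simp) hmgb
    simpa only [one_mul] using this
  have I3 : ∫ y, G y = ∫ x, g x ∂mm := by
    have := fub mm hs (F := fun _ => 1) hg measurable_const hgabs (by simp)
    simp only [gconv_one hs, mul_one, one_mul] at this
    exact this
  have I4 : ∫ y, mg y ^ 2 * q y = ∫ x, w2 x ∂mm := by
    have := fub mm hs (h := fun _ => 1) (C := 1) measurable_const hmg2m (by simp) hmg2b
    simpa only [one_mul] using this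
  have hg2b : ∀ x, |g x ^ 2| ≤ 1 := fun x => by
    rw [abs_pow]; exact pow_le_one₀ (abs_nonneg _) (hgabs x)
  have I5 : ∫ y, G2 y = ∫ x, g x ^ 2 ∂mm := by
    have := fub mm hs (F := fun _ => 1) (hg.pow_const 2) measurable_const hg2b (by simp)
    simp only [gconv_one hs, mul_one, one_mul] at this
    exact this
  have I6 : ∫ y, DD y = ∫ x, D x ∂mm := by
    have := fub mm hs (F := fun _ => 1) hD measurable_const hDb (by simp)
    simp only [gconv_one hs, mul_one, one_mul] at this
    exact this
  have hIu : ∫ x, u x ∂mm = ∫ x, g x ∂mm := by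
    rw [← I2, ← I3]
    congr 1
    funext y
    exact hmgq y
  have hIw : ∫ x, w2 x ∂mm = ∫ x, g x * u x ∂mm := by
    rw [← I4, ← I1]
    congr 1
    funext y
    rw [← hmgq y]
    ring
  set I := ∫ x, g x ∂mm with hI
  set A := ∫ x, g x * u x ∂mm with hA
  set B := ∫ x, u x ^ 2 ∂mm with hB
  set V := ∫ x, g x ^ 2 ∂mm with hV
  have igu : Integrable (fun x => g x * u x) mm :=
    bdd_integrable mm (hg.mul hum) (C := 1) (fun x => by
      rw [abs_mul]; exact mul_le_one₀ (hgabs x) (abs_nonneg _) (hub x))
  have iu2 : Integrable (fun x => u x ^ 2) mm :=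
    bdd_integrable mm (hum.pow_const 2) (C := 1) (fun x => by
      rw [abs_pow]; exact pow_le_one₀ (abs_nonneg _) (hub x))
  have ig2 : Integrable (fun x => g x ^ 2) mm := bdd_integrable mm (hg.pow_const 2) hg2b
  have ig : Integrable g mm := bdd_integrable mm hg hgabs
  have iu : Integrable u mm := bdd_integrable mm hum hub
  have iw : Integrable w2 mm := bdd_integrable mm hw2m hw2b
  -- gradient estimate
  have hgrad : ∫ x, ‖fderiv ℝ u x‖ ^ 2 ∂mm ≤ 2 * s * (A - B) := by
    have h1 : ∫ x, ‖fderiv ℝ u x‖ ^ 2 ∂mm ≤ ∫ x, 2 * s * (w2 x - u x ^ 2) ∂mm := by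
      apply integral_mono_of_nonneg
      · exact ae_of_all _ fun x => by simp only [Pi.zero_apply]; positivity
      · exact (iw.sub iu2).const_mul _
      · exact ae_of_all _ fun x => gconv_grad hs hmgm hmgb x
    rw [integral_const_mul, integral_sub iw iu2, hIw] at h1
    exact h1
  have hpo := hP u huC hub hulip
  rw [hIu] at hpo
  have hCP : 0 < CP := by
    by_contra hcon
    push Not at hcon
    have : th * (2 * s * CP) ≤ 0 := by
      have h2 : 0 < th * (2 * s) := by positivity
      nlinarith
    linarith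
  have hb1 : th * (M * B - I ^ 2) ≤ M * A - M * B := by
    have h1 : M * B - I ^ 2 ≤ CP * (M * (2 * s * (A - B))) :=
      hpo.trans (mul_le_mul_of_nonneg_left (mul_le_mul_of_nonneg_left hgrad hMpos.le) hCP.le)
    have h2 := mul_le_mul_of_nonneg_left h1 hth.le
    have h3 : th * (CP * (M * (2 * s * (A - B)))) = (th * (2 * s * CP)) * (M * (A - B)) := by ring
    rw [h3, hthe] at h2
    linarith
  -- Cauchy-Schwarz
  have hcs : (M * A - I ^ 2) ^ 2 ≤ (M * V - I ^ 2) * (M * B - I ^ 2) := by
    set c := I / M with hc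
    have hcM : c * M = I := div_mul_cancel₀ _ hMpos.ne'
    have ic : Integrable (fun _ : E => c ^ 2) mm := integrable_const _
    have e1 : ∫ x, (g x - c) * (u x - c) ∂mm = A - c * I - c * I + c ^ 2 * M := by
      have e : ∀ x, (g x - c) * (u x - c) = g x * u x - c * g x - c * u x + c ^ 2 := by
        intro x; ring
      simp only [e]
      have i1 : Integrable (fun x => g x * u x - c * g x) mm := igu.sub (ig.const_mul c)
      have i2 : Integrable (fun x => g x * u x - c * g x - c * u x) mm := i1.sub (iu.const_mul c)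
      rw [integral_add i2 ic, integral_sub i1 (iu.const_mul c), integral_sub igu (ig.const_mul c),
        integral_const_mul, integral_const_mul, integral_const, hIu, smul_eq_mul, mul_comm _ (c ^ 2)]
    have e2 : ∫ x, (g x - c) ^ 2 ∂mm = V - 2 * c * I + c ^ 2 * M := by
      have e : ∀ x, (g x - c) ^ 2 = g x ^ 2 - 2 * c * g x + c ^ 2 := by intro x; ring
      simp only [e]
      have i1 : Integrable (fun x => g x ^ 2 - 2 * c * g x) mm := ig2.sub (ig.const_mul _)
      rw [integral_add i1 ic, integral_sub ig2 (ig.const_mul _), integral_const_mul,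
        integral_const, smul_eq_mul, mul_comm _ (c ^ 2)]
    have e3 : ∫ x, (u x - c) ^ 2 ∂mm = B - 2 * c * I + c ^ 2 * M := by
      have e : ∀ x, (u x - c) ^ 2 = u x ^ 2 - 2 * c * u x + c ^ 2 := by intro x; ring
      simp only [e]
      have i1 : Integrable (fun x => u x ^ 2 - 2 * c * u x) mm := iu2.sub (iu.const_mul _)
      rw [integral_add i1 ic, integral_sub iu2 (iu.const_mul _), integral_const_mul,
        integral_const, smul_eq_mul, mul_comm _ (c ^ 2), hIu]
    have h1 := cs_int (μ := mm) (f := fun x => g x - c) (g := fun x => u x - c)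
      (by
        have e : ∀ x, (g x - c) ^ 2 = g x ^ 2 - 2 * c * g x + c ^ 2 := by intro x; ring
        simp only [e]
        exact (ig2.sub (ig.const_mul _)).add ic)
      (by
        have e : ∀ x, (u x - c) ^ 2 = u x ^ 2 - 2 * c * u x + c ^ 2 := by intro x; ring
        simp only [e]
        exact (iu2.sub (iu.const_mul _)).add ic)
      (by
        have e : ∀ x, (g x - c) * (u x - c) = g x * u x - c * g x - c * u x + c ^ 2 := by
          intro x; ring
        simp only [e]
        exact ((igu.sub (ig.const_mul c)).sub (iu.const_mul c)).add ic)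
    rw [e1, e2, e3] at h1
    have f1 : M * (A - c * I - c * I + c ^ 2 * M) = M * A - I ^ 2 := by rw [← hcM]; ring
    have f2 : M * (V - 2 * c * I + c ^ 2 * M) = M * V - I ^ 2 := by rw [← hcM]; ring
    have f3 : M * (B - 2 * c * I + c ^ 2 * M) = M * B - I ^ 2 := by rw [← hcM]; ring
    rw [← f1, ← f2, ← f3]
    have h2 := mul_le_mul_of_nonneg_left h1 (by positivity : 0 ≤ M ^ 2)
    nlinarith
  -- variance of g given y
  have hy : ∀ y, G2 y - mg y ^ 2 * q y ≤ (cL / 2) * DD y := by
    intro y
    have h1 : q y * G2 y - G y ^ 2 ≤ (1 / 2) *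
        ∫ x, (∫ x', |g x' - g x| * gk s (x' - y) ∂mm) * gk s (x - y) ∂mm := by
      have inn : ∀ x, ∫ x', (g x' - g x) ^ 2 * gk s (x' - y) ∂mm =
          G2 y - 2 * g x * G y + g x ^ 2 * q y := by
        intro x
        have e : ∀ x', (g x' - g x) ^ 2 * gk s (x' - y) = g x' ^ 2 * gk s (x' - y) -
          2 * g x * (g x' * gk s (x' - y)) + g x ^ 2 * gk s (x' - y) := by intro x'; ring
        simp only [e]
        have i1 := hfk (fun x => g x ^ 2) (hg.pow_const 2) 1 hg2b y
        have i2 := (hfk g hg 1 hgabs y).const_mul (2 * g x)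
        have i3 := (hki y).const_mul (g x ^ 2)
        have i4 : Integrable (fun x' => g x' ^ 2 * gk s (x' - y) -
          2 * g x * (g x' * gk s (x' - y))) mm := i1.sub i2
        rw [integral_add i4 i3, integral_sub i1 i2, integral_const_mul, integral_const_mul]
      have out : ∫ x, (∫ x', (g x' - g x) ^ 2 * gk s (x' - y) ∂mm) * gk s (x - y) ∂mm =
          2 * (q y * G2 y - G y ^ 2) := by
        simp only [inn]
        have e : ∀ x, (G2 y - 2 * g x * G y + g x ^ 2 * q y) * gk s (x - y) =
          G2 y * gk s (x - y) - (2 * G y) * (g x * gk s (x - y)) +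
            q y * (g x ^ 2 * gk s (x - y)) := by intro x; ring
        simp only [e]
        have i1 := hfk (fun x => g x ^ 2) (hg.pow_const 2) 1 hg2b y
        have i2 := hfk g hg 1 hgabs y
        have i4 : Integrable (fun x => G2 y * gk s (x - y) -
          (2 * G y) * (g x * gk s (x - y))) mm := ((hki y).const_mul _).sub (i2.const_mul _)
        rw [integral_add i4 (i1.const_mul _), integral_sub ((hki y).const_mul _) (i2.const_mul _),
          integral_const_mul, integral_const_mul, integral_const_mul]
        show G2 y * q y - 2 * G y * G y + q y * G2 y = _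
        ring
      have hle : ∫ x, (∫ x', (g x' - g x) ^ 2 * gk s (x' - y) ∂mm) * gk s (x - y) ∂mm ≤
          ∫ x, (∫ x', |g x' - g x| * gk s (x' - y) ∂mm) * gk s (x - y) ∂mm := by
        have hcont2 : Measurable (fun p : E × E => |g p.2 - g p.1| * gk s (p.2 - y)) := by
          apply Measurable.mul
          · exact ((hg.comp measurable_snd).sub (hg.comp measurable_fst)).abs
          · exact (hkm y).comp measurable_snd
        have habs1 : ∀ x x', |g x' - g x| ≤ 1 := by
          intro x x'
          rw [abs_le]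
          constructor <;> linarith [hg0 x, hg0 x', hg1 x, hg1 x']
        have hin : ∀ x, Integrable (fun x' => |g x' - g x| * gk s (x' - y)) mm := fun x =>
          hfk (fun x' => |g x' - g x|) (hg.sub_const _).abs 1
            (fun x' => by rw [abs_abs]; exact habs1 x x') y
        have hin2 : ∀ x, Integrable (fun x' => (g x' - g x) ^ 2 * gk s (x' - y)) mm := fun x =>
          hfk (fun x' => (g x' - g x) ^ 2) ((hg.sub_const _).pow_const 2) 1
            (fun x' => by
              rw [abs_pow]; exact pow_le_one₀ (abs_nonneg _) (habs1 x x')) y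
        have hmeasH : Measurable (fun x => ∫ x', |g x' - g x| * gk s (x' - y) ∂mm) :=
          (hcont2.stronglyMeasurable.integral_prod_right').measurable
        have hHb : ∀ x, |∫ x', |g x' - g x| * gk s (x' - y) ∂mm| ≤ q y := by
          intro x
          rw [← Real.norm_eq_abs]
          refine norm_integral_le_of_norm_le (hki y) (ae_of_all _ fun x' => ?_)
          rw [Real.norm_eq_abs, abs_mul, abs_abs, abs_of_pos (gk_pos hs _)]
          exact mul_le_of_le_one_left (gk_pos hs _).le (habs1 x x')
        apply integral_mono_of_nonneg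
        · apply ae_of_all
          intro x
          simp only [Pi.zero_apply]
          apply mul_nonneg _ (gk_pos hs _).le
          exact integral_nonneg fun x' => mul_nonneg (by positivity) (gk_pos hs _).le
        · exact hfk _ hmeasH (q y) hHb y
        · apply ae_of_all
          intro x
          apply mul_le_mul_of_nonneg_right _ (gk_pos hs _).le
          apply integral_mono (hin2 x) (hin x)
          intro x'
          apply mul_le_mul_of_nonneg_right _ (gk_pos hs _).le
          rw [← sq_abs]
          have h5 := habs1 x x'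
          have h6 := abs_nonneg (g x' - g x)
          nlinarith
      linarith
    have h2 := hL y
    have h3 : q y * G2 y - G y ^ 2 ≤ q y * ((cL / 2) * DD y) := by
      calc q y * G2 y - G y ^ 2 ≤ (1 / 2) * (cL * (q y * DD y)) := by linarith
        _ = _ := by ring
    have h4 : q y * (G2 y - mg y ^ 2 * q y) = q y * G2 y - G y ^ 2 := by
      rw [← hmgq y]; ring
    rw [← h4] at h3
    exact le_of_mul_le_mul_left h3 (hqpos y)
  have hVA : V - A ≤ (cL / 2) * ∫ x, D x ∂mm := by
    rw [← I5, ← hIw, ← I4, ← I6, ← integral_const_mul]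
    have iG2 : Integrable G2 := by
      have h1 := fub_integrable mm hs (hg.pow_const 2) (F := fun _ => (1 : ℝ)) measurable_const
        hg2b (by simp)
      have h2 := h1.integral_prod_right
      simpa only [one_mul] using h2
    have iDD : Integrable DD := by
      have h1 := fub_integrable mm hs hD (F := fun _ => (1 : ℝ)) measurable_const
        hDb (by simp)
      have h2 := h1.integral_prod_right
      simpa only [one_mul] using h2
    have iq : Integrable (fun y => mg y ^ 2 * q y) := by
      have h1 := fub_integrable mm hs (h := fun _ => (1 : ℝ)) (C := 1) measurable_const hmg2m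
        (by simp) hmg2b
      have h2 := h1.integral_prod_right
      refine h2.congr (ae_of_all _ fun y => ?_)
      simp only [one_mul]
      rw [integral_const_mul]
    rw [← integral_sub iG2 iq]
    exact integral_mono (iG2.sub iq) (iDD.const_mul _) hy
  -- conclusion
  set a := M * A - I ^ 2 with ha
  set b := M * B - I ^ 2 with hb
  set v := M * V - I ^ 2 with hv
  have hb0 : 0 ≤ b := by
    have h1 := cs_int (μ := mm) (f := u) (g := fun _ => 1) iu2 (by simp) (by simpa using iu)
    simp only [mul_one, one_pow, integral_const, smul_eq_mul] at h1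
    rw [hIu] at h1
    rw [hb, hB, hM]
    linarith
  have hv0 : 0 ≤ v := by
    have h1 := cs_int (μ := mm) (f := g) (g := fun _ => 1) ig2 (by simp) (by simpa using ig)
    simp only [mul_one, one_pow, integral_const, smul_eq_mul] at h1
    rw [hv, hV, hM]
    linarith
  have h1 : (1 + th) * b ≤ a := by rw [ha, hb]; rw [hb] at hb1; linarith
  have ha0 : 0 ≤ a := le_trans (by positivity) h1
  have h2 : a * (1 + th) ≤ v := by
    rcases ha0.eq_or_lt with h | h
    · rw [← h, zero_mul]; exact hv0
    · have h3 : a * (a * (1 + th)) ≤ a * v := by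
        calc a * (a * (1 + th)) = (1 + th) * a ^ 2 := by ring
          _ ≤ (1 + th) * (v * b) := mul_le_mul_of_nonneg_left hcs (by positivity)
          _ = v * ((1 + th) * b) := by ring
          _ ≤ v * a := mul_le_mul_of_nonneg_left h1 hv0
          _ = a * v := by ring
      exact le_of_mul_le_mul_left h3 h
  have h3 : v - a ≤ M * ((cL / 2) * ∫ x, D x ∂mm) := by
    have : v - a = M * (V - A) := by rw [hv, ha]; ring
    rw [this]
    exact mul_le_mul_of_nonneg_left hVA hMpos.le
  have h4 : v * th ≤ (1 + th) * (v - a) := by nlinarith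
  have h5 : v ≤ ((1 + th) / th) * (v - a) := by
    rw [div_mul_eq_mul_div, le_div_iff₀ hth]
    exact h4
  calc v ≤ ((1 + th) / th) * (v - a) := h5
    _ ≤ ((1 + th) / th) * (M * ((cL / 2) * ∫ x, D x ∂mm)) :=
        mul_le_mul_of_nonneg_left h3 (by positivity)
    _ = _ := by ring

end Pool.Agent.Lib.MP_6d896a_gt
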