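import Mathlib

/-!
Smooth cut-off functions between a set and its thickening.
-/

namespace Pool.Agent.Lib.MP_6d896a_gt

open MeasureTheory Real Filter Topology Convolution Metric ContinuousLinearMap

variable {E : Type*} [NormedAddCommGroup E] [InnerProductSpace ℝ E] [FiniteDimensional ℝ E]
  [MeasurableSpace E] [BorelSpace E]

/-- piecewise linear cut-off -/
noncomputable def cut (S : Set E) (ε δ : ℝ) (x : E) : ℝ :=
  max 0 (min 1 ((ε - 2 * δ - infDist x S) / (ε - 4 * δ)))

omit [InnerProductSpace ℝ E] [FiniteDimensional ℝ E] [MeasurableSpace E] [BorelSpace E] in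
lemma cut_nonneg (S : Set E) (ε δ : ℝ) (x : E) : 0 ≤ cut S ε δ x := le_max_left _ _

omit [InnerProductSpace ℝ E] [FiniteDimensional ℝ E] [MeasurableSpace E] [BorelSpace E] in
lemma cut_le_one (S : Set E) (ε δ : ℝ) (x : E) : cut S ε δ x ≤ 1 :=
  max_le zero_le_one (min_le_left _ _)

omit [InnerProductSpace ℝ E] [FiniteDimensional ℝ E] [MeasurableSpace E] [BorelSpace E] in
lemma cut_lip (S : Set E) {ε δ : ℝ} (h : 4 * δ < ε) (x y : E) :
    |cut S ε δ x - cut S ε δ y| ≤ (ε - 4 * δ)⁻¹ * ‖x - y‖ := by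
  unfold cut
  have h0 : 0 < ε - 4 * δ := by linarith
  have h1 := abs_max_sub_max_le_abs (min 1 ((ε - 2 * δ - infDist x S) / (ε - 4 * δ)))
    (min 1 ((ε - 2 * δ - infDist y S) / (ε - 4 * δ))) 0
  rw [max_comm, max_comm _ (0 : ℝ)] at h1
  rw [max_comm (0 : ℝ)] at h1
  refine le_trans ?_ (le_trans (abs_min_sub_min_le_max 1
    ((ε - 2 * δ - infDist x S) / (ε - 4 * δ)) 1 ((ε - 2 * δ - infDist y S) / (ε - 4 * δ))) ?_)
  · rw [max_comm (0 : ℝ) (min 1 ((ε - 2 * δ - infDist x S) / (ε - 4 * δ)))]
    exact h1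
  · rw [sub_self, abs_zero, max_eq_right (abs_nonneg _)]
    rw [← sub_div, abs_div, abs_of_pos h0, div_eq_inv_mul]
    apply mul_le_mul_of_nonneg_left _ (inv_pos.mpr h0).le
    rw [show (ε - 2 * δ - infDist x S - (ε - 2 * δ - infDist y S)) = infDist y S - infDist x S by ring]
    have h2 := (lipschitz_infDist_pt S).dist_le_mul y x
    rw [Real.dist_eq, dist_comm, dist_eq_norm] at h2
    simpa using h2

omit [InnerProductSpace ℝ E] [FiniteDimensional ℝ E] [MeasurableSpace E] [BorelSpace E] in
lemma cut_continuous (S : Set E) (ε δ : ℝ) : Continuous (cut S ε δ) := by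
  unfold cut
  exact continuous_const.max (continuous_const.min
    ((continuous_const.sub (continuous_infDist_pt S)).div_const _))

omit [InnerProductSpace ℝ E] [FiniteDimensional ℝ E] [MeasurableSpace E] [BorelSpace E] in
lemma cut_one (S : Set E) {ε δ : ℝ} (h : 4 * δ < ε) {x : E} (hx : infDist x S ≤ 2 * δ) :
    cut S ε δ x = 1 := by
  unfold cut
  have h0 : 0 < ε - 4 * δ := by linarith
  rw [min_eq_left, max_eq_right zero_le_one]
  rw [le_div_iff₀ h0]
  linarith

omit [InnerProductSpace ℝ E] [FiniteDimensional ℝ E] [MeasurableSpace E] [BorelSpace E] in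
lemma cut_zero (S : Set E) {ε δ : ℝ} (h : 4 * δ < ε) {x : E} (hx : ε - 2 * δ ≤ infDist x S) :
    cut S ε δ x = 0 := by
  unfold cut
  have h0 : 0 < ε - 4 * δ := by linarith
  apply max_eq_left
  apply min_le_of_right_le
  apply div_nonpos_of_nonpos_of_nonneg _ h0.le
  linarith

theorem exists_cutoff {S : Set E} (hS : S.Nonempty) {ε δ : ℝ} (hd : 0 < δ) (h : 4 * δ < ε) :
    ∃ (g : E → ℝ) (l2 : ℝ), 0 ≤ l2 ∧ ContDiff ℝ 1 g ∧ (∀ x, 0 ≤ g x) ∧ (∀ x, g x ≤ 1) ∧
      (∀ x y, |g x - g y| ≤ (ε - 4 * δ)⁻¹ * ‖x - y‖) ∧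
      (∀ x y, ‖fderiv ℝ g x - fderiv ℝ g y‖ ≤ l2 * ‖x - y‖) ∧
      (∀ x ∈ S, g x = 1 ∧ fderiv ℝ g x = 0) ∧
      (∀ x, x ∉ thickening ε S → g x = 0 ∧ fderiv ℝ g x = 0) := by
  have h0 : 0 < ε - 4 * δ := by linarith
  let φ : ContDiffBump (0 : E) := ⟨δ / 2, δ, by positivity, by linarith⟩
  set f : E → ℝ := cut S ε δ with hf
  set p : E → ℝ := φ.normed volume with hp
  have hfc : Continuous f := cut_continuous S ε δ
  have hfl : LocallyIntegrable f volume := hfc.locallyIntegrable
  have hpc : Continuous p := φ.continuous_normed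
  have hpd : ContDiff ℝ 1 p := φ.contDiff_normed
  have hps : HasCompactSupport p := φ.hasCompactSupport_normed
  have hpi : Integrable p := φ.integrable_normed
  have hp0 : ∀ x, 0 ≤ p x := fun x => φ.nonneg_normed x
  have hp1 : ∫ x, p x = 1 := φ.integral_normed
  set g : E → ℝ := (p ⋆[lsmul ℝ ℝ, volume] f) with hg
  have hgx : ∀ x, g x = ∫ t, p t * f (x - t) := by
    intro x
    rw [hg, convolution_def]
    rfl
  have hb : ∀ x, |f x| ≤ 1 := fun x => by
    rw [abs_of_nonneg (cut_nonneg S ε δ x)]; exact cut_le_one S ε δ x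
  have hint : ∀ x, Integrable (fun t => p t * f (x - t)) := by
    intro x
    refine hpi.mono' ?_ (ae_of_all _ fun t => ?_)
    · exact (hpc.mul (hfc.comp (continuous_const.sub continuous_id))).aestronglyMeasurable
    · rw [Real.norm_eq_abs, abs_mul, abs_of_nonneg (hp0 t)]
      exact mul_le_of_le_one_right (hp0 t) (hb _)
  have hgd : ContDiff ℝ 1 g := by
    have := hps.contDiff_convolution_left (lsmul ℝ ℝ) (n := 1) hpd hfl
    exact this
  have hder : ∀ x, fderiv ℝ g x = (fderiv ℝ p ⋆[(lsmul ℝ ℝ).precompL E, volume] f) x := by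
    intro x
    exact (hps.hasFDerivAt_convolution_left (lsmul ℝ ℝ) hpd hfl x).fderiv
  have hdc : Continuous (fderiv ℝ p) := hpd.continuous_fderiv (by norm_num)
  have hds : HasCompactSupport (fderiv ℝ p) := hps.fderiv ℝ
  have hdi : Integrable (fderiv ℝ p) := hdc.integrable_of_hasCompactSupport hds
  set Lp := (lsmul ℝ ℝ : ℝ →L[ℝ] ℝ →L[ℝ] ℝ).precompL E with hLp
  have hLapp : ∀ (A : E →L[ℝ] ℝ) (c : ℝ), Lp A c = c • A := by
    intro A c
    ext v
    rw [hLp, precompL_apply]
    simp only [lsmul_apply, smul_eq_mul, _root_.smul_apply]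
    ring
  have hdx : ∀ x, fderiv ℝ g x = ∫ t, f (x - t) • fderiv ℝ p t := by
    intro x
    rw [hder, convolution_def]
    simp only [hLapp]
  have hdint : ∀ x, Integrable (fun t => f (x - t) • fderiv ℝ p t) := by
    intro x
    refine hdi.norm.mono' ?_ (ae_of_all _ fun t => ?_)
    · exact ((hfc.comp (continuous_const.sub continuous_id)).smul hdc).aestronglyMeasurable
    · rw [norm_smul, Real.norm_eq_abs]
      exact mul_le_of_le_one_left (norm_nonneg _) (hb _)
  -- local constancy
  have hone : ∀ x, infDist x S ≤ δ → g x = 1 := by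
    intro x hx
    have h1 := φ.normed_convolution_eq_right (μ := volume) (g := f) (x₀ := x) (by
      intro z hz
      have hz' : dist z x < δ := hz
      have h2 : infDist z S ≤ infDist x S + dist z x := infDist_le_infDist_add_dist
      rw [hf, cut_one S h (by linarith), cut_one S h (by linarith)])
    rw [hg]
    refine h1.trans ?_
    exact cut_one S h (by linarith)
  have hzero : ∀ x, ε - δ ≤ infDist x S → g x = 0 := by
    intro x hx
    have h1 := φ.normed_convolution_eq_right (μ := volume) (g := f) (x₀ := x) (by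
      intro z hz
      have hz' : dist z x < δ := hz
      have h2 : infDist x S ≤ infDist z S + dist x z := infDist_le_infDist_add_dist
      rw [dist_comm] at h2
      rw [hf, cut_zero S h (by linarith), cut_zero S h (by linarith)])
    rw [hg]
    refine h1.trans ?_
    exact cut_zero S h (by linarith)
  refine ⟨g, (∫ t, ‖fderiv ℝ p t‖) * (ε - 4 * δ)⁻¹, ?_, hgd, ?_, ?_, ?_, ?_, ?_, ?_⟩
  · exact mul_nonneg (integral_nonneg fun t => norm_nonneg _) (inv_pos.mpr h0).le
  · intro x
    rw [hgx]
    exact integral_nonneg fun t => mul_nonneg (hp0 t) (cut_nonneg S ε δ _)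
  · intro x
    rw [hgx, ← hp1]
    apply integral_mono (hint x) hpi
    intro t
    exact mul_le_of_le_one_right (hp0 t) (cut_le_one S ε δ _)
  · intro x y
    rw [hgx, hgx, ← integral_sub (hint x) (hint y)]
    have h3 : ∀ t, |p t * f (x - t) - p t * f (y - t)| ≤ (ε - 4 * δ)⁻¹ * ‖x - y‖ * p t := by
      intro t
      rw [← mul_sub, abs_mul, abs_of_nonneg (hp0 t), mul_comm]
      apply mul_le_mul_of_nonneg_right _ (hp0 t)
      have := cut_lip S h (x - t) (y - t)
      rwa [sub_sub_sub_cancel_right] at this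
    refine (abs_integral_le_integral_abs).trans ?_
    refine (integral_mono ((hint x).sub (hint y)).abs (hpi.const_mul _) h3).trans ?_
    rw [integral_const_mul, hp1, mul_one]
  · intro x y
    rw [hdx, hdx, ← integral_sub (hdint x) (hdint y)]
    have h3 : ∀ t, ‖f (x - t) • fderiv ℝ p t - f (y - t) • fderiv ℝ p t‖ ≤
        (ε - 4 * δ)⁻¹ * ‖x - y‖ * ‖fderiv ℝ p t‖ := by
      intro t
      rw [← sub_smul, norm_smul, Real.norm_eq_abs]
      apply mul_le_mul_of_nonneg_right _ (norm_nonneg _)
      have := cut_lip S h (x - t) (y - t)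
      rwa [sub_sub_sub_cancel_right] at this
    refine (norm_integral_le_integral_norm _).trans ?_
    refine (integral_mono ((hdint x).sub (hdint y)).norm (hdi.norm.const_mul _) h3).trans ?_
    rw [integral_const_mul]
    apply le_of_eq
    ring
  · intro x hx
    have hx0 : infDist x S = 0 := infDist_zero_of_mem hx
    refine ⟨hone x (by rw [hx0]; exact hd.le), ?_⟩
    have hev : g =ᶠ[𝓝 x] fun _ => (1 : ℝ) := by
      filter_upwards [ball_mem_nhds x hd] with z hz
      apply hone
      have hz' : dist z x < δ := hz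
      have h2 : infDist z S ≤ infDist x S + dist z x := infDist_le_infDist_add_dist
      linarith
    rw [hev.fderiv_eq]
    exact (hasFDerivAt_const _ _).fderiv
  · intro x hx
    have hx0 : ε ≤ infDist x S := by
      by_contra hcon
      push Not at hcon
      apply hx
      rw [mem_thickening_iff]
      obtain ⟨z, hz, hz'⟩ := (infDist_lt_iff hS).mp hcon
      exact ⟨z, hz, hz'⟩
    refine ⟨hzero x (by linarith), ?_⟩
    have hev : g =ᶠ[𝓝 x] fun _ => (0 : ℝ) := by
      filter_upwards [ball_mem_nhds x hd] with z hz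
      apply hzero
      have hz' : dist z x < δ := hz
      have h2 : infDist x S ≤ infDist z S + dist x z := infDist_le_infDist_add_dist
      rw [dist_comm] at h2
      linarith
    rw [hev.fderiv_eq]
    exact (hasFDerivAt_const _ _).fderiv

end Pool.Agent.Lib.MP_6d896a_gt
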