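import Mathlib
import Pool.Agent.Lib.MP_6d896a_gt.Lite

/-!
Symmetric norms (invariant under signed permutations of the coordinates): pointwise properties of
the derivative.
-/

namespace Pool.Agent.Lib.MP_6d896a_gt

open MeasureTheory Filter Topology
open scoped ENNReal NNReal

variable {n : ℕ}

/-- signed permutation -/
noncomputable def sperm (σ : Equiv.Perm (Fin n)) (ε : Fin n → ℝ) (x : EuclideanSpace ℝ (Fin n)) :
    EuclideanSpace ℝ (Fin n) := WithLp.toLp 2 fun k => ε k * x (σ k)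

/-- sign vectors -/
def IsSign (ε : Fin n → ℝ) : Prop := ∀ k, ε k = 1 ∨ ε k = -1

/-- a symmetric norm, with a bound of the `l^1` norm -/
structure SG (p : EuclideanSpace ℝ (Fin n) → ℝ) (r : ℝ) : Prop where
  rpos : 0 < r
  nonneg : ∀ x, 0 ≤ p x
  hom : ∀ t : ℝ, 0 ≤ t → ∀ x, p (t • x) = t * p x
  sub : ∀ x y, p (x + y) ≤ p x + p y
  lip : ∃ L : ℝ≥0, LipschitzWith L p
  inv : ∀ (σ : Equiv.Perm (Fin n)) (ε : Fin n → ℝ), IsSign ε → ∀ x, p (sperm σ ε x) = p x
  l1 : ∀ x, ∑ j, |x j| ≤ n * r * p x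

variable {p : EuclideanSpace ℝ (Fin n) → ℝ} {r : ℝ}

lemma SG.fd_le (h : SG p r) {x : EuclideanSpace ℝ (Fin n)} (hx : DifferentiableAt ℝ p x)
    (y : EuclideanSpace ℝ (Fin n)) : fderiv ℝ p x y ≤ p y := by
  have h1 : HasLineDerivAt ℝ p (fderiv ℝ p x y) x y := hx.hasFDerivAt.hasLineDerivAt y
  have h2 := h1.tendsto_slope_zero_right
  apply le_of_tendsto h2
  filter_upwards [self_mem_nhdsWithin] with t ht
  have ht0 : (0 : ℝ) < t := ht
  have h3 := h.sub x (t • y)
  rw [h.hom t ht0.le] at h3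
  rw [smul_eq_mul, inv_mul_le_iff₀ ht0]
  linarith

lemma SG.fd_self (h : SG p r) {x : EuclideanSpace ℝ (Fin n)} (hx : DifferentiableAt ℝ p x) :
    fderiv ℝ p x x = p x := by
  have h1 : HasLineDerivAt ℝ p (fderiv ℝ p x x) x x := hx.hasFDerivAt.hasLineDerivAt x
  have h2 := h1.tendsto_slope_zero_right
  have h3 : Tendsto (fun t : ℝ => t⁻¹ • (p (x + t • x) - p x)) (𝓝[>] 0) (𝓝 (p x)) := by
    apply tendsto_const_nhds.congr'
    filter_upwards [self_mem_nhdsWithin] with t ht
    have ht0 : (0 : ℝ) < t := ht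
    have e : x + t • x = (1 + t) • x := by rw [add_smul, one_smul]
    rw [e, h.hom _ (by linarith), smul_eq_mul]
    field_simp
    ring
  exact tendsto_nhds_unique h2 h3

lemma SG.fd_inv (h : SG p r) {x : EuclideanSpace ℝ (Fin n)} (hx : DifferentiableAt ℝ p x)
    (σ : Equiv.Perm (Fin n)) (ε : Fin n → ℝ) (hε : IsSign ε) :
    fderiv ℝ p x (sperm σ ε x) ≤ fderiv ℝ p x x := by
  rw [h.fd_self hx]
  have := h.fd_le hx (sperm σ ε x)
  rwa [h.inv σ ε hε] at this

/-- the derivative in direction `j` has the sign of `x j` -/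
lemma SG.sign (h : SG p r) {x : EuclideanSpace ℝ (Fin n)} (hx : DifferentiableAt ℝ p x)
    (j : Fin n) : 0 ≤ x j * fderiv ℝ p x (ej j) := by
  have h1 := h.fd_inv hx (Equiv.refl _) (fun k => if k = j then -1 else 1)
    (fun k => by by_cases hk : k = j <;> simp [hk])
  have e : sperm (Equiv.refl _) (fun k => if k = j then -1 else 1) x = x - (2 * x j) • ej j := by
    ext k
    by_cases hk : k = j
    · subst hk
      simp [sperm, ej]
      ring
    · simp [sperm, ej, hk]
  rw [e, map_sub, map_smul, smul_eq_mul] at h1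
  nlinarith

lemma SG.sign_abs (h : SG p r) {x : EuclideanSpace ℝ (Fin n)} (hx : DifferentiableAt ℝ p x)
    (j : Fin n) : x j * fderiv ℝ p x (ej j) = |x j| * |fderiv ℝ p x (ej j)| := by
  rw [← abs_mul, abs_of_nonneg (h.sign hx j)]

lemma exists_sign (a b : ℝ) : ∃ e : ℝ, (e = 1 ∨ e = -1) ∧ e * a * b = |a| * |b| := by
  by_cases hab : 0 ≤ a * b
  · refine ⟨1, Or.inl rfl, ?_⟩
    rw [← abs_mul, abs_of_nonneg hab]; ring
  · refine ⟨-1, Or.inr rfl, ?_⟩
    rw [← abs_mul, abs_of_neg (not_le.mp hab)]; ring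

/-- larger coordinates have larger derivatives -/
lemma SG.mono (h : SG p r) {x : EuclideanSpace ℝ (Fin n)} (hx : DifferentiableAt ℝ p x)
    {i j : Fin n} (hij : |x i| < |x j|) :
    |fderiv ℝ p x (ej i)| ≤ |fderiv ℝ p x (ej j)| := by
  have hne : i ≠ j := by rintro rfl; exact lt_irrefl _ hij
  set Li := fderiv ℝ p x (ej i) with hLi
  set Lj := fderiv ℝ p x (ej j) with hLj
  obtain ⟨ei, hei, hei2⟩ := exists_sign (x j) Li
  obtain ⟨ek, hek, hek2⟩ := exists_sign (x i) Lj
  have h1 := h.fd_inv hx (Equiv.swap i j) (fun k => if k = i then ei else if k = j then ek else 1)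
    (fun k => by
      by_cases hk : k = i
      · simpa [hk] using hei
      · by_cases hk2 : k = j
        · simpa [hk2, hne.symm] using hek
        · simp [hk, hk2])
  have e : sperm (Equiv.swap i j) (fun k => if k = i then ei else if k = j then ek else 1) x =
      x + (ei * x j - x i) • ej i + (ek * x i - x j) • ej j := by
    ext k
    by_cases hk : k = i
    · subst hk
      simp [sperm, ej, hne]
    · by_cases hk2 : k = j
      · subst hk2
        simp [sperm, ej, hk]
      · simp [sperm, ej, hk, hk2, Equiv.swap_apply_of_ne_of_ne hk hk2]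
  rw [e, map_add, map_add, map_smul, map_smul, smul_eq_mul, smul_eq_mul, ← hLi, ← hLj] at h1
  have s1 := h.sign_abs hx i
  have s2 := h.sign_abs hx j
  rw [← hLi] at s1
  rw [← hLj] at s2
  have h2 : (|x j| - |x i|) * (|Li| - |Lj|) ≤ 0 := by nlinarith
  by_contra hcon
  push Not at hcon
  have : 0 < (|x j| - |x i|) * (|Li| - |Lj|) := mul_pos (by linarith) (by linarith)
  linarith

/-- weights -/
noncomputable def wt (p : EuclideanSpace ℝ (Fin n) → ℝ) (x : EuclideanSpace ℝ (Fin n)) (j : Fin n) :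
    ℝ := |fderiv ℝ p x (ej j)| / p x

lemma wt_nonneg (h : SG p r) (x : EuclideanSpace ℝ (Fin n)) (j : Fin n) : 0 ≤ wt p x j :=
  div_nonneg (abs_nonneg _) (h.nonneg x)

lemma SG.sum_wt (h : SG p r) {x : EuclideanSpace ℝ (Fin n)} (hx : DifferentiableAt ℝ p x)
    (hp : 0 < p x) : ∑ j, |x j| * wt p x j = 1 := by
  unfold wt
  have h1 : ∑ j, |x j| * |fderiv ℝ p x (ej j)| = p x := by
    rw [← h.fd_self hx]
    conv_rhs => rw [← sum_ej x, map_sum]
    apply Finset.sum_congr rfl
    intro j _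
    rw [map_smul, smul_eq_mul, sum_ej, h.sign_abs hx j]
  calc ∑ j, |x j| * (|fderiv ℝ p x (ej j)| / p x)
      = (∑ j, |x j| * |fderiv ℝ p x (ej j)|) / p x := by
        rw [Finset.sum_div]
        apply Finset.sum_congr rfl
        intro j _
        ring
    _ = 1 := by rw [h1]; exact div_self hp.ne'

lemma SG.abs_wt_le (h : SG p r) {x : EuclideanSpace ℝ (Fin n)} (hx : DifferentiableAt ℝ p x)
    (hp : 0 < p x) (j : Fin n) : |x j| * wt p x j ≤ 1 := by
  rw [← h.sum_wt hx hp]
  exact Finset.single_le_sum (f := fun j => |x j| * wt p x j)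
    (fun k _ => mul_nonneg (abs_nonneg _) (wt_nonneg h x k)) (Finset.mem_univ j)

lemma SG.wt_mono (h : SG p r) {x : EuclideanSpace ℝ (Fin n)} (hx : DifferentiableAt ℝ p x)
    {i j : Fin n} (hij : |x i| < |x j|) : wt p x i ≤ wt p x j :=
  div_le_div_of_nonneg_right (h.mono hx hij) (h.nonneg x)

lemma SG.coord_le (h : SG p r) (x : EuclideanSpace ℝ (Fin n)) (j : Fin n) :
    |x j| ≤ n * r * p x :=
  (Finset.single_le_sum (f := fun j => |x j|) (fun _ _ => abs_nonneg _)
    (Finset.mem_univ j)).trans (h.l1 x)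

/-- the bound of the norm in terms of the weights -/
lemma SG.norm_sq_wt (h : SG p r) {x : EuclideanSpace ℝ (Fin n)} (hx : DifferentiableAt ℝ p x)
    (hp : 0 < p x) (hp1 : p x ≤ 1) (i : Fin n) : ‖x‖ ^ 2 * wt p x i ≤ 2 * n * r := by
  have hr := h.rpos
  have hn : (0 : ℝ) ≤ n := Nat.cast_nonneg n
  have hnr : (n : ℝ) * r * p x ≤ n * r := mul_le_of_le_one_right (by positivity) hp1
  rw [EuclideanSpace.norm_sq_eq, Finset.sum_mul]
  have hterm : ∀ j, ‖x j‖ ^ 2 * wt p x i ≤ |x j| + (n * r) * (|x j| * wt p x j) := by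
    intro j
    have hxj := abs_nonneg (x j)
    have hwj := wt_nonneg h x j
    have hwi := wt_nonneg h x i
    rw [Real.norm_eq_abs]
    rcases le_or_gt |x j| |x i| with hle | hgt
    · have h1 : |x j| * wt p x i ≤ 1 :=
        (mul_le_mul_of_nonneg_right hle hwi).trans (h.abs_wt_le hx hp i)
      have h2 : |x j| ^ 2 * wt p x i ≤ |x j| := by nlinarith
      have h3 : 0 ≤ (n * r) * (|x j| * wt p x j) := by positivity
      linarith
    · have h1 := h.wt_mono hx hgt
      have h2 : |x j| ≤ n * r := (h.coord_le x j).trans hnr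
      have h3 : |x j| ^ 2 * wt p x i ≤ |x j| ^ 2 * wt p x j :=
        mul_le_mul_of_nonneg_left h1 (by positivity)
      have h4 : |x j| ^ 2 * wt p x j ≤ (n * r) * (|x j| * wt p x j) := by
        have := mul_le_mul_of_nonneg_right h2 (mul_nonneg hxj hwj)
        nlinarith
      linarith
  calc ∑ j, ‖x j‖ ^ 2 * wt p x i ≤ ∑ j, (|x j| + (n * r) * (|x j| * wt p x j)) :=
        Finset.sum_le_sum fun j _ => hterm j
    _ = ∑ j, |x j| + (n * r) * ∑ j, |x j| * wt p x j := by
        rw [Finset.sum_add_distrib, Finset.mul_sum]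
    _ ≤ n * r + n * r * 1 := by
        rw [h.sum_wt hx hp]
        have := h.l1 x
        linarith
    _ = 2 * n * r := by ring

lemma SG.norm_le (h : SG p r) (x : EuclideanSpace ℝ (Fin n)) : ‖x‖ ≤ n * r * p x := by
  have h1 : ‖x‖ ≤ ∑ j, |x j| := by
    conv_lhs => rw [← sum_ej x]
    refine (norm_sum_le _ _).trans (Finset.sum_le_sum fun j _ => ?_)
    rw [norm_smul]
    simp [ej]
  exact h1.trans (h.l1 x)

lemma SG.pos (h : SG p r) {x : EuclideanSpace ℝ (Fin n)} (hx : x ≠ 0) : 0 < p x := by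
  rcases (h.nonneg x).eq_or_lt with h0 | h0
  · have h1 := h.norm_le x
    rw [← h0, mul_zero] at h1
    exact absurd (norm_le_zero_iff.mp h1) hx
  · exact h0

lemma SG.zero (h : SG p r) : p 0 = 0 := by
  have := h.hom 0 le_rfl 0
  simpa using this

end Pool.Agent.Lib.MP_6d896a_gt
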