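import Mathlib
import Pool.Agent.Lib.MP_6d896a_gt.Sym1

/-!
The integration by parts identity on the shells of a symmetric norm.
-/

namespace Pool.Agent.Lib.MP_6d896a_gt

open MeasureTheory Filter Topology Metric
open scoped ENNReal NNReal

variable {n : ℕ} {p : EuclideanSpace ℝ (Fin n) → ℝ} {r : ℝ}

/-- truncated logarithm -/
noncomputable def cl (δ τ : ℝ) : ℝ := Real.log (min (max τ δ) 1)

lemma cl_lip {δ : ℝ} (hδ : 0 < δ) (hδ1 : δ < 1) (a b : ℝ) : |cl δ a - cl δ b| ≤ δ⁻¹ * |a - b| := by
  unfold cl
  set u := min (max a δ) 1 with hu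
  set v := min (max b δ) 1 with hv
  have hu0 : δ ≤ u := le_min (le_max_right _ _) hδ1.le
  have hv0 : δ ≤ v := le_min (le_max_right _ _) hδ1.le
  have huv : |u - v| ≤ |a - b| := by
    have h1 : |u - v| ≤ max |max a δ - max b δ| |(1 : ℝ) - 1| := abs_min_sub_min_le_max _ _ _ _
    have h2 : |max a δ - max b δ| ≤ max |a - b| |δ - δ| := abs_max_sub_max_le_max _ _ _ _
    simp only [sub_self, abs_zero] at h1 h2
    have h3 : max |a - b| 0 = |a - b| := max_eq_left (abs_nonneg _)
    rw [h3] at h2
    exact h1.trans (max_le h2 (abs_nonneg _))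
  have key : ∀ s t : ℝ, δ ≤ s → δ ≤ t → Real.log s - Real.log t ≤ δ⁻¹ * |s - t| := by
    intro s t hs ht
    have hs0 : 0 < s := hδ.trans_le hs
    have ht0 : 0 < t := hδ.trans_le ht
    rw [← Real.log_div hs0.ne' ht0.ne']
    have h1 := Real.log_le_sub_one_of_pos (div_pos hs0 ht0)
    have h2 : s / t - 1 = (s - t) / t := by field_simp
    rw [h2] at h1
    refine h1.trans ?_
    calc (s - t) / t ≤ |s - t| / t := div_le_div_of_nonneg_right (le_abs_self _) ht0.le
      _ ≤ |s - t| / δ := div_le_div_of_nonneg_left (abs_nonneg _) hδ ht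
      _ = δ⁻¹ * |s - t| := by ring
  have h4 : |Real.log u - Real.log v| ≤ δ⁻¹ * |u - v| := by
    rw [abs_le]
    constructor
    · have := key v u hv0 hu0
      rw [abs_sub_comm v u] at this
      linarith
    · exact key u v hu0 hv0
  exact h4.trans (mul_le_mul_of_nonneg_left huv (by positivity))

lemma cl_log {δ : ℝ} (hδ : 0 < δ) (_hδ1 : δ < 1) {τ : ℝ} (hτ : 0 < τ) :
    cl δ τ = min (max (Real.log τ) (Real.log δ)) 0 := by
  unfold cl
  have h1 : Real.log (max τ δ) = max (Real.log τ) (Real.log δ) := by
    rcases le_total τ δ with h | h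
    · rw [max_eq_right h, max_eq_right (Real.log_le_log hτ h)]
    · rw [max_eq_left h, max_eq_left (Real.log_le_log hδ h)]
  have hm : 0 < max τ δ := lt_max_of_lt_left hτ
  rcases le_total (max τ δ) 1 with h | h
  · rw [min_eq_left h, h1, min_eq_left]
    rw [← h1]
    exact Real.log_nonpos hm.le h
  · rw [min_eq_right h, Real.log_one, min_eq_right]
    rw [← h1]
    exact Real.log_nonneg h

lemma cl_zero {δ : ℝ} (_hδ : 0 < δ) (hδ1 : δ < 1) : cl δ 0 = Real.log δ := by
  unfold cl
  rw [max_eq_right _hδ.le, min_eq_left hδ1.le]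

lemma cl_one_le {δ : ℝ} (hδ1 : δ < 1) {τ : ℝ} (hτ : 1 ≤ τ) : cl δ τ = 0 := by
  unfold cl
  rw [max_eq_left (hδ1.le.trans hτ), min_eq_right hτ, Real.log_one]

/-- the shell -/
def shell (p : EuclideanSpace ℝ (Fin n) → ℝ) (δ : ℝ) : Set (EuclideanSpace ℝ (Fin n)) :=
  {x | δ < p x ∧ p x < 1}

lemma SG.continuous (h : SG p r) : Continuous p := by
  obtain ⟨L, hL⟩ := h.lip
  exact hL.continuous

lemma shell_open (h : SG p r) (δ : ℝ) : IsOpen (shell p δ) :=
  (isOpen_lt continuous_const h.continuous).inter (isOpen_lt h.continuous continuous_const)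

lemma SG.convex (h : SG p r) (c : ℝ) : Convex ℝ {x | p x ≤ c} := by
  intro x hx y hy a b ha hb hab
  simp only [Set.mem_ofPred_eq] at hx hy ⊢
  calc p (a • x + b • y) ≤ p (a • x) + p (b • y) := h.sub _ _
    _ = a * p x + b * p y := by rw [h.hom a ha, h.hom b hb]
    _ ≤ a * c + b * c := by gcongr
    _ = c := by rw [← add_mul, hab, one_mul]

/-- the spheres are null sets -/
lemma SG.sphere_null (h : SG p r) {c : ℝ} (hc : 0 < c) :
    (volume : Measure (EuclideanSpace ℝ (Fin n))) {x | p x = c} = 0 := by
  refine measure_mono_null ?_ ((h.convex c).addHaar_frontier volume)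
  intro x hx
  simp only [Set.mem_ofPred_eq] at hx
  rw [frontier_eq_closure_inter_closure]
  refine ⟨subset_closure (by simp [hx]), ?_⟩
  rw [Metric.mem_closure_iff]
  intro ε hε
  set t : ℝ := ε / (2 * (‖x‖ + 1)) with ht
  have hx0 := norm_nonneg x
  have ht0 : 0 < t := by positivity
  refine ⟨(1 + t) • x, ?_, ?_⟩
  · simp only [Set.mem_compl_iff, Set.mem_ofPred_eq, not_le]
    rw [h.hom _ (by linarith), hx]
    nlinarith
  · rw [dist_eq_norm]
    have e : x - (1 + t) • x = -(t • x) := by rw [add_smul, one_smul]; abel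
    rw [e, norm_neg, norm_smul, Real.norm_eq_abs, abs_of_pos ht0, ht]
    rw [div_mul_eq_mul_div, div_lt_iff₀ (by positivity)]
    nlinarith

lemma SG.ae_ne (h : SG p r) {c : ℝ} (hc : 0 < c) :
    ∀ᵐ x ∂(volume : Measure (EuclideanSpace ℝ (Fin n))), p x ≠ c := by
  rw [ae_iff]
  simpa using h.sphere_null hc

lemma SG.ae_diff (h : SG p r) :
    ∀ᵐ x ∂(volume : Measure (EuclideanSpace ℝ (Fin n))), DifferentiableAt ℝ p x := by
  obtain ⟨L, hL⟩ := h.lip
  exact hL.ae_differentiableAt

lemma lineDeriv_scale {f : EuclideanSpace ℝ (Fin n) → ℝ} (c : ℝ) (x w : EuclideanSpace ℝ (Fin n)) :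
    lineDeriv ℝ (fun x => f (c • x)) x w = c * lineDeriv ℝ f (c • x) w := by
  unfold lineDeriv
  have e : (fun t : ℝ => f (c • (x + t • w))) = fun t : ℝ => (fun s : ℝ => f (c • x + s • w)) (c * t) := by
    funext t
    simp only [smul_add, mul_smul]
  rw [e]
  have h1 := deriv_comp_mul_left c (fun s : ℝ => f (c • x + s • w)) 0
  rw [mul_zero, smul_eq_mul] at h1
  exact h1

/-- the derivative of the truncated logarithm of the norm -/
lemma SG.lineDeriv_cl (h : SG p r) {δ : ℝ} (hδ : 0 < δ) (hδ1 : δ < 1)
    {x : EuclideanSpace ℝ (Fin n)} (hx : DifferentiableAt ℝ p x) (h1 : p x ≠ δ) (h2 : p x ≠ 1)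
    (w : EuclideanSpace ℝ (Fin n)) :
    lineDeriv ℝ (fun x => cl δ (p x)) x w =
      (shell p δ).indicator (fun x => fderiv ℝ p x w / p x) x := by
  have hc := h.continuous
  rcases lt_or_gt_of_ne h1 with h3 | h3
  · -- locally constant
    have hev : (fun x => cl δ (p x)) =ᶠ[𝓝 x] fun _ => Real.log δ := by
      filter_upwards [hc.continuousAt.eventually_lt continuousAt_const h3] with y hy
      unfold cl
      rw [max_eq_right hy.le, min_eq_left hδ1.le]
    rw [Set.indicator_of_notMem (by simp only [shell, Set.mem_ofPred_eq]; intro hh; linarith [hh.1])]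
    rw [hev.lineDeriv_eq]
    simp [lineDeriv]
  · rcases lt_or_gt_of_ne h2 with h4 | h4
    · have hp0 : 0 < p x := hδ.trans h3
      have hev : (fun x => cl δ (p x)) =ᶠ[𝓝 x] fun x => Real.log (p x) := by
        filter_upwards [continuousAt_const.eventually_lt hc.continuousAt h3,
          hc.continuousAt.eventually_lt continuousAt_const h4] with y hy hy2
        unfold cl
        rw [max_eq_left hy.le, min_eq_left hy2.le]
      rw [Set.indicator_of_mem (by simp only [shell, Set.mem_ofPred_eq]; exact ⟨h3, h4⟩)]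
      rw [hev.lineDeriv_eq]
      have hd : HasFDerivAt (fun x => Real.log (p x)) ((p x)⁻¹ • fderiv ℝ p x) x :=
        hx.hasFDerivAt.log hp0.ne'
      rw [(hd.hasLineDerivAt w).lineDeriv]
      rw [_root_.smul_apply, smul_eq_mul, div_eq_inv_mul]
    · have hev : (fun x => cl δ (p x)) =ᶠ[𝓝 x] fun _ => (0 : ℝ) := by
        filter_upwards [continuousAt_const.eventually_lt hc.continuousAt h4] with y hy
        exact cl_one_le hδ1 hy.le
      rw [Set.indicator_of_notMem (by simp only [shell, Set.mem_ofPred_eq]; intro hh; linarith [hh.2])]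
      rw [hev.lineDeriv_eq]
      simp [lineDeriv]

/-- identity for compactly supported functions -/
theorem SG.ident_cpt (h : SG p r) {δ : ℝ} (hδ : 0 < δ) (hδ1 : δ < 1)
    {v : EuclideanSpace ℝ (Fin n) → ℝ} (hv : ContDiff ℝ 1 v) (hvc : HasCompactSupport v)
    (w : EuclideanSpace ℝ (Fin n)) :
    ∫ x in shell p δ, fderiv ℝ v x w =
      ∫ x in shell p δ, (fderiv ℝ p x w / p x) * ((n - 1 : ℝ) * v x + fderiv ℝ v x x) := by
  obtain ⟨Lp, hLp⟩ := h.lip
  obtain ⟨Lv, hLv⟩ := ContDiff.lipschitzWith_of_hasCompactSupport hvc hv (by simp)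
  have hc := h.continuous
  have hAm : MeasurableSet (shell p δ) := (shell_open h δ).measurableSet
  set g : EuclideanSpace ℝ (Fin n) → ℝ := fun x => cl δ (p x) with hg
  have hglip : LipschitzWith (Real.toNNReal δ⁻¹ * Lp) g := by
    apply LipschitzWith.of_dist_le_mul
    intro a b
    rw [Real.dist_eq, NNReal.coe_mul, Real.coe_toNNReal _ (by positivity)]
    refine (cl_lip hδ hδ1 _ _).trans ?_
    rw [mul_assoc]
    apply mul_le_mul_of_nonneg_left _ (by positivity)
    have := hLp.dist_le_mul a b
    rwa [Real.dist_eq] at this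
  have hgcpt : ∀ c : ℝ, 0 < c → HasCompactSupport (fun x => g (c • x)) := by
    intro c hcp
    apply HasCompactSupport.of_support_subset_isCompact (isCompact_closedBall (0 : EuclideanSpace ℝ (Fin n)) (n * r * (1 / c)))
    intro x hx
    rw [Function.mem_support] at hx
    have h5 : p (c • x) < 1 := by
      by_contra hcon
      push Not at hcon
      exact hx (cl_one_le hδ1 hcon)
    rw [h.hom c hcp.le] at h5
    rw [mem_closedBall_zero_iff]
    have h6 : p x ≤ 1 / c := by rw [le_div_iff₀ hcp]; linarith
    have hr := h.rpos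
    calc ‖x‖ ≤ n * r * p x := h.norm_le x
      _ ≤ n * r * (1 / c) := by
          apply mul_le_mul_of_nonneg_left h6
          positivity
  set G : EuclideanSpace ℝ (Fin n) → ℝ := fun y => lineDeriv ℝ g y (-w) with hG
  have hGm : Measurable G := measurable_lineDeriv hglip.continuous
  obtain ⟨CG, hCG⟩ : ∃ C : ℝ, ∀ y, |G y| ≤ C := by
    refine ⟨(Real.toNNReal δ⁻¹ * Lp : ℝ≥0) * ‖-w‖, fun y => ?_⟩
    have := norm_lineDeriv_le_of_lipschitz ℝ hglip (x₀ := y) (v := -w)
    rwa [Real.norm_eq_abs] at this
  -- integration by parts at every scale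
  have hibp : ∀ lam : ℝ, 0 < lam →
      ∫ x, g (lam⁻¹ • x) * fderiv ℝ v x w = lam⁻¹ * (lam ^ n * ∫ y, G y * v (lam • y)) := by
    intro lam hlam
    have hlam' : 0 < lam⁻¹ := inv_pos.mpr hlam
    have hl2 : LipschitzWith (Real.toNNReal δ⁻¹ * Lp * Real.toNNReal lam⁻¹) (fun x => g (lam⁻¹ • x)) := by
      have := hglip.comp (lipschitzWith_smul (β := EuclideanSpace ℝ (Fin n)) lam⁻¹)
      have e : ‖lam⁻¹‖₊ = Real.toNNReal lam⁻¹ := by
        rw [← NNReal.coe_inj, coe_nnnorm, Real.norm_eq_abs, abs_of_pos hlam', Real.coe_toNNReal _ hlam'.le]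
      rw [e] at this
      exact this
    have h7 := hLv.integral_lineDeriv_mul_eq (μ := volume) hl2 (hgcpt _ hlam') w
    have e1 : ∀ x, lineDeriv ℝ v x w = fderiv ℝ v x w := fun x =>
      (hv.differentiable (by simp)).differentiableAt.lineDeriv_eq_fderiv
    have e2 : ∀ x, lineDeriv ℝ (fun x => g (lam⁻¹ • x)) x (-w) = lam⁻¹ * G (lam⁻¹ • x) := fun x =>
      lineDeriv_scale _ _ _
    simp only [e1, e2] at h7
    calc ∫ x, g (lam⁻¹ • x) * fderiv ℝ v x w = ∫ x, fderiv ℝ v x w * g (lam⁻¹ • x) := by
          congr 1; funext x; ring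
      _ = ∫ x, lam⁻¹ * G (lam⁻¹ • x) * v x := h7
      _ = lam⁻¹ * ∫ x, (fun y => G y * v (lam • y)) (lam⁻¹ • x) := by
          rw [← integral_const_mul]
          congr 1
          funext x
          simp only
          rw [smul_smul, mul_inv_cancel₀ hlam.ne', one_smul]
          ring
      _ = _ := by
          have h8 := Measure.integral_comp_inv_smul_of_nonneg
            (volume : Measure (EuclideanSpace ℝ (Fin n))) (fun y => G y * v (lam • y)) hlam.le
          rw [finrank_euclideanSpace_fin, smul_eq_mul] at h8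
          rw [h8]
  -- derivative of the left side
  set v' : EuclideanSpace ℝ (Fin n) → ℝ := fun x => fderiv ℝ v x w with hv'
  have hv'c : Continuous v' := (hv.continuous_fderiv (by simp)).clm_apply continuous_const
  have hv's : HasCompactSupport v' := hvc.fderiv_apply (𝕜 := ℝ) w
  have hv'i : Integrable v' := hv'c.integrable_of_hasCompactSupport hv's
  have hgc : Continuous g := hglip.continuous
  have hgb : ∀ x, |g x| ≤ |Real.log δ| := by
    intro x
    have h9 : ∀ τ : ℝ, |cl δ τ| ≤ |Real.log δ| := by
      intro τ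
      unfold cl
      have h10 : δ ≤ min (max τ δ) 1 := le_min (le_max_right _ _) hδ1.le
      have h11 : min (max τ δ) 1 ≤ 1 := min_le_right _ _
      have h12 : Real.log (min (max τ δ) 1) ≤ 0 := Real.log_nonpos (hδ.le.trans h10) h11
      have h13 : Real.log δ ≤ Real.log (min (max τ δ) 1) := Real.log_le_log hδ h10
      rw [abs_of_nonpos h12, abs_of_nonpos (h13.trans h12)]
      linarith
    exact h9 _
  have hne : ∀ᵐ x ∂(volume : Measure (EuclideanSpace ℝ (Fin n))), p x ≠ δ := h.ae_ne hδ
  have hne1 : ∀ᵐ x ∂(volume : Measure (EuclideanSpace ℝ (Fin n))), p x ≠ 1 := h.ae_ne one_pos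
  have hgs : ∀ lam : ℝ, 0 < lam → ∀ x, g (lam⁻¹ • x) = cl δ (lam⁻¹ * p x) := by
    intro lam hlam x
    show cl δ (p (lam⁻¹ • x)) = _
    rw [h.hom _ (inv_pos.mpr hlam).le]
  have hleft := hasDerivAt_integral_of_dominated_loc_of_lip (μ := (volume : Measure (EuclideanSpace ℝ (Fin n))))
    (F := fun lam x => cl δ (lam⁻¹ * p x) * v' x) (x₀ := (1 : ℝ)) (s := ball 1 (1 / 2))
    (F' := fun x => -((shell p δ).indicator v' x)) (bound := fun x => 2 * |v' x|)
    (ball_mem_nhds _ (by norm_num))
    (Eventually.of_forall fun lam => by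
      have hcl : Continuous (cl δ) := by
        unfold cl
        apply Continuous.log
        · fun_prop
        · intro τ
          exact (lt_min (lt_max_of_lt_right hδ) one_pos).ne'
      have : Continuous (fun x => cl δ (lam⁻¹ * p x) * v' x) := by fun_prop
      exact this.aestronglyMeasurable)
    (by
      have e : (fun x => cl δ ((1 : ℝ)⁻¹ * p x) * v' x) = fun x => g x * v' x := by
        funext x
        simp only [inv_one, one_mul, hg]
      rw [e]
      refine (hv'i.const_mul |Real.log δ|).norm.mono' (hgc.mul hv'c).aestronglyMeasurable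
        (ae_of_all _ fun x => ?_)
      simp only [norm_mul, Real.norm_eq_abs, abs_abs]
      exact mul_le_mul_of_nonneg_right (hgb x) (abs_nonneg _))
    ((hv'c.measurable.indicator hAm).neg.aestronglyMeasurable)
    (ae_of_all _ fun x => by
      apply LipschitzOnWith.of_dist_le_mul
      intro a ha b hb
      rw [mem_ball, Real.dist_eq, abs_lt] at ha hb
      have ha0 : 0 < a := by linarith
      have hb0 : 0 < b := by linarith
      simp only [Real.dist_eq, Real.coe_nnabs, abs_mul, abs_abs]
      rw [← sub_mul, abs_mul]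
      have key : |cl δ (a⁻¹ * p x) - cl δ (b⁻¹ * p x)| ≤ 2 * |a - b| := by
        rcases (h.nonneg x).eq_or_lt with h0 | h0
        · rw [← h0]; simp
        · have ha1 : 0 < a⁻¹ := inv_pos.mpr ha0
          have hb1 : 0 < b⁻¹ := inv_pos.mpr hb0
          rw [cl_log hδ hδ1 (by positivity), cl_log hδ hδ1 (by positivity)]
          have c1 : |min (max (Real.log (a⁻¹ * p x)) (Real.log δ)) 0 -
              min (max (Real.log (b⁻¹ * p x)) (Real.log δ)) 0| ≤
              |Real.log (a⁻¹ * p x) - Real.log (b⁻¹ * p x)| := by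
            refine (abs_min_sub_min_le_max _ _ _ _).trans ?_
            rw [sub_self, abs_zero, max_eq_left (abs_nonneg _)]
            refine (abs_max_sub_max_le_max _ _ _ _).trans ?_
            rw [sub_self, abs_zero, max_eq_left (abs_nonneg _)]
          refine c1.trans ?_
          rw [Real.log_mul ha1.ne' h0.ne', Real.log_mul hb1.ne' h0.ne', Real.log_inv, Real.log_inv]
          have e : -Real.log a + Real.log (p x) - (-Real.log b + Real.log (p x)) =
            Real.log b - Real.log a := by ring
          rw [e]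
          have hl : ∀ s t : ℝ, 1 / 2 < s → 1 / 2 < t → Real.log s - Real.log t ≤ 2 * |s - t| := by
            intro s t hs ht
            have hs0 : 0 < s := by linarith
            have ht0 : 0 < t := by linarith
            rw [← Real.log_div hs0.ne' ht0.ne']
            have h1 := Real.log_le_sub_one_of_pos (div_pos hs0 ht0)
            have h2 : s / t - 1 = (s - t) / t := by field_simp
            rw [h2] at h1
            refine h1.trans ?_
            rw [div_le_iff₀ ht0]
            have := le_abs_self (s - t)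
            have h3 := abs_nonneg (s - t)
            nlinarith
          rw [abs_le]
          constructor
          · have := hl a b (by linarith) (by linarith)
            linarith
          · have := hl b a (by linarith) (by linarith)
            rw [abs_sub_comm b a] at this
            exact this
      calc |cl δ (a⁻¹ * p x) - cl δ (b⁻¹ * p x)| * |v' x| ≤ 2 * |a - b| * |v' x| :=
            mul_le_mul_of_nonneg_right key (abs_nonneg _)
        _ = |2| * |v' x| * |a - b| := by rw [abs_of_pos (by norm_num : (0 : ℝ) < 2)]; ring)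
    ((hv'i.norm.const_mul 2).congr (ae_of_all _ fun x => by simp [Real.norm_eq_abs]))
    (by
      filter_upwards [hne, hne1] with x hx hx1
      rcases lt_or_gt_of_ne hx with h3 | h3
      · rw [Set.indicator_of_notMem (by simp only [shell, Set.mem_ofPred_eq]; intro hh; linarith [hh.1]),
          neg_zero]
        have hcont : ContinuousAt (fun lam : ℝ => lam⁻¹ * p x) 1 := by
          apply ContinuousAt.mul _ continuousAt_const
          exact continuousAt_inv₀ one_ne_zero
        have hev : (fun lam : ℝ => cl δ (lam⁻¹ * p x) * v' x) =ᶠ[𝓝 1] fun _ => Real.log δ * v' x := by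
          have h4 : (fun lam : ℝ => lam⁻¹ * p x) 1 < δ := by simpa using h3
          filter_upwards [hcont.eventually_lt continuousAt_const h4] with lam hlam
          unfold cl
          rw [max_eq_right hlam.le, min_eq_left hδ1.le]
        exact (hasDerivAt_const _ _).congr_of_eventuallyEq hev
      · rcases lt_or_gt_of_ne hx1 with h4 | h4
        · have hp0 : 0 < p x := hδ.trans h3
          rw [Set.indicator_of_mem (by simp only [shell, Set.mem_ofPred_eq]; exact ⟨h3, h4⟩)]
          have hcont : ContinuousAt (fun lam : ℝ => lam⁻¹ * p x) 1 := by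
            apply ContinuousAt.mul _ continuousAt_const
            exact continuousAt_inv₀ one_ne_zero
          have hev : (fun lam : ℝ => cl δ (lam⁻¹ * p x) * v' x) =ᶠ[𝓝 1]
              fun lam => (Real.log (p x) - Real.log lam) * v' x := by
            have h5 : (fun lam : ℝ => lam⁻¹ * p x) 1 < 1 := by simpa using h4
            have h6 : δ < (fun lam : ℝ => lam⁻¹ * p x) 1 := by simpa using h3
            filter_upwards [hcont.eventually_lt continuousAt_const h5,
              continuousAt_const.eventually_lt hcont h6,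
              eventually_gt_nhds (zero_lt_one (α := ℝ))] with lam hlam hlam2 hlam3
            unfold cl
            rw [max_eq_left hlam2.le, min_eq_left hlam.le, Real.log_mul (inv_pos.mpr hlam3).ne' hp0.ne',
              Real.log_inv]
            ring
          have hd : HasDerivAt (fun lam : ℝ => (Real.log (p x) - Real.log lam) * v' x)
              ((0 - (1 : ℝ)⁻¹) * v' x) 1 :=
            ((hasDerivAt_const _ _).sub (Real.hasDerivAt_log one_ne_zero)).mul_const _
          have e : (0 - (1 : ℝ)⁻¹) * v' x = -v' x := by ring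
          rw [e] at hd
          exact hd.congr_of_eventuallyEq hev
        · rw [Set.indicator_of_notMem (by simp only [shell, Set.mem_ofPred_eq]; intro hh; linarith [hh.2]),
            neg_zero]
          have hcont : ContinuousAt (fun lam : ℝ => lam⁻¹ * p x) 1 := by
            apply ContinuousAt.mul _ continuousAt_const
            exact continuousAt_inv₀ one_ne_zero
          have hev : (fun lam : ℝ => cl δ (lam⁻¹ * p x) * v' x) =ᶠ[𝓝 1] fun _ => 0 := by
            have h6 : 1 < (fun lam : ℝ => lam⁻¹ * p x) 1 := by simpa using h4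
            filter_upwards [continuousAt_const.eventually_lt hcont h6] with lam hlam
            rw [cl_one_le hδ1 hlam.le, zero_mul]
          exact (hasDerivAt_const _ _).congr_of_eventuallyEq hev)
  -- derivative of the right side
  obtain ⟨M, hM⟩ : ∃ M : ℝ, tsupport v ⊆ closedBall 0 M :=
    hvc.isBounded.subset_closedBall 0
  obtain ⟨Bv, hBv⟩ : ∃ B : ℝ, ∀ y, ‖fderiv ℝ v y‖ ≤ B :=
    ⟨Lv, fun y => norm_fderiv_le_of_lipschitz ℝ hLv⟩
  have hCG0 : 0 ≤ CG := (abs_nonneg _).trans (hCG 0)
  have hBv0 : 0 ≤ Bv := (norm_nonneg _).trans (hBv 0)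
  have hvsupp : ∀ y, M < ‖y‖ → v y = 0 := by
    intro y hy
    by_contra hcon
    have := hM (subset_tsupport v (Function.mem_support.mpr hcon))
    rw [mem_closedBall_zero_iff] at this
    linarith
  have hvsupp' : ∀ y, M < ‖y‖ → fderiv ℝ v y = 0 := by
    intro y hy
    by_contra hcon
    have h14 : y ∈ tsupport v := support_fderiv_subset ℝ (Function.mem_support.mpr hcon)
    have := hM h14
    rw [mem_closedBall_zero_iff] at this
    linarith
  have hballi : ∀ c : ℝ, Integrable ((closedBall (0 : EuclideanSpace ℝ (Fin n)) (2 * |M|)).indicator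
      (fun _ => c)) := fun c => by
    rw [integrable_indicator_iff measurableSet_closedBall]
    exact integrableOn_const (hs := measure_closedBall_lt_top.ne)
  have hvc' : Continuous v := hv.continuous
  have hright := hasDerivAt_integral_of_dominated_loc_of_deriv_le
    (μ := (volume : Measure (EuclideanSpace ℝ (Fin n))))
    (F := fun (lam : ℝ) y => G y * v (lam • y)) (x₀ := (1 : ℝ)) (s := ball 1 (1 / 2))
    (F' := fun (lam : ℝ) y => G y * fderiv ℝ v (lam • y) y)
    (bound := (closedBall (0 : EuclideanSpace ℝ (Fin n)) (2 * |M|)).indicator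
      (fun _ => CG * (Bv * (2 * |M|))))
    (ball_mem_nhds _ (by norm_num))
    (Eventually.of_forall fun lam => by
      have : Continuous (fun y => v (lam • y)) := by fun_prop
      exact (hGm.mul this.measurable).aestronglyMeasurable)
    (by
      obtain ⟨V, hV⟩ : ∃ V : ℝ, ∀ y, |v y| ≤ V := by
        obtain ⟨V, hV⟩ := hvc.exists_bound_of_continuous hvc'
        exact ⟨V, fun y => by rw [← Real.norm_eq_abs]; exact hV y⟩
      refine (hballi (CG * V)).mono' ?_ (ae_of_all _ fun y => ?_)
      · have : Continuous (fun y => v ((1 : ℝ) • y)) := by fun_prop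
        exact (hGm.mul this.measurable).aestronglyMeasurable
      · rw [one_smul, norm_mul, Real.norm_eq_abs, Real.norm_eq_abs]
        by_cases hy : y ∈ closedBall (0 : EuclideanSpace ℝ (Fin n)) (2 * |M|)
        · rw [Set.indicator_of_mem hy]
          exact mul_le_mul (hCG y) (hV y) (abs_nonneg _) hCG0
        · rw [Set.indicator_of_notMem hy]
          rw [mem_closedBall_zero_iff, not_le] at hy
          rw [hvsupp y (by linarith [le_abs_self M, abs_nonneg M])]
          simp)
    (by
      have h15 : Continuous (fun y => fderiv ℝ v ((1 : ℝ) • y) y) := by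
        have h16 := hv.continuous_fderiv (by simp)
        exact (h16.comp (continuous_const_smul (1 : ℝ))).clm_apply continuous_id
      exact (hGm.mul h15.measurable).aestronglyMeasurable)
    (ae_of_all _ fun y lam hlam => by
      rw [mem_ball, Real.dist_eq, abs_lt] at hlam
      rw [norm_mul, Real.norm_eq_abs]
      by_cases hy : y ∈ closedBall (0 : EuclideanSpace ℝ (Fin n)) (2 * |M|)
      · rw [Set.indicator_of_mem hy]
        rw [mem_closedBall_zero_iff] at hy
        apply mul_le_mul (hCG y) _ (norm_nonneg _) hCG0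
        refine (ContinuousLinearMap.le_opNorm _ _).trans ?_
        exact mul_le_mul (hBv _) hy (norm_nonneg _) hBv0
      · rw [Set.indicator_of_notMem hy]
        rw [mem_closedBall_zero_iff, not_le] at hy
        rw [hvsupp' (lam • y) (by
          rw [norm_smul, Real.norm_eq_abs, abs_of_pos (by linarith)]
          nlinarith [le_abs_self M, abs_nonneg M, norm_nonneg y])]
        simp)
    (hballi _)
    (ae_of_all _ fun y lam _ => by
      have h17 : HasFDerivAt v (fderiv ℝ v (lam • y)) (lam • y) :=
        (hv.differentiable (by simp)).differentiableAt.hasFDerivAt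
      have h18 : HasDerivAt (fun t : ℝ => t • y) y lam := by
        simpa using (hasDerivAt_id lam).smul_const y
      exact (h17.comp_hasDerivAt lam h18).const_mul (G y))
  obtain ⟨hI1, hD1⟩ := hleft
  obtain ⟨hI2, hD2⟩ := hright
  have hD3 : HasDerivAt (fun lam : ℝ => lam⁻¹ * (lam ^ n * ∫ y, G y * v (lam • y)))
      ((n - 1 : ℝ) * (∫ y, G y * v y) + ∫ y, G y * fderiv ℝ v y y) 1 := by
    have h19 : HasDerivAt (fun lam : ℝ => lam⁻¹) (-1) 1 := by
      simpa using hasDerivAt_inv (one_ne_zero (α := ℝ))
    have h20 : HasDerivAt (fun lam : ℝ => lam ^ n) (n : ℝ) 1 := by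
      simpa using hasDerivAt_pow n (1 : ℝ)
    have h21 : HasDerivAt (fun lam : ℝ => lam⁻¹ * (lam ^ n * ∫ y, G y * v (lam • y))) _ 1 :=
      h19.mul (h20.mul hD2)
    refine h21.congr_deriv ?_
    simp only [one_smul, one_pow, inv_one]
    ring
  have heq : (fun lam : ℝ => ∫ x, cl δ (lam⁻¹ * p x) * v' x) =ᶠ[𝓝 1]
      fun lam : ℝ => lam⁻¹ * (lam ^ n * ∫ y, G y * v (lam • y)) := by
    filter_upwards [eventually_gt_nhds (zero_lt_one (α := ℝ))] with lam hlam
    rw [← hibp lam hlam]
    congr 1
    funext x
    rw [hgs lam hlam]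
  have hfin := hD1.unique (hD3.congr_of_eventuallyEq heq)
  rw [integral_neg, integral_indicator hAm] at hfin
  have hGae : ∀ᵐ y ∂(volume : Measure (EuclideanSpace ℝ (Fin n))),
      G y = - (shell p δ).indicator (fun x => fderiv ℝ p x w / p x) y := by
    filter_upwards [hne, hne1, h.ae_diff] with y hy hy1 hyd
    show lineDeriv ℝ g y (-w) = _
    rw [hg, h.lineDeriv_cl hδ hδ1 hyd hy hy1]
    by_cases hys : y ∈ shell p δ
    · rw [Set.indicator_of_mem hys, Set.indicator_of_mem hys, map_neg]
      ring
    · rw [Set.indicator_of_notMem hys, Set.indicator_of_notMem hys, neg_zero]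
  have hJ : ∀ f : EuclideanSpace ℝ (Fin n) → ℝ, ∫ y, G y * f y =
      - ∫ y in shell p δ, (fderiv ℝ p y w / p y) * f y := by
    intro f
    rw [← integral_indicator hAm, ← integral_neg]
    apply integral_congr_ae
    filter_upwards [hGae] with y hy
    rw [hy]
    by_cases hys : y ∈ shell p δ
    · rw [Set.indicator_of_mem hys, Set.indicator_of_mem hys]
      ring
    · rw [Set.indicator_of_notMem hys, Set.indicator_of_notMem hys]
      ring
  have hJint : ∀ f : EuclideanSpace ℝ (Fin n) → ℝ, Integrable (fun y => G y * f y) →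
      IntegrableOn (fun y => (fderiv ℝ p y w / p y) * f y) (shell p δ) := by
    intro f hf
    rw [← integrable_indicator_iff hAm]
    refine hf.neg.congr ?_
    filter_upwards [hGae] with y hy
    rw [Pi.neg_apply, hy]
    by_cases hys : y ∈ shell p δ
    · rw [Set.indicator_of_mem hys, Set.indicator_of_mem hys]
      ring
    · rw [Set.indicator_of_notMem hys, Set.indicator_of_notMem hys]
      ring
  rw [hJ, hJ] at hfin
  have hI3 : Integrable (fun y => G y * v y) := by
    obtain ⟨V, hV⟩ : ∃ V : ℝ, ∀ y, |v y| ≤ V := by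
      obtain ⟨V, hV⟩ := hvc.exists_bound_of_continuous hvc'
      exact ⟨V, fun y => by rw [← Real.norm_eq_abs]; exact hV y⟩
    refine ((hvc'.integrable_of_hasCompactSupport hvc).const_mul CG).norm.mono'
      (hGm.mul hvc'.measurable).aestronglyMeasurable (ae_of_all _ fun y => ?_)
    rw [norm_mul, norm_mul, Real.norm_eq_abs, Real.norm_eq_abs, Real.norm_eq_abs, abs_of_nonneg hCG0]
    exact mul_le_mul_of_nonneg_right (hCG y) (abs_nonneg _)
  simp only [one_smul] at hI2
  have e : ∫ x in shell p δ, (fderiv ℝ p x w / p x) * ((n - 1 : ℝ) * v x + fderiv ℝ v x x) =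
      (n - 1 : ℝ) * (∫ x in shell p δ, (fderiv ℝ p x w / p x) * v x) +
        ∫ x in shell p δ, (fderiv ℝ p x w / p x) * fderiv ℝ v x x := by
    rw [← integral_const_mul, ← integral_add ((hJint _ hI3).const_mul _) (hJint _ hI2)]
    congr 1
    funext x
    ring
  rw [e]
  linarith

/-- the identity -/
theorem SG.ident (h : SG p r) {δ : ℝ} (hδ : 0 < δ) (hδ1 : δ < 1)
    {v : EuclideanSpace ℝ (Fin n) → ℝ} (hv : ContDiff ℝ 1 v)
    (w : EuclideanSpace ℝ (Fin n)) :
    ∫ x in shell p δ, fderiv ℝ v x w =
      ∫ x in shell p δ, (fderiv ℝ p x w / p x) * ((n - 1 : ℝ) * v x + fderiv ℝ v x x) := by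
  have hAm : MeasurableSet (shell p δ) := (shell_open h δ).measurableSet
  have hr := h.rpos
  set M : ℝ := n * r + 1 with hM
  have hM0 : 0 < M := by positivity
  let χ : ContDiffBump (0 : EuclideanSpace ℝ (Fin n)) := ⟨M, M + 1, hM0, by linarith⟩
  set V : EuclideanSpace ℝ (Fin n) → ℝ := fun x => χ x * v x with hV
  have hVc : ContDiff ℝ 1 V := (χ.contDiff (n := 1)).mul hv
  have hVs : HasCompactSupport V := χ.hasCompactSupport.mul_right
  have hball : ∀ x ∈ shell p δ, x ∈ ball (0 : EuclideanSpace ℝ (Fin n)) M := by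
    intro x hx
    rw [mem_ball_zero_iff]
    have h1 := h.norm_le x
    have h2 : n * r * p x ≤ n * r * 1 := mul_le_mul_of_nonneg_left hx.2.le (by positivity)
    linarith
  have heq : ∀ x ∈ shell p δ, V =ᶠ[𝓝 x] v := by
    intro x hx
    filter_upwards [isOpen_ball.mem_nhds (hball x hx)] with y hy
    have : χ y = 1 := χ.one_of_mem_closedBall (ball_subset_closedBall hy)
    simp [hV, this]
  have h1 := h.ident_cpt hδ hδ1 hVc hVs w
  have e1 : ∫ x in shell p δ, fderiv ℝ V x w = ∫ x in shell p δ, fderiv ℝ v x w := by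
    apply setIntegral_congr_fun hAm
    intro x hx
    show fderiv ℝ V x w = fderiv ℝ v x w
    rw [(heq x hx).fderiv_eq]
  have e2 : ∫ x in shell p δ, (fderiv ℝ p x w / p x) * ((n - 1 : ℝ) * V x + fderiv ℝ V x x) =
      ∫ x in shell p δ, (fderiv ℝ p x w / p x) * ((n - 1 : ℝ) * v x + fderiv ℝ v x x) := by
    apply setIntegral_congr_fun hAm
    intro x hx
    show (fderiv ℝ p x w / p x) * ((n - 1 : ℝ) * V x + fderiv ℝ V x x) =
        (fderiv ℝ p x w / p x) * ((n - 1 : ℝ) * v x + fderiv ℝ v x x)
    rw [(heq x hx).fderiv_eq, (heq x hx).eq_of_nhds]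
  rw [← e1, ← e2]
  exact h1

end Pool.Agent.Lib.MP_6d896a_gt
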