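import Mathlib
import Pool.Agent.Lib.MP_6d896a_gt.Sym2

/-!
Consequences of the identity: the drift inequalities on the shells of a symmetric norm.
-/

namespace Pool.Agent.Lib.MP_6d896a_gt

open MeasureTheory Filter Topology Metric
open scoped ENNReal NNReal

variable {n : ℕ} {p : EuclideanSpace ℝ (Fin n) → ℝ} {r : ℝ}

/-- smooth sign -/
noncomputable def th1 (η t : ℝ) : ℝ := t / Real.sqrt (t ^ 2 + η ^ 2)

/-- its derivative -/
noncomputable def th1' (η t : ℝ) : ℝ := η ^ 2 / ((t ^ 2 + η ^ 2) * Real.sqrt (t ^ 2 + η ^ 2))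

lemma th1_hasDerivAt {η : ℝ} (hη : 0 < η) (t : ℝ) : HasDerivAt (th1 η) (th1' η t) t := by
  have hq : 0 < t ^ 2 + η ^ 2 := by positivity
  have hs : 0 < Real.sqrt (t ^ 2 + η ^ 2) := Real.sqrt_pos.mpr hq
  have h1 : HasDerivAt (fun t : ℝ => t ^ 2 + η ^ 2) (2 * t) t := by
    simpa using (hasDerivAt_pow 2 t).add_const (η ^ 2)
  have h2 := h1.sqrt hq.ne'
  have h3 := (hasDerivAt_id t).div h2 hs.ne'
  unfold th1
  refine h3.congr_deriv ?_
  unfold th1'
  simp only [id]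
  have hsq : Real.sqrt (t ^ 2 + η ^ 2) ^ 2 = t ^ 2 + η ^ 2 := Real.sq_sqrt hq.le
  have hss : Real.sqrt (t ^ 2 + η ^ 2) ≠ 0 := hs.ne'
  rw [div_eq_div_iff (by positivity) (by positivity)]
  field_simp
  rw [hsq]
  ring

lemma th1'_nonneg (η t : ℝ) : 0 ≤ th1' η t := by unfold th1'; positivity

lemma th1_abs_le (η t : ℝ) : |th1 η t| ≤ 1 := by
  unfold th1
  rw [abs_div, abs_of_nonneg (Real.sqrt_nonneg _)]
  apply div_le_one_of_le₀ _ (Real.sqrt_nonneg _)
  rw [← Real.sqrt_sq_eq_abs]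
  exact Real.sqrt_le_sqrt (by nlinarith [sq_nonneg η])

lemma th1_sign (η : ℝ) (t : ℝ) : th1 η t * t = |th1 η t| * |t| := by
  rw [← abs_mul, abs_of_nonneg]
  unfold th1
  have : t / Real.sqrt (t ^ 2 + η ^ 2) * t = t ^ 2 / Real.sqrt (t ^ 2 + η ^ 2) := by ring
  rw [this]
  positivity

lemma th1_half {η t : ℝ} (hη : 0 < η) (h : η ≤ |t|) : 1 / 2 ≤ |th1 η t| := by
  unfold th1
  rw [abs_div, abs_of_nonneg (Real.sqrt_nonneg _)]
  have hq : 0 < t ^ 2 + η ^ 2 := by positivity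
  rw [div_le_div_iff₀ (by norm_num) (Real.sqrt_pos.mpr hq), one_mul]
  apply Real.sqrt_le_iff.mpr
  have := abs_nonneg t
  constructor
  · linarith
  · nlinarith [sq_abs t]

/-- the error term -/
lemma th1'_err {η t : ℝ} (hη : 0 < η) : t ^ 2 * th1' η t ≤ η := by
  unfold th1'
  have hq : 0 < t ^ 2 + η ^ 2 := by positivity
  have hs : 0 < Real.sqrt (t ^ 2 + η ^ 2) := Real.sqrt_pos.mpr hq
  have h1 : η ≤ Real.sqrt (t ^ 2 + η ^ 2) := by
    apply Real.le_sqrt_of_sq_le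
    nlinarith [sq_nonneg t]
  rw [mul_div_assoc', div_le_iff₀ (by positivity)]
  have h2 : t ^ 2 * η ^ 2 ≤ (t ^ 2 + η ^ 2) * (η * η) := by nlinarith [sq_nonneg (η ^ 2)]
  calc t ^ 2 * η ^ 2 ≤ (t ^ 2 + η ^ 2) * (η * η) := h2
    _ ≤ (t ^ 2 + η ^ 2) * (η * Real.sqrt (t ^ 2 + η ^ 2)) := by gcongr
    _ = _ := by ring

lemma th1'_continuous {η : ℝ} (hη : 0 < η) : Continuous (th1' η) := by
  unfold th1'
  apply Continuous.div continuous_const
  · fun_prop
  · intro t
    have hq : 0 < t ^ 2 + η ^ 2 := by positivity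
    positivity

/-- truncated identity -/
noncomputable def th3 (ρ t : ℝ) : ℝ := t ^ 3 / (t ^ 2 + ρ ^ 2)

/-- its derivative -/
noncomputable def th3' (ρ t : ℝ) : ℝ := (t ^ 4 + 3 * ρ ^ 2 * t ^ 2) / (t ^ 2 + ρ ^ 2) ^ 2

lemma th3_hasDerivAt {ρ : ℝ} (hρ : 0 < ρ) (t : ℝ) : HasDerivAt (th3 ρ) (th3' ρ t) t := by
  have hq : 0 < t ^ 2 + ρ ^ 2 := by positivity
  have h1 : HasDerivAt (fun t : ℝ => t ^ 2 + ρ ^ 2) (2 * t) t := by
    simpa using (hasDerivAt_pow 2 t).add_const (ρ ^ 2)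
  have h3 := (hasDerivAt_pow 3 t).div h1 hq.ne'
  unfold th3
  refine h3.congr_deriv ?_
  unfold th3'
  congr 1
  push_cast
  ring

lemma th3'_nonneg (ρ t : ℝ) : 0 ≤ th3' ρ t := by unfold th3'; positivity

lemma th3'_continuous {ρ : ℝ} (hρ : 0 < ρ) : Continuous (th3' ρ) := by
  unfold th3'
  apply Continuous.div (by fun_prop) (by fun_prop)
  intro t
  positivity

lemma th3_abs (ρ t : ℝ) : |th3 ρ t| = |t| * (t ^ 2 / (t ^ 2 + ρ ^ 2)) := by
  unfold th3
  have hq : 0 ≤ t ^ 2 + ρ ^ 2 := by positivity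
  rw [abs_div, abs_of_nonneg hq]
  have : |t ^ 3| = |t| * t ^ 2 := by rw [pow_succ, abs_mul, abs_pow, sq_abs]; ring
  rw [this]
  ring

lemma th3_abs_le (ρ t : ℝ) : |th3 ρ t| ≤ |t| := by
  rw [th3_abs]
  apply mul_le_of_le_one_right (abs_nonneg _)
  apply div_le_one_of_le₀
  · nlinarith [sq_nonneg ρ]
  · positivity

lemma th3_half {ρ t : ℝ} (hρ : 0 < ρ) (h : ρ ≤ |t|) : |t| / 2 ≤ |th3 ρ t| := by
  rw [th3_abs]
  have hq : 0 < t ^ 2 + ρ ^ 2 := by positivity
  have h1 : 1 / 2 ≤ t ^ 2 / (t ^ 2 + ρ ^ 2) := by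
    rw [div_le_div_iff₀ (by norm_num) hq]
    have : ρ ^ 2 ≤ t ^ 2 := by
      rw [← sq_abs t]
      exact pow_le_pow_left₀ hρ.le h 2
    linarith
  have := mul_le_mul_of_nonneg_left h1 (abs_nonneg t)
  linarith

lemma th3_sign (ρ t : ℝ) : th3 ρ t * t = |th3 ρ t| * |t| := by
  rw [← abs_mul, abs_of_nonneg]
  unfold th3
  have : t ^ 3 / (t ^ 2 + ρ ^ 2) * t = t ^ 4 / (t ^ 2 + ρ ^ 2) := by ring
  rw [this]
  positivity

lemma th3'_le {ρ t : ℝ} (hρ : 0 < ρ) : th3' ρ t ≤ 2 * |t| / ρ := by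
  unfold th3'
  have hq : 0 < t ^ 2 + ρ ^ 2 := by positivity
  rw [div_le_div_iff₀ (by positivity) hρ]
  have ht : t ^ 2 = |t| ^ 2 := (sq_abs t).symm
  have ht4 : t ^ 4 = |t| ^ 4 := by rw [← abs_pow, abs_of_nonneg (by positivity)]
  rw [ht, ht4]
  set a := |t| with ha
  have ha0 : 0 ≤ a := abs_nonneg t
  -- a^4 ρ + 3 ρ^3 a^2 ≤ 2 a (a^2+ρ^2)^2 = 2a^5+4a^3ρ^2+2aρ^4
  have h1 : 0 ≤ a * ((a - ρ) ^ 2 * (a ^ 2 + ρ ^ 2)) := by positivity
  have h2 : 0 ≤ a * (a * ρ) * (a - ρ / 2) ^ 2 := by positivity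
  nlinarith [mul_nonneg ha0 (sq_nonneg (a ^ 2 - ρ ^ 2)), mul_nonneg ha0 (sq_nonneg (a ^ 2 - ρ * a)),
    mul_nonneg ha0 (sq_nonneg (ρ ^ 2 - ρ * a)), mul_nonneg ha0 (sq_nonneg (a ^ 2 + ρ ^ 2 - ρ * a)),
    mul_nonneg (mul_nonneg ha0 ha0) hρ.le]

/-- signed weights -/
noncomputable def bt (p : EuclideanSpace ℝ (Fin n) → ℝ) (x : EuclideanSpace ℝ (Fin n)) (j : Fin n) :
    ℝ := fderiv ℝ p x (ej j) / p x

lemma SG.bt_abs (h : SG p r) (x : EuclideanSpace ℝ (Fin n)) (j : Fin n) : |bt p x j| = wt p x j := by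
  unfold bt wt
  rw [abs_div, abs_of_nonneg (h.nonneg x)]

lemma SG.bt_sign (h : SG p r) {x : EuclideanSpace ℝ (Fin n)} (hx : DifferentiableAt ℝ p x)
    (j : Fin n) : x j * bt p x j = |x j| * wt p x j := by
  unfold bt wt
  rw [mul_div_assoc', mul_div_assoc', h.sign_abs hx j]

/-- sign rule -/
lemma SG.bt_th (h : SG p r) {x : EuclideanSpace ℝ (Fin n)} (hx : DifferentiableAt ℝ p x)
    (j : Fin n) {θ : ℝ → ℝ} (hθ : ∀ t, θ t * t = |θ t| * |t|) (hθ0 : θ 0 = 0) :
    θ (x j) * bt p x j = |θ (x j)| * wt p x j := by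
  rcases eq_or_ne (x j) 0 with h0 | h0
  · rw [h0, hθ0]; simp
  · rw [← h.bt_abs x j, ← abs_mul]
    symm
    rw [abs_eq_self]
    have h1 := hθ (x j)
    have h2 := h.sign hx j
    have h3 : 0 ≤ θ (x j) * x j := by rw [h1]; positivity
    have h4 : 0 ≤ x j * bt p x j := by
      rw [h.bt_sign hx j]
      exact mul_nonneg (abs_nonneg _) (wt_nonneg h x j)
    have h5 : 0 ≤ (θ (x j) * bt p x j) * (x j) ^ 2 := by
      have : (θ (x j) * bt p x j) * (x j) ^ 2 = (θ (x j) * x j) * (x j * bt p x j) := by ring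
      rw [this]
      exact mul_nonneg h3 h4
    have h6 : 0 < (x j) ^ 2 := by positivity
    exact nonneg_of_mul_nonneg_left h5 h6

lemma coord_contDiff (j : Fin n) {m : WithTop ℕ∞} :
    ContDiff ℝ m (fun x : EuclideanSpace ℝ (Fin n) => x j) := by
  fun_prop

/-- class of test functions -/
structure TF (u : EuclideanSpace ℝ (Fin n) → ℝ) (U L : ℝ) : Prop where
  cd : ContDiff ℝ 1 u
  bd : ∀ x, |u x| ≤ U
  gd : ∀ x, ‖fderiv ℝ u x‖ ≤ L

/-- derivative of the test field -/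
lemma fderiv_test {u : EuclideanSpace ℝ (Fin n) → ℝ} (hu : ContDiff ℝ 1 u) {θ θ' : ℝ → ℝ}
    (hθ : ∀ t, HasDerivAt θ (θ' t) t) (j : Fin n) (x w : EuclideanSpace ℝ (Fin n)) :
    fderiv ℝ (fun x => u x ^ 2 * θ (x j)) x w =
      2 * u x * fderiv ℝ u x w * θ (x j) + u x ^ 2 * (θ' (x j) * w j) := by
  have h1 : HasFDerivAt u (fderiv ℝ u x) x := (hu.differentiable (by simp)).differentiableAt.hasFDerivAt
  have h2 : HasFDerivAt (fun x : EuclideanSpace ℝ (Fin n) => x j)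
      (EuclideanSpace.proj (𝕜 := ℝ) j : EuclideanSpace ℝ (Fin n) →L[ℝ] ℝ) x :=
    (EuclideanSpace.proj (𝕜 := ℝ) j : EuclideanSpace ℝ (Fin n) →L[ℝ] ℝ).hasFDerivAt
  have h3 : HasFDerivAt (fun x : EuclideanSpace ℝ (Fin n) => θ (x j))
      (θ' (x j) • (EuclideanSpace.proj (𝕜 := ℝ) j : EuclideanSpace ℝ (Fin n) →L[ℝ] ℝ)) x :=
    (hθ (x j)).comp_hasFDerivAt x h2
  have h4 := (h1.pow 2).mul h3
  have h5 : HasFDerivAt (fun x => u x ^ 2 * θ (x j)) _ x := h4
  rw [h5.fderiv]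
  simp
  ring

lemma th_contDiff {θ θ' : ℝ → ℝ} (hθ : ∀ t, HasDerivAt θ (θ' t) t) (hθ' : Continuous θ') :
    ContDiff ℝ 1 θ := by
  rw [contDiff_one_iff_deriv]
  refine ⟨fun t => (hθ t).differentiableAt, ?_⟩
  have : deriv θ = θ' := funext fun t => (hθ t).deriv
  rw [this]
  exact hθ'

lemma bt_measurable (h : SG p r) (j : Fin n) : Measurable (fun x => bt p x j) :=
  (measurable_fderiv_apply_const ℝ p (ej j)).div h.continuous.measurable

lemma wt_measurable (h : SG p r) (j : Fin n) : Measurable (fun x => wt p x j) :=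
  (measurable_fderiv_apply_const ℝ p (ej j)).abs.div h.continuous.measurable

lemma SG.wt_bdd (h : SG p r) {δ : ℝ} (hδ : 0 < δ) :
    ∃ W : ℝ, 0 ≤ W ∧ ∀ x ∈ shell p δ, ∀ j, wt p x j ≤ W := by
  obtain ⟨L, hL⟩ := h.lip
  refine ⟨L / δ, by positivity, fun x hx j => ?_⟩
  unfold wt
  have h1 : |fderiv ℝ p x (ej j)| ≤ L := by
    have h2 := (fderiv ℝ p x).le_opNorm (ej j)
    have h3 : ‖fderiv ℝ p x‖ ≤ L := norm_fderiv_le_of_lipschitz ℝ hL
    have h4 : ‖ej j‖ = 1 := by simp [ej]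
    rw [h4, mul_one, Real.norm_eq_abs] at h2
    exact h2.trans h3
  exact div_le_div₀ L.coe_nonneg h1 hδ hx.1.le

lemma shell_finite (h : SG p r) (δ : ℝ) :
    (volume : Measure (EuclideanSpace ℝ (Fin n))) (shell p δ) < ∞ := by
  have hr := h.rpos
  refine lt_of_le_of_lt (measure_mono ?_)
    (measure_closedBall_lt_top (x := (0 : EuclideanSpace ℝ (Fin n))) (r := n * r))
  intro x hx
  rw [mem_closedBall_zero_iff]
  refine (h.norm_le x).trans ?_
  exact mul_le_of_le_one_right (by positivity) hx.2.le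

lemma shell_int (h : SG p r) {δ : ℝ} {f : EuclideanSpace ℝ (Fin n) → ℝ} (hf : Measurable f)
    {C : ℝ} (hC : ∀ x ∈ shell p δ, |f x| ≤ C) : IntegrableOn f (shell p δ) := by
  have hAm : MeasurableSet (shell p δ) := (shell_open h δ).measurableSet
  refine Measure.integrableOn_of_bounded (M := C) (shell_finite h δ).ne hf.aestronglyMeasurable ?_
  rw [ae_restrict_iff' hAm]
  exact ae_of_all _ fun x hx => by rw [Real.norm_eq_abs]; exact hC x hx

lemma SG.norm_shell (h : SG p r) {δ : ℝ} {x : EuclideanSpace ℝ (Fin n)} (hx : x ∈ shell p δ) :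
    ‖x‖ ≤ n * r := by
  have hr := h.rpos
  exact (h.norm_le x).trans (mul_le_of_le_one_right (by positivity) hx.2.le)

/-- the drift identity -/
theorem SG.drift (h : SG p r) {δ : ℝ} (hδ : 0 < δ) (hδ1 : δ < 1)
    {u : EuclideanSpace ℝ (Fin n) → ℝ} {U L : ℝ} (hu : TF u U L) {θ θ' : ℝ → ℝ}
    (hθ : ∀ t, HasDerivAt θ (θ' t) t) (hθc : Continuous θ') (hs : ∀ t, θ t * t = |θ t| * |t|)
    (hθ0 : θ 0 = 0) (j : Fin n) :
    IntegrableOn (fun x => u x ^ 2 * (|θ (x j)| * wt p x j)) (shell p δ) ∧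
    IntegrableOn (fun x => 2 * u x * (θ (x j) * fderiv ℝ u x (ej j - bt p x j • x))) (shell p δ) ∧
    IntegrableOn (fun x => u x ^ 2 * (θ' (x j) * (1 - |x j| * wt p x j))) (shell p δ) ∧
    (n - 1 : ℝ) * ∫ x in shell p δ, u x ^ 2 * (|θ (x j)| * wt p x j) =
      (∫ x in shell p δ, 2 * u x * (θ (x j) * fderiv ℝ u x (ej j - bt p x j • x))) +
      ∫ x in shell p δ, u x ^ 2 * (θ' (x j) * (1 - |x j| * wt p x j)) := by
  have hAm : MeasurableSet (shell p δ) := (shell_open h δ).measurableSet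
  obtain ⟨W, hW0, hW⟩ := h.wt_bdd hδ
  have hθcd := th_contDiff hθ hθc
  have hθC : Continuous θ := hθcd.continuous
  have huc := hu.cd.continuous
  have hum := huc.measurable
  have hU0 : 0 ≤ U := (abs_nonneg _).trans (hu.bd 0)
  have hL0 : 0 ≤ L := (norm_nonneg _).trans (hu.gd 0)
  have hcoord : Continuous (fun x : EuclideanSpace ℝ (Fin n) => x j) := by fun_prop
  have hfd : Continuous (fun x => fderiv ℝ u x) := hu.cd.continuous_fderiv (by simp)
  -- bounds of θ on the compact interval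
  obtain ⟨T, hT⟩ : ∃ T : ℝ, ∀ x ∈ shell p δ, |θ (x j)| ≤ T ∧ |θ' (x j)| ≤ T := by
    have hcmp : IsCompact (closedBall (0 : EuclideanSpace ℝ (Fin n)) (n * r)) :=
      isCompact_closedBall _ _
    obtain ⟨T1, hT1⟩ := hcmp.exists_bound_of_continuousOn (hθC.comp hcoord).continuousOn
    obtain ⟨T2, hT2⟩ := hcmp.exists_bound_of_continuousOn (hθc.comp hcoord).continuousOn
    refine ⟨max T1 T2, fun x hx => ?_⟩
    have hxb : x ∈ closedBall (0 : EuclideanSpace ℝ (Fin n)) (n * r) := by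
      rw [mem_closedBall_zero_iff]; exact h.norm_shell hx
    exact ⟨(hT1 x hxb).trans (le_max_left _ _), (hT2 x hxb).trans (le_max_right _ _)⟩
  have hr := h.rpos
  set N : ℝ := n * r with hN
  have hN0 : 0 ≤ N := by positivity
  have hT0 : ∀ x ∈ shell p δ, 0 ≤ T := fun x hx => (abs_nonneg _).trans (hT x hx).1
  have hu2 : ∀ x, |u x ^ 2| ≤ U ^ 2 := fun x => by
    rw [abs_pow]; exact pow_le_pow_left₀ (abs_nonneg _) (hu.bd x) 2
  have hbtm := bt_measurable h j
  have hwtm := wt_measurable h j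
  have m1 : Measurable (fun x => u x ^ 2 * (|θ (x j)| * wt p x j)) :=
    (hum.pow_const 2).mul (((hθC.comp hcoord).measurable.abs).mul hwtm)
  have i1 : IntegrableOn (fun x => u x ^ 2 * (|θ (x j)| * wt p x j)) (shell p δ) := by
    apply shell_int h m1 (C := U ^ 2 * (T * W))
    intro x hx
    rw [abs_mul, abs_mul, abs_abs, abs_of_nonneg (wt_nonneg h x j)]
    exact mul_le_mul (hu2 x) (mul_le_mul (hT x hx).1 (hW x hx j) (wt_nonneg h x j) (hT0 x hx))
      (mul_nonneg (abs_nonneg _) (wt_nonneg h x j)) (by positivity)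
  have m2 : Measurable (fun x => 2 * u x * (θ (x j) * fderiv ℝ u x (ej j - bt p x j • x))) := by
    apply (hum.const_mul 2).mul
    apply ((hθC.comp hcoord).measurable).mul
    have e : (fun x => fderiv ℝ u x (ej j - bt p x j • x)) =
        fun x => fderiv ℝ u x (ej j) - bt p x j * fderiv ℝ u x x := by
      funext x
      rw [map_sub, map_smul, smul_eq_mul]
    rw [e]
    exact ((hfd.clm_apply continuous_const).measurable).sub
      (hbtm.mul (hfd.clm_apply continuous_id).measurable)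
  have hfdn : ∀ x ∈ shell p δ, |fderiv ℝ u x (ej j - bt p x j • x)| ≤ L * (1 + W * N) := by
    intro x hx
    have h1 := (fderiv ℝ u x).le_opNorm (ej j - bt p x j • x)
    rw [Real.norm_eq_abs] at h1
    refine h1.trans ?_
    apply mul_le_mul (hu.gd x) _ (norm_nonneg _) hL0
    refine (norm_sub_le _ _).trans ?_
    have h4 : ‖ej j‖ = 1 := by simp [ej]
    rw [h4, norm_smul, Real.norm_eq_abs, h.bt_abs]
    have := mul_le_mul (hW x hx j) (h.norm_shell hx) (norm_nonneg _) hW0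
    linarith
  have i2 : IntegrableOn (fun x => 2 * u x * (θ (x j) * fderiv ℝ u x (ej j - bt p x j • x)))
      (shell p δ) := by
    apply shell_int h m2 (C := 2 * U * (T * (L * (1 + W * N))))
    intro x hx
    rw [abs_mul, abs_mul, abs_mul, abs_of_pos (by norm_num : (0 : ℝ) < 2)]
    have hTx := hT0 x hx
    apply mul_le_mul _ _ (by positivity) (by positivity)
    · exact mul_le_mul_of_nonneg_left (hu.bd x) (by norm_num)
    · exact mul_le_mul (hT x hx).1 (hfdn x hx) (abs_nonneg _) hTx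
  have m3 : Measurable (fun x => u x ^ 2 * (θ' (x j) * (1 - |x j| * wt p x j))) :=
    (hum.pow_const 2).mul (((hθc.comp hcoord).measurable).mul
      (measurable_const.sub (hcoord.measurable.abs.mul hwtm)))
  have i3 : IntegrableOn (fun x => u x ^ 2 * (θ' (x j) * (1 - |x j| * wt p x j))) (shell p δ) := by
    apply shell_int h m3 (C := U ^ 2 * (T * (1 + N * W)))
    intro x hx
    rw [abs_mul, abs_mul]
    have hTx := hT0 x hx
    apply mul_le_mul (hu2 x) _ (by positivity) (by positivity)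
    apply mul_le_mul (hT x hx).2 _ (abs_nonneg _) hTx
    have h1 : |x j| ≤ N := (h.coord_le x j).trans (mul_le_of_le_one_right hN0 hx.2.le)
    have h2 : |x j| * wt p x j ≤ N * W :=
      mul_le_mul h1 (hW x hx j) (wt_nonneg h x j) hN0
    have h3 : 0 ≤ |x j| * wt p x j := mul_nonneg (abs_nonneg _) (wt_nonneg h x j)
    rw [_root_.abs_le]
    constructor <;> nlinarith [mul_nonneg hN0 hW0]
  refine ⟨i1, i2, i3, ?_⟩
  have hv : ContDiff ℝ 1 (fun x => u x ^ 2 * θ (x j)) :=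
    (hu.cd.pow 2).mul (hθcd.comp (coord_contDiff j))
  have hid := h.ident hδ hδ1 hv (ej j)
  simp only [fderiv_test hu.cd hθ j] at hid
  -- almost every point
  have hae : ∀ᵐ x ∂(volume : Measure (EuclideanSpace ℝ (Fin n))), x ∈ shell p δ →
      DifferentiableAt ℝ p x := by
    filter_upwards [h.ae_diff] with x hx _ using hx
  have e1 : (∫ x in shell p δ, (fderiv ℝ p x (ej j) / p x) * ((n - 1 : ℝ) * (u x ^ 2 * θ (x j)) +
        (2 * u x * fderiv ℝ u x x * θ (x j) + u x ^ 2 * (θ' (x j) * x j)))) -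
      (∫ x in shell p δ, (2 * u x * fderiv ℝ u x (ej j) * θ (x j) +
        u x ^ 2 * (θ' (x j) * (ej j) j))) =
      (n - 1 : ℝ) * (∫ x in shell p δ, u x ^ 2 * (|θ (x j)| * wt p x j)) -
      (∫ x in shell p δ, 2 * u x * (θ (x j) * fderiv ℝ u x (ej j - bt p x j • x))) -
      ∫ x in shell p δ, u x ^ 2 * (θ' (x j) * (1 - |x j| * wt p x j)) := by
    have c1 : IntegrableOn (fun x => 2 * u x * fderiv ℝ u x (ej j) * θ (x j) +
        u x ^ 2 * (θ' (x j) * (ej j) j)) (shell p δ) := by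
      refine shell_int h (C := 2 * U * L * T + U ^ 2 * T) (hf := ?_) (hC := ?_)
      · apply Measurable.add
        · exact (((hum.const_mul 2).mul (hfd.clm_apply continuous_const).measurable).mul
            (hθC.comp hcoord).measurable)
        · exact (hum.pow_const 2).mul ((hθc.comp hcoord).measurable.mul measurable_const)
      · intro x hx
        have hTx := hT0 x hx
        refine (abs_add_le _ _).trans ?_
        have h4 : ‖ej j‖ = 1 := by simp [ej]
        have h5 : |fderiv ℝ u x (ej j)| ≤ L := by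
          have h1 := (fderiv ℝ u x).le_opNorm (ej j)
          rw [h4, mul_one, Real.norm_eq_abs] at h1
          exact h1.trans (hu.gd x)
        have h6 : (ej j) j = 1 := by simp [ej]
        rw [h6, mul_one, abs_mul, abs_mul, abs_mul, abs_mul, abs_of_pos (by norm_num : (0 : ℝ) < 2)]
        apply add_le_add
        · apply mul_le_mul _ (hT x hx).1 (abs_nonneg _) (by positivity)
          apply mul_le_mul _ h5 (abs_nonneg _) (by positivity)
          exact mul_le_mul_of_nonneg_left (hu.bd x) (by norm_num)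
        · exact mul_le_mul (hu2 x) (hT x hx).2 (abs_nonneg _) (by positivity)
    have c2 : (∫ x in shell p δ, (fderiv ℝ p x (ej j) / p x) * ((n - 1 : ℝ) * (u x ^ 2 * θ (x j)) +
        (2 * u x * fderiv ℝ u x x * θ (x j) + u x ^ 2 * (θ' (x j) * x j)))) =
        ∫ x in shell p δ, ((n - 1 : ℝ) * (u x ^ 2 * (|θ (x j)| * wt p x j)) -
          2 * u x * (θ (x j) * fderiv ℝ u x (ej j - bt p x j • x)) -
          u x ^ 2 * (θ' (x j) * (1 - |x j| * wt p x j)) +
          (2 * u x * fderiv ℝ u x (ej j) * θ (x j) + u x ^ 2 * (θ' (x j) * (ej j) j))) := by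
      apply setIntegral_congr_ae hAm
      filter_upwards [hae] with x hx hxs
      have hxd := hx hxs
      have b1 := h.bt_th hxd j hs hθ0
      have b2 := h.bt_sign hxd j
      have h6 : (ej j) j = 1 := by simp [ej]
      have e3 : fderiv ℝ p x (ej j) / p x = bt p x j := rfl
      rw [e3, ← b1, ← b2, h6, map_sub, map_smul, smul_eq_mul]
      ring
    have k1 : IntegrableOn (fun x => (n - 1 : ℝ) * (u x ^ 2 * (|θ (x j)| * wt p x j)))
        (shell p δ) := i1.const_mul _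
    have k2 : IntegrableOn (fun x => (n - 1 : ℝ) * (u x ^ 2 * (|θ (x j)| * wt p x j)) -
        2 * u x * (θ (x j) * fderiv ℝ u x (ej j - bt p x j • x))) (shell p δ) := k1.sub i2
    have k3 : IntegrableOn (fun x => (n - 1 : ℝ) * (u x ^ 2 * (|θ (x j)| * wt p x j)) -
        2 * u x * (θ (x j) * fderiv ℝ u x (ej j - bt p x j • x)) -
        u x ^ 2 * (θ' (x j) * (1 - |x j| * wt p x j))) (shell p δ) := k2.sub i3
    rw [c2, integral_add k3 c1, integral_sub k2 i3, integral_sub k1 i2, integral_const_mul]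
    ring
  linarith

end Pool.Agent.Lib.MP_6d896a_gt
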