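import Mathlib
import Pool.Agent.Lib.MP_6d896a_gt.Sym3

/-!
Exchangeable potentials: the pointwise covering inequality for monotone forces.
-/

namespace Pool.Agent.Lib.MP_6d896a_gt.EX

open Finset

variable {ι : Type} [Fintype ι]

lemma th3_mul_nonneg {ρ t D : ℝ} (h : 0 ≤ t * D) : 0 ≤ th3 ρ t * D := by
  unfold th3
  have e : t ^ 3 / (t ^ 2 + ρ ^ 2) * D = (t * D) * (t ^ 2 / (t ^ 2 + ρ ^ 2)) := by ring
  rw [e]
  positivity

lemma th1_mul_nonneg {ρ t D : ℝ} (h : 0 ≤ t * D) : 0 ≤ th1 ρ t * D := by
  unfold th1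
  have e : t / Real.sqrt (t ^ 2 + ρ ^ 2) * D = (t * D) / Real.sqrt (t ^ 2 + ρ ^ 2) := by ring
  rw [e]
  positivity

/-- lower bound of the far pairs -/
lemma th3_low {ρ t D : ℝ} (hρ : 0 < ρ) (ht : ρ ≤ t) (hD : 0 ≤ D) : t / 2 * D ≤ th3 ρ t * D := by
  have h1 := th3_half hρ (ht.trans (le_abs_self t))
  have ht0 : 0 < t := hρ.trans_le ht
  have h2 : 0 ≤ th3 ρ t := by
    have := th3_mul_nonneg (ρ := ρ) (t := t) (D := 1) (by linarith)
    linarith
  rw [abs_of_pos ht0, abs_of_nonneg h2] at h1
  exact mul_le_mul_of_nonneg_right h1 hD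

lemma th1_low {η t D : ℝ} (hη : 0 < η) (ht : η ≤ t) (hD : 0 ≤ D) : 1 / 2 * D ≤ th1 η t * D := by
  have h1 := th1_half hη (ht.trans (le_abs_self t))
  have ht0 : 0 < t := hη.trans_le ht
  have h2 : 0 ≤ th1 η t := by
    have := th1_mul_nonneg (ρ := η) (t := t) (D := 1) (by linarith)
    linarith
  rw [abs_of_nonneg h2] at h1
  exact mul_le_mul_of_nonneg_right h1 hD

lemma card_mul_le {s : Finset ι} {f : ι → ℝ} {c K : ℝ} (hf : ∀ i, 0 ≤ f i)
    (hc : ∀ i ∈ s, c ≤ f i) (hK : ∑ i, f i ≤ K) : (s.card : ℝ) * c ≤ K := by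
  calc (s.card : ℝ) * c = ∑ _i ∈ s, c := by simp
    _ ≤ ∑ i ∈ s, f i := Finset.sum_le_sum hc
    _ ≤ ∑ i, f i := Finset.sum_le_univ_sum_of_nonneg hf
    _ ≤ K := hK

/-- cover inequality, positive side -/
theorem cover_pos {x g : ι → ℝ} (hm : ∀ i j, x i ≤ x j → g i ≤ g j) {m Q ρ R : ℝ}
    (hQ : 0 < Q) (hρ : 0 < ρ) (hR1 : 16 * Q ≤ R) (hR2 : 4 * ρ ≤ R) (hR3 : 43 * ρ * Q ≤ R ^ 2)
    (hs : ∑ i, |x i - m| ≤ (Fintype.card ι : ℝ) * Q) (a : ι) (ha : R ≤ x a - m) :
    ∑ i, ∑ j, (x i - x j) * (g i - g j) ≤
      3 * ∑ i, ∑ j, th3 ρ (x i - x j) * (g i - g j) +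
      8 * ρ * (Fintype.card ι : ℝ) * ∑ j, th1 (R / 4) (x a - x j) * (g a - g j) := by
  classical
  have hR : 0 < R := by linarith
  have hn : (0 : ℝ) < (Fintype.card ι : ℝ) := by exact_mod_cast Fintype.card_pos_iff.mpr ⟨a⟩
  set n : ℝ := (Fintype.card ι : ℝ) with hnn
  have hmn : ∀ i j, 0 ≤ (x i - x j) * (g i - g j) := by
    intro i j
    rcases le_total (x i) (x j) with h | h
    · exact mul_nonneg_of_nonpos_of_nonpos (by linarith) (by linarith [hm i j h])
    · exact mul_nonneg (by linarith) (by linarith [hm j i h])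
  set B : Finset ι := univ.filter (fun k => |x k - m| ≤ 4 * Q) with hB
  set T : Finset ι := univ.filter (fun k => R / 2 ≤ x k - m) with hT
  have hBc : (n - B.card) * (4 * Q) ≤ n * Q := by
    have h1 := card_mul_le (s := Bᶜ) (f := fun i => |x i - m|) (c := 4 * Q) (K := n * Q)
      (fun i => abs_nonneg _) (fun i hi => by
        rw [hB, mem_compl, mem_filter] at hi
        push Not at hi
        exact (hi (mem_univ i)).le) hs
    rw [card_compl] at h1
    rw [Nat.cast_sub (card_le_univ B)] at h1
    exact h1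
  have hBn : 3 / 4 * n ≤ B.card := by
    have : (n - B.card) * 4 ≤ n := by
      have h2 : (n - B.card) * 4 * Q ≤ n * Q := by linarith
      exact le_of_mul_le_mul_right h2 hQ
    linarith
  have hB0 : (0 : ℝ) < B.card := by linarith
  have hTn : (T.card : ℝ) * (R / 2) ≤ n * Q := by
    apply card_mul_le (f := fun i => |x i - m|) (fun i => abs_nonneg _) _ hs
    intro i hi
    rw [hT, mem_filter] at hi
    exact hi.2.trans (le_abs_self _)
  have hT0 : (0 : ℝ) ≤ T.card := Nat.cast_nonneg _
  have hTk : ∀ i ∈ T, ∀ k ∈ B, R / 4 ≤ x i - x k ∧ 0 ≤ g i - g k := by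
    intro i hi k hk
    rw [hT, mem_filter] at hi
    rw [hB, mem_filter] at hk
    have h1 := (abs_le.mp hk.2).2
    have h2 : R / 4 ≤ x i - x k := by linarith [hi.2]
    exact ⟨h2, by linarith [hm k i (by linarith)]⟩
  have haT : a ∈ T := by
    rw [hT, mem_filter]
    exact ⟨mem_univ a, by linarith⟩
  set Df : ι → ℝ := fun i => (∑ k ∈ B, (g i - g k)) / B.card with hDf
  have hD0 : ∀ i ∈ T, 0 ≤ Df i := by
    intro i hi
    apply div_nonneg _ hB0.le
    exact sum_nonneg fun k hk => (hTk i hi k hk).2
  -- comparison with the average over the bulk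
  have hDge : ∀ c i, (∀ k ∈ B, c ≤ g i - g k) → c ≤ Df i := by
    intro c i h
    rw [hDf, le_div_iff₀ hB0]
    calc c * (B.card : ℝ) = ∑ _k ∈ B, c := by simp [mul_comm]
      _ ≤ _ := sum_le_sum h
  set p : ι → ℝ := fun i => if x i ≤ x a then g a - g i else 0 with hp
  have hp0 : ∀ i, 0 ≤ p i := by
    intro i
    rw [hp]
    simp only []
    split_ifs with h
    · linarith [hm i a h]
    · exact le_rfl
  set dT : ι → ℝ := fun i => if i ∈ T then Df i else 0 with hdT
  set iT : ι → ℝ := fun i => if i ∈ T then 1 else 0 with hiT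
  have hdT0 : ∀ i, 0 ≤ dT i := by
    intro i
    rw [hdT]
    simp only []
    split_ifs with h
    · exact hD0 i h
    · exact le_rfl
  have hiT0 : ∀ i, 0 ≤ iT i := by
    intro i
    rw [hiT]
    simp only []
    split_ifs <;> norm_num
  -- pairwise inequality
  have pair : ∀ i j, (x i - x j) * (g i - g j) ≤ 2 * (th3 ρ (x i - x j) * (g i - g j)) +
      ρ * (p i + p j) + ρ * (dT i * iT j + iT i * dT j) := by
    intro i j
    have a1 : 0 ≤ ρ * (p i + p j) := mul_nonneg hρ.le (add_nonneg (hp0 i) (hp0 j))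
    have a2 : 0 ≤ ρ * (dT i * iT j + iT i * dT j) :=
      mul_nonneg hρ.le (add_nonneg (mul_nonneg (hdT0 i) (hiT0 j)) (mul_nonneg (hiT0 i) (hdT0 j)))
    have a3 := th3_mul_nonneg (ρ := ρ) (hmn i j)
    by_cases hfar : ρ ≤ |x i - x j|
    · -- far pair
      have h1 : |x i - x j| / 2 * |g i - g j| ≤ |th3 ρ (x i - x j)| * |g i - g j| :=
        mul_le_mul_of_nonneg_right (th3_half hρ hfar) (abs_nonneg _)
      rw [← abs_mul, abs_of_nonneg a3] at h1
      have h2 : |x i - x j| * |g i - g j| = (x i - x j) * (g i - g j) := by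
        rw [← abs_mul, abs_of_nonneg (hmn i j)]
      nlinarith
    · push Not at hfar
      have hle : (x i - x j) * (g i - g j) ≤ ρ * |g i - g j| := by
        rw [← abs_of_nonneg (hmn i j), abs_mul]
        exact mul_le_mul_of_nonneg_right hfar.le (abs_nonneg _)
      have hfar' := abs_lt.mp hfar
      by_cases hij : x i ≤ x a ∧ x j ≤ x a
      · have e1 : p i = g a - g i := by rw [hp]; simp only [if_pos hij.1]
        have e2 : p j = g a - g j := by rw [hp]; simp only [if_pos hij.2]
        have h3 : |g i - g j| ≤ p i + p j := by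
          have b1 := hm i a hij.1
          have b2 := hm j a hij.2
          rw [e1, e2, abs_le]
          constructor <;> linarith
        have h4 := mul_le_mul_of_nonneg_left h3 hρ.le
        linarith
      · have hiT' : i ∈ T ∧ j ∈ T := by
          have : x a < x i ∨ x a < x j := by
            by_contra hcon
            push Not at hcon
            exact hij hcon
          rw [hT, mem_filter, mem_filter]
          rcases this with h | h
          · exact ⟨⟨mem_univ _, by linarith⟩, ⟨mem_univ _, by linarith⟩⟩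
          · exact ⟨⟨mem_univ _, by linarith⟩, ⟨mem_univ _, by linarith⟩⟩
        have e1 : dT i = Df i := by rw [hdT]; simp only [if_pos hiT'.1]
        have e2 : dT j = Df j := by rw [hdT]; simp only [if_pos hiT'.2]
        have e3 : iT i = 1 := by rw [hiT]; simp only [if_pos hiT'.1]
        have e4 : iT j = 1 := by rw [hiT]; simp only [if_pos hiT'.2]
        have h3 : |g i - g j| ≤ Df i + Df j := by
          have hi0 := hD0 i hiT'.1
          have hj0 := hD0 j hiT'.2
          rcases le_total (g i) (g j) with h | h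
          · rw [abs_of_nonpos (by linarith)]
            have := hDge (-(g i - g j)) j (fun k hk => by
              linarith [(hTk i hiT'.1 k hk).2])
            linarith
          · rw [abs_of_nonneg (by linarith)]
            have := hDge (g i - g j) i (fun k hk => by
              linarith [(hTk j hiT'.2 k hk).2])
            linarith
        have h4 := mul_le_mul_of_nonneg_left h3 hρ.le
        rw [e1, e2, e3, e4]
        linarith
  set Th : ℝ := ∑ i, ∑ j, th3 ρ (x i - x j) * (g i - g j) with hTh
  set Na : ℝ := ∑ j, th1 (R / 4) (x a - x j) * (g a - g j) with hNa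
  have hth0 : ∀ i j, 0 ≤ th3 ρ (x i - x j) * (g i - g j) := fun i j => th3_mul_nonneg (hmn i j)
  have hna0 : ∀ j, 0 ≤ th1 (R / 4) (x a - x j) * (g a - g j) := fun j => th1_mul_nonneg (hmn a j)
  have hTh0 : 0 ≤ Th := sum_nonneg fun i _ => sum_nonneg fun j _ => hth0 i j
  have hNa0 : 0 ≤ Na := sum_nonneg fun j _ => hna0 j
  -- sum of the pairs
  have s1 : ∑ i, ∑ j, (x i - x j) * (g i - g j) ≤ 2 * Th + 2 * ρ * n * ∑ i, p i +
      2 * ρ * ((∑ i, dT i) * ∑ i, iT i) := by
    have h1 : ∑ i, ∑ j, (x i - x j) * (g i - g j) ≤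
        ∑ i, ∑ j, (2 * (th3 ρ (x i - x j) * (g i - g j)) +
      ρ * (p i + p j) + ρ * (dT i * iT j + iT i * dT j)) :=
      sum_le_sum fun i _ => sum_le_sum fun j _ => pair i j
    refine h1.trans (le_of_eq ?_)
    simp only [sum_add_distrib, mul_add, ← mul_sum, ← sum_mul, sum_const, card_univ,
      nsmul_eq_mul]
    rw [hTh]
    ring
  have s2 : ∑ i, iT i = T.card := by
    rw [hiT]
    simp
  have s3 : ∑ i, dT i = ∑ i ∈ T, Df i := by
    rw [hdT]
    simp [sum_ite_mem]
  -- the bulk average over the far particles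
  have s4 : ∑ i ∈ T, Df i ≤ (8 / R) * Th / B.card := by
    have h1 : ∑ i ∈ T, Df i = (∑ i ∈ T, ∑ k ∈ B, (g i - g k)) / B.card := by
      rw [hDf, sum_div]
    rw [h1]
    apply div_le_div_of_nonneg_right _ hB0.le
    calc ∑ i ∈ T, ∑ k ∈ B, (g i - g k)
        ≤ ∑ i ∈ T, ∑ k ∈ B, (8 / R) * (th3 ρ (x i - x k) * (g i - g k)) := by
          apply sum_le_sum
          intro i hi
          apply sum_le_sum
          intro k hk
          obtain ⟨b1, b2⟩ := hTk i hi k hk
          have b3 := th3_low hρ (by linarith : ρ ≤ x i - x k) b2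
          have b4 : R / 8 * (g i - g k) ≤ (x i - x k) / 2 * (g i - g k) :=
            mul_le_mul_of_nonneg_right (by linarith) b2
          have b5 := mul_le_mul_of_nonneg_left (b4.trans b3) (by positivity : 0 ≤ 8 / R)
          have b6 : 8 / R * (R / 8 * (g i - g k)) = g i - g k := by field_simp
          linarith
      _ ≤ ∑ i ∈ T, ∑ k, (8 / R) * (th3 ρ (x i - x k) * (g i - g k)) := by
          apply sum_le_sum
          intro i _
          apply sum_le_univ_sum_of_nonneg
          intro k
          exact mul_nonneg (by positivity) (hth0 i k)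
      _ ≤ ∑ i, ∑ k, (8 / R) * (th3 ρ (x i - x k) * (g i - g k)) := by
          apply sum_le_univ_sum_of_nonneg
          intro i
          exact sum_nonneg fun k _ => mul_nonneg (by positivity) (hth0 i k)
      _ = (8 / R) * Th := by
          simp only [← mul_sum]
          rw [hTh]
  have s5 : 2 * ρ * ((∑ i, dT i) * ∑ i, iT i) ≤ Th := by
    rw [s2, s3]
    have h1 : (T.card : ℝ) ≤ 2 * n * Q / R := by
      rw [le_div_iff₀ hR]
      linarith
    have h2 : (8 / R) * Th / B.card ≤ (8 / R) * Th / (3 / 4 * n) :=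
      div_le_div_of_nonneg_left (by positivity) (by positivity) hBn
    calc 2 * ρ * ((∑ i ∈ T, Df i) * T.card) ≤
          2 * ρ * (((8 / R) * Th / (3 / 4 * n)) * (2 * n * Q / R)) := by
          apply mul_le_mul_of_nonneg_left _ (by positivity)
          exact mul_le_mul (s4.trans h2) h1 hT0 (by positivity)
      _ = (128 / 3 * ρ * Q / R ^ 2) * Th := by
          field_simp
          ring
      _ ≤ 1 * Th := by
          apply mul_le_mul_of_nonneg_right _ hTh0
          rw [div_le_one (by positivity)]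
          have : 0 ≤ ρ * Q := by positivity
          nlinarith
      _ = Th := one_mul _
  -- the force on the particle a
  have s6 : ∑ i, p i ≤ 4 * Na := by
    have hBa : ∑ k ∈ B, (g a - g k) ≤ 2 * Na := by
      calc ∑ k ∈ B, (g a - g k) ≤ ∑ k ∈ B, 2 * (th1 (R / 4) (x a - x k) * (g a - g k)) := by
            apply sum_le_sum
            intro k hk
            have b0 := hTk a haT k hk
            have b1 := th1_low (η := R / 4) (by positivity) b0.1 b0.2
            linarith
        _ ≤ ∑ k, 2 * (th1 (R / 4) (x a - x k) * (g a - g k)) := by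
            apply sum_le_univ_sum_of_nonneg
            intro k
            linarith [hna0 k]
        _ = 2 * Na := by rw [← mul_sum]
    have hDa : Df a ≤ 2 * Na / (3 / 4 * n) := by
      rw [hDf]
      simp only []
      calc (∑ k ∈ B, (g a - g k)) / B.card ≤ 2 * Na / B.card :=
            div_le_div_of_nonneg_right hBa hB0.le
        _ ≤ _ := div_le_div_of_nonneg_left (by positivity) (by positivity) hBn
    have hpi : ∀ i, p i ≤ 2 * (th1 (R / 4) (x a - x i) * (g a - g i)) + iT i * Df a := by
      intro i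
      have b0 : 0 ≤ iT i * Df a := mul_nonneg (hiT0 i) (hD0 a haT)
      by_cases hi : x i ≤ x a
      · have e1 : p i = g a - g i := by rw [hp]; simp only [if_pos hi]
        have hg := hm i a hi
        by_cases hc : R / 4 ≤ x a - x i
        · have b1 := th1_low (η := R / 4) (by positivity) hc (by linarith : 0 ≤ g a - g i)
          rw [e1]
          linarith
        · push Not at hc
          have hiT' : i ∈ T := by
            rw [hT, mem_filter]
            exact ⟨mem_univ _, by linarith⟩
          have e2 : iT i = 1 := by rw [hiT]; simp only [if_pos hiT']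
          have b1 := hDge (g a - g i) a (fun k hk => by linarith [(hTk i hiT' k hk).2])
          rw [e1, e2]
          linarith [hna0 i]
      · have e1 : p i = 0 := by rw [hp]; simp only [if_neg hi]
        rw [e1]
        linarith [hna0 i]
    calc ∑ i, p i ≤ ∑ i, (2 * (th1 (R / 4) (x a - x i) * (g a - g i)) + iT i * Df a) :=
          sum_le_sum fun i _ => hpi i
      _ = 2 * Na + T.card * Df a := by
          rw [sum_add_distrib, ← mul_sum, ← sum_mul, s2]
      _ ≤ 2 * Na + (2 * n * Q / R) * (2 * Na / (3 / 4 * n)) := by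
          have h1 : (T.card : ℝ) ≤ 2 * n * Q / R := by
            rw [le_div_iff₀ hR]
            linarith
          have := mul_le_mul h1 hDa (hD0 a haT) (by positivity)
          linarith
      _ = 2 * Na + (16 / 3 * Q / R) * Na := by
          field_simp
          ring
      _ ≤ 2 * Na + 1 * Na := by
          have : (16 / 3 * Q / R) ≤ 1 := by
            rw [div_le_one hR]
            linarith
          have := mul_le_mul_of_nonneg_right this hNa0
          linarith
      _ ≤ 4 * Na := by linarith
  have s7 := mul_le_mul_of_nonneg_left s6 (by positivity : 0 ≤ 2 * ρ * n)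
  linarith

/-- the covering inequality -/
theorem cover {x g : ι → ℝ} (hm : ∀ i j, x i ≤ x j → g i ≤ g j) {m Q ρ R : ℝ}
    (hQ : 0 < Q) (hρ : 0 < ρ) (hR1 : 16 * Q ≤ R) (hR2 : 4 * ρ ≤ R) (hR3 : 43 * ρ * Q ≤ R ^ 2)
    (hs : ∑ i, |x i - m| ≤ (Fintype.card ι : ℝ) * Q) (a : ι) (ha : R ≤ |x a - m|) :
    ∑ i, ∑ j, (x i - x j) * (g i - g j) ≤
      3 * ∑ i, ∑ j, th3 ρ (x i - x j) * (g i - g j) +
      8 * ρ * (Fintype.card ι : ℝ) * ∑ j, th1 (R / 4) (x a - x j) * (g a - g j) := by
  rcases le_or_gt 0 (x a - m) with h | h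
  · rw [abs_of_nonneg h] at ha
    exact cover_pos hm hQ hρ hR1 hR2 hR3 hs a ha
  · rw [abs_of_neg h] at ha
    have key := cover_pos (x := fun i => -x i) (g := fun i => -g i) (m := -m)
      (fun i j hij => by
        have := hm j i (by linarith)
        linarith) hQ hρ hR1 hR2 hR3 (by
        refine le_trans (le_of_eq ?_) hs
        apply sum_congr rfl
        intro i _
        rw [← abs_neg]
        congr 1
        ring) a (by linarith)
    have e1 : ∀ i j, (-x i - -x j) * (-g i - -g j) = (x i - x j) * (g i - g j) := by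
      intro i j; ring
    have e2 : ∀ i j, th3 ρ (-x i - -x j) * (-g i - -g j) = th3 ρ (x i - x j) * (g i - g j) := by
      intro i j
      unfold th3
      have : -x i - -x j = -(x i - x j) := by ring
      rw [this]
      ring
    have e3 : ∀ j, th1 (R / 4) (-x a - -x j) * (-g a - -g j) =
        th1 (R / 4) (x a - x j) * (g a - g j) := by
      intro j
      unfold th1
      have : -x a - -x j = -(x a - x j) := by ring
      rw [this, neg_sq]
      ring
    simp only [e1, e2, e3] at key
    exact key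

end Pool.Agent.Lib.MP_6d896a_gt.EX
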