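import Mathlib
import Pool.Agent.Lib.MP_6d896a_gt.Bias2

/-!
The discretised Langevin chain approximates its target in the Wasserstein distance, and the
`L^1` Poincare inequality of strongly log-concave targets.
-/

namespace Pool.Agent.Lib.MP_6d896a_gt

open MeasureTheory ProbabilityTheory Real
open scoped ENNReal

section general

variable {E : Type*} [NormedAddCommGroup E] [InnerProductSpace ℝ E] [FiniteDimensional ℝ E]
  [MeasurableSpace E] [BorelSpace E]

omit [InnerProductSpace ℝ E] [FiniteDimensional ℝ E] [MeasurableSpace E] [BorelSpace E] in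
lemma lip_continuous {u : E → ℝ} {l : ℝ} (hl : 0 ≤ l) (hu : ∀ x y, |u x - u y| ≤ l * ‖x - y‖) :
    Continuous u := by
  have : LipschitzWith (Real.toNNReal l) u := by
    apply LipschitzWith.of_dist_le_mul
    intro a b
    rw [Real.dist_eq, dist_eq_norm, Real.coe_toNNReal l hl]
    exact hu a b
  exact this.continuous

omit [FiniteDimensional ℝ E] in
lemma lip_integrable {ν : Measure E} [IsFiniteMeasure ν] (hν : Integrable (fun x => ‖x‖) ν)
    {u : E → ℝ} {l : ℝ} (hl : 0 ≤ l) (hu : ∀ x y, |u x - u y| ≤ l * ‖x - y‖) :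
    Integrable u ν := by
  have hc := lip_continuous hl hu
  have h1 : Integrable (fun x => |u 0| + l * ‖x‖) ν := (integrable_const _).add (hν.const_mul l)
  refine h1.mono' hc.measurable.aestronglyMeasurable (ae_of_all _ fun x => ?_)
  rw [Real.norm_eq_abs]
  have h2 := hu x 0
  rw [sub_zero] at h2
  have h3 := abs_sub_abs_le_abs_sub (u x) (u 0)
  linarith

/-- closeness in the Wasserstein distance, in dual form -/
def Close (r : ℝ) (ν μ : Measure E) : Prop :=
  ∀ (u : E → ℝ) (l : ℝ), 0 ≤ l → (∀ x y, |u x - u y| ≤ l * ‖x - y‖) →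
    |∫ x, u x ∂ν - ∫ x, u x ∂μ| ≤ l * r

/-- `L^1` Poincare inequality with real integrals -/
lemma GI_L1_real {L : ℝ} (hL : 0 ≤ L) {ν : Measure E} (h : GI L ν)
    (hν : Integrable (fun x => ‖x‖) ν) {g : E → ℝ} {l : ℝ} (hl : 0 ≤ l)
    (hg : ContDiff ℝ 1 g) (hgl : ∀ x y, |g x - g y| ≤ l * ‖x - y‖) :
    ∫ x, ∫ y, |g y - g x| ∂ν ∂ν ≤ π / 2 * L * ∫ x, ‖fderiv ℝ g x‖ ∂ν := by
  have hp := GI_prob h
  have h1 := GI_L1 hL h hg
  have hgc : Continuous g := hg.continuous
  have hbd : ∀ x, ‖fderiv ℝ g x‖ ≤ l := by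
    intro x
    have : LipschitzWith (Real.toNNReal l) g := by
      apply LipschitzWith.of_dist_le_mul
      intro a b
      rw [Real.dist_eq, dist_eq_norm, Real.coe_toNNReal l hl]
      exact hgl a b
    have h4 := norm_fderiv_le_of_lipschitz ℝ (x₀ := x) this
    rwa [Real.coe_toNNReal l hl] at h4
  have hfc : Continuous (fun x => ‖fderiv ℝ g x‖) := (hg.continuous_fderiv (by norm_num)).norm
  have hI2 : Integrable (fun x => ‖fderiv ℝ g x‖) ν := by
    refine (integrable_const l).mono' hfc.measurable.aestronglyMeasurable (ae_of_all _ fun x => ?_)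
    rw [norm_norm]
    exact hbd x
  have hI3 : Integrable (fun p : E × E => |g p.2 - g p.1|) (ν.prod ν) := by
    have hb : Integrable (fun p : E × E => l * (‖p.2‖ + ‖p.1‖)) (ν.prod ν) := by
      apply Integrable.const_mul
      exact (hν.comp_snd ν).add (hν.comp_fst ν)
    refine hb.mono' ?_ (ae_of_all _ fun p => ?_)
    · exact ((hgc.comp continuous_snd).sub (hgc.comp continuous_fst)).abs.measurable.aestronglyMeasurable
    · rw [Real.norm_eq_abs, abs_abs]
      refine (hgl _ _).trans (mul_le_mul_of_nonneg_left (norm_sub_le _ _) hl)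
  have e1 : ∫ x, ∫ y, |g y - g x| ∂ν ∂ν = ∫ p : E × E, |g p.2 - g p.1| ∂(ν.prod ν) :=
    (integral_prod _ hI3).symm
  rw [e1]
  have e2 : ENNReal.ofReal (∫ p : E × E, |g p.2 - g p.1| ∂(ν.prod ν)) =
      ∫⁻ p, ‖g p.2 - g p.1‖ₑ ∂(ν.prod ν) := by
    rw [ofReal_integral_eq_lintegral_ofReal hI3 (ae_of_all _ fun p => abs_nonneg _)]
    apply lintegral_congr
    intro p
    rw [← Real.norm_eq_abs, ofReal_norm]
  have e3 : ENNReal.ofReal (∫ x, ‖fderiv ℝ g x‖ ∂ν) = ∫⁻ x, ‖fderiv ℝ g x‖ₑ ∂ν := by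
    rw [ofReal_integral_eq_lintegral_ofReal hI2 (ae_of_all _ fun p => norm_nonneg _)]
    apply lintegral_congr
    intro p
    rw [ofReal_norm]
  rw [← e2, ← e3, ← ENNReal.ofReal_mul (by positivity)] at h1
  have h2 : 0 ≤ π / 2 * L * ∫ x, ‖fderiv ℝ g x‖ ∂ν := by
    apply mul_nonneg (by positivity)
    exact integral_nonneg fun x => norm_nonneg _
  exact (ENNReal.ofReal_le_ofReal_iff h2).mp h1

/-- transfer of the inequality to a close measure -/
lemma transfer {ν μ : Measure E} [IsProbabilityMeasure ν] [IsProbabilityMeasure μ]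
    (hν : Integrable (fun x => ‖x‖) ν) (hμ : Integrable (fun x => ‖x‖) μ) {r K : ℝ}
    (hK : 0 ≤ K) (hclose : Close r ν μ) {g : E → ℝ} {l l2 : ℝ} (hl : 0 ≤ l) (hl2 : 0 ≤ l2)
    (hg : ContDiff ℝ 1 g) (hgl : ∀ x y, |g x - g y| ≤ l * ‖x - y‖)
    (hg2 : ∀ x y, ‖fderiv ℝ g x - fderiv ℝ g y‖ ≤ l2 * ‖x - y‖)
    (hin : ∫ x, ∫ y, |g y - g x| ∂ν ∂ν ≤ K * ∫ x, ‖fderiv ℝ g x‖ ∂ν) :
    ∫ x, ∫ y, |g y - g x| ∂μ ∂μ ≤ K * (∫ x, ‖fderiv ℝ g x‖ ∂μ + l2 * r) + 2 * l * r := by
  have hgc : Continuous g := hg.continuous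
  have hk : ∀ x y x' : E, |(|g y - g x| - |g y - g x'|)| ≤ l * ‖x - x'‖ := by
    intro x y x'
    refine (abs_abs_sub_abs_le_abs_sub _ _).trans ?_
    have : g y - g x - (g y - g x') = g x' - g x := by ring
    rw [this, abs_sub_comm]
    exact hgl _ _
  have hk2 : ∀ x y y' : E, |(|g y - g x| - |g y' - g x|)| ≤ l * ‖y - y'‖ := by
    intro x y y'
    refine (abs_abs_sub_abs_le_abs_sub _ _).trans ?_
    have : g y - g x - (g y' - g x) = g y - g y' := by ring
    rw [this]
    exact hgl _ _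
  have hint : ∀ (ρ : Measure E) [IsProbabilityMeasure ρ], Integrable (fun x => ‖x‖) ρ →
      ∀ x, Integrable (fun y => |g y - g x|) ρ := by
    intro ρ _ hρ x
    exact lip_integrable hρ hl (fun y y' => hk2 x y y')
  have hLip : ∀ (ρ : Measure E) [IsProbabilityMeasure ρ], Integrable (fun x => ‖x‖) ρ →
      ∀ x x', |∫ y, |g y - g x| ∂ρ - ∫ y, |g y - g x'| ∂ρ| ≤ l * ‖x - x'‖ := by
    intro ρ _ hρ x x'
    rw [← integral_sub (hint ρ hρ x) (hint ρ hρ x')]
    rw [← Real.norm_eq_abs]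
    refine (norm_integral_le_of_norm_le_const (C := l * ‖x - x'‖) (ae_of_all _ fun y => ?_)).trans ?_
    · rw [Real.norm_eq_abs]; exact hk x y x'
    · simp
  have hA := hclose (fun x => ∫ y, |g y - g x| ∂ν) l hl (hLip ν hν)
  have hB := hclose (fun x => ∫ y, |g y - g x| ∂μ) l hl (hLip μ hμ)
  have hI3 : Integrable (fun p : E × E => |g p.2 - g p.1|) (ν.prod μ) := by
    have hb : Integrable (fun p : E × E => l * (‖p.2‖ + ‖p.1‖)) (ν.prod μ) := by
      apply Integrable.const_mul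
      exact (hμ.comp_snd ν).add (hν.comp_fst μ)
    refine hb.mono' ?_ (ae_of_all _ fun p => ?_)
    · exact ((hgc.comp continuous_snd).sub (hgc.comp continuous_fst)).abs.measurable.aestronglyMeasurable
    · rw [Real.norm_eq_abs, abs_abs]
      refine (hgl _ _).trans (mul_le_mul_of_nonneg_left (norm_sub_le _ _) hl)
  have hsw : ∫ x, ∫ y, |g y - g x| ∂μ ∂ν = ∫ x, ∫ y, |g y - g x| ∂ν ∂μ := by
    have h5 := integral_integral_swap (f := fun x y => |g y - g x|) hI3
    rw [h5]
    congr 1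
    funext y
    congr 1
    funext x
    rw [abs_sub_comm]
  have hC := hclose (fun x => ‖fderiv ℝ g x‖) l2 hl2 (fun x y => by
    have h6 := abs_norm_sub_norm_le (fderiv ℝ g x) (fderiv ℝ g y)
    exact h6.trans (hg2 x y))
  rw [hsw] at hB
  have hA' := abs_le.mp hA
  have hB' := abs_le.mp hB
  have hC' := abs_le.mp hC
  have h7 : K * ∫ x, ‖fderiv ℝ g x‖ ∂ν ≤ K * (∫ x, ‖fderiv ℝ g x‖ ∂μ + l2 * r) :=
    mul_le_mul_of_nonneg_left (by linarith [hC'.2]) hK
  linarith [hA'.1, hB'.1]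

end general

section chain

variable {ι : Type} [Fintype ι] {V : EuclideanSpace ℝ ι → ℝ}
  {D : EuclideanSpace ℝ ι → EuclideanSpace ℝ ι} {kap Lam C3 : ℝ}

/-- laws of the chain -/
noncomputable def chainM (D : EuclideanSpace ℝ ι → EuclideanSpace ℝ ι) (h : ℝ) :
    ℕ → Measure (EuclideanSpace ℝ ι)
  | 0 => Measure.dirac 0
  | N + 1 => stepM (fun x => x - h • D x) (Real.sqrt (2 * h)) (chainM D h N)

lemma chainM_GI (hP : Pot V D kap Lam C3) {h : ℝ} (hh : 0 < h) (h1 : h * (kap + Lam) ≤ 1)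
    (N : ℕ) : GI (Real.sqrt (2 / (kap * (2 - kap * h)))) (chainM D h N) := by
  have hk := hP.kpos
  have hL := hP.Lpos
  have hkh : kap * h ≤ 1 := by nlinarith
  have h2 : 0 < 2 - kap * h := by linarith
  set A := 2 / (kap * (2 - kap * h)) with hA
  have hA0 : 0 < A := by positivity
  induction N with
  | zero =>
    exact GI_mono (Real.sqrt_nonneg _) (GI_dirac 0)
  | succ N ih =>
    have hcd : ContDiff ℝ 1 (fun x => x - h • D x) := contDiff_id.sub (hP.cD.const_smul h)
    have h3 := GI_step (a := 1 - kap * h) (b := Real.sqrt (2 * h)) (Real.sqrt_nonneg _)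
      (by linarith) (Real.sqrt_nonneg _) hcd (hP.contr h hh.le h1) ih
    have e : (1 - kap * h) ^ 2 * Real.sqrt A ^ 2 + Real.sqrt (2 * h) ^ 2 = A := by
      rw [Real.sq_sqrt hA0.le, Real.sq_sqrt (by positivity), hA]
      field_simp
      ring
    rw [e] at h3
    exact h3

lemma GI_moment {L : ℝ} {ν : Measure (EuclideanSpace ℝ ι)} (hL : 0 ≤ L) (h : GI L ν) :
    Integrable (fun x => ‖x‖) ν := by
  obtain ⟨κ, _, Φ, hΦ, hlip, rfl⟩ := h
  have hm : Measurable Φ := hΦ.continuous.measurable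
  rw [integrable_map_measure (continuous_norm.measurable.aestronglyMeasurable) hm.aemeasurable]
  have h1 : Integrable (fun z : EuclideanSpace ℝ κ => ‖Φ 0‖ + L * ‖z‖)
      (stdGaussian (EuclideanSpace ℝ κ)) := by
    apply (integrable_const _).add
    apply Integrable.const_mul
    exact (IsGaussian.integrable_id (μ := stdGaussian (EuclideanSpace ℝ κ))).norm
  refine h1.mono' (continuous_norm.measurable.comp hm).aestronglyMeasurable
    (ae_of_all _ fun z => ?_)
  simp only [Function.comp]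
  rw [norm_norm]
  have h2 := hlip z 0
  rw [sub_zero] at h2
  have h3 := norm_sub_norm_le (Φ z) (Φ 0)
  linarith

/-- normalised target -/
noncomputable def tgtN (V : EuclideanSpace ℝ ι → ℝ) : Measure (EuclideanSpace ℝ ι) :=
  (tgt V Set.univ)⁻¹ • tgt V

lemma tgt_univ_pos (hP : Pot V D kap Lam C3) : tgt V Set.univ ≠ 0 := by
  unfold tgt
  rw [withDensity_apply _ MeasurableSet.univ, Measure.restrict_univ]
  intro h0
  have hmV : Measurable (fun x => ENNReal.ofReal (Real.exp (-V x))) :=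
    (Real.measurable_exp.comp hP.cV.measurable.neg).ennreal_ofReal
  rw [lintegral_eq_zero_iff hmV] at h0
  have h2 : ∀ᵐ x ∂(volume : Measure (EuclideanSpace ℝ ι)), False := by
    filter_upwards [h0] with x hx
    simp only [Pi.zero_apply, ENNReal.ofReal_eq_zero] at hx
    exact absurd (Real.exp_pos (-V x)) (not_lt.mpr hx)
  rw [Filter.eventually_false_iff_eq_bot, ae_eq_bot] at h2
  have h3 : (volume : Measure (EuclideanSpace ℝ ι)) ≠ 0 := NeZero.ne _
  exact h3 h2

lemma tgtN_prob (hP : Pot V D kap Lam C3) : IsProbabilityMeasure (tgtN V) := by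
  have := tgt_finite hP
  constructor
  unfold tgtN
  rw [Measure.smul_apply, smul_eq_mul]
  exact ENNReal.inv_mul_cancel (tgt_univ_pos hP) (measure_ne_top _ _)

lemma tgt_moment (hP : Pot V D kap Lam C3) : Integrable (fun x => ‖x‖) (tgt V) := by
  unfold tgt
  have hmV : Measurable (fun x => ENNReal.ofReal (Real.exp (-V x))) :=
    (Real.measurable_exp.comp hP.cV.measurable.neg).ennreal_ofReal
  refine ⟨continuous_norm.measurable.aestronglyMeasurable, ?_⟩
  unfold HasFiniteIntegral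
  rw [lintegral_withDensity_eq_lintegral_mul _ hmV continuous_norm.measurable.enorm]
  refine lt_of_le_of_lt ?_ hP.mom
  apply lintegral_mono
  intro x
  simp only [Pi.mul_apply]
  rw [← ofReal_norm, norm_norm, ← ENNReal.ofReal_mul (Real.exp_pos _).le]
  apply ENNReal.ofReal_le_ofReal
  apply mul_le_mul_of_nonneg_left _ (Real.exp_pos _).le
  have h0 := norm_nonneg x
  nlinarith [sq_nonneg ‖x‖, mul_nonneg h0 h0, mul_nonneg (mul_nonneg h0 h0) h0,
    mul_nonneg (mul_nonneg h0 h0) (mul_nonneg h0 h0)]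

lemma tgtN_moment (hP : Pot V D kap Lam C3) : Integrable (fun x => ‖x‖) (tgtN V) := by
  unfold tgtN
  exact (tgt_moment hP).smul_measure (ENNReal.inv_ne_top.mpr (tgt_univ_pos hP))

lemma tgtN_integral (hP : Pot V D kap Lam C3) (u : EuclideanSpace ℝ ι → ℝ) :
    ∫ x, u x ∂(tgtN V) = ((tgt V).real Set.univ)⁻¹ * ∫ x, u x ∂(tgt V) := by
  unfold tgtN
  rw [integral_smul_measure, ENNReal.toReal_inv, smul_eq_mul]
  rfl

lemma close_base (hP : Pot V D kap Lam C3) :
    Close (∫ x, ‖x‖ ∂(tgtN V)) (Measure.dirac 0) (tgtN V) := by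
  intro u l hl hu
  have hp := tgtN_prob hP
  have hm := tgtN_moment hP
  rw [integral_dirac' _ _ (lip_continuous hl hu).stronglyMeasurable]
  have hui := lip_integrable hm hl hu
  have e : u 0 - ∫ x, u x ∂(tgtN V) = ∫ x, (u 0 - u x) ∂(tgtN V) := by
    rw [integral_sub (integrable_const _) hui]; simp
  rw [e, ← Real.norm_eq_abs, ← integral_const_mul]
  refine norm_integral_le_of_norm_le (hm.const_mul l) (ae_of_all _ fun x => ?_)
  rw [Real.norm_eq_abs]
  have := hu 0 x
  rwa [zero_sub, norm_neg] at this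

/-- the constant in the recursion -/
noncomputable def Cb (V : EuclideanSpace ℝ ι → ℝ) (D : EuclideanSpace ℝ ι → EuclideanSpace ℝ ι)
    (Lam C3 : ℝ) : ℝ := ((tgt V).real Set.univ)⁻¹ * (C0 V D Lam C3).toReal

lemma Cb_nonneg (V : EuclideanSpace ℝ ι → ℝ) (D : EuclideanSpace ℝ ι → EuclideanSpace ℝ ι)
    (Lam C3 : ℝ) : 0 ≤ Cb V D Lam C3 := by
  unfold Cb
  positivity

lemma close_step (hP : Pot V D kap Lam C3) {h : ℝ} (hh : 0 < h) (h1 : h ≤ 1)
    (h2 : h * (kap + Lam) ≤ 1) {ν : Measure (EuclideanSpace ℝ ι)} [IsProbabilityMeasure ν]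
    (hν : Integrable (fun x => ‖x‖) ν) {r : ℝ} (hc : Close r ν (tgtN V)) :
    Close ((1 - kap * h) * r + h ^ 2 * Cb V D Lam C3)
      (stepM (fun x => x - h • D x) (Real.sqrt (2 * h)) ν) (tgtN V) := by
  intro u l hl hu
  have hp := tgtN_prob hP
  have hf := tgt_finite hP
  have hk := hP.kpos
  have hL := hP.Lpos
  have hkh : 0 ≤ 1 - kap * h := by nlinarith
  have huc := lip_continuous hl hu
  have hDc : Continuous D := hP.cD.continuous
  set b := Real.sqrt (2 * h) with hb
  have hb0 : 0 ≤ b := Real.sqrt_nonneg _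
  set γ := stdGaussian (EuclideanSpace ℝ ι) with hγ
  have hγm : Integrable (fun z => ‖z‖) γ :=
    (IsGaussian.integrable_id (μ := stdGaussian (EuclideanSpace ℝ ι))).norm
  let Pu : EuclideanSpace ℝ ι → ℝ := fun x => ∫ z, u (x - h • D x + b • z) ∂γ
  have hlipz : ∀ x, ∀ z z', |u (x - h • D x + b • z) - u (x - h • D x + b • z')| ≤
      (l * b) * ‖z - z'‖ := by
    intro x z z'
    refine (hu _ _).trans (le_of_eq ?_)
    rw [add_sub_add_left_eq_sub, ← smul_sub, norm_smul, Real.norm_eq_abs, abs_of_nonneg hb0,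
      mul_assoc]
  have hintz : ∀ x, Integrable (fun z => u (x - h • D x + b • z)) γ := fun x =>
    lip_integrable hγm (by positivity) (hlipz x)
  have hPu : ∀ x y, |Pu x - Pu y| ≤ ((1 - kap * h) * l) * ‖x - y‖ := by
    intro x y
    simp only [Pu]
    rw [← integral_sub (hintz x) (hintz y), ← Real.norm_eq_abs]
    refine (norm_integral_le_of_norm_le_const (C := ((1 - kap * h) * l) * ‖x - y‖)
      (ae_of_all _ fun z => ?_)).trans ?_
    · rw [Real.norm_eq_abs]
      refine (hu _ _).trans ?_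
      rw [add_sub_add_right_eq_sub]
      have := hP.contr h hh.le h2 x y
      calc l * ‖(x - h • D x) - (y - h • D y)‖ ≤ l * ((1 - kap * h) * ‖x - y‖) :=
            mul_le_mul_of_nonneg_left this hl
        _ = _ := by ring
    · simp
  -- integral against the step
  have hstep : ∀ (ρ : Measure (EuclideanSpace ℝ ι)) [IsFiniteMeasure ρ],
      Integrable (fun x => ‖x‖) ρ →
      Integrable (fun p : EuclideanSpace ℝ ι × EuclideanSpace ℝ ι =>
        u (p.1 - h • D p.1 + b • p.2)) (ρ.prod γ) := by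
    intro ρ _ hρ
    have hbd : Integrable (fun p : EuclideanSpace ℝ ι × EuclideanSpace ℝ ι =>
        |u 0| + l * ((1 + h * Lam) * ‖p.1‖ + h * ‖D 0‖ + b * ‖p.2‖)) (ρ.prod γ) := by
      apply (integrable_const _).add
      apply Integrable.const_mul
      apply Integrable.add
      · apply Integrable.add
        · exact (hρ.comp_fst γ).const_mul _
        · exact integrable_const _
      · exact (hγm.comp_snd ρ).const_mul _
    refine hbd.mono' ?_ (ae_of_all _ fun p => ?_)
    · have hcont : Continuous (fun p : EuclideanSpace ℝ ι × EuclideanSpace ℝ ι =>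
        p.1 - h • D p.1 + b • p.2) := by fun_prop
      exact (huc.comp hcont).measurable.aestronglyMeasurable
    · rw [Real.norm_eq_abs]
      have h3 := hu (p.1 - h • D p.1 + b • p.2) 0
      rw [sub_zero] at h3
      have h4 := abs_sub_abs_le_abs_sub (u (p.1 - h • D p.1 + b • p.2)) (u 0)
      have h5 : ‖D p.1‖ ≤ ‖D 0‖ + Lam * ‖p.1‖ := by
        have h6 := hP.lip p.1 0
        rw [sub_zero] at h6
        have h7 := norm_sub_norm_le (D p.1) (D 0)
        linarith
      have h6 : ‖p.1 - h • D p.1 + b • p.2‖ ≤ (1 + h * Lam) * ‖p.1‖ + h * ‖D 0‖ + b * ‖p.2‖ := by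
        refine (norm_add_le _ _).trans (add_le_add ?_ ?_)
        · refine (norm_sub_le _ _).trans ?_
          rw [norm_smul, Real.norm_eq_abs, abs_of_pos hh]
          nlinarith
        · rw [norm_smul, Real.norm_eq_abs, abs_of_nonneg hb0]
      have h7 := mul_le_mul_of_nonneg_left h6 hl
      linarith
  have e1 : ∫ x, u x ∂(stepM (fun x => x - h • D x) b ν) = ∫ x, Pu x ∂ν := by
    unfold stepM
    have hcont : Continuous (fun p : EuclideanSpace ℝ ι × EuclideanSpace ℝ ι =>
        p.1 - h • D p.1 + b • p.2) := by fun_prop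
    rw [integral_map hcont.measurable.aemeasurable huc.measurable.aestronglyMeasurable]
    exact integral_prod _ (hstep ν hν)
  have hm := tgtN_moment hP
  have hmt := tgt_moment hP
  have hPuL : (0 : ℝ) ≤ (1 - kap * h) * l := by positivity
  have h3 := hc Pu ((1 - kap * h) * l) hPuL hPu
  have e2 : ∫ x, Pu x ∂(tgtN V) - ∫ x, u x ∂(tgtN V) = ((tgt V).real Set.univ)⁻¹ *
      ∫ p, (u (upd D h p) - u p.1) ∂((tgt V).prod γ) := by
    rw [tgtN_integral hP, tgtN_integral hP, ← mul_sub]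
    congr 1
    have i1 := hstep (tgt V) hmt
    have i2 : Integrable (fun p : EuclideanSpace ℝ ι × EuclideanSpace ℝ ι => u p.1)
        ((tgt V).prod γ) := (lip_integrable hmt hl hu).comp_fst γ
    have e3 : ∫ p, (u (upd D h p) - u p.1) ∂((tgt V).prod γ) =
        ∫ p, u (upd D h p) ∂((tgt V).prod γ) - ∫ p, u p.1 ∂((tgt V).prod γ) :=
      integral_sub i1 i2
    rw [e3]
    congr 1
    · exact (integral_prod _ i1).symm
    · rw [integral_prod _ i2]
      simp
  have h4 : |∫ x, Pu x ∂(tgtN V) - ∫ x, u x ∂(tgtN V)| ≤ l * (h ^ 2 * Cb V D Lam C3) := by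
    rw [e2, abs_mul, abs_of_nonneg (by positivity)]
    have h5 := bias hP hh h1 hl hu
    have h6 : |∫ p, (u (upd D h p) - u p.1) ∂((tgt V).prod γ)| ≤
        (l * h ^ 2) * (C0 V D Lam C3).toReal := by
      have h7 := ENNReal.toReal_mono (ENNReal.mul_ne_top ENNReal.ofReal_ne_top
        (C0_lt_top hP).ne) h5
      rw [toReal_enorm, Real.norm_eq_abs, ENNReal.toReal_mul,
        ENNReal.toReal_ofReal (by positivity)] at h7
      exact h7
    calc ((tgt V).real Set.univ)⁻¹ * |∫ p, (u (upd D h p) - u p.1) ∂((tgt V).prod γ)|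
        ≤ ((tgt V).real Set.univ)⁻¹ * ((l * h ^ 2) * (C0 V D Lam C3).toReal) :=
          mul_le_mul_of_nonneg_left h6 (by positivity)
      _ = _ := by unfold Cb; ring
  rw [e1]
  calc |∫ x, Pu x ∂ν - ∫ x, u x ∂(tgtN V)| ≤ |∫ x, Pu x ∂ν - ∫ x, Pu x ∂(tgtN V)| +
        |∫ x, Pu x ∂(tgtN V) - ∫ x, u x ∂(tgtN V)| := abs_sub_le _ _ _
    _ ≤ (1 - kap * h) * l * r + l * (h ^ 2 * Cb V D Lam C3) := add_le_add h3 h4
    _ = _ := by ring

lemma close_chain (hP : Pot V D kap Lam C3) {h : ℝ} (hh : 0 < h) (h1 : h ≤ 1)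
    (h2 : h * (kap + Lam) ≤ 1) (N : ℕ) :
    Close ((1 - kap * h) ^ N * (∫ x, ‖x‖ ∂(tgtN V)) + h * Cb V D Lam C3 / kap)
      (chainM D h N) (tgtN V) := by
  have hk := hP.kpos
  have hL := hP.Lpos
  have hC := Cb_nonneg V D Lam C3
  induction N with
  | zero =>
    intro u l hl hu
    have h3 := close_base hP u l hl hu
    refine h3.trans ?_
    apply mul_le_mul_of_nonneg_left _ hl
    have : 0 ≤ h * Cb V D Lam C3 / kap := by positivity
    simp only [pow_zero, one_mul]
    linarith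
  | succ N ih =>
    have hGI := chainM_GI hP hh h2 N
    have hp := GI_prob hGI
    have hm := GI_moment (Real.sqrt_nonneg _) hGI
    have h3 := close_step hP hh h1 h2 hm ih
    have e : (1 - kap * h) * ((1 - kap * h) ^ N * (∫ x, ‖x‖ ∂(tgtN V)) +
        h * Cb V D Lam C3 / kap) + h ^ 2 * Cb V D Lam C3 =
        (1 - kap * h) ^ (N + 1) * (∫ x, ‖x‖ ∂(tgtN V)) + h * Cb V D Lam C3 / kap := by
      field_simp
      ring
    rw [e] at h3
    exact h3

/-- the `L^1` Poincare inequality for the target -/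
theorem pot_L1 (hP : Pot V D kap Lam C3) {g : EuclideanSpace ℝ ι → ℝ} {l l2 : ℝ} (hl : 0 ≤ l)
    (hl2 : 0 ≤ l2) (hg : ContDiff ℝ 1 g) (hgl : ∀ x y, |g x - g y| ≤ l * ‖x - y‖)
    (hg2 : ∀ x y, ‖fderiv ℝ g x - fderiv ℝ g y‖ ≤ l2 * ‖x - y‖) :
    ∫ x, ∫ y, |g y - g x| ∂(tgtN V) ∂(tgtN V) ≤
      π / 2 * Real.sqrt (1 / kap) * ∫ x, ‖fderiv ℝ g x‖ ∂(tgtN V) := by
  have hk := hP.kpos
  have hL := hP.Lpos
  have hp := tgtN_prob hP
  have hm := tgtN_moment hP
  set T := ∫ x, ∫ y, |g y - g x| ∂(tgtN V) ∂(tgtN V) with hT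
  set G := ∫ x, ‖fderiv ℝ g x‖ ∂(tgtN V) with hG
  set r0 := ∫ x, ‖x‖ ∂(tgtN V) with hr0
  set C := Cb V D Lam C3 with hC
  -- for each small h and each N
  have key : ∀ h : ℝ, 0 < h → h ≤ 1 → h * (kap + Lam) ≤ 1 → ∀ N : ℕ,
      T ≤ (π / 2 * Real.sqrt (2 / (kap * (2 - kap * h)))) *
        (G + l2 * ((1 - kap * h) ^ N * r0 + h * C / kap)) +
        2 * l * ((1 - kap * h) ^ N * r0 + h * C / kap) := by
    intro h hh h1 h2 N
    have hGI := chainM_GI hP hh h2 N
    have hpN := GI_prob hGI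
    have hmN := GI_moment (Real.sqrt_nonneg _) hGI
    have h3 := GI_L1_real (Real.sqrt_nonneg _) hGI hmN hl hg hgl
    exact transfer hmN hm (by positivity) (close_chain hP hh h1 h2 N) hl hl2 hg hgl hg2 h3
  have key2 : ∀ h : ℝ, 0 < h → h ≤ 1 → h * (kap + Lam) ≤ 1 →
      T ≤ (π / 2 * Real.sqrt (2 / (kap * (2 - kap * h)))) *
        (G + l2 * (h * C / kap)) + 2 * l * (h * C / kap) := by
    intro h hh h1 h2
    have h3 : 0 ≤ 1 - kap * h := by nlinarith
    have h4 : 1 - kap * h < 1 := by nlinarith [mul_pos hk hh]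
    have h5 := tendsto_pow_atTop_nhds_zero_of_lt_one h3 h4
    have h6 : Filter.Tendsto (fun N : ℕ => (1 - kap * h) ^ N * r0 + h * C / kap) Filter.atTop
        (nhds (0 * r0 + h * C / kap)) := (h5.mul_const r0).add_const _
    rw [zero_mul, zero_add] at h6
    have h7 : Filter.Tendsto (fun N : ℕ => (π / 2 * Real.sqrt (2 / (kap * (2 - kap * h)))) *
        (G + l2 * ((1 - kap * h) ^ N * r0 + h * C / kap)) +
        2 * l * ((1 - kap * h) ^ N * r0 + h * C / kap)) Filter.atTop
        (nhds ((π / 2 * Real.sqrt (2 / (kap * (2 - kap * h)))) *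
        (G + l2 * (h * C / kap)) + 2 * l * (h * C / kap))) :=
      (((h6.const_mul l2).const_add G).const_mul _).add (h6.const_mul (2 * l))
    exact ge_of_tendsto' h7 (key h hh h1 h2)
  have hcont : ContinuousAt (fun h : ℝ => (π / 2 * Real.sqrt (2 / (kap * (2 - kap * h)))) *
        (G + l2 * (h * C / kap)) + 2 * l * (h * C / kap)) 0 := by
    have h8 : ContinuousAt (fun h : ℝ => 2 / (kap * (2 - kap * h))) 0 := by
      apply ContinuousAt.div continuousAt_const
      · fun_prop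
      · simp only [mul_zero, sub_zero]
        positivity
    have h9 : ContinuousAt (fun h : ℝ => Real.sqrt (2 / (kap * (2 - kap * h)))) 0 :=
      Real.continuous_sqrt.continuousAt.comp h8
    have h10 : ContinuousAt (fun h : ℝ => h * C / kap) 0 := by fun_prop
    exact ((h9.const_mul _).mul ((h10.const_mul l2).const_add G)).add (h10.const_mul (2 * l))
  have hlim : Filter.Tendsto (fun h : ℝ => (π / 2 * Real.sqrt (2 / (kap * (2 - kap * h)))) *
        (G + l2 * (h * C / kap)) + 2 * l * (h * C / kap)) (nhdsWithin 0 (Set.Ioi 0))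
        (nhds (π / 2 * Real.sqrt (1 / kap) * G)) := by
    have h11 := hcont.tendsto.mono_left (nhdsWithin_le_nhds (s := Set.Ioi (0 : ℝ)))
    convert h11 using 2
    have : 2 / (kap * (2 - kap * 0)) = 1 / kap := by
      field_simp
      ring
    rw [this]
    ring
  apply ge_of_tendsto hlim
  have hpos : 0 < min 1 (1 / (kap + Lam)) := by positivity
  filter_upwards [Ioo_mem_nhdsGT hpos] with h hh
  have h1 : h ≤ 1 := hh.2.le.trans (min_le_left _ _)
  have h2 : h * (kap + Lam) ≤ 1 := by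
    have h3 : h ≤ 1 / (kap + Lam) := hh.2.le.trans (min_le_right _ _)
    rwa [le_div_iff₀ (by positivity)] at h3
  exact key2 h hh.1 h1 h2

end chain

end Pool.Agent.Lib.MP_6d896a_gt
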