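import Mathlib
import Pool.Agent.Lib.MP_6d896a_gt.ChainLimit
import Pool.Agent.Lib.MP_6d896a_gt.Growth

/-!
Softplus potentials satisfy the hypotheses of the chain.
-/

namespace Pool.Agent.Lib.MP_6d896a_gt

open MeasureTheory ProbabilityTheory Real
open scoped ENNReal

/-- softplus -/
noncomputable def sp (t : ℝ) : ℝ := Real.log (1 + Real.exp t)

lemma sp_hasDerivAt (t : ℝ) : HasDerivAt sp (Real.sigmoid t) t := by
  unfold sp
  have h1 : HasDerivAt (fun t => 1 + Real.exp t) (Real.exp t) t := (Real.hasDerivAt_exp t).const_add 1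
  have h2 : (1 + Real.exp t) ≠ 0 := by positivity
  have h3 := h1.log h2
  convert h3 using 1
  rw [Real.sigmoid_def, Real.exp_neg]
  field_simp
  ring

lemma sp_continuous : Continuous sp := by
  rw [continuous_iff_continuousAt]
  exact fun t => (sp_hasDerivAt t).continuousAt

lemma sp_nonneg (t : ℝ) : 0 ≤ sp t := by
  unfold sp
  apply Real.log_nonneg
  have := Real.exp_pos t
  linarith

lemma sig_lip (a b : ℝ) : |Real.sigmoid a - Real.sigmoid b| ≤ |a - b| := by
  have h : ∀ x ∈ (Set.univ : Set ℝ), ‖deriv Real.sigmoid x‖ ≤ 1 := by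
    intro x _
    rw [deriv_sigmoid]
    have h1 := Real.sigmoid_pos x
    have h2 := Real.sigmoid_lt_one x
    rw [Real.norm_eq_abs, abs_of_nonneg (mul_nonneg h1.le (by linarith))]
    nlinarith
  have := convex_univ.norm_image_sub_le_of_norm_deriv_le (fun x _ => differentiableAt_sigmoid) h
    (Set.mem_univ b) (Set.mem_univ a)
  simpa using this

/-- derivative of the sigmoid -/
noncomputable def sg1 (t : ℝ) : ℝ := Real.sigmoid t * (1 - Real.sigmoid t)

lemma sg1_hasDerivAt (t : ℝ) :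
    HasDerivAt sg1 (Real.sigmoid t * (1 - Real.sigmoid t) * (1 - 2 * Real.sigmoid t)) t := by
  have h := hasDerivAt_sigmoid t
  have h2 : HasDerivAt (fun t => Real.sigmoid t * (1 - Real.sigmoid t))
    (Real.sigmoid t * (1 - Real.sigmoid t) * (1 - Real.sigmoid t) +
      Real.sigmoid t * -(Real.sigmoid t * (1 - Real.sigmoid t))) t := h.mul (h.const_sub 1)
  have e : Real.sigmoid t * (1 - Real.sigmoid t) * (1 - 2 * Real.sigmoid t) =
    Real.sigmoid t * (1 - Real.sigmoid t) * (1 - Real.sigmoid t) +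
      Real.sigmoid t * -(Real.sigmoid t * (1 - Real.sigmoid t)) := by ring
  rw [e]
  exact h2

lemma sg1_lip (a b : ℝ) : |sg1 a - sg1 b| ≤ |a - b| := by
  have h : ∀ x ∈ (Set.univ : Set ℝ), ‖deriv sg1 x‖ ≤ 1 := by
    intro x _
    rw [(sg1_hasDerivAt x).deriv]
    have h1 := Real.sigmoid_pos x
    have h2 := Real.sigmoid_lt_one x
    rw [Real.norm_eq_abs, abs_le]
    constructor <;> nlinarith [mul_pos h1 (by linarith : 0 < 1 - Real.sigmoid x)]
  have := convex_univ.norm_image_sub_le_of_norm_deriv_le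
    (fun x _ => (sg1_hasDerivAt x).differentiableAt) h (Set.mem_univ b) (Set.mem_univ a)
  simpa using this

/-- first order remainder of the sigmoid -/
lemma sig_rem (a s : ℝ) :
    |Real.sigmoid s - Real.sigmoid a - sg1 s * (s - a)| ≤ |s - a| ^ 2 := by
  -- the function r(x) = sigmoid s - sigmoid x - sg1 s * (s - x) has derivative sg1 s - sg1 x
  have hder : ∀ x, HasDerivAt (fun x => Real.sigmoid s - Real.sigmoid x - sg1 s * (s - x))
      (sg1 s - sg1 x) x := by
    intro x
    have h1 : HasDerivAt (fun x => Real.sigmoid s - Real.sigmoid x)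
      (-(Real.sigmoid x * (1 - Real.sigmoid x))) x :=
      (hasDerivAt_sigmoid x).const_sub (Real.sigmoid s)
    have h2 : HasDerivAt (fun x => sg1 s * (s - x)) (sg1 s * (-1)) x :=
      ((hasDerivAt_id x).const_sub s).const_mul (sg1 s)
    have h3 := h1.sub h2
    have e : sg1 s - sg1 x = -(Real.sigmoid x * (1 - Real.sigmoid x)) - sg1 s * (-1) := by
      rw [show sg1 x = Real.sigmoid x * (1 - Real.sigmoid x) from rfl]
      ring
    rw [e]
    exact h3
  have hconv : Convex ℝ (Set.uIcc a s) := convex_uIcc a s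
  have hb : ∀ x ∈ Set.uIcc a s, ‖sg1 s - sg1 x‖ ≤ |s - a| := by
    intro x hx
    rw [Real.norm_eq_abs]
    refine (sg1_lip s x).trans ?_
    exact Set.abs_sub_right_of_mem_uIcc hx
  have h3 := hconv.norm_image_sub_le_of_norm_hasDerivWithin_le
    (fun x _ => (hder x).hasDerivWithinAt) hb (Set.right_mem_uIcc) (Set.left_mem_uIcc)
  simp only [sub_self, mul_zero, sub_zero] at h3
  rw [Real.norm_eq_abs, Real.norm_eq_abs] at h3
  calc _ ≤ |s - a| * |a - s| := h3
    _ = _ := by rw [abs_sub_comm a s]; ring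

/-- trapezoid rule for softplus -/
lemma sp_trap (a b : ℝ) :
    |sp b - sp a - (1 / 2) * ((Real.sigmoid a + Real.sigmoid b) * (b - a))| ≤ |b - a| ^ 3 := by
  have hder : ∀ x, HasDerivAt (fun x => sp x - sp a -
      (1 / 2) * ((Real.sigmoid a + Real.sigmoid x) * (x - a)))
      ((1 / 2) * (Real.sigmoid x - Real.sigmoid a - sg1 x * (x - a))) x := by
    intro x
    have h1 : HasDerivAt (fun x => sp x - sp a) (Real.sigmoid x) x :=
      (sp_hasDerivAt x).sub_const (sp a)
    have h2 : HasDerivAt (fun x => Real.sigmoid a + Real.sigmoid x)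
      (Real.sigmoid x * (1 - Real.sigmoid x)) x :=
      ((hasDerivAt_sigmoid x).const_add (Real.sigmoid a))
    have h3 : HasDerivAt (fun x => (1 / 2) * ((Real.sigmoid a + Real.sigmoid x) * (x - a)))
      ((1 / 2) * ((Real.sigmoid x * (1 - Real.sigmoid x)) * (x - a) +
        (Real.sigmoid a + Real.sigmoid x) * 1)) x :=
      (h2.mul ((hasDerivAt_id x).sub_const a)).const_mul (1 / 2)
    have h4 := h1.sub h3
    have e : (1 / 2) * (Real.sigmoid x - Real.sigmoid a - sg1 x * (x - a)) =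
      Real.sigmoid x - (1 / 2) * ((Real.sigmoid x * (1 - Real.sigmoid x)) * (x - a) +
        (Real.sigmoid a + Real.sigmoid x) * 1) := by
      rw [show sg1 x = Real.sigmoid x * (1 - Real.sigmoid x) from rfl]
      ring
    rw [e]
    exact h4
  have hconv : Convex ℝ (Set.uIcc a b) := convex_uIcc a b
  have hb : ∀ x ∈ Set.uIcc a b,
      ‖(1 / 2) * (Real.sigmoid x - Real.sigmoid a - sg1 x * (x - a))‖ ≤ |b - a| ^ 2 := by
    intro x hx
    rw [Real.norm_eq_abs, abs_mul, abs_of_pos (by norm_num : (0 : ℝ) < 1 / 2)]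
    have h4 := sig_rem a x
    have h5 : |x - a| ≤ |b - a| := by
      rw [abs_sub_comm x a, abs_sub_comm b a]
      have := Set.abs_sub_left_of_mem_uIcc hx
      rw [abs_sub_comm x a] at this
      rwa [abs_sub_comm a b]
    have h6 : |x - a| ^ 2 ≤ |b - a| ^ 2 := pow_le_pow_left₀ (abs_nonneg _) h5 2
    have h7 : 0 ≤ |Real.sigmoid x - Real.sigmoid a - sg1 x * (x - a)| := abs_nonneg _
    linarith
  have h3 := hconv.norm_image_sub_le_of_norm_hasDerivWithin_le
    (fun x _ => (hder x).hasDerivWithinAt) hb (Set.left_mem_uIcc) (Set.right_mem_uIcc)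
  simp only [sub_self, mul_zero, sub_zero] at h3
  rw [Real.norm_eq_abs, Real.norm_eq_abs] at h3
  calc _ ≤ |b - a| ^ 2 * |b - a| := h3
    _ = _ := by ring

section pot

variable {E : Type*} [NormedAddCommGroup E] [InnerProductSpace ℝ E] [FiniteDimensional ℝ E]
  [MeasurableSpace E] [BorelSpace E] {K : Type*} [Fintype K]

/-- softplus potential -/
noncomputable def Vs (kap : ℝ) (y b : E) (c : K → ℝ) (u : K → E) (x : E) : ℝ :=
  kap / 2 * ‖x - y‖ ^ 2 + inner ℝ b x + ∑ k, c k * sp (inner ℝ (u k) x)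

/-- its gradient -/
noncomputable def Ds (kap : ℝ) (y b : E) (c : K → ℝ) (u : K → E) (x : E) : E :=
  kap • (x - y) + b + ∑ k, (c k * Real.sigmoid (inner ℝ (u k) x)) • u k

lemma sig_slope (a b : ℝ) : ∃ s : ℝ, 0 ≤ s ∧ s ≤ 1 ∧
    Real.sigmoid a - Real.sigmoid b = s * (a - b) := by
  rcases eq_or_ne a b with h | h
  · exact ⟨0, le_refl _, zero_le_one, by rw [h]; ring⟩
  · refine ⟨(Real.sigmoid a - Real.sigmoid b) / (a - b), ?_, ?_, ?_⟩
    · rcases lt_or_gt_of_ne h with h1 | h1
      · apply div_nonneg_of_nonpos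
        · linarith [Real.sigmoid_le h1.le]
        · linarith
      · apply div_nonneg
        · linarith [Real.sigmoid_le h1.le]
        · linarith
    · have h1 := sig_lip a b
      have h2 : 0 < |a - b| := abs_pos.mpr (sub_ne_zero.mpr h)
      refine (le_abs_self _).trans ?_
      rw [abs_div, div_le_one h2]
      exact h1
    · field_simp [sub_ne_zero.mpr h]

theorem soft_pot {kap : ℝ} (hk : 0 < kap) (y b : E) {c : K → ℝ} (hc : ∀ k, 0 ≤ c k)
    (u : K → E) :
    Pot (Vs kap y b c u) (Ds kap y b c u) kap (kap + ∑ k, c k * ‖u k‖ ^ 2)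
      (∑ k, c k * ‖u k‖ ^ 3) := by
  have hS : 0 ≤ ∑ k, c k * ‖u k‖ ^ 2 :=
    Finset.sum_nonneg fun k _ => mul_nonneg (hc k) (by positivity)
  -- difference of gradients
  have hdiff : ∀ x x' : E, ∃ w : K → ℝ, (∀ k, 0 ≤ w k) ∧ (∀ k, w k ≤ c k) ∧
      Ds kap y b c u x - Ds kap y b c u x' = kap • (x - x') +
        ∑ k, (w k * inner ℝ (u k) (x - x')) • u k := by
    intro x x'
    choose s hs0 hs1 hs using fun k => sig_slope (inner ℝ (u k) x) (inner ℝ (u k) x')
    refine ⟨fun k => c k * s k, fun k => mul_nonneg (hc k) (hs0 k),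
      fun k => mul_le_of_le_one_right (hc k) (hs1 k), ?_⟩
    unfold Ds
    have e : kap • (x - y) + b + ∑ k, (c k * Real.sigmoid (inner ℝ (u k) x)) • u k -
        (kap • (x' - y) + b + ∑ k, (c k * Real.sigmoid (inner ℝ (u k) x')) • u k) =
        kap • (x - x') + (∑ k, (c k * Real.sigmoid (inner ℝ (u k) x)) • u k -
          ∑ k, (c k * Real.sigmoid (inner ℝ (u k) x')) • u k) := by
      rw [smul_sub, smul_sub, smul_sub]
      abel
    rw [e, ← Finset.sum_sub_distrib]
    congr 1
    apply Finset.sum_congr rfl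
    intro k _
    rw [← sub_smul, ← mul_sub, hs k, inner_sub_right]
    congr 1
    ring
  have hMv : ∀ (w : K → ℝ), (∀ k, 0 ≤ w k) → (∀ k, w k ≤ c k) → ∀ v : E,
      ‖∑ k, (w k * inner ℝ (u k) v) • u k‖ ^ 2 ≤
        (∑ k, c k * ‖u k‖ ^ 2) * ∑ k, w k * (inner ℝ (u k) v) ^ 2 := by
    intro w hw0 hw1 v
    have h1 : ‖∑ k, (w k * inner ℝ (u k) v) • u k‖ ≤
        ∑ k, (Real.sqrt (w k) * ‖u k‖) * (Real.sqrt (w k) * |inner ℝ (u k) v|) := by
      refine (norm_sum_le _ _).trans (Finset.sum_le_sum fun k _ => ?_)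
      rw [norm_smul, Real.norm_eq_abs, abs_mul, abs_of_nonneg (hw0 k)]
      have : Real.sqrt (w k) * Real.sqrt (w k) = w k := Real.mul_self_sqrt (hw0 k)
      apply le_of_eq
      calc w k * |inner ℝ (u k) v| * ‖u k‖ = (Real.sqrt (w k) * Real.sqrt (w k)) *
            |inner ℝ (u k) v| * ‖u k‖ := by rw [this]
        _ = _ := by ring
    have h2 := Finset.sum_mul_sq_le_sq_mul_sq Finset.univ (fun k => Real.sqrt (w k) * ‖u k‖)
      (fun k => Real.sqrt (w k) * |inner ℝ (u k) v|)
    have h3 : ∑ k, (Real.sqrt (w k) * ‖u k‖) ^ 2 ≤ ∑ k, c k * ‖u k‖ ^ 2 := by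
      apply Finset.sum_le_sum
      intro k _
      rw [mul_pow, Real.sq_sqrt (hw0 k)]
      exact mul_le_mul_of_nonneg_right (hw1 k) (by positivity)
    have h4 : ∑ k, (Real.sqrt (w k) * |inner ℝ (u k) v|) ^ 2 = ∑ k, w k * (inner ℝ (u k) v) ^ 2 := by
      apply Finset.sum_congr rfl
      intro k _
      rw [mul_pow, Real.sq_sqrt (hw0 k), sq_abs]
    rw [h4] at h2
    have h5 : 0 ≤ ∑ k, w k * (inner ℝ (u k) v) ^ 2 :=
      Finset.sum_nonneg fun k _ => mul_nonneg (hw0 k) (by positivity)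
    calc _ ≤ (∑ k, (Real.sqrt (w k) * ‖u k‖) * (Real.sqrt (w k) * |inner ℝ (u k) v|)) ^ 2 :=
          pow_le_pow_left₀ (norm_nonneg _) h1 2
      _ ≤ _ := h2
      _ ≤ _ := mul_le_mul_of_nonneg_right h3 h5
  refine ⟨hk, by positivity, ?_, ?_, ?_, ?_, ?_, ?_, ?_⟩
  · exact Finset.sum_nonneg fun k _ => mul_nonneg (hc k) (by positivity)
  · unfold Vs
    have := sp_continuous
    fun_prop
  · unfold Ds
    apply ContDiff.add
    · apply ContDiff.add
      · exact (contDiff_id.sub contDiff_const).const_smul kap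
      · exact contDiff_const
    · apply ContDiff.sum
      intro k _
      apply ContDiff.smul _ contDiff_const
      apply ContDiff.mul contDiff_const
      have h1 : ContDiff ℝ 1 Real.sigmoid := contDiff_sigmoid.of_le (by exact le_top)
      exact h1.comp ((innerSL ℝ (u k)).contDiff)
  · intro x x'
    have e : Vs kap y b c u x' - Vs kap y b c u x -
        (1 / 2) * inner ℝ (Ds kap y b c u x + Ds kap y b c u x') (x' - x) =
        ∑ k, c k * (sp (inner ℝ (u k) x') - sp (inner ℝ (u k) x) -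
          (1 / 2) * ((Real.sigmoid (inner ℝ (u k) x) + Real.sigmoid (inner ℝ (u k) x')) *
            (inner ℝ (u k) x' - inner ℝ (u k) x))) := by
      have hq : ‖x' - y‖ ^ 2 - ‖x - y‖ ^ 2 = inner ℝ ((x - y) + (x' - y)) (x' - x) := by
        have h1 : x' - x = (x' - y) - (x - y) := by abel
        rw [h1]
        generalize x - y = p
        generalize x' - y = q
        rw [inner_add_left, inner_sub_right, inner_sub_right, real_inner_self_eq_norm_sq,
          real_inner_self_eq_norm_sq, real_inner_comm q p]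
        ring
      have hD : Ds kap y b c u x + Ds kap y b c u x' = kap • ((x - y) + (x' - y)) + (2 : ℝ) • b +
          ∑ k, (c k * (Real.sigmoid (inner ℝ (u k) x) + Real.sigmoid (inner ℝ (u k) x'))) • u k := by
        unfold Ds
        rw [smul_add, two_smul]
        have : ∑ k, (c k * (Real.sigmoid (inner ℝ (u k) x) +
            Real.sigmoid (inner ℝ (u k) x'))) • u k =
            ∑ k, (c k * Real.sigmoid (inner ℝ (u k) x)) • u k +
            ∑ k, (c k * Real.sigmoid (inner ℝ (u k) x')) • u k := by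
          rw [← Finset.sum_add_distrib]
          apply Finset.sum_congr rfl
          intro k _
          rw [← add_smul, mul_add]
        rw [this]
        abel
      rw [hD, inner_add_left, inner_add_left, inner_smul_left, inner_smul_left, sum_inner]
      simp only [inner_smul_left, conj_trivial]
      unfold Vs
      have h2 : ∑ k, c k * (sp (inner ℝ (u k) x') - sp (inner ℝ (u k) x) -
          (1 / 2) * ((Real.sigmoid (inner ℝ (u k) x) + Real.sigmoid (inner ℝ (u k) x')) *
            (inner ℝ (u k) x' - inner ℝ (u k) x))) =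
          ∑ k, c k * sp (inner ℝ (u k) x') - ∑ k, c k * sp (inner ℝ (u k) x) -
          (1 / 2) * ∑ k, c k * (Real.sigmoid (inner ℝ (u k) x) +
            Real.sigmoid (inner ℝ (u k) x')) * inner ℝ (u k) (x' - x) := by
        rw [Finset.mul_sum, ← Finset.sum_sub_distrib, ← Finset.sum_sub_distrib]
        apply Finset.sum_congr rfl
        intro k _
        rw [inner_sub_right]
        ring
      rw [h2, ← hq, inner_sub_right b]
      ring
    rw [e]
    refine (Finset.abs_sum_le_sum_abs _ _).trans ?_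
    rw [Finset.sum_mul]
    apply Finset.sum_le_sum
    intro k _
    rw [abs_mul, abs_of_nonneg (hc k), mul_assoc]
    apply mul_le_mul_of_nonneg_left _ (hc k)
    refine (sp_trap _ _).trans ?_
    rw [← mul_pow, ← inner_sub_right]
    exact pow_le_pow_left₀ (abs_nonneg _) (abs_real_inner_le_norm _ _) 3
  · intro x x'
    obtain ⟨w, hw0, hw1, hw⟩ := hdiff x x'
    rw [hw]
    refine (norm_add_le _ _).trans ?_
    rw [norm_smul, Real.norm_eq_abs, abs_of_pos hk, add_mul]
    apply add_le_add_right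
    refine (norm_sum_le _ _).trans ?_
    rw [Finset.sum_mul]
    apply Finset.sum_le_sum
    intro k _
    rw [norm_smul, Real.norm_eq_abs, abs_mul, abs_of_nonneg (hw0 k)]
    calc w k * |inner ℝ (u k) (x - x')| * ‖u k‖ ≤ c k * (‖u k‖ * ‖x - x'‖) * ‖u k‖ := by
          gcongr
          · exact hc k
          · exact hw1 k
          · exact abs_real_inner_le_norm _ _
      _ = _ := by ring
  · intro h hh h1 x x'
    obtain ⟨w, hw0, hw1, hw⟩ := hdiff x x'
    set v := x - x' with hv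
    set Mv := ∑ k, (w k * inner ℝ (u k) v) • u k with hMvdef
    set S := ∑ k, c k * ‖u k‖ ^ 2 with hSdef
    have hb1 := hMv w hw0 hw1 v
    rw [← hMvdef] at hb1
    have hin : inner ℝ v Mv = ∑ k, w k * (inner ℝ (u k) v) ^ 2 := by
      rw [hMvdef, inner_sum]
      apply Finset.sum_congr rfl
      intro k _
      rw [inner_smul_right, real_inner_comm]
      ring
    have hin0 : 0 ≤ inner ℝ v Mv := by
      rw [hin]
      exact Finset.sum_nonneg fun k _ => mul_nonneg (hw0 k) (by positivity)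
    rw [← hin] at hb1
    have ha : 0 ≤ 1 - kap * h := by nlinarith
    have hhS : h * S ≤ 1 - kap * h := by nlinarith
    have e : (x - h • Ds kap y b c u x) - (x' - h • Ds kap y b c u x') =
        (1 - kap * h) • v - h • Mv := by
      have : (x - h • Ds kap y b c u x) - (x' - h • Ds kap y b c u x') =
        v - h • (Ds kap y b c u x - Ds kap y b c u x') := by
        rw [hv, smul_sub]; abel
      rw [this, hw, smul_add, smul_smul, sub_smul, one_smul, mul_comm kap h]
      abel
    rw [e]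
    apply abs_le_of_sq_le_sq' _ (by positivity) |>.2
    rw [norm_sub_sq_real, norm_smul, norm_smul, inner_smul_left, inner_smul_right, mul_pow, mul_pow,
      mul_pow, Real.norm_eq_abs, Real.norm_eq_abs, sq_abs, sq_abs, conj_trivial]
    have h5 : h ^ 2 * ‖Mv‖ ^ 2 ≤ h ^ 2 * (S * inner ℝ v Mv) :=
      mul_le_mul_of_nonneg_left hb1 (by positivity)
    have h6 : h ^ 2 * (S * inner ℝ v Mv) ≤ h * (1 - kap * h) * inner ℝ v Mv := by
      have : h ^ 2 * (S * inner ℝ v Mv) = h * (h * S) * inner ℝ v Mv := by ring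
      rw [this]
      apply mul_le_mul_of_nonneg_right _ hin0
      exact mul_le_mul_of_nonneg_left hhS hh
    have h7 : 0 ≤ h * (1 - kap * h) * inner ℝ v Mv := by positivity
    nlinarith
  · -- moments
    have hb : ∀ x : E, Real.exp (-Vs kap y b c u x) * (1 + ‖x‖) ^ 4 ≤
        (Real.exp (kap / 2 * ‖y‖ ^ 2 + 4 * ‖b‖ ^ 2 / kap) * (8 + 16 / (kap / 16) ^ 2)) *
          Real.exp (-(kap / 8) * ‖x‖ ^ 2) := by
      intro x
      have h1 : 0 ≤ ∑ k, c k * sp (inner ℝ (u k) x) :=
        Finset.sum_nonneg fun k _ => mul_nonneg (hc k) (sp_nonneg _)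
      have h2 : ‖x‖ ^ 2 / 2 - ‖y‖ ^ 2 ≤ ‖x - y‖ ^ 2 := by
        have h3 : ‖x‖ ≤ ‖x - y‖ + ‖y‖ := by
          have := norm_add_le (x - y) y
          rwa [sub_add_cancel] at this
        have h4 : ‖x‖ ^ 2 ≤ (‖x - y‖ + ‖y‖) ^ 2 := pow_le_pow_left₀ (norm_nonneg _) h3 2
        nlinarith [sq_nonneg (‖x - y‖ - ‖y‖)]
      have h3 : -(‖b‖ * ‖x‖) ≤ inner ℝ b x := by
        have := abs_real_inner_le_norm b x
        exact (abs_le.mp this).1
      have h4 : ‖b‖ * ‖x‖ ≤ kap / 16 * ‖x‖ ^ 2 + 4 * ‖b‖ ^ 2 / kap := by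
        have : kap / 16 * ‖x‖ ^ 2 + 4 * ‖b‖ ^ 2 / kap - ‖b‖ * ‖x‖ =
          (kap / 4 * ‖x‖ - 2 * ‖b‖) ^ 2 / kap := by
          field_simp
          ring
        have h5 : 0 ≤ (kap / 4 * ‖x‖ - 2 * ‖b‖) ^ 2 / kap := by positivity
        linarith
      have h5 : -Vs kap y b c u x ≤ (kap / 2 * ‖y‖ ^ 2 + 4 * ‖b‖ ^ 2 / kap) -
          kap / 4 * ‖x‖ ^ 2 + kap / 16 * ‖x‖ ^ 2 := by
        unfold Vs
        nlinarith
      have h6 := growth_bound (s := kap / 16) (r := ‖x‖) (by positivity) (norm_nonneg _)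
      calc Real.exp (-Vs kap y b c u x) * (1 + ‖x‖) ^ 4
          ≤ Real.exp ((kap / 2 * ‖y‖ ^ 2 + 4 * ‖b‖ ^ 2 / kap) -
            kap / 4 * ‖x‖ ^ 2 + kap / 16 * ‖x‖ ^ 2) *
            ((8 + 16 / (kap / 16) ^ 2) * Real.exp (kap / 16 * ‖x‖ ^ 2)) :=
            mul_le_mul (Real.exp_le_exp.mpr h5) h6 (by positivity) (Real.exp_pos _).le
        _ = _ := by
            rw [show (kap / 2 * ‖y‖ ^ 2 + 4 * ‖b‖ ^ 2 / kap) -
              kap / 4 * ‖x‖ ^ 2 + kap / 16 * ‖x‖ ^ 2 = (kap / 2 * ‖y‖ ^ 2 + 4 * ‖b‖ ^ 2 / kap) +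
              (-(kap / 8) * ‖x‖ ^ 2 - kap / 16 * ‖x‖ ^ 2) by ring, Real.exp_add, Real.exp_sub]
            have := Real.exp_pos (kap / 16 * ‖x‖ ^ 2)
            field_simp
    have hint : Integrable (fun x : E =>
        (Real.exp (kap / 2 * ‖y‖ ^ 2 + 4 * ‖b‖ ^ 2 / kap) * (8 + 16 / (kap / 16) ^ 2)) *
          Real.exp (-(kap / 8) * ‖x‖ ^ 2)) :=
      (gexp_integrable (by positivity : 0 < kap / 8)).const_mul _
    refine lt_of_le_of_lt (lintegral_mono fun x => ENNReal.ofReal_le_ofReal (hb x)) ?_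
    exact hint.lintegral_lt_top

end pot

end Pool.Agent.Lib.MP_6d896a_gt
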