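import Mathlib
import Pool.Agent.Lib.MP_6d896a_gt.Bias

/-!
Integrals against the target measure.
-/

set_option autoImplicit false

namespace Pool.Agent.Lib.MP_6d896a_gt

open MeasureTheory ProbabilityTheory Real Filter Topology
open scoped ENNReal

variable {n : ℕ}

lemma integral_tgt {V : EuclideanSpace ℝ (Fin n) → ℝ} (hV : Continuous V)
    (F : EuclideanSpace ℝ (Fin n) → ℝ) :
    ∫ x, F x ∂(tgt V) = ∫ x, F x * Real.exp (-V x) := by
  unfold tgt
  have e3 : (fun x => ENNReal.ofReal (Real.exp (-V x))) =
      fun x => ((Real.toNNReal (Real.exp (-V x)) : NNReal) : ℝ≥0∞) := rfl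
  have hm : Measurable (fun x => Real.toNNReal (Real.exp (-V x))) :=
    (Real.measurable_exp.comp hV.measurable.neg).real_toNNReal
  rw [e3, integral_withDensity_eq_integral_smul hm]
  congr 1
  funext x
  rw [NNReal.smul_def, Real.coe_toNNReal _ (Real.exp_pos _).le, smul_eq_mul, mul_comm]

end Pool.Agent.Lib.MP_6d896a_gt
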