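import Mathlib
import Pool.Agent.Lib.MP_6d896a_gt.Softplus
import Pool.Agent.Lib.MP_6d896a_gt.TgtInt

/-!
`L^1` Poincare inequality for a Gaussian times independent logistic variables, conditioned on
order constraints.
-/

namespace Pool.Agent.Lib.MP_6d896a_gt

open MeasureTheory ProbabilityTheory Real Filter Topology
open scoped ENNReal

variable {n : ℕ}

/-- logistic density -/
noncomputable def ld1 (t : ℝ) : ℝ := Real.exp t / (1 + Real.exp t) ^ 2

/-- product of logistic densities -/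
noncomputable def ld (x : EuclideanSpace ℝ (Fin n)) : ℝ := ∏ i, ld1 (x i)

/-- the order cone in Euclidean space -/
def CE (R : Fin n → Fin n → Prop) : Set (EuclideanSpace ℝ (Fin n)) :=
  {x | ∀ i j, R i j → x i ≤ x j}

lemma ld1_pos (t : ℝ) : 0 < ld1 t := by unfold ld1; positivity

lemma ld1_le (t : ℝ) : ld1 t ≤ 1 := by
  unfold ld1
  rw [div_le_one (by positivity)]
  have := Real.exp_pos t
  nlinarith

lemma ld1_continuous : Continuous ld1 := by
  unfold ld1
  apply Continuous.div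
  · fun_prop
  · fun_prop
  · intro t; positivity

lemma ld_pos (x : EuclideanSpace ℝ (Fin n)) : 0 < ld x := Finset.prod_pos fun _ _ => ld1_pos _

lemma ld_le (x : EuclideanSpace ℝ (Fin n)) : ld x ≤ 1 :=
  Finset.prod_le_one (fun _ _ => (ld1_pos _).le) fun _ _ => ld1_le _

lemma ld_continuous : Continuous (ld : EuclideanSpace ℝ (Fin n) → ℝ) := by
  unfold ld
  apply continuous_finsetProd
  intro i _
  exact ld1_continuous.comp (EuclideanSpace.proj (𝕜 := ℝ) i).continuous

open Classical in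
/-- smooth penalisation of the constraints -/
noncomputable def Sb (R : Fin n → Fin n → Prop) (β : ℝ) (x : EuclideanSpace ℝ (Fin n)) : ℝ :=
  ∏ p : Fin n × Fin n, if R p.1 p.2 ∧ p.1 ≠ p.2 then (1 + Real.exp (β * (x p.1 - x p.2)))⁻¹ else 1

lemma Sb_pos (R : Fin n → Fin n → Prop) (β : ℝ) (x : EuclideanSpace ℝ (Fin n)) :
    0 < Sb R β x := by
  unfold Sb
  apply Finset.prod_pos
  intro p _
  split_ifs
  · positivity
  · exact zero_lt_one

lemma Sb_le (R : Fin n → Fin n → Prop) (β : ℝ) (x : EuclideanSpace ℝ (Fin n)) :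
    Sb R β x ≤ 1 := by
  unfold Sb
  apply Finset.prod_le_one
  · intro p _
    split_ifs
    · positivity
    · exact zero_le_one
  · intro p _
    split_ifs
    · apply inv_le_one_of_one_le₀
      have := Real.exp_pos (β * (x p.1 - x p.2))
      linarith
    · exact le_refl _

lemma Sb_continuous (R : Fin n → Fin n → Prop) (β : ℝ) : Continuous (Sb R β) := by
  unfold Sb
  apply continuous_finsetProd
  intro p _
  split_ifs
  · apply Continuous.inv₀
    · have h1 := (EuclideanSpace.proj p.1 : EuclideanSpace ℝ (Fin n) →L[ℝ] ℝ).continuous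
      have h2 := (EuclideanSpace.proj p.2 : EuclideanSpace ℝ (Fin n) →L[ℝ] ℝ).continuous
      exact continuous_const.add (Real.continuous_exp.comp (continuous_const.mul (h1.sub h2)))
    · intro x; positivity
  · exact continuous_const

open Classical in
/-- coefficients of the softplus potential -/
noncomputable def cc (R : Fin n → Fin n → Prop) : Fin n ⊕ (Fin n × Fin n) → ℝ
  | Sum.inl _ => 2
  | Sum.inr p => if R p.1 p.2 ∧ p.1 ≠ p.2 then 1 else 0

/-- directions of the softplus potential -/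
noncomputable def uu (β : ℝ) : Fin n ⊕ (Fin n × Fin n) → EuclideanSpace ℝ (Fin n)
  | Sum.inl i => EuclideanSpace.single i 1
  | Sum.inr p => β • (EuclideanSpace.single p.1 1 - EuclideanSpace.single p.2 1)

/-- linear part -/
noncomputable def bb (n : ℕ) : EuclideanSpace ℝ (Fin n) := WithLp.toLp 2 fun _ => -1

lemma cc_nonneg (R : Fin n → Fin n → Prop) (k : Fin n ⊕ (Fin n × Fin n)) : 0 ≤ cc R k := by
  cases k with
  | inl i => simp [cc]
  | inr p => simp only [cc]; split_ifs <;> norm_num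

open Classical in
lemma exp_neg_Vs (R : Fin n → Fin n → Prop) (kap : ℝ) (y : EuclideanSpace ℝ (Fin n)) (β : ℝ)
    (x : EuclideanSpace ℝ (Fin n)) :
    Real.exp (-Vs kap y (bb n) (cc R) (uu β) x) =
      Real.exp (-(kap / 2) * ‖x - y‖ ^ 2) * ld x * Sb R β x := by
  unfold Vs
  rw [Fintype.sum_sum_type]
  simp only [cc, uu]
  have e1 : inner ℝ (bb n) x = - ∑ i, x i := by
    unfold bb
    rw [PiLp.inner_apply]
    simp
  have e2 : ∀ i : Fin n, inner ℝ (EuclideanSpace.single i (1 : ℝ)) x = x i := by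
    intro i
    rw [EuclideanSpace.inner_single_left]; simp
  simp only [inner_smul_left, inner_sub_left, e1, e2, conj_trivial]
  have e3 : ∀ t : ℝ, Real.exp (-(2 * sp t)) * Real.exp t = ld1 t := by
    intro t
    unfold sp ld1
    rw [show -(2 * Real.log (1 + Real.exp t)) = Real.log (((1 + Real.exp t) ^ 2)⁻¹) by
      rw [Real.log_inv, Real.log_pow]; push_cast; ring, Real.exp_log (by positivity)]
    field_simp
  have e4 : ∀ t : ℝ, Real.exp (-sp t) = (1 + Real.exp t)⁻¹ := by
    intro t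
    unfold sp
    rw [← Real.log_inv, Real.exp_log (by positivity)]
  have e5 : ld x = Real.exp (∑ i, x i) * Real.exp (-∑ i : Fin n, 2 * sp (x i)) := by
    unfold ld
    rw [← Finset.sum_neg_distrib, Real.exp_sum, Real.exp_sum, ← Finset.prod_mul_distrib]
    apply Finset.prod_congr rfl
    intro i _
    rw [← e3, mul_comm]
  have e6 : Sb R β x = Real.exp (-∑ p : Fin n × Fin n, (if R p.1 p.2 ∧ p.1 ≠ p.2 then 1 else 0) *
      sp (β * (x p.1 - x p.2))) := by
    unfold Sb
    rw [← Finset.sum_neg_distrib, Real.exp_sum]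
    apply Finset.prod_congr rfl
    intro p _
    by_cases hp : R p.1 p.2 ∧ p.1 ≠ p.2
    · rw [if_pos hp, if_pos hp, one_mul, e4]
    · rw [if_neg hp, if_neg hp, zero_mul, neg_zero, Real.exp_zero]
  rw [e5, e6, ← Real.exp_add, ← Real.exp_add, ← Real.exp_add]
  congr 1
  ring

/-- limit weight -/
noncomputable def Wl (R : Fin n → Fin n → Prop) (x : EuclideanSpace ℝ (Fin n)) : ℝ :=
  Set.indicator (CE R) (fun x => ld x) x

lemma CE_measurable (R : Fin n → Fin n → Prop) : MeasurableSet (CE R) := by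
  have : CE R = ⋂ i, ⋂ j, {x : EuclideanSpace ℝ (Fin n) | R i j → x i ≤ x j} := by
    ext x; simp [CE]
  rw [this]
  refine MeasurableSet.iInter fun i => MeasurableSet.iInter fun j => ?_
  by_cases h : R i j
  · have : {x : EuclideanSpace ℝ (Fin n) | R i j → x i ≤ x j} = {x | x i ≤ x j} := by
      ext x; simp [h]
    rw [this]
    exact measurableSet_le (EuclideanSpace.proj (𝕜 := ℝ) i).continuous.measurable
      (EuclideanSpace.proj (𝕜 := ℝ) j).continuous.measurable
  · have : {x : EuclideanSpace ℝ (Fin n) | R i j → x i ≤ x j} = Set.univ := by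
      ext x; simp [h]
    rw [this]
    exact MeasurableSet.univ

lemma Wl_nonneg (R : Fin n → Fin n → Prop) (x : EuclideanSpace ℝ (Fin n)) : 0 ≤ Wl R x :=
  Set.indicator_nonneg (fun x _ => (ld_pos x).le) x

open Classical in
lemma Wl_le (R : Fin n → Fin n → Prop) (x : EuclideanSpace ℝ (Fin n)) : Wl R x ≤ 1 := by
  unfold Wl
  rw [Set.indicator_apply]
  split_ifs
  · exact ld_le x
  · exact zero_le_one

lemma Wl_measurable (R : Fin n → Fin n → Prop) : Measurable (Wl R) :=
  ld_continuous.measurable.indicator (CE_measurable R)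

lemma coord_ne_ae (i j : Fin n) (hij : i ≠ j) :
    ∀ᵐ x ∂(volume : Measure (EuclideanSpace ℝ (Fin n))), x i ≠ x j := by
  let s : Submodule ℝ (EuclideanSpace ℝ (Fin n)) :=
    { carrier := {x | x i = x j}
      add_mem' := by
        intro a b ha hb
        simp only [Set.mem_ofPred_eq, PiLp.add_apply] at *
        rw [ha, hb]
      zero_mem' := by simp
      smul_mem' := by
        intro c a ha
        simp only [Set.mem_ofPred_eq, PiLp.smul_apply] at *
        rw [ha] }
  have hs : s ≠ ⊤ := by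
    intro h
    have h1 : EuclideanSpace.single i (1 : ℝ) ∈ s := by rw [h]; trivial
    have h2 : (EuclideanSpace.single i (1 : ℝ)) i = (EuclideanSpace.single i (1 : ℝ)) j := h1
    simp [Ne.symm hij] at h2
  have h3 := Measure.addHaar_submodule (volume : Measure (EuclideanSpace ℝ (Fin n))) s hs
  exact measure_eq_zero_iff_ae_notMem.mp h3

lemma Sb_tendsto (R : Fin n → Fin n → Prop) {x : EuclideanSpace ℝ (Fin n)}
    (hx : ∀ i j, i ≠ j → x i ≠ x j) :
    Tendsto (fun k : ℕ => ld x * Sb R (k : ℝ) x) atTop (𝓝 (Wl R x)) := by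
  classical
  have hfac : ∀ p : Fin n × Fin n, R p.1 p.2 ∧ p.1 ≠ p.2 →
      Tendsto (fun k : ℕ => (1 + Real.exp ((k : ℝ) * (x p.1 - x p.2)))⁻¹) atTop
        (𝓝 (if x p.1 ≤ x p.2 then 1 else 0)) := by
    intro p hp
    rcases lt_or_gt_of_ne (hx p.1 p.2 hp.2) with h | h
    · rw [if_pos h.le]
      have h1 : Tendsto (fun k : ℕ => (k : ℝ) * (x p.1 - x p.2)) atTop atBot :=
        tendsto_natCast_atTop_atTop.atTop_mul_const_of_neg (by linarith)
      have h2 := (Real.tendsto_exp_atBot.comp h1).const_add 1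
      rw [add_zero] at h2
      have h3 := h2.inv₀ one_ne_zero
      rw [inv_one] at h3
      exact h3
    · rw [if_neg (not_le.mpr h)]
      have h1 : Tendsto (fun k : ℕ => (k : ℝ) * (x p.1 - x p.2)) atTop atTop :=
        tendsto_natCast_atTop_atTop.atTop_mul_const (by linarith)
      have h2 : Tendsto (fun k : ℕ => 1 + Real.exp ((k : ℝ) * (x p.1 - x p.2))) atTop atTop :=
        tendsto_atTop_add_const_left _ _ (Real.tendsto_exp_atTop.comp h1)
      exact tendsto_inv_atTop_zero.comp h2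
  have hprod : Tendsto (fun k : ℕ => Sb R (k : ℝ) x) atTop
      (𝓝 (∏ p : Fin n × Fin n, if R p.1 p.2 ∧ p.1 ≠ p.2 then (if x p.1 ≤ x p.2 then 1 else 0)
        else (1 : ℝ))) := by
    unfold Sb
    apply tendsto_finsetProd
    intro p _
    by_cases hp : R p.1 p.2 ∧ p.1 ≠ p.2
    · simp only [if_pos hp]
      exact hfac p hp
    · simp only [if_neg hp]
      exact tendsto_const_nhds
  have hval : (∏ p : Fin n × Fin n, if R p.1 p.2 ∧ p.1 ≠ p.2 then (if x p.1 ≤ x p.2 then 1 else 0)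
        else (1 : ℝ)) = if x ∈ CE R then 1 else 0 := by
    by_cases hxC : x ∈ CE R
    · rw [if_pos hxC]
      apply Finset.prod_eq_one
      intro p _
      by_cases hp : R p.1 p.2 ∧ p.1 ≠ p.2
      · rw [if_pos hp, if_pos (hxC p.1 p.2 hp.1)]
      · rw [if_neg hp]
    · rw [if_neg hxC]
      have : ∃ i j, R i j ∧ ¬ x i ≤ x j := by
        by_contra hcon
        push Not at hcon
        exact hxC fun i j hij => hcon i j hij
      obtain ⟨i, j, hij, hlt⟩ := this
      apply Finset.prod_eq_zero (Finset.mem_univ (i, j))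
      have hne : i ≠ j := by
        rintro rfl
        exact hlt le_rfl
      rw [if_pos ⟨hij, hne⟩, if_neg hlt]
  rw [hval] at hprod
  have h := hprod.const_mul (ld x)
  unfold Wl
  rw [Set.indicator_apply]
  by_cases hxC : x ∈ CE R
  · rw [if_pos hxC] at h ⊢
    rwa [mul_one] at h
  · rw [if_neg hxC] at h ⊢
    rwa [mul_zero] at h

/-- convergence of weighted integrals -/
lemma int_tendsto (R : Fin n → Fin n → Prop) {s : ℝ} (hs : 0 < s) (y : EuclideanSpace ℝ (Fin n))
    (F : ℕ → EuclideanSpace ℝ (Fin n) → ℝ) (F0 : EuclideanSpace ℝ (Fin n) → ℝ) (C : ℝ)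
    (hFm : ∀ k, AEStronglyMeasurable (F k) volume)
    (hF : ∀ k x, |F k x| ≤ C) (hlim : ∀ x, Tendsto (fun k => F k x) atTop (𝓝 (F0 x))) :
    Tendsto (fun k : ℕ => ∫ x, F k x * (Real.exp (-s * ‖x - y‖ ^ 2) * ld x * Sb R (k : ℝ) x))
      atTop (𝓝 (∫ x, F0 x * (Real.exp (-s * ‖x - y‖ ^ 2) * Wl R x))) := by
  apply tendsto_integral_of_dominated_convergence
    (fun x => C * Real.exp (-s * ‖x - y‖ ^ 2))
  · intro k
    apply (hFm k).mul
    have h1 := ld_continuous (n := n)
    have h2 := Sb_continuous R (k : ℝ)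
    have : Continuous (fun x : EuclideanSpace ℝ (Fin n) =>
      Real.exp (-s * ‖x - y‖ ^ 2) * ld x * Sb R (k : ℝ) x) := by fun_prop
    exact this.aestronglyMeasurable
  · apply Integrable.const_mul
    exact (gexp_integrable hs).comp_sub_right y
  · intro k
    apply ae_of_all
    intro x
    have h1 := ld_pos x
    have h2 := ld_le x
    have h3 := Sb_pos R (k : ℝ) x
    have h4 := Sb_le R (k : ℝ) x
    have h5 := Real.exp_pos (-s * ‖x - y‖ ^ 2)
    rw [Real.norm_eq_abs, abs_mul, abs_of_pos (by positivity :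
      0 < Real.exp (-s * ‖x - y‖ ^ 2) * ld x * Sb R (k : ℝ) x)]
    apply mul_le_mul (hF k x) _ (by positivity) (le_trans (abs_nonneg _) (hF k x))
    calc Real.exp (-s * ‖x - y‖ ^ 2) * ld x * Sb R (k : ℝ) x
        ≤ Real.exp (-s * ‖x - y‖ ^ 2) * 1 * 1 := by gcongr
      _ = _ := by ring
  · have hall : ∀ᵐ x ∂(volume : Measure (EuclideanSpace ℝ (Fin n))),
        ∀ i j, i ≠ j → x i ≠ x j := by
      rw [ae_all_iff]
      intro i
      rw [ae_all_iff]
      intro j
      by_cases hij : i = j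
      · exact ae_of_all _ fun x h => absurd hij h
      · filter_upwards [coord_ne_ae i j hij] with x hx _
        exact hx
    filter_upwards [hall] with x hx
    have h1 := (Sb_tendsto R hx).const_mul (Real.exp (-s * ‖x - y‖ ^ 2))
    have h2 := (hlim x).mul h1
    refine h2.congr fun k => ?_
    ring

/-- the `L^1` Poincare inequality of the posterior measures -/
theorem post_L1 (R : Fin n → Fin n → Prop) {kap : ℝ} (hk : 0 < kap)
    (y : EuclideanSpace ℝ (Fin n)) {g : EuclideanSpace ℝ (Fin n) → ℝ} {l l2 : ℝ} (hl : 0 ≤ l)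
    (hl2 : 0 ≤ l2) (hg : ContDiff ℝ 1 g) (hg1 : ∀ x, |g x| ≤ 1)
    (hgl : ∀ x y, |g x - g y| ≤ l * ‖x - y‖)
    (hg2 : ∀ x y, ‖fderiv ℝ g x - fderiv ℝ g y‖ ≤ l2 * ‖x - y‖) :
    ∫ x, (∫ x', |g x' - g x| * (Real.exp (-(kap / 2) * ‖x' - y‖ ^ 2) * Wl R x')) *
        (Real.exp (-(kap / 2) * ‖x - y‖ ^ 2) * Wl R x) ≤
      π / 2 * Real.sqrt (1 / kap) * ((∫ x, Real.exp (-(kap / 2) * ‖x - y‖ ^ 2) * Wl R x) *
        ∫ x, ‖fderiv ℝ g x‖ * (Real.exp (-(kap / 2) * ‖x - y‖ ^ 2) * Wl R x)) := by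
  have hs : 0 < kap / 2 := by positivity
  have hbd : ∀ x, ‖fderiv ℝ g x‖ ≤ l := by
    intro x
    have : LipschitzWith (Real.toNNReal l) g := by
      apply LipschitzWith.of_dist_le_mul
      intro a b
      rw [Real.dist_eq, dist_eq_norm, Real.coe_toNNReal l hl]
      exact hgl a b
    have h4 := norm_fderiv_le_of_lipschitz ℝ (x₀ := x) this
    rwa [Real.coe_toNNReal l hl] at h4
  have hgc := hg.continuous
  have hfc : Continuous (fun x => ‖fderiv ℝ g x‖) := (hg.continuous_fderiv (by norm_num)).norm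
  have habs : ∀ x x', |(|g x' - g x|)| ≤ 2 := by
    intro x x'
    rw [abs_abs]
    have h1 := abs_le.mp (hg1 x)
    have h2 := abs_le.mp (hg1 x')
    rw [abs_le]
    constructor <;> linarith
  -- the inequality for each k
  have hkey : ∀ k : ℕ, ∫ x, (∫ x', |g x' - g x| * (Real.exp (-(kap / 2) * ‖x' - y‖ ^ 2) * ld x' *
        Sb R (k : ℝ) x')) * (Real.exp (-(kap / 2) * ‖x - y‖ ^ 2) * ld x * Sb R (k : ℝ) x) ≤
      π / 2 * Real.sqrt (1 / kap) *
      ((∫ x, 1 * (Real.exp (-(kap / 2) * ‖x - y‖ ^ 2) * ld x * Sb R (k : ℝ) x)) *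
        ∫ x, ‖fderiv ℝ g x‖ * (Real.exp (-(kap / 2) * ‖x - y‖ ^ 2) * ld x * Sb R (k : ℝ) x)) := by
    intro k
    have hP := soft_pot hk y (bb n) (cc_nonneg R) (uu (n := n) (k : ℝ))
    set V := Vs kap y (bb n) (cc R) (uu (n := n) (k : ℝ)) with hV
    have h1 := pot_L1 hP hl hl2 hg hgl hg2
    rw [tgtN_integral hP, tgtN_integral hP] at h1
    simp only [tgtN_integral hP] at h1
    have hfin := tgt_finite hP
    have hZ : 0 < (tgt V).real Set.univ := by
      rw [measureReal_def]
      exact ENNReal.toReal_pos (tgt_univ_pos hP) (measure_ne_top _ _)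
    set Z := (tgt V).real Set.univ with hZdef
    rw [integral_const_mul] at h1
    have h2 := mul_le_mul_of_nonneg_left h1 (by positivity : 0 ≤ Z ^ 2)
    have e1 : Z ^ 2 * (Z⁻¹ * (Z⁻¹ * ∫ x, ∫ y, |g y - g x| ∂(tgt V) ∂(tgt V))) =
      ∫ x, ∫ y, |g y - g x| ∂(tgt V) ∂(tgt V) := by
      field_simp
    have e2 : Z ^ 2 * (π / 2 * Real.sqrt (1 / kap) * (Z⁻¹ * ∫ x, ‖fderiv ℝ g x‖ ∂(tgt V))) =
      π / 2 * Real.sqrt (1 / kap) * (Z * ∫ x, ‖fderiv ℝ g x‖ ∂(tgt V)) := by
      field_simp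
    rw [e1, e2] at h2
    have e3 : Z = ∫ x, 1 ∂(tgt V) := by simp [hZdef]
    rw [e3, integral_tgt hP.cV, integral_tgt hP.cV, integral_tgt hP.cV] at h2
    simp only [integral_tgt hP.cV] at h2
    simp only [hV, exp_neg_Vs] at h2
    exact h2
  -- limits
  have L1 := int_tendsto R hs y (fun _ _ => 1) (fun _ => 1) 1
    (fun k => aestronglyMeasurable_const) (by simp) (fun x => tendsto_const_nhds)
  have L2 := int_tendsto R hs y (fun _ x => ‖fderiv ℝ g x‖) (fun x => ‖fderiv ℝ g x‖) l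
    (fun k => hfc.aestronglyMeasurable) (fun k x => by rw [abs_norm]; exact hbd x)
    (fun x => tendsto_const_nhds)
  have Lin : ∀ x, Tendsto (fun k : ℕ => ∫ x', |g x' - g x| *
      (Real.exp (-(kap / 2) * ‖x' - y‖ ^ 2) * ld x' * Sb R (k : ℝ) x')) atTop
      (𝓝 (∫ x', |g x' - g x| * (Real.exp (-(kap / 2) * ‖x' - y‖ ^ 2) * Wl R x'))) := by
    intro x
    exact int_tendsto R hs y (fun _ x' => |g x' - g x|) (fun x' => |g x' - g x|) 2
      (fun k => (hgc.sub continuous_const).abs.aestronglyMeasurable) (fun k x' => habs x x')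
      (fun x => tendsto_const_nhds)
  have hI0 : Integrable (fun x' : EuclideanSpace ℝ (Fin n) =>
      Real.exp (-(kap / 2) * ‖x' - y‖ ^ 2)) := (gexp_integrable hs).comp_sub_right y
  have L3 := int_tendsto R hs y
    (fun k x => ∫ x', |g x' - g x| *
      (Real.exp (-(kap / 2) * ‖x' - y‖ ^ 2) * ld x' * Sb R (k : ℝ) x'))
    (fun x => ∫ x', |g x' - g x| * (Real.exp (-(kap / 2) * ‖x' - y‖ ^ 2) * Wl R x'))
    (∫ x' : EuclideanSpace ℝ (Fin n), 2 * Real.exp (-(kap / 2) * ‖x' - y‖ ^ 2))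
    (fun k => by
      have h1 := ld_continuous (n := n)
      have h2 := Sb_continuous R (k : ℝ)
      have hc : Continuous (fun p : EuclideanSpace ℝ (Fin n) × EuclideanSpace ℝ (Fin n) =>
        |g p.2 - g p.1| * (Real.exp (-(kap / 2) * ‖p.2 - y‖ ^ 2) * ld p.2 * Sb R (k : ℝ) p.2)) := by
        fun_prop
      exact (hc.stronglyMeasurable.integral_prod_right').aestronglyMeasurable)
    (fun k x => by
      rw [← Real.norm_eq_abs]
      refine norm_integral_le_of_norm_le (hI0.const_mul 2) (ae_of_all _ fun x' => ?_)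
      have h1 := ld_pos x'
      have h2 := ld_le x'
      have h3 := Sb_pos R (k : ℝ) x'
      have h4 := Sb_le R (k : ℝ) x'
      have h5 := Real.exp_pos (-(kap / 2) * ‖x' - y‖ ^ 2)
      rw [Real.norm_eq_abs, abs_mul, abs_of_pos (by positivity :
        0 < Real.exp (-(kap / 2) * ‖x' - y‖ ^ 2) * ld x' * Sb R (k : ℝ) x')]
      apply mul_le_mul (habs x x') _ (by positivity) (by norm_num)
      calc Real.exp (-(kap / 2) * ‖x' - y‖ ^ 2) * ld x' * Sb R (k : ℝ) x'
          ≤ Real.exp (-(kap / 2) * ‖x' - y‖ ^ 2) * 1 * 1 := by gcongr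
        _ = _ := by ring)
    Lin
  have hlim := le_of_tendsto_of_tendsto' L3
    ((L1.mul L2).const_mul (π / 2 * Real.sqrt (1 / kap))) hkey
  simpa only [one_mul] using hlim

end Pool.Agent.Lib.MP_6d896a_gt
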