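import Mathlib
import Pool.Agent.Lib.MP_6d896a_gt.Sym3
import Pool.Agent.Lib.MP_6d896a_gt.Smooth
import Pool.Agent.Lib.MP_6d896a_gt.Posterior

/-!
Exchangeable potentials: integration by parts with pair fields.
-/

namespace Pool.Agent.Lib.MP_6d896a_gt.EX

open MeasureTheory Filter Topology Metric
open scoped ENNReal NNReal

variable {n : ℕ} {V : EuclideanSpace ℝ (Fin n) → ℝ} {κ C : ℝ}

/-- potentials with quadratic growth -/
structure BP (V : EuclideanSpace ℝ (Fin n) → ℝ) (κ C : ℝ) : Prop where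
  kpos : 0 < κ
  cd : ContDiff ℝ 1 V
  coer : ∀ x, V 0 + κ / 2 * ‖x‖ ^ 2 ≤ V x
  grow : ∀ x, ‖fderiv ℝ V x‖ ≤ C * (1 + ‖x‖)

lemma BP.Cpos (h : BP V κ C) : 0 ≤ C := by
  have := (norm_nonneg _).trans (h.grow 0)
  simpa using this

/-- integrability -/
lemma BP.int (h : BP V κ C) {f : EuclideanSpace ℝ (Fin n) → ℝ}
    (hf : AEStronglyMeasurable f volume) {A : ℝ} (hA : ∀ x, |f x| ≤ A * (1 + ‖x‖) ^ 4) :
    Integrable (fun x => f x * Real.exp (-V x)) := by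
  have hk := h.kpos
  have hA0 : 0 ≤ A := by
    have h0 := (abs_nonneg _).trans (hA 0)
    simp only [norm_zero, add_zero, one_pow, mul_one] at h0
    exact h0
  have hg : Integrable (fun x : EuclideanSpace ℝ (Fin n) =>
      (A * (8 + 16 / (κ / 4) ^ 2) * Real.exp (-V 0)) * Real.exp (-(κ / 4) * ‖x‖ ^ 2)) :=
    (gexp_integrable (by positivity : 0 < κ / 4)).const_mul _
  refine hg.mono' (hf.mul ?_) (ae_of_all _ fun x => ?_)
  · exact (Real.continuous_exp.comp h.cd.continuous.neg).aestronglyMeasurable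
  · rw [Real.norm_eq_abs, abs_mul, abs_of_pos (Real.exp_pos _)]
    have h1 := growth_bound (s := κ / 4) (r := ‖x‖) (by positivity) (norm_nonneg x)
    have h2 : Real.exp (-V x) ≤ Real.exp (-V 0) * Real.exp (-(κ / 2) * ‖x‖ ^ 2) := by
      rw [← Real.exp_add]
      apply Real.exp_le_exp.mpr
      have := h.coer x
      linarith
    have h3 : |f x| ≤ A * ((8 + 16 / (κ / 4) ^ 2) * Real.exp (κ / 4 * ‖x‖ ^ 2)) :=
      (hA x).trans (mul_le_mul_of_nonneg_left h1 hA0)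
    have h4 : Real.exp (κ / 4 * ‖x‖ ^ 2) * Real.exp (-(κ / 2) * ‖x‖ ^ 2) =
        Real.exp (-(κ / 4) * ‖x‖ ^ 2) := by
      rw [← Real.exp_add]; congr 1; ring
    calc |f x| * Real.exp (-V x)
        ≤ (A * ((8 + 16 / (κ / 4) ^ 2) * Real.exp (κ / 4 * ‖x‖ ^ 2))) *
          (Real.exp (-V 0) * Real.exp (-(κ / 2) * ‖x‖ ^ 2)) := by
          apply mul_le_mul h3 h2 (Real.exp_pos _).le (by positivity)
      _ = (A * (8 + 16 / (κ / 4) ^ 2) * Real.exp (-V 0)) *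
          (Real.exp (κ / 4 * ‖x‖ ^ 2) * Real.exp (-(κ / 2) * ‖x‖ ^ 2)) := by ring
      _ = _ := by rw [h4]

lemma one_le_p4 (x : EuclideanSpace ℝ (Fin n)) : 1 ≤ (1 + ‖x‖) ^ 4 :=
  one_le_pow₀ (by linarith [norm_nonneg x])

lemma p_le_p4 (x : EuclideanSpace ℝ (Fin n)) {k : ℕ} (hk : k ≤ 4) :
    (1 + ‖x‖) ^ k ≤ (1 + ‖x‖) ^ 4 :=
  pow_le_pow_right₀ (by linarith [norm_nonneg x]) hk

lemma integrable_tgt (hV : Continuous V) {F : EuclideanSpace ℝ (Fin n) → ℝ}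
    (h : Integrable (fun x => F x * Real.exp (-V x))) : Integrable F (tgt V) := by
  unfold tgt
  have e3 : (fun x => ENNReal.ofReal (Real.exp (-V x))) =
      fun x => ((Real.toNNReal (Real.exp (-V x)) : NNReal) : ℝ≥0∞) := rfl
  have hm : Measurable (fun x => Real.toNNReal (Real.exp (-V x))) :=
    (Real.measurable_exp.comp hV.measurable.neg).real_toNNReal
  rw [e3, integrable_withDensity_iff_integrable_smul hm]
  refine h.congr (ae_of_all _ fun x => ?_)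
  show F x * Real.exp (-V x) = Real.toNNReal (Real.exp (-V x)) • F x
  rw [NNReal.smul_def, Real.coe_toNNReal _ (Real.exp_pos _).le, smul_eq_mul, mul_comm]

lemma BP.intm (h : BP V κ C) {f : EuclideanSpace ℝ (Fin n) → ℝ} (hf : Measurable f)
    {A : ℝ} (hA : ∀ x, |f x| ≤ A * (1 + ‖x‖) ^ 4) : Integrable f (tgt V) :=
  integrable_tgt h.cd.continuous (h.int hf.aestronglyMeasurable hA)

lemma BP.intc (h : BP V κ C) {f : EuclideanSpace ℝ (Fin n) → ℝ} (hf : Continuous f)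
    {A : ℝ} (hA : ∀ x, |f x| ≤ A * (1 + ‖x‖) ^ 4) : Integrable f (tgt V) :=
  h.intm hf.measurable hA

lemma BP.intb (h : BP V κ C) {f : EuclideanSpace ℝ (Fin n) → ℝ} (hf : Continuous f)
    {A : ℝ} (hA : ∀ x, |f x| ≤ A) : Integrable f (tgt V) := by
  have hA0 : 0 ≤ A := (abs_nonneg _).trans (hA 0)
  exact h.intc hf (A := A) fun x => (hA x).trans (le_mul_of_one_le_right hA0 (one_le_p4 x))

lemma exp_fd (h : BP V κ C) (x w : EuclideanSpace ℝ (Fin n)) :
    fderiv ℝ (fun x => Real.exp (-V x)) x w = -(fderiv ℝ V x w) * Real.exp (-V x) := by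
  have hd : HasFDerivAt V (fderiv ℝ V x) x :=
    (h.cd.differentiable (by simp)).differentiableAt.hasFDerivAt
  have h1 : HasFDerivAt (fun x => Real.exp (-V x)) _ x := hd.neg.exp
  rw [h1.fderiv]
  simp
  ring

/-- integration by parts -/
lemma BP.ibp (h : BP V κ C) {f : EuclideanSpace ℝ (Fin n) → ℝ} (hf : ContDiff ℝ 1 f)
    (w : EuclideanSpace ℝ (Fin n)) {A : ℝ} (hA : ∀ x, |f x| ≤ A * (1 + ‖x‖) ^ 2)
    (hA' : ∀ x, |fderiv ℝ f x w| ≤ A * (1 + ‖x‖) ^ 4) :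
    Integrable (fun x => f x * fderiv ℝ V x w) (tgt V) ∧
    Integrable (fun x => fderiv ℝ f x w) (tgt V) ∧
    ∫ x, f x * fderiv ℝ V x w ∂(tgt V) = ∫ x, fderiv ℝ f x w ∂(tgt V) := by
  have hC := h.Cpos
  have hA0 : 0 ≤ A := by
    have h0 := (abs_nonneg _).trans (hA 0)
    simp only [norm_zero, add_zero, one_pow, mul_one] at h0
    exact h0
  have hfc := hf.continuous
  have hfd : Continuous (fun x => fderiv ℝ f x w) :=
    (hf.continuous_fderiv (by simp)).clm_apply continuous_const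
  have hVd : Continuous (fun x => fderiv ℝ V x w) :=
    (h.cd.continuous_fderiv (by simp)).clm_apply continuous_const
  have hV' : ∀ x, |fderiv ℝ V x w| ≤ C * ‖w‖ * (1 + ‖x‖) := by
    intro x
    have h1 := (fderiv ℝ V x).le_opNorm w
    rw [Real.norm_eq_abs] at h1
    have h2 := mul_le_mul_of_nonneg_right (h.grow x) (norm_nonneg w)
    linarith
  have j2 : ∀ x, |f x * fderiv ℝ V x w| ≤ A * (C * ‖w‖) * (1 + ‖x‖) ^ 4 := by
    intro x
    have hx := norm_nonneg x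
    rw [abs_mul]
    have h3 : |f x| * |fderiv ℝ V x w| ≤ A * (1 + ‖x‖) ^ 2 * (C * ‖w‖ * (1 + ‖x‖)) :=
      mul_le_mul (hA x) (hV' x) (abs_nonneg _) (by positivity)
    have h4 := mul_le_mul_of_nonneg_left (p_le_p4 x (by norm_num : 3 ≤ 4))
      (by positivity : 0 ≤ A * (C * ‖w‖))
    calc |f x| * |fderiv ℝ V x w| ≤ A * (1 + ‖x‖) ^ 2 * (C * ‖w‖ * (1 + ‖x‖)) := h3
      _ = A * (C * ‖w‖) * (1 + ‖x‖) ^ 3 := by ring
      _ ≤ _ := h4
  have i1 : Integrable (fun x => fderiv ℝ f x w * Real.exp (-V x)) :=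
    h.int hfd.aestronglyMeasurable hA'
  have i2 : Integrable (fun x => f x * fderiv ℝ V x w * Real.exp (-V x)) :=
    h.int (hfc.mul hVd).aestronglyMeasurable j2
  have i3 : Integrable (fun x => f x * Real.exp (-V x)) := by
    apply h.int hfc.aestronglyMeasurable (A := A)
    intro x
    exact (hA x).trans (mul_le_mul_of_nonneg_left (p_le_p4 x (by norm_num : 2 ≤ 4)) hA0)
  have hE : Differentiable ℝ (fun x => Real.exp (-V x)) := by
    have := h.cd.differentiable (by simp)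
    fun_prop
  have e : (fun x => f x * fderiv ℝ (fun x => Real.exp (-V x)) x w) =
        fun x => -(f x * fderiv ℝ V x w * Real.exp (-V x)) := by
    funext x; rw [exp_fd h]; ring
  have key := integral_mul_fderiv_eq_neg_fderiv_mul_of_integrable (μ := volume)
    (f := f) (g := fun x => Real.exp (-V x)) (v := w) i1
    (by rw [e]; exact i2.neg) i3 (fun x _ => (hf.differentiable (by simp)).differentiableAt)
      (fun x _ => hE.differentiableAt)
  rw [e, integral_neg] at key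
  refine ⟨integrable_tgt h.cd.continuous i2, integrable_tgt h.cd.continuous i1, ?_⟩
  rw [integral_tgt h.cd.continuous, integral_tgt h.cd.continuous]
  linarith

/-! ### pair fields -/

/-- coordinates and difference vectors of an exchangeable block -/
structure Blk {ι : Type} [Fintype ι] [DecidableEq ι] (ξ : ι → EuclideanSpace ℝ (Fin n) →L[ℝ] ℝ)
    (v : ι → ι → EuclideanSpace ℝ (Fin n)) : Prop where
  dual : ∀ i j k, ξ k (v i j) = (if k = i then 1 else 0) - (if k = j then 1 else 0)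
  sum0 : ∀ x, ∑ i, ξ i x = 0
  vn : ∀ i j, ‖v i j‖ ≤ 2
  xn : ∀ i x, |ξ i x| ≤ ‖x‖
  coc : ∀ i j k, v i j + v j k = v i k

variable {ι : Type} [Fintype ι] [DecidableEq ι] {ξ : ι → EuclideanSpace ℝ (Fin n) →L[ℝ] ℝ}
  {v : ι → ι → EuclideanSpace ℝ (Fin n)}

/-- twice the off diagonal indicator -/
noncomputable def cc (i j : ι) : ℝ := if i = j then 0 else 2

lemma Blk.wv_sub (hb : Blk ξ v) (i j : ι) : ξ i (v i j) - ξ j (v i j) = cc i j := by
  rw [hb.dual, hb.dual]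
  unfold cc
  by_cases h : i = j
  · subst h; simp
  · have h' : j ≠ i := fun hh => h hh.symm
    simp [h, h']
    norm_num

/-- scalar profiles of the fields -/
structure PF (θ θ' : ℝ → ℝ) (c : ℝ) : Prop where
  der : ∀ t, HasDerivAt θ (θ' t) t
  cont : Continuous θ'
  bd : ∀ t, |θ t| ≤ c * (1 + |t|)
  bd' : ∀ t, |θ' t| ≤ c * (1 + |t|)

lemma PF.cpos {θ θ' : ℝ → ℝ} {c : ℝ} (h : PF θ θ' c) : 0 ≤ c := by
  have := (abs_nonneg _).trans (h.bd 0)
  simpa using this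

/-- test weights -/
structure TW (φ : EuclideanSpace ℝ (Fin n) → ℝ) (b l : ℝ) : Prop where
  cd : ContDiff ℝ 1 φ
  bd : ∀ x, |φ x| ≤ b
  gd : ∀ x, ‖fderiv ℝ φ x‖ ≤ l

omit [Fintype ι] [DecidableEq ι] in
lemma pair_fderiv {θ θ' : ℝ → ℝ} {c : ℝ} (hθ : PF θ θ' c) {φ : EuclideanSpace ℝ (Fin n) → ℝ}
    {b l : ℝ} (hφ : TW φ b l) (i j : ι) (x w : EuclideanSpace ℝ (Fin n)) :
    fderiv ℝ (fun x => θ (ξ i x - ξ j x) * φ x) x w =
      θ' (ξ i x - ξ j x) * (ξ i w - ξ j w) * φ x + θ (ξ i x - ξ j x) * fderiv ℝ φ x w := by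
  have h1 : HasFDerivAt φ (fderiv ℝ φ x) x :=
    (hφ.cd.differentiable (by simp)).differentiableAt.hasFDerivAt
  have h2 : HasFDerivAt (fun x => ξ i x - ξ j x) (ξ i - ξ j) x :=
    (ξ i).hasFDerivAt.sub (ξ j).hasFDerivAt
  have h3 := (hθ.der (ξ i x - ξ j x)).comp_hasFDerivAt x h2
  have h5 : HasFDerivAt (fun x => θ (ξ i x - ξ j x) * φ x) _ x := h3.mul h1
  rw [h5.fderiv]
  simp
  ring

lemma Blk.pair_bound (hb : Blk ξ v) {θ θ' : ℝ → ℝ} {c : ℝ} (hθ : PF θ θ' c) (i j : ι)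
    (x : EuclideanSpace ℝ (Fin n)) :
    |θ (ξ i x - ξ j x)| ≤ 2 * c * (1 + ‖x‖) ∧ |θ' (ξ i x - ξ j x)| ≤ 2 * c * (1 + ‖x‖) := by
  have hc := hθ.cpos
  have h1 : |ξ i x - ξ j x| ≤ 2 * ‖x‖ := by
    refine (abs_sub _ _).trans ?_
    linarith [hb.xn i x, hb.xn j x]
  have h2 : c * (1 + |ξ i x - ξ j x|) ≤ 2 * c * (1 + ‖x‖) := by
    have := mul_le_mul_of_nonneg_left h1 hc
    linarith
  exact ⟨(hθ.bd _).trans h2, (hθ.bd' _).trans h2⟩

/-- integration by parts for one pair -/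
lemma BP.pair (h : BP V κ C) (hb : Blk ξ v) {θ θ' : ℝ → ℝ} {c : ℝ} (hθ : PF θ θ' c)
    {φ : EuclideanSpace ℝ (Fin n) → ℝ} {b l : ℝ} (hφ : TW φ b l) (i j : ι) :
    Integrable (fun x => θ (ξ i x - ξ j x) * fderiv ℝ V x (v i j) * φ x) (tgt V) ∧
    Integrable (fun x => cc i j * θ' (ξ i x - ξ j x) * φ x) (tgt V) ∧
    Integrable (fun x => θ (ξ i x - ξ j x) * fderiv ℝ φ x (v i j)) (tgt V) ∧
    ∫ x, θ (ξ i x - ξ j x) * fderiv ℝ V x (v i j) * φ x ∂(tgt V) =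
      (∫ x, cc i j * θ' (ξ i x - ξ j x) * φ x ∂(tgt V)) +
      ∫ x, θ (ξ i x - ξ j x) * fderiv ℝ φ x (v i j) ∂(tgt V) := by
  have hc := hθ.cpos
  have hb0 : 0 ≤ b := (abs_nonneg _).trans (hφ.bd 0)
  have hl : 0 ≤ l := (norm_nonneg _).trans (hφ.gd 0)
  have hθcd : ContDiff ℝ 1 θ := th_contDiff hθ.der hθ.cont
  have hdc : Continuous (fun x : EuclideanSpace ℝ (Fin n) => ξ i x - ξ j x) :=
    (ξ i).continuous.sub (ξ j).continuous
  have hdd : ContDiff ℝ 1 (fun x : EuclideanSpace ℝ (Fin n) => ξ i x - ξ j x) :=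
    (ξ i).contDiff.sub (ξ j).contDiff
  have hφc := hφ.cd.continuous
  have hφd : Continuous (fun x => fderiv ℝ φ x (v i j)) :=
    (hφ.cd.continuous_fderiv (by simp)).clm_apply continuous_const
  have hcc : |cc i j| ≤ 2 := by unfold cc; split_ifs <;> norm_num
  have b1 : ∀ x, |cc i j * θ' (ξ i x - ξ j x) * φ x| ≤ 4 * c * b * (1 + ‖x‖) ^ 4 := by
    intro x
    have hx := norm_nonneg x
    rw [abs_mul, abs_mul]
    have h1 : |cc i j| * |θ' (ξ i x - ξ j x)| ≤ 2 * (2 * c * (1 + ‖x‖)) :=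
      mul_le_mul hcc (hb.pair_bound hθ i j x).2 (abs_nonneg _) (by norm_num)
    have h2 := mul_le_mul h1 (hφ.bd x) (abs_nonneg _) (by positivity)
    have h3 := mul_le_mul_of_nonneg_left (p_le_p4 x (by norm_num : 1 ≤ 4))
      (by positivity : 0 ≤ 4 * c * b)
    rw [pow_one] at h3
    linarith
  have b2 : ∀ x, |θ (ξ i x - ξ j x) * fderiv ℝ φ x (v i j)| ≤ 4 * c * l * (1 + ‖x‖) ^ 4 := by
    intro x
    have hx := norm_nonneg x
    rw [abs_mul]
    have h0 : |fderiv ℝ φ x (v i j)| ≤ l * 2 := by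
      have := (fderiv ℝ φ x).le_opNorm (v i j)
      rw [Real.norm_eq_abs] at this
      exact this.trans (mul_le_mul (hφ.gd x) (hb.vn i j) (norm_nonneg _) hl)
    have h2 := mul_le_mul (hb.pair_bound hθ i j x).1 h0 (abs_nonneg _) (by positivity)
    have h3 := mul_le_mul_of_nonneg_left (p_le_p4 x (by norm_num : 1 ≤ 4))
      (by positivity : 0 ≤ 4 * c * l)
    rw [pow_one] at h3
    linarith
  have i1 : Integrable (fun x => cc i j * θ' (ξ i x - ξ j x) * φ x) (tgt V) :=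
    h.intc ((continuous_const.mul (hθ.cont.comp hdc)).mul hφc) b1
  have i2 : Integrable (fun x => θ (ξ i x - ξ j x) * fderiv ℝ φ x (v i j)) (tgt V) :=
    h.intc ((hθcd.continuous.comp hdc).mul hφd) b2
  have hfd : ∀ x, fderiv ℝ (fun x => θ (ξ i x - ξ j x) * φ x) x (v i j) =
      cc i j * θ' (ξ i x - ξ j x) * φ x + θ (ξ i x - ξ j x) * fderiv ℝ φ x (v i j) := by
    intro x
    rw [pair_fderiv hθ hφ, hb.wv_sub]
    ring
  obtain ⟨k1, k2, k3⟩ := h.ibp (f := fun x => θ (ξ i x - ξ j x) * φ x)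
    ((hθcd.comp hdd).mul hφ.cd) (v i j) (A := 4 * c * b + 4 * c * l + 2 * c * b)
    (fun x => by
      have hx := norm_nonneg x
      rw [abs_mul]
      have h2 := mul_le_mul (hb.pair_bound hθ i j x).1 (hφ.bd x) (abs_nonneg _) (by positivity)
      have h3 : (1 + ‖x‖) ≤ (1 + ‖x‖) ^ 2 := by nlinarith
      have h4 := mul_le_mul_of_nonneg_left h3 (by positivity : 0 ≤ 2 * c * b)
      have h5 : 0 ≤ (4 * c * b + 4 * c * l) * (1 + ‖x‖) ^ 2 := by positivity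
      linarith)
    (fun x => by
      rw [hfd]
      refine (abs_add_le _ _).trans ?_
      have h5 : 0 ≤ (2 * c * b) * (1 + ‖x‖) ^ 4 := by positivity
      linarith [b1 x, b2 x])
  have e1 : (fun x => θ (ξ i x - ξ j x) * φ x * fderiv ℝ V x (v i j)) =
      fun x => θ (ξ i x - ξ j x) * fderiv ℝ V x (v i j) * φ x := by
    funext x; ring
  rw [e1] at k1 k3
  refine ⟨k1, i1, i2, ?_⟩
  rw [k3, ← integral_add i1 i2]
  congr 1
  funext x
  exact hfd x

/-- the field of the particle `a` -/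
noncomputable def YY (ξ : ι → EuclideanSpace ℝ (Fin n) →L[ℝ] ℝ)
    (v : ι → ι → EuclideanSpace ℝ (Fin n)) (θ : ℝ → ℝ) (a : ι) (x : EuclideanSpace ℝ (Fin n)) :
    EuclideanSpace ℝ (Fin n) := ∑ j, θ (ξ a x - ξ j x) • v a j

/-- the field of all pairs -/
noncomputable def FF (ξ : ι → EuclideanSpace ℝ (Fin n) →L[ℝ] ℝ)
    (v : ι → ι → EuclideanSpace ℝ (Fin n)) (θ : ℝ → ℝ) (x : EuclideanSpace ℝ (Fin n)) :
    EuclideanSpace ℝ (Fin n) := ∑ a, YY ξ v θ a x

omit [DecidableEq ι] in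
lemma map_YY (L : EuclideanSpace ℝ (Fin n) →L[ℝ] ℝ) (θ : ℝ → ℝ) (a : ι)
    (x : EuclideanSpace ℝ (Fin n)) :
    L (YY ξ v θ a x) = ∑ j, θ (ξ a x - ξ j x) * L (v a j) := by
  unfold YY
  rw [map_sum]
  simp only [map_smul, smul_eq_mul]

omit [DecidableEq ι] in
lemma map_FF (L : EuclideanSpace ℝ (Fin n) →L[ℝ] ℝ) (θ : ℝ → ℝ)
    (x : EuclideanSpace ℝ (Fin n)) :
    L (FF ξ v θ x) = ∑ i, ∑ j, θ (ξ i x - ξ j x) * L (v i j) := by
  unfold FF
  rw [map_sum]
  simp only [map_YY]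

/-- integration by parts for the field of one particle -/
lemma BP.YY (h : BP V κ C) (hb : Blk ξ v) {θ θ' : ℝ → ℝ} {c : ℝ} (hθ : PF θ θ' c)
    {φ : EuclideanSpace ℝ (Fin n) → ℝ} {b l : ℝ} (hφ : TW φ b l) (a : ι) :
    Integrable (fun x => fderiv ℝ V x (YY ξ v θ a x) * φ x) (tgt V) ∧
    Integrable (fun x => (∑ j, cc a j * θ' (ξ a x - ξ j x)) * φ x) (tgt V) ∧
    Integrable (fun x => fderiv ℝ φ x (YY ξ v θ a x)) (tgt V) ∧
    ∫ x, fderiv ℝ V x (YY ξ v θ a x) * φ x ∂(tgt V) =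
      (∫ x, (∑ j, cc a j * θ' (ξ a x - ξ j x)) * φ x ∂(tgt V)) +
      ∫ x, fderiv ℝ φ x (YY ξ v θ a x) ∂(tgt V) := by
  have hp := fun j => h.pair hb hθ hφ a j
  have e1 : (fun x => fderiv ℝ V x (EX.YY ξ v θ a x) * φ x) =
      fun x => ∑ j, θ (ξ a x - ξ j x) * fderiv ℝ V x (v a j) * φ x := by
    funext x
    rw [map_YY, Finset.sum_mul]
  have e2 : (fun x : EuclideanSpace ℝ (Fin n) => (∑ j, cc a j * θ' (ξ a x - ξ j x)) * φ x) =
      fun x => ∑ j, cc a j * θ' (ξ a x - ξ j x) * φ x := by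
    funext x
    rw [Finset.sum_mul]
  have e3 : (fun x => fderiv ℝ φ x (EX.YY ξ v θ a x)) =
      fun x => ∑ j, θ (ξ a x - ξ j x) * fderiv ℝ φ x (v a j) := by
    funext x
    rw [map_YY]
  rw [e1, e2, e3]
  refine ⟨integrable_finsetSum _ fun j _ => (hp j).1, integrable_finsetSum _ fun j _ => (hp j).2.1,
    integrable_finsetSum _ fun j _ => (hp j).2.2.1, ?_⟩
  rw [integral_finsetSum _ fun j _ => (hp j).1, integral_finsetSum _ fun j _ => (hp j).2.1,
    integral_finsetSum _ fun j _ => (hp j).2.2.1, ← Finset.sum_add_distrib]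
  exact Finset.sum_congr rfl fun j _ => (hp j).2.2.2

/-- integration by parts for the field of all pairs -/
lemma BP.FF (h : BP V κ C) (hb : Blk ξ v) {θ θ' : ℝ → ℝ} {c : ℝ} (hθ : PF θ θ' c)
    {φ : EuclideanSpace ℝ (Fin n) → ℝ} {b l : ℝ} (hφ : TW φ b l) :
    Integrable (fun x => fderiv ℝ V x (FF ξ v θ x) * φ x) (tgt V) ∧
    Integrable (fun x => (∑ i, ∑ j, cc i j * θ' (ξ i x - ξ j x)) * φ x) (tgt V) ∧
    Integrable (fun x => fderiv ℝ φ x (FF ξ v θ x)) (tgt V) ∧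
    ∫ x, fderiv ℝ V x (FF ξ v θ x) * φ x ∂(tgt V) =
      (∫ x, (∑ i, ∑ j, cc i j * θ' (ξ i x - ξ j x)) * φ x ∂(tgt V)) +
      ∫ x, fderiv ℝ φ x (FF ξ v θ x) ∂(tgt V) := by
  have hp := fun a => h.YY hb hθ hφ a
  have e1 : (fun x => fderiv ℝ V x (EX.FF ξ v θ x) * φ x) =
      fun x => ∑ a, fderiv ℝ V x (EX.YY ξ v θ a x) * φ x := by
    funext x
    unfold EX.FF
    rw [map_sum, Finset.sum_mul]
  have e2 : (fun x : EuclideanSpace ℝ (Fin n) =>
        (∑ i, ∑ j, cc i j * θ' (ξ i x - ξ j x)) * φ x) =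
      fun x => ∑ i, (∑ j, cc i j * θ' (ξ i x - ξ j x)) * φ x := by
    funext x
    rw [Finset.sum_mul]
  have e3 : (fun x => fderiv ℝ φ x (EX.FF ξ v θ x)) =
      fun x => ∑ a, fderiv ℝ φ x (EX.YY ξ v θ a x) := by
    funext x
    unfold EX.FF
    rw [map_sum]
  rw [e1, e2, e3]
  refine ⟨integrable_finsetSum _ fun j _ => (hp j).1, integrable_finsetSum _ fun j _ => (hp j).2.1,
    integrable_finsetSum _ fun j _ => (hp j).2.2.1, ?_⟩
  rw [integral_finsetSum _ fun j _ => (hp j).1, integral_finsetSum _ fun j _ => (hp j).2.1,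
    integral_finsetSum _ fun j _ => (hp j).2.2.1, ← Finset.sum_add_distrib]
  exact Finset.sum_congr rfl fun j _ => (hp j).2.2.2

end Pool.Agent.Lib.MP_6d896a_gt.EX
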