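import Mathlib
import Pool.Agent.Lib.MP_6d896a_gt.Ex2

/-!
Exchangeable potentials: cut-off functions.
-/

namespace Pool.Agent.Lib.MP_6d896a_gt.EX

open MeasureTheory Filter Topology Metric Asymptotics
open scoped ENNReal NNReal

/-- positive part squared -/
noncomputable def qq (x : ℝ) : ℝ := (max x 0) ^ 2

/-- its derivative -/
noncomputable def qq' (x : ℝ) : ℝ := 2 * max x 0

lemma qq_hasDerivAt (x : ℝ) : HasDerivAt qq (qq' x) x := by
  rcases lt_trichotomy x 0 with h | h | h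
  · have e : qq =ᶠ[𝓝 x] fun _ => (0 : ℝ) := by
      filter_upwards [Iio_mem_nhds h] with y hy
      unfold qq
      rw [max_eq_right (le_of_lt hy)]
      norm_num
    have h1 : qq' x = 0 := by unfold qq'; rw [max_eq_right h.le]; norm_num
    rw [h1]
    exact (hasDerivAt_const x (0 : ℝ)).congr_of_eventuallyEq e
  · subst h
    have h1 : qq' 0 = 0 := by unfold qq'; simp
    rw [h1, hasDerivAt_iff_isLittleO_nhds_zero]
    have h2 : (fun h : ℝ => qq (0 + h) - qq 0 - h • (0 : ℝ)) =O[𝓝 0] fun h : ℝ => h ^ 2 := by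
      apply IsBigO.of_bound 1
      filter_upwards with h
      unfold qq
      simp only [zero_add, max_self, smul_zero, sub_zero, one_mul, Real.norm_eq_abs, ne_eq,
        OfNat.ofNat_ne_zero, not_false_eq_true, zero_pow]
      have h3 : |max h 0| ≤ |h| := by
        rcases le_total h 0 with h4 | h4
        · rw [max_eq_right h4]; simp
        · rw [max_eq_left h4]
      rw [abs_pow, abs_pow]
      simpa using pow_le_pow_left₀ (abs_nonneg _) h3 2
    exact h2.trans_isLittleO (isLittleO_pow_id (by norm_num))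
  · have e : qq =ᶠ[𝓝 x] fun y => y ^ 2 := by
      filter_upwards [Ioi_mem_nhds h] with y hy
      unfold qq
      rw [max_eq_left (le_of_lt hy)]
    have h1 : qq' x = 2 * x := by unfold qq'; rw [max_eq_left h.le]
    rw [h1]
    have := (hasDerivAt_pow 2 x).congr_of_eventuallyEq e
    simpa using this

lemma qq_nonneg (x : ℝ) : 0 ≤ qq x := by unfold qq; positivity

lemma qq'_nonneg (x : ℝ) : 0 ≤ qq' x := by
  unfold qq'
  have := le_max_right x 0
  linarith

lemma qq_cont : Continuous qq := by unfold qq; fun_prop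

lemma qq'_cont : Continuous qq' := by unfold qq'; fun_prop

lemma qq_neg {x : ℝ} (h : x ≤ 0) : qq x = 0 := by unfold qq; rw [max_eq_right h]; norm_num

lemma qq'_neg {x : ℝ} (h : x ≤ 0) : qq' x = 0 := by unfold qq'; rw [max_eq_right h]; norm_num

lemma qq_pos {x : ℝ} (h : 0 ≤ x) : qq x = x ^ 2 := by unfold qq; rw [max_eq_left h]

lemma qq'_pos {x : ℝ} (h : 0 ≤ x) : qq' x = 2 * x := by unfold qq'; rw [max_eq_left h]

lemma qsum_ge (x : ℝ) : 1 / 2 ≤ qq x + qq (1 - x) := by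
  rcases le_total x 0 with h | h
  · rw [qq_neg h, qq_pos (by linarith : 0 ≤ 1 - x)]
    nlinarith
  · rcases le_total x 1 with h1 | h1
    · rw [qq_pos h, qq_pos (by linarith : 0 ≤ 1 - x)]
      nlinarith [sq_nonneg (2 * x - 1)]
    · rw [qq_pos h, qq_neg (by linarith : 1 - x ≤ 0)]
      nlinarith

/-- smooth step -/
noncomputable def st (x : ℝ) : ℝ := qq x / (qq x + qq (1 - x))

/-- its derivative -/
noncomputable def st' (x : ℝ) : ℝ :=
  (qq' x * qq (1 - x) + qq x * qq' (1 - x)) / (qq x + qq (1 - x)) ^ 2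

lemma st_hasDerivAt (x : ℝ) : HasDerivAt st (st' x) x := by
  have hq := qsum_ge x
  have h0 : qq x + qq (1 - x) ≠ 0 := by linarith
  have h1 := qq_hasDerivAt x
  have h2 : HasDerivAt (fun x => qq (1 - x)) (-(qq' (1 - x))) x := by
    have h3 : HasDerivAt (fun x : ℝ => 1 - x) (-1) x := by
      simpa using (hasDerivAt_id x).const_sub 1
    have := (qq_hasDerivAt (1 - x)).comp x h3
    exact this.congr_deriv (by ring)
  have h4 := h1.div (h1.add h2) h0
  unfold st
  refine h4.congr_deriv ?_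
  unfold st'
  congr 1
  simp only [Pi.add_apply]
  ring

lemma st'_cont : Continuous st' := by
  unfold st'
  apply Continuous.div
  · exact (qq'_cont.mul (qq_cont.comp (continuous_const.sub continuous_id))).add
      (qq_cont.mul (qq'_cont.comp (continuous_const.sub continuous_id)))
  · exact (qq_cont.add (qq_cont.comp (continuous_const.sub continuous_id))).pow 2
  · intro x
    have := qsum_ge x
    positivity

lemma st'_nonneg (x : ℝ) : 0 ≤ st' x := by
  unfold st'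
  have h1 := mul_nonneg (qq'_nonneg x) (qq_nonneg (1 - x))
  have h2 := mul_nonneg (qq_nonneg x) (qq'_nonneg (1 - x))
  positivity

lemma st'_out {x : ℝ} (h : x ≤ 0 ∨ 1 ≤ x) : st' x = 0 := by
  unfold st'
  rcases h with h | h
  · rw [qq'_neg h, qq_neg h]; simp
  · rw [qq_neg (by linarith : 1 - x ≤ 0), qq'_neg (by linarith : 1 - x ≤ 0)]; simp

lemma st'_le (x : ℝ) : st' x ≤ 2 := by
  by_cases h : x ≤ 0 ∨ 1 ≤ x
  · rw [st'_out h]; norm_num
  · push Not at h
    have hq := qsum_ge x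
    unfold st'
    rw [div_le_iff₀ (by positivity)]
    rw [qq'_pos h.1.le, qq_pos h.1.le, qq_pos (by linarith : 0 ≤ 1 - x),
      qq'_pos (by linarith : 0 ≤ 1 - x)] at *
    nlinarith [sq_nonneg (2 * x - 1), mul_nonneg h.1.le (by linarith [h.2] : 0 ≤ 1 - x)]

lemma st_lo {x : ℝ} (h : x ≤ 0) : st x = 0 := by unfold st; rw [qq_neg h]; simp

lemma st_hi {x : ℝ} (h : 1 ≤ x) : st x = 1 := by
  unfold st
  rw [qq_neg (by linarith : 1 - x ≤ 0), add_zero, qq_pos (by linarith)]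
  exact div_self (by positivity)

lemma st_nonneg (x : ℝ) : 0 ≤ st x :=
  div_nonneg (qq_nonneg _) (add_nonneg (qq_nonneg _) (qq_nonneg _))

lemma st_le_one (x : ℝ) : st x ≤ 1 := by
  unfold st
  apply div_le_one_of_le₀
  · linarith [qq_nonneg (1 - x)]
  · exact add_nonneg (qq_nonneg _) (qq_nonneg _)

lemma st_cont : Continuous st :=
  continuous_iff_continuousAt.mpr fun x => (st_hasDerivAt x).continuousAt

/-! ### the cut-off in one coordinate -/

/-- cut-off -/
noncomputable def Ac (R t : ℝ) : ℝ := st ((t ^ 2 - R ^ 2) / (3 * R ^ 2))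

/-- derivative -/
noncomputable def Ac' (R t : ℝ) : ℝ := st' ((t ^ 2 - R ^ 2) / (3 * R ^ 2)) * (2 * t / (3 * R ^ 2))

lemma Ac_hasDerivAt (R t : ℝ) : HasDerivAt (Ac R) (Ac' R t) t := by
  have h1 : HasDerivAt (fun t : ℝ => (t ^ 2 - R ^ 2) / (3 * R ^ 2)) (2 * t / (3 * R ^ 2)) t := by
    have := ((hasDerivAt_pow 2 t).sub_const (R ^ 2)).div_const (3 * R ^ 2)
    simpa using this
  exact (st_hasDerivAt _).comp t h1

lemma Ac'_cont (R : ℝ) : Continuous (Ac' R) := by
  unfold Ac'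
  exact (st'_cont.comp (by fun_prop)).mul (by fun_prop)

lemma Ac_nonneg (R t : ℝ) : 0 ≤ Ac R t := st_nonneg _

lemma Ac_le_one (R t : ℝ) : Ac R t ≤ 1 := st_le_one _

lemma Ac_lo {R t : ℝ} (hR : 0 < R) (h : |t| ≤ R) : Ac R t = 0 := by
  unfold Ac
  apply st_lo
  apply div_nonpos_of_nonpos_of_nonneg
  · have := sq_le_sq' (by linarith [abs_le.mp h] : -R ≤ t) (abs_le.mp h).2
    linarith
  · positivity

lemma Ac_hi {R t : ℝ} (hR : 0 < R) (h : 2 * R ≤ |t|) : Ac R t = 1 := by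
  unfold Ac
  apply st_hi
  rw [one_le_div (by positivity)]
  have : (2 * R) ^ 2 ≤ |t| ^ 2 := pow_le_pow_left₀ (by positivity) h 2
  rw [sq_abs] at this
  nlinarith

lemma Ac'_hi {R t : ℝ} (hR : 0 < R) (h : 2 * R ≤ |t|) : Ac' R t = 0 := by
  unfold Ac'
  rw [st'_out, zero_mul]
  right
  rw [one_le_div (by positivity)]
  have : (2 * R) ^ 2 ≤ |t| ^ 2 := pow_le_pow_left₀ (by positivity) h 2
  rw [sq_abs] at this
  nlinarith

lemma Ac'_abs {R t : ℝ} (hR : 0 < R) : |Ac' R t| ≤ 3 / R := by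
  by_cases h : 2 * R ≤ |t|
  · rw [Ac'_hi hR h, abs_zero]; positivity
  · push Not at h
    unfold Ac'
    rw [abs_mul, abs_of_nonneg (st'_nonneg _), abs_div, abs_mul, abs_of_pos (by norm_num : (0:ℝ) < 2),
      abs_of_pos (by positivity : 0 < 3 * R ^ 2)]
    have h1 : 2 * |t| / (3 * R ^ 2) ≤ 4 / (3 * R) := by
      rw [div_le_div_iff₀ (by positivity) (by positivity)]
      nlinarith
    calc st' ((t ^ 2 - R ^ 2) / (3 * R ^ 2)) * (2 * |t| / (3 * R ^ 2)) ≤ 2 * (4 / (3 * R)) :=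
          mul_le_mul (st'_le _) h1 (by positivity) (by norm_num)
      _ ≤ 3 / R := by
        rw [mul_div_assoc', div_le_div_iff₀ (by positivity) hR]
        nlinarith

/-! ### the cut-off in the norm -/

/-- cut-off -/
noncomputable def Zc (ν s : ℝ) : ℝ := 1 - st ((s - 8 * ν) / (8 * ν))

/-- derivative -/
noncomputable def Zc' (ν s : ℝ) : ℝ := -(st' ((s - 8 * ν) / (8 * ν)) * (1 / (8 * ν)))

lemma Zc_hasDerivAt (ν s : ℝ) : HasDerivAt (Zc ν) (Zc' ν s) s := by
  have h1 : HasDerivAt (fun s : ℝ => (s - 8 * ν) / (8 * ν)) (1 / (8 * ν)) s := by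
    have := ((hasDerivAt_id s).sub_const (8 * ν)).div_const (8 * ν)
    simpa using this
  exact ((st_hasDerivAt _).comp s h1).const_sub 1

lemma Zc'_cont (ν : ℝ) : Continuous (Zc' ν) := by
  unfold Zc'
  exact ((st'_cont.comp (by fun_prop)).mul continuous_const).neg

lemma Zc_nonneg (ν s : ℝ) : 0 ≤ Zc ν s := by unfold Zc; linarith [st_le_one ((s - 8 * ν) / (8 * ν))]

lemma Zc_le_one (ν s : ℝ) : Zc ν s ≤ 1 := by unfold Zc; linarith [st_nonneg ((s - 8 * ν) / (8 * ν))]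

lemma Zc_lo {ν s : ℝ} (hν : 0 < ν) (h : s ≤ 8 * ν) : Zc ν s = 1 := by
  unfold Zc
  rw [st_lo, sub_zero]
  apply div_nonpos_of_nonpos_of_nonneg <;> linarith

lemma Zc_hi {ν s : ℝ} (hν : 0 < ν) (h : 16 * ν ≤ s) : Zc ν s = 0 := by
  unfold Zc
  rw [st_hi, sub_self]
  rw [one_le_div (by positivity)]
  linarith

lemma Zc'_hi {ν s : ℝ} (hν : 0 < ν) (h : 16 * ν ≤ s) : Zc' ν s = 0 := by
  unfold Zc'
  rw [st'_out, zero_mul, neg_zero]
  right
  rw [one_le_div (by positivity)]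
  linarith

lemma Zc'_abs {ν s : ℝ} (hν : 0 < ν) : |Zc' ν s| ≤ 1 / (4 * ν) := by
  unfold Zc'
  rw [abs_neg, abs_of_nonneg (mul_nonneg (st'_nonneg _) (by positivity))]
  calc st' ((s - 8 * ν) / (8 * ν)) * (1 / (8 * ν)) ≤ 2 * (1 / (8 * ν)) :=
        mul_le_mul_of_nonneg_right (st'_le _) (by positivity)
    _ = _ := by field_simp; norm_num

/-! ### the radial weight -/

/-- radial weight -/
noncomputable def Hc (ν s : ℝ) : ℝ := st ((s - 4 * ν) / (4 * ν)) * (ν / s)

/-- derivative -/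
noncomputable def Hc' (ν s : ℝ) : ℝ :=
  st' ((s - 4 * ν) / (4 * ν)) * (1 / (4 * ν)) * (ν / s) -
    st ((s - 4 * ν) / (4 * ν)) * (ν / s ^ 2)

lemma Hc_hasDerivAt {ν s : ℝ} (hs : 0 < s) : HasDerivAt (Hc ν) (Hc' ν s) s := by
  have h1 : HasDerivAt (fun s : ℝ => (s - 4 * ν) / (4 * ν)) (1 / (4 * ν)) s := by
    have := ((hasDerivAt_id s).sub_const (4 * ν)).div_const (4 * ν)
    simpa using this
  have h2 : HasDerivAt (fun s : ℝ => ν / s) (-(ν / s ^ 2)) s := by
    have := (hasDerivAt_inv hs.ne').const_mul ν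
    refine (this.congr_deriv (by ring)).congr_of_eventuallyEq ?_
    filter_upwards with y
    rw [div_eq_mul_inv]
  have h3 := ((st_hasDerivAt _).comp s h1).mul h2
  refine h3.congr_deriv ?_
  unfold Hc'
  simp only [Function.comp]
  ring

lemma Hc_nonneg {ν s : ℝ} (hν : 0 < ν) (hs : 0 < s) : 0 ≤ Hc ν s :=
  mul_nonneg (st_nonneg _) (by positivity)

lemma Hc_lo {ν s : ℝ} (hν : 0 < ν) (h : s ≤ 4 * ν) : Hc ν s = 0 := by
  unfold Hc
  rw [st_lo, zero_mul]
  apply div_nonpos_of_nonpos_of_nonneg <;> linarith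

lemma Hc_le {ν s : ℝ} (hν : 0 < ν) (hs : 0 < s) :
    Hc ν s ≤ st ((s - 4 * ν) / (4 * ν)) / 4 := by
  by_cases h : s ≤ 4 * ν
  · rw [Hc_lo hν h]
    exact div_nonneg (st_nonneg _) (by norm_num)
  · push Not at h
    unfold Hc
    have h1 : ν / s ≤ 1 / 4 := by
      rw [div_le_div_iff₀ hs (by norm_num)]
      linarith
    have := mul_le_mul_of_nonneg_left h1 (st_nonneg ((s - 4 * ν) / (4 * ν)))
    linarith

lemma Hc'_le {ν s : ℝ} (hν : 0 < ν) (hs : 0 < s) : Hc' ν s * s ≤ 1 / 2 := by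
  unfold Hc'
  have h1 : st' ((s - 4 * ν) / (4 * ν)) * (1 / (4 * ν)) * (ν / s) * s ≤ 1 / 2 := by
    have e : st' ((s - 4 * ν) / (4 * ν)) * (1 / (4 * ν)) * (ν / s) * s =
        st' ((s - 4 * ν) / (4 * ν)) * (1 / 4) := by field_simp
    rw [e]
    linarith [st'_le ((s - 4 * ν) / (4 * ν))]
  have h2 : 0 ≤ st ((s - 4 * ν) / (4 * ν)) * (ν / s ^ 2) * s :=
    mul_nonneg (mul_nonneg (st_nonneg _) (by positivity)) hs.le
  rw [sub_mul]
  linarith

lemma Hc'_abs {ν s : ℝ} (hν : 0 < ν) (hs : ν ≤ s) : |Hc' ν s| ≤ 2 / ν := by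
  have hs0 : 0 < s := hν.trans_le hs
  unfold Hc'
  have h0 : ν / s ≤ 1 := by rw [div_le_one hs0]; exact hs
  have h0' : 0 ≤ ν / s := by positivity
  have h1 : st' ((s - 4 * ν) / (4 * ν)) * (1 / (4 * ν)) * (ν / s) ≤ 1 / (2 * ν) := by
    have h3 : st' ((s - 4 * ν) / (4 * ν)) * (1 / (4 * ν)) ≤ 2 * (1 / (4 * ν)) :=
      mul_le_mul_of_nonneg_right (st'_le _) (by positivity)
    have h4 := mul_le_mul h3 h0 h0' (by positivity)
    have e : 2 * (1 / (4 * ν)) * 1 = 1 / (2 * ν) := by field_simp; norm_num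
    linarith
  have h2 : st ((s - 4 * ν) / (4 * ν)) * (ν / s ^ 2) ≤ 1 / ν := by
    have h3 : ν / s ^ 2 ≤ 1 / ν := by
      rw [div_le_div_iff₀ (by positivity) hν]
      nlinarith
    have h4 := mul_le_mul (st_le_one ((s - 4 * ν) / (4 * ν))) h3 (by positivity) (by norm_num)
    linarith
  have h5 : 0 ≤ st' ((s - 4 * ν) / (4 * ν)) * (1 / (4 * ν)) * (ν / s) :=
    mul_nonneg (mul_nonneg (st'_nonneg _) (by positivity)) h0'
  have h6 : 0 ≤ st ((s - 4 * ν) / (4 * ν)) * (ν / s ^ 2) :=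
    mul_nonneg (st_nonneg _) (by positivity)
  have h7 : 1 / (2 * ν) ≤ 1 / ν := by
    apply one_div_le_one_div_of_le hν
    linarith
  have h8 : 2 / ν = 1 / ν + 1 / ν := by ring
  have h9 : 0 < 1 / ν := by positivity
  rw [abs_le]
  constructor <;> linarith

end Pool.Agent.Lib.MP_6d896a_gt.EX
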