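import Mathlib
import Pool.Agent.Lib.MP_6d896a_gt.Sym3

/-!
The level inequality: for a function odd in one coordinate the energy on the unit ball of a symmetric
norm controls the second moment outside a thin slab.
-/

namespace Pool.Agent.Lib.MP_6d896a_gt

open MeasureTheory Filter Topology Metric
open scoped ENNReal NNReal

variable {n : ℕ} {p : EuclideanSpace ℝ (Fin n) → ℝ} {r : ℝ}

lemma shell_sub (h : SG p r) (δ : ℝ) :
    shell p δ ⊆ closedBall (0 : EuclideanSpace ℝ (Fin n)) (n * r) := by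
  intro x hx
  rw [mem_closedBall_zero_iff]
  exact h.norm_shell hx

lemma shell_cont_int (h : SG p r) {δ : ℝ} {f : EuclideanSpace ℝ (Fin n) → ℝ} (hf : Continuous f) :
    IntegrableOn f (shell p δ) :=
  (hf.continuousOn.integrableOn_compact (isCompact_closedBall _ _)).mono_set (shell_sub h δ)

/-- the inequality for the direction of the oddness -/
theorem SG.near (h : SG p r) (hn : 2 ≤ n) {δ : ℝ} (hδ : 0 < δ) (hδ1 : δ < 1)
    {u : EuclideanSpace ℝ (Fin n) → ℝ} {U L : ℝ} (hu : TF u U L) (i : Fin n)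
    (hodd : ∀ x, |u x| ≤ L * |x i|) {η : ℝ} (hη : 0 < η) :
    IntegrableOn (fun x => u x ^ 2 * (|th1 η (x i)| * wt p x i)) (shell p δ) ∧
    (n - 1 : ℝ) * ∫ x in shell p δ, u x ^ 2 * (|th1 η (x i)| * wt p x i) ≤
      4 * (∫ x in shell p δ, |u x| * ‖fderiv ℝ u x‖) +
      16 * r * (∫ x in shell p δ, ‖fderiv ℝ u x‖ ^ 2) +
      2 * L ^ 2 * η * (volume (shell p δ)).toReal := by
  have hr := h.rpos
  have hAm : MeasurableSet (shell p δ) := (shell_open h δ).measurableSet
  obtain ⟨i1, i2, i3, hid⟩ := h.drift hδ hδ1 hu (th1_hasDerivAt hη) (th1'_continuous hη)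
    (th1_sign η) (by simp [th1]) i
  refine ⟨i1, ?_⟩
  have hn2 : (2 : ℝ) ≤ n := by exact_mod_cast hn
  have huc := hu.cd.continuous
  have hfd : Continuous (fun x => fderiv ℝ u x) := hu.cd.continuous_fderiv (by simp)
  have c1 : IntegrableOn (fun x => |u x| * ‖fderiv ℝ u x‖) (shell p δ) :=
    shell_cont_int h (huc.abs.mul hfd.norm)
  have c2 : IntegrableOn (fun x => ‖fderiv ℝ u x‖ ^ 2) (shell p δ) :=
    shell_cont_int h (hfd.norm.pow 2)
  have hae : ∀ᵐ x ∂(volume.restrict (shell p δ)), DifferentiableAt ℝ p x ∧ x ∈ shell p δ := by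
    filter_upwards [ae_restrict_of_ae h.ae_diff, ae_restrict_mem hAm] with x hx hxs using ⟨hx, hxs⟩
  have s1 : ∫ x in shell p δ, 2 * u x * (th1 η (x i) * fderiv ℝ u x (ej i - bt p x i • x)) ≤
      ∫ x in shell p δ, (2 * (|u x| * ‖fderiv ℝ u x‖) +
        (n - 1) / 2 * (u x ^ 2 * (|th1 η (x i)| * wt p x i)) + 8 * r * ‖fderiv ℝ u x‖ ^ 2) := by
    apply integral_mono_ae i2 (((c1.const_mul 2).add (i1.const_mul _)).add (c2.const_mul _))
    filter_upwards [hae] with x hx
    obtain ⟨hxd, hxs⟩ := hx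
    have hp : 0 < p x := hδ.trans hxs.1
    have hw0 := wt_nonneg h x i
    have hw2 := h.norm_sq_wt hxd hp hxs.2.le i
    have ht := th1_abs_le η (x i)
    have ht0 := abs_nonneg (th1 η (x i))
    have hD := norm_nonneg (fderiv ℝ u x)
    have hX := norm_nonneg x
    have hU := abs_nonneg (u x)
    have hop : |fderiv ℝ u x (ej i - bt p x i • x)| ≤
        ‖fderiv ℝ u x‖ * (1 + wt p x i * ‖x‖) := by
      have h1 := (fderiv ℝ u x).le_opNorm (ej i - bt p x i • x)
      rw [Real.norm_eq_abs] at h1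
      refine h1.trans (mul_le_mul_of_nonneg_left ?_ hD)
      refine (norm_sub_le _ _).trans ?_
      rw [ej_norm, norm_smul, Real.norm_eq_abs, h.bt_abs]
    simp only [Pi.add_apply]
    refine (le_abs_self _).trans ?_
    rw [abs_mul, abs_mul, abs_mul, abs_of_pos (by norm_num : (0 : ℝ) < 2)]
    rw [← sq_abs (u x)]
    generalize |u x| = a at *
    generalize |th1 η (x i)| = t at *
    generalize ‖fderiv ℝ u x‖ = D at *
    generalize wt p x i = w at *
    generalize ‖x‖ = X at *
    generalize |fderiv ℝ u x (ej i - bt p x i • x)| = F at *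
    have e1 : 2 * a * (t * F) ≤ 2 * a * (t * (D * (1 + w * X))) := by gcongr
    have e2 : 2 * a * (t * D) ≤ 2 * (a * D) := by
      have : a * D * t ≤ a * D := mul_le_of_le_one_right (by positivity) ht
      linarith
    have hm : (0 : ℝ) < n - 1 := by linarith
    have e3 : 2 * a * (t * (D * (w * X))) ≤ (n - 1) / 2 * (a ^ 2 * (t * w)) +
        2 / (n - 1) * (t * w * D ^ 2 * X ^ 2) := by
      have h0 : 0 ≤ (n - 1 : ℝ) / 2 * (t * w) * (a - 2 / (n - 1) * (D * X)) ^ 2 := by positivity
      have h1 : (n - 1 : ℝ) / 2 * (t * w) * (a - 2 / (n - 1) * (D * X)) ^ 2 =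
          (n - 1) / 2 * (a ^ 2 * (t * w)) + 2 / (n - 1) * (t * w * D ^ 2 * X ^ 2) -
          2 * a * (t * (D * (w * X))) := by
        field_simp
        ring
      linarith
    have e4 : 2 / (n - 1) * (t * w * D ^ 2 * X ^ 2) ≤ 8 * r * D ^ 2 := by
      have h1 : t * w * D ^ 2 * X ^ 2 ≤ (2 * n * r) * D ^ 2 := by
        have h2 : t * (X ^ 2 * w) ≤ 1 * (2 * n * r) :=
          mul_le_mul ht hw2 (by positivity) (by norm_num)
        have h3 : t * w * D ^ 2 * X ^ 2 = (t * (X ^ 2 * w)) * D ^ 2 := by ring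
        rw [h3]
        have := mul_le_mul_of_nonneg_right h2 (sq_nonneg D)
        linarith
      rw [div_mul_eq_mul_div, div_le_iff₀ hm]
      have h5 : (n : ℝ) ≤ 2 * (n - 1) := by linarith
      have h6 : 2 * ((2 * n * r) * D ^ 2) ≤ 2 * ((2 * (2 * (n - 1)) * r) * D ^ 2) := by gcongr
      nlinarith
    have e5 : 2 * a * (t * (D * (1 + w * X))) = 2 * a * (t * D) + 2 * a * (t * (D * (w * X))) := by
      ring
    linarith
  have s2 : ∫ x in shell p δ, u x ^ 2 * (th1' η (x i) * (1 - |x i| * wt p x i)) ≤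
      ∫ x in shell p δ, L ^ 2 * η := by
    apply integral_mono_ae i3 (integrableOn_const (shell_finite h δ).ne)
    filter_upwards [hae] with x hx
    obtain ⟨hxd, hxs⟩ := hx
    have h1 : 0 ≤ th1' η (x i) := th1'_nonneg η _
    have h2 : 0 ≤ |x i| * wt p x i := mul_nonneg (abs_nonneg _) (wt_nonneg h x i)
    have h3 : th1' η (x i) * (1 - |x i| * wt p x i) ≤ th1' η (x i) :=
      mul_le_of_le_one_right h1 (by linarith)
    have h4 : u x ^ 2 ≤ L ^ 2 * (x i) ^ 2 := by
      rw [← sq_abs (u x), ← sq_abs (x i), ← mul_pow]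
      exact pow_le_pow_left₀ (abs_nonneg _) (hodd x) 2
    calc u x ^ 2 * (th1' η (x i) * (1 - |x i| * wt p x i)) ≤ u x ^ 2 * th1' η (x i) :=
          mul_le_mul_of_nonneg_left h3 (sq_nonneg _)
      _ ≤ L ^ 2 * (x i) ^ 2 * th1' η (x i) := mul_le_mul_of_nonneg_right h4 h1
      _ = L ^ 2 * ((x i) ^ 2 * th1' η (x i)) := by ring
      _ ≤ L ^ 2 * η := mul_le_mul_of_nonneg_left (th1'_err hη) (sq_nonneg _)
  have k1 : IntegrableOn (fun x => 2 * (|u x| * ‖fderiv ℝ u x‖)) (shell p δ) := c1.const_mul 2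
  have k2 : IntegrableOn (fun x => (n - 1) / 2 * (u x ^ 2 * (|th1 η (x i)| * wt p x i)))
    (shell p δ) := i1.const_mul _
  have k3 : IntegrableOn (fun x => 2 * (|u x| * ‖fderiv ℝ u x‖) +
    (n - 1) / 2 * (u x ^ 2 * (|th1 η (x i)| * wt p x i))) (shell p δ) := k1.add k2
  have k4 : IntegrableOn (fun x => 8 * r * ‖fderiv ℝ u x‖ ^ 2) (shell p δ) := c2.const_mul _
  rw [integral_add k3 k4, integral_add k1 k2, integral_const_mul, integral_const_mul,
    integral_const_mul] at s1
  rw [setIntegral_const, smul_eq_mul] at s2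
  have e : volume.real (shell p δ) = (volume (shell p δ)).toReal := rfl
  rw [e] at s2
  rw [hid]
  linarith

/-- the inequality for all directions together -/
theorem SG.far (h : SG p r) {δ : ℝ} (hδ : 0 < δ) (hδ1 : δ < 1)
    {u : EuclideanSpace ℝ (Fin n) → ℝ} {U L : ℝ} (hu : TF u U L) {ρ : ℝ} (hρ : 0 < ρ) :
    IntegrableOn (fun x => ∑ j, u x ^ 2 * (|th3 ρ (x j)| * wt p x j)) (shell p δ) ∧
    (n - 1 : ℝ) * ∫ x in shell p δ, ∑ j, u x ^ 2 * (|th3 ρ (x j)| * wt p x j) ≤
      4 * n * r * (∫ x in shell p δ, |u x| * ‖fderiv ℝ u x‖) +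
      (2 * n * r / ρ) * (∫ x in shell p δ, u x ^ 2) := by
  have hr := h.rpos
  have hAm : MeasurableSet (shell p δ) := (shell_open h δ).measurableSet
  have hdr := fun j => h.drift hδ hδ1 hu (th3_hasDerivAt hρ) (th3'_continuous hρ)
    (th3_sign ρ) (by simp [th3]) j
  have i1 := fun j => (hdr j).1
  have i2 := fun j => (hdr j).2.1
  have i3 := fun j => (hdr j).2.2.1
  have hid := fun j => (hdr j).2.2.2
  refine ⟨integrable_finsetSum _ fun j _ => i1 j, ?_⟩
  have huc := hu.cd.continuous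
  have hfd : Continuous (fun x => fderiv ℝ u x) := hu.cd.continuous_fderiv (by simp)
  have c1 : IntegrableOn (fun x => |u x| * ‖fderiv ℝ u x‖) (shell p δ) :=
    shell_cont_int h (huc.abs.mul hfd.norm)
  have c2 : IntegrableOn (fun x => u x ^ 2) (shell p δ) :=
    shell_cont_int h (huc.pow 2)
  have hae : ∀ᵐ x ∂(volume.restrict (shell p δ)), DifferentiableAt ℝ p x ∧ x ∈ shell p δ := by
    filter_upwards [ae_restrict_of_ae h.ae_diff, ae_restrict_mem hAm] with x hx hxs using ⟨hx, hxs⟩
  have hl1 : ∀ x ∈ shell p δ, ∑ j, |x j| ≤ n * r := fun x hx =>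
    (h.l1 x).trans (mul_le_of_le_one_right (by positivity) hx.2.le)
  rw [integral_finsetSum _ fun j _ => i1 j, Finset.mul_sum]
  simp only [hid]
  rw [Finset.sum_add_distrib, ← integral_finsetSum _ fun j _ => i2 j,
    ← integral_finsetSum _ fun j _ => i3 j]
  rw [← integral_const_mul, ← integral_const_mul]
  apply add_le_add
  · apply integral_mono_ae (integrable_finsetSum _ fun j _ => i2 j) (c1.const_mul _)
    filter_upwards [hae] with x hx
    obtain ⟨hxd, hxs⟩ := hx
    have hp : 0 < p x := hδ.trans hxs.1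
    have hD := norm_nonneg (fderiv ℝ u x)
    have e1 : ∑ j, 2 * u x * (th3 ρ (x j) * fderiv ℝ u x (ej j - bt p x j • x)) =
        2 * u x * fderiv ℝ u x (∑ j, th3 ρ (x j) • (ej j - bt p x j • x)) := by
      rw [map_sum, Finset.mul_sum]
      apply Finset.sum_congr rfl
      intro j _
      rw [map_smul, smul_eq_mul]
    have e2 : ‖∑ j, th3 ρ (x j) • (ej j - bt p x j • x)‖ ≤ 2 * n * r := by
      calc ‖∑ j, th3 ρ (x j) • (ej j - bt p x j • x)‖
          ≤ ∑ j, ‖th3 ρ (x j) • (ej j - bt p x j • x)‖ := norm_sum_le _ _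
        _ ≤ ∑ j, (|x j| + (|x j| * wt p x j) * (n * r)) := by
            apply Finset.sum_le_sum
            intro j _
            rw [norm_smul, Real.norm_eq_abs]
            have h1 : ‖ej j - bt p x j • x‖ ≤ 1 + wt p x j * (n * r) := by
              refine (norm_sub_le _ _).trans ?_
              rw [ej_norm, norm_smul, Real.norm_eq_abs, h.bt_abs]
              have := mul_le_mul_of_nonneg_left (h.norm_shell hxs) (wt_nonneg h x j)
              linarith
            calc |th3 ρ (x j)| * ‖ej j - bt p x j • x‖ ≤ |x j| * (1 + wt p x j * (n * r)) :=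
                  mul_le_mul (th3_abs_le ρ _) h1 (norm_nonneg _) (abs_nonneg _)
              _ = _ := by ring
        _ = ∑ j, |x j| + (∑ j, |x j| * wt p x j) * (n * r) := by
            rw [Finset.sum_add_distrib, Finset.sum_mul]
        _ ≤ n * r + 1 * (n * r) := by
            rw [h.sum_wt hxd hp]
            have := hl1 x hxs
            linarith
        _ = 2 * n * r := by ring
    rw [e1]
    refine (le_abs_self _).trans ?_
    rw [abs_mul, abs_mul, abs_of_pos (by norm_num : (0 : ℝ) < 2)]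
    have e3 := (fderiv ℝ u x).le_opNorm (∑ j, th3 ρ (x j) • (ej j - bt p x j • x))
    rw [Real.norm_eq_abs] at e3
    calc 2 * |u x| * |fderiv ℝ u x (∑ j, th3 ρ (x j) • (ej j - bt p x j • x))|
        ≤ 2 * |u x| * (‖fderiv ℝ u x‖ * (2 * n * r)) := by
          apply mul_le_mul_of_nonneg_left _ (by positivity)
          exact e3.trans (mul_le_mul_of_nonneg_left e2 hD)
      _ = 4 * n * r * (|u x| * ‖fderiv ℝ u x‖) := by ring
  · apply integral_mono_ae (integrable_finsetSum _ fun j _ => i3 j) (c2.const_mul _)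
    filter_upwards [hae] with x hx
    obtain ⟨hxd, hxs⟩ := hx
    have e1 : ∑ j, u x ^ 2 * (th3' ρ (x j) * (1 - |x j| * wt p x j)) ≤
        ∑ j, u x ^ 2 * (2 / ρ * |x j|) := by
      apply Finset.sum_le_sum
      intro j _
      apply mul_le_mul_of_nonneg_left _ (sq_nonneg _)
      have h1 : 0 ≤ th3' ρ (x j) := th3'_nonneg ρ _
      have h2 : 0 ≤ |x j| * wt p x j := mul_nonneg (abs_nonneg _) (wt_nonneg h x j)
      have h3 : th3' ρ (x j) * (1 - |x j| * wt p x j) ≤ th3' ρ (x j) :=
        mul_le_of_le_one_right h1 (by linarith)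
      have h4 := th3'_le (t := x j) hρ
      have h5 : 2 * |x j| / ρ = 2 / ρ * |x j| := by ring
      linarith
    refine e1.trans ?_
    rw [← Finset.mul_sum, ← Finset.mul_sum]
    have h6 := mul_le_mul_of_nonneg_left (hl1 x hxs) (by positivity : 0 ≤ 2 / ρ)
    have h7 := mul_le_mul_of_nonneg_left h6 (sq_nonneg (u x))
    calc u x ^ 2 * (2 / ρ * ∑ j, |x j|) ≤ u x ^ 2 * (2 / ρ * (n * r)) := h7
      _ = _ := by ring

/-- pointwise covering -/
lemma SG.cover (h : SG p r) (hn : 2 ≤ n) {x : EuclideanSpace ℝ (Fin n)}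
    (hx : DifferentiableAt ℝ p x) (hp : 0 < p x) (i : Fin n) {ρ η : ℝ} (hρ : 0 < ρ) (hη : 0 < η)
    (hηρ : η ≤ ρ) :
    1 ≤ (if |x i| < ρ then (1 : ℝ) else 0) +
      (8 / n) * ((n - 1 : ℝ) * ∑ j, |th3 ρ (x j)| * wt p x j) +
      4 * ρ * ((n - 1 : ℝ) * (|th1 η (x i)| * wt p x i)) := by
  have hn2 : (2 : ℝ) ≤ n := by exact_mod_cast hn
  have hm : (0 : ℝ) < n - 1 := by linarith
  have hS : 0 ≤ ∑ j, |th3 ρ (x j)| * wt p x j :=
    Finset.sum_nonneg fun j _ => mul_nonneg (abs_nonneg _) (wt_nonneg h x j)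
  have hT : 0 ≤ |th1 η (x i)| * wt p x i := mul_nonneg (abs_nonneg _) (wt_nonneg h x i)
  by_cases hi : |x i| < ρ
  · rw [if_pos hi]
    have a1 : 0 ≤ (8 / n) * ((n - 1 : ℝ) * ∑ j, |th3 ρ (x j)| * wt p x j) := by positivity
    have a2 : 0 ≤ 4 * ρ * ((n - 1 : ℝ) * (|th1 η (x i)| * wt p x i)) := by positivity
    linarith
  rw [if_neg hi, zero_add]
  push Not at hi
  by_cases hw : 1 / (2 * ρ) ≤ (n - 1) * wt p x i
  · have h1 := th1_half hη (hηρ.trans hi)
    have a1 : 0 ≤ (8 / n) * ((n - 1 : ℝ) * ∑ j, |th3 ρ (x j)| * wt p x j) := by positivity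
    have a2 : 1 ≤ 4 * ρ * ((n - 1 : ℝ) * (|th1 η (x i)| * wt p x i)) := by
      have e : 4 * ρ * ((n - 1 : ℝ) * (|th1 η (x i)| * wt p x i)) =
        (4 * ρ) * (|th1 η (x i)| * ((n - 1) * wt p x i)) := by ring
      rw [e]
      calc (1 : ℝ) = (4 * ρ) * (1 / 2 * (1 / (2 * ρ))) := by field_simp; norm_num
        _ ≤ (4 * ρ) * (|th1 η (x i)| * ((n - 1) * wt p x i)) := by
          apply mul_le_mul_of_nonneg_left _ (by positivity)
          exact mul_le_mul h1 hw (by positivity) (abs_nonneg _)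
    linarith
  · push Not at hw
    have a2 : 0 ≤ 4 * ρ * ((n - 1 : ℝ) * (|th1 η (x i)| * wt p x i)) := by positivity
    have key : 1 / 4 ≤ ∑ j, |th3 ρ (x j)| * wt p x j := by
      have hterm : ∀ j, |x j| * wt p x j ≤ 2 * (|th3 ρ (x j)| * wt p x j) +
          (if j = i then 0 else ρ * wt p x i) := by
        intro j
        by_cases hj : ρ ≤ |x j|
        · have h1 := th3_half hρ hj
          have h2 : |x j| * wt p x j ≤ 2 * (|th3 ρ (x j)| * wt p x j) := by
            have := mul_le_mul_of_nonneg_right h1 (wt_nonneg h x j)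
            linarith
          have h3 : (0 : ℝ) ≤ (if j = i then 0 else ρ * wt p x i) := by
            split_ifs
            · exact le_rfl
            · exact mul_nonneg hρ.le (wt_nonneg h x i)
          linarith
        · push Not at hj
          have hji : j ≠ i := by rintro rfl; linarith
          rw [if_neg hji]
          have h1 : wt p x j ≤ wt p x i := h.wt_mono hx (hj.trans_le hi)
          have h2 : |x j| * wt p x j ≤ ρ * wt p x i :=
            mul_le_mul hj.le h1 (wt_nonneg h x j) hρ.le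
          have h3 : 0 ≤ 2 * (|th3 ρ (x j)| * wt p x j) := by
            have := mul_nonneg (abs_nonneg (th3 ρ (x j))) (wt_nonneg h x j)
            linarith
          linarith
      have hsum := Finset.sum_le_sum fun j (_ : j ∈ Finset.univ) => hterm j
      rw [h.sum_wt hx hp, Finset.sum_add_distrib, ← Finset.mul_sum] at hsum
      have hsum2 : ∑ j, (if j = i then 0 else ρ * wt p x i) = (n - 1 : ℝ) * (ρ * wt p x i) := by
        have : ∀ j, (if j = i then (0 : ℝ) else ρ * wt p x i) =
            ρ * wt p x i - (if j = i then ρ * wt p x i else 0) := by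
          intro j
          split_ifs <;> ring
        simp only [this, Finset.sum_sub_distrib, Finset.sum_ite_eq', Finset.mem_univ, if_true,
          Finset.sum_const, Finset.card_univ, Fintype.card_fin, nsmul_eq_mul]
        ring
      rw [hsum2] at hsum
      have h5 : (n - 1 : ℝ) * (ρ * wt p x i) ≤ 1 / 2 := by
        have e : (n - 1 : ℝ) * (ρ * wt p x i) = ρ * ((n - 1) * wt p x i) := by ring
        rw [e]
        have h6 := mul_le_mul_of_nonneg_left hw.le hρ.le
        have h7 : ρ * (1 / (2 * ρ)) = 1 / 2 := by field_simp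
        linarith
      linarith
    have a1 : 1 ≤ (8 / n) * ((n - 1 : ℝ) * ∑ j, |th3 ρ (x j)| * wt p x j) := by
      have hn0 : (0 : ℝ) < n := by linarith
      calc (1 : ℝ) ≤ (8 / n) * ((n - 1) * (1 / 4)) := by
            rw [div_mul_eq_mul_div, le_div_iff₀ hn0]
            linarith
        _ ≤ _ := by
          apply mul_le_mul_of_nonneg_left _ (by positivity)
          exact mul_le_mul_of_nonneg_left key hm.le
    linarith

/-- the level inequality on a shell -/
theorem SG.level_shell (h : SG p r) (hn : 2 ≤ n) {δ : ℝ} (hδ : 0 < δ) (hδ1 : δ < 1)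
    {u : EuclideanSpace ℝ (Fin n) → ℝ} {U L : ℝ} (hu : TF u U L) (i : Fin n)
    (hodd : ∀ x, |u x| ≤ L * |x i|) :
    ∫ x in shell p δ, u x ^ 2 ≤
      2 * (∫ x in shell p δ, u x ^ 2 * (if |x i| < 128 * r then (1 : ℝ) else 0)) +
      2 * 10 ^ 7 * r ^ 2 * ∫ x in shell p δ, ‖fderiv ℝ u x‖ ^ 2 := by
  have hr := h.rpos
  have hAm : MeasurableSet (shell p δ) := (shell_open h δ).measurableSet
  have hn2 : (2 : ℝ) ≤ n := by exact_mod_cast hn
  have hn0 : (0 : ℝ) < n := by linarith
  have huc := hu.cd.continuous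
  have hfd : Continuous (fun x => fderiv ℝ u x) := hu.cd.continuous_fderiv (by simp)
  have c1 : IntegrableOn (fun x => |u x| * ‖fderiv ℝ u x‖) (shell p δ) :=
    shell_cont_int h (huc.abs.mul hfd.norm)
  have c2 : IntegrableOn (fun x => ‖fderiv ℝ u x‖ ^ 2) (shell p δ) :=
    shell_cont_int h (hfd.norm.pow 2)
  have c3 : IntegrableOn (fun x => u x ^ 2) (shell p δ) :=
    shell_cont_int h (huc.pow 2)
  have hcoord : Continuous (fun x : EuclideanSpace ℝ (Fin n) => x i) := by fun_prop
  have hms : MeasurableSet {x : EuclideanSpace ℝ (Fin n) | |x i| < 128 * r} :=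
    (isOpen_lt hcoord.abs continuous_const).measurableSet
  have c4 : IntegrableOn (fun x => u x ^ 2 * (if |x i| < 128 * r then (1 : ℝ) else 0))
      (shell p δ) := by
    have : (fun x => u x ^ 2 * (if |x i| < 128 * r then (1 : ℝ) else 0)) =
        {x : EuclideanSpace ℝ (Fin n) | |x i| < 128 * r}.indicator (fun x => u x ^ 2) := by
      funext x
      by_cases hx : |x i| < 128 * r
      · simp [hx]
      · simp [hx]
    rw [this]
    exact c3.indicator hms
  obtain ⟨f1, f2⟩ := h.far hδ hδ1 hu (ρ := 128 * r) (by positivity)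
  have hae : ∀ᵐ x ∂(volume.restrict (shell p δ)), DifferentiableAt ℝ p x ∧ x ∈ shell p δ := by
    filter_upwards [ae_restrict_of_ae h.ae_diff, ae_restrict_mem hAm] with x hx hxs using ⟨hx, hxs⟩
  set I1 := ∫ x in shell p δ, |u x| * ‖fderiv ℝ u x‖ with hI1
  set I2 := ∫ x in shell p δ, ‖fderiv ℝ u x‖ ^ 2 with hI2
  set I3 := ∫ x in shell p δ, u x ^ 2 with hI3
  set I4 := ∫ x in shell p δ, u x ^ 2 * (if |x i| < 128 * r then (1 : ℝ) else 0) with hI4
  set v := (volume (shell p δ)).toReal with hv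
  have main : ∀ η : ℝ, 0 < η → η ≤ 128 * r → I3 ≤ I4 + (8 / n) * (4 * n * r * I1 +
      (2 * n * r / (128 * r)) * I3) + 4 * (128 * r) * (4 * I1 + 16 * r * I2 + 2 * L ^ 2 * η * v) := by
    intro η hη hηr
    obtain ⟨g1, g2⟩ := h.near hn hδ hδ1 hu i hodd hη
    have k1 : IntegrableOn (fun x => (8 / n) * ((n - 1 : ℝ) *
        ∑ j, u x ^ 2 * (|th3 (128 * r) (x j)| * wt p x j))) (shell p δ) :=
      (f1.const_mul _).const_mul _
    have k2 : IntegrableOn (fun x => 4 * (128 * r) * ((n - 1 : ℝ) *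
        (u x ^ 2 * (|th1 η (x i)| * wt p x i)))) (shell p δ) :=
      (g1.const_mul _).const_mul _
    have k3 : IntegrableOn (fun x => u x ^ 2 * (if |x i| < 128 * r then (1 : ℝ) else 0) +
        (8 / n) * ((n - 1 : ℝ) * ∑ j, u x ^ 2 * (|th3 (128 * r) (x j)| * wt p x j)))
        (shell p δ) := c4.add k1
    have step : I3 ≤ ∫ x in shell p δ, (u x ^ 2 * (if |x i| < 128 * r then (1 : ℝ) else 0) +
        (8 / n) * ((n - 1 : ℝ) * ∑ j, u x ^ 2 * (|th3 (128 * r) (x j)| * wt p x j)) +
        4 * (128 * r) * ((n - 1 : ℝ) * (u x ^ 2 * (|th1 η (x i)| * wt p x i)))) := by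
      apply integral_mono_ae c3 (k3.add k2)
      filter_upwards [hae] with x hx
      obtain ⟨hxd, hxs⟩ := hx
      have hp : 0 < p x := hδ.trans hxs.1
      have hc := h.cover hn hxd hp i (by positivity : 0 < 128 * r) hη hηr
      have hc2 := mul_le_mul_of_nonneg_left hc (sq_nonneg (u x))
      simp only [Pi.add_apply]
      rw [← Finset.mul_sum]
      calc u x ^ 2 = u x ^ 2 * 1 := by ring
        _ ≤ _ := hc2
        _ = _ := by ring
    rw [integral_add k3 k2, integral_add c4 k1, integral_const_mul, integral_const_mul,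
      integral_const_mul, integral_const_mul] at step
    have s1 := mul_le_mul_of_nonneg_left f2 (by positivity : (0 : ℝ) ≤ 8 / n)
    have s2 := mul_le_mul_of_nonneg_left g2 (by positivity : (0 : ℝ) ≤ 4 * (128 * r))
    linarith
  have main0 : I3 ≤ I4 + (8 / n) * (4 * n * r * I1 +
      (2 * n * r / (128 * r)) * I3) + 4 * (128 * r) * (4 * I1 + 16 * r * I2) := by
    have ht : Tendsto (fun η : ℝ => I4 + (8 / n) * (4 * n * r * I1 +
      (2 * n * r / (128 * r)) * I3) + 4 * (128 * r) * (4 * I1 + 16 * r * I2 + 2 * L ^ 2 * η * v))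
      (𝓝[>] 0) (𝓝 (I4 + (8 / n) * (4 * n * r * I1 +
      (2 * n * r / (128 * r)) * I3) + 4 * (128 * r) * (4 * I1 + 16 * r * I2 + 2 * L ^ 2 * 0 * v))) :=
      (Continuous.tendsto (by fun_prop) _).mono_left nhdsWithin_le_nhds
    have := ge_of_tendsto ht (by
      filter_upwards [Ioo_mem_nhdsGT (by positivity : (0 : ℝ) < 128 * r)] with η hη
      exact main η hη.1 hη.2.le)
    linarith
  have hI2 : 0 ≤ I2 := integral_nonneg fun x => by positivity
  have hI3 : 0 ≤ I3 := integral_nonneg fun x => by positivity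
  have hI4 : 0 ≤ I4 := integral_nonneg fun x => by
    show 0 ≤ u x ^ 2 * (if |x i| < 128 * r then (1 : ℝ) else 0)
    split_ifs <;> positivity
  -- AM-GM
  have amgm : 2080 * r * I1 ≤ I3 / 8 + 8652800 * r ^ 2 * I2 := by
    have : ∫ x in shell p δ, 2080 * r * (|u x| * ‖fderiv ℝ u x‖) ≤
        ∫ x in shell p δ, (1 / 8 * u x ^ 2 + 8652800 * r ^ 2 * ‖fderiv ℝ u x‖ ^ 2) := by
      apply integral_mono (c1.const_mul _) ((c3.const_mul _).add (c2.const_mul _))
      intro x
      simp only [Pi.add_apply]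
      rw [← sq_abs (u x)]
      nlinarith [sq_nonneg (|u x| - 8320 * r * ‖fderiv ℝ u x‖)]
    rw [integral_const_mul, integral_add (c3.const_mul _) (c2.const_mul _), integral_const_mul,
      integral_const_mul] at this
    linarith
  have e1 : (8 / n) * (4 * n * r * I1 + (2 * n * r / (128 * r)) * I3) = 32 * r * I1 + I3 / 8 := by
    field_simp
    ring
  rw [e1] at main0
  have hr2 : 0 ≤ r ^ 2 * I2 := by positivity
  nlinarith

lemma unit_finite (h : SG p r) :
    (volume : Measure (EuclideanSpace ℝ (Fin n))) {x | p x < 1} < ∞ := by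
  have hr := h.rpos
  refine lt_of_le_of_lt (measure_mono ?_)
    (measure_closedBall_lt_top (x := (0 : EuclideanSpace ℝ (Fin n))) (r := n * r))
  intro x hx
  have hx1 : p x < 1 := hx
  rw [mem_closedBall_zero_iff]
  exact (h.norm_le x).trans (mul_le_of_le_one_right (by positivity) hx1.le)

lemma unit_cont_int (h : SG p r) {f : EuclideanSpace ℝ (Fin n) → ℝ} (hf : Continuous f) :
    IntegrableOn f {x | p x < 1} := by
  have hr := h.rpos
  refine (hf.continuousOn.integrableOn_compact
    (isCompact_closedBall (0 : EuclideanSpace ℝ (Fin n)) (n * r))).mono_set ?_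
  intro x hx
  have hx1 : p x < 1 := hx
  rw [mem_closedBall_zero_iff]
  exact (h.norm_le x).trans (mul_le_of_le_one_right (by positivity) hx1.le)

lemma shell_lim (h : SG p r) (hn : 0 < n) {f : EuclideanSpace ℝ (Fin n) → ℝ}
    (hf : IntegrableOn f {x | p x < 1}) :
    Tendsto (fun k : ℕ => ∫ x in shell p (1 / ((k : ℝ) + 2)), f x) atTop
      (𝓝 (∫ x in {x | p x < 1}, f x)) := by
  have hsub : (⋃ k : ℕ, shell p (1 / ((k : ℝ) + 2))) ⊆ {x | p x < 1} := by
    intro x hx
    obtain ⟨k, hk⟩ := Set.mem_iUnion.mp hx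
    exact hk.2
  have hmono : Monotone (fun k : ℕ => shell p (1 / ((k : ℝ) + 2))) := by
    intro a b hab x hx
    refine ⟨lt_of_le_of_lt ?_ hx.1, hx.2⟩
    have hab' : (a : ℝ) ≤ b := by exact_mod_cast hab
    apply one_div_le_one_div_of_le (by positivity)
    linarith
  have h1 := tendsto_setIntegral_of_monotone (μ := volume) (f := f)
    (fun k : ℕ => (shell_open h (1 / ((k : ℝ) + 2))).measurableSet) hmono (hf.mono_set hsub)
  have h2 : ∫ x in ⋃ k : ℕ, shell p (1 / ((k : ℝ) + 2)), f x = ∫ x in {x | p x < 1}, f x := by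
    apply setIntegral_congr_set
    haveI : Nonempty (Fin n) := ⟨⟨0, hn⟩⟩
    have hz : (volume : Measure (EuclideanSpace ℝ (Fin n))) {0} = 0 := measure_singleton 0
    have hne : ∀ᵐ x ∂(volume : Measure (EuclideanSpace ℝ (Fin n))), x ≠ 0 :=
      (measure_eq_zero_iff_ae_notMem.mp hz).mono fun x hx => by simpa using hx
    filter_upwards [hne] with x hx
    have hp := h.pos hx
    apply propext
    constructor
    · intro hxs; exact hsub hxs
    · intro hxs
      obtain ⟨k, hk⟩ := exists_nat_one_div_lt hp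
      apply Set.mem_iUnion.mpr
      refine ⟨k, lt_of_le_of_lt ?_ hk, hxs⟩
      apply one_div_le_one_div_of_le (by positivity)
      linarith
  rw [h2] at h1
  exact h1

/-- the level inequality -/
theorem SG.level (h : SG p r)
    {u : EuclideanSpace ℝ (Fin n) → ℝ} {U L : ℝ} (hu : TF u U L) (i : Fin n)
    (hodd : ∀ x, |u x| ≤ L * |x i|) :
    ∫ x in {x | p x < 1}, u x ^ 2 ≤
      2 * (∫ x in {x | p x < 1}, u x ^ 2 * (if |x i| < 128 * r then (1 : ℝ) else 0)) +
      2 * 10 ^ 7 * r ^ 2 * ∫ x in {x | p x < 1}, ‖fderiv ℝ u x‖ ^ 2 := by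
  have hr := h.rpos
  have hn0 : 0 < n := i.pos
  have huc := hu.cd.continuous
  have hfd : Continuous (fun x => fderiv ℝ u x) := hu.cd.continuous_fderiv (by simp)
  have c2 : IntegrableOn (fun x => ‖fderiv ℝ u x‖ ^ 2) {x | p x < 1} :=
    unit_cont_int h (hfd.norm.pow 2)
  have c3 : IntegrableOn (fun x => u x ^ 2) {x | p x < 1} :=
    unit_cont_int h (huc.pow 2)
  have hcoord : Continuous (fun x : EuclideanSpace ℝ (Fin n) => x i) := by fun_prop
  have hms : MeasurableSet {x : EuclideanSpace ℝ (Fin n) | |x i| < 128 * r} :=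
    (isOpen_lt hcoord.abs continuous_const).measurableSet
  have c4 : IntegrableOn (fun x => u x ^ 2 * (if |x i| < 128 * r then (1 : ℝ) else 0))
      {x | p x < 1} := by
    have : (fun x => u x ^ 2 * (if |x i| < 128 * r then (1 : ℝ) else 0)) =
        {x : EuclideanSpace ℝ (Fin n) | |x i| < 128 * r}.indicator (fun x => u x ^ 2) := by
      funext x
      by_cases hx : |x i| < 128 * r
      · simp [hx]
      · simp [hx]
    rw [this]
    exact c3.indicator hms
  have hI2 : 0 ≤ ∫ x in {x | p x < 1}, ‖fderiv ℝ u x‖ ^ 2 :=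
    integral_nonneg fun x => by positivity
  have hI3 : 0 ≤ ∫ x in {x | p x < 1}, u x ^ 2 := integral_nonneg fun x => by positivity
  by_cases hn : 2 ≤ n
  · have l2 := shell_lim h hn0 c2
    have l3 := shell_lim h hn0 c3
    have l4 := shell_lim h hn0 c4
    refine le_of_tendsto_of_tendsto' l3 ((l4.const_mul 2).add (l2.const_mul _)) fun k => ?_
    have hk : (0 : ℝ) < 1 / ((k : ℝ) + 2) := by positivity
    have hk1 : 1 / ((k : ℝ) + 2) < 1 := by
      rw [div_lt_one (by positivity)]
      have : (0 : ℝ) ≤ k := Nat.cast_nonneg k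
      linarith
    exact h.level_shell hn hk hk1 hu i hodd
  · have hn1 : n = 1 := by omega
    have hm : MeasurableSet {x | p x < 1} := (isOpen_lt h.continuous continuous_const).measurableSet
    have e : ∫ x in {x | p x < 1}, u x ^ 2 * (if |x i| < 128 * r then (1 : ℝ) else 0) =
        ∫ x in {x | p x < 1}, u x ^ 2 := by
      apply setIntegral_congr_fun hm
      intro x hx
      have hx1 : p x < 1 := hx
      have h1 := h.coord_le x i
      have h2 : (n : ℝ) = 1 := by exact_mod_cast hn1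
      rw [h2, one_mul] at h1
      have h3 : |x i| < 128 * r := by
        have : r * p x ≤ r * 1 := mul_le_mul_of_nonneg_left hx1.le hr.le
        linarith
      simp only [if_pos h3, mul_one]
    rw [e]
    have : 0 ≤ 2 * 10 ^ 7 * r ^ 2 * ∫ x in {x | p x < 1}, ‖fderiv ℝ u x‖ ^ 2 := by positivity
    linarith

end Pool.Agent.Lib.MP_6d896a_gt
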