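import Mathlib
import Pool.Agent.Lib.MP_6d896a_gt.Sym4
import Pool.Agent.Lib.MP_6d896a_gt.Smooth

/-!
Convex potentials invariant under signed permutations: the Poincare inequality for functions odd in
one coordinate.
-/

namespace Pool.Agent.Lib.MP_6d896a_gt

open MeasureTheory Filter Topology Metric
open scoped ENNReal NNReal

variable {n : ℕ} {V : EuclideanSpace ℝ (Fin n) → ℝ} {κ C : ℝ}

/-- symmetric convex potentials -/
structure SP (V : EuclideanSpace ℝ (Fin n) → ℝ) (κ C : ℝ) : Prop where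
  kpos : 0 < κ
  cd : ContDiff ℝ 1 V
  cvx : ConvexOn ℝ Set.univ V
  inv : ∀ (σ : Equiv.Perm (Fin n)) (ε : Fin n → ℝ), IsSign ε → ∀ x, V (sperm σ ε x) = V x
  coer : ∀ x, V 0 + κ / 2 * ‖x‖ ^ 2 ≤ V x
  grow : ∀ x, ‖fderiv ℝ V x‖ ≤ C * (1 + ‖x‖)

lemma SP.Cpos (h : SP V κ C) : 0 ≤ C := by
  have := (norm_nonneg _).trans (h.grow 0)
  simpa using this

lemma SP.min (h : SP V κ C) (x : EuclideanSpace ℝ (Fin n)) : V 0 ≤ V x := by
  have h1 := h.coer x
  have h2 := h.kpos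
  have : 0 ≤ κ / 2 * ‖x‖ ^ 2 := by positivity
  linarith

/-- gradient inequality -/
lemma SP.grad_ineq (h : SP V κ C) (x y : EuclideanSpace ℝ (Fin n)) :
    V x + fderiv ℝ V x (y - x) ≤ V y := by
  have hd : DifferentiableAt ℝ V x := (h.cd.differentiable (by simp)).differentiableAt
  have h1 : HasLineDerivAt ℝ V (fderiv ℝ V x (y - x)) x (y - x) :=
    hd.hasFDerivAt.hasLineDerivAt (y - x)
  have h2 := h1.tendsto_slope_zero_right
  have h3 : fderiv ℝ V x (y - x) ≤ V y - V x := by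
    apply le_of_tendsto h2
    filter_upwards [Ioc_mem_nhdsGT (zero_lt_one : (0 : ℝ) < 1)] with t ht
    have ht0 : (0 : ℝ) < t := ht.1
    rw [smul_eq_mul, inv_mul_le_iff₀ ht0]
    have h4 := h.cvx.2 (Set.mem_univ x) (Set.mem_univ y) (by linarith [ht.2] : (0 : ℝ) ≤ 1 - t)
      ht0.le (by ring)
    have e : (1 - t) • x + t • y = x + t • (y - x) := by
      rw [sub_smul, one_smul, smul_sub]; abel
    rw [e, smul_eq_mul, smul_eq_mul] at h4
    linarith
  linarith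

lemma SP.radial (h : SP V κ C) (x : EuclideanSpace ℝ (Fin n)) :
    V x - V 0 ≤ fderiv ℝ V x x := by
  have := h.grad_ineq x 0
  rw [zero_sub, map_neg] at this
  linarith

lemma SP.coord (h : SP V κ C) (x : EuclideanSpace ℝ (Fin n)) (i : Fin n) :
    0 ≤ x i * fderiv ℝ V x (ej i) := by
  have h1 := h.inv (Equiv.refl _) (fun k => if k = i then -1 else 1)
    (fun k => by by_cases hk : k = i <;> simp [hk]) x
  have e : sperm (Equiv.refl _) (fun k => if k = i then -1 else 1) x = x - (2 * x i) • ej i := by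
    ext k
    by_cases hk : k = i
    · subst hk
      simp [sperm, ej]
      ring
    · simp [sperm, ej, hk]
  rw [e] at h1
  have h2 := h.grad_ineq x (x - (2 * x i) • ej i)
  rw [h1, sub_sub_cancel_left, map_neg, map_smul, smul_eq_mul] at h2
  linarith

/-- integrability -/
lemma SP.int (h : SP V κ C) {f : EuclideanSpace ℝ (Fin n) → ℝ}
    (hf : AEStronglyMeasurable f volume) {A : ℝ} (hA : ∀ x, |f x| ≤ A * (1 + ‖x‖) ^ 4) :
    Integrable (fun x => f x * Real.exp (-V x)) := by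
  have hk := h.kpos
  have hA0 : 0 ≤ A := by
    have h0 := (abs_nonneg _).trans (hA 0)
    simp only [norm_zero, add_zero, one_pow, mul_one] at h0
    exact h0
  have hg : Integrable (fun x : EuclideanSpace ℝ (Fin n) =>
      (A * (8 + 16 / (κ / 4) ^ 2) * Real.exp (-V 0)) * Real.exp (-(κ / 4) * ‖x‖ ^ 2)) :=
    (gexp_integrable (by positivity : 0 < κ / 4)).const_mul _
  refine hg.mono' (hf.mul ?_) (ae_of_all _ fun x => ?_)
  · exact (Real.continuous_exp.comp h.cd.continuous.neg).aestronglyMeasurable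
  · rw [Real.norm_eq_abs, abs_mul, abs_of_pos (Real.exp_pos _)]
    have h1 := growth_bound (s := κ / 4) (r := ‖x‖) (by positivity) (norm_nonneg x)
    have h2 : Real.exp (-V x) ≤ Real.exp (-V 0) * Real.exp (-(κ / 2) * ‖x‖ ^ 2) := by
      rw [← Real.exp_add]
      apply Real.exp_le_exp.mpr
      have := h.coer x
      linarith
    have h3 : |f x| ≤ A * ((8 + 16 / (κ / 4) ^ 2) * Real.exp (κ / 4 * ‖x‖ ^ 2)) :=
      (hA x).trans (mul_le_mul_of_nonneg_left h1 hA0)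
    have h4 : Real.exp (κ / 4 * ‖x‖ ^ 2) * Real.exp (-(κ / 2) * ‖x‖ ^ 2) =
        Real.exp (-(κ / 4) * ‖x‖ ^ 2) := by
      rw [← Real.exp_add]; congr 1; ring
    calc |f x| * Real.exp (-V x)
        ≤ (A * ((8 + 16 / (κ / 4) ^ 2) * Real.exp (κ / 4 * ‖x‖ ^ 2))) *
          (Real.exp (-V 0) * Real.exp (-(κ / 2) * ‖x‖ ^ 2)) := by
          apply mul_le_mul h3 h2 (Real.exp_pos _).le (by positivity)
      _ = (A * (8 + 16 / (κ / 4) ^ 2) * Real.exp (-V 0)) *
          (Real.exp (κ / 4 * ‖x‖ ^ 2) * Real.exp (-(κ / 2) * ‖x‖ ^ 2)) := by ring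
      _ = _ := by rw [h4]

lemma SP.int' (h : SP V κ C) {f : EuclideanSpace ℝ (Fin n) → ℝ} (hf : Continuous f)
    {A : ℝ} (hA : ∀ x, |f x| ≤ A * (1 + ‖x‖) ^ 4) :
    Integrable (fun x => f x * Real.exp (-V x)) := h.int hf.aestronglyMeasurable hA

lemma one_le_pow4 (x : EuclideanSpace ℝ (Fin n)) : 1 ≤ (1 + ‖x‖) ^ 4 :=
  one_le_pow₀ (by linarith [norm_nonneg x])

lemma pow_le_pow4 (x : EuclideanSpace ℝ (Fin n)) {k : ℕ} (hk : k ≤ 4) :
    (1 + ‖x‖) ^ k ≤ (1 + ‖x‖) ^ 4 :=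
  pow_le_pow_right₀ (by linarith [norm_nonneg x]) hk

lemma exp_fderiv (h : SP V κ C) (x w : EuclideanSpace ℝ (Fin n)) :
    fderiv ℝ (fun x => Real.exp (-V x)) x w = -(fderiv ℝ V x w) * Real.exp (-V x) := by
  have hd : HasFDerivAt V (fderiv ℝ V x) x :=
    (h.cd.differentiable (by simp)).differentiableAt.hasFDerivAt
  have h1 : HasFDerivAt (fun x => Real.exp (-V x)) _ x := hd.neg.exp
  rw [h1.fderiv]
  simp
  ring

/-- integration by parts -/
lemma SP.ibp (h : SP V κ C) {f : EuclideanSpace ℝ (Fin n) → ℝ} (hf : ContDiff ℝ 1 f)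
    (w : EuclideanSpace ℝ (Fin n)) {A : ℝ} (hA : ∀ x, |f x| ≤ A * (1 + ‖x‖) ^ 2)
    (hA' : ∀ x, |fderiv ℝ f x w| ≤ A * (1 + ‖x‖) ^ 4) :
    ∫ x, f x * fderiv ℝ V x w * Real.exp (-V x) = ∫ x, fderiv ℝ f x w * Real.exp (-V x) := by
  have hC := h.Cpos
  have hA0 : 0 ≤ A := by
    have h0 := (abs_nonneg _).trans (hA 0)
    simp only [norm_zero, add_zero, one_pow, mul_one] at h0
    exact h0
  have hfc := hf.continuous
  have hfd : Continuous (fun x => fderiv ℝ f x w) :=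
    (hf.continuous_fderiv (by simp)).clm_apply continuous_const
  have hVd : Continuous (fun x => fderiv ℝ V x w) :=
    (h.cd.continuous_fderiv (by simp)).clm_apply continuous_const
  have hV' : ∀ x, |fderiv ℝ V x w| ≤ C * ‖w‖ * (1 + ‖x‖) := by
    intro x
    have h1 := (fderiv ℝ V x).le_opNorm w
    rw [Real.norm_eq_abs] at h1
    have h2 := mul_le_mul_of_nonneg_right (h.grow x) (norm_nonneg w)
    linarith
  have i1 : Integrable (fun x => fderiv ℝ f x w * Real.exp (-V x)) := h.int' hfd hA'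
  have i2 : Integrable (fun x => f x * fderiv ℝ V x w * Real.exp (-V x)) := by
    have hfm : Continuous (fun x => f x * fderiv ℝ V x w) := hfc.mul hVd
    apply h.int' hfm (A := A * (C * ‖w‖))
    intro x
    have hx := norm_nonneg x
    rw [abs_mul]
    have h3 : |f x| * |fderiv ℝ V x w| ≤ A * (1 + ‖x‖) ^ 2 * (C * ‖w‖ * (1 + ‖x‖)) :=
      mul_le_mul (hA x) (hV' x) (abs_nonneg _) (by positivity)
    have h4 := mul_le_mul_of_nonneg_left (pow_le_pow4 x (by norm_num : 3 ≤ 4))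
      (by positivity : 0 ≤ A * (C * ‖w‖))
    calc |f x| * |fderiv ℝ V x w| ≤ A * (1 + ‖x‖) ^ 2 * (C * ‖w‖ * (1 + ‖x‖)) := h3
      _ = A * (C * ‖w‖) * (1 + ‖x‖) ^ 3 := by ring
      _ ≤ _ := h4
  have i3 : Integrable (fun x => f x * Real.exp (-V x)) := by
    apply h.int' hfc (A := A)
    intro x
    exact (hA x).trans (mul_le_mul_of_nonneg_left (pow_le_pow4 x (by norm_num : 2 ≤ 4)) hA0)
  have hE : Differentiable ℝ (fun x => Real.exp (-V x)) := by
    have := h.cd.differentiable (by simp)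
    fun_prop
  have key := integral_mul_fderiv_eq_neg_fderiv_mul_of_integrable (μ := volume)
    (f := f) (g := fun x => Real.exp (-V x)) (v := w) i1
    (by
      have e : (fun x => f x * fderiv ℝ (fun x => Real.exp (-V x)) x w) =
        fun x => -(f x * fderiv ℝ V x w * Real.exp (-V x)) := by
        funext x; rw [exp_fderiv h]; ring
      rw [e]; exact i2.neg) i3 (fun x _ => (hf.differentiable (by simp)).differentiableAt)
      (fun x _ => hE.differentiableAt)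
  have e : (fun x => f x * fderiv ℝ (fun x => Real.exp (-V x)) x w) =
        fun x => -(f x * fderiv ℝ V x w * Real.exp (-V x)) := by
    funext x; rw [exp_fderiv h]; ring
  rw [e, integral_neg] at key
  linarith

/-- the decreasing sign -/
noncomputable def ta (ρ δ t : ℝ) : ℝ :=
  t * (ρ / (Real.sqrt (t ^ 2 + δ ^ 2) * (ρ + Real.sqrt (t ^ 2 + δ ^ 2))))

/-- its derivative -/
noncomputable def ta' (ρ δ t : ℝ) : ℝ :=
  δ ^ 2 / Real.sqrt (t ^ 2 + δ ^ 2) ^ 3 * (ρ / (ρ + Real.sqrt (t ^ 2 + δ ^ 2))) -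
    t ^ 2 / Real.sqrt (t ^ 2 + δ ^ 2) ^ 2 * (ρ / (ρ + Real.sqrt (t ^ 2 + δ ^ 2)) ^ 2)

lemma ta_hasDerivAt {ρ δ : ℝ} (hρ : 0 < ρ) (hδ : 0 < δ) (t : ℝ) :
    HasDerivAt (ta ρ δ) (ta' ρ δ t) t := by
  have hq : 0 < t ^ 2 + δ ^ 2 := by positivity
  have hs : 0 < Real.sqrt (t ^ 2 + δ ^ 2) := Real.sqrt_pos.mpr hq
  have h1 : HasDerivAt (fun t : ℝ => t ^ 2 + δ ^ 2) (2 * t) t := by
    simpa using (hasDerivAt_pow 2 t).add_const (δ ^ 2)
  have h2 := h1.sqrt hq.ne'
  have h3 := h2.mul (h2.const_add ρ)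
  have h4 := (hasDerivAt_const t ρ).div h3 (mul_pos hs (add_pos hρ hs)).ne'
  have h5 := (hasDerivAt_id t).mul h4
  unfold ta
  refine h5.congr_deriv ?_
  unfold ta'
  have hsq : Real.sqrt (t ^ 2 + δ ^ 2) ^ 2 = t ^ 2 + δ ^ 2 := Real.sq_sqrt hq.le
  simp only [id, Pi.mul_apply, Pi.div_apply]
  have e : δ ^ 2 = Real.sqrt (t ^ 2 + δ ^ 2) ^ 2 - t ^ 2 := by rw [hsq]; ring
  rw [e]
  rw [← e]
  generalize Real.sqrt (t ^ 2 + δ ^ 2) = q at *
  rw [e]
  field_simp
  ring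

lemma ta'_continuous {ρ δ : ℝ} (hρ : 0 < ρ) (hδ : 0 < δ) : Continuous (ta' ρ δ) := by
  unfold ta'
  have hq : ∀ t : ℝ, 0 < Real.sqrt (t ^ 2 + δ ^ 2) := fun t => Real.sqrt_pos.mpr (by positivity)
  have hc : Continuous fun t : ℝ => Real.sqrt (t ^ 2 + δ ^ 2) := by fun_prop
  apply Continuous.sub
  · apply Continuous.mul
    · exact continuous_const.div (hc.pow 3) fun t => (pow_pos (hq t) 3).ne'
    · exact continuous_const.div (continuous_const.add hc) fun t => (add_pos hρ (hq t)).ne'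
  · apply Continuous.mul
    · exact (continuous_pow 2).div (hc.pow 2) fun t => (pow_pos (hq t) 2).ne'
    · exact continuous_const.div ((continuous_const.add hc).pow 2)
        fun t => (pow_pos (add_pos hρ (hq t)) 2).ne'

lemma ta_abs_le {ρ δ : ℝ} (hρ : 0 < ρ) (hδ : 0 < δ) (t : ℝ) : |ta ρ δ t| ≤ 1 := by
  unfold ta
  have hq0 : 0 < t ^ 2 + δ ^ 2 := by positivity
  have hq : 0 < Real.sqrt (t ^ 2 + δ ^ 2) := Real.sqrt_pos.mpr hq0
  have h1 : |t| ≤ Real.sqrt (t ^ 2 + δ ^ 2) := by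
    rw [← Real.sqrt_sq_eq_abs]
    exact Real.sqrt_le_sqrt (by nlinarith [sq_nonneg δ])
  rw [abs_mul, abs_of_nonneg (by positivity : 0 ≤ ρ / (Real.sqrt (t ^ 2 + δ ^ 2) *
    (ρ + Real.sqrt (t ^ 2 + δ ^ 2))))]
  rw [mul_div_assoc', div_le_one (by positivity)]
  have := abs_nonneg t
  nlinarith

lemma ta_mul_nonneg {ρ δ t D : ℝ} (hρ : 0 < ρ) (hδ : 0 < δ) (h : 0 ≤ t * D) :
    0 ≤ ta ρ δ t * D := by
  unfold ta
  have hq0 : 0 < t ^ 2 + δ ^ 2 := by positivity
  have hq : 0 < Real.sqrt (t ^ 2 + δ ^ 2) := Real.sqrt_pos.mpr hq0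
  have e : t * (ρ / (Real.sqrt (t ^ 2 + δ ^ 2) * (ρ + Real.sqrt (t ^ 2 + δ ^ 2)))) * D =
    (t * D) * (ρ / (Real.sqrt (t ^ 2 + δ ^ 2) * (ρ + Real.sqrt (t ^ 2 + δ ^ 2)))) := by ring
  rw [e]
  positivity

lemma ta'_low {ρ δ t a L : ℝ} (hρ : 0 < ρ) (hδ : 0 < δ) (hδρ : δ ≤ ρ / 5)
    (ha : a ^ 2 ≤ L ^ 2 * t ^ 2) :
    a ^ 2 * (if |t| < ρ then (1 : ℝ) else 0) ≤ 5 * ρ * (-(a ^ 2 * ta' ρ δ t) + 2 * L ^ 2 * δ) := by
  unfold ta'
  have hq0 : 0 < t ^ 2 + δ ^ 2 := by positivity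
  have hq : 0 < Real.sqrt (t ^ 2 + δ ^ 2) := Real.sqrt_pos.mpr hq0
  have hsq : Real.sqrt (t ^ 2 + δ ^ 2) ^ 2 = t ^ 2 + δ ^ 2 := Real.sq_sqrt hq0.le
  have hqδ : δ ≤ Real.sqrt (t ^ 2 + δ ^ 2) := by
    apply Real.le_sqrt_of_sq_le
    nlinarith [sq_nonneg t]
  have hqt : Real.sqrt (t ^ 2 + δ ^ 2) ≤ |t| + δ := by
    apply Real.sqrt_le_iff.mpr
    have := abs_nonneg t
    constructor
    · positivity
    · nlinarith [sq_abs t]
  generalize Real.sqrt (t ^ 2 + δ ^ 2) = q at *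
  have ha0 := sq_nonneg a
  have hL0 := sq_nonneg L
  -- first error
  have e1 : a ^ 2 * (δ ^ 2 / q ^ 3 * (ρ / (ρ + q))) ≤ L ^ 2 * δ := by
    have h1 : ρ / (ρ + q) ≤ 1 := by rw [div_le_one (by positivity)]; linarith
    have h2 : a ^ 2 * (δ ^ 2 / q ^ 3) ≤ L ^ 2 * δ := by
      rw [mul_div_assoc', div_le_iff₀ (by positivity)]
      have h3 : t ^ 2 ≤ q ^ 2 := by nlinarith [sq_nonneg δ]
      calc a ^ 2 * δ ^ 2 ≤ (L ^ 2 * t ^ 2) * δ ^ 2 := by gcongr
        _ ≤ (L ^ 2 * q ^ 2) * (δ * q) := by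
          apply mul_le_mul _ _ (by positivity) (by positivity)
          · gcongr
          · nlinarith
        _ = L ^ 2 * δ * q ^ 3 := by ring
    have h4 : 0 ≤ a ^ 2 * (δ ^ 2 / q ^ 3) := by positivity
    calc a ^ 2 * (δ ^ 2 / q ^ 3 * (ρ / (ρ + q))) = (a ^ 2 * (δ ^ 2 / q ^ 3)) * (ρ / (ρ + q)) := by
          ring
      _ ≤ (a ^ 2 * (δ ^ 2 / q ^ 3)) * 1 := mul_le_mul_of_nonneg_left h1 h4
      _ ≤ L ^ 2 * δ := by linarith
  have e0 : 0 ≤ a ^ 2 * (t ^ 2 / q ^ 2 * (ρ / (ρ + q) ^ 2)) := by positivity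
  by_cases ht : |t| < ρ
  · rw [if_pos ht, mul_one]
    have h1 : (ρ + q) ^ 2 ≤ 5 * ρ ^ 2 := by
      have : ρ + q ≤ 11 / 5 * ρ := by linarith
      nlinarith
    have h2 : a ^ 2 / (5 * ρ) ≤ a ^ 2 * (ρ / (ρ + q) ^ 2) := by
      rw [mul_div_assoc', div_le_div_iff₀ (by positivity) (by positivity)]
      calc a ^ 2 * (ρ + q) ^ 2 ≤ a ^ 2 * (5 * ρ ^ 2) := by gcongr
        _ = a ^ 2 * ρ * (5 * ρ) := by ring
    have h3 : a ^ 2 * (δ ^ 2 / q ^ 2 * (ρ / (ρ + q) ^ 2)) ≤ L ^ 2 * δ := by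
      have k1 : ρ / (ρ + q) ^ 2 ≤ 1 / ρ := by
        rw [div_le_div_iff₀ (by positivity) hρ]
        nlinarith
      have k2 : a ^ 2 * (δ ^ 2 / q ^ 2) ≤ L ^ 2 * δ ^ 2 := by
        rw [mul_div_assoc', div_le_iff₀ (by positivity)]
        calc a ^ 2 * δ ^ 2 ≤ (L ^ 2 * t ^ 2) * δ ^ 2 := by gcongr
          _ ≤ (L ^ 2 * q ^ 2) * δ ^ 2 := by
            have h3 : t ^ 2 ≤ q ^ 2 := by nlinarith [sq_nonneg δ]
            gcongr
          _ = _ := by ring
      calc a ^ 2 * (δ ^ 2 / q ^ 2 * (ρ / (ρ + q) ^ 2)) =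
            (a ^ 2 * (δ ^ 2 / q ^ 2)) * (ρ / (ρ + q) ^ 2) := by ring
        _ ≤ (L ^ 2 * δ ^ 2) * (1 / ρ) := by
          apply mul_le_mul k2 k1 (by positivity) (by positivity)
        _ = L ^ 2 * δ * (δ / ρ) := by ring
        _ ≤ L ^ 2 * δ * 1 := by
          apply mul_le_mul_of_nonneg_left _ (by positivity)
          rw [div_le_one hρ]
          linarith
        _ = _ := by ring
    have h4 : a ^ 2 * (t ^ 2 / q ^ 2 * (ρ / (ρ + q) ^ 2)) =
        a ^ 2 * (ρ / (ρ + q) ^ 2) - a ^ 2 * (δ ^ 2 / q ^ 2 * (ρ / (ρ + q) ^ 2)) := by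
      have : t ^ 2 / q ^ 2 = 1 - δ ^ 2 / q ^ 2 := by
        rw [hsq]
        field_simp
        ring
      rw [this]; ring
    have h5 : a ^ 2 / (5 * ρ) ≤ -(a ^ 2 * (δ ^ 2 / q ^ 3 * (ρ / (ρ + q)) -
        t ^ 2 / q ^ 2 * (ρ / (ρ + q) ^ 2))) + 2 * L ^ 2 * δ := by
      rw [mul_sub]
      linarith
    rw [div_le_iff₀ (by positivity)] at h5
    linarith
  · rw [if_neg ht, mul_zero]
    apply mul_nonneg (by positivity)
    rw [mul_sub]
    have : 0 ≤ L ^ 2 * δ := by positivity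
    linarith

/-- the thin slab -/
theorem SP.slab (h : SP V κ C) {u : EuclideanSpace ℝ (Fin n) → ℝ} {U L : ℝ} (hu : TF u U L)
    (i : Fin n) (hodd : ∀ x, |u x| ≤ L * |x i|) {ρ : ℝ} (hρ : 0 < ρ) :
    ∫ x, u x ^ 2 * (if |x i| < ρ then (1 : ℝ) else 0) * Real.exp (-V x) ≤
      10 * ρ * ∫ x, |u x| * ‖fderiv ℝ u x‖ * Real.exp (-V x) := by
  have hU0 : 0 ≤ U := (abs_nonneg _).trans (hu.bd 0)
  have hL0 : 0 ≤ L := (norm_nonneg _).trans (hu.gd 0)
  have huc := hu.cd.continuous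
  have hfd : Continuous (fun x => fderiv ℝ u x) := hu.cd.continuous_fderiv (by simp)
  have hcoord : Continuous (fun x : EuclideanSpace ℝ (Fin n) => x i) := by fun_prop
  have hu2 : ∀ x, u x ^ 2 ≤ U ^ 2 := fun x => by
    rw [← sq_abs (u x)]; exact pow_le_pow_left₀ (abs_nonneg _) (hu.bd x) 2
  have hVd : Continuous (fun x => fderiv ℝ V x (ej i)) :=
    (h.cd.continuous_fderiv (by simp)).clm_apply continuous_const
  have j1 : Integrable (fun x => |u x| * ‖fderiv ℝ u x‖ * Real.exp (-V x)) := by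
    apply h.int' (f := fun x => |u x| * ‖fderiv ℝ u x‖) (huc.abs.mul hfd.norm) (A := U * L)
    intro x
    rw [abs_mul, abs_abs, abs_norm]
    calc |u x| * ‖fderiv ℝ u x‖ ≤ U * L := mul_le_mul (hu.bd x) (hu.gd x) (norm_nonneg _) hU0
      _ ≤ U * L * (1 + ‖x‖) ^ 4 := le_mul_of_one_le_right (by positivity) (one_le_pow4 x)
  have j0 : Integrable (fun x => Real.exp (-V x)) := by
    have := h.int' (f := fun _ => 1) continuous_const (A := 1) (fun x => by
      rw [abs_one, one_mul]; exact one_le_pow4 x)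
    simpa using this
  have hms : MeasurableSet {x : EuclideanSpace ℝ (Fin n) | |x i| < ρ} :=
    (isOpen_lt hcoord.abs continuous_const).measurableSet
  have j2 : Integrable (fun x => u x ^ 2 * (if |x i| < ρ then (1 : ℝ) else 0) *
      Real.exp (-V x)) := by
    refine h.int (f := fun x => u x ^ 2 * (if |x i| < ρ then (1 : ℝ) else 0)) (A := U ^ 2)
      (hf := ?_) (hA := ?_)
    · exact ((huc.measurable.pow_const 2).mul
        (Measurable.ite hms measurable_const measurable_const)).aestronglyMeasurable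
    · intro x
      have h1 : |u x ^ 2 * (if |x i| < ρ then (1 : ℝ) else 0)| ≤ U ^ 2 := by
        split_ifs
        · rw [mul_one, abs_of_nonneg (sq_nonneg _)]; exact hu2 x
        · rw [mul_zero, abs_zero]; positivity
      exact h1.trans (le_mul_of_one_le_right (by positivity) (one_le_pow4 x))
  set Z := ∫ x, Real.exp (-V x) with hZ
  have main : ∀ δ : ℝ, 0 < δ → δ ≤ ρ / 5 →
      ∫ x, u x ^ 2 * (if |x i| < ρ then (1 : ℝ) else 0) * Real.exp (-V x) ≤
      10 * ρ * (∫ x, |u x| * ‖fderiv ℝ u x‖ * Real.exp (-V x)) + 10 * ρ * L ^ 2 * δ * Z := by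
    intro δ hδ hδρ
    have hθcd := th_contDiff (ta_hasDerivAt hρ hδ) (ta'_continuous hρ hδ)
    have htc : Continuous (fun x : EuclideanSpace ℝ (Fin n) => ta ρ δ (x i)) :=
      hθcd.continuous.comp hcoord
    have htc' : Continuous (fun x : EuclideanSpace ℝ (Fin n) => ta' ρ δ (x i)) :=
      (ta'_continuous hρ hδ).comp hcoord
    -- bound of ta'
    have hta' : ∀ t, |ta' ρ δ t| ≤ 1 / δ + 1 / ρ := by
      intro t
      unfold ta'
      have hq0 : 0 < t ^ 2 + δ ^ 2 := by positivity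
      have hq : 0 < Real.sqrt (t ^ 2 + δ ^ 2) := Real.sqrt_pos.mpr hq0
      have hsq : Real.sqrt (t ^ 2 + δ ^ 2) ^ 2 = t ^ 2 + δ ^ 2 := Real.sq_sqrt hq0.le
      have hqδ : δ ≤ Real.sqrt (t ^ 2 + δ ^ 2) := by
        apply Real.le_sqrt_of_sq_le
        nlinarith [sq_nonneg t]
      generalize Real.sqrt (t ^ 2 + δ ^ 2) = q at *
      have b1 : δ ^ 2 / q ^ 3 * (ρ / (ρ + q)) ≤ 1 / δ := by
        have h1 : ρ / (ρ + q) ≤ 1 := by rw [div_le_one (by positivity)]; linarith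
        have h2 : δ ^ 2 / q ^ 3 ≤ 1 / δ := by
          rw [div_le_div_iff₀ (by positivity) hδ]
          have : δ ^ 3 ≤ q ^ 3 := pow_le_pow_left₀ hδ.le hqδ 3
          nlinarith
        calc δ ^ 2 / q ^ 3 * (ρ / (ρ + q)) ≤ (1 / δ) * 1 :=
              mul_le_mul h2 h1 (by positivity) (by positivity)
          _ = _ := mul_one _
      have b2 : t ^ 2 / q ^ 2 * (ρ / (ρ + q) ^ 2) ≤ 1 / ρ := by
        have h1 : ρ / (ρ + q) ^ 2 ≤ 1 / ρ := by
          rw [div_le_div_iff₀ (by positivity) hρ]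
          nlinarith
        have h2 : t ^ 2 / q ^ 2 ≤ 1 := by
          rw [div_le_one (by positivity), hsq]
          nlinarith [sq_nonneg δ]
        calc t ^ 2 / q ^ 2 * (ρ / (ρ + q) ^ 2) ≤ 1 * (1 / ρ) :=
              mul_le_mul h2 h1 (by positivity) (by positivity)
          _ = _ := one_mul _
      have b3 : 0 ≤ δ ^ 2 / q ^ 3 * (ρ / (ρ + q)) := by positivity
      have b4 : 0 ≤ t ^ 2 / q ^ 2 * (ρ / (ρ + q) ^ 2) := by positivity
      rw [_root_.abs_le]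
      constructor <;> linarith
    set f : EuclideanSpace ℝ (Fin n) → ℝ := fun x => u x ^ 2 * ta ρ δ (x i) with hf
    have hfcd : ContDiff ℝ 1 f := (hu.cd.pow 2).mul (hθcd.comp (coord_contDiff i))
    have hei : (ej i) i = 1 := by simp [ej]
    have hfdf : ∀ x, fderiv ℝ f x (ej i) = 2 * u x * fderiv ℝ u x (ej i) * ta ρ δ (x i) +
        u x ^ 2 * ta' ρ δ (x i) := by
      intro x
      rw [hf, fderiv_test hu.cd (ta_hasDerivAt hρ hδ) i, hei, mul_one]
    have hui : ∀ x, |fderiv ℝ u x (ej i)| ≤ ‖fderiv ℝ u x‖ := by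
      intro x
      have h1 := (fderiv ℝ u x).le_opNorm (ej i)
      rwa [ej_norm, mul_one, Real.norm_eq_abs] at h1
    have hfb : ∀ x, |f x| ≤ U ^ 2 := by
      intro x
      rw [hf]
      simp only [abs_mul]
      rw [abs_of_nonneg (sq_nonneg (u x))]
      calc u x ^ 2 * |ta ρ δ (x i)| ≤ U ^ 2 * 1 :=
            mul_le_mul (hu2 x) (ta_abs_le hρ hδ _) (abs_nonneg _) (by positivity)
        _ = _ := mul_one _
    have b1 : ∀ x, |2 * u x * fderiv ℝ u x (ej i) * ta ρ δ (x i)| ≤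
        2 * (|u x| * ‖fderiv ℝ u x‖) := by
      intro x
      rw [abs_mul, abs_mul, abs_mul, abs_of_pos (by norm_num : (0 : ℝ) < 2)]
      calc 2 * |u x| * |fderiv ℝ u x (ej i)| * |ta ρ δ (x i)| ≤ 2 * |u x| * ‖fderiv ℝ u x‖ * 1 :=
            mul_le_mul (mul_le_mul_of_nonneg_left (hui x) (by positivity)) (ta_abs_le hρ hδ _)
              (abs_nonneg _) (by positivity)
        _ = _ := by ring
    have b1' : ∀ x, |2 * u x * fderiv ℝ u x (ej i) * ta ρ δ (x i)| ≤ 2 * (U * L) := by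
      intro x
      refine (b1 x).trans ?_
      have := mul_le_mul (hu.bd x) (hu.gd x) (norm_nonneg _) hU0
      linarith
    have b2 : ∀ x, |u x ^ 2 * ta' ρ δ (x i)| ≤ U ^ 2 * (1 / δ + 1 / ρ) := by
      intro x
      rw [abs_mul, abs_of_nonneg (sq_nonneg (u x))]
      exact mul_le_mul (hu2 x) (hta' _) (abs_nonneg _) (by positivity)
    have hA1 : 0 ≤ 2 * (U * L) := by positivity
    have hA2 : 0 ≤ U ^ 2 * (1 / δ + 1 / ρ) := by positivity
    have hfd' : ∀ x, |fderiv ℝ f x (ej i)| ≤ 2 * (U * L) + U ^ 2 * (1 / δ + 1 / ρ) := by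
      intro x
      rw [hfdf x]
      exact (abs_add_le _ _).trans (add_le_add (b1' x) (b2 x))
    have hibp := h.ibp hfcd (ej i) (A := U ^ 2 + (2 * (U * L) + U ^ 2 * (1 / δ + 1 / ρ)))
      (fun x => by
        refine (hfb x).trans ?_
        have h1 : 1 ≤ (1 + ‖x‖) ^ 2 := one_le_pow₀ (by linarith [norm_nonneg x])
        nlinarith [sq_nonneg U])
      (fun x => by
        refine (hfd' x).trans ?_
        have h1 := one_le_pow4 x
        nlinarith [sq_nonneg U])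
    -- integrability of the pieces
    have k1 : Integrable (fun x => 2 * u x * fderiv ℝ u x (ej i) * ta ρ δ (x i) *
        Real.exp (-V x)) := by
      apply h.int' (f := fun x => 2 * u x * fderiv ℝ u x (ej i) * ta ρ δ (x i)) _ (A := 2 * (U * L))
      · intro x
        exact (b1' x).trans (le_mul_of_one_le_right hA1 (one_le_pow4 x))
      · exact ((continuous_const.mul huc).mul (hfd.clm_apply continuous_const)).mul htc
    have k2 : Integrable (fun x => u x ^ 2 * ta' ρ δ (x i) * Real.exp (-V x)) := by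
      apply h.int' (f := fun x => u x ^ 2 * ta' ρ δ (x i)) ((huc.pow 2).mul htc')
        (A := U ^ 2 * (1 / δ + 1 / ρ))
      intro x
      exact (b2 x).trans (le_mul_of_one_le_right hA2 (one_le_pow4 x))
    have k2n : Integrable (fun x => -(u x ^ 2 * ta' ρ δ (x i) * Real.exp (-V x))) := k2.neg
    have e1 : ∫ x, fderiv ℝ f x (ej i) * Real.exp (-V x) =
        (∫ x, 2 * u x * fderiv ℝ u x (ej i) * ta ρ δ (x i) * Real.exp (-V x)) +
        ∫ x, u x ^ 2 * ta' ρ δ (x i) * Real.exp (-V x) := by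
      rw [← integral_add k1 k2]
      congr 1
      funext x
      rw [hfdf x]
      ring
    have e2 : 0 ≤ ∫ x, f x * fderiv ℝ V x (ej i) * Real.exp (-V x) := by
      apply integral_nonneg
      intro x
      show 0 ≤ f x * fderiv ℝ V x (ej i) * Real.exp (-V x)
      apply mul_nonneg _ (Real.exp_pos _).le
      rw [hf]
      simp only [mul_assoc]
      exact mul_nonneg (sq_nonneg _) (ta_mul_nonneg hρ hδ (h.coord x i))
    have e3 : ∫ x, 2 * u x * fderiv ℝ u x (ej i) * ta ρ δ (x i) * Real.exp (-V x) ≤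
        2 * ∫ x, |u x| * ‖fderiv ℝ u x‖ * Real.exp (-V x) := by
      rw [← integral_const_mul]
      apply integral_mono k1 (j1.const_mul 2)
      intro x
      show 2 * u x * fderiv ℝ u x (ej i) * ta ρ δ (x i) * Real.exp (-V x) ≤
        2 * (|u x| * ‖fderiv ℝ u x‖ * Real.exp (-V x))
      rw [← mul_assoc 2]
      exact mul_le_mul_of_nonneg_right ((le_abs_self _).trans (b1 x)) (Real.exp_pos _).le
    have e4 : ∫ x, u x ^ 2 * (if |x i| < ρ then (1 : ℝ) else 0) * Real.exp (-V x) ≤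
        ∫ x, (5 * ρ * (-(u x ^ 2 * ta' ρ δ (x i) * Real.exp (-V x)) +
          2 * L ^ 2 * δ * Real.exp (-V x))) := by
      apply integral_mono j2 ((k2n.add (j0.const_mul _)).const_mul _)
      intro x
      have h1 : u x ^ 2 ≤ L ^ 2 * (x i) ^ 2 := by
        rw [← sq_abs (u x), ← sq_abs (x i), ← mul_pow]
        exact pow_le_pow_left₀ (abs_nonneg _) (hodd x) 2
      have h2 := ta'_low hρ hδ hδρ h1
      have h3 := mul_le_mul_of_nonneg_right h2 (Real.exp_pos (-V x)).le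
      show u x ^ 2 * (if |x i| < ρ then (1 : ℝ) else 0) * Real.exp (-V x) ≤
        5 * ρ * (-(u x ^ 2 * ta' ρ δ (x i) * Real.exp (-V x)) + 2 * L ^ 2 * δ * Real.exp (-V x))
      calc u x ^ 2 * (if |x i| < ρ then (1 : ℝ) else 0) * Real.exp (-V x) ≤ _ := h3
        _ = _ := by ring
    rw [integral_const_mul, integral_add k2n (j0.const_mul _), integral_const_mul] at e4
    have e6 : ∫ x, -(u x ^ 2 * ta' ρ δ (x i) * Real.exp (-V x)) =
        -∫ x, u x ^ 2 * ta' ρ δ (x i) * Real.exp (-V x) := integral_neg _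
    rw [e6] at e4
    rw [hibp] at e2
    rw [e1] at e2
    have e7 : -∫ x, u x ^ 2 * ta' ρ δ (x i) * Real.exp (-V x) ≤
      2 * ∫ x, |u x| * ‖fderiv ℝ u x‖ * Real.exp (-V x) := by linarith
    have e8 := mul_le_mul_of_nonneg_left e7 (by positivity : 0 ≤ 5 * ρ)
    calc _ ≤ _ := e4
      _ ≤ _ := by rw [mul_add]; linarith
  have ht : Tendsto (fun δ : ℝ => 10 * ρ * (∫ x, |u x| * ‖fderiv ℝ u x‖ * Real.exp (-V x)) +
      10 * ρ * L ^ 2 * δ * Z) (𝓝[>] 0)
      (𝓝 (10 * ρ * (∫ x, |u x| * ‖fderiv ℝ u x‖ * Real.exp (-V x)) +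
      10 * ρ * L ^ 2 * 0 * Z)) :=
    (Continuous.tendsto (by fun_prop) _).mono_left nhdsWithin_le_nhds
  have := ge_of_tendsto ht (by
    filter_upwards [Ioo_mem_nhdsGT (by positivity : (0 : ℝ) < ρ / 5)] with δ hδ
    exact main δ hδ.1 hδ.2.le)
  linarith

end Pool.Agent.Lib.MP_6d896a_gt
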