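import Mathlib
import Pool.Agent.Lib.MP_6d896a_gt.Ex1
import Pool.Agent.Lib.MP_6d896a_gt.Ex3
import Pool.Agent.Lib.MP_6d896a_gt.Sym5

/-!
Exchangeable blocks: bounds of the fields and of the cut-offs.
-/

namespace Pool.Agent.Lib.MP_6d896a_gt.EX

open MeasureTheory Filter Topology Metric
open scoped ENNReal NNReal

variable {n : ℕ} {V : EuclideanSpace ℝ (Fin n) → ℝ} {κ C : ℝ}
  {ι : Type} [Fintype ι] [DecidableEq ι] {ξ : ι → EuclideanSpace ℝ (Fin n) →L[ℝ] ℝ}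
  {v : ι → ι → EuclideanSpace ℝ (Fin n)} {r : ℝ}

/-! ### scalar profiles -/

lemma PF_id : PF (fun t => t) (fun _ => 1) 1 where
  der t := hasDerivAt_id t
  cont := continuous_const
  bd t := by simp
  bd' t := by simp

lemma PF_th3 {ρ : ℝ} (hρ : 0 < ρ) : PF (th3 ρ) (th3' ρ) (1 + 2 / ρ) where
  der t := th3_hasDerivAt hρ t
  cont := th3'_continuous hρ
  bd t := by
    have h1 := th3_abs_le ρ t
    have h2 : 0 ≤ 2 / ρ * (1 + |t|) := by positivity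
    have h3 : (1 + 2 / ρ) * (1 + |t|) = 1 + |t| + 2 / ρ * (1 + |t|) := by ring
    linarith
  bd' t := by
    rw [abs_of_nonneg (th3'_nonneg ρ t)]
    have h1 := th3'_le hρ (t := t)
    have h2 : 2 * |t| / ρ = 2 / ρ * |t| := by ring
    have h3 : (1 + 2 / ρ) * (1 + |t|) = 1 + |t| + 2 / ρ + 2 / ρ * |t| := by ring
    have h4 : 0 ≤ 2 / ρ := by positivity
    have h5 := abs_nonneg t
    linarith

lemma th1'_le {η : ℝ} (hη : 0 < η) (t : ℝ) : th1' η t ≤ 1 / η := by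
  unfold th1'
  have hq : 0 < t ^ 2 + η ^ 2 := by positivity
  have h1 : η ≤ Real.sqrt (t ^ 2 + η ^ 2) := by
    apply Real.le_sqrt_of_sq_le
    nlinarith [sq_nonneg t]
  have hs : 0 < Real.sqrt (t ^ 2 + η ^ 2) := Real.sqrt_pos.mpr hq
  rw [div_le_div_iff₀ (by positivity) hη]
  have h2 : η ^ 2 ≤ t ^ 2 + η ^ 2 := by nlinarith [sq_nonneg t]
  have := mul_le_mul h2 h1 hη.le hq.le
  linarith

lemma PF_th1 {η : ℝ} (hη : 0 < η) : PF (th1 η) (th1' η) (1 + 1 / η) where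
  der t := th1_hasDerivAt hη t
  cont := th1'_continuous hη
  bd t := by
    have h1 := th1_abs_le η t
    have h2 : 0 ≤ 1 / η := by positivity
    have h3 := abs_nonneg t
    nlinarith
  bd' t := by
    rw [abs_of_nonneg (th1'_nonneg η t)]
    have h1 := th1'_le hη t
    have h2 : 0 ≤ 1 / η := by positivity
    have h3 := abs_nonneg t
    nlinarith

/-! ### the norm -/

/-- smooth `l1` norm of the block -/
noncomputable def NN (ξ : ι → EuclideanSpace ℝ (Fin n) →L[ℝ] ℝ) (r : ℝ)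
    (x : EuclideanSpace ℝ (Fin n)) : ℝ := ∑ i, Real.sqrt (ξ i x ^ 2 + r ^ 2)

/-- `l1` norm of the block -/
noncomputable def N1 (ξ : ι → EuclideanSpace ℝ (Fin n) →L[ℝ] ℝ)
    (x : EuclideanSpace ℝ (Fin n)) : ℝ := ∑ i, |ξ i x|

omit [DecidableEq ι] in
lemma N1_nonneg (x : EuclideanSpace ℝ (Fin n)) : 0 ≤ N1 ξ x :=
  Finset.sum_nonneg fun i _ => abs_nonneg _

omit [DecidableEq ι] in
lemma NN_ge (x : EuclideanSpace ℝ (Fin n)) : N1 ξ x ≤ NN ξ r x := by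
  apply Finset.sum_le_sum
  intro i _
  rw [← Real.sqrt_sq_eq_abs]
  exact Real.sqrt_le_sqrt (by nlinarith [sq_nonneg r])

omit [DecidableEq ι] in
lemma NN_le (hr : 0 < r) (x : EuclideanSpace ℝ (Fin n)) :
    NN ξ r x ≤ N1 ξ x + Fintype.card ι * r := by
  have h : ∀ i, Real.sqrt (ξ i x ^ 2 + r ^ 2) ≤ |ξ i x| + r := by
    intro i
    apply Real.sqrt_le_iff.mpr
    have := abs_nonneg (ξ i x)
    constructor
    · positivity
    · nlinarith [sq_abs (ξ i x)]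
  calc NN ξ r x ≤ ∑ i, (|ξ i x| + r) := Finset.sum_le_sum fun i _ => h i
    _ = _ := by rw [Finset.sum_add_distrib]; simp [N1]

omit [DecidableEq ι] in
lemma NN_low (hr : 0 < r) (x : EuclideanSpace ℝ (Fin n)) :
    (Fintype.card ι : ℝ) * r ≤ NN ξ r x := by
  have h : ∀ i, r ≤ Real.sqrt (ξ i x ^ 2 + r ^ 2) := by
    intro i
    apply Real.le_sqrt_of_sq_le
    nlinarith [sq_nonneg (ξ i x)]
  calc (Fintype.card ι : ℝ) * r = ∑ _i : ι, r := by simp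
    _ ≤ _ := Finset.sum_le_sum fun i _ => h i

omit [DecidableEq ι] in
lemma NN_hasFDerivAt (hr : 0 < r) (x : EuclideanSpace ℝ (Fin n)) :
    HasFDerivAt (NN ξ r) (∑ i, th1 r (ξ i x) • ξ i) x := by
  unfold NN
  have e : (fun x : EuclideanSpace ℝ (Fin n) => ∑ i, Real.sqrt (ξ i x ^ 2 + r ^ 2)) =
      ∑ i, fun x : EuclideanSpace ℝ (Fin n) => Real.sqrt (ξ i x ^ 2 + r ^ 2) := by
    funext x; simp
  rw [e]
  apply HasFDerivAt.sum
  intro i _
  have h1 : HasDerivAt (fun t : ℝ => Real.sqrt (t ^ 2 + r ^ 2)) (th1 r (ξ i x)) (ξ i x) := by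
    have hq : (ξ i x) ^ 2 + r ^ 2 ≠ 0 := by positivity
    have h2 : HasDerivAt (fun t : ℝ => t ^ 2 + r ^ 2) (2 * ξ i x) (ξ i x) := by
      simpa using (hasDerivAt_pow 2 (ξ i x)).add_const (r ^ 2)
    refine (h2.sqrt hq).congr_deriv ?_
    unfold th1
    rw [mul_div_mul_left _ _ (by norm_num : (2 : ℝ) ≠ 0)]
  exact h1.comp_hasFDerivAt x (ξ i).hasFDerivAt

omit [DecidableEq ι] in
lemma NN_fderiv (hr : 0 < r) (x w : EuclideanSpace ℝ (Fin n)) :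
    fderiv ℝ (NN ξ r) x w = ∑ i, th1 r (ξ i x) * ξ i w := by
  rw [(NN_hasFDerivAt hr x).fderiv]
  simp

omit [DecidableEq ι] in
lemma NN_contDiff (hr : 0 < r) : ContDiff ℝ 1 (NN ξ r) := by
  rw [contDiff_one_iff_fderiv]
  refine ⟨fun x => (NN_hasFDerivAt hr x).differentiableAt, ?_⟩
  have e : fderiv ℝ (NN ξ r) = fun x => ∑ i, th1 r (ξ i x) • ξ i :=
    funext fun x => (NN_hasFDerivAt hr x).fderiv
  rw [e]
  apply continuous_finset_sum
  intro i _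
  have h1 : Continuous (th1 r) :=
    continuous_iff_continuousAt.mpr fun t => (th1_hasDerivAt hr t).continuousAt
  exact (h1.comp (ξ i).continuous).smul continuous_const

omit [DecidableEq ι] in
lemma NN_fderiv_abs (hr : 0 < r) (x w : EuclideanSpace ℝ (Fin n)) :
    |fderiv ℝ (NN ξ r) x w| ≤ N1 ξ w := by
  rw [NN_fderiv hr]
  refine (Finset.abs_sum_le_sum_abs _ _).trans (Finset.sum_le_sum fun i _ => ?_)
  rw [abs_mul]
  exact mul_le_of_le_one_left (abs_nonneg _) (th1_abs_le _ _)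

lemma Blk.N1_le (hb : Blk ξ v) (x : EuclideanSpace ℝ (Fin n)) :
    N1 ξ x ≤ Fintype.card ι * ‖x‖ := by
  calc N1 ξ x ≤ ∑ _i : ι, ‖x‖ := Finset.sum_le_sum fun i _ => hb.xn i x
    _ = _ := by simp

/-! ### components of the fields -/

lemma Blk.xi_YY (hb : Blk ξ v) (θ : ℝ → ℝ) (a i : ι) (x : EuclideanSpace ℝ (Fin n)) :
    ξ i (YY ξ v θ a x) = (if i = a then ∑ j, θ (ξ a x - ξ j x) else 0) - θ (ξ a x - ξ i x) := by
  rw [map_YY]
  have : ∀ j, θ (ξ a x - ξ j x) * ξ i (v a j) =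
      (if i = a then θ (ξ a x - ξ j x) else 0) - (if i = j then θ (ξ a x - ξ j x) else 0) := by
    intro j
    rw [hb.dual]
    split_ifs <;> ring
  simp only [this, Finset.sum_sub_distrib]
  congr 1
  · split_ifs <;> simp
  · simp

lemma Blk.xi_FF (hb : Blk ξ v) (θ : ℝ → ℝ) (i : ι) (x : EuclideanSpace ℝ (Fin n)) :
    ξ i (FF ξ v θ x) = ∑ j, θ (ξ i x - ξ j x) - ∑ j, θ (ξ j x - ξ i x) := by
  unfold FF
  rw [map_sum]
  simp only [hb.xi_YY, Finset.sum_sub_distrib]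
  simp

lemma Blk.xi_FF_id (hb : Blk ξ v) (i : ι) (x : EuclideanSpace ℝ (Fin n)) :
    ξ i (FF ξ v (fun t => t) x) = 2 * Fintype.card ι * ξ i x := by
  rw [hb.xi_FF]
  simp only [Finset.sum_sub_distrib, hb.sum0]
  simp
  ring

omit [DecidableEq ι] in
lemma sum_abs_diff_le (x : EuclideanSpace ℝ (Fin n)) (i : ι) :
    ∑ j, |ξ i x - ξ j x| ≤ Fintype.card ι * |ξ i x| + N1 ξ x := by
  calc ∑ j, |ξ i x - ξ j x| ≤ ∑ j, (|ξ i x| + |ξ j x|) :=
        Finset.sum_le_sum fun j _ => abs_sub _ _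
    _ = _ := by rw [Finset.sum_add_distrib]; simp [N1]

omit [DecidableEq ι] in
lemma sum_sum_abs_diff_le (x : EuclideanSpace ℝ (Fin n)) :
    ∑ i, ∑ j, |ξ i x - ξ j x| ≤ 2 * Fintype.card ι * N1 ξ x := by
  calc ∑ i, ∑ j, |ξ i x - ξ j x| ≤ ∑ i, (Fintype.card ι * |ξ i x| + N1 ξ x) :=
        Finset.sum_le_sum fun i _ => sum_abs_diff_le x i
    _ = _ := by
      rw [Finset.sum_add_distrib, ← Finset.mul_sum]
      simp [N1]
      ring

lemma Blk.xi_FF_abs (hb : Blk ξ v) {θ : ℝ → ℝ} (hθ : ∀ t, |θ t| ≤ |t|) (i : ι)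
    (x : EuclideanSpace ℝ (Fin n)) :
    |ξ i (FF ξ v θ x)| ≤ 2 * ∑ j, |ξ i x - ξ j x| := by
  rw [hb.xi_FF]
  refine (abs_sub _ _).trans ?_
  have h1 : |∑ j, θ (ξ i x - ξ j x)| ≤ ∑ j, |ξ i x - ξ j x| :=
    (Finset.abs_sum_le_sum_abs _ _).trans (Finset.sum_le_sum fun j _ => hθ _)
  have h2 : |∑ j, θ (ξ j x - ξ i x)| ≤ ∑ j, |ξ i x - ξ j x| :=
    (Finset.abs_sum_le_sum_abs _ _).trans (Finset.sum_le_sum fun j _ => by
      rw [abs_sub_comm (ξ i x)]; exact hθ _)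
  linarith

lemma Blk.N1_FF (hb : Blk ξ v) {θ : ℝ → ℝ} (hθ : ∀ t, |θ t| ≤ |t|)
    (x : EuclideanSpace ℝ (Fin n)) :
    N1 ξ (FF ξ v θ x) ≤ 4 * Fintype.card ι * N1 ξ x := by
  calc N1 ξ (FF ξ v θ x) ≤ ∑ i, 2 * ∑ j, |ξ i x - ξ j x| :=
        Finset.sum_le_sum fun i _ => hb.xi_FF_abs hθ i x
    _ = 2 * ∑ i, ∑ j, |ξ i x - ξ j x| := by rw [Finset.mul_sum]
    _ ≤ _ := by linarith [sum_sum_abs_diff_le (ξ := ξ) x]

lemma Blk.norm_FF (hb : Blk ξ v) {θ : ℝ → ℝ} (hθ : ∀ t, |θ t| ≤ |t|)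
    (x : EuclideanSpace ℝ (Fin n)) :
    ‖FF ξ v θ x‖ ≤ 4 * Fintype.card ι * N1 ξ x := by
  unfold FF YY
  calc ‖∑ a, ∑ j, θ (ξ a x - ξ j x) • v a j‖ ≤ ∑ a, ∑ j, |ξ a x - ξ j x| * 2 := by
        refine (norm_sum_le _ _).trans (Finset.sum_le_sum fun a _ => ?_)
        refine (norm_sum_le _ _).trans (Finset.sum_le_sum fun j _ => ?_)
        rw [norm_smul, Real.norm_eq_abs]
        exact mul_le_mul (hθ _) (hb.vn a j) (norm_nonneg _) (abs_nonneg _)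
    _ = 2 * ∑ a, ∑ j, |ξ a x - ξ j x| := by
        simp only [← Finset.sum_mul]
        ring
    _ ≤ _ := by linarith [sum_sum_abs_diff_le (ξ := ξ) x]

lemma Blk.norm_YY (hb : Blk ξ v) {θ : ℝ → ℝ} (hθ : ∀ t, |θ t| ≤ 1) (a : ι)
    (x : EuclideanSpace ℝ (Fin n)) : ‖YY ξ v θ a x‖ ≤ 2 * Fintype.card ι := by
  unfold YY
  calc ‖∑ j, θ (ξ a x - ξ j x) • v a j‖ ≤ ∑ _j : ι, (1 : ℝ) * 2 := by
        refine (norm_sum_le _ _).trans (Finset.sum_le_sum fun j _ => ?_)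
        rw [norm_smul, Real.norm_eq_abs]
        exact mul_le_mul (hθ _) (hb.vn a j) (norm_nonneg _) zero_le_one
    _ = _ := by simp; ring

lemma Blk.xi_YY_abs (hb : Blk ξ v) {θ : ℝ → ℝ} (hθ : ∀ t, |θ t| ≤ 1) (a i : ι)
    (x : EuclideanSpace ℝ (Fin n)) :
    |ξ i (YY ξ v θ a x)| ≤ (if i = a then (Fintype.card ι : ℝ) else 0) + 1 := by
  rw [hb.xi_YY]
  refine (abs_sub _ _).trans (add_le_add ?_ (hθ _))
  split_ifs
  · calc |∑ j, θ (ξ a x - ξ j x)| ≤ ∑ _j : ι, (1 : ℝ) :=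
        (Finset.abs_sum_le_sum_abs _ _).trans (Finset.sum_le_sum fun j _ => hθ _)
      _ = _ := by simp
  · simp

lemma Blk.N1_YY (hb : Blk ξ v) {θ : ℝ → ℝ} (hθ : ∀ t, |θ t| ≤ 1) (a : ι)
    (x : EuclideanSpace ℝ (Fin n)) : N1 ξ (YY ξ v θ a x) ≤ 2 * Fintype.card ι := by
  calc N1 ξ (YY ξ v θ a x) ≤ ∑ i, ((if i = a then (Fintype.card ι : ℝ) else 0) + 1) :=
        Finset.sum_le_sum fun i _ => hb.xi_YY_abs hθ a i x
    _ = _ := by rw [Finset.sum_add_distrib]; simp; ring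

/-! ### divergences -/

omit [Fintype ι] in
lemma cc_le (i j : ι) : cc i j ≤ 2 := by unfold cc; split_ifs <;> norm_num

omit [Fintype ι] in
lemma cc_nonneg (i j : ι) : 0 ≤ cc i j := by unfold cc; split_ifs <;> norm_num

lemma div_id : (∑ i : ι, ∑ j : ι, cc i j * (1 : ℝ)) =
    2 * Fintype.card ι * (Fintype.card ι - 1) := by
  have h : ∀ i j : ι, cc i j * (1 : ℝ) = 2 - (if i = j then 2 else 0) := by
    intro i j; unfold cc; split_ifs <;> ring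
  simp only [h, Finset.sum_sub_distrib]
  simp
  ring

lemma div_th3 {ρ : ℝ} (hρ : 0 < ρ) (x : EuclideanSpace ℝ (Fin n)) :
    ∑ i, ∑ j, cc i j * th3' ρ (ξ i x - ξ j x) ≤ 8 * Fintype.card ι / ρ * N1 ξ x := by
  have h : ∀ i j, cc i j * th3' ρ (ξ i x - ξ j x) ≤ 4 / ρ * |ξ i x - ξ j x| := by
    intro i j
    have h1 := mul_le_mul (cc_le i j) (th3'_le hρ (t := ξ i x - ξ j x)) (th3'_nonneg _ _)
      (by norm_num : (0 : ℝ) ≤ 2)
    refine h1.trans (le_of_eq (by ring))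
  calc ∑ i, ∑ j, cc i j * th3' ρ (ξ i x - ξ j x) ≤ ∑ i, ∑ j, 4 / ρ * |ξ i x - ξ j x| :=
        Finset.sum_le_sum fun i _ => Finset.sum_le_sum fun j _ => h i j
    _ = 4 / ρ * ∑ i, ∑ j, |ξ i x - ξ j x| := by simp only [← Finset.mul_sum]
    _ ≤ 4 / ρ * (2 * Fintype.card ι * N1 ξ x) :=
        mul_le_mul_of_nonneg_left (sum_sum_abs_diff_le x) (by positivity)
    _ = _ := by ring

lemma div_th1 {η : ℝ} (hη : 0 < η) (a : ι) (x : EuclideanSpace ℝ (Fin n)) :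
    ∑ j, cc a j * th1' η (ξ a x - ξ j x) ≤ 2 * Fintype.card ι / η := by
  calc ∑ j, cc a j * th1' η (ξ a x - ξ j x) ≤ ∑ _j : ι, 2 * (1 / η) :=
        Finset.sum_le_sum fun j _ => mul_le_mul (cc_le a j) (th1'_le hη _) (th1'_nonneg _ _)
          (by norm_num)
    _ = _ := by simp; ring

/-! ### the cut-off of a particle -/

/-- cut-off of the particle `a` -/
noncomputable def chi (ξ : ι → EuclideanSpace ℝ (Fin n) →L[ℝ] ℝ) (r R : ℝ) (a : ι)
    (x : EuclideanSpace ℝ (Fin n)) : ℝ := Ac R (ξ a x) * Zc (Fintype.card ι * r) (NN ξ r x)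

omit [DecidableEq ι] in
lemma chi_hasFDerivAt (hr : 0 < r) (R : ℝ) (a : ι) (x : EuclideanSpace ℝ (Fin n)) :
    HasFDerivAt (chi ξ r R a) (Ac R (ξ a x) • (Zc' (Fintype.card ι * r) (NN ξ r x) •
      fderiv ℝ (NN ξ r) x) + Zc (Fintype.card ι * r) (NN ξ r x) • (Ac' R (ξ a x) • ξ a)) x := by
  have h1 := (Ac_hasDerivAt R (ξ a x)).comp_hasFDerivAt x (ξ a).hasFDerivAt
  have h2 := (Zc_hasDerivAt (Fintype.card ι * r) (NN ξ r x)).comp_hasFDerivAt x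
    ((NN_contDiff hr).differentiable (by simp) x).hasFDerivAt
  exact h1.mul h2

omit [DecidableEq ι] in
lemma chi_fderiv (hr : 0 < r) (R : ℝ) (a : ι) (x w : EuclideanSpace ℝ (Fin n)) :
    fderiv ℝ (chi ξ r R a) x w = Ac R (ξ a x) * (Zc' (Fintype.card ι * r) (NN ξ r x) *
      fderiv ℝ (NN ξ r) x w) + Zc (Fintype.card ι * r) (NN ξ r x) * (Ac' R (ξ a x) * ξ a w) := by
  rw [(chi_hasFDerivAt hr R a x).fderiv]
  simp

omit [DecidableEq ι] in
lemma chi_nonneg (R : ℝ) (a : ι) (x : EuclideanSpace ℝ (Fin n)) : 0 ≤ chi ξ r R a x :=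
  mul_nonneg (Ac_nonneg _ _) (Zc_nonneg _ _)

omit [DecidableEq ι] in
lemma chi_le_one (R : ℝ) (a : ι) (x : EuclideanSpace ℝ (Fin n)) : chi ξ r R a x ≤ 1 :=
  mul_le_one₀ (Ac_le_one _ _) (Zc_nonneg _ _) (Zc_le_one _ _)

omit [DecidableEq ι] in
lemma chi_contDiff (hr : 0 < r) (R : ℝ) (a : ι) : ContDiff ℝ 1 (chi ξ r R a) := by
  have h1 : ContDiff ℝ 1 (Ac R) := th_contDiff (Ac_hasDerivAt R) (Ac'_cont R)
  have h2 : ContDiff ℝ 1 (Zc (Fintype.card ι * r)) :=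
    th_contDiff (Zc_hasDerivAt _) (Zc'_cont _)
  exact (h1.comp (ξ a).contDiff).mul (h2.comp (NN_contDiff hr))

omit [DecidableEq ι] in
/-- the derivative of the cut-off in the direction `w` -/
lemma chi_fderiv_abs (hr : 0 < r) {R : ℝ} (hR : 0 < R) (a : ι) (x w : EuclideanSpace ℝ (Fin n))
    {c1 c2 : ℝ} (hc1 : |ξ a x| ≤ 2 * R → NN ξ r x ≤ 16 * (Fintype.card ι * r) → |ξ a w| ≤ c1 * R)
    (hc10 : 0 ≤ c1)
    (hc2 : NN ξ r x ≤ 16 * (Fintype.card ι * r) → |fderiv ℝ (NN ξ r) x w| ≤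
      c2 * (Fintype.card ι * r)) (hc20 : 0 ≤ c2) :
    |fderiv ℝ (chi ξ r R a) x w| ≤ 3 * c1 + c2 / 4 := by
  have hk : (0 : ℝ) < Fintype.card ι := by exact_mod_cast Fintype.card_pos_iff.mpr ⟨a⟩
  have hν : 0 < Fintype.card ι * r := by positivity
  rw [chi_fderiv hr]
  by_cases hN : NN ξ r x ≤ 16 * (Fintype.card ι * r)
  · refine (abs_add_le _ _).trans ?_
    have e1 : |Ac R (ξ a x) * (Zc' (Fintype.card ι * r) (NN ξ r x) *
        fderiv ℝ (NN ξ r) x w)| ≤ c2 / 4 := by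
      rw [abs_mul, abs_mul, abs_of_nonneg (Ac_nonneg _ _)]
      have h1 : |Zc' (Fintype.card ι * r) (NN ξ r x)| * |fderiv ℝ (NN ξ r) x w| ≤
          1 / (4 * (Fintype.card ι * r)) * (c2 * (Fintype.card ι * r)) :=
        mul_le_mul (Zc'_abs hν) (hc2 hN) (abs_nonneg _) (by positivity)
      have h2 : 1 / (4 * (Fintype.card ι * r)) * (c2 * (Fintype.card ι * r)) = c2 / 4 := by
        field_simp
      rw [h2] at h1
      calc _ ≤ 1 * (c2 / 4) := mul_le_mul (Ac_le_one _ _) h1 (by positivity) zero_le_one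
        _ = _ := one_mul _
    have e2 : |Zc (Fintype.card ι * r) (NN ξ r x) * (Ac' R (ξ a x) * ξ a w)| ≤ 3 * c1 := by
      rw [abs_mul, abs_mul, abs_of_nonneg (Zc_nonneg _ _)]
      have h1 : |Ac' R (ξ a x)| * |ξ a w| ≤ 3 * c1 := by
        by_cases hx : |ξ a x| ≤ 2 * R
        · have h3 : |Ac' R (ξ a x)| * |ξ a w| ≤ 3 / R * (c1 * R) :=
            mul_le_mul (Ac'_abs hR) (hc1 hx hN) (abs_nonneg _) (by positivity)
          have h4 : 3 / R * (c1 * R) = 3 * c1 := by field_simp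
          linarith
        · push Not at hx
          rw [Ac'_hi hR hx.le, abs_zero, zero_mul]
          positivity
      calc _ ≤ 1 * (3 * c1) := mul_le_mul (Zc_le_one _ _) h1 (by positivity) zero_le_one
        _ = _ := one_mul _
    linarith
  · push Not at hN
    rw [Zc'_hi hν hN.le, Zc_hi hν hN.le]
    simp
    positivity

lemma chi_TW (hb : Blk ξ v) (hr : 0 < r) {R : ℝ} (hR : 0 < R) (a : ι) :
    ∃ l, TW (chi ξ r R a) 1 l := by
  have hk : (0 : ℝ) < Fintype.card ι := by exact_mod_cast Fintype.card_pos_iff.mpr ⟨a⟩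
  refine ⟨3 * (1 / R) + (1 / r) / 4, chi_contDiff hr R a, fun x => ?_, fun x => ?_⟩
  · rw [abs_of_nonneg (chi_nonneg _ _ _)]
    exact chi_le_one _ _ _
  · apply ContinuousLinearMap.opNorm_le_bound _ (by positivity)
    intro w
    rw [Real.norm_eq_abs]
    have := chi_fderiv_abs (ξ := ξ) hr hR a x w (c1 := 1 / R * ‖w‖) (c2 := 1 / r * ‖w‖)
      (fun _ _ => by
        have := hb.xn a w
        have e : 1 / R * ‖w‖ * R = ‖w‖ := by field_simp
        linarith) (by positivity)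
      (fun _ => by
        have h1 := NN_fderiv_abs (ξ := ξ) hr x w
        have h2 := hb.N1_le w
        have e : 1 / r * ‖w‖ * (Fintype.card ι * r) = Fintype.card ι * ‖w‖ := by field_simp
        linarith) (by positivity)
    refine this.trans (le_of_eq (by ring))

end Pool.Agent.Lib.MP_6d896a_gt.EX
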