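import Mathlib
import Pool.Agent.Lib.MP_6d896a_gt.Ex2

/-!
The space of vectors whose sums over the colour classes vanish: coordinates, difference vectors,
reflections.
-/

namespace Pool.Agent.Lib.MP_6d896a_gt.EX

open MeasureTheory Filter Topology Metric

variable {n : ℕ} {ι κ : Type} [Fintype ι] [DecidableEq ι] [DecidableEq κ] {π : ι → κ}
  {ξ : ι → EuclideanSpace ℝ (Fin n) →L[ℝ] ℝ} {v : ι → ι → EuclideanSpace ℝ (Fin n)}

/-- coordinates on the space of vectors with vanishing class sums -/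
structure Frm (π : ι → κ) (ξ : ι → EuclideanSpace ℝ (Fin n) →L[ℝ] ℝ)
    (v : ι → ι → EuclideanSpace ℝ (Fin n)) : Prop where
  dual : ∀ i j k, π i = π j →
    ξ k (v i j) = (if k = i then 1 else 0) - (if k = j then 1 else 0)
  sum0 : ∀ c x, ∑ i with π i = c, ξ i x = 0
  nrm : ∀ x, ‖x‖ ^ 2 = ∑ i, ξ i x ^ 2
  surj : ∀ h : ι → ℝ, (∀ c, ∑ i with π i = c, h i = 0) → ∃ x, ∀ i, ξ i x = h i

section basics

variable (hF : Frm π ξ v)

include hF

lemma Frm.ext {x y : EuclideanSpace ℝ (Fin n)} (h : ∀ i, ξ i x = ξ i y) : x = y := by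
  have h1 : ‖x - y‖ ^ 2 = 0 := by
    rw [hF.nrm]
    apply Finset.sum_eq_zero
    intro i _
    rw [map_sub, h i, sub_self]
    norm_num
  have h2 : ‖x - y‖ = 0 := by simpa using h1
  exact sub_eq_zero.mp (norm_eq_zero.mp h2)

lemma Frm.inner_eq (x y : EuclideanSpace ℝ (Fin n)) :
    inner ℝ x y = ∑ i, ξ i x * ξ i y := by
  have h1 : ‖x + y‖ ^ 2 = ‖x‖ ^ 2 + 2 * inner ℝ x y + ‖y‖ ^ 2 := norm_add_sq_real x y
  rw [hF.nrm, hF.nrm, hF.nrm] at h1
  have h2 : ∑ i, ξ i (x + y) ^ 2 = ∑ i, ξ i x ^ 2 + 2 * ∑ i, ξ i x * ξ i y + ∑ i, ξ i y ^ 2 := by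
    rw [Finset.mul_sum, ← Finset.sum_add_distrib, ← Finset.sum_add_distrib]
    apply Finset.sum_congr rfl
    intro i _
    rw [map_add]
    ring
  linarith

lemma Frm.xn (i : ι) (x : EuclideanSpace ℝ (Fin n)) : |ξ i x| ≤ ‖x‖ := by
  apply abs_le_of_sq_le_sq _ (norm_nonneg x)
  rw [hF.nrm]
  exact Finset.single_le_sum (f := fun i => ξ i x ^ 2) (fun i _ => sq_nonneg _) (Finset.mem_univ i)

lemma Frm.coc {i j k : ι} (hij : π i = π j) (hjk : π j = π k) :
    v i j + v j k = v i k := by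
  apply hF.ext
  intro l
  rw [map_add, hF.dual i j l hij, hF.dual j k l hjk, hF.dual i k l (hij.trans hjk)]
  ring

lemma Frm.inner_v {i j : ι} (hij : π i = π j) (x : EuclideanSpace ℝ (Fin n)) :
    inner ℝ (v i j) x = ξ i x - ξ j x := by
  rw [hF.inner_eq]
  simp only [hF.dual i j _ hij, sub_mul, Finset.sum_sub_distrib, ite_mul, one_mul, zero_mul,
    Finset.sum_ite_eq', Finset.mem_univ, if_true]

lemma Frm.norm_v {i j : ι} (hij : π i = π j) (hne : i ≠ j) : ‖v i j‖ ^ 2 = 2 := by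
  rw [← real_inner_self_eq_norm_sq, hF.inner_v hij, hF.dual i j _ hij, hF.dual i j _ hij]
  have hne' : ¬ j = i := fun h => hne h.symm
  simp [hne, hne']
  norm_num

lemma Frm.v_self (i : ι) : v i i = 0 := by
  apply hF.ext
  intro k
  rw [hF.dual i i k rfl, map_zero, sub_self]

lemma Frm.vn {i j : ι} (hij : π i = π j) : ‖v i j‖ ≤ 2 := by
  by_cases h : i = j
  · subst h
    rw [hF.v_self, norm_zero]
    norm_num
  · have h1 := hF.norm_v hij h
    nlinarith [norm_nonneg (v i j)]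

/-- the coordinates of one class -/
lemma Frm.blk (c : κ) : Blk (ι := {i // π i = c}) (fun i => ξ i.1) (fun i j => v i.1 j.1) where
  dual i j k := by
    rw [hF.dual i.1 j.1 k.1 (i.2.trans j.2.symm)]
    simp only [Subtype.ext_iff]
  sum0 x := by
    rw [← hF.sum0 c x]
    exact (Finset.sum_subtype _ (by simp) (fun i => ξ i x)).symm
  vn i j := hF.vn (i.2.trans j.2.symm)
  xn i x := hF.xn i.1 x
  coc i j k := hF.coc (i.2.trans j.2.symm) (j.2.trans k.2.symm)

end basics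

/-- the reflection with root `w` -/
noncomputable def rfl2 (w : EuclideanSpace ℝ (Fin n)) :
    EuclideanSpace ℝ (Fin n) ≃ₗᵢ[ℝ] EuclideanSpace ℝ (Fin n) :=
  (ℝ ∙ w)ᗮ.reflection

lemma rfl2_apply {w : EuclideanSpace ℝ (Fin n)} (hw : ‖w‖ ^ 2 = 2) (x : EuclideanSpace ℝ (Fin n)) :
    rfl2 w x = x - (inner ℝ w x : ℝ) • w := by
  unfold rfl2
  rw [Submodule.reflection_orthogonal_apply, Submodule.reflection_singleton_apply]
  simp only [RCLike.ofReal_real_eq_id, id_eq, hw]
  rw [two_smul, ← add_smul]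
  have : (inner ℝ w x : ℝ) / 2 + inner ℝ w x / 2 = inner ℝ w x := by ring
  rw [this]
  abel

lemma rfl2_self (w : EuclideanSpace ℝ (Fin n)) : rfl2 w w = -w :=
  Submodule.reflection_orthogonalComplement_singleton_eq_neg w

lemma rfl2_rfl2 (w x : EuclideanSpace ℝ (Fin n)) : rfl2 w (rfl2 w x) = x :=
  Submodule.reflection_reflection _ x

section refl

variable (hF : Frm π ξ v)

include hF

lemma Frm.refl_apply {i j : ι} (hij : π i = π j) (hne : i ≠ j) (x : EuclideanSpace ℝ (Fin n)) :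
    rfl2 (v i j) x = x - (ξ i x - ξ j x) • v i j := by
  rw [rfl2_apply (hF.norm_v hij hne), hF.inner_v hij]

lemma Frm.xi_refl {i j : ι} (hij : π i = π j) (hne : i ≠ j) (k : ι)
    (x : EuclideanSpace ℝ (Fin n)) : ξ k (rfl2 (v i j) x) = ξ (Equiv.swap i j k) x := by
  rw [hF.refl_apply hij hne, map_sub, map_smul, smul_eq_mul, hF.dual i j k hij]
  by_cases h1 : k = i
  · subst h1
    simp [hne]
  · by_cases h2 : k = j
    · subst h2
      have : ¬ k = i := h1
      simp [h1]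
    · rw [Equiv.swap_apply_of_ne_of_ne h1 h2]
      simp [h1, h2]

/-- odd functions are controlled by the difference of the coordinates -/
lemma Frm.odd_le {i j : ι} (hij : π i = π j) (hne : i ≠ j) {u : EuclideanSpace ℝ (Fin n) → ℝ}
    {L : ℝ} (hu : ContDiff ℝ 1 u) (hL : ∀ x, ‖fderiv ℝ u x‖ ≤ L)
    (hodd : ∀ x, u (rfl2 (v i j) x) = - u x) (x : EuclideanSpace ℝ (Fin n)) :
    |u x| ≤ L * |ξ i x - ξ j x| := by
  have h1 : ‖u (rfl2 (v i j) x) - u x‖ ≤ L * ‖rfl2 (v i j) x - x‖ :=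
    convex_univ.norm_image_sub_le_of_norm_fderiv_le (𝕜 := ℝ)
      (fun z _ => (hu.differentiable (by simp)).differentiableAt) (fun z _ => hL z)
      (Set.mem_univ x) (Set.mem_univ _)
  have hL0 : 0 ≤ L := (norm_nonneg _).trans (hL 0)
  rw [hodd, Real.norm_eq_abs, show -u x - u x = -(2 * u x) by ring, abs_neg, abs_mul,
    abs_of_pos (by norm_num : (0 : ℝ) < 2), hF.refl_apply hij hne, sub_sub_cancel_left, norm_neg,
    norm_smul, Real.norm_eq_abs] at h1
  have h2 := hF.vn hij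
  have h3 : |ξ i x - ξ j x| * ‖v i j‖ ≤ |ξ i x - ξ j x| * 2 :=
    mul_le_mul_of_nonneg_left h2 (abs_nonneg _)
  have h4 := mul_le_mul_of_nonneg_left h3 hL0
  linarith

end refl

/-! ### pairs -/

/-- ordered pairs of different indices of the same colour -/
abbrev Prs (π : ι → κ) : Type := {p : ι × ι // π p.1 = π p.2 ∧ p.1 ≠ p.2}

/-- size of the class of `i` -/
noncomputable def csz (π : ι → κ) (i : ι) : ℝ := ((Finset.univ.filter fun j => π j = π i).card : ℝ)

omit [DecidableEq ι] in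
lemma csz_pos (i : ι) : 0 < csz π i := by
  unfold csz
  exact_mod_cast Finset.card_pos.mpr ⟨i, by simp⟩

omit [DecidableEq ι] in
lemma csz_congr {i j : ι} (h : π i = π j) : csz π i = csz π j := by
  unfold csz
  rw [h]

/-- roots -/
noncomputable def rv (v : ι → ι → EuclideanSpace ℝ (Fin n)) (p : Prs π) :
    EuclideanSpace ℝ (Fin n) := v p.1.1 p.1.2

/-- reflections -/
noncomputable def rR (v : ι → ι → EuclideanSpace ℝ (Fin n)) (p : Prs π) :
    EuclideanSpace ℝ (Fin n) ≃ₗᵢ[ℝ] EuclideanSpace ℝ (Fin n) := rfl2 (v p.1.1 p.1.2)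

/-- weights -/
noncomputable def ral (p : Prs π) : ℝ := 1 / (2 * csz π p.1.1)

omit [DecidableEq ι] in
lemma ral_nonneg (p : Prs π) : 0 ≤ ral p := by
  unfold ral
  have := csz_pos (π := π) p.1.1
  positivity

/-- sums over pairs -/
lemma sum_pairs (F : ι → ι → ℝ) (h0 : ∀ i, F i i = 0) :
    ∑ p : Prs π, F p.1.1 p.1.2 = ∑ i, ∑ j with π j = π i, F i j := by
  have h1 : ∑ p : Prs π, F p.1.1 p.1.2 =
      ∑ q ∈ (Finset.univ : Finset (ι × ι)).filter (fun q => π q.1 = π q.2 ∧ q.1 ≠ q.2),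
        F q.1 q.2 := by
    exact (Finset.sum_subtype _ (by simp) (fun q : ι × ι => F q.1 q.2)).symm
  rw [h1, Finset.sum_filter, Fintype.sum_prod_type]
  apply Finset.sum_congr rfl
  intro i _
  rw [Finset.sum_filter]
  apply Finset.sum_congr rfl
  intro j _
  by_cases hij : i = j
  · subst hij
    simp [h0]
  · by_cases hp : π i = π j
    · simp [hij, hp]
    · have hp' : ¬ π j = π i := fun h => hp h.symm
      simp [hp, hp']

section frame

variable (hF : Frm π ξ v)

include hF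

/-- the frame identity in coordinates -/
lemma Frm.frame_sq (g : EuclideanSpace ℝ (Fin n)) :
    ‖g‖ ^ 2 = ∑ p : Prs π, ral p * (ξ p.1.1 g - ξ p.1.2 g) ^ 2 := by
  have h1 := sum_pairs (π := π) (fun i j => 1 / (2 * csz π i) * (ξ i g - ξ j g) ^ 2)
    (fun i => by simp)
  have h2 : ∑ p : Prs π, ral p * (ξ p.1.1 g - ξ p.1.2 g) ^ 2 =
      ∑ p : Prs π, (fun i j => 1 / (2 * csz π i) * (ξ i g - ξ j g) ^ 2) p.1.1 p.1.2 := rfl
  rw [h2, h1]
  have h3 : ∀ i, ∑ j with π j = π i, 1 / (2 * csz π i) * (ξ i g - ξ j g) ^ 2 =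
      1 / 2 * ξ i g ^ 2 + ∑ j with π j = π i, 1 / (2 * csz π j) * ξ j g ^ 2 := by
    intro i
    have hc := csz_pos (π := π) i
    have e : ∀ j ∈ Finset.univ.filter (fun j => π j = π i),
        1 / (2 * csz π i) * (ξ i g - ξ j g) ^ 2 =
        1 / (2 * csz π i) * ξ i g ^ 2 - (1 / csz π i * ξ i g) * ξ j g +
          1 / (2 * csz π j) * ξ j g ^ 2 := by
      intro j hj
      rw [Finset.mem_filter] at hj
      rw [csz_congr hj.2]
      field_simp
      ring
    have e2 : ∑ j with π j = π i, (1 / csz π i * ξ i g) * ξ j g = 0 := by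
      rw [← Finset.mul_sum, hF.sum0, mul_zero]
    rw [Finset.sum_congr rfl e, Finset.sum_add_distrib, Finset.sum_sub_distrib, e2, sub_zero,
      Finset.sum_const, nsmul_eq_mul]
    congr 1
    have : ((Finset.univ.filter fun j => π j = π i).card : ℝ) = csz π i := rfl
    rw [this]
    field_simp
  rw [Finset.sum_congr rfl fun i _ => h3 i, Finset.sum_add_distrib, ← Finset.mul_sum, ← hF.nrm]
  have h4 : ∑ i, ∑ j with π j = π i, 1 / (2 * csz π j) * ξ j g ^ 2 = 1 / 2 * ‖g‖ ^ 2 := by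
    simp only [Finset.sum_filter]
    rw [Finset.sum_comm, hF.nrm, Finset.mul_sum]
    apply Finset.sum_congr rfl
    intro j _
    have hc := csz_pos (π := π) j
    rw [← Finset.sum_filter, Finset.sum_const, nsmul_eq_mul]
    have : ((Finset.univ.filter fun i => π j = π i).card : ℝ) = csz π j := by
      unfold csz
      congr 2
      ext i
      simp [eq_comm]
    rw [this]
    field_simp
  rw [h4]
  ring

/-- the tight frame -/
lemma Frm.frame (L : EuclideanSpace ℝ (Fin n) →L[ℝ] ℝ) :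
    ‖L‖ ^ 2 = ∑ p : Prs π, ral p * (L (rv v p)) ^ 2 := by
  set g := (InnerProductSpace.toDual ℝ (EuclideanSpace ℝ (Fin n))).symm L with hg
  have h1 : ‖L‖ = ‖g‖ := by rw [hg, LinearIsometryEquiv.norm_map]
  have h2 : ∀ x, L x = inner ℝ g x := fun x => by
    rw [hg, InnerProductSpace.toDual_symm_apply]
  rw [h1, hF.frame_sq]
  apply Finset.sum_congr rfl
  intro p _
  rw [h2, rv, real_inner_comm, hF.inner_v p.2.1]

/-- the group is finite -/
lemma Frm.finG : Finite (Subgroup.closure (Set.range (rR (π := π) v))) := by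
  have h : ∀ g ∈ Subgroup.closure (Set.range (rR (π := π) v)),
      ∃ σ : Equiv.Perm ι, ∀ k x, ξ k (g x) = ξ (σ k) x := by
    intro g hg
    induction hg using Subgroup.closure_induction with
    | mem x hx =>
      obtain ⟨p, rfl⟩ := hx
      exact ⟨Equiv.swap p.1.1 p.1.2, fun k x => hF.xi_refl p.2.1 p.2.2 k x⟩
    | one => exact ⟨1, fun k x => rfl⟩
    | mul g h _ _ h1 h2 =>
      obtain ⟨σ, hσ⟩ := h1
      obtain ⟨τ, hτ⟩ := h2
      refine ⟨τ * σ, fun k x => ?_⟩
      show ξ k (g (h x)) = ξ (τ (σ k)) x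
      rw [hσ, hτ]
    | inv g _ h1 =>
      obtain ⟨σ, hσ⟩ := h1
      refine ⟨σ⁻¹, fun k x => ?_⟩
      have e : g (g⁻¹ x) = x := by
        show g (g.symm x) = x
        exact g.apply_symm_apply x
      have h2 := hσ (σ⁻¹ k) (g⁻¹ x)
      rw [e] at h2
      rw [h2]
      congr 1
      exact congrArg ξ (by simp)
  choose! σ hσ using h
  apply Finite.of_injective (β := Equiv.Perm ι)
    (fun g : Subgroup.closure (Set.range (rR (π := π) v)) => σ g.1)
  intro g h hgh
  apply Subtype.ext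
  apply LinearIsometryEquiv.ext
  intro x
  apply hF.ext
  intro i
  rw [hσ g.1 g.2, hσ h.1 h.2]
  simp only at hgh
  rw [hgh]

end frame

end Pool.Agent.Lib.MP_6d896a_gt.EX
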