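import Mathlib
import Pool.Agent.Lib.MP_6d896a_gt.Ex9
import Pool.Agent.Lib.MP_6d896a_gt.Ex4
import Pool.Agent.Lib.MP_6d896a_gt.FP.ApproxInv
import Pool.Agent.Lib.MP_6d896a_gt.FP.ForestH

/-!
Convex functions invariant under transpositions and the penalty for one colour class.
-/

namespace Pool.Agent.Lib.MP_6d896a_gt.EX

open MeasureTheory Filter Topology Metric Pool.Agent.Lib.MP_6d896a_gt.FP

/-- differentiable convex functions lie above their tangent planes -/
lemma convex_tangent {E : Type*} [NormedAddCommGroup E] [NormedSpace ℝ E] {W : E → ℝ}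
    (hc : ConvexOn ℝ Set.univ W) {L : E →L[ℝ] ℝ} {z : E} (hd : HasFDerivAt W L z) (x : E) :
    W z + L (x - z) ≤ W x := by
  have h1 : HasDerivAt (fun t : ℝ => z + t • (x - z)) ((1 : ℝ) • (x - z)) 0 :=
    ((hasDerivAt_id (0 : ℝ)).smul_const (x - z)).const_add z
  rw [one_smul] at h1
  have hd' : HasFDerivAt W L (z + (0 : ℝ) • (x - z)) := by
    rw [zero_smul, add_zero]; exact hd
  have h2 : HasDerivAt (fun t : ℝ => W (z + t • (x - z))) (L (x - z)) 0 :=
    hd'.comp_hasDerivAt (0 : ℝ) h1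
  have h3 := h2.tendsto_slope_zero_right
  simp only [zero_add, zero_smul, add_zero] at h3
  have h4 : L (x - z) ≤ W x - W z := by
    apply le_of_tendsto h3
    filter_upwards [Ioo_mem_nhdsGT (zero_lt_one' ℝ)] with t ht
    have h5 := hc.2 (Set.mem_univ z) (Set.mem_univ x) (by linarith [ht.2] : (0 : ℝ) ≤ 1 - t)
      ht.1.le (by ring)
    have e : (1 - t) • z + t • x = z + t • (x - z) := by module
    rw [e] at h5
    simp only [smul_eq_mul] at h5
    rw [smul_eq_mul, ← div_eq_inv_mul, div_le_iff₀ ht.1]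
    nlinarith
  linarith

variable {n : ℕ} {ι κ : Type} [Fintype ι] [DecidableEq ι] [DecidableEq κ] {π : ι → κ}
  {ξ : ι → EuclideanSpace ℝ (Fin n) →L[ℝ] ℝ} {v : ι → ι → EuclideanSpace ℝ (Fin n)}

/-- derivative of an invariant function -/
lemma fderiv_inv {W : EuclideanSpace ℝ (Fin n) → ℝ} (hd : Differentiable ℝ W)
    {R : EuclideanSpace ℝ (Fin n) ≃ₗᵢ[ℝ] EuclideanSpace ℝ (Fin n)} (hW : ∀ x, W (R x) = W x)
    (x w : EuclideanSpace ℝ (Fin n)) : fderiv ℝ W (R x) (R w) = fderiv ℝ W x w := by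
  have h1 : HasFDerivAt (fun x => W (R x)) ((fderiv ℝ W (R x)).comp
      (R.toContinuousLinearEquiv : EuclideanSpace ℝ (Fin n) →L[ℝ] EuclideanSpace ℝ (Fin n))) x :=
    (hd (R x)).hasFDerivAt.comp x R.toContinuousLinearEquiv.hasFDerivAt
  have h2 : (fun x => W (R x)) = W := funext hW
  rw [h2] at h1
  rw [h1.fderiv]
  rfl

/-- monotone forces -/
lemma Frm.mono (hF : Frm π ξ v) {W : EuclideanSpace ℝ (Fin n) → ℝ} (hd : Differentiable ℝ W)
    (hc : ConvexOn ℝ Set.univ W) (hW : ∀ (p : Prs π) x, W (rR v p x) = W x) {i j : ι}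
    (hij : π i = π j) (x : EuclideanSpace ℝ (Fin n)) (hx : ξ i x ≤ ξ j x) :
    fderiv ℝ W x (v i j) ≤ 0 := by
  by_cases hne : i = j
  · subst hne
    rw [hF.v_self, map_zero]
  set p : Prs π := ⟨(i, j), hij, hne⟩ with hp
  have hWx := hW p
  have hR : ∀ y, rR v p y = y - (ξ i y - ξ j y) • v i j := fun y => hF.refl_apply hij hne y
  rcases hx.eq_or_lt with h0 | h0
  · have h1 := fderiv_inv hd hWx x (v i j)
    have h2 : rR v p x = x := by rw [hR, h0, sub_self, zero_smul, sub_zero]
    have h3 : rR v p (v i j) = -(v i j) := rfl2_self _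
    rw [h2, h3, map_neg] at h1
    linarith
  · have h1 := convex_tangent hc (hd x).hasFDerivAt (rR v p x)
    rw [hWx, hR, sub_sub_cancel_left, ← neg_smul, map_smul, smul_eq_mul] at h1
    by_contra hcon
    push Not at hcon
    have : 0 < -(ξ i x - ξ j x) * fderiv ℝ W x (v i j) := mul_pos (by linarith) hcon
    linarith

/-- forces of an invariant convex function push outwards -/
lemma Frm.out (hF : Frm π ξ v) {W : EuclideanSpace ℝ (Fin n) → ℝ} (hd : Differentiable ℝ W)
    (hc : ConvexOn ℝ Set.univ W) (hW : ∀ (p : Prs π) x, W (rR v p x) = W x) (c : κ)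
    (x : EuclideanSpace ℝ (Fin n)) :
    0 ≤ fderiv ℝ W x (FF (fun i : {i // π i = c} => ξ i.1) (fun i j => v i.1 j.1)
      (fun t => t) x) := by
  rw [map_FF]
  apply Finset.sum_nonneg
  intro i _
  apply Finset.sum_nonneg
  intro j _
  have hij : π i.1 = π j.1 := i.2.trans j.2.symm
  rcases le_total (ξ i.1 x) (ξ j.1 x) with h | h
  · exact mul_nonneg_of_nonpos_of_nonpos (by linarith) (hF.mono hd hc hW hij x h)
  · have h1 := hF.mono hd hc hW hij.symm x h
    have h2 : v j.1 i.1 = - v i.1 j.1 := by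
      have := hF.coc hij hij.symm
      rw [hF.v_self] at this
      exact (neg_eq_of_add_eq_zero_right this).symm
    rw [h2, map_neg] at h1
    exact mul_nonneg (by linarith) (by linarith)

/-! ### the penalty -/

/-- signs -/
noncomputable def sg (b : Bool) : ℝ := if b then 1 else -1

/-- functionals -/
noncomputable def pA (π : ι → κ) (ξ : ι → EuclideanSpace ℝ (Fin n) →L[ℝ] ℝ) (c : κ) (B : ℝ) :
    Option (ι → Bool) → (EuclideanSpace ℝ (Fin n) →L[ℝ] ℝ)
  | none => 0
  | some ε => B • ∑ i with π i = c, sg (ε i) • ξ i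

/-- constants -/
noncomputable def pb (ι : Type) (B c0 : ℝ) : Option (ι → Bool) → ℝ
  | none => 0
  | some _ => -(B * c0)

/-- penalty of the class `c` -/
noncomputable def pen (π : ι → κ) (ξ : ι → EuclideanSpace ℝ (Fin n) →L[ℝ] ℝ) (c : κ)
    (Lam c0 β : ℝ) (x : EuclideanSpace ℝ (Fin n)) : ℝ :=
  β⁻¹ * Real.log (seZ Finset.univ (pA π ξ c (β * Lam)) (pb ι (β * Lam) c0) x)

/-- number of terms -/
noncomputable def pJ (ι : Type) [Fintype ι] [DecidableEq ι] : ℝ :=
  (Fintype.card (Option (ι → Bool)) : ℝ)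

lemma pJ_pos : 1 ≤ pJ ι := by
  unfold pJ
  exact_mod_cast Fintype.card_pos

/-- class l1 norm -/
noncomputable def Nc (π : ι → κ) (ξ : ι → EuclideanSpace ℝ (Fin n) →L[ℝ] ℝ) (c : κ)
    (x : EuclideanSpace ℝ (Fin n)) : ℝ := ∑ i with π i = c, |ξ i x|

omit [DecidableEq ι] in
lemma Nc_eq (c : κ) (x : EuclideanSpace ℝ (Fin n)) :
    Nc π ξ c x = N1 (fun i : {i // π i = c} => ξ i.1) x := by
  unfold Nc N1
  exact Finset.sum_subtype _ (by simp) (fun i => |ξ i x|)

lemma uni_ne : (Finset.univ : Finset (Option (ι → Bool))).Nonempty := ⟨none, Finset.mem_univ _⟩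

lemma pen_NC (c : κ) (Lam c0 β : ℝ) : NC (pen π ξ c Lam c0 β) :=
  NC.const_mul ⟨contDiff_log_seZ uni_ne 2, BLip_fderiv_fderiv_log_seZ uni_ne⟩ _

lemma pen_convex (c : κ) (Lam c0 : ℝ) {β : ℝ} (hβ : 0 < β) :
    ConvexOn ℝ Set.univ (pen π ξ c Lam c0 β) :=
  (convexOn_log_seZ (A := pA π ξ c (β * Lam)) (b := pb ι (β * Lam) c0) uni_ne).smul
    (inv_pos.mpr hβ).le

lemma pen_inv (hF : Frm π ξ v) (c : κ) (Lam c0 β : ℝ) (p : Prs π)
    (x : EuclideanSpace ℝ (Fin n)) : pen π ξ c Lam c0 β (rR v p x) = pen π ξ c Lam c0 β x := by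
  unfold pen seZ
  congr 2
  set σ := Equiv.swap p.1.1 p.1.2 with hσ
  have hc : ∀ i, π (σ i) = π i := by
    intro i
    by_cases h1 : i = p.1.1
    · subst h1
      rw [hσ, Equiv.swap_apply_left]
      exact p.2.1.symm
    · by_cases h2 : i = p.1.2
      · subst h2
        rw [hσ, Equiv.swap_apply_right]
        exact p.2.1
      · rw [hσ, Equiv.swap_apply_of_ne_of_ne h1 h2]
  have hk : ∀ (ε : ι → Bool), pA π ξ c (β * Lam) (some ε) (rR v p x) =
      pA π ξ c (β * Lam) (some (fun i => ε (σ i))) x := by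
    intro ε
    simp only [pA, _root_.smul_apply, _root_.sum_apply, smul_eq_mul]
    congr 1
    simp only [Finset.sum_filter]
    rw [← Equiv.sum_comp σ]
    apply Finset.sum_congr rfl
    intro i _
    rw [hc]
    split_ifs
    · congr 1
      have := hF.xi_refl p.2.1 p.2.2 (σ i) x
      unfold rR
      rw [this, hσ, Equiv.swap_apply_self]
    · rfl
  rw [Fintype.sum_option, Fintype.sum_option]
  congr 1
  have hinv : Function.Involutive (fun ε : ι → Bool => fun i => ε (σ i)) := by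
    intro ε
    funext i
    show ε (σ (σ i)) = ε i
    rw [hσ, Equiv.swap_apply_self]
  refine Fintype.sum_bijective _ hinv.bijective _ _ fun ε => ?_
  rw [hk]
  rfl

lemma pen_nonneg (c : κ) (Lam c0 : ℝ) {β : ℝ} (hβ : 0 < β) (x : EuclideanSpace ℝ (Fin n)) :
    0 ≤ pen π ξ c Lam c0 β x := by
  unfold pen
  apply mul_nonneg (inv_pos.mpr hβ).le
  apply Real.log_nonneg
  unfold seZ
  have h1 := Finset.single_le_sum (s := Finset.univ)
    (f := fun i => Real.exp (pA π ξ c (β * Lam) i x + pb ι (β * Lam) c0 i))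
    (fun i _ => (Real.exp_pos _).le) (Finset.mem_univ none)
  have h2 : Real.exp (pA π ξ c (β * Lam) none x + pb ι (β * Lam) c0 none) = 1 := by
    simp [pA, pb]
  rw [h2] at h1
  exact h1

lemma sg_mul_le (b : Bool) (t : ℝ) : sg b * t ≤ |t| := by
  unfold sg
  cases b
  · simpa using neg_le_abs t
  · simpa using le_abs_self t

lemma pen_small (c : κ) {Lam c0 β : ℝ} (hβ : 0 < β) (hL : 0 ≤ Lam)
    {x : EuclideanSpace ℝ (Fin n)} (hx : Nc π ξ c x ≤ c0) :
    pen π ξ c Lam c0 β x ≤ pJ ι / β := by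
  unfold pen
  rw [inv_mul_eq_div]
  apply div_le_div_of_nonneg_right _ hβ.le
  have h0 : 0 < seZ Finset.univ (pA π ξ c (β * Lam)) (pb ι (β * Lam) c0) x := seZ_pos uni_ne x
  refine (Real.log_le_sub_one_of_pos h0).trans ?_
  have h1 : seZ Finset.univ (pA π ξ c (β * Lam)) (pb ι (β * Lam) c0) x ≤ pJ ι := by
    unfold seZ pJ
    rw [← Finset.card_univ, ← nsmul_one, ← Finset.sum_const]
    apply Finset.sum_le_sum
    intro i _
    rw [Real.exp_le_one_iff]
    cases i with
    | none => simp [pA, pb]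
    | some ε =>
      simp only [pA, pb, _root_.smul_apply, _root_.sum_apply, smul_eq_mul]
      have h2 : ∑ i with π i = c, sg (ε i) * ξ i x ≤ Nc π ξ c x :=
        Finset.sum_le_sum fun i _ => sg_mul_le _ _
      have h3 : 0 ≤ β * Lam := by positivity
      nlinarith
  linarith

/-- mean of the exponents -/
lemma smx_mean {J : Type} [Fintype J] (a : J → ℝ) (j0 : J) :
    (a j0 - Fintype.card J) * ∑ j, Real.exp (a j) ≤ ∑ j, Real.exp (a j) * a j := by
  have h1 : ∀ j, Real.exp (a j) * (a j0 - a j) ≤ Real.exp (a j0) := by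
    intro j
    have h2 : a j0 - a j ≤ Real.exp (a j0 - a j) := by
      linarith [Real.add_one_le_exp (a j0 - a j)]
    calc Real.exp (a j) * (a j0 - a j) ≤ Real.exp (a j) * Real.exp (a j0 - a j) :=
          mul_le_mul_of_nonneg_left h2 (Real.exp_pos _).le
      _ = Real.exp (a j0) := by rw [← Real.exp_add]; congr 1; ring
  have h3 : ∑ j, Real.exp (a j) * (a j0 - a j) ≤ Fintype.card J * Real.exp (a j0) := by
    refine (Finset.sum_le_sum fun j _ => h1 j).trans (le_of_eq ?_)
    simp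
  have h4 : Real.exp (a j0) ≤ ∑ j, Real.exp (a j) :=
    Finset.single_le_sum (f := fun j => Real.exp (a j)) (fun j _ => (Real.exp_pos _).le)
      (Finset.mem_univ j0)
  have h5 : ∑ j, Real.exp (a j) * (a j0 - a j) =
      a j0 * ∑ j, Real.exp (a j) - ∑ j, Real.exp (a j) * a j := by
    rw [Finset.mul_sum, ← Finset.sum_sub_distrib]
    apply Finset.sum_congr rfl
    intro j _
    ring
  have h6 : (Fintype.card J : ℝ) * Real.exp (a j0) ≤
      Fintype.card J * ∑ j, Real.exp (a j) := mul_le_mul_of_nonneg_left h4 (by positivity)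
  rw [h5] at h3
  linarith

/-- the force of the penalty -/
lemma pen_rad (hF : Frm π ξ v) (c : κ) {Lam c0 β : ℝ} (hβ : 0 < β) (hL : 0 ≤ Lam) (hc0 : 0 ≤ c0)
    (x : EuclideanSpace ℝ (Fin n)) :
    2 * (Fintype.card {i // π i = c} : ℝ) * (Lam * (Nc π ξ c x - c0) - pJ ι / β) ≤
      fderiv ℝ (pen π ξ c Lam c0 β) x (FF (fun i : {i // π i = c} => ξ i.1)
        (fun i j => v i.1 j.1) (fun t => t) x) := by
  set A := pA π ξ c (β * Lam) with hA
  set b := pb ι (β * Lam) c0 with hb
  set m : ℝ := (Fintype.card {i // π i = c} : ℝ) with hm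
  set w := FF (fun i : {i // π i = c} => ξ i.1) (fun i j => v i.1 j.1) (fun t => t) x with hw
  have hZ : 0 < seZ Finset.univ A b x := seZ_pos uni_ne x
  have hm0 : 0 ≤ m := by rw [hm]; positivity
  -- derivative
  have h1 : fderiv ℝ (pen π ξ c Lam c0 β) x w = β⁻¹ * seG Finset.univ A b x w := by
    have : HasFDerivAt (pen π ξ c Lam c0 β) (β⁻¹ • seG Finset.univ A b x) x :=
      (hasFDerivAt_log_seZ uni_ne x).const_mul _
    rw [this.fderiv]
    rfl
  -- coordinates of the radial field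
  have h2 : ∀ i, π i = c → ξ i w = 2 * m * ξ i x := fun i hi =>
    (hF.blk c).xi_FF_id (⟨i, hi⟩ : {i // π i = c}) x
  have h3 : ∀ j, A j w = 2 * m * A j x := by
    intro j
    cases j with
    | none => simp [hA, pA]
    | some ε =>
      simp only [hA, pA, _root_.smul_apply, _root_.sum_apply, smul_eq_mul]
      rw [mul_left_comm (2 * m)]
      congr 1
      rw [Finset.mul_sum]
      apply Finset.sum_congr rfl
      intro i hi
      rw [Finset.mem_filter] at hi
      rw [h2 i hi.2]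
      ring
  have hb0 : ∀ j, b j ≤ 0 := by
    intro j
    cases j with
    | none => simp [hb, pb]
    | some ε =>
      simp only [hb, pb]
      have : 0 ≤ β * Lam * c0 := by positivity
      linarith
  have h4 : seG Finset.univ A b x w =
      2 * m * ((∑ j, Real.exp (A j x + b j) * A j x) / seZ Finset.univ A b x) := by
    unfold seG smx
    rw [_root_.sum_apply, Finset.sum_div, Finset.mul_sum]
    apply Finset.sum_congr rfl
    intro j _
    rw [_root_.smul_apply, smul_eq_mul, h3]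
    ring
  -- the maximal exponent
  set ε0 : ι → Bool := fun i => decide (0 ≤ ξ i x) with hε0
  have h5 : A (some ε0) x + b (some ε0) = β * Lam * (Nc π ξ c x - c0) := by
    simp only [hA, hb, pA, pb, _root_.smul_apply, _root_.sum_apply, smul_eq_mul]
    have : ∑ i with π i = c, sg (ε0 i) * ξ i x = Nc π ξ c x := by
      apply Finset.sum_congr rfl
      intro i _
      rw [hε0]
      unfold sg
      by_cases h : 0 ≤ ξ i x
      · simp [h, abs_of_nonneg h]
      · push Not at h
        simp [h, abs_of_neg h]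
    rw [this]
    ring
  have h6 := smx_mean (fun j => A j x + b j) (some ε0)
  rw [h5] at h6
  have h7 : ∑ j, Real.exp (A j x + b j) * (A j x + b j) ≤ ∑ j, Real.exp (A j x + b j) * A j x := by
    apply Finset.sum_le_sum
    intro j _
    exact mul_le_mul_of_nonneg_left (by linarith [hb0 j]) (Real.exp_pos _).le
  have h8 : β * Lam * (Nc π ξ c x - c0) - pJ ι ≤
      (∑ j, Real.exp (A j x + b j) * A j x) / seZ Finset.univ A b x := by
    rw [le_div_iff₀ hZ]
    exact h6.trans h7
  rw [h1, h4]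
  have h9 : β⁻¹ * (2 * m * (β * Lam * (Nc π ξ c x - c0) - pJ ι)) ≤
      β⁻¹ * (2 * m * ((∑ j, Real.exp (A j x + b j) * A j x) / seZ Finset.univ A b x)) := by
    apply mul_le_mul_of_nonneg_left _ (inv_pos.mpr hβ).le
    exact mul_le_mul_of_nonneg_left h8 (by positivity)
  refine le_trans (le_of_eq ?_) h9
  field_simp

end Pool.Agent.Lib.MP_6d896a_gt.EX
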