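import Mathlib
import Pool.Agent.Lib.MP_6d896a_gt.Ex4

/-!
Exchangeable blocks: the Poincare inequality for functions which are odd with respect to a
transposition.
-/

namespace Pool.Agent.Lib.MP_6d896a_gt.EX

open MeasureTheory Filter Topology Metric
open scoped ENNReal NNReal

variable {n : ℕ} {V : EuclideanSpace ℝ (Fin n) → ℝ} {κ C : ℝ}
  {ι : Type} [Fintype ι] [DecidableEq ι] {ξ : ι → EuclideanSpace ℝ (Fin n) →L[ℝ] ℝ}
  {v : ι → ι → EuclideanSpace ℝ (Fin n)} {r : ℝ}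

/-- hypotheses on the potential and on the block -/
structure XP (ξ : ι → EuclideanSpace ℝ (Fin n) →L[ℝ] ℝ)
    (v : ι → ι → EuclideanSpace ℝ (Fin n)) (V : EuclideanSpace ℝ (Fin n) → ℝ)
    (κ C r : ℝ) : Prop where
  bp : BP V κ C
  blk : Blk ξ v
  rpos : 0 < r
  big : (10 : ℝ) ^ 6 ≤ Fintype.card ι
  mono : ∀ i j x, ξ i x ≤ ξ j x → fderiv ℝ V x (v i j) ≤ 0
  rad : ∀ x, (Fintype.card ι : ℝ) * r ≤ N1 ξ x →
    6 * Fintype.card ι / r * N1 ξ x ≤ fderiv ℝ V x (FF ξ v (fun t => t) x)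

section est

variable (h : XP ξ v V κ C r)

include h

lemma XP.kpos : (0 : ℝ) < Fintype.card ι := lt_of_lt_of_le (by norm_num) h.big

/-- forces -/
lemma XP.forces (x : EuclideanSpace ℝ (Fin n)) : ∃ g : ι → ℝ,
    (∀ i j, fderiv ℝ V x (v i j) = g i - g j) ∧ ∀ i j, ξ i x ≤ ξ j x → g i ≤ g j := by
  have hk := h.kpos
  refine ⟨fun i => (∑ l, fderiv ℝ V x (v i l)) / Fintype.card ι, ?_, ?_⟩
  · intro i j
    rw [div_sub_div_same, ← Finset.sum_sub_distrib]
    have : ∀ l, fderiv ℝ V x (v i l) - fderiv ℝ V x (v j l) = fderiv ℝ V x (v i j) := by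
      intro l
      rw [← h.blk.coc i j l, map_add]
      ring
    simp only [this]
    simp
    field_simp
  · intro i j hij
    apply div_le_div_of_nonneg_right _ hk.le
    apply Finset.sum_le_sum
    intro l _
    have h1 := h.mono i j x hij
    rw [← h.blk.coc i j l, map_add]
    linarith

lemma XP.pair_nonneg (x : EuclideanSpace ℝ (Fin n)) (i j : ι) :
    0 ≤ (ξ i x - ξ j x) * fderiv ℝ V x (v i j) := by
  obtain ⟨g, h1, h2⟩ := h.forces x
  rw [h1]
  rcases le_total (ξ i x) (ξ j x) with h3 | h3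
  · exact mul_nonneg_of_nonpos_of_nonpos (by linarith) (by linarith [h2 i j h3])
  · exact mul_nonneg (by linarith) (by linarith [h2 j i h3])

lemma XP.cover {R : ℝ} (hR : R = 2 * 10 ^ 6 * r) (a : ι) (x : EuclideanSpace ℝ (Fin n))
    (hx : R ≤ |ξ a x|) (hN : N1 ξ x ≤ 16 * (Fintype.card ι * r)) :
    fderiv ℝ V x (FF ξ v (fun t => t) x) ≤ 3 * fderiv ℝ V x (FF ξ v (th3 (2000 * r)) x) +
      8 * (2000 * r) * Fintype.card ι * fderiv ℝ V x (YY ξ v (th1 (R / 4)) a x) := by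
  have hr := h.rpos
  obtain ⟨g, h1, h2⟩ := h.forces x
  rw [map_FF, map_FF, map_YY]
  simp only [h1]
  apply EX.cover (x := fun i => ξ i x) (g := g) h2 (m := 0) (Q := 16 * r) (ρ := 2000 * r)
    (by positivity) (by positivity)
  · rw [hR]; linarith
  · rw [hR]; linarith
  · rw [hR]; nlinarith [sq_nonneg r]
  · simp only [sub_zero]
    calc N1 ξ x ≤ 16 * (Fintype.card ι * r) := hN
      _ = _ := by ring
  · rw [sub_zero]; exact hx

end est

omit [DecidableEq ι] in
lemma chi_zero (hr : 0 < r) {R : ℝ} (hR : 0 < R) (a : ι) (x : EuclideanSpace ℝ (Fin n))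
    (hx : ¬ (R ≤ |ξ a x| ∧ NN ξ r x ≤ 16 * (Fintype.card ι * r))) : chi ξ r R a x = 0 := by
  have hk : (0 : ℝ) < Fintype.card ι := by exact_mod_cast Fintype.card_pos_iff.mpr ⟨a⟩
  unfold chi
  by_cases h1 : R ≤ |ξ a x|
  · have h2 : ¬ NN ξ r x ≤ 16 * (Fintype.card ι * r) := fun h2 => hx ⟨h1, h2⟩
    push Not at h2
    rw [Zc_hi (by positivity) h2.le, mul_zero]
  · push Not at h1
    rw [Ac_lo hR h1.le, zero_mul]

/-! ### weights times squares -/

lemma fderiv_wsq {χ u : EuclideanSpace ℝ (Fin n) → ℝ} (hχ : ContDiff ℝ 1 χ) (hu : ContDiff ℝ 1 u)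
    (x w : EuclideanSpace ℝ (Fin n)) :
    fderiv ℝ (fun x => χ x * u x ^ 2) x w =
      fderiv ℝ χ x w * u x ^ 2 + χ x * (2 * u x * fderiv ℝ u x w) := by
  have h1 : HasFDerivAt χ (fderiv ℝ χ x) x := (hχ.differentiable (by simp) x).hasFDerivAt
  have h2 : HasFDerivAt u (fderiv ℝ u x) x := (hu.differentiable (by simp) x).hasFDerivAt
  have h3 : HasFDerivAt (fun x => χ x * u x ^ 2) _ x := h1.mul (h2.pow 2)
  rw [h3.fderiv]
  simp
  ring

lemma TW_wsq {χ u : EuclideanSpace ℝ (Fin n) → ℝ} {l U L : ℝ} (hχ : TW χ 1 l) (hu : TF u U L) :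
    TW (fun x => χ x * u x ^ 2) (U ^ 2) (l * U ^ 2 + 2 * U * L) := by
  have hU0 : 0 ≤ U := (abs_nonneg _).trans (hu.bd 0)
  have hL0 : 0 ≤ L := (norm_nonneg _).trans (hu.gd 0)
  have hl0 : 0 ≤ l := (norm_nonneg _).trans (hχ.gd 0)
  refine ⟨hχ.cd.mul (hu.cd.pow 2), fun x => ?_, fun x => ?_⟩
  · rw [abs_mul, abs_pow]
    have h1 := mul_le_mul (hχ.bd x) (pow_le_pow_left₀ (abs_nonneg _) (hu.bd x) 2) (by positivity)
      zero_le_one
    rwa [one_mul] at h1
  · apply ContinuousLinearMap.opNorm_le_bound _ (by positivity)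
    intro w
    rw [fderiv_wsq hχ.cd hu.cd, Real.norm_eq_abs]
    have hw := norm_nonneg w
    have a1 : |fderiv ℝ χ x w| ≤ l * ‖w‖ := by
      have := (fderiv ℝ χ x).le_opNorm w
      rw [Real.norm_eq_abs] at this
      exact this.trans (mul_le_mul_of_nonneg_right (hχ.gd x) hw)
    have a2 : |fderiv ℝ u x w| ≤ L * ‖w‖ := by
      have := (fderiv ℝ u x).le_opNorm w
      rw [Real.norm_eq_abs] at this
      exact this.trans (mul_le_mul_of_nonneg_right (hu.gd x) hw)
    refine (abs_add_le _ _).trans ?_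
    have b1 : |fderiv ℝ χ x w * u x ^ 2| ≤ l * ‖w‖ * U ^ 2 := by
      rw [abs_mul, abs_pow]
      exact mul_le_mul a1 (pow_le_pow_left₀ (abs_nonneg _) (hu.bd x) 2) (by positivity)
        (by positivity)
    have b2 : |χ x * (2 * u x * fderiv ℝ u x w)| ≤ 1 * (2 * U * (L * ‖w‖)) := by
      rw [abs_mul, abs_mul, abs_mul, abs_two]
      apply mul_le_mul (hχ.bd x) _ (by positivity) zero_le_one
      apply mul_le_mul _ a2 (abs_nonneg _) (by positivity)
      exact mul_le_mul_of_nonneg_left (hu.bd x) zero_le_two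
    linarith

/-- the derivative of a weight times a square -/
lemma wsq_le {χ u : EuclideanSpace ℝ (Fin n) → ℝ} (hχ : ContDiff ℝ 1 χ) (hu : ContDiff ℝ 1 u)
    (x w : EuclideanSpace ℝ (Fin n)) {c1 c2 : ℝ} (h1 : |fderiv ℝ χ x w| ≤ c1)
    (h2 : |χ x| * ‖w‖ ≤ c2) :
    |fderiv ℝ (fun x => χ x * u x ^ 2) x w| ≤ c1 * u x ^ 2 + 2 * c2 * (|u x| * ‖fderiv ℝ u x‖) := by
  rw [fderiv_wsq hχ hu]
  refine (abs_add_le _ _).trans (add_le_add ?_ ?_)
  · rw [abs_mul, abs_of_nonneg (sq_nonneg (u x))]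
    exact mul_le_mul_of_nonneg_right h1 (sq_nonneg _)
  · have a2 : |fderiv ℝ u x w| ≤ ‖fderiv ℝ u x‖ * ‖w‖ := by
      have := (fderiv ℝ u x).le_opNorm w
      rwa [Real.norm_eq_abs] at this
    rw [abs_mul, abs_mul, abs_mul, abs_two]
    have hχ0 := abs_nonneg (χ x)
    have hu0 := abs_nonneg (u x)
    have hd0 := norm_nonneg (fderiv ℝ u x)
    calc |χ x| * (2 * |u x| * |fderiv ℝ u x w|) ≤
          |χ x| * (2 * |u x| * (‖fderiv ℝ u x‖ * ‖w‖)) := by gcongr
      _ = 2 * (|χ x| * ‖w‖) * (|u x| * ‖fderiv ℝ u x‖) := by ring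
      _ ≤ 2 * c2 * (|u x| * ‖fderiv ℝ u x‖) := by gcongr

section main

variable (h : XP ξ v V κ C r)

include h

lemma XP.fin : IsFiniteMeasure (tgt V) := by
  have := h.bp.intb (f := fun _ => (1 : ℝ)) continuous_const (A := 1) (fun _ => by simp)
  exact (integrable_const_iff.mp this).resolve_left one_ne_zero

lemma XP.int_sq {u : EuclideanSpace ℝ (Fin n) → ℝ} {U L : ℝ} (hu : TF u U L) :
    Integrable (fun x => u x ^ 2) (tgt V) :=
  h.bp.intb (hu.cd.continuous.pow 2) (A := U ^ 2) fun x => by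
    rw [abs_pow]; exact pow_le_pow_left₀ (abs_nonneg _) (hu.bd x) 2

lemma XP.int_ug {u : EuclideanSpace ℝ (Fin n) → ℝ} {U L : ℝ} (hu : TF u U L) :
    Integrable (fun x => |u x| * ‖fderiv ℝ u x‖) (tgt V) := by
  have hU0 : 0 ≤ U := (abs_nonneg _).trans (hu.bd 0)
  refine h.bp.intb (hu.cd.continuous.abs.mul (hu.cd.continuous_fderiv (by simp)).norm)
    (A := U * L) fun x => ?_
  rw [abs_mul, abs_abs, abs_norm]
  exact mul_le_mul (hu.bd x) (hu.gd x) (norm_nonneg _) hU0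

/-- the main estimate near a far particle -/
theorem XP.far {u : EuclideanSpace ℝ (Fin n) → ℝ} {U L : ℝ} (hu : TF u U L)
    {R : ℝ} (hR : R = 2 * 10 ^ 6 * r) (a : ι) :
    ∫ x, chi ξ r R a x * u x ^ 2 ∂(tgt V) ≤ 1 / 30 * ∫ x, u x ^ 2 ∂(tgt V) +
      37100 * r * ∫ x, |u x| * ‖fderiv ℝ u x‖ ∂(tgt V) := by
  have hr := h.rpos
  have hk := h.kpos
  have hbig := h.big
  have hR0 : 0 < R := by rw [hR]; positivity
  have hfin := h.fin
  set k : ℝ := (Fintype.card ι : ℝ) with hkd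
  obtain ⟨l, hχ⟩ := chi_TW h.blk hr hR0 a
  set φ : EuclideanSpace ℝ (Fin n) → ℝ := fun x => chi ξ r R a x * u x ^ 2 with hφ
  have hφT : TW φ (U ^ 2) (l * U ^ 2 + 2 * U * L) := TW_wsq hχ hu
  have hφ0 : ∀ x, 0 ≤ φ x := fun x => mul_nonneg (chi_nonneg _ _ _) (sq_nonneg _)
  have hucd := hu.cd
  have iA : Integrable φ (tgt V) := h.bp.intb hφT.cd.continuous hφT.bd
  have iB := h.int_sq hu
  have iI := h.int_ug hu
  set A := ∫ x, φ x ∂(tgt V) with hA
  set B := ∫ x, u x ^ 2 ∂(tgt V) with hB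
  set I := ∫ x, |u x| * ‖fderiv ℝ u x‖ ∂(tgt V) with hI
  have hA0 : 0 ≤ A := integral_nonneg hφ0
  have hB0 : 0 ≤ B := integral_nonneg fun x => sq_nonneg _
  have hI0 : 0 ≤ I := integral_nonneg fun x => by positivity
  -- bounds of N1 on the support
  have hsupp : ∀ x, chi ξ r R a x ≠ 0 → R ≤ |ξ a x| ∧ NN ξ r x ≤ 16 * (k * r) ∧
      N1 ξ x ≤ 16 * (k * r) := by
    intro x hx
    have h1 : R ≤ |ξ a x| ∧ NN ξ r x ≤ 16 * (k * r) := by
      by_contra hcon
      exact hx (chi_zero hr hR0 a x hcon)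
    exact ⟨h1.1, h1.2, NN_ge x |>.trans h1.2⟩
  have hN1 : ∀ x, NN ξ r x ≤ 16 * (k * r) → N1 ξ x ≤ 16 * (k * r) := fun x hx =>
    (NN_ge x).trans hx
  have hid : ∀ t : ℝ, |(fun t : ℝ => t) t| ≤ |t| := fun t => le_rfl
  have hth3 : ∀ t : ℝ, |th3 (2000 * r) t| ≤ |t| := fun t => th3_abs_le _ _
  have hth1 : ∀ t : ℝ, |th1 (R / 4) t| ≤ 1 := fun t => th1_abs_le _ _
  -- the weight against the three fields
  have dF : ∀ {θ : ℝ → ℝ}, (∀ t, |θ t| ≤ |t|) → ∀ x,
      |fderiv ℝ φ x (FF ξ v θ x)| ≤ 29 * k * u x ^ 2 +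
        2 * (64 * k ^ 2 * r) * (|u x| * ‖fderiv ℝ u x‖) := by
    intro θ hθ x
    apply wsq_le (chi_contDiff hr R a) hucd
    · have := chi_fderiv_abs (ξ := ξ) hr hR0 a x (FF ξ v θ x) (c1 := 41 / 10 * k) (c2 := 64 * k)
        (fun hx hN => by
          have h1 := h.blk.xi_FF_abs hθ a x
          have h2 := sum_abs_diff_le (ξ := ξ) x a
          have h3 := hN1 x hN
          rw [← hkd] at h2
          have h4 : k * |ξ a x| ≤ k * (2 * R) := mul_le_mul_of_nonneg_left hx hk.le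
          have h5 : 16 * (k * r) ≤ k * R / 100 := by
            rw [hR]; nlinarith [mul_pos hk hr]
          nlinarith) (by positivity)
        (fun hN => by
          have h1 := NN_fderiv_abs (ξ := ξ) hr x (FF ξ v θ x)
          have h2 := h.blk.N1_FF hθ x
          have h3 := hN1 x hN
          rw [← hkd] at h2
          have h4 : 4 * k * N1 ξ x ≤ 4 * k * (16 * (k * r)) :=
            mul_le_mul_of_nonneg_left h3 (by positivity)
          nlinarith) (by positivity)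
      linarith
    · by_cases hx : chi ξ r R a x = 0
      · rw [hx]; simp; positivity
      · have h1 := h.blk.norm_FF hθ x
        rw [← hkd] at h1
        have h2 := (hsupp x hx).2.2
        have h3 : 4 * k * N1 ξ x ≤ 4 * k * (16 * (k * r)) :=
          mul_le_mul_of_nonneg_left h2 (by positivity)
        rw [abs_of_nonneg (chi_nonneg _ _ _)]
        calc chi ξ r R a x * ‖FF ξ v θ x‖ ≤ 1 * (64 * k ^ 2 * r) :=
              mul_le_mul (chi_le_one _ _ _) (by nlinarith) (norm_nonneg _) zero_le_one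
          _ = _ := one_mul _
  have dY : ∀ x, |fderiv ℝ φ x (YY ξ v (th1 (R / 4)) a x)| ≤
      (6 * k / R + 1 / (2 * r)) * u x ^ 2 + 2 * (2 * k) * (|u x| * ‖fderiv ℝ u x‖) := by
    intro x
    apply wsq_le (chi_contDiff hr R a) hucd
    · have := chi_fderiv_abs (ξ := ξ) hr hR0 a x (YY ξ v (th1 (R / 4)) a x)
        (c1 := 2 * k / R) (c2 := 2 / r)
        (fun _ _ => by
          have h1 := h.blk.xi_YY_abs hth1 a a x
          rw [if_pos rfl, ← hkd] at h1
          have e : 2 * k / R * R = 2 * k := by field_simp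
          rw [e]
          linarith) (by positivity)
        (fun _ => by
          have h1 := NN_fderiv_abs (ξ := ξ) hr x (YY ξ v (th1 (R / 4)) a x)
          have h2 := h.blk.N1_YY hth1 a x
          rw [← hkd] at h2
          have e : 2 / r * (k * r) = 2 * k := by field_simp
          rw [e]
          linarith) (by positivity)
      refine this.trans (le_of_eq ?_)
      field_simp
      ring
    · have h1 := h.blk.norm_YY hth1 a x
      rw [← hkd] at h1
      rw [abs_of_nonneg (chi_nonneg _ _ _)]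
      calc chi ξ r R a x * ‖YY ξ v (th1 (R / 4)) a x‖ ≤ 1 * (2 * k) :=
            mul_le_mul (chi_le_one _ _ _) h1 (norm_nonneg _) zero_le_one
        _ = _ := one_mul _
  -- the three identities
  obtain ⟨a1, a2, a3, a4⟩ := h.bp.FF h.blk PF_id hφT
  obtain ⟨b1, b2, b3, b4⟩ := h.bp.FF h.blk (PF_th3 (by positivity : 0 < 2000 * r)) hφT
  obtain ⟨c1, c2, c3, c4⟩ := h.bp.YY h.blk (PF_th1 (by positivity : 0 < R / 4)) hφT a
  -- divergences
  have a5 : ∫ x, (∑ i : ι, ∑ j : ι, cc i j * (1 : ℝ)) * φ x ∂(tgt V) = 2 * k * (k - 1) * A := by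
    rw [integral_const_mul, div_id]
  have b5 : ∫ x, (∑ i, ∑ j, cc i j * th3' (2000 * r) (ξ i x - ξ j x)) * φ x ∂(tgt V) ≤
      64 / 1000 * k ^ 2 * A := by
    rw [hA, ← integral_const_mul]
    apply integral_mono b2 (iA.const_mul _)
    intro x
    show (∑ i, ∑ j, cc i j * th3' (2000 * r) (ξ i x - ξ j x)) * φ x ≤ 64 / 1000 * k ^ 2 * φ x
    by_cases hx : chi ξ r R a x = 0
    · have : φ x = 0 := by rw [hφ]; simp [hx]
      rw [this]; simp
    · apply mul_le_mul_of_nonneg_right _ (hφ0 x)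
      refine (div_th3 (by positivity) x).trans ?_
      rw [← hkd]
      calc 8 * k / (2000 * r) * N1 ξ x ≤ 8 * k / (2000 * r) * (16 * (k * r)) :=
            mul_le_mul_of_nonneg_left (hsupp x hx).2.2 (by positivity)
        _ = 64 / 1000 * k ^ 2 := by field_simp; norm_num
  have c5 : ∫ x, (∑ j, cc a j * th1' (R / 4) (ξ a x - ξ j x)) * φ x ∂(tgt V) ≤
      8 * k / R * A := by
    rw [hA, ← integral_const_mul]
    apply integral_mono c2 (iA.const_mul _)
    intro x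
    show (∑ j, cc a j * th1' (R / 4) (ξ a x - ξ j x)) * φ x ≤ 8 * k / R * φ x
    apply mul_le_mul_of_nonneg_right _ (hφ0 x)
    refine (div_th1 (by positivity) a x).trans (le_of_eq ?_)
    rw [← hkd]
    field_simp
    norm_num
  -- boundary terms
  have bdry : ∀ {F : EuclideanSpace ℝ (Fin n) → ℝ} {α β : ℝ}, Integrable F (tgt V) →
      (∀ x, |F x| ≤ α * u x ^ 2 + β * (|u x| * ‖fderiv ℝ u x‖)) →
      |∫ x, F x ∂(tgt V)| ≤ α * B + β * I := by
    intro F α β hF hb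
    refine abs_integral_le_integral_abs.trans ?_
    rw [hB, hI, ← integral_const_mul, ← integral_const_mul,
      ← integral_add (iB.const_mul _) (iI.const_mul _)]
    exact integral_mono hF.abs ((iB.const_mul _).add (iI.const_mul _)) hb
  have a6 := bdry a3 (dF hid)
  have b6 := bdry b3 (dF hth3)
  have c6 := bdry c3 dY
  -- the covering inequality
  have key : ∫ x, fderiv ℝ V x (FF ξ v (fun t => t) x) * φ x ∂(tgt V) ≤
      3 * (∫ x, fderiv ℝ V x (FF ξ v (th3 (2000 * r)) x) * φ x ∂(tgt V)) +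
      8 * (2000 * r) * k * ∫ x, fderiv ℝ V x (YY ξ v (th1 (R / 4)) a x) * φ x ∂(tgt V) := by
    rw [← integral_const_mul, ← integral_const_mul,
      ← integral_add (b1.const_mul _) (c1.const_mul _)]
    apply integral_mono a1 ((b1.const_mul _).add (c1.const_mul _))
    intro x
    show fderiv ℝ V x (FF ξ v (fun t => t) x) * φ x ≤
      3 * (fderiv ℝ V x (FF ξ v (th3 (2000 * r)) x) * φ x) +
      8 * (2000 * r) * k * (fderiv ℝ V x (YY ξ v (th1 (R / 4)) a x) * φ x)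
    by_cases hx : chi ξ r R a x = 0
    · have : φ x = 0 := by rw [hφ]; simp [hx]
      rw [this]; simp
    · obtain ⟨s1, s2, s3⟩ := hsupp x hx
      have := mul_le_mul_of_nonneg_right (h.cover hR a x s1 s3) (hφ0 x)
      rw [← hkd] at this
      linarith
  have a7 := (_root_.abs_le.mp a6).1
  have b7 := (_root_.abs_le.mp b6).2
  have c7 := (_root_.abs_le.mp c6).2
  -- conclusion
  have T1 : 2 * k * (k - 1) * A ≤ 3 * (64 / 1000 * k ^ 2 * A + (29 * k * B + 2 * (64 * k ^ 2 * r) * I)) +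
      8 * (2000 * r) * k * (8 * k / R * A + ((6 * k / R + 1 / (2 * r)) * B + 2 * (2 * k) * I)) +
      (29 * k * B + 2 * (64 * k ^ 2 * r) * I) := by
    have e1 : 2 * k * (k - 1) * A = ∫ x, fderiv ℝ V x (FF ξ v (fun t => t) x) * φ x ∂(tgt V) -
        ∫ x, fderiv ℝ φ x (FF ξ v (fun t => t) x) ∂(tgt V) := by
      rw [a4, a5]; ring
    have e2 : 8 * (2000 * r) * k * ∫ x, fderiv ℝ V x (YY ξ v (th1 (R / 4)) a x) * φ x ∂(tgt V) ≤
        8 * (2000 * r) * k * (8 * k / R * A + ((6 * k / R + 1 / (2 * r)) * B + 2 * (2 * k) * I)) := by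
      apply mul_le_mul_of_nonneg_left _ (by positivity)
      rw [c4]
      linarith
    have e3 : ∫ x, fderiv ℝ V x (FF ξ v (th3 (2000 * r)) x) * φ x ∂(tgt V) ≤
        64 / 1000 * k ^ 2 * A + (29 * k * B + 2 * (64 * k ^ 2 * r) * I) := by
      rw [b4]
      linarith
    rw [e1]
    linarith
  have E1 : 8 * (2000 * r) * k * (8 * k / R * A) = 64 / 1000 * k ^ 2 * A := by
    rw [hR]; field_simp; ring
  have E2 : 8 * (2000 * r) * k * ((6 * k / R + 1 / (2 * r)) * B) =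
      48 / 1000 * k ^ 2 * B + 8000 * k * B := by
    rw [hR]; field_simp; ring
  have T2 : (2 * k ^ 2 - 2 * k - 256 / 1000 * k ^ 2) * A ≤
      (48 / 1000 * k ^ 2 + 8116 * k) * B + 64512 * k ^ 2 * (r * I) := by
    have : 8 * (2000 * r) * k * (8 * k / R * A + ((6 * k / R + 1 / (2 * r)) * B + 2 * (2 * k) * I)) =
      8 * (2000 * r) * k * (8 * k / R * A) + 8 * (2000 * r) * k * ((6 * k / R + 1 / (2 * r)) * B) +
      64000 * k ^ 2 * (r * I) := by ring
    rw [this, E1, E2] at T1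
    nlinarith
  have hk2 : k ≤ k ^ 2 / 10 ^ 6 := by
    rw [le_div_iff₀ (by positivity)]
    nlinarith
  have T3 : 174 / 100 * k ^ 2 * A ≤ (57 / 1000 * k ^ 2) * B + 64512 * k ^ 2 * (r * I) := by
    have h1 : 174 / 100 * k ^ 2 ≤ 2 * k ^ 2 - 2 * k - 256 / 1000 * k ^ 2 := by linarith
    have h2 : 48 / 1000 * k ^ 2 + 8116 * k ≤ 57 / 1000 * k ^ 2 := by linarith
    have h3 := mul_le_mul_of_nonneg_right h1 hA0
    have h4 := mul_le_mul_of_nonneg_right h2 hB0
    linarith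
  have hk20 : 0 < k ^ 2 := by positivity
  have T4 : k ^ 2 * (174 / 100 * A) ≤ k ^ 2 * (57 / 1000 * B + 64512 * (r * I)) := by linarith
  have T5 := le_of_mul_le_mul_left T4 hk20
  have hrI : 0 ≤ r * I := by positivity
  linarith

end main

end Pool.Agent.Lib.MP_6d896a_gt.EX
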