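import Mathlib
import Pool.Agent.Lib.MP_6d896a_gt.Ex5

/-!
Exchangeable blocks: the radial estimate, the thin slab and the conclusion.
-/

namespace Pool.Agent.Lib.MP_6d896a_gt.EX

open MeasureTheory Filter Topology Metric
open scoped ENNReal NNReal

variable {n : ℕ} {V : EuclideanSpace ℝ (Fin n) → ℝ} {κ C : ℝ}
  {ι : Type} [Fintype ι] [DecidableEq ι] {ξ : ι → EuclideanSpace ℝ (Fin n) →L[ℝ] ℝ}
  {v : ι → ι → EuclideanSpace ℝ (Fin n)} {r : ℝ}

/-- radial weight -/
noncomputable def rwt (ξ : ι → EuclideanSpace ℝ (Fin n) →L[ℝ] ℝ) (r : ℝ)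
    (x : EuclideanSpace ℝ (Fin n)) : ℝ := Hc (Fintype.card ι * r) (NN ξ r x)

/-- radial cut-off -/
noncomputable def psi (ξ : ι → EuclideanSpace ℝ (Fin n) →L[ℝ] ℝ) (r : ℝ)
    (x : EuclideanSpace ℝ (Fin n)) : ℝ :=
  st ((NN ξ r x - 4 * (Fintype.card ι * r)) / (4 * (Fintype.card ι * r)))

lemma Hc'_continuousOn (ν : ℝ) : ContinuousOn (Hc' ν) (Set.Ioi 0) := by
  unfold Hc'
  have h1 : Continuous fun s : ℝ => st' ((s - 4 * ν) / (4 * ν)) := st'_cont.comp (by fun_prop)
  have h2 : Continuous fun s : ℝ => st ((s - 4 * ν) / (4 * ν)) := st_cont.comp (by fun_prop)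
  have h3 : ContinuousOn (fun s : ℝ => ν / s) (Set.Ioi 0) :=
    continuousOn_const.div continuousOn_id fun s hs => (ne_of_gt hs)
  have h4 : ContinuousOn (fun s : ℝ => ν / s ^ 2) (Set.Ioi 0) :=
    continuousOn_const.div (continuousOn_id.pow 2) fun s hs => by
      have : (0 : ℝ) < s := hs
      positivity
  exact (((h1.continuousOn).mul continuousOn_const).mul h3).sub (h2.continuousOn.mul h4)

section main

variable (h : XP ξ v V κ C r)

include h

lemma XP.NN_pos (x : EuclideanSpace ℝ (Fin n)) : 0 < NN ξ r x := by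
  have h1 := NN_low (ξ := ξ) h.rpos x
  have h2 := h.kpos
  have h3 := h.rpos
  have : 0 < (Fintype.card ι : ℝ) * r := by positivity
  linarith

lemma XP.rwt_hasFDerivAt (x : EuclideanSpace ℝ (Fin n)) :
    HasFDerivAt (rwt ξ r) (Hc' (Fintype.card ι * r) (NN ξ r x) • fderiv ℝ (NN ξ r) x) x :=
  (Hc_hasDerivAt (h.NN_pos x)).comp_hasFDerivAt x
    ((NN_contDiff h.rpos).differentiable (by simp) x).hasFDerivAt

lemma XP.rwt_fderiv (x w : EuclideanSpace ℝ (Fin n)) :
    fderiv ℝ (rwt ξ r) x w = Hc' (Fintype.card ι * r) (NN ξ r x) * fderiv ℝ (NN ξ r) x w := by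
  rw [(h.rwt_hasFDerivAt x).fderiv]
  simp

lemma XP.rwt_TW : ∃ l, TW (rwt ξ r) 1 l := by
  have hr := h.rpos
  have hk := h.kpos
  have hν : 0 < (Fintype.card ι : ℝ) * r := by positivity
  refine ⟨2 / (Fintype.card ι * r) * Fintype.card ι, ?_, fun x => ?_, fun x => ?_⟩
  · rw [contDiff_one_iff_fderiv]
    refine ⟨fun x => (h.rwt_hasFDerivAt x).differentiableAt, ?_⟩
    have e : fderiv ℝ (rwt ξ r) =
        fun x => Hc' (Fintype.card ι * r) (NN ξ r x) • fderiv ℝ (NN ξ r) x :=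
      funext fun x => (h.rwt_hasFDerivAt x).fderiv
    rw [e]
    have hNc : Continuous (NN ξ r) := (NN_contDiff hr).continuous
    have h1 : Continuous fun x => Hc' (Fintype.card ι * r) (NN ξ r x) := by
      apply (Hc'_continuousOn _).comp_continuous hNc
      intro x
      exact h.NN_pos x
    exact h1.smul ((NN_contDiff hr).continuous_fderiv (by simp))
  · unfold rwt
    rw [abs_of_nonneg (Hc_nonneg hν (h.NN_pos x))]
    have h1 := Hc_le hν (h.NN_pos x)
    have h2 := st_le_one ((NN ξ r x - 4 * (Fintype.card ι * r)) / (4 * (Fintype.card ι * r)))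
    linarith
  · apply ContinuousLinearMap.opNorm_le_bound _ (by positivity)
    intro w
    rw [h.rwt_fderiv, Real.norm_eq_abs, abs_mul]
    have h1 := NN_fderiv_abs (ξ := ξ) hr x w
    have h2 := h.blk.N1_le w
    have h3 := Hc'_abs hν (NN_low (ξ := ξ) hr x)
    calc _ ≤ 2 / (Fintype.card ι * r) * (Fintype.card ι * ‖w‖) :=
          mul_le_mul h3 (h1.trans h2) (abs_nonneg _) (by positivity)
      _ = _ := by ring

/-- the radial estimate -/
theorem XP.radial {u : EuclideanSpace ℝ (Fin n) → ℝ} {U L : ℝ} (hu : TF u U L) :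
    Integrable (fun x => psi ξ r x * u x ^ 2) (tgt V) ∧
    ∫ x, psi ξ r x * u x ^ 2 ∂(tgt V) ≤ 1 / 1000 * ∫ x, u x ^ 2 ∂(tgt V) +
      2 * r * ∫ x, |u x| * ‖fderiv ℝ u x‖ ∂(tgt V) := by
  have hr := h.rpos
  have hk := h.kpos
  have hbig := h.big
  have hfin := h.fin
  set k : ℝ := (Fintype.card ι : ℝ) with hkd
  have hν : 0 < k * r := by positivity
  obtain ⟨l, hχ⟩ := h.rwt_TW
  set φ : EuclideanSpace ℝ (Fin n) → ℝ := fun x => rwt ξ r x * u x ^ 2 with hφ
  have hφT : TW φ (U ^ 2) (l * U ^ 2 + 2 * U * L) := TW_wsq hχ hu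
  have hφ0 : ∀ x, 0 ≤ φ x := fun x =>
    mul_nonneg (Hc_nonneg hν (h.NN_pos x)) (sq_nonneg _)
  have hucd := hu.cd
  have iB := h.int_sq hu
  have iI := h.int_ug hu
  have hNc : Continuous (NN ξ r) := (NN_contDiff hr).continuous
  have hpc : Continuous (psi ξ r) := by
    unfold psi
    exact st_cont.comp (by fun_prop)
  have iP : Integrable (fun x => psi ξ r x * u x ^ 2) (tgt V) := by
    refine h.bp.intb (hpc.mul (hu.cd.continuous.pow 2)) (A := 1 * U ^ 2) fun x => ?_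
    have hp0 : 0 ≤ psi ξ r x := st_nonneg _
    rw [abs_mul, abs_pow, abs_of_nonneg hp0]
    exact mul_le_mul (st_le_one _) (pow_le_pow_left₀ (abs_nonneg _) (hu.bd x) 2) (by positivity)
      zero_le_one
  refine ⟨iP, ?_⟩
  set P := ∫ x, psi ξ r x * u x ^ 2 ∂(tgt V) with hP
  set B := ∫ x, u x ^ 2 ∂(tgt V) with hB
  set I := ∫ x, |u x| * ‖fderiv ℝ u x‖ ∂(tgt V) with hI
  have hB0 : 0 ≤ B := integral_nonneg fun x => sq_nonneg _
  have hI0 : 0 ≤ I := integral_nonneg fun x => by positivity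
  have hP0 : 0 ≤ P := integral_nonneg fun x => mul_nonneg (st_nonneg _) (sq_nonneg _)
  obtain ⟨a1, a2, a3, a4⟩ := h.bp.FF h.blk PF_id hφT
  have iφ : Integrable φ (tgt V) := h.bp.intb hφT.cd.continuous hφT.bd
  -- lower bound of the flux
  have L1 : 9 / 2 * k ^ 2 * P ≤ ∫ x, fderiv ℝ V x (FF ξ v (fun t => t) x) * φ x ∂(tgt V) := by
    rw [hP, ← integral_const_mul]
    apply integral_mono (iP.const_mul _) a1
    intro x
    show 9 / 2 * k ^ 2 * (psi ξ r x * u x ^ 2) ≤ fderiv ℝ V x (FF ξ v (fun t => t) x) * φ x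
    have hN0 := h.NN_pos x
    by_cases hN : NN ξ r x ≤ 4 * (k * r)
    · have e1 : psi ξ r x = 0 := by
        unfold psi
        apply st_lo
        rw [← hkd]
        apply div_nonpos_of_nonpos_of_nonneg <;> linarith
      have e2 : φ x = 0 := by
        rw [hφ]
        simp only []
        unfold rwt
        rw [← hkd, Hc_lo hν hN, zero_mul]
      rw [e1, e2]; simp
    · push Not at hN
      have h1 : NN ξ r x ≤ N1 ξ x + k * r := NN_le hr x
      have h2 : 3 / 4 * NN ξ r x ≤ N1 ξ x := by linarith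
      have h3 := h.rad x (by rw [← hkd]; linarith)
      rw [← hkd] at h3
      have h4 : 9 / 2 * k / r * NN ξ r x ≤ fderiv ℝ V x (FF ξ v (fun t => t) x) := by
        refine le_trans ?_ h3
        have h5 : 0 ≤ 6 * k / r := by positivity
        have h6 := mul_le_mul_of_nonneg_left h2 h5
        calc _ = 6 * k / r * (3 / 4 * NN ξ r x) := by ring
          _ ≤ _ := h6
      have h5 := mul_le_mul_of_nonneg_right h4 (hφ0 x)
      refine le_trans (le_of_eq ?_) h5
      rw [hφ]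
      simp only []
      unfold rwt Hc psi
      rw [← hkd]
      field_simp
  -- divergence
  have L2 : ∫ x, (∑ i : ι, ∑ j : ι, cc i j * (1 : ℝ)) * φ x ∂(tgt V) ≤ 1 / 2 * k ^ 2 * P := by
    rw [integral_const_mul, div_id, ← hkd]
    have h1 : ∫ x, φ x ∂(tgt V) ≤ 1 / 4 * P := by
      rw [hP, ← integral_const_mul]
      apply integral_mono iφ (iP.const_mul _)
      intro x
      show φ x ≤ 1 / 4 * (psi ξ r x * u x ^ 2)
      have h2 := mul_le_mul_of_nonneg_right (Hc_le hν (h.NN_pos x)) (sq_nonneg (u x))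
      refine h2.trans (le_of_eq ?_)
      unfold psi
      rw [← hkd]
      ring
    have h3 : 0 ≤ ∫ x, φ x ∂(tgt V) := integral_nonneg hφ0
    calc 2 * k * (k - 1) * ∫ x, φ x ∂(tgt V) ≤ 2 * k * k * ∫ x, φ x ∂(tgt V) := by
          apply mul_le_mul_of_nonneg_right _ h3
          apply mul_le_mul_of_nonneg_left _ (by positivity)
          linarith
      _ ≤ 2 * k * k * (1 / 4 * P) := mul_le_mul_of_nonneg_left h1 (by positivity)
      _ = _ := by ring
  -- boundary term
  have L3 : ∫ x, fderiv ℝ φ x (FF ξ v (fun t => t) x) ∂(tgt V) ≤ k * B + 8 * k ^ 2 * r * I := by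
    rw [hB, hI, ← integral_const_mul, ← integral_const_mul,
      ← integral_add (iB.const_mul _) (iI.const_mul _)]
    apply integral_mono a3 ((iB.const_mul _).add (iI.const_mul _))
    intro x
    show fderiv ℝ φ x (FF ξ v (fun t => t) x) ≤ k * u x ^ 2 +
      8 * k ^ 2 * r * (|u x| * ‖fderiv ℝ u x‖)
    have hN0 := h.NN_pos x
    rw [hφ, fderiv_wsq hχ.cd hucd]
    have hdN : fderiv ℝ (NN ξ r) x (FF ξ v (fun t => t) x) ≤ 2 * k * NN ξ r x := by
      rw [NN_fderiv hr]
      calc ∑ i, th1 r (ξ i x) * ξ i (FF ξ v (fun t => t) x)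
          = 2 * k * ∑ i, th1 r (ξ i x) * ξ i x := by
            rw [Finset.mul_sum]
            apply Finset.sum_congr rfl
            intro i _
            rw [h.blk.xi_FF_id]
            ring
        _ ≤ 2 * k * N1 ξ x := by
            apply mul_le_mul_of_nonneg_left _ (by positivity)
            apply Finset.sum_le_sum
            intro i _
            rw [th1_sign]
            exact mul_le_of_le_one_left (abs_nonneg _) (th1_abs_le _ _)
        _ ≤ _ := mul_le_mul_of_nonneg_left (NN_ge x) (by positivity)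
    have hdN0 : 0 ≤ fderiv ℝ (NN ξ r) x (FF ξ v (fun t => t) x) := by
      rw [NN_fderiv hr]
      apply Finset.sum_nonneg
      intro i _
      rw [h.blk.xi_FF_id]
      have h1 : th1 r (ξ i x) * (2 * Fintype.card ι * ξ i x) =
        2 * k * (th1 r (ξ i x) * ξ i x) := by rw [← hkd]; ring
      rw [h1, th1_sign]
      positivity
    have e1 : fderiv ℝ (rwt ξ r) x (FF ξ v (fun t => t) x) ≤ k := by
      rw [h.rwt_fderiv, ← hkd]
      rcases le_total 0 (Hc' (k * r) (NN ξ r x)) with h1 | h1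
      · have h2 := mul_le_mul_of_nonneg_left hdN h1
        have h3 := Hc'_le hν hN0
        nlinarith
      · have h3 : Hc' (k * r) (NN ξ r x) * fderiv ℝ (NN ξ r) x (FF ξ v (fun t => t) x) ≤ 0 :=
          mul_nonpos_of_nonpos_of_nonneg h1 hdN0
        linarith
    have e2 : rwt ξ r x * (2 * u x * fderiv ℝ u x (FF ξ v (fun t => t) x)) ≤
        8 * k ^ 2 * r * (|u x| * ‖fderiv ℝ u x‖) := by
      have hw0 : 0 ≤ rwt ξ r x := Hc_nonneg hν hN0
      have h1 : |fderiv ℝ u x (FF ξ v (fun t => t) x)| ≤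
          ‖fderiv ℝ u x‖ * (4 * k * NN ξ r x) := by
        have h2 := (fderiv ℝ u x).le_opNorm (FF ξ v (fun t => t) x)
        rw [Real.norm_eq_abs] at h2
        refine h2.trans (mul_le_mul_of_nonneg_left ?_ (norm_nonneg _))
        refine (h.blk.norm_FF (fun t => le_rfl) x).trans ?_
        exact mul_le_mul_of_nonneg_left (NN_ge x) (by positivity)
      have h2 : rwt ξ r x * NN ξ r x ≤ k * r := by
        unfold rwt Hc
        rw [← hkd]
        have e : st ((NN ξ r x - 4 * (k * r)) / (4 * (k * r))) * (k * r / NN ξ r x) * NN ξ r x =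
          st ((NN ξ r x - 4 * (k * r)) / (4 * (k * r))) * (k * r) := by field_simp
        rw [e]
        exact mul_le_of_le_one_left hν.le (st_le_one _)
      have hu0 := abs_nonneg (u x)
      have hd0 := norm_nonneg (fderiv ℝ u x)
      calc rwt ξ r x * (2 * u x * fderiv ℝ u x (FF ξ v (fun t => t) x))
          ≤ rwt ξ r x * (2 * |u x| * |fderiv ℝ u x (FF ξ v (fun t => t) x)|) := by
            apply mul_le_mul_of_nonneg_left _ hw0
            have : u x * fderiv ℝ u x (FF ξ v (fun t => t) x) ≤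
              |u x| * |fderiv ℝ u x (FF ξ v (fun t => t) x)| := by
              rw [← abs_mul]; exact le_abs_self _
            linarith
        _ ≤ rwt ξ r x * (2 * |u x| * (‖fderiv ℝ u x‖ * (4 * k * NN ξ r x))) := by gcongr
        _ = 8 * k * (|u x| * ‖fderiv ℝ u x‖) * (rwt ξ r x * NN ξ r x) := by ring
        _ ≤ 8 * k * (|u x| * ‖fderiv ℝ u x‖) * (k * r) := by gcongr
        _ = _ := by ring
    have e3 := mul_le_mul_of_nonneg_right e1 (sq_nonneg (u x))
    linarith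
  have T1 : k ^ 2 * (4 * P) ≤ k ^ 2 * (1 / 250 * B + 8 * (r * I)) := by
    have hk2 : k ≤ k ^ 2 / 250 := by
      rw [le_div_iff₀ (by norm_num)]
      nlinarith
    have h5 := mul_le_mul_of_nonneg_right hk2 hB0
    rw [a4] at L1
    nlinarith
  have T2 := le_of_mul_le_mul_left T1 (by positivity)
  linarith

/-- the thin slab -/
theorem XP.slab {u : EuclideanSpace ℝ (Fin n) → ℝ} {U L : ℝ} (hu : TF u U L)
    {a b : ι} (hab : a ≠ b) (hodd : ∀ x, |u x| ≤ L * |ξ a x - ξ b x|) {ρ : ℝ} (hρ : 0 < ρ) :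
    Integrable (fun x => u x ^ 2 * (if |ξ a x - ξ b x| < ρ then (1 : ℝ) else 0)) (tgt V) ∧
    ∫ x, u x ^ 2 * (if |ξ a x - ξ b x| < ρ then (1 : ℝ) else 0) ∂(tgt V) ≤
      10 * ρ * ∫ x, |u x| * ‖fderiv ℝ u x‖ ∂(tgt V) := by
  have hfin := h.fin
  have hU0 : 0 ≤ U := (abs_nonneg _).trans (hu.bd 0)
  have hL0 : 0 ≤ L := (norm_nonneg _).trans (hu.gd 0)
  have hdc : Continuous (fun x : EuclideanSpace ℝ (Fin n) => ξ a x - ξ b x) :=
    (ξ a).continuous.sub (ξ b).continuous
  have hms : MeasurableSet {x : EuclideanSpace ℝ (Fin n) | |ξ a x - ξ b x| < ρ} :=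
    (isOpen_lt hdc.abs continuous_const).measurableSet
  have iB := h.int_sq hu
  have iI := h.int_ug hu
  have iS : Integrable (fun x => u x ^ 2 * (if |ξ a x - ξ b x| < ρ then (1 : ℝ) else 0))
      (tgt V) := by
    refine iB.mono ((hu.cd.continuous.measurable.pow_const 2).mul
        (Measurable.ite hms measurable_const measurable_const)).aestronglyMeasurable
      (ae_of_all _ fun x => ?_)
    rw [norm_mul]
    apply mul_le_of_le_one_right (norm_nonneg _)
    split_ifs <;> simp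
  refine ⟨iS, ?_⟩
  set Z := ∫ _x, (1 : ℝ) ∂(tgt V) with hZ
  have hZ0 : 0 ≤ Z := integral_nonneg fun x => zero_le_one
  set I := ∫ x, |u x| * ‖fderiv ℝ u x‖ ∂(tgt V) with hI
  have hone : TW (fun _ : EuclideanSpace ℝ (Fin n) => (1 : ℝ)) 1 0 :=
    ⟨contDiff_const, fun x => by simp, fun x => by simp⟩
  have hu2 := TW_wsq hone hu
  simp only [one_mul, zero_mul, zero_add] at hu2
  have hcc : cc a b = 2 := by unfold cc; rw [if_neg hab]
  have main : ∀ δ : ℝ, 0 < δ → δ ≤ ρ / 5 →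
      ∫ x, u x ^ 2 * (if |ξ a x - ξ b x| < ρ then (1 : ℝ) else 0) ∂(tgt V) ≤
      10 * ρ * I + 10 * ρ * L ^ 2 * Z * δ := by
    intro δ hδ hδρ
    have hta' : ∀ t, |ta' ρ δ t| ≤ 1 / δ + 1 / ρ := by
      intro t
      unfold ta'
      have hq0 : 0 < t ^ 2 + δ ^ 2 := by positivity
      have hq : 0 < Real.sqrt (t ^ 2 + δ ^ 2) := Real.sqrt_pos.mpr hq0
      have hsq : Real.sqrt (t ^ 2 + δ ^ 2) ^ 2 = t ^ 2 + δ ^ 2 := Real.sq_sqrt hq0.le
      have hqδ : δ ≤ Real.sqrt (t ^ 2 + δ ^ 2) := by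
        apply Real.le_sqrt_of_sq_le
        nlinarith [sq_nonneg t]
      generalize Real.sqrt (t ^ 2 + δ ^ 2) = q at *
      have b1 : δ ^ 2 / q ^ 3 * (ρ / (ρ + q)) ≤ 1 / δ := by
        have h1 : ρ / (ρ + q) ≤ 1 := by rw [div_le_one (by positivity)]; linarith
        have h2 : δ ^ 2 / q ^ 3 ≤ 1 / δ := by
          rw [div_le_div_iff₀ (by positivity) hδ]
          have : δ ^ 3 ≤ q ^ 3 := pow_le_pow_left₀ hδ.le hqδ 3
          nlinarith
        calc δ ^ 2 / q ^ 3 * (ρ / (ρ + q)) ≤ (1 / δ) * 1 :=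
              mul_le_mul h2 h1 (by positivity) (by positivity)
          _ = _ := mul_one _
      have b2 : t ^ 2 / q ^ 2 * (ρ / (ρ + q) ^ 2) ≤ 1 / ρ := by
        have h1 : ρ / (ρ + q) ^ 2 ≤ 1 / ρ := by
          rw [div_le_div_iff₀ (by positivity) hρ]
          nlinarith
        have h2 : t ^ 2 / q ^ 2 ≤ 1 := by
          rw [div_le_one (by positivity), hsq]
          nlinarith [sq_nonneg δ]
        calc t ^ 2 / q ^ 2 * (ρ / (ρ + q) ^ 2) ≤ 1 * (1 / ρ) :=
              mul_le_mul h2 h1 (by positivity) (by positivity)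
          _ = _ := one_mul _
      have b3 : 0 ≤ δ ^ 2 / q ^ 3 * (ρ / (ρ + q)) := by positivity
      have b4 : 0 ≤ t ^ 2 / q ^ 2 * (ρ / (ρ + q) ^ 2) := by positivity
      rw [_root_.abs_le]
      constructor <;> linarith [show (0 : ℝ) < 1 / δ by positivity, show (0 : ℝ) < 1 / ρ by positivity]
    have hPF : PF (ta ρ δ) (ta' ρ δ) (1 + 1 / δ + 1 / ρ) := by
      refine ⟨ta_hasDerivAt hρ hδ, ta'_continuous hρ hδ, fun t => ?_, fun t => ?_⟩
      · have h1 := ta_abs_le hρ hδ t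
        have h2 : 0 ≤ 1 / δ + 1 / ρ := by positivity
        have h3 := abs_nonneg t
        nlinarith
      · have h1 := hta' t
        have h2 : 0 ≤ 1 / δ + 1 / ρ := by positivity
        have h3 := abs_nonneg t
        nlinarith
    obtain ⟨k1, k2, k3, k4⟩ := h.bp.pair h.blk hPF hu2 a b
    rw [hcc] at k2 k4
    have f1 : 0 ≤ ∫ x, ta ρ δ (ξ a x - ξ b x) * fderiv ℝ V x (v a b) * u x ^ 2 ∂(tgt V) := by
      apply integral_nonneg
      intro x
      exact mul_nonneg (ta_mul_nonneg hρ hδ (h.pair_nonneg x a b)) (sq_nonneg _)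
    have f2 : ∫ x, ta ρ δ (ξ a x - ξ b x) * fderiv ℝ (fun x => u x ^ 2) x (v a b) ∂(tgt V) ≤
        4 * I := by
      rw [hI, ← integral_const_mul]
      apply integral_mono k3 (iI.const_mul _)
      intro x
      show ta ρ δ (ξ a x - ξ b x) * fderiv ℝ (fun x => u x ^ 2) x (v a b) ≤
        4 * (|u x| * ‖fderiv ℝ u x‖)
      have h2 : HasFDerivAt u (fderiv ℝ u x) x := (hu.cd.differentiable (by simp) x).hasFDerivAt
      have h3 : HasFDerivAt (fun x => u x ^ 2) _ x := h2.pow 2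
      rw [h3.fderiv]
      have h4 : |fderiv ℝ u x (v a b)| ≤ ‖fderiv ℝ u x‖ * 2 := by
        have := (fderiv ℝ u x).le_opNorm (v a b)
        rw [Real.norm_eq_abs] at this
        exact this.trans (mul_le_mul_of_nonneg_left (h.blk.vn a b) (norm_nonneg _))
      have h5 := ta_abs_le hρ hδ (ξ a x - ξ b x)
      refine (le_abs_self _).trans ?_
      rw [abs_mul]
      simp only [_root_.smul_apply, smul_eq_mul, Nat.cast_ofNat, abs_mul, abs_two, nsmul_eq_mul,
        Nat.add_one_sub_one, pow_one]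
      have hu0 := abs_nonneg (u x)
      have hd0 := norm_nonneg (fderiv ℝ u x)
      calc |ta ρ δ (ξ a x - ξ b x)| * (2 * |u x| * |fderiv ℝ u x (v a b)|)
          ≤ 1 * (2 * |u x| * (‖fderiv ℝ u x‖ * 2)) := by gcongr
        _ = _ := by ring
    have f3 : -(2 * ∫ x, ta' ρ δ (ξ a x - ξ b x) * u x ^ 2 ∂(tgt V)) ≤ 4 * I := by
      have e : ∫ x, 2 * ta' ρ δ (ξ a x - ξ b x) * u x ^ 2 ∂(tgt V) =
          2 * ∫ x, ta' ρ δ (ξ a x - ξ b x) * u x ^ 2 ∂(tgt V) := by
        rw [← integral_const_mul]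
        congr 1
        funext x
        ring
      rw [e] at k4
      linarith
    have iT : Integrable (fun x => ta' ρ δ (ξ a x - ξ b x) * u x ^ 2) (tgt V) := by
      have := k2.const_mul (1 / 2)
      refine this.congr (ae_of_all _ fun x => ?_)
      show 1 / 2 * (2 * ta' ρ δ (ξ a x - ξ b x) * u x ^ 2) = _
      ring
    have f4 : ∫ x, u x ^ 2 * (if |ξ a x - ξ b x| < ρ then (1 : ℝ) else 0) ∂(tgt V) ≤
        ∫ x, 5 * ρ * (-(ta' ρ δ (ξ a x - ξ b x) * u x ^ 2) + 2 * L ^ 2 * δ) ∂(tgt V) := by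
      apply integral_mono iS ((iT.neg.add (integrable_const _)).const_mul _)
      intro x
      have h1 : u x ^ 2 ≤ L ^ 2 * (ξ a x - ξ b x) ^ 2 := by
        rw [← sq_abs (u x), ← sq_abs (ξ a x - ξ b x), ← mul_pow]
        exact pow_le_pow_left₀ (abs_nonneg _) (hodd x) 2
      have h2 := ta'_low hρ hδ hδρ h1
      show u x ^ 2 * (if |ξ a x - ξ b x| < ρ then (1 : ℝ) else 0) ≤
        5 * ρ * (-(ta' ρ δ (ξ a x - ξ b x) * u x ^ 2) + 2 * L ^ 2 * δ)
      rw [mul_comm (ta' ρ δ (ξ a x - ξ b x))]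
      exact h2
    have f5 : ∫ x, 5 * ρ * (-(ta' ρ δ (ξ a x - ξ b x) * u x ^ 2) + 2 * L ^ 2 * δ) ∂(tgt V) =
        5 * ρ * (-(∫ x, ta' ρ δ (ξ a x - ξ b x) * u x ^ 2 ∂(tgt V)) + 2 * L ^ 2 * δ * Z) := by
      rw [integral_const_mul]
      congr 1
      rw [integral_add (f := fun x => -(ta' ρ δ (ξ a x - ξ b x) * u x ^ 2)) iT.neg
        (integrable_const _), integral_neg]
      congr 1
      rw [hZ]
      simp
      ring
    rw [f5] at f4
    refine f4.trans ?_
    have f6 : -(∫ x, ta' ρ δ (ξ a x - ξ b x) * u x ^ 2 ∂(tgt V)) ≤ 2 * I := by linarith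
    have f7 := mul_le_mul_of_nonneg_left f6 (by positivity : 0 ≤ 5 * ρ)
    linarith
  -- limit
  have hlim : Tendsto (fun δ : ℝ => 10 * ρ * I + 10 * ρ * L ^ 2 * Z * δ) (𝓝[>] 0)
      (𝓝 (10 * ρ * I + 10 * ρ * L ^ 2 * Z * 0)) := by
    apply Tendsto.mono_left _ nhdsWithin_le_nhds
    exact (tendsto_id.const_mul _).const_add _
  rw [mul_zero, add_zero] at hlim
  apply ge_of_tendsto hlim
  have h5 : Set.Ioc (0 : ℝ) (ρ / 5) ∈ 𝓝[>] (0 : ℝ) := Ioc_mem_nhdsGT (by positivity)
  filter_upwards [h5] with δ hδ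
  exact main δ hδ.1 hδ.2

/-- the Poincare inequality for functions odd under a transposition of the block -/
theorem XP.odd {u : EuclideanSpace ℝ (Fin n) → ℝ} {U L : ℝ} (hu : TF u U L)
    {a b : ι} (hab : a ≠ b) (hodd : ∀ x, |u x| ≤ L * |ξ a x - ξ b x|) :
    ∫ x, u x ^ 2 ∂(tgt V) ≤ 10 ^ 16 * r ^ 2 * ∫ x, ‖fderiv ℝ u x‖ ^ 2 ∂(tgt V) := by
  have hr := h.rpos
  have hk := h.kpos
  have hfin := h.fin
  have hU0 : 0 ≤ U := (abs_nonneg _).trans (hu.bd 0)
  have hL0 : 0 ≤ L := (norm_nonneg _).trans (hu.gd 0)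
  set R : ℝ := 2 * 10 ^ 6 * r with hR
  have hR0 : 0 < R := by positivity
  have iB := h.int_sq hu
  have iI := h.int_ug hu
  have iE : Integrable (fun x => ‖fderiv ℝ u x‖ ^ 2) (tgt V) := by
    refine h.bp.intb ((hu.cd.continuous_fderiv (by simp)).norm.pow 2) (A := L ^ 2) fun x => ?_
    rw [abs_pow, abs_norm]
    exact pow_le_pow_left₀ (norm_nonneg _) (hu.gd x) 2
  obtain ⟨iS, hS⟩ := h.slab hu hab hodd (ρ := 4 * R) (by positivity)
  obtain ⟨iP, hP⟩ := h.radial hu
  have hA := h.far hu hR a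
  have hA' := h.far hu hR b
  have iχ : ∀ c, Integrable (fun x => chi ξ r R c x * u x ^ 2) (tgt V) := by
    intro c
    obtain ⟨l, hχ⟩ := chi_TW h.blk hr hR0 c
    have := TW_wsq hχ hu
    exact h.bp.intb this.cd.continuous this.bd
  set B := ∫ x, u x ^ 2 ∂(tgt V) with hB
  set I := ∫ x, |u x| * ‖fderiv ℝ u x‖ ∂(tgt V) with hI
  set E := ∫ x, ‖fderiv ℝ u x‖ ^ 2 ∂(tgt V) with hE
  have hB0 : 0 ≤ B := integral_nonneg fun x => sq_nonneg _
  have hI0 : 0 ≤ I := integral_nonneg fun x => by positivity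
  have hpt : ∀ x, u x ^ 2 ≤ u x ^ 2 * (if |ξ a x - ξ b x| < 4 * R then (1 : ℝ) else 0) +
      (chi ξ r R a x * u x ^ 2 + chi ξ r R b x * u x ^ 2) + psi ξ r x * u x ^ 2 := by
    intro x
    have hu0 := sq_nonneg (u x)
    have c1 := mul_nonneg (chi_nonneg (ξ := ξ) (r := r) R a x) hu0
    have c2 := mul_nonneg (chi_nonneg (ξ := ξ) (r := r) R b x) hu0
    have c3 : 0 ≤ psi ξ r x * u x ^ 2 := mul_nonneg (st_nonneg _) hu0
    by_cases h1 : |ξ a x - ξ b x| < 4 * R
    · rw [if_pos h1]; linarith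
    · rw [if_neg h1]
      push Not at h1
      by_cases h2 : NN ξ r x ≤ 8 * (Fintype.card ι * r)
      · have hz : Zc (Fintype.card ι * r) (NN ξ r x) = 1 := Zc_lo (by positivity) h2
        have h3 : 4 * R ≤ |ξ a x| + |ξ b x| := h1.trans (abs_sub _ _)
        by_cases h4 : 2 * R ≤ |ξ a x|
        · have : chi ξ r R a x = 1 := by unfold chi; rw [Ac_hi hR0 h4, hz, one_mul]
          rw [this]; linarith
        · push Not at h4
          have : chi ξ r R b x = 1 := by
            unfold chi; rw [Ac_hi hR0 (by linarith : 2 * R ≤ |ξ b x|), hz, one_mul]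
          rw [this]; linarith
      · push Not at h2
        have hp : psi ξ r x = 1 := by
          unfold psi
          apply st_hi
          rw [one_le_div (by positivity)]
          linarith
        rw [hp]; linarith
  have hsum : B ≤ (∫ x, u x ^ 2 * (if |ξ a x - ξ b x| < 4 * R then (1 : ℝ) else 0) ∂(tgt V)) +
      ((∫ x, chi ξ r R a x * u x ^ 2 ∂(tgt V)) + ∫ x, chi ξ r R b x * u x ^ 2 ∂(tgt V)) +
      ∫ x, psi ξ r x * u x ^ 2 ∂(tgt V) := by
    have i2 : Integrable (fun x => chi ξ r R a x * u x ^ 2 + chi ξ r R b x * u x ^ 2) (tgt V) :=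
      (iχ a).add (iχ b)
    have i3 : Integrable (fun x => u x ^ 2 * (if |ξ a x - ξ b x| < 4 * R then (1 : ℝ) else 0) +
      (chi ξ r R a x * u x ^ 2 + chi ξ r R b x * u x ^ 2)) (tgt V) := iS.add i2
    rw [← integral_add (iχ a) (iχ b), ← integral_add iS i2, ← integral_add i3 iP]
    exact integral_mono iB (i3.add iP) hpt
  have hrI : 0 ≤ r * I := by positivity
  have h1 : B ≤ 10 ^ 8 * (r * I) := by
    have e : 10 * (4 * R) * I = 8 * 10 ^ 7 * (r * I) := by rw [hR]; ring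
    rw [e] at hS
    linarith
  -- arithmetic-geometric mean inequality
  have h2 : 10 ^ 8 * (r * I) ≤ 1 / 2 * B + 1 / 2 * (10 ^ 16 * r ^ 2) * E := by
    rw [hI, hB, hE, ← mul_assoc, ← integral_const_mul, ← integral_const_mul,
      ← integral_const_mul, ← integral_add (iB.const_mul _) (iE.const_mul _)]
    apply integral_mono (iI.const_mul _) ((iB.const_mul _).add (iE.const_mul _))
    intro x
    show 10 ^ 8 * r * (|u x| * ‖fderiv ℝ u x‖) ≤ 1 / 2 * u x ^ 2 +
      1 / 2 * (10 ^ 16 * r ^ 2) * ‖fderiv ℝ u x‖ ^ 2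
    nlinarith [sq_nonneg (|u x| - 10 ^ 8 * r * ‖fderiv ℝ u x‖), sq_abs (u x)]
  linarith

end main

end Pool.Agent.Lib.MP_6d896a_gt.EX
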