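import Mathlib
import Pool.Agent.Lib.MP_6d896a_gt.Sym5

/-!
Poincare inequality for functions odd in one coordinate (2): the far field, the level sets and the
final inequality.
-/

namespace Pool.Agent.Lib.MP_6d896a_gt

open MeasureTheory Filter Topology Metric
open scoped ENNReal NNReal

variable {n : ℕ} {V : EuclideanSpace ℝ (Fin n) → ℝ} {κ C : ℝ}

/-- radial integration by parts -/
lemma SP.ibp_radial (h : SP V κ C) {w : EuclideanSpace ℝ (Fin n) → ℝ} (hw : ContDiff ℝ 1 w)
    {A : ℝ} (hA : ∀ x, |w x| ≤ A) (hA' : ∀ x, ‖fderiv ℝ w x‖ ≤ A * (1 + ‖x‖) ^ 2) :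
    Integrable (fun x => w x * fderiv ℝ V x x * Real.exp (-V x)) ∧
    Integrable (fun x => fderiv ℝ w x x * Real.exp (-V x)) ∧
    Integrable (fun x => w x * Real.exp (-V x)) ∧
    ∫ x, w x * fderiv ℝ V x x * Real.exp (-V x) =
      (∫ x, fderiv ℝ w x x * Real.exp (-V x)) + n * ∫ x, w x * Real.exp (-V x) := by
  have hC := h.Cpos
  have hA0 : 0 ≤ A := (abs_nonneg _).trans (hA 0)
  have hwc := hw.continuous
  have hwd : Continuous (fun x => fderiv ℝ w x) := hw.continuous_fderiv (by simp)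
  have hVd : Continuous (fun x => fderiv ℝ V x) := h.cd.continuous_fderiv (by simp)
  have i3 : Integrable (fun x => w x * Real.exp (-V x)) := by
    apply h.int' hwc (A := A)
    intro x
    exact (hA x).trans (le_mul_of_one_le_right hA0 (one_le_pow4 x))
  have hwx : ∀ x, |fderiv ℝ w x x| ≤ A * (1 + ‖x‖) ^ 3 := by
    intro x
    have h1 := (fderiv ℝ w x).le_opNorm x
    rw [Real.norm_eq_abs] at h1
    have hx := norm_nonneg x
    calc |fderiv ℝ w x x| ≤ ‖fderiv ℝ w x‖ * ‖x‖ := h1
      _ ≤ (A * (1 + ‖x‖) ^ 2) * (1 + ‖x‖) := by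
        apply mul_le_mul (hA' x) (by linarith) hx (by positivity)
      _ = _ := by ring
  have i2 : Integrable (fun x => fderiv ℝ w x x * Real.exp (-V x)) := by
    apply h.int' (f := fun x => fderiv ℝ w x x) (hwd.clm_apply continuous_id) (A := A)
    intro x
    exact (hwx x).trans (mul_le_mul_of_nonneg_left (pow_le_pow4 x (by norm_num)) hA0)
  have i1 : Integrable (fun x => w x * fderiv ℝ V x x * Real.exp (-V x)) := by
    apply h.int' (f := fun x => w x * fderiv ℝ V x x) (hwc.mul (hVd.clm_apply continuous_id))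
      (A := A * C)
    intro x
    have hx := norm_nonneg x
    have h1 := (fderiv ℝ V x).le_opNorm x
    rw [Real.norm_eq_abs] at h1
    rw [abs_mul]
    calc |w x| * |fderiv ℝ V x x| ≤ A * ((C * (1 + ‖x‖)) * (1 + ‖x‖)) := by
          apply mul_le_mul (hA x) _ (abs_nonneg _) hA0
          refine h1.trans ?_
          apply mul_le_mul (h.grow x) (by linarith) hx (by positivity)
      _ = A * C * (1 + ‖x‖) ^ 2 := by ring
      _ ≤ _ := mul_le_mul_of_nonneg_left (pow_le_pow4 x (by norm_num)) (by positivity)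
  refine ⟨i1, i2, i3, ?_⟩
  have hfd : ∀ (k : Fin n) (x : EuclideanSpace ℝ (Fin n)),
      fderiv ℝ (fun x => w x * x k) x (ej k) = fderiv ℝ w x (ej k) * x k + w x := by
    intro k x
    have h1 : HasFDerivAt w (fderiv ℝ w x) x := (hw.differentiable (by simp)).differentiableAt.hasFDerivAt
    have h2 : HasFDerivAt (fun x : EuclideanSpace ℝ (Fin n) => x k)
        (EuclideanSpace.proj (𝕜 := ℝ) k : EuclideanSpace ℝ (Fin n) →L[ℝ] ℝ) x :=
      (EuclideanSpace.proj (𝕜 := ℝ) k : EuclideanSpace ℝ (Fin n) →L[ℝ] ℝ).hasFDerivAt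
    have h5 : HasFDerivAt (fun x => w x * x k) _ x := h1.mul h2
    rw [h5.fderiv]
    simp
    ring
  have hxk : ∀ (x : EuclideanSpace ℝ (Fin n)) (k : Fin n), |x k| ≤ ‖x‖ := by
    intro x k
    have := PiLp.norm_apply_le x k
    rwa [Real.norm_eq_abs] at this
  have hk : ∀ k : Fin n, ∫ x, w x * x k * fderiv ℝ V x (ej k) * Real.exp (-V x) =
      ∫ x, (fderiv ℝ w x (ej k) * x k + w x) * Real.exp (-V x) := by
    intro k
    have := h.ibp (f := fun x => w x * x k) (hw.mul (coord_contDiff k)) (ej k) (A := 2 * A)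
      (fun x => by
        have hx := norm_nonneg x
        rw [abs_mul]
        calc |w x| * |x k| ≤ A * (1 + ‖x‖) := by
              apply mul_le_mul (hA x) _ (abs_nonneg _) hA0
              linarith [hxk x k]
          _ ≤ 2 * A * (1 + ‖x‖) ^ 2 := by nlinarith [mul_nonneg hA0 hx, mul_nonneg hA0 (sq_nonneg ‖x‖)])
      (fun x => by
        have hx := norm_nonneg x
        rw [hfd k x]
        have h1 := (fderiv ℝ w x).le_opNorm (ej k)
        rw [ej_norm, mul_one, Real.norm_eq_abs] at h1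
        have h2 : |fderiv ℝ w x (ej k) * x k| ≤ (A * (1 + ‖x‖) ^ 2) * (1 + ‖x‖) := by
          rw [abs_mul]
          apply mul_le_mul (h1.trans (hA' x)) _ (abs_nonneg _) (by positivity)
          linarith [hxk x k]
        have h3 := mul_le_mul_of_nonneg_left (pow_le_pow4 x (by norm_num : 3 ≤ 4)) hA0
        have h4 := mul_le_mul_of_nonneg_left (one_le_pow4 x) hA0
        calc |fderiv ℝ w x (ej k) * x k + w x| ≤ |fderiv ℝ w x (ej k) * x k| + |w x| :=
              abs_add_le _ _
          _ ≤ (A * (1 + ‖x‖) ^ 2) * (1 + ‖x‖) + A := add_le_add h2 (hA x)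
          _ ≤ _ := by nlinarith)
    rw [this]
    congr 1
    funext x
    rw [hfd k x]
  have ik1 : ∀ k : Fin n, Integrable (fun x => w x * x k * fderiv ℝ V x (ej k) *
      Real.exp (-V x)) := by
    intro k
    apply h.int' (f := fun x => w x * x k * fderiv ℝ V x (ej k)) _ (A := A * C)
    · intro x
      have hx := norm_nonneg x
      have h1 := (fderiv ℝ V x).le_opNorm (ej k)
      rw [ej_norm, mul_one, Real.norm_eq_abs] at h1
      rw [abs_mul, abs_mul]
      calc |w x| * |x k| * |fderiv ℝ V x (ej k)| ≤ A * (1 + ‖x‖) * (C * (1 + ‖x‖)) := by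
            apply mul_le_mul _ (h1.trans (h.grow x)) (abs_nonneg _) (by positivity)
            apply mul_le_mul (hA x) _ (abs_nonneg _) hA0
            linarith [hxk x k]
        _ = A * C * (1 + ‖x‖) ^ 2 := by ring
        _ ≤ _ := mul_le_mul_of_nonneg_left (pow_le_pow4 x (by norm_num)) (by positivity)
    · exact (hwc.mul (by fun_prop)).mul (hVd.clm_apply continuous_const)
  have ik2 : ∀ k : Fin n, Integrable (fun x => (fderiv ℝ w x (ej k) * x k + w x) *
      Real.exp (-V x)) := by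
    intro k
    apply h.int' (f := fun x => fderiv ℝ w x (ej k) * x k + w x) _ (A := 2 * A)
    · intro x
      have hx := norm_nonneg x
      have h1 := (fderiv ℝ w x).le_opNorm (ej k)
      rw [ej_norm, mul_one, Real.norm_eq_abs] at h1
      have h2 : |fderiv ℝ w x (ej k) * x k| ≤ (A * (1 + ‖x‖) ^ 2) * (1 + ‖x‖) := by
        rw [abs_mul]
        apply mul_le_mul (h1.trans (hA' x)) _ (abs_nonneg _) (by positivity)
        linarith [hxk x k]
      have h3 := mul_le_mul_of_nonneg_left (pow_le_pow4 x (by norm_num : 3 ≤ 4)) hA0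
      have h4 := mul_le_mul_of_nonneg_left (one_le_pow4 x) hA0
      calc |fderiv ℝ w x (ej k) * x k + w x| ≤ |fderiv ℝ w x (ej k) * x k| + |w x| :=
            abs_add_le _ _
        _ ≤ (A * (1 + ‖x‖) ^ 2) * (1 + ‖x‖) + A := add_le_add h2 (hA x)
        _ ≤ _ := by nlinarith
    · exact ((hwd.clm_apply continuous_const).mul (by fun_prop)).add hwc
  have hsum := Finset.sum_congr rfl fun k (_ : k ∈ Finset.univ) => hk k
  rw [← integral_finsetSum _ fun k _ => ik1 k, ← integral_finsetSum _ fun k _ => ik2 k] at hsum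
  have e1 : (fun x => ∑ k, w x * x k * fderiv ℝ V x (ej k) * Real.exp (-V x)) =
      fun x => w x * fderiv ℝ V x x * Real.exp (-V x) := by
    funext x
    have : fderiv ℝ V x x = ∑ k, x k * fderiv ℝ V x (ej k) := by
      conv_lhs => rw [← sum_ej x, map_sum]
      apply Finset.sum_congr rfl
      intro k _
      rw [map_smul, smul_eq_mul, sum_ej]
    rw [this, Finset.mul_sum, Finset.sum_mul]
    apply Finset.sum_congr rfl
    intro k _
    ring
  have e2 : (fun x => ∑ k, (fderiv ℝ w x (ej k) * x k + w x) * Real.exp (-V x)) =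
      fun x => fderiv ℝ w x x * Real.exp (-V x) + n * (w x * Real.exp (-V x)) := by
    funext x
    have : fderiv ℝ w x x = ∑ k, x k * fderiv ℝ w x (ej k) := by
      conv_lhs => rw [← sum_ej x, map_sum]
      apply Finset.sum_congr rfl
      intro k _
      rw [map_smul, smul_eq_mul, sum_ej]
    rw [this, ← Finset.sum_mul, Finset.sum_add_distrib]
    simp only [Finset.sum_const, Finset.card_univ, Fintype.card_fin, nsmul_eq_mul]
    have e3 : ∑ k, fderiv ℝ w x (ej k) * x k = ∑ k, x k * fderiv ℝ w x (ej k) :=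
      Finset.sum_congr rfl fun k _ => mul_comm _ _
    rw [e3]
    ring
  rw [e1, e2, integral_add i2 (i3.const_mul _), integral_const_mul] at hsum
  exact hsum

/-- the damping factor -/
noncomputable def chi (V : EuclideanSpace ℝ (Fin n) → ℝ) (x : EuclideanSpace ℝ (Fin n)) : ℝ :=
  1 + (V x - V 0) / (3 * n)

lemma SP.chi_ge (h : SP V κ C) (x : EuclideanSpace ℝ (Fin n)) : 1 ≤ chi V x := by
  unfold chi
  have h1 := h.min x
  have : 0 ≤ (V x - V 0) / (3 * n) := div_nonneg (by linarith) (by positivity)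
  linarith

lemma SP.norm_le_chi (h : SP V κ C) (hn : 0 < n) {r : ℝ}
    (hK : ∀ x, V x < V 0 + 3 * n → ∑ j, |x j| ≤ n * r) (x : EuclideanSpace ℝ (Fin n)) :
    ‖x‖ ≤ n * r * chi V x := by
  have hn0 : (0 : ℝ) < n := by exact_mod_cast hn
  have hc := h.chi_ge x
  have hc0 : 0 < chi V x := by linarith
  have h1 := h.cvx.2 (Set.mem_univ (0 : EuclideanSpace ℝ (Fin n))) (Set.mem_univ x)
    (by
      have : (chi V x)⁻¹ ≤ 1 := inv_le_one_of_one_le₀ hc
      linarith : (0 : ℝ) ≤ 1 - (chi V x)⁻¹)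
    (by positivity : 0 ≤ (chi V x)⁻¹) (by ring)
  rw [smul_zero, zero_add, smul_eq_mul, smul_eq_mul] at h1
  have h2 : (1 - (chi V x)⁻¹) * V 0 + (chi V x)⁻¹ * V x < V 0 + 3 * n := by
    have e : (1 - (chi V x)⁻¹) * V 0 + (chi V x)⁻¹ * V x = V 0 + (V x - V 0) * (chi V x)⁻¹ := by
      ring
    rw [e]
    have h3 : V x - V 0 = 3 * n * (chi V x - 1) := by
      unfold chi
      field_simp
      ring
    rw [h3]
    have h4 : 3 * n * (chi V x - 1) * (chi V x)⁻¹ = 3 * n - 3 * n * (chi V x)⁻¹ := by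
      field_simp
    rw [h4]
    have : 0 < 3 * n * (chi V x)⁻¹ := by positivity
    linarith
  have h3 := hK _ (lt_of_le_of_lt h1 h2)
  have h4 : ‖(chi V x)⁻¹ • x‖ ≤ ∑ j, |((chi V x)⁻¹ • x) j| := by
    conv_lhs => rw [← sum_ej ((chi V x)⁻¹ • x)]
    refine (norm_sum_le _ _).trans (Finset.sum_le_sum fun j _ => ?_)
    rw [norm_smul, ej_norm, mul_one, Real.norm_eq_abs]
  have h5 := h4.trans h3
  rw [norm_smul, norm_inv, Real.norm_eq_abs, abs_of_pos hc0, inv_mul_le_iff₀ hc0] at h5
  linarith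

/-- the far field -/
theorem SP.far (h : SP V κ C) (hn : 0 < n) {r : ℝ}
    (hK : ∀ x, V x < V 0 + 3 * n → ∑ j, |x j| ≤ n * r)
    {u : EuclideanSpace ℝ (Fin n) → ℝ} {U L : ℝ} (hu : TF u U L) :
    ∫ x, u x ^ 2 * Real.exp (-V x) ≤
      2 * (∫ x in {x | V x < V 0 + 3 * n}, u x ^ 2 * Real.exp (-V x)) +
      2 * r * ∫ x, |u x| * ‖fderiv ℝ u x‖ * Real.exp (-V x) := by
  have hn0 : (0 : ℝ) < n := by exact_mod_cast hn
  have hC := h.Cpos
  have hU0 : 0 ≤ U := (abs_nonneg _).trans (hu.bd 0)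
  have hL0 : 0 ≤ L := (norm_nonneg _).trans (hu.gd 0)
  have huc := hu.cd.continuous
  have hfd : Continuous (fun x => fderiv ℝ u x) := hu.cd.continuous_fderiv (by simp)
  have hu2 : ∀ x, u x ^ 2 ≤ U ^ 2 := fun x => by
    rw [← sq_abs (u x)]; exact pow_le_pow_left₀ (abs_nonneg _) (hu.bd x) 2
  have hchi := h.chi_ge
  have hchic : ContDiff ℝ 1 (chi V) := by
    unfold chi
    exact contDiff_const.add ((h.cd.sub contDiff_const).div_const _)
  set K : Set (EuclideanSpace ℝ (Fin n)) := {x | V x < V 0 + 3 * n} with hKdef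
  have hKm : MeasurableSet K := (isOpen_lt h.cd.continuous continuous_const).measurableSet
  have j1 : Integrable (fun x => |u x| * ‖fderiv ℝ u x‖ * Real.exp (-V x)) := by
    apply h.int' (f := fun x => |u x| * ‖fderiv ℝ u x‖) (huc.abs.mul hfd.norm) (A := U * L)
    intro x
    rw [abs_mul, abs_abs, abs_norm]
    calc |u x| * ‖fderiv ℝ u x‖ ≤ U * L := mul_le_mul (hu.bd x) (hu.gd x) (norm_nonneg _) hU0
      _ ≤ U * L * (1 + ‖x‖) ^ 4 := le_mul_of_one_le_right (by positivity) (one_le_pow4 x)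
  have j2 : Integrable (fun x => u x ^ 2 * Real.exp (-V x)) := by
    apply h.int' (f := fun x => u x ^ 2) (huc.pow 2) (A := U ^ 2)
    intro x
    rw [abs_of_nonneg (sq_nonneg _)]
    exact (hu2 x).trans (le_mul_of_one_le_right (by positivity) (one_le_pow4 x))
  set w : EuclideanSpace ℝ (Fin n) → ℝ := fun x => u x ^ 2 * (chi V x)⁻¹ with hw
  have hwcd : ContDiff ℝ 1 w := (hu.cd.pow 2).mul (hchic.inv fun x => by linarith [hchi x])
  have hchid : ∀ x v, fderiv ℝ (chi V) x v = fderiv ℝ V x v / (3 * n) := by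
    intro x v
    have hd : HasFDerivAt V (fderiv ℝ V x) x :=
      (h.cd.differentiable (by simp)).differentiableAt.hasFDerivAt
    have h1 : HasFDerivAt (chi V) ((3 * (n : ℝ))⁻¹ • fderiv ℝ V x) x := by
      have h2 := ((hd.sub_const (V 0)).const_mul ((3 * (n : ℝ))⁻¹)).const_add 1
      refine h2.congr_of_eventuallyEq (Eventually.of_forall fun y => ?_)
      unfold chi
      ring
    rw [h1.fderiv]
    simp
    ring
  have hwd : ∀ x v, fderiv ℝ w x v = 2 * u x * fderiv ℝ u x v * (chi V x)⁻¹ -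
      u x ^ 2 * (fderiv ℝ V x v / (3 * n)) * ((chi V x)⁻¹) ^ 2 := by
    intro x v
    have h1 : HasFDerivAt u (fderiv ℝ u x) x :=
      (hu.cd.differentiable (by simp)).differentiableAt.hasFDerivAt
    have h2 : HasFDerivAt (chi V) (fderiv ℝ (chi V) x) x :=
      (hchic.differentiable (by simp)).differentiableAt.hasFDerivAt
    have h3 : HasDerivAt (fun t : ℝ => t⁻¹) (-(chi V x ^ 2)⁻¹) (chi V x) :=
      hasDerivAt_inv (by linarith [hchi x])
    have h4 := h3.comp_hasFDerivAt x h2
    have h5 : HasFDerivAt (fun x => u x ^ 2 * (chi V x)⁻¹) _ x := (h1.pow 2).mul h4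
    rw [hw, h5.fderiv]
    simp [hchid]
    ring
  have hci : ∀ x, (chi V x)⁻¹ ≤ 1 := fun x => inv_le_one_of_one_le₀ (hchi x)
  have hci0 : ∀ x, 0 < (chi V x)⁻¹ := fun x => inv_pos.mpr (by linarith [hchi x])
  have hwb : ∀ x, |w x| ≤ U ^ 2 := by
    intro x
    rw [hw]
    simp only []
    rw [abs_of_nonneg (mul_nonneg (sq_nonneg _) (hci0 x).le)]
    calc u x ^ 2 * (chi V x)⁻¹ ≤ U ^ 2 * 1 :=
          mul_le_mul (hu2 x) (hci x) (hci0 x).le (by positivity)
      _ = _ := mul_one _
  have hwdb : ∀ x, ‖fderiv ℝ w x‖ ≤ (2 * U * L + U ^ 2 * C) * (1 + ‖x‖) ^ 1 := by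
    intro x
    have hx := norm_nonneg x
    apply ContinuousLinearMap.opNorm_le_bound _ (by positivity)
    intro v
    rw [hwd x v, Real.norm_eq_abs]
    have h1 : |2 * u x * fderiv ℝ u x v * (chi V x)⁻¹| ≤ 2 * U * L * ‖v‖ := by
      rw [abs_mul, abs_mul, abs_mul, abs_of_pos (by norm_num : (0 : ℝ) < 2), abs_of_pos (hci0 x)]
      have h2 := (fderiv ℝ u x).le_opNorm v
      rw [Real.norm_eq_abs] at h2
      calc 2 * |u x| * |fderiv ℝ u x v| * (chi V x)⁻¹ ≤ 2 * |u x| * |fderiv ℝ u x v| * 1 :=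
            mul_le_mul_of_nonneg_left (hci x) (by positivity)
        _ ≤ 2 * U * (L * ‖v‖) := by
            rw [mul_one]
            apply mul_le_mul _ _ (abs_nonneg _) (by positivity)
            · exact mul_le_mul_of_nonneg_left (hu.bd x) (by norm_num)
            · exact h2.trans (mul_le_mul_of_nonneg_right (hu.gd x) (norm_nonneg _))
        _ = _ := by ring
    have h3 : |u x ^ 2 * (fderiv ℝ V x v / (3 * n)) * ((chi V x)⁻¹) ^ 2| ≤
        U ^ 2 * (C * (1 + ‖x‖) * ‖v‖) := by
      rw [abs_mul, abs_mul, abs_of_nonneg (sq_nonneg (u x)),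
        abs_of_nonneg (sq_nonneg ((chi V x)⁻¹)), abs_div, abs_of_pos (by positivity : 0 < 3 * (n : ℝ))]
      have h4 := (fderiv ℝ V x).le_opNorm v
      rw [Real.norm_eq_abs] at h4
      have h5 : |fderiv ℝ V x v| / (3 * n) ≤ C * (1 + ‖x‖) * ‖v‖ := by
        have hn1 : (1 : ℝ) ≤ n := by exact_mod_cast hn
        have h6 : |fderiv ℝ V x v| / (3 * n) ≤ |fderiv ℝ V x v| :=
          div_le_self (abs_nonneg _) (by linarith)
        exact h6.trans (h4.trans (mul_le_mul_of_nonneg_right (h.grow x) (norm_nonneg _)))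
      have h7 : ((chi V x)⁻¹) ^ 2 ≤ 1 := pow_le_one₀ (hci0 x).le (hci x)
      calc u x ^ 2 * (|fderiv ℝ V x v| / (3 * n)) * ((chi V x)⁻¹) ^ 2
          ≤ u x ^ 2 * (|fderiv ℝ V x v| / (3 * n)) * 1 :=
            mul_le_mul_of_nonneg_left h7 (by positivity)
        _ ≤ U ^ 2 * (C * (1 + ‖x‖) * ‖v‖) := by
          rw [mul_one]
          exact mul_le_mul (hu2 x) h5 (by positivity) (by positivity)
    calc _ ≤ 2 * U * L * ‖v‖ + U ^ 2 * (C * (1 + ‖x‖) * ‖v‖) :=
          (abs_sub _ _).trans (add_le_add h1 h3)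
      _ ≤ (2 * U * L + U ^ 2 * C) * (1 + ‖x‖) ^ 1 * ‖v‖ := by
        have h8 : 0 ≤ 2 * U * L * ‖v‖ * ‖x‖ := by positivity
        nlinarith
  obtain ⟨i1, i2, i3, hid⟩ := h.ibp_radial hwcd (A := U ^ 2 + (2 * U * L + U ^ 2 * C))
    (fun x => (hwb x).trans (by
      have : 0 ≤ 2 * U * L + U ^ 2 * C := by positivity
      linarith))
    (fun x => by
      have hx := norm_nonneg x
      have h1 : 0 ≤ 2 * U * L + U ^ 2 * C := by positivity
      have h2 : (1 + ‖x‖) ^ 1 ≤ (1 + ‖x‖) ^ 2 := pow_le_pow_right₀ (by linarith) (by norm_num)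
      have h3 : 0 ≤ U ^ 2 * (1 + ‖x‖) ^ 2 := by positivity
      have h4 := mul_le_mul_of_nonneg_left h2 h1
      calc ‖fderiv ℝ w x‖ ≤ _ := hwdb x
        _ ≤ _ := h4
        _ ≤ _ := by rw [add_mul]; linarith)
  have hnc := h.norm_le_chi hn hK
  -- pointwise
  have p1 : ∀ x, fderiv ℝ w x x ≤ 2 * n * r * (|u x| * ‖fderiv ℝ u x‖) := by
    intro x
    rw [hwd x x]
    have h1 : 0 ≤ fderiv ℝ V x x := by
      have := h.radial x
      have := h.min x
      linarith
    have h2 : 0 ≤ u x ^ 2 * (fderiv ℝ V x x / (3 * n)) * ((chi V x)⁻¹) ^ 2 := by positivity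
    have h3 : 2 * u x * fderiv ℝ u x x * (chi V x)⁻¹ ≤ 2 * n * r * (|u x| * ‖fderiv ℝ u x‖) := by
      refine (le_abs_self _).trans ?_
      rw [abs_mul, abs_mul, abs_mul, abs_of_pos (by norm_num : (0 : ℝ) < 2), abs_of_pos (hci0 x)]
      have h4 := (fderiv ℝ u x).le_opNorm x
      rw [Real.norm_eq_abs] at h4
      have h5 : ‖x‖ * (chi V x)⁻¹ ≤ n * r := by
        rw [← div_eq_mul_inv, div_le_iff₀ (by linarith [hchi x])]
        exact hnc x
      calc 2 * |u x| * |fderiv ℝ u x x| * (chi V x)⁻¹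
          ≤ 2 * |u x| * (‖fderiv ℝ u x‖ * ‖x‖) * (chi V x)⁻¹ := by
            apply mul_le_mul_of_nonneg_right _ (hci0 x).le
            exact mul_le_mul_of_nonneg_left h4 (by positivity)
        _ = 2 * (|u x| * ‖fderiv ℝ u x‖) * (‖x‖ * (chi V x)⁻¹) := by ring
        _ ≤ 2 * (|u x| * ‖fderiv ℝ u x‖) * (n * r) := mul_le_mul_of_nonneg_left h5 (by positivity)
        _ = _ := by ring
    linarith
  have p2 : ∀ x, (3 * n / 2) * (u x ^ 2 * (1 - K.indicator 1 x)) ≤ w x * fderiv ℝ V x x := by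
    intro x
    have h1 := h.radial x
    have h2 := h.min x
    have h0 : 0 ≤ w x := mul_nonneg (sq_nonneg _) (hci0 x).le
    by_cases hx : x ∈ K
    · simp only [Set.indicator_of_mem hx, Pi.one_apply, sub_self, mul_zero]
      exact mul_nonneg h0 (by linarith)
    · simp only [Set.indicator_of_notMem hx, sub_zero, mul_one]
      have hx2 : V 0 + 3 * n ≤ V x := not_lt.mp hx
      have h3 : 3 * n / 2 ≤ (chi V x)⁻¹ * fderiv ℝ V x x := by
        have hcp : 0 < chi V x := by linarith [hchi x]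
        rw [inv_mul_eq_div, le_div_iff₀ hcp]
        have h4 : 3 * n / 2 * chi V x = 3 * n / 2 + (V x - V 0) / 2 := by
          unfold chi
          field_simp
        rw [h4]
        linarith
      rw [hw]
      simp only []
      have := mul_le_mul_of_nonneg_left h3 (sq_nonneg (u x))
      linarith
  have p3 : ∀ x, n * w x ≤ n * (u x ^ 2 * K.indicator 1 x) +
      (n / 2) * (u x ^ 2 * (1 - K.indicator 1 x)) := by
    intro x
    by_cases hx : x ∈ K
    · simp only [Set.indicator_of_mem hx, Pi.one_apply, sub_self, mul_zero, mul_one, add_zero]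
      apply mul_le_mul_of_nonneg_left _ hn0.le
      rw [hw]
      exact mul_le_of_le_one_right (sq_nonneg _) (hci x)
    · simp only [Set.indicator_of_notMem hx, sub_zero, mul_one, mul_zero, zero_add]
      have hx2 : V 0 + 3 * n ≤ V x := not_lt.mp hx
      have h3 : (chi V x)⁻¹ ≤ 1 / 2 := by
        rw [inv_eq_one_div]
        apply one_div_le_one_div_of_le (by norm_num)
        unfold chi
        have : 1 ≤ (V x - V 0) / (3 * n) := by
          rw [le_div_iff₀ (by positivity)]
          linarith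
        linarith
      rw [hw]
      simp only []
      have := mul_le_mul_of_nonneg_left h3 (sq_nonneg (u x))
      have := mul_le_mul_of_nonneg_left this hn0.le
      linarith
  -- integrate
  have j3 : Integrable (fun x => u x ^ 2 * K.indicator 1 x * Real.exp (-V x)) := by
    have e : (fun x => u x ^ 2 * K.indicator 1 x * Real.exp (-V x)) =
        K.indicator (fun x => u x ^ 2 * Real.exp (-V x)) := by
      funext x
      by_cases hx : x ∈ K
      · simp [hx]
      · simp [hx]
    rw [e]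
    exact j2.indicator hKm
  have e3 : ∫ x, u x ^ 2 * K.indicator 1 x * Real.exp (-V x) =
      ∫ x in K, u x ^ 2 * Real.exp (-V x) := by
    rw [← integral_indicator hKm]
    congr 1
    funext x
    by_cases hx : x ∈ K
    · simp [hx]
    · simp [hx]
  have j4 : Integrable (fun x => u x ^ 2 * (1 - K.indicator 1 x) * Real.exp (-V x)) := by
    have e : (fun x => u x ^ 2 * (1 - K.indicator 1 x) * Real.exp (-V x)) =
        fun x => u x ^ 2 * Real.exp (-V x) - u x ^ 2 * K.indicator 1 x * Real.exp (-V x) := by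
      funext x; ring
    rw [e]
    exact j2.sub j3
  set P := ∫ x, |u x| * ‖fderiv ℝ u x‖ * Real.exp (-V x) with hP
  set b := ∫ x in K, u x ^ 2 * Real.exp (-V x) with hb
  set F := ∫ x, u x ^ 2 * (1 - K.indicator 1 x) * Real.exp (-V x) with hF
  have s1 : (3 * n / 2) * F ≤ ∫ x, w x * fderiv ℝ V x x * Real.exp (-V x) := by
    rw [hF, ← integral_const_mul]
    apply integral_mono (j4.const_mul _) i1
    intro x
    have := mul_le_mul_of_nonneg_right (p2 x) (Real.exp_pos (-V x)).le
    show (3 * n / 2) * (u x ^ 2 * (1 - K.indicator 1 x) * Real.exp (-V x)) ≤ _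
    calc (3 * n / 2) * (u x ^ 2 * (1 - K.indicator 1 x) * Real.exp (-V x)) =
        (3 * n / 2) * (u x ^ 2 * (1 - K.indicator 1 x)) * Real.exp (-V x) := by ring
      _ ≤ _ := this
  have s2 : ∫ x, fderiv ℝ w x x * Real.exp (-V x) ≤ 2 * n * r * P := by
    rw [hP, ← integral_const_mul]
    apply integral_mono i2 (j1.const_mul _)
    intro x
    have := mul_le_mul_of_nonneg_right (p1 x) (Real.exp_pos (-V x)).le
    show fderiv ℝ w x x * Real.exp (-V x) ≤
      2 * n * r * (|u x| * ‖fderiv ℝ u x‖ * Real.exp (-V x))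
    linarith
  have s3 : n * ∫ x, w x * Real.exp (-V x) ≤ n * b + n / 2 * F := by
    rw [← e3, hF, ← integral_const_mul, ← integral_const_mul, ← integral_const_mul,
      ← integral_add (j3.const_mul _) (j4.const_mul _)]
    apply integral_mono (i3.const_mul _) ((j3.const_mul _).add (j4.const_mul _))
    intro x
    have := mul_le_mul_of_nonneg_right (p3 x) (Real.exp_pos (-V x)).le
    show n * (w x * Real.exp (-V x)) ≤ n * (u x ^ 2 * K.indicator 1 x * Real.exp (-V x)) +
      n / 2 * (u x ^ 2 * (1 - K.indicator 1 x) * Real.exp (-V x))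
    linarith
  have s4 : ∫ x, u x ^ 2 * Real.exp (-V x) = b + F := by
    rw [← e3, hF, ← integral_add j3 j4]
    congr 1
    funext x
    ring
  rw [s4]
  have s5 : n * F ≤ n * (b + 2 * r * P) := by linarith
  have s6 := le_of_mul_le_mul_left s5 hn0
  linarith

end Pool.Agent.Lib.MP_6d896a_gt
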