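import Mathlib
import Pool.Agent.Lib.MP_6d896a_gt.Sym6

/-!
Poincare inequality for functions odd in one coordinate (3): gauges of level sets, layer cake and the
final inequality.
-/

namespace Pool.Agent.Lib.MP_6d896a_gt

open MeasureTheory Filter Topology Metric
open scoped ENNReal NNReal

variable {n : ℕ} {V : EuclideanSpace ℝ (Fin n) → ℝ} {κ C : ℝ}

lemma sperm_smul (σ : Equiv.Perm (Fin n)) (ε : Fin n → ℝ) (t : ℝ) (x : EuclideanSpace ℝ (Fin n)) :
    t • sperm σ ε x = sperm σ ε (t • x) := by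
  ext k
  simp [sperm]
  ring

/-- the gauges of the level sets -/
theorem SP.level_SG (h : SP V κ C) {r : ℝ} (hr : 0 < r) {t : ℝ} (ht : V 0 < t)
    (hK : ∀ x, V x < t → ∑ j, |x j| ≤ n * r) :
    SG (gauge {x | V x < t}) r ∧ {x | gauge {x | V x < t} x < 1} = {x | V x < t} := by
  set K : Set (EuclideanSpace ℝ (Fin n)) := {x | V x < t} with hKdef
  have hKo : IsOpen K := isOpen_lt h.cd.continuous continuous_const
  have hKc : Convex ℝ K := by
    have := h.cvx.convex_lt t
    simpa [hKdef] using this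
  have h0 : (0 : EuclideanSpace ℝ (Fin n)) ∈ K := ht
  have hnh : K ∈ 𝓝 (0 : EuclideanSpace ℝ (Fin n)) := hKo.mem_nhds h0
  have habs : Absorbent ℝ K := absorbent_nhds_zero hnh
  have hset : {x | gauge K x < 1} = K := setOfPred_gauge_lt_one_eq_self_of_isOpen hKc h0 hKo
  have hinv : ∀ (σ : Equiv.Perm (Fin n)) (ε : Fin n → ℝ), IsSign ε → ∀ x,
      (sperm σ ε x ∈ K ↔ x ∈ K) := by
    intro σ ε hε x
    show V (sperm σ ε x) < t ↔ V x < t
    rw [h.inv σ ε hε x]
  refine ⟨⟨hr, fun x => gauge_nonneg x, ?_, ?_, ?_, ?_, ?_⟩, hset⟩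
  · intro t ht x
    rw [gauge_smul_of_nonneg ht, smul_eq_mul]
  · exact fun x y => gauge_add_le hKc habs x y
  · exact hKc.lipschitz_gauge hnh
  · intro σ ε hε x
    rw [gauge_def', gauge_def']
    congr 1
    ext s
    simp only [Set.mem_ofPred_eq]
    rw [sperm_smul, hinv σ ε hε]
  · intro x
    have key : ∀ s : ℝ, gauge K x < s → ∑ j, |x j| ≤ n * r * s := by
      intro s hs
      have hs0 : 0 < s := lt_of_le_of_lt (gauge_nonneg x) hs
      have h1 : gauge K (s⁻¹ • x) < 1 := by
        rw [gauge_smul_of_nonneg (by positivity), smul_eq_mul, inv_mul_lt_iff₀ hs0, mul_one]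
        exact hs
      have h2 : s⁻¹ • x ∈ K := by rw [← hset]; exact h1
      have h3 := hK _ h2
      have h4 : ∑ j, |(s⁻¹ • x) j| = s⁻¹ * ∑ j, |x j| := by
        rw [Finset.mul_sum]
        apply Finset.sum_congr rfl
        intro j _
        rw [PiLp.smul_apply, smul_eq_mul, abs_mul, abs_of_pos (by positivity : 0 < s⁻¹)]
      rw [h4, inv_mul_le_iff₀ hs0] at h3
      linarith
    have hlim : Tendsto (fun s : ℝ => n * r * s) (𝓝[>] (gauge K x)) (𝓝 (n * r * gauge K x)) :=
      (Continuous.tendsto (by fun_prop) _).mono_left nhdsWithin_le_nhds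
    exact ge_of_tendsto hlim (by
      filter_upwards [self_mem_nhdsWithin] with s hs
      exact key s hs)

/-- layer cake -/
lemma layer {E : Type*} [MeasurableSpace E] {μ : Measure E} [SFinite μ] {V : E → ℝ}
    (hV : Measurable V) {T m : ℝ}
    (hm : ∀ x, m ≤ V x) (hmT : m ≤ T) {G : E → ℝ} (hG : Measurable G) {B : ℝ}
    (hB : ∀ x, |G x| ≤ B) (hfin : μ {x | V x < T} < ∞)
    (hlev : ∀ t, m < t → t ≤ T → 0 ≤ ∫ x in {x | V x < t}, G x ∂μ) :
    0 ≤ ∫ x in {x | V x < T}, G x * Real.exp (-V x) ∂μ := by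
  rcases hmT.eq_or_lt with heq | hlt
  · have : {x | V x < T} = ∅ := by
      ext x
      simp only [Set.mem_ofPred_eq, Set.mem_empty_iff_false, iff_false, not_lt]
      rw [← heq]; exact hm x
    rw [this]; simp
  set K : Set E := {x | V x < T} with hKdef
  have hKm : MeasurableSet K := measurableSet_lt hV measurable_const
  have : IsFiniteMeasure (μ.restrict K) := ⟨by rwa [Measure.restrict_apply_univ]⟩
  have : IsFiniteMeasure ((volume : Measure ℝ).restrict (Set.Ioc m T)) :=
    ⟨by rw [Measure.restrict_apply_univ]; simp⟩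
  set F : E → ℝ → ℝ := fun x t => G x * (Real.exp (-t) * (if V x < t then 1 else 0)) with hF
  have hFm : Measurable (Function.uncurry F) := by
    have h1 : MeasurableSet {p : E × ℝ | V p.1 < p.2} :=
      measurableSet_lt (hV.comp measurable_fst) measurable_snd
    show Measurable (fun p : E × ℝ => G p.1 * (Real.exp (-p.2) * (if V p.1 < p.2 then 1 else 0)))
    exact (hG.comp measurable_fst).mul
      ((Real.measurable_exp.comp measurable_snd.neg).mul
        (Measurable.ite h1 measurable_const measurable_const))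
  have hFi : Integrable (Function.uncurry F) ((μ.restrict K).prod
      ((volume : Measure ℝ).restrict (Set.Ioc m T))) := by
    refine (integrable_const (B * Real.exp (-m))).mono' hFm.aestronglyMeasurable ?_
    have hms : MeasurableSet {p : E × ℝ | m < p.2} := measurableSet_lt measurable_const measurable_snd
    have hae : ∀ᵐ p ∂((μ.restrict K).prod ((volume : Measure ℝ).restrict (Set.Ioc m T))),
        m < p.2 := by
      rw [Measure.ae_prod_iff_ae_ae hms]
      refine ae_of_all _ fun x => ?_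
      filter_upwards [ae_restrict_mem measurableSet_Ioc] with t ht using ht.1
    filter_upwards [hae] with p hp
    show ‖G p.1 * (Real.exp (-p.2) * (if V p.1 < p.2 then 1 else 0))‖ ≤ _
    rw [Real.norm_eq_abs, abs_mul]
    have hB0 : 0 ≤ B := (abs_nonneg _).trans (hB p.1)
    apply mul_le_mul (hB p.1) _ (abs_nonneg _) hB0
    rw [abs_mul, abs_of_pos (Real.exp_pos _)]
    have h1 : |(if V p.1 < p.2 then (1 : ℝ) else 0)| ≤ 1 := by split_ifs <;> simp
    have h2 : Real.exp (-p.2) ≤ Real.exp (-m) := Real.exp_le_exp.mpr (by linarith)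
    calc Real.exp (-p.2) * |(if V p.1 < p.2 then (1 : ℝ) else 0)| ≤ Real.exp (-m) * 1 :=
          mul_le_mul h2 h1 (abs_nonneg _) (Real.exp_pos _).le
      _ = _ := mul_one _
  have hswap := integral_integral_swap (f := F) hFi
  -- inner integral in t
  have hin : ∀ x ∈ K, ∫ t in Set.Ioc m T, F x t = G x * (Real.exp (-V x) - Real.exp (-T)) := by
    intro x hx
    have hxT : V x < T := hx
    rw [hF]
    simp only []
    rw [integral_const_mul]
    congr 1
    have e1 : ∀ t, Real.exp (-t) * (if V x < t then (1 : ℝ) else 0) =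
        (Set.Ioi (V x)).indicator (fun t => Real.exp (-t)) t := by
      intro t
      by_cases ht : V x < t
      · rw [if_pos ht, Set.indicator_of_mem (show t ∈ Set.Ioi (V x) from ht), mul_one]
      · rw [if_neg ht, Set.indicator_of_notMem (show t ∉ Set.Ioi (V x) from ht), mul_zero]
    simp only [e1]
    rw [setIntegral_indicator measurableSet_Ioi]
    have e2 : Set.Ioc m T ∩ Set.Ioi (V x) = Set.Ioc (V x) T := by
      ext t
      simp only [Set.mem_inter_iff, Set.mem_Ioc, Set.mem_Ioi]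
      constructor
      · rintro ⟨⟨_, h2⟩, h3⟩; exact ⟨h3, h2⟩
      · rintro ⟨h3, h2⟩; exact ⟨⟨(hm x).trans_lt h3, h2⟩, h3⟩
    rw [e2, ← intervalIntegral.integral_of_le hxT.le]
    have e3 : ∀ t ∈ Set.uIcc (V x) T, HasDerivAt (fun t : ℝ => -Real.exp (-t)) (Real.exp (-t)) t := by
      intro t _
      have h1 : HasDerivAt (fun t : ℝ => -t) (-1) t := hasDerivAt_neg t
      have h2 := (h1.exp).neg
      refine h2.congr_deriv ?_
      ring
    rw [intervalIntegral.integral_eq_sub_of_hasDerivAt e3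
      ((Real.continuous_exp.comp continuous_neg).intervalIntegrable _ _)]
    ring
  have hout : ∀ t ∈ Set.Ioc m T, ∫ x in K, F x t ∂μ = Real.exp (-t) * ∫ x in {x | V x < t}, G x ∂μ := by
    intro t ht
    rw [hF]
    simp only []
    have e1 : ∀ x, G x * (Real.exp (-t) * (if V x < t then (1 : ℝ) else 0)) =
        Real.exp (-t) * ({x | V x < t}.indicator G x) := by
      intro x
      by_cases hx : V x < t
      · rw [if_pos hx, Set.indicator_of_mem (show x ∈ {x | V x < t} from hx)]; ring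
      · rw [if_neg hx, Set.indicator_of_notMem (show x ∉ {x | V x < t} from hx)]; ring
    simp only [e1]
    rw [integral_const_mul, setIntegral_indicator (measurableSet_lt hV measurable_const)]
    have e2 : K ∩ {x | V x < t} = {x | V x < t} := by
      apply Set.inter_eq_right.mpr
      intro x hx
      exact lt_of_lt_of_le hx ht.2
    rw [e2]
  have l1 : ∫ x in K, (∫ t in Set.Ioc m T, F x t) ∂μ =
      ∫ x in K, G x * (Real.exp (-V x) - Real.exp (-T)) ∂μ :=
    setIntegral_congr_fun hKm hin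
  have l2 : ∫ t in Set.Ioc m T, (∫ x in K, F x t ∂μ) =
      ∫ t in Set.Ioc m T, Real.exp (-t) * ∫ x in {x | V x < t}, G x ∂μ :=
    setIntegral_congr_fun measurableSet_Ioc hout
  have l3 : 0 ≤ ∫ t in Set.Ioc m T, Real.exp (-t) * ∫ x in {x | V x < t}, G x ∂μ := by
    apply setIntegral_nonneg measurableSet_Ioc
    intro t ht
    exact mul_nonneg (Real.exp_pos _).le (hlev t ht.1 ht.2)
  have l4 : 0 ≤ ∫ x in K, G x * (Real.exp (-V x) - Real.exp (-T)) ∂μ := by
    rw [← l1, hswap, l2]; exact l3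
  have hGi : IntegrableOn G K μ :=
    (integrable_const B).mono' hG.aestronglyMeasurable (ae_of_all _ fun x => by
      rw [Real.norm_eq_abs]; exact hB x)
  have hGe : IntegrableOn (fun x => G x * Real.exp (-V x)) K μ := by
    refine (integrable_const (B * Real.exp (-m))).mono'
      (hG.mul (Real.measurable_exp.comp hV.neg)).aestronglyMeasurable (ae_of_all _ fun x => ?_)
    rw [Real.norm_eq_abs, abs_mul, abs_of_pos (Real.exp_pos _)]
    have hB0 : 0 ≤ B := (abs_nonneg _).trans (hB x)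
    exact mul_le_mul (hB x) (Real.exp_le_exp.mpr (by linarith [hm x])) (Real.exp_pos _).le hB0
  have l5 : ∫ x in K, G x * (Real.exp (-V x) - Real.exp (-T)) ∂μ =
      (∫ x in K, G x * Real.exp (-V x) ∂μ) - Real.exp (-T) * ∫ x in K, G x ∂μ := by
    rw [← integral_const_mul, ← integral_sub hGe (hGi.const_mul _)]
    congr 1
    funext x
    ring
  have l6 := mul_nonneg (Real.exp_pos (-T)).le (hlev T hlt le_rfl)
  rw [l5] at l4
  linarith

/-- the Poincare inequality for functions odd in one coordinate -/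
theorem SP.odd (h : SP V κ C) {r : ℝ} (hr : 0 < r)
    (hK : ∀ x, V x < V 0 + 3 * n → ∑ j, |x j| ≤ n * r)
    {u : EuclideanSpace ℝ (Fin n) → ℝ} {U L : ℝ} (hu : TF u U L)
    (i : Fin n) (hodd : ∀ x, |u x| ≤ L * |x i|) :
    ∫ x, u x ^ 2 * Real.exp (-V x) ≤
      11 * 10 ^ 7 * r ^ 2 * ∫ x, ‖fderiv ℝ u x‖ ^ 2 * Real.exp (-V x) := by
  have hn : 0 < n := i.pos
  have hn0 : (0 : ℝ) < n := by exact_mod_cast hn
  have hU0 : 0 ≤ U := (abs_nonneg _).trans (hu.bd 0)
  have hL0 : 0 ≤ L := (norm_nonneg _).trans (hu.gd 0)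
  have huc := hu.cd.continuous
  have hfd : Continuous (fun x => fderiv ℝ u x) := hu.cd.continuous_fderiv (by simp)
  have hu2 : ∀ x, u x ^ 2 ≤ U ^ 2 := fun x => by
    rw [← sq_abs (u x)]; exact pow_le_pow_left₀ (abs_nonneg _) (hu.bd x) 2
  have hcoord : Continuous (fun x : EuclideanSpace ℝ (Fin n) => x i) := by fun_prop
  have hms : MeasurableSet {x : EuclideanSpace ℝ (Fin n) | |x i| < 128 * r} :=
    (isOpen_lt hcoord.abs continuous_const).measurableSet
  set ind : EuclideanSpace ℝ (Fin n) → ℝ := fun x => if |x i| < 128 * r then (1 : ℝ) else 0 with hind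
  have hindm : Measurable ind := Measurable.ite hms measurable_const measurable_const
  have hind0 : ∀ x, 0 ≤ ind x := by intro x; rw [hind]; simp only []; split_ifs <;> norm_num
  have hind1 : ∀ x, ind x ≤ 1 := by intro x; rw [hind]; simp only []; split_ifs <;> norm_num
  have hD2 : ∀ x, ‖fderiv ℝ u x‖ ^ 2 ≤ L ^ 2 := fun x =>
    pow_le_pow_left₀ (norm_nonneg _) (hu.gd x) 2
  set K : Set (EuclideanSpace ℝ (Fin n)) := {x | V x < V 0 + 3 * n} with hKdef
  have hKm : MeasurableSet K := (isOpen_lt h.cd.continuous continuous_const).measurableSet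
  have j1 : Integrable (fun x => |u x| * ‖fderiv ℝ u x‖ * Real.exp (-V x)) := by
    apply h.int' (f := fun x => |u x| * ‖fderiv ℝ u x‖) (huc.abs.mul hfd.norm) (A := U * L)
    intro x
    rw [abs_mul, abs_abs, abs_norm]
    calc |u x| * ‖fderiv ℝ u x‖ ≤ U * L := mul_le_mul (hu.bd x) (hu.gd x) (norm_nonneg _) hU0
      _ ≤ U * L * (1 + ‖x‖) ^ 4 := le_mul_of_one_le_right (by positivity) (one_le_pow4 x)
  have j2 : Integrable (fun x => u x ^ 2 * Real.exp (-V x)) := by
    apply h.int' (f := fun x => u x ^ 2) (huc.pow 2) (A := U ^ 2)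
    intro x
    rw [abs_of_nonneg (sq_nonneg _)]
    exact (hu2 x).trans (le_mul_of_one_le_right (by positivity) (one_le_pow4 x))
  have j3 : Integrable (fun x => ‖fderiv ℝ u x‖ ^ 2 * Real.exp (-V x)) := by
    apply h.int' (f := fun x => ‖fderiv ℝ u x‖ ^ 2) (hfd.norm.pow 2) (A := L ^ 2)
    intro x
    rw [abs_of_nonneg (sq_nonneg _)]
    exact (hD2 x).trans (le_mul_of_one_le_right (by positivity) (one_le_pow4 x))
  have j4 : Integrable (fun x => u x ^ 2 * ind x * Real.exp (-V x)) := by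
    refine h.int (f := fun x => u x ^ 2 * ind x) (A := U ^ 2) (hf := ?_) (hA := ?_)
    · exact ((huc.measurable.pow_const 2).mul hindm).aestronglyMeasurable
    · intro x
      rw [abs_mul, abs_of_nonneg (sq_nonneg (u x)), abs_of_nonneg (hind0 x)]
      calc u x ^ 2 * ind x ≤ U ^ 2 * 1 := mul_le_mul (hu2 x) (hind1 x) (hind0 x) (by positivity)
        _ ≤ _ := by
          rw [mul_one]
          exact le_mul_of_one_le_right (by positivity) (one_le_pow4 x)
  -- slab
  have hslab := h.slab hu i hodd (ρ := 128 * r) (by positivity)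
  have hfar := h.far hn hK hu
  -- level
  have hlevel : ∫ x in K, u x ^ 2 * Real.exp (-V x) ≤
      2 * (∫ x in K, u x ^ 2 * ind x * Real.exp (-V x)) +
      2 * 10 ^ 7 * r ^ 2 * ∫ x in K, ‖fderiv ℝ u x‖ ^ 2 * Real.exp (-V x) := by
    have hfin : (volume : Measure (EuclideanSpace ℝ (Fin n))) K < ∞ := by
      refine lt_of_le_of_lt (measure_mono ?_)
        (measure_closedBall_lt_top (x := (0 : EuclideanSpace ℝ (Fin n))) (r := n * r))
      intro x hx
      rw [mem_closedBall_zero_iff]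
      have h4 : ‖x‖ ≤ ∑ j, |x j| := by
        conv_lhs => rw [← sum_ej x]
        refine (norm_sum_le _ _).trans (Finset.sum_le_sum fun j _ => ?_)
        rw [norm_smul, ej_norm, mul_one, Real.norm_eq_abs]
      exact h4.trans (hK x hx)
    have := layer (μ := (volume : Measure (EuclideanSpace ℝ (Fin n)))) (V := V)
      h.cd.continuous.measurable (T := V 0 + 3 * n) (m := V 0) h.min (by linarith)
      (G := fun x => 2 * (u x ^ 2 * ind x) + 2 * 10 ^ 7 * r ^ 2 * ‖fderiv ℝ u x‖ ^ 2 - u x ^ 2)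
      (B := 2 * U ^ 2 + 2 * 10 ^ 7 * r ^ 2 * L ^ 2 + U ^ 2)
      (by
        exact ((((huc.measurable.pow_const 2).mul hindm).const_mul 2).add
          ((hfd.norm.pow 2).measurable.const_mul _)).sub (huc.measurable.pow_const 2))
      (by
        intro x
        have h1 := hu2 x
        have h2 := hD2 x
        have h3 : u x ^ 2 * ind x ≤ U ^ 2 := by
          calc u x ^ 2 * ind x ≤ U ^ 2 * 1 := mul_le_mul h1 (hind1 x) (hind0 x) (by positivity)
            _ = _ := mul_one _
        have h4 : 0 ≤ u x ^ 2 * ind x := mul_nonneg (sq_nonneg _) (hind0 x)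
        have h5 : 2 * 10 ^ 7 * r ^ 2 * ‖fderiv ℝ u x‖ ^ 2 ≤ 2 * 10 ^ 7 * r ^ 2 * L ^ 2 :=
          mul_le_mul_of_nonneg_left h2 (by positivity)
        have h6 : 0 ≤ 2 * 10 ^ 7 * r ^ 2 * ‖fderiv ℝ u x‖ ^ 2 := by positivity
        have h7 : 0 ≤ u x ^ 2 := sq_nonneg _
        rw [_root_.abs_le]
        constructor <;> linarith) hfin
      (by
        intro t ht1 ht2
        obtain ⟨hSG, hset⟩ := h.level_SG hr ht1 (fun x hx => hK x (lt_of_lt_of_le hx ht2))
        have hl := hSG.level hu i hodd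
        have c2 := unit_cont_int hSG (f := fun x => ‖fderiv ℝ u x‖ ^ 2) (hfd.norm.pow 2)
        have c3 := unit_cont_int hSG (f := fun x => u x ^ 2) (huc.pow 2)
        rw [hset] at hl c2 c3
        have c4 : IntegrableOn (fun x => u x ^ 2 * ind x) {x | V x < t} := by
          have : (fun x => u x ^ 2 * ind x) =
              {x : EuclideanSpace ℝ (Fin n) | |x i| < 128 * r}.indicator (fun x => u x ^ 2) := by
            funext x
            by_cases hx : |x i| < 128 * r
            · simp [hx, hind]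
            · simp [hx, hind]
          rw [this]
          exact c3.indicator hms
        have c5 : IntegrableOn (fun x => 2 * (u x ^ 2 * ind x)) {x | V x < t} := c4.const_mul 2
        have c6 : IntegrableOn (fun x => 2 * 10 ^ 7 * r ^ 2 * ‖fderiv ℝ u x‖ ^ 2) {x | V x < t} :=
          c2.const_mul _
        have c7 : IntegrableOn (fun x => 2 * (u x ^ 2 * ind x) +
          2 * 10 ^ 7 * r ^ 2 * ‖fderiv ℝ u x‖ ^ 2) {x | V x < t} := c5.add c6
        rw [integral_sub c7 c3, integral_add c5 c6, integral_const_mul, integral_const_mul]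
        linarith)
    have e : ∫ x in K, (2 * (u x ^ 2 * ind x) + 2 * 10 ^ 7 * r ^ 2 * ‖fderiv ℝ u x‖ ^ 2 - u x ^ 2) *
        Real.exp (-V x) = 2 * (∫ x in K, u x ^ 2 * ind x * Real.exp (-V x)) +
      2 * 10 ^ 7 * r ^ 2 * (∫ x in K, ‖fderiv ℝ u x‖ ^ 2 * Real.exp (-V x)) -
      ∫ x in K, u x ^ 2 * Real.exp (-V x) := by
      have c5 : IntegrableOn (fun x => 2 * (u x ^ 2 * ind x * Real.exp (-V x))) K :=
        j4.integrableOn.const_mul 2
      have c6 : IntegrableOn (fun x => 2 * 10 ^ 7 * r ^ 2 *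
        (‖fderiv ℝ u x‖ ^ 2 * Real.exp (-V x))) K := j3.integrableOn.const_mul _
      have c7 : IntegrableOn (fun x => 2 * (u x ^ 2 * ind x * Real.exp (-V x)) +
        2 * 10 ^ 7 * r ^ 2 * (‖fderiv ℝ u x‖ ^ 2 * Real.exp (-V x))) K := c5.add c6
      rw [← integral_const_mul, ← integral_const_mul, ← integral_add c5 c6,
        ← integral_sub c7 j2.integrableOn]
      congr 1
      funext x
      ring
    rw [e] at this
    linarith
  have m1 : ∫ x in K, u x ^ 2 * ind x * Real.exp (-V x) ≤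
      ∫ x, u x ^ 2 * ind x * Real.exp (-V x) :=
    setIntegral_le_integral j4 (ae_of_all _ fun x =>
      mul_nonneg (mul_nonneg (sq_nonneg _) (hind0 x)) (Real.exp_pos _).le)
  have m2 : ∫ x in K, ‖fderiv ℝ u x‖ ^ 2 * Real.exp (-V x) ≤
      ∫ x, ‖fderiv ℝ u x‖ ^ 2 * Real.exp (-V x) :=
    setIntegral_le_integral j3 (ae_of_all _ fun x =>
      mul_nonneg (sq_nonneg _) (Real.exp_pos _).le)
  -- AM-GM
  have amgm : 5122 * r * (∫ x, |u x| * ‖fderiv ℝ u x‖ * Real.exp (-V x)) ≤
      1 / 2 * (∫ x, u x ^ 2 * Real.exp (-V x)) +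
      13117442 * r ^ 2 * ∫ x, ‖fderiv ℝ u x‖ ^ 2 * Real.exp (-V x) := by
    rw [← integral_const_mul, ← integral_const_mul, ← integral_const_mul,
      ← integral_add (j2.const_mul _) (j3.const_mul _)]
    apply integral_mono (j1.const_mul _) ((j2.const_mul _).add (j3.const_mul _))
    intro x
    show 5122 * r * (|u x| * ‖fderiv ℝ u x‖ * Real.exp (-V x)) ≤
      1 / 2 * (u x ^ 2 * Real.exp (-V x)) + 13117442 * r ^ 2 * (‖fderiv ℝ u x‖ ^ 2 * Real.exp (-V x))
    have h1 : 5122 * r * (|u x| * ‖fderiv ℝ u x‖) ≤ 1 / 2 * u x ^ 2 +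
        13117442 * r ^ 2 * ‖fderiv ℝ u x‖ ^ 2 := by
      rw [← sq_abs (u x)]
      nlinarith [sq_nonneg (|u x| - 5122 * r * ‖fderiv ℝ u x‖)]
    have := mul_le_mul_of_nonneg_right h1 (Real.exp_pos (-V x)).le
    linarith
  have hQ0 : 0 ≤ ∫ x, ‖fderiv ℝ u x‖ ^ 2 * Real.exp (-V x) :=
    integral_nonneg fun x => mul_nonneg (sq_nonneg _) (Real.exp_pos _).le
  have hslab' : ∫ x, u x ^ 2 * ind x * Real.exp (-V x) ≤
      10 * (128 * r) * ∫ x, |u x| * ‖fderiv ℝ u x‖ * Real.exp (-V x) := hslab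
  set P := ∫ x, |u x| * ‖fderiv ℝ u x‖ * Real.exp (-V x) with hP
  set Q := ∫ x, ‖fderiv ℝ u x‖ ^ 2 * Real.exp (-V x) with hQ
  have m3 : 2 * 10 ^ 7 * r ^ 2 * (∫ x in K, ‖fderiv ℝ u x‖ ^ 2 * Real.exp (-V x)) ≤
      2 * 10 ^ 7 * r ^ 2 * Q := mul_le_mul_of_nonneg_left m2 (by positivity)
  have hrQ : 0 ≤ r ^ 2 * Q := by positivity
  nlinarith

end Pool.Agent.Lib.MP_6d896a_gt
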