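import Mathlib
import Pool.Agent.Lib.MP_6d896a_gt.Sym7

/-!
The level set of height `3 n` of a symmetric convex potential is controlled by the first moment.
-/

namespace Pool.Agent.Lib.MP_6d896a_gt

open MeasureTheory Filter Topology Metric
open scoped ENNReal NNReal

variable {n : ℕ} {V : EuclideanSpace ℝ (Fin n) → ℝ} {κ C : ℝ}

/-- constant vector -/
noncomputable def cv (n : ℕ) (m : ℝ) : EuclideanSpace ℝ (Fin n) := WithLp.toLp 2 fun _ => m

lemma SP.reflect (h : SP V κ C) (i : Fin n) (x : EuclideanSpace ℝ (Fin n)) :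
    V (x - (2 * x i) • ej i) = V x := by
  have h1 := h.inv (Equiv.refl _) (fun k => if k = i then -1 else 1)
    (fun k => by by_cases hk : k = i <;> simp [hk]) x
  have e : sperm (Equiv.refl _) (fun k => if k = i then -1 else 1) x = x - (2 * x i) • ej i := by
    ext k
    by_cases hk : k = i
    · subst hk
      simp [sperm, ej]
      ring
    · simp [sperm, ej, hk]
  rw [e] at h1
  exact h1

/-- the potential on the cube is bounded by the value at the corner -/
lemma SP.cube (h : SP V κ C) {m : ℝ} (hm : 0 < m) (y : EuclideanSpace ℝ (Fin n))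
    (hy : ∀ j, |y j| ≤ m) : V y ≤ V (cv n m) := by
  classical
  have key : ∀ S : Finset (Fin n),
      V (WithLp.toLp 2 fun j => if j ∈ S then y j else m) ≤ V (cv n m) := by
    intro S
    induction S using Finset.induction_on with
    | empty => simp [cv]
    | insert i S hi ih =>
      refine le_trans ?_ ih
      set z : EuclideanSpace ℝ (Fin n) := WithLp.toLp 2 fun j => if j ∈ S then y j else m with hz
      have hzi : z i = m := by simp [hz, hi]
      have h1 := h.reflect i z
      have hyi := _root_.abs_le.mp (hy i)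
      set t : ℝ := y i / m with ht
      have ht1 : t ≤ 1 := by rw [ht, div_le_one hm]; exact hyi.2
      have ht2 : -1 ≤ t := by rw [ht, le_div_iff₀ hm]; linarith [hyi.1]
      have e : (WithLp.toLp 2 fun j => if j ∈ insert i S then y j else m) =
          ((1 + t) / 2) • z + ((1 - t) / 2) • (z - (2 * z i) • ej i) := by
        ext k
        by_cases hk : k = i
        · subst hk
          simp only [PiLp.add_apply, PiLp.smul_apply, PiLp.sub_apply, smul_eq_mul, hzi]
          simp [ej]
          rw [ht]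
          field_simp
          ring
        · simp only [PiLp.add_apply, PiLp.smul_apply, PiLp.sub_apply, smul_eq_mul]
          simp [ej, hk, hz]
          split_ifs <;> ring
      rw [e]
      have h2 := h.cvx.2 (Set.mem_univ z) (Set.mem_univ (z - (2 * z i) • ej i))
        (by linarith : 0 ≤ (1 + t) / 2) (by linarith : 0 ≤ (1 - t) / 2) (by ring)
      rw [h1, smul_eq_mul, smul_eq_mul] at h2
      linarith
  have := key Finset.univ
  simpa using this

/-- averaging over the cyclic permutations and signs -/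
lemma SP.avg (h : SP V κ C) (hn : 0 < n) (x : EuclideanSpace ℝ (Fin n)) :
    V (cv n ((∑ j, |x j|) / n)) ≤ V x := by
  have : NeZero n := ⟨hn.ne'⟩
  have hn0 : (0 : ℝ) < n := by exact_mod_cast hn
  have hsgn : ∀ a : ℝ, ∃ e : ℝ, (e = 1 ∨ e = -1) ∧ e * a = |a| := by
    intro a
    rcases le_or_gt 0 a with ha | ha
    · exact ⟨1, Or.inl rfl, by rw [abs_of_nonneg ha, one_mul]⟩
    · exact ⟨-1, Or.inr rfl, by rw [abs_of_neg ha]; ring⟩
  choose e he1 he2 using hsgn
  set P : Fin n → EuclideanSpace ℝ (Fin n) := fun k =>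
    sperm (Equiv.addRight k) (fun j => e (x (j + k))) x with hP
  have hPV : ∀ k, V (P k) = V x := fun k => h.inv _ _ (fun j => he1 _) x
  have hsum : ∑ k, ((n : ℝ)⁻¹) • P k = cv n ((∑ j, |x j|) / n) := by
    ext j
    simp only [cv, hP, sperm, smul_eq_mul, WithLp.ofLp_sum,
      Finset.sum_apply, Equiv.coe_addRight, WithLp.ofLp_smul, Pi.smul_apply, he2]
    rw [← Finset.mul_sum]
    have : ∑ k, |x (j + k)| = ∑ k, |x k| :=
      Equiv.sum_comp (Equiv.addLeft j) (fun k => |x k|)
    rw [this]
    ring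
  rw [← hsum]
  have hw : ∑ _k : Fin n, (n : ℝ)⁻¹ = 1 := by
    simp
  refine (h.cvx.map_sum_le (fun _ _ => by positivity) hw (fun _ _ => Set.mem_univ _)).trans ?_
  simp only [hPV]
  rw [← Finset.sum_smul, hw, one_smul]

lemma exp_abs_int {s : ℝ} (hs : 0 < s) : ∫ t : ℝ, Real.exp (-s * |t|) = 2 / s := by
  rw [integral_comp_abs (f := fun t => Real.exp (-s * t)),
    integral_exp_mul_Ioi (by linarith) 0]
  simp
  ring

lemma exp_abs_integrable {s : ℝ} (hs : 0 < s) : Integrable (fun t : ℝ => Real.exp (-s * |t|)) := by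
  by_contra hc
  have h1 := exp_abs_int hs
  rw [integral_undef hc] at h1
  have : 0 < 2 / s := by positivity
  linarith

lemma exp_l1 (n : ℕ) {s : ℝ} (hs : 0 < s) :
    Integrable (fun x : EuclideanSpace ℝ (Fin n) => Real.exp (-s * ∑ j, |x j|)) ∧
    ∫ x : EuclideanSpace ℝ (Fin n), Real.exp (-s * ∑ j, |x j|) = (2 / s) ^ n := by
  have hmp := PiLp.volume_preserving_toLp (Fin n)
  have e : (fun x : Fin n → ℝ => Real.exp (-s * ∑ j, |x j|)) =
      fun x => ∏ j, Real.exp (-s * |x j|) := by
    funext x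
    rw [← Real.exp_sum, Finset.mul_sum]
  have h1 : Integrable (fun x : Fin n → ℝ => Real.exp (-s * ∑ j, |x j|)) := by
    rw [e]
    exact Integrable.fintype_prod (fun _ => exp_abs_integrable hs)
  have hme : MeasurableEmbedding (WithLp.toLp 2 : (Fin n → ℝ) → EuclideanSpace ℝ (Fin n)) :=
    (MeasurableEquiv.toLp 2 (Fin n → ℝ)).measurableEmbedding
  constructor
  · rw [← hmp.integrable_comp_emb hme]
    exact h1
  · rw [← hmp.integral_comp hme]
    show ∫ x : Fin n → ℝ, Real.exp (-s * ∑ j, |x j|) = _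
    rw [e, integral_fintype_prod_volume_eq_pow (fun t : ℝ => Real.exp (-s * |t|)), exp_abs_int hs]
    simp

/-- the lower bound of the total mass -/
lemma SP.mass_low (h : SP V κ C) {m T : ℝ} (hm : 0 < m) (hT : V (cv n m) ≤ T) :
    (2 * m) ^ n * Real.exp (-T) ≤ ∫ x, Real.exp (-V x) := by
  have j0 : Integrable (fun x => Real.exp (-V x)) := by
    have := h.int' (f := fun _ => 1) continuous_const (A := 1) (fun x => by
      rw [abs_one, one_mul]; exact one_le_pow4 x)
    simpa using this
  set Q : Set (EuclideanSpace ℝ (Fin n)) := {x | ∀ j, |x j| ≤ m} with hQ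
  have hQe : WithLp.toLp 2 ⁻¹' Q = Set.Icc (fun _ : Fin n => -m) (fun _ => m) := by
    ext x
    simp only [hQ, Set.mem_preimage, Set.mem_ofPred_eq, Set.mem_Icc, Pi.le_def]
    constructor
    · intro hx
      exact ⟨fun j => (_root_.abs_le.mp (hx j)).1, fun j => (_root_.abs_le.mp (hx j)).2⟩
    · intro hx j
      exact _root_.abs_le.mpr ⟨hx.1 j, hx.2 j⟩
  have hQc : IsClosed Q := by
    have : Q = ⋂ j, {x : EuclideanSpace ℝ (Fin n) | |x j| ≤ m} := by
      ext x; simp [hQ]
    rw [this]
    exact isClosed_iInter fun j => isClosed_le (by fun_prop) continuous_const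
  have hvol : (volume Q).toReal = (2 * m) ^ n := by
    have h1 := (PiLp.volume_preserving_toLp (Fin n)).measure_preimage
      hQc.measurableSet.nullMeasurableSet
    rw [← h1, hQe, Real.volume_Icc_pi_toReal (by
      intro j
      show -m ≤ m
      linarith)]
    simp
    ring
  have hfin : volume Q ≠ ∞ := by
    intro hc
    rw [hc] at hvol
    have : 0 < (2 * m) ^ n := by positivity
    rw [ENNReal.toReal_top] at hvol
    linarith
  calc (2 * m) ^ n * Real.exp (-T) = ∫ _x in Q, Real.exp (-T) := by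
        rw [setIntegral_const, smul_eq_mul]
        rw [← hvol]; rfl
    _ ≤ ∫ x in Q, Real.exp (-V x) := by
        apply setIntegral_mono_on (integrableOn_const hfin) j0.integrableOn hQc.measurableSet
        intro x hx
        apply Real.exp_le_exp.mpr
        have := h.cube hm x hx
        linarith
    _ ≤ ∫ x, Real.exp (-V x) :=
        setIntegral_le_integral j0 (ae_of_all _ fun x => (Real.exp_pos _).le)

/-- the level set is controlled by the first moment -/
theorem SP.l1_bound (h : SP V κ C) (hn : 0 < n) {x : EuclideanSpace ℝ (Fin n)}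
    (hx : V x < V 0 + 3 * n) :
    (∑ j, |x j|) * (∫ y, Real.exp (-V y)) ≤
      Real.exp 4 * ∫ y, (∑ j, |y j|) * Real.exp (-V y) := by
  have hn0 : (0 : ℝ) < n := by exact_mod_cast hn
  have j0 : Integrable (fun x => Real.exp (-V x)) := by
    have := h.int' (f := fun _ => 1) continuous_const (A := 1) (fun x => by
      rw [abs_one, one_mul]; exact one_le_pow4 x)
    simpa using this
  have hxk : ∀ (x : EuclideanSpace ℝ (Fin n)) (k : Fin n), |x k| ≤ ‖x‖ := by
    intro x k
    have := PiLp.norm_apply_le x k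
    rwa [Real.norm_eq_abs] at this
  have hS0 : ∀ y : EuclideanSpace ℝ (Fin n), 0 ≤ ∑ j, |y j| := fun y =>
    Finset.sum_nonneg fun _ _ => abs_nonneg _
  have jS : Integrable (fun y => (∑ j, |y j|) * Real.exp (-V y)) := by
    apply h.int' (f := fun y => ∑ j, |y j|) (by fun_prop) (A := n)
    intro y
    rw [abs_of_nonneg (hS0 y)]
    have h1 : ∑ j, |y j| ≤ ∑ _j : Fin n, ‖y‖ := Finset.sum_le_sum fun j _ => hxk y j
    simp only [Finset.sum_const, Finset.card_univ, Fintype.card_fin, nsmul_eq_mul] at h1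
    have h2 : ‖y‖ ≤ (1 + ‖y‖) ^ 4 := by
      calc ‖y‖ ≤ (1 + ‖y‖) ^ 1 := by linarith
        _ ≤ _ := pow_le_pow4 y (by norm_num)
    exact h1.trans (mul_le_mul_of_nonneg_left h2 hn0.le)
  set Z := ∫ y, Real.exp (-V y) with hZ
  set A := ∫ y, (∑ j, |y j|) * Real.exp (-V y) with hA
  have hA0 : 0 ≤ A := integral_nonneg fun y => mul_nonneg (hS0 y) (Real.exp_pos _).le
  rcases (hS0 x).eq_or_lt with h0 | hpos
  · rw [← h0, zero_mul]
    positivity
  set m : ℝ := (∑ j, |x j|) / n with hm
  have hm0 : 0 < m := by positivity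
  have hVm : V (cv n m) ≤ V 0 + 3 * n := (h.avg hn x).trans hx.le
  have hlow := h.mass_low hm0 hVm
  have hZ0 : 0 < Z := lt_of_lt_of_le (by positivity) hlow
  set s : ℝ := Real.exp 4 / m with hs
  have hs0 : 0 < s := by positivity
  obtain ⟨l1, l2⟩ := exp_l1 n hs0
  set c : ℝ := s * A / Z with hc
  -- Jensen by the tangent line
  have step1 : Real.exp (-c) * Z ≤ Real.exp (-V 0) * (2 / s) ^ n := by
    have k1 : Integrable (fun y => Real.exp (-s * ∑ j, |y j|) * Real.exp (-V y)) := by
      apply h.int' (f := fun y => Real.exp (-s * ∑ j, |y j|)) (by fun_prop) (A := 1)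
      intro y
      rw [abs_of_pos (Real.exp_pos _), one_mul]
      refine le_trans ?_ (one_le_pow4 y)
      apply Real.exp_le_one_iff.mpr
      have := mul_nonneg hs0.le (hS0 y)
      linarith
    have k2 : Integrable (fun y => Real.exp (-c) * (1 + c) * Real.exp (-V y) -
        Real.exp (-c) * s * ((∑ j, |y j|) * Real.exp (-V y))) :=
      (j0.const_mul _).sub (jS.const_mul _)
    have k3 : ∫ y, (Real.exp (-c) * (1 + c) * Real.exp (-V y) -
        Real.exp (-c) * s * ((∑ j, |y j|) * Real.exp (-V y))) = Real.exp (-c) * Z := by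
      rw [integral_sub (j0.const_mul _) (jS.const_mul _), integral_const_mul, integral_const_mul,
        ← hZ, ← hA]
      have : s * A = c * Z := by rw [hc]; field_simp
      rw [mul_assoc (Real.exp (-c)) s A, this]
      ring
    rw [← k3, ← l2, ← integral_const_mul]
    have k4 : ∫ y, (Real.exp (-c) * (1 + c) * Real.exp (-V y) -
        Real.exp (-c) * s * ((∑ j, |y j|) * Real.exp (-V y))) ≤
        ∫ y, Real.exp (-s * ∑ j, |y j|) * Real.exp (-V y) := by
      apply integral_mono k2 k1
      intro y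
      show Real.exp (-c) * (1 + c) * Real.exp (-V y) -
        Real.exp (-c) * s * ((∑ j, |y j|) * Real.exp (-V y)) ≤
        Real.exp (-s * ∑ j, |y j|) * Real.exp (-V y)
      have h1 : Real.exp (-c) * (1 + (c - s * ∑ j, |y j|)) ≤ Real.exp (-s * ∑ j, |y j|) := by
        have h2 := Real.add_one_le_exp (c - s * ∑ j, |y j|)
        have h3 : Real.exp (-s * ∑ j, |y j|) = Real.exp (-c) * Real.exp (c - s * ∑ j, |y j|) := by
          rw [← Real.exp_add]; congr 1; ring
        rw [h3]
        apply mul_le_mul_of_nonneg_left _ (Real.exp_pos _).le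
        linarith
      have := mul_le_mul_of_nonneg_right h1 (Real.exp_pos (-V y)).le
      linarith
    refine k4.trans ?_
    apply integral_mono k1 (l1.const_mul _)
    intro y
    show Real.exp (-s * ∑ j, |y j|) * Real.exp (-V y) ≤
      Real.exp (-V 0) * Real.exp (-s * ∑ j, |y j|)
    rw [mul_comm]
    apply mul_le_mul_of_nonneg_right _ (Real.exp_pos _).le
    exact Real.exp_le_exp.mpr (by linarith [h.min y])
  -- conclusion
  have step2 : Real.exp (-c) * ((2 * m) ^ n * Real.exp (-(V 0 + 3 * n))) ≤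
      Real.exp (-V 0) * (2 / s) ^ n :=
    (mul_le_mul_of_nonneg_left hlow (Real.exp_pos _).le).trans step1
  have e1 : (2 / s) ^ n = (2 * m) ^ n * Real.exp (-(4 * n)) := by
    have h1 : 2 / s = (2 * m) * Real.exp (-4) := by
      rw [hs, Real.exp_neg]
      field_simp
    rw [h1, mul_pow, ← Real.exp_nat_mul]
    congr 2
    ring
  rw [e1] at step2
  have step3 : Real.exp (-c + -(V 0 + 3 * n)) ≤ Real.exp (-V 0 + -(4 * n)) := by
    rw [Real.exp_add, Real.exp_add]
    have hp : 0 < (2 * m) ^ n := by positivity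
    have h1 : (2 * m) ^ n * (Real.exp (-c) * Real.exp (-(V 0 + 3 * n))) ≤
        (2 * m) ^ n * (Real.exp (-V 0) * Real.exp (-(4 * n))) := by
      calc _ = Real.exp (-c) * ((2 * m) ^ n * Real.exp (-(V 0 + 3 * n))) := by ring
        _ ≤ _ := step2
        _ = _ := by ring
    exact le_of_mul_le_mul_left h1 hp
  have step4 : (n : ℝ) ≤ c := by
    have := Real.exp_le_exp.mp step3
    linarith
  have step5 : n * Z ≤ s * A := by
    rw [hc, le_div_iff₀ hZ0] at step4
    exact step4
  have e2 : ∑ j, |x j| = n * m := by rw [hm]; field_simp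
  rw [e2]
  have e3 : s * A = Real.exp 4 * A / m := by rw [hs]; ring
  rw [e3, le_div_iff₀ hm0] at step5
  calc n * m * Z = n * Z * m := by ring
    _ ≤ _ := step5

/-- the final form of the inequality for odd functions -/
theorem SP.odd_var (h : SP V κ C) {S : ℝ} (hS : 0 < S)
    (hvar : ∀ j, ∫ y, y j ^ 2 * Real.exp (-V y) ≤ S * ∫ y, Real.exp (-V y))
    {u : EuclideanSpace ℝ (Fin n) → ℝ} {U L : ℝ} (hu : TF u U L)
    (i : Fin n) (hodd : ∀ x, |u x| ≤ L * |x i|) :
    ∫ x, u x ^ 2 * Real.exp (-V x) ≤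
      11 * 10 ^ 7 * Real.exp 8 * S * ∫ x, ‖fderiv ℝ u x‖ ^ 2 * Real.exp (-V x) := by
  have hn : 0 < n := i.pos
  have hn0 : (0 : ℝ) < n := by exact_mod_cast hn
  have j0 : Integrable (fun x => Real.exp (-V x)) := by
    have := h.int' (f := fun _ => 1) continuous_const (A := 1) (fun x => by
      rw [abs_one, one_mul]; exact one_le_pow4 x)
    simpa using this
  have hxk : ∀ (x : EuclideanSpace ℝ (Fin n)) (k : Fin n), |x k| ≤ ‖x‖ := by
    intro x k
    have := PiLp.norm_apply_le x k
    rwa [Real.norm_eq_abs] at this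
  have hZ0 : 0 < ∫ y, Real.exp (-V y) := integral_exp_pos j0
  have j1 : ∀ j, Integrable (fun y => |y j| * Real.exp (-V y)) := fun j => by
    apply h.int' (f := fun y => |y j|) (by fun_prop) (A := 1)
    intro y
    rw [abs_abs, one_mul]
    calc |y j| ≤ (1 + ‖y‖) ^ 1 := by linarith [hxk y j]
      _ ≤ _ := pow_le_pow4 y (by norm_num)
  have j2 : ∀ j, Integrable (fun y => y j ^ 2 * Real.exp (-V y)) := fun j => by
    apply h.int' (f := fun y => y j ^ 2) (by fun_prop) (A := 1)
    intro y
    rw [abs_of_nonneg (sq_nonneg _), one_mul, ← sq_abs]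
    calc |y j| ^ 2 ≤ (1 + ‖y‖) ^ 2 :=
          pow_le_pow_left₀ (abs_nonneg _) (by linarith [hxk y j]) 2
      _ ≤ _ := pow_le_pow4 y (by norm_num)
  have hsS : 0 < Real.sqrt S := Real.sqrt_pos.mpr hS
  have hsq : Real.sqrt S ^ 2 = S := Real.sq_sqrt hS.le
  have m1 : ∀ j, ∫ y, |y j| * Real.exp (-V y) ≤ Real.sqrt S * ∫ y, Real.exp (-V y) := by
    intro j
    have h1 : ∫ y, |y j| * Real.exp (-V y) ≤
        ∫ y, (1 / (2 * Real.sqrt S) * (y j ^ 2 * Real.exp (-V y)) +
          Real.sqrt S / 2 * Real.exp (-V y)) := by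
      apply integral_mono (j1 j) (((j2 j).const_mul _).add (j0.const_mul _))
      intro y
      show |y j| * Real.exp (-V y) ≤ 1 / (2 * Real.sqrt S) * (y j ^ 2 * Real.exp (-V y)) +
          Real.sqrt S / 2 * Real.exp (-V y)
      have h2 : |y j| ≤ 1 / (2 * Real.sqrt S) * y j ^ 2 + Real.sqrt S / 2 := by
        rw [← sq_abs (y j)]
        have h3 : 0 ≤ (1 / (2 * Real.sqrt S)) * (|y j| - Real.sqrt S) ^ 2 := by positivity
        have h4 : (1 / (2 * Real.sqrt S)) * (|y j| - Real.sqrt S) ^ 2 =
            1 / (2 * Real.sqrt S) * |y j| ^ 2 - |y j| + Real.sqrt S / 2 := by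
          field_simp
          ring
        linarith
      have := mul_le_mul_of_nonneg_right h2 (Real.exp_pos (-V y)).le
      linarith
    rw [integral_add ((j2 j).const_mul _) (j0.const_mul _), integral_const_mul,
      integral_const_mul] at h1
    have h5 := mul_le_mul_of_nonneg_left (hvar j) (by positivity : 0 ≤ 1 / (2 * Real.sqrt S))
    have h6 : 1 / (2 * Real.sqrt S) * (S * ∫ y, Real.exp (-V y)) =
        Real.sqrt S / 2 * ∫ y, Real.exp (-V y) := by
      have h7 : 1 / (2 * Real.sqrt S) * S = Real.sqrt S / 2 := by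
        rw [← hsq]
        field_simp
        rw [Real.sqrt_sq hsS.le]
      rw [← mul_assoc, h7]
    linarith
  have hK : ∀ x, V x < V 0 + 3 * n → ∑ j, |x j| ≤ n * (Real.exp 4 * Real.sqrt S) := by
    intro x hx
    have h1 := h.l1_bound hn hx
    have h2 : ∫ y, (∑ j, |y j|) * Real.exp (-V y) ≤ n * (Real.sqrt S * ∫ y, Real.exp (-V y)) := by
      have e : (fun y : EuclideanSpace ℝ (Fin n) => (∑ j, |y j|) * Real.exp (-V y)) =
          fun y => ∑ j, |y j| * Real.exp (-V y) := by
        funext y; rw [Finset.sum_mul]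
      rw [e, integral_finsetSum _ fun j _ => j1 j]
      refine (Finset.sum_le_sum fun j _ => m1 j).trans ?_
      simp
    have h3 := mul_le_mul_of_nonneg_left h2 (Real.exp_pos 4).le
    have h4 : (∑ j, |x j|) * (∫ y, Real.exp (-V y)) ≤
        (n * (Real.exp 4 * Real.sqrt S)) * ∫ y, Real.exp (-V y) := by
      calc _ ≤ _ := h1
        _ ≤ _ := h3
        _ = _ := by ring
    exact le_of_mul_le_mul_right h4 hZ0
  have := h.odd (by positivity) hK hu i hodd
  have e : 11 * 10 ^ 7 * (Real.exp 4 * Real.sqrt S) ^ 2 = 11 * 10 ^ 7 * Real.exp 8 * S := by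
    rw [mul_pow, hsq, ← Real.exp_nat_mul]
    have : ((2 : ℕ) : ℝ) * 4 = 8 := by norm_num
    rw [this]
    ring
  rw [e] at this
  exact this

end Pool.Agent.Lib.MP_6d896a_gt
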