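import Mathlib
import Pool.Agent.Lib.MP_6d896a_gt.Sym8
import Pool.Agent.Lib.MP_6d896a_gt.Channel2
import Pool.Agent.Lib.MP_6d896a_gt.ChainLimit
import Pool.Agent.Lib.MP_6d896a_gt.Posterior

/-!
The transition operator of the discretised Langevin chain on smooth functions.
-/

namespace Pool.Agent.Lib.MP_6d896a_gt

open MeasureTheory ProbabilityTheory Filter Topology Metric
open scoped ENNReal NNReal

variable {n : ℕ} {V : EuclideanSpace ℝ (Fin n) → ℝ}
  {D : EuclideanSpace ℝ (Fin n) → EuclideanSpace ℝ (Fin n)} {kap Lam C3 LH : ℝ}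

/-- the gradient step -/
noncomputable def tu (D : EuclideanSpace ℝ (Fin n) → EuclideanSpace ℝ (Fin n)) (h : ℝ)
    (x : EuclideanSpace ℝ (Fin n)) : EuclideanSpace ℝ (Fin n) := x - h • D x

/-- the transition operator -/
noncomputable def PP (D : EuclideanSpace ℝ (Fin n) → EuclideanSpace ℝ (Fin n)) (h : ℝ)
    (f : EuclideanSpace ℝ (Fin n) → ℝ) (x : EuclideanSpace ℝ (Fin n)) : ℝ :=
  ∫ z, f (tu D h x + Real.sqrt (2 * h) • z) ∂(stdGaussian (EuclideanSpace ℝ (Fin n)))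

/-- averaged gradient -/
noncomputable def GG (D : EuclideanSpace ℝ (Fin n) → EuclideanSpace ℝ (Fin n)) (h : ℝ)
    (f : EuclideanSpace ℝ (Fin n) → ℝ) (x : EuclideanSpace ℝ (Fin n)) :
    EuclideanSpace ℝ (Fin n) →L[ℝ] ℝ :=
  ∫ z, fderiv ℝ f (tu D h x + Real.sqrt (2 * h) • z) ∂(stdGaussian (EuclideanSpace ℝ (Fin n)))

lemma tu_contDiff (hP : Pot V D kap Lam C3) (h : ℝ) : ContDiff ℝ 1 (tu D h) := by
  unfold tu
  exact contDiff_id.sub (hP.cD.const_smul h)

lemma tu_hasFDerivAt (hP : Pot V D kap Lam C3) (h : ℝ) (x : EuclideanSpace ℝ (Fin n)) :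
    HasFDerivAt (tu D h) (fderiv ℝ (tu D h) x) x :=
  ((tu_contDiff hP h).differentiable (by simp)).differentiableAt.hasFDerivAt

lemma tu_lip (hP : Pot V D kap Lam C3) {h : ℝ} (hh : 0 ≤ h) (h2 : h * (kap + Lam) ≤ 1)
    (x y : EuclideanSpace ℝ (Fin n)) : ‖tu D h x - tu D h y‖ ≤ (1 - kap * h) * ‖x - y‖ :=
  hP.contr h hh h2 x y

lemma kh_le (hP : Pot V D kap Lam C3) {h : ℝ} (hh : 0 ≤ h) (h2 : h * (kap + Lam) ≤ 1) :
    0 ≤ 1 - kap * h ∧ 1 - kap * h ≤ 1 := by
  have hk := hP.kpos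
  have hL := hP.Lpos
  constructor <;> nlinarith

lemma tu_fderiv_norm (hP : Pot V D kap Lam C3) {h : ℝ} (hh : 0 ≤ h) (h2 : h * (kap + Lam) ≤ 1)
    (x : EuclideanSpace ℝ (Fin n)) : ‖fderiv ℝ (tu D h) x‖ ≤ 1 - kap * h := by
  have hk := (kh_le hP hh h2).1
  have hl : LipschitzWith (Real.toNNReal (1 - kap * h)) (tu D h) := by
    apply LipschitzWith.of_dist_le_mul
    intro a b
    rw [dist_eq_norm, dist_eq_norm, Real.coe_toNNReal _ hk]
    exact tu_lip hP hh h2 a b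
  have := norm_fderiv_le_of_lipschitz ℝ hl (x₀ := x)
  rwa [Real.coe_toNNReal _ hk] at this

lemma tu_fderiv_lip (hP : Pot V D kap Lam C3)
    (hH : ∀ x y, ‖fderiv ℝ D x - fderiv ℝ D y‖ ≤ LH * ‖x - y‖) {h : ℝ} (hh : 0 ≤ h)
    (x y : EuclideanSpace ℝ (Fin n)) :
    ‖fderiv ℝ (tu D h) x - fderiv ℝ (tu D h) y‖ ≤ h * LH * ‖x - y‖ := by
  have e : ∀ x, fderiv ℝ (tu D h) x = ContinuousLinearMap.id ℝ _ - h • fderiv ℝ D x := by
    intro x
    have h1 : HasFDerivAt D (fderiv ℝ D x) x :=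
      (hP.cD.differentiable (by simp)).differentiableAt.hasFDerivAt
    exact ((hasFDerivAt_id x).sub (h1.const_smul h)).fderiv
  have e2 : fderiv ℝ (tu D h) x - fderiv ℝ (tu D h) y = h • (fderiv ℝ D y - fderiv ℝ D x) := by
    rw [e, e]
    ext v
    simp
    ring
  rw [e2, norm_smul, Real.norm_eq_abs, abs_of_nonneg hh, norm_sub_rev, mul_assoc]
  exact mul_le_mul_of_nonneg_left (hH x y) hh

lemma aff_continuous (y : EuclideanSpace ℝ (Fin n)) (b : ℝ) :
    Continuous (fun z : EuclideanSpace ℝ (Fin n) => y + b • z) := by fun_prop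

lemma GG_int {f : EuclideanSpace ℝ (Fin n) → ℝ} {b l L : ℝ} (hf : CL f b l L) (h : ℝ)
    (y : EuclideanSpace ℝ (Fin n)) :
    Integrable (fun z => fderiv ℝ f (y + Real.sqrt (2 * h) • z))
      (stdGaussian (EuclideanSpace ℝ (Fin n))) :=
  (integrable_const l).mono' (hf.fdc.comp (aff_continuous _ _)).aestronglyMeasurable
    (ae_of_all _ fun z => hf.gd _)

lemma GG_norm {f : EuclideanSpace ℝ (Fin n) → ℝ} {b l L : ℝ} (hf : CL f b l L) (h : ℝ)
    (x : EuclideanSpace ℝ (Fin n)) : ‖GG D h f x‖ ≤ l := by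
  unfold GG
  refine (norm_integral_le_of_norm_le_const (C := l) (ae_of_all _ fun _ => hf.gd _)).trans ?_
  simp

lemma GG_lip (hP : Pot V D kap Lam C3) {f : EuclideanSpace ℝ (Fin n) → ℝ} {b l L : ℝ}
    (hf : CL f b l L) (hL : 0 ≤ L) {h : ℝ} (hh : 0 ≤ h) (h2 : h * (kap + Lam) ≤ 1)
    (x y : EuclideanSpace ℝ (Fin n)) :
    ‖GG D h f x - GG D h f y‖ ≤ L * ((1 - kap * h) * ‖x - y‖) := by
  unfold GG
  rw [← integral_sub (GG_int hf h _) (GG_int hf h _)]
  refine (norm_integral_le_of_norm_le_const (C := L * ((1 - kap * h) * ‖x - y‖))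
    (ae_of_all _ fun z => ?_)).trans ?_
  · refine (hf.hd _ _).trans ?_
    rw [add_sub_add_right_eq_sub]
    exact mul_le_mul_of_nonneg_left (tu_lip hP hh h2 x y) hL
  · simp

lemma PP_hasFDerivAt (hP : Pot V D kap Lam C3) {f : EuclideanSpace ℝ (Fin n) → ℝ} {b l L : ℝ}
    (hf : CL f b l L) {h : ℝ} (hh : 0 ≤ h) (h2 : h * (kap + Lam) ≤ 1)
    (x : EuclideanSpace ℝ (Fin n)) :
    HasFDerivAt (PP D h f) ((GG D h f x).comp (fderiv ℝ (tu D h) x)) x := by
  have hl := hf.nonneg.2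
  have hkh := kh_le hP hh h2
  have e : (GG D h f x).comp (fderiv ℝ (tu D h) x) =
      ∫ z, (fderiv ℝ f (tu D h x + Real.sqrt (2 * h) • z)).comp (fderiv ℝ (tu D h) x)
        ∂(stdGaussian (EuclideanSpace ℝ (Fin n))) := by
    unfold GG
    have := ContinuousLinearMap.integral_comp_comm
      ((ContinuousLinearMap.compL ℝ (EuclideanSpace ℝ (Fin n)) (EuclideanSpace ℝ (Fin n)) ℝ).flip
        (fderiv ℝ (tu D h) x)) (GG_int hf h (tu D h x))
    simpa using this.symm
  rw [e]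
  refine hasFDerivAt_integral_of_dominated_of_fderiv_le (bound := fun _ => l * (1 - kap * h))
    (F := fun x z => f (tu D h x + Real.sqrt (2 * h) • z))
    (F' := fun x z => (fderiv ℝ f (tu D h x + Real.sqrt (2 * h) • z)).comp (fderiv ℝ (tu D h) x))
    (Metric.ball_mem_nhds x zero_lt_one) ?_ ?_ ?_ ?_ (integrable_const _) ?_
  · filter_upwards with x'
    exact (hf.cd.continuous.comp (aff_continuous _ _)).aestronglyMeasurable
  · refine (integrable_const b).mono'
      (hf.cd.continuous.comp (aff_continuous _ _)).aestronglyMeasurable (ae_of_all _ fun z => ?_)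
    rw [Real.norm_eq_abs]
    exact hf.bd _
  · exact ((hf.fdc.comp (aff_continuous _ _)).clm_comp continuous_const).aestronglyMeasurable
  · apply ae_of_all
    intro z x' _
    refine (ContinuousLinearMap.opNorm_comp_le _ _).trans ?_
    exact mul_le_mul (hf.gd _) (tu_fderiv_norm hP hh h2 x') (norm_nonneg _) hl
  · apply ae_of_all
    intro z x' _
    have h1 : HasFDerivAt f (fderiv ℝ f (tu D h x' + Real.sqrt (2 * h) • z))
        (tu D h x' + Real.sqrt (2 * h) • z) :=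
      (hf.cd.differentiable (by simp)).differentiableAt.hasFDerivAt
    exact h1.comp x' ((tu_hasFDerivAt hP h x').add_const _)

/-- the operator preserves the class -/
theorem PP_CL (hP : Pot V D kap Lam C3)
    (hH : ∀ x y, ‖fderiv ℝ D x - fderiv ℝ D y‖ ≤ LH * ‖x - y‖)
    {f : EuclideanSpace ℝ (Fin n) → ℝ} {b l L : ℝ}
    (hf : CL f b l L) (hL : 0 ≤ L) {h : ℝ} (hh : 0 ≤ h) (h2 : h * (kap + Lam) ≤ 1) :
    CL (PP D h f) b ((1 - kap * h) * l) ((1 - kap * h) ^ 2 * L + h * LH * l) := by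
  obtain ⟨hb, hl⟩ := hf.nonneg
  obtain ⟨hk0, hk1⟩ := kh_le hP hh h2
  have hfd : ∀ x, fderiv ℝ (PP D h f) x = (GG D h f x).comp (fderiv ℝ (tu D h) x) := fun x =>
    (PP_hasFDerivAt hP hf hh h2 x).fderiv
  have hd : ∀ x y, ‖fderiv ℝ (PP D h f) x - fderiv ℝ (PP D h f) y‖ ≤
      ((1 - kap * h) ^ 2 * L + h * LH * l) * ‖x - y‖ := by
    intro x y
    rw [hfd, hfd]
    have e : (GG D h f x).comp (fderiv ℝ (tu D h) x) - (GG D h f y).comp (fderiv ℝ (tu D h) y) =
        (GG D h f x - GG D h f y).comp (fderiv ℝ (tu D h) x) +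
        (GG D h f y).comp (fderiv ℝ (tu D h) x - fderiv ℝ (tu D h) y) := by
      rw [ContinuousLinearMap.sub_comp, ContinuousLinearMap.comp_sub]
      abel
    rw [e]
    refine (norm_add_le _ _).trans ?_
    have h3 : ‖(GG D h f x - GG D h f y).comp (fderiv ℝ (tu D h) x)‖ ≤
        (L * ((1 - kap * h) * ‖x - y‖)) * (1 - kap * h) :=
      (ContinuousLinearMap.opNorm_comp_le _ _).trans
        (mul_le_mul (GG_lip hP hf hL hh h2 x y) (tu_fderiv_norm hP hh h2 x) (norm_nonneg _)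
          (by positivity))
    have h4 : ‖(GG D h f y).comp (fderiv ℝ (tu D h) x - fderiv ℝ (tu D h) y)‖ ≤
        l * (h * LH * ‖x - y‖) :=
      (ContinuousLinearMap.opNorm_comp_le _ _).trans
        (mul_le_mul (GG_norm hf h y) (tu_fderiv_lip hP hH hh x y) (norm_nonneg _) hl)
    calc _ ≤ (L * ((1 - kap * h) * ‖x - y‖)) * (1 - kap * h) + l * (h * LH * ‖x - y‖) :=
          add_le_add h3 h4
      _ = _ := by ring
  refine ⟨?_, ?_, ?_, hd⟩
  · rw [contDiff_one_iff_fderiv]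
    refine ⟨fun x => (PP_hasFDerivAt hP hf hh h2 x).differentiableAt, ?_⟩
    have hl2 : LipschitzWith (Real.toNNReal ((1 - kap * h) ^ 2 * L + h * LH * l))
        (fderiv ℝ (PP D h f)) := by
      apply LipschitzWith.of_dist_le_mul
      intro a b
      rw [dist_eq_norm, dist_eq_norm]
      refine (hd a b).trans ?_
      exact mul_le_mul_of_nonneg_right (Real.le_coe_toNNReal _) (norm_nonneg _)
    exact hl2.continuous
  · intro x
    unfold PP
    rw [← Real.norm_eq_abs]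
    refine (norm_integral_le_of_norm_le_const (C := b) (ae_of_all _ fun z => ?_)).trans ?_
    · rw [Real.norm_eq_abs]; exact hf.bd _
    · simp
  · intro x
    rw [hfd]
    refine (ContinuousLinearMap.opNorm_comp_le _ _).trans ?_
    have := mul_le_mul (GG_norm (D := D) hf h x) (tu_fderiv_norm hP hh h2 x) (norm_nonneg _) hl
    linarith

end Pool.Agent.Lib.MP_6d896a_gt
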