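import Mathlib
import Pool.Agent.Lib.MP_6d896a_gt.Sym9

/-!
The transition operator (2): smoothing, reflections and the decay of the energy.
-/

namespace Pool.Agent.Lib.MP_6d896a_gt

open MeasureTheory ProbabilityTheory Filter Topology Metric
open scoped ENNReal NNReal

variable {n : ℕ} {V : EuclideanSpace ℝ (Fin n) → ℝ}
  {D : EuclideanSpace ℝ (Fin n) → EuclideanSpace ℝ (Fin n)} {kap Lam C3 LH : ℝ}

lemma gconv_scale (s B : ℝ) (m : EuclideanSpace ℝ (Fin n) → ℝ) (x : EuclideanSpace ℝ (Fin n)) :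
    gconv s (fun y => B * m y) x = B * gconv s m x := by
  unfold gconv
  rw [← integral_const_mul]
  congr 1
  funext y
  ring

lemma gconv_div {s B : ℝ} (hB : B ≠ 0) (g : EuclideanSpace ℝ (Fin n) → ℝ) :
    gconv s g = fun x => B * gconv s (fun y => g y / B) x := by
  funext x
  rw [← gconv_scale]
  congr 1
  funext y
  field_simp

lemma gconv_contDiff' {s B : ℝ} (hs : 0 < s) (hB : 0 < B) {g : EuclideanSpace ℝ (Fin n) → ℝ}
    (hg : Measurable g) (hb : ∀ y, |g y| ≤ B) : ContDiff ℝ 1 (gconv s g) := by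
  rw [gconv_div hB.ne']
  apply contDiff_const.mul
  apply gconv_contDiff hs (hg.div_const B)
  intro y
  rw [abs_div, abs_of_pos hB, div_le_one hB]
  exact hb y

lemma gconv_grad' {s B : ℝ} (hs : 0 < s) (hB : 0 < B) {g : EuclideanSpace ℝ (Fin n) → ℝ}
    (hg : Measurable g) (hb : ∀ y, |g y| ≤ B) (x : EuclideanSpace ℝ (Fin n)) :
    ‖fderiv ℝ (gconv s g) x‖ ^ 2 ≤ 2 * s * (gconv s (fun y => g y ^ 2) x - gconv s g x ^ 2) := by
  have hb' : ∀ y, |g y / B| ≤ 1 := by
    intro y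
    rw [abs_div, abs_of_pos hB, div_le_one hB]
    exact hb y
  have h1 := gconv_grad hs (hg.div_const B) hb' x
  have e1 : fderiv ℝ (gconv s g) x = B • fderiv ℝ (gconv s (fun y => g y / B)) x := by
    have hd := (gconv_contDiff hs (hg.div_const B) hb').differentiable (by simp)
    conv_lhs => rw [gconv_div hB.ne' g]
    exact ((hd.differentiableAt (x := x)).hasFDerivAt.const_mul B).fderiv
  have e2 : gconv s (fun y => g y ^ 2) x = B ^ 2 * gconv s (fun y => (g y / B) ^ 2) x := by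
    rw [← gconv_scale]
    congr 1
    funext y
    field_simp
  have e3 : gconv s g x = B * gconv s (fun y => g y / B) x := by
    rw [gconv_div hB.ne' g]
  rw [e1, norm_smul, Real.norm_eq_abs, abs_of_pos hB, mul_pow, e2, e3]
  have := mul_le_mul_of_nonneg_left h1 (sq_nonneg B)
  calc B ^ 2 * ‖fderiv ℝ (gconv s (fun y => g y / B)) x‖ ^ 2 ≤ _ := this
    _ = _ := by ring

lemma gconv_abs_le' {s B : ℝ} (hs : 0 < s) (hB : 0 < B) {g : EuclideanSpace ℝ (Fin n) → ℝ}
    (hb : ∀ y, |g y| ≤ B) (x : EuclideanSpace ℝ (Fin n)) : |gconv s g x| ≤ B := by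
  rw [gconv_div hB.ne' g, abs_mul, abs_of_pos hB]
  have := gconv_abs_le hs (m := fun y => g y / B) (fun y => by
    rw [abs_div, abs_of_pos hB, div_le_one hB]
    exact hb y) x
  exact mul_le_of_le_one_right hB.le this

lemma PP_gconv {h : ℝ} (hh : 0 < h) {g : EuclideanSpace ℝ (Fin n) → ℝ}
    (hg : Measurable g) (x : EuclideanSpace ℝ (Fin n)) :
    PP D h g x = gconv (1 / (4 * h)) g (tu D h x) := by
  unfold PP
  set y := tu D h x
  set b := Real.sqrt (2 * h) with hb
  have hb0 : 0 < b := Real.sqrt_pos.mpr (by linarith)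
  have hb2 : b ^ 2 = 2 * h := Real.sq_sqrt (by linarith)
  have hmap := map_smul_gauss (E := EuclideanSpace ℝ (Fin n)) hb0
  have hm : Measurable (fun w : EuclideanSpace ℝ (Fin n) => g (y + w)) :=
    hg.comp (measurable_const_add y)
  have e1 : ∫ z, g (y + b • z) ∂(stdGaussian (EuclideanSpace ℝ (Fin n))) =
      ∫ w, g (y + w) ∂(gM (1 / (2 * b ^ 2)) : Measure (EuclideanSpace ℝ (Fin n))) := by
    rw [← hmap, integral_map (by fun_prop) hm.aestronglyMeasurable]
  have e2 : 1 / (2 * b ^ 2) = 1 / (4 * h) := by rw [hb2]; ring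
  rw [e1, e2, gM_integral (by positivity)]
  unfold gconv
  have e3 := integral_add_left_eq_self (μ := (volume : Measure (EuclideanSpace ℝ (Fin n))))
    (fun y' => g y' * gk (1 / (4 * h)) (y - y')) y
  rw [← e3]
  congr 1
  funext w
  congr 1
  unfold gk
  rw [sub_add_cancel_left, norm_neg]

lemma Rf_eq_sperm (i : Fin n) (x : EuclideanSpace ℝ (Fin n)) :
    Rf i x = sperm (Equiv.refl _) (fun k => if k = i then -1 else 1) x := by
  ext k
  rw [Rf_apply]
  by_cases hk : k = i <;> simp [sperm, hk]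

lemma gauss_refl (R : EuclideanSpace ℝ (Fin n) ≃ₗᵢ[ℝ] EuclideanSpace ℝ (Fin n))
    (F : EuclideanSpace ℝ (Fin n) → ℝ) :
    ∫ z, F (R z) ∂(stdGaussian (EuclideanSpace ℝ (Fin n))) =
      ∫ z, F z ∂(stdGaussian (EuclideanSpace ℝ (Fin n))) := by
  have h1 := stdGaussian_map R
  conv_rhs => rw [← h1]
  have hme : MeasurableEmbedding (R : EuclideanSpace ℝ (Fin n) → EuclideanSpace ℝ (Fin n)) :=
    R.toHomeomorph.measurableEmbedding
  rw [hme.integral_map]

lemma tu_refl (hD : ∀ i x, D (Rf i x) = Rf i (D x)) (h : ℝ) (i : Fin n)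
    (x : EuclideanSpace ℝ (Fin n)) : tu D h (Rf i x) = Rf i (tu D h x) := by
  unfold tu
  rw [hD, map_sub, map_smul]

lemma PP_comp_refl (hD : ∀ i x, D (Rf i x) = Rf i (D x)) (h : ℝ) (i : Fin n)
    (g : EuclideanSpace ℝ (Fin n) → ℝ) (x : EuclideanSpace ℝ (Fin n)) :
    PP D h g (Rf i x) = PP D h (fun y => g (Rf i y)) x := by
  unfold PP
  rw [tu_refl hD, ← gauss_refl (Rf i)]
  congr 1
  funext z
  show g (Rf i (tu D h x) + Real.sqrt (2 * h) • Rf i z) =
    g (Rf i (tu D h x + Real.sqrt (2 * h) • z))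
  rw [map_add, map_smul]

lemma grad_odd {f : EuclideanSpace ℝ (Fin n) → ℝ} (hf : ContDiff ℝ 1 f) {i : Fin n}
    (he : ∀ x, f (Rf i x) = f x) (x : EuclideanSpace ℝ (Fin n)) :
    fderiv ℝ f (Rf i x) (ej i) = - fderiv ℝ f x (ej i) := by
  have h1 : HasFDerivAt f (fderiv ℝ f (Rf i x)) (Rf i x) :=
    (hf.differentiable (by simp)).differentiableAt.hasFDerivAt
  have h2 : HasFDerivAt (fun x => Rf i x)
    ((Rf i).toContinuousLinearEquiv : EuclideanSpace ℝ (Fin n) →L[ℝ] EuclideanSpace ℝ (Fin n)) x :=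
    (Rf i).toContinuousLinearEquiv.hasFDerivAt
  have h3 := h1.comp x h2
  have h4 : (f ∘ fun x => Rf i x) = f := funext he
  rw [h4] at h3
  rw [h3.fderiv]
  simp only [ContinuousLinearMap.comp_apply, ContinuousLinearEquiv.coe_coe,
    LinearIsometryEquiv.coe_toContinuousLinearEquiv]
  rw [Rf_ej, map_neg, neg_neg]

lemma odd_bound {u : EuclideanSpace ℝ (Fin n) → ℝ} {U L : ℝ} (hu : TF u U L) {i : Fin n}
    (ho : ∀ x, u (Rf i x) = - u x) (x : EuclideanSpace ℝ (Fin n)) : |u x| ≤ L * |x i| := by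
  set x0 : EuclideanSpace ℝ (Fin n) := x - (x i) • ej i with hx0
  have h1 : Rf i x0 = x0 := by
    ext k
    rw [Rf_apply]
    by_cases hk : k = i
    · subst hk; simp [hx0, ej]
    · simp [hk]
  have h2 : u x0 = 0 := by
    have := ho x0
    rw [h1] at this
    linarith
  have h3 := convex_univ.norm_image_sub_le_of_norm_fderiv_le (𝕜 := ℝ)
    (fun x _ => (hu.cd.differentiable (by simp)).differentiableAt (x := x)) (fun x _ => hu.gd x)
    (Set.mem_univ x0) (Set.mem_univ x)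
  rw [h2, sub_zero, Real.norm_eq_abs] at h3
  have h4 : x - x0 = (x i) • ej i := by rw [hx0]; abel
  rwa [h4, norm_smul, ej_norm, mul_one, Real.norm_eq_abs] at h3

/-- components of the averaged gradient -/
lemma GG_apply {f : EuclideanSpace ℝ (Fin n) → ℝ} {b l L : ℝ} (hf : CL f b l L) (h : ℝ)
    (x v : EuclideanSpace ℝ (Fin n)) :
    GG D h f x v = PP D h (fun y => fderiv ℝ f y v) x := by
  unfold GG PP
  exact ContinuousLinearMap.integral_apply (GG_int hf h _) v

lemma CL.g_meas {f : EuclideanSpace ℝ (Fin n) → ℝ} {b l L : ℝ} (hf : CL f b l L)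
    (v : EuclideanSpace ℝ (Fin n)) : Continuous (fun y => fderiv ℝ f y v) :=
  hf.fdc.clm_apply continuous_const

lemma CL.g_bd {f : EuclideanSpace ℝ (Fin n) → ℝ} {b l L : ℝ} (hf : CL f b l L) (i : Fin n)
    (x : EuclideanSpace ℝ (Fin n)) : |fderiv ℝ f x (ej i)| ≤ l := by
  have := (fderiv ℝ f x).le_opNorm (ej i)
  rw [ej_norm, mul_one, Real.norm_eq_abs] at this
  exact this.trans (hf.gd x)

/-- the averaged partial derivatives are test functions, and their energy is controlled by the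
variance -/
lemma PP_g_TF (hP : Pot V D kap Lam C3) {f : EuclideanSpace ℝ (Fin n) → ℝ} {b l L : ℝ}
    (hf : CL f b l L) (hl : 0 < l) {h : ℝ} (hh : 0 < h) (h2 : h * (kap + Lam) ≤ 1) (i : Fin n) :
    (∃ U L', TF (PP D h (fun y => fderiv ℝ f y (ej i))) U L') ∧
    ∀ x, ‖fderiv ℝ (PP D h (fun y => fderiv ℝ f y (ej i))) x‖ ^ 2 ≤
      1 / (2 * h) * (PP D h (fun y => fderiv ℝ f y (ej i) ^ 2) x -
        PP D h (fun y => fderiv ℝ f y (ej i)) x ^ 2) := by
  set g : EuclideanSpace ℝ (Fin n) → ℝ := fun y => fderiv ℝ f y (ej i) with hg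
  have hgc : Continuous g := hf.g_meas _
  have hgb : ∀ y, |g y| ≤ l := hf.g_bd i
  have hs : 0 < 1 / (4 * h) := by positivity
  have hcd := gconv_contDiff' hs hl hgc.measurable hgb
  have e1 : PP D h g = fun x => gconv (1 / (4 * h)) g (tu D h x) := by
    funext x; exact PP_gconv hh hgc.measurable x
  have hfd : ∀ x, fderiv ℝ (PP D h g) x =
      (fderiv ℝ (gconv (1 / (4 * h)) g) (tu D h x)).comp (fderiv ℝ (tu D h) x) := by
    intro x
    rw [e1]
    exact ((hcd.differentiable (by simp)).differentiableAt.hasFDerivAt.comp x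
      (tu_hasFDerivAt hP h x)).fderiv
  have hbd : ∀ x, ‖fderiv ℝ (PP D h g) x‖ ^ 2 ≤
      1 / (2 * h) * (PP D h (fun y => g y ^ 2) x - PP D h g x ^ 2) := by
    intro x
    have h3 := gconv_grad' hs hl hgc.measurable hgb (tu D h x)
    rw [← PP_gconv hh hgc.measurable x, ← PP_gconv hh (hgc.measurable.pow_const 2) x] at h3
    have h4 : ‖fderiv ℝ (PP D h g) x‖ ≤ ‖fderiv ℝ (gconv (1 / (4 * h)) g) (tu D h x)‖ := by
      rw [hfd]
      refine (ContinuousLinearMap.opNorm_comp_le _ _).trans ?_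
      apply mul_le_of_le_one_right (norm_nonneg _)
      exact (tu_fderiv_norm hP hh.le h2 x).trans (kh_le hP hh.le h2).2
    have h5 : (2 : ℝ) * (1 / (4 * h)) = 1 / (2 * h) := by field_simp; norm_num
    rw [h5] at h3
    exact (pow_le_pow_left₀ (norm_nonneg _) h4 2).trans h3
  refine ⟨⟨l, Real.sqrt (1 / (2 * h) * l ^ 2), ?_, ?_, ?_⟩, hbd⟩
  · rw [e1]
    exact hcd.comp (tu_contDiff hP h)
  · intro x
    rw [e1]
    exact gconv_abs_le' hs hl hgb _
  · intro x
    apply Real.le_sqrt_of_sq_le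
    refine (hbd x).trans ?_
    apply mul_le_mul_of_nonneg_left _ (by positivity)
    have h6 : PP D h (fun y => g y ^ 2) x ≤ l ^ 2 := by
      rw [PP_gconv hh (hgc.measurable.pow_const 2)]
      refine (le_abs_self _).trans (gconv_abs_le' hs (by positivity) (fun y => ?_) _)
      rw [abs_pow]
      exact pow_le_pow_left₀ (abs_nonneg _) (hgb y) 2
    have h7 := sq_nonneg (PP D h g x)
    linarith

/-- the bias in terms of the operator -/
lemma PP_bias (hP : Pot V D kap Lam C3) {h : ℝ} (hh : 0 < h) (h1 : h ≤ 1)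
    {u : EuclideanSpace ℝ (Fin n) → ℝ} {l B : ℝ} (hl : 0 ≤ l)
    (hu : ∀ x y, |u x - u y| ≤ l * ‖x - y‖) (hB : ∀ x, |u x| ≤ B) :
    |∫ x, PP D h u x ∂(tgt V) - ∫ x, u x ∂(tgt V)| ≤ l * h ^ 2 * (C0 V D Lam C3).toReal := by
  have hfin := tgt_finite hP
  have huc := lip_continuous hl hu
  have hDc : Continuous D := hP.cD.continuous
  set γ := stdGaussian (EuclideanSpace ℝ (Fin n)) with hγ
  have i1 : Integrable (fun p : EuclideanSpace ℝ (Fin n) × EuclideanSpace ℝ (Fin n) =>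
      u (upd D h p)) ((tgt V).prod γ) := by
    refine (integrable_const B).mono' ?_ (ae_of_all _ fun p => by
      rw [Real.norm_eq_abs]; exact hB _)
    exact (huc.measurable.comp (upd_measurable hP h)).aestronglyMeasurable
  have i2 : Integrable (fun p : EuclideanSpace ℝ (Fin n) × EuclideanSpace ℝ (Fin n) =>
      u p.1) ((tgt V).prod γ) := by
    refine (integrable_const B).mono' ?_ (ae_of_all _ fun p => by
      rw [Real.norm_eq_abs]; exact hB _)
    exact (huc.measurable.comp measurable_fst).aestronglyMeasurable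
  have e : ∫ x, PP D h u x ∂(tgt V) - ∫ x, u x ∂(tgt V) =
      ∫ p, (u (upd D h p) - u p.1) ∂((tgt V).prod γ) := by
    rw [integral_sub i1 i2, integral_prod _ i1, integral_prod _ i2]
    congr 1
    simp
  rw [e]
  have h5 := bias hP hh h1 hl hu
  have h7 := ENNReal.toReal_mono (ENNReal.mul_ne_top ENNReal.ofReal_ne_top
    (C0_lt_top hP).ne) h5
  rw [toReal_enorm, Real.norm_eq_abs, ENNReal.toReal_mul,
    ENNReal.toReal_ofReal (by positivity)] at h7
  exact h7

lemma PP_cont (hP : Pot V D kap Lam C3) {u : EuclideanSpace ℝ (Fin n) → ℝ} (hu : Continuous u)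
    {B : ℝ} (hB : ∀ x, |u x| ≤ B) (h : ℝ) : Continuous (PP D h u) := by
  unfold PP
  rw [continuous_iff_continuousAt]
  intro x
  have htc : Continuous (tu D h) := (tu_contDiff hP h).continuous
  apply continuousAt_of_dominated (bound := fun _ => B)
  · filter_upwards with x'
    exact (hu.comp (aff_continuous _ _)).aestronglyMeasurable
  · filter_upwards with x'
    exact ae_of_all _ fun z => by rw [Real.norm_eq_abs]; exact hB _
  · exact integrable_const _
  · apply ae_of_all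
    intro z
    exact (hu.comp (htc.add continuous_const)).continuousAt

lemma PP_bd {u : EuclideanSpace ℝ (Fin n) → ℝ}
    {B : ℝ} (hB : ∀ x, |u x| ≤ B) (h : ℝ) (x : EuclideanSpace ℝ (Fin n)) : |PP D h u x| ≤ B := by
  unfold PP
  rw [← Real.norm_eq_abs]
  refine (norm_integral_le_of_norm_le_const (C := B) (ae_of_all _ fun z => ?_)).trans ?_
  · rw [Real.norm_eq_abs]; exact hB _
  · simp

/-- decay of the energy -/
theorem energy_step (hP : Pot V D kap Lam C3) (hD : ∀ i x, D (Rf i x) = Rf i (D x))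
    {Co : ℝ} (hCo : 0 < Co)
    (hO : ∀ (i : Fin n) (u : EuclideanSpace ℝ (Fin n) → ℝ) (U L : ℝ), TF u U L →
      (∀ x, |u x| ≤ L * |x i|) →
      ∫ x, u x ^ 2 ∂(tgt V) ≤ Co * ∫ x, ‖fderiv ℝ u x‖ ^ 2 ∂(tgt V))
    {f : EuclideanSpace ℝ (Fin n) → ℝ} {b l L : ℝ} (hf : CL f b l L) (hl : 0 < l) (hL : 0 ≤ L)
    (he : ∀ i x, f (Rf i x) = f x)
    {h : ℝ} (hh : 0 < h) (h1 : h ≤ 1) (h2 : h * (kap + Lam) ≤ 1) :
    (1 + 2 * h / Co) * ∫ x, ‖fderiv ℝ (PP D h f) x‖ ^ 2 ∂(tgt V) ≤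
      ∫ x, ‖fderiv ℝ f x‖ ^ 2 ∂(tgt V) + (2 * l * L) * h ^ 2 * (C0 V D Lam C3).toReal := by
  have hfin := tgt_finite hP
  have hgc : ∀ i, Continuous (fun y => fderiv ℝ f y (ej i)) := fun i => hf.g_meas _
  have hgb : ∀ i y, |fderiv ℝ f y (ej i)| ≤ l := fun i => hf.g_bd i
  have hg2b : ∀ i y, |fderiv ℝ f y (ej i) ^ 2| ≤ l ^ 2 := fun i y => by
    rw [abs_pow]; exact pow_le_pow_left₀ (abs_nonneg _) (hgb i y) 2
  set w : Fin n → EuclideanSpace ℝ (Fin n) → ℝ := fun i => PP D h (fun y => fderiv ℝ f y (ej i))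
    with hw
  set q : Fin n → EuclideanSpace ℝ (Fin n) → ℝ := fun i => PP D h (fun y => fderiv ℝ f y (ej i) ^ 2)
    with hq
  have hwc : ∀ i, Continuous (w i) := fun i => PP_cont hP (hgc i) (hgb i) h
  have hqc : ∀ i, Continuous (q i) := fun i => PP_cont hP ((hgc i).pow 2) (hg2b i) h
  have hwb : ∀ i x, |w i x| ≤ l := fun i x => PP_bd (hgb i) h x
  have hqb : ∀ i x, |q i x| ≤ l ^ 2 := fun i x => PP_bd (hg2b i) h x
  have bint : ∀ {F : EuclideanSpace ℝ (Fin n) → ℝ} {B : ℝ}, Continuous F → (∀ x, |F x| ≤ B) →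
      Integrable F (tgt V) := by
    intro F B hF hB
    exact (integrable_const B).mono' hF.aestronglyMeasurable (ae_of_all _ fun x => by
      rw [Real.norm_eq_abs]; exact hB x)
  have iw : ∀ i, Integrable (fun x => w i x ^ 2) (tgt V) := fun i =>
    bint ((hwc i).pow 2) (B := l ^ 2) (fun x => by
      show |w i x ^ 2| ≤ l ^ 2
      rw [abs_pow]; exact pow_le_pow_left₀ (abs_nonneg _) (hwb i x) 2)
  have iq : ∀ i, Integrable (q i) (tgt V) := fun i => bint (hqc i) (hqb i)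
  -- one coordinate
  have key : ∀ i, (1 + 2 * h / Co) * ∫ x, w i x ^ 2 ∂(tgt V) ≤ ∫ x, q i x ∂(tgt V) := by
    intro i
    obtain ⟨⟨U, L', hTF⟩, hgr⟩ := PP_g_TF hP hf hl hh h2 i
    have hodd : ∀ x, w i (Rf i x) = - w i x := by
      intro x
      rw [hw]
      simp only []
      rw [PP_comp_refl hD]
      unfold PP
      rw [← integral_neg]
      congr 1
      funext z
      exact grad_odd hf.cd (he i) _
    have h3 := hO i (w i) U L' hTF (odd_bound hTF hodd)
    have hgi : Integrable (fun x => ‖fderiv ℝ (w i) x‖ ^ 2) (tgt V) :=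
      bint ((hTF.cd.continuous_fderiv (by simp)).norm.pow 2) (B := L' ^ 2) (fun x => by
        show |‖fderiv ℝ (w i) x‖ ^ 2| ≤ L' ^ 2
        rw [abs_of_nonneg (by positivity)]
        exact pow_le_pow_left₀ (norm_nonneg _) (hTF.gd x) 2)
    have h4 : ∫ x, ‖fderiv ℝ (w i) x‖ ^ 2 ∂(tgt V) ≤
        1 / (2 * h) * (∫ x, q i x ∂(tgt V) - ∫ x, w i x ^ 2 ∂(tgt V)) := by
      rw [← integral_sub (iq i) (iw i), ← integral_const_mul]
      apply integral_mono hgi (((iq i).sub (iw i)).const_mul _)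
      intro x
      exact hgr x
    have h5 := h3.trans (mul_le_mul_of_nonneg_left h4 hCo.le)
    have h6 := mul_le_mul_of_nonneg_left h5 (by positivity : 0 ≤ 2 * h / Co)
    have h7 : 2 * h / Co * (Co * (1 / (2 * h) * (∫ x, q i x ∂(tgt V) -
        ∫ x, w i x ^ 2 ∂(tgt V)))) = ∫ x, q i x ∂(tgt V) - ∫ x, w i x ^ 2 ∂(tgt V) := by
      field_simp
    rw [h7] at h6
    linarith
  -- the sum
  have s1 : ∫ x, ‖fderiv ℝ (PP D h f) x‖ ^ 2 ∂(tgt V) ≤ ∑ i, ∫ x, w i x ^ 2 ∂(tgt V) := by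
    rw [← integral_finsetSum _ fun i _ => iw i]
    have hi : Integrable (fun x => ‖fderiv ℝ (PP D h f) x‖ ^ 2) (tgt V) := by
      have hgd : ∀ x, ‖fderiv ℝ (PP D h f) x‖ ≤ l := by
        intro x
        rw [(PP_hasFDerivAt hP hf hh.le h2 x).fderiv]
        refine (ContinuousLinearMap.opNorm_comp_le _ _).trans ?_
        have h3 := mul_le_mul (GG_norm (D := D) hf h x) (tu_fderiv_norm hP hh.le h2 x)
          (norm_nonneg _) hl.le
        have h4 := mul_le_of_le_one_right hl.le (kh_le hP hh.le h2).2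
        linarith
      have hm : Measurable (fderiv ℝ (PP D h f)) := measurable_fderiv ℝ _
      refine (integrable_const (l ^ 2)).mono' (hm.norm.pow_const 2).aestronglyMeasurable
        (ae_of_all _ fun x => ?_)
      rw [Real.norm_eq_abs, abs_of_nonneg (by positivity)]
      exact pow_le_pow_left₀ (norm_nonneg _) (hgd x) 2
    apply integral_mono hi (integrable_finsetSum _ fun i _ => iw i)
    intro x
    show ‖fderiv ℝ (PP D h f) x‖ ^ 2 ≤ ∑ i, w i x ^ 2
    have h3 : ‖fderiv ℝ (PP D h f) x‖ ≤ ‖GG D h f x‖ := by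
      rw [(PP_hasFDerivAt hP hf hh.le h2 x).fderiv]
      refine (ContinuousLinearMap.opNorm_comp_le _ _).trans ?_
      apply mul_le_of_le_one_right (norm_nonneg _)
      exact (tu_fderiv_norm hP hh.le h2 x).trans (kh_le hP hh.le h2).2
    refine (pow_le_pow_left₀ (norm_nonneg _) h3 2).trans ?_
    rw [opNorm_sq]
    apply le_of_eq
    apply Finset.sum_congr rfl
    intro i _
    rw [GG_apply hf]
  have s2 : ∑ i, ∫ x, q i x ∂(tgt V) = ∫ x, PP D h (fun y => ‖fderiv ℝ f y‖ ^ 2) x ∂(tgt V) := by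
    rw [← integral_finsetSum _ fun i _ => iq i]
    congr 1
    funext x
    rw [hq]
    unfold PP
    simp only []
    rw [← integral_finsetSum]
    · congr 1
      funext z
      rw [opNorm_sq]
    · intro i _
      refine (integrable_const (l ^ 2)).mono'
        (((hgc i).pow 2).comp (aff_continuous _ _)).aestronglyMeasurable (ae_of_all _ fun z => ?_)
      rw [Real.norm_eq_abs]
      exact hg2b i _
  have hlipg : ∀ x y, |‖fderiv ℝ f x‖ ^ 2 - ‖fderiv ℝ f y‖ ^ 2| ≤ (2 * l * L) * ‖x - y‖ := by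
    intro x y
    have e : ‖fderiv ℝ f x‖ ^ 2 - ‖fderiv ℝ f y‖ ^ 2 =
      (‖fderiv ℝ f x‖ + ‖fderiv ℝ f y‖) * (‖fderiv ℝ f x‖ - ‖fderiv ℝ f y‖) := by ring
    rw [e, abs_mul, abs_of_nonneg (by positivity)]
    have h3 : |‖fderiv ℝ f x‖ - ‖fderiv ℝ f y‖| ≤ L * ‖x - y‖ :=
      (abs_norm_sub_norm_le _ _).trans (hf.hd x y)
    have h4 : ‖fderiv ℝ f x‖ + ‖fderiv ℝ f y‖ ≤ 2 * l := by
      linarith [hf.gd x, hf.gd y]
    calc _ ≤ (2 * l) * (L * ‖x - y‖) := mul_le_mul h4 h3 (abs_nonneg _) (by positivity)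
      _ = _ := by ring
  have s3 := PP_bias hP hh h1 (u := fun y => ‖fderiv ℝ f y‖ ^ 2) (l := 2 * l * L) (B := l ^ 2)
    (by positivity) hlipg (fun x => by
      show |‖fderiv ℝ f x‖ ^ 2| ≤ l ^ 2
      rw [abs_of_nonneg (by positivity)]
      exact pow_le_pow_left₀ (norm_nonneg _) (hf.gd x) 2)
  have s4 := (_root_.abs_le.mp s3).2
  have s5 := Finset.sum_le_sum fun i (_ : i ∈ Finset.univ) => key i
  rw [← Finset.mul_sum, s2] at s5
  have s6 := mul_le_mul_of_nonneg_left s1 (by positivity : 0 ≤ 1 + 2 * h / Co)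
  linarith

end Pool.Agent.Lib.MP_6d896a_gt
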