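import Mathlib
import Pool.Agent.Lib.MP_6d896a_gt.Sym10

/-!
The transition operator (3): the variance along the chain and the Poincare inequality for even
functions.
-/

namespace Pool.Agent.Lib.MP_6d896a_gt

open MeasureTheory ProbabilityTheory Filter Topology Metric
open scoped ENNReal NNReal

variable {n : ℕ} {V : EuclideanSpace ℝ (Fin n) → ℝ}
  {D : EuclideanSpace ℝ (Fin n) → EuclideanSpace ℝ (Fin n)} {kap Lam C3 LH : ℝ}

lemma tgt_sq_moment (hP : Pot V D kap Lam C3) : Integrable (fun x => ‖x‖ ^ 2) (tgt V) := by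
  unfold tgt
  have hmV : Measurable (fun x => ENNReal.ofReal (Real.exp (-V x))) :=
    (Real.measurable_exp.comp hP.cV.measurable.neg).ennreal_ofReal
  have hm2 : Measurable (fun x : EuclideanSpace ℝ (Fin n) => ‖x‖ ^ 2) := by fun_prop
  refine ⟨hm2.aestronglyMeasurable, ?_⟩
  unfold HasFiniteIntegral
  rw [lintegral_withDensity_eq_lintegral_mul _ hmV hm2.enorm]
  refine lt_of_le_of_lt ?_ hP.mom
  apply lintegral_mono
  intro x
  simp only [Pi.mul_apply]
  rw [ENNReal.ofReal_mul (Real.exp_pos _).le]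
  gcongr
  rw [Real.enorm_eq_ofReal (by positivity)]
  apply ENNReal.ofReal_le_ofReal
  have := norm_nonneg x
  calc ‖x‖ ^ 2 ≤ (1 + ‖x‖) ^ 2 := by gcongr; linarith
    _ ≤ (1 + ‖x‖) ^ 4 := pow_le_pow_right₀ (by linarith) (by norm_num)

lemma tgt_D_moment (hP : Pot V D kap Lam C3) : Integrable (fun x => ‖D x‖) (tgt V) := by
  have hfin := tgt_finite hP
  have h1 := tgt_moment hP
  have h2 : Integrable (fun x => ‖D 0‖ + Lam * ‖x‖) (tgt V) :=
    (integrable_const _).add (h1.const_mul _)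
  refine h2.mono' hP.cD.continuous.norm.measurable.aestronglyMeasurable (ae_of_all _ fun x => ?_)
  rw [norm_norm]
  have h6 := hP.lip x 0
  rw [sub_zero] at h6
  have h7 := norm_sub_norm_le (D x) (D 0)
  linarith

/-- unnormalised variance -/
noncomputable def WV (V : EuclideanSpace ℝ (Fin n) → ℝ) (f : EuclideanSpace ℝ (Fin n) → ℝ) : ℝ :=
  (tgt V).real Set.univ * ∫ x, f x ^ 2 ∂(tgt V) - (∫ x, f x ∂(tgt V)) ^ 2

lemma taylor {f : EuclideanSpace ℝ (Fin n) → ℝ} {b l L : ℝ} (hf : CL f b l L) (hL : 0 ≤ L)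
    (y w : EuclideanSpace ℝ (Fin n)) :
    |f (y + w) - f y - fderiv ℝ f y w| ≤ L * ‖w‖ ^ 2 := by
  have hd : ∀ x, HasFDerivAt f (fderiv ℝ f x) x := fun x =>
    (hf.cd.differentiable (by simp)).differentiableAt.hasFDerivAt
  have h1 := (convex_closedBall y ‖w‖).norm_image_sub_le_of_norm_hasFDerivWithin_le' (𝕜 := ℝ)
    (f := f) (f' := fun x => fderiv ℝ f x) (φ := fderiv ℝ f y) (C := L * ‖w‖)
    (fun x _ => (hd x).hasFDerivWithinAt) (fun x hx => by
      refine (hf.hd x y).trans (mul_le_mul_of_nonneg_left ?_ hL)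
      rwa [mem_closedBall_iff_norm] at hx)
    (mem_closedBall_self (norm_nonneg w)) (show y + w ∈ closedBall y ‖w‖ by
      rw [mem_closedBall_iff_norm, add_sub_cancel_left])
  rw [add_sub_cancel_left, Real.norm_eq_abs] at h1
  calc _ ≤ _ := h1
    _ = _ := by ring

/-- pointwise variance of one step -/
lemma PP_var {f : EuclideanSpace ℝ (Fin n) → ℝ} {b l L : ℝ} (hf : CL f b l L) (hL : 0 ≤ L)
    {h : ℝ} (hh : 0 ≤ h) (x : EuclideanSpace ℝ (Fin n)) :
    PP D h (fun y => f y ^ 2) x - PP D h f x ^ 2 ≤ 2 * h * ‖fderiv ℝ f (tu D h x)‖ ^ 2 +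
      (2 * l * L * Real.sqrt (2 * h) ^ 3 *
        (∫ z, ‖z‖ ^ 3 ∂(stdGaussian (EuclideanSpace ℝ (Fin n)))) +
      L ^ 2 * Real.sqrt (2 * h) ^ 4 *
        (∫ z, ‖z‖ ^ 4 ∂(stdGaussian (EuclideanSpace ℝ (Fin n))))) := by
  obtain ⟨hb, hl⟩ := hf.nonneg
  set γ := stdGaussian (EuclideanSpace ℝ (Fin n)) with hγ
  set y := tu D h x with hy
  set β := Real.sqrt (2 * h) with hβ
  have hβ0 : 0 ≤ β := Real.sqrt_nonneg _
  have hβ2 : β ^ 2 = 2 * h := Real.sq_sqrt (by linarith)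
  have hfc := hf.cd.continuous
  have hφc : Continuous (fun z => f (y + β • z)) := hfc.comp (aff_continuous _ _)
  have iφ : Integrable (fun z => f (y + β • z)) γ :=
    (integrable_const b).mono' hφc.aestronglyMeasurable (ae_of_all _ fun z => by
      rw [Real.norm_eq_abs]; exact hf.bd _)
  have iφ2 : Integrable (fun z => f (y + β • z) ^ 2) γ :=
    (integrable_const (b ^ 2)).mono' (hφc.pow 2).aestronglyMeasurable (ae_of_all _ fun z => by
      rw [Real.norm_eq_abs, abs_pow]; exact pow_le_pow_left₀ (abs_nonneg _) (hf.bd _) 2)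
  -- variance is at most the second moment about f y
  have e1 : PP D h (fun y => f y ^ 2) x - PP D h f x ^ 2 ≤ ∫ z, (f (y + β • z) - f y) ^ 2 ∂γ := by
    have e2 : ∫ z, (f (y + β • z) - f y) ^ 2 ∂γ =
        (∫ z, f (y + β • z) ^ 2 ∂γ) - 2 * f y * (∫ z, f (y + β • z) ∂γ) + f y ^ 2 := by
      have : ∀ z, (f (y + β • z) - f y) ^ 2 =
        f (y + β • z) ^ 2 - 2 * f y * f (y + β • z) + f y ^ 2 := fun z => by ring
      simp only [this]
      have i1 : Integrable (fun z => f (y + β • z) ^ 2 - 2 * f y * f (y + β • z)) γ :=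
        iφ2.sub (iφ.const_mul _)
      rw [integral_add i1 (integrable_const _), integral_sub iφ2 (iφ.const_mul _),
        integral_const_mul]
      simp
    rw [e2]
    have e3 : PP D h (fun y => f y ^ 2) x = ∫ z, f (y + β • z) ^ 2 ∂γ := rfl
    have e4 : PP D h f x = ∫ z, f (y + β • z) ∂γ := rfl
    rw [e3, e4]
    nlinarith [sq_nonneg ((∫ z, f (y + β • z) ∂γ) - f y)]
  refine e1.trans ?_
  -- linear part
  have hmem : MemLp (fun z => fderiv ℝ f y z) 2 γ :=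
    IsGaussian.memLp_dual γ (fderiv ℝ f y) 2 (by simp)
  have hvar := variance_dual_stdGaussian (fderiv ℝ f y)
  have h0 : ∫ z, fderiv ℝ f y z ∂γ = 0 := integral_strongDual_stdGaussian _
  rw [variance_eq_sub hmem] at hvar
  have hlin : ∫ z, (fderiv ℝ f y z) ^ 2 ∂γ = ‖fderiv ℝ f y‖ ^ 2 := by
    have h3 : (∫ z, ((fun z => fderiv ℝ f y z) ^ 2) z ∂γ) = ∫ z, (fderiv ℝ f y z) ^ 2 ∂γ := rfl
    rw [h3, h0] at hvar
    linarith
  have i3 := gauss_pow (n := n) 3
  have i4 := gauss_pow (n := n) 4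
  have il : Integrable (fun z => (fderiv ℝ f y z) ^ 2) γ := hmem.integrable_sq
  have i0 : Integrable (fun z => (f (y + β • z) - f y) ^ 2) γ := by
    refine (integrable_const ((2 * b) ^ 2)).mono' ((hφc.sub continuous_const).pow 2).aestronglyMeasurable
      (ae_of_all _ fun z => ?_)
    rw [Real.norm_eq_abs, abs_pow]
    apply pow_le_pow_left₀ (abs_nonneg _)
    refine (abs_sub _ _).trans ?_
    linarith [hf.bd (y + β • z), hf.bd y]
  have k1 : Integrable (fun z => β ^ 2 * (fderiv ℝ f y z) ^ 2) γ := il.const_mul _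
  have k2 : Integrable (fun z : EuclideanSpace ℝ (Fin n) => 2 * l * L * β ^ 3 * ‖z‖ ^ 3) γ :=
    i3.const_mul _
  have k3 : Integrable (fun z : EuclideanSpace ℝ (Fin n) => L ^ 2 * β ^ 4 * ‖z‖ ^ 4) γ :=
    i4.const_mul _
  have k12 : Integrable (fun z => β ^ 2 * (fderiv ℝ f y z) ^ 2 + 2 * l * L * β ^ 3 * ‖z‖ ^ 3) γ :=
    k1.add k2
  calc ∫ z, (f (y + β • z) - f y) ^ 2 ∂γ
      ≤ ∫ z, (β ^ 2 * (fderiv ℝ f y z) ^ 2 + 2 * l * L * β ^ 3 * ‖z‖ ^ 3 +
          L ^ 2 * β ^ 4 * ‖z‖ ^ 4) ∂γ := by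
        apply integral_mono i0 (k12.add k3)
        intro z
        show (f (y + β • z) - f y) ^ 2 ≤ β ^ 2 * (fderiv ℝ f y z) ^ 2 + 2 * l * L * β ^ 3 * ‖z‖ ^ 3 +
          L ^ 2 * β ^ 4 * ‖z‖ ^ 4
        have ht := taylor hf hL y (β • z)
        rw [map_smul, smul_eq_mul, norm_smul, Real.norm_eq_abs, abs_of_nonneg hβ0] at ht
        set R := f (y + β • z) - f y - β * fderiv ℝ f y z with hR
        have hA : |fderiv ℝ f y z| ≤ l * ‖z‖ := by
          have := (fderiv ℝ f y).le_opNorm z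
          rw [Real.norm_eq_abs] at this
          exact this.trans (mul_le_mul_of_nonneg_right (hf.gd y) (norm_nonneg _))
        have e5 : f (y + β • z) - f y = β * fderiv ℝ f y z + R := by rw [hR]; ring
        rw [e5]
        have hz := norm_nonneg z
        have h5 : (fderiv ℝ f y z) * R ≤ (l * ‖z‖) * (L * (β * ‖z‖) ^ 2) := by
          refine (le_abs_self _).trans ?_
          rw [abs_mul]
          exact mul_le_mul hA ht (abs_nonneg _) (by positivity)
        have h6 : R ^ 2 ≤ (L * (β * ‖z‖) ^ 2) ^ 2 := by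
          rw [← sq_abs R]
          exact pow_le_pow_left₀ (abs_nonneg _) ht 2
        have h7 := mul_le_mul_of_nonneg_left h5 (by positivity : 0 ≤ 2 * β)
        nlinarith
    _ = _ := by
        rw [integral_add k12 k3, integral_add k1 k2, integral_const_mul, integral_const_mul,
          integral_const_mul, hlin, hβ2]
        ring

/-- the constant of the variance step -/
noncomputable def KV (V : EuclideanSpace ℝ (Fin n) → ℝ)
    (D : EuclideanSpace ℝ (Fin n) → EuclideanSpace ℝ (Fin n)) (Lam C3 b l L : ℝ) : ℝ :=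
  (tgt V).real Set.univ * (2 * b * l * (C0 V D Lam C3).toReal +
    4 * l * L * (∫ x, ‖D x‖ ∂(tgt V)) +
    (2 * l * L * 4 * (∫ z, ‖z‖ ^ 3 ∂(stdGaussian (EuclideanSpace ℝ (Fin n)))) +
      L ^ 2 * 4 * (∫ z, ‖z‖ ^ 4 ∂(stdGaussian (EuclideanSpace ℝ (Fin n))))) *
      (tgt V).real Set.univ) +
    2 * b * (tgt V).real Set.univ * (l * (C0 V D Lam C3).toReal)

lemma CL.sq_lip {f : EuclideanSpace ℝ (Fin n) → ℝ} {b l L : ℝ} (hf : CL f b l L)
    (x y : EuclideanSpace ℝ (Fin n)) : |f x ^ 2 - f y ^ 2| ≤ (2 * b * l) * ‖x - y‖ := by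
  obtain ⟨hb, hl⟩ := hf.nonneg
  have e : f x ^ 2 - f y ^ 2 = (f x + f y) * (f x - f y) := by ring
  rw [e, abs_mul]
  have h1 : |f x + f y| ≤ 2 * b := (abs_add_le _ _).trans (by linarith [hf.bd x, hf.bd y])
  calc _ ≤ (2 * b) * (l * ‖x - y‖) := mul_le_mul h1 (hf.lip x y) (abs_nonneg _) (by positivity)
    _ = _ := by ring

lemma bint_tgt (hP : Pot V D kap Lam C3) {F : EuclideanSpace ℝ (Fin n) → ℝ} {B : ℝ}
    (hF : Continuous F) (hB : ∀ x, |F x| ≤ B) : Integrable F (tgt V) := by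
  have hfin := tgt_finite hP
  exact (integrable_const B).mono' hF.aestronglyMeasurable (ae_of_all _ fun x => by
    rw [Real.norm_eq_abs]; exact hB x)

/-- the variance step -/
theorem var_step (hP : Pot V D kap Lam C3) {f : EuclideanSpace ℝ (Fin n) → ℝ} {b l L : ℝ}
    (hf : CL f b l L) (hL : 0 ≤ L) {h : ℝ} (hh : 0 < h) (h1 : h ≤ 1) :
    WV V f ≤ WV V (PP D h f) +
      2 * h * (tgt V).real Set.univ * (∫ x, ‖fderiv ℝ f x‖ ^ 2 ∂(tgt V)) +
      KV V D Lam C3 b l L * (h * Real.sqrt h) := by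
  obtain ⟨hb, hl⟩ := hf.nonneg
  have hfin := tgt_finite hP
  set M := (tgt V).real Set.univ with hM
  have hM0 : 0 ≤ M := measureReal_nonneg
  set c0 := (C0 V D Lam C3).toReal with hc0
  have hc00 : 0 ≤ c0 := ENNReal.toReal_nonneg
  set m3 := ∫ z, ‖z‖ ^ 3 ∂(stdGaussian (EuclideanSpace ℝ (Fin n))) with hm3
  set m4 := ∫ z, ‖z‖ ^ 4 ∂(stdGaussian (EuclideanSpace ℝ (Fin n))) with hm4
  have hm30 : 0 ≤ m3 := integral_nonneg fun z => by positivity
  have hm40 : 0 ≤ m4 := integral_nonneg fun z => by positivity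
  set d := ∫ x, ‖D x‖ ∂(tgt V) with hd
  have hd0 : 0 ≤ d := integral_nonneg fun z => norm_nonneg _
  set β := Real.sqrt (2 * h) with hβ
  have hβ0 : 0 ≤ β := Real.sqrt_nonneg _
  have hβ2 : β ^ 2 = 2 * h := Real.sq_sqrt (by linarith)
  set r := Real.sqrt h with hr
  have hr0 : 0 ≤ r := Real.sqrt_nonneg _
  have hr2 : r ^ 2 = h := Real.sq_sqrt hh.le
  have hr1 : r ≤ 1 := Real.sqrt_le_one.mpr h1
  have hβr : β ≤ 2 * r := by
    rw [hβ]
    apply Real.sqrt_le_iff.mpr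
    constructor
    · positivity
    · rw [mul_pow, hr2]; linarith
  have hhr : h ^ 2 ≤ h * r := by
    have : h ≤ r := by nlinarith
    nlinarith
  have hfc := hf.cd.continuous
  have hPc := PP_cont hP hfc hf.bd h
  have hPb := fun x => PP_bd (D := D) hf.bd h x
  have hf2b : ∀ x, |f x ^ 2| ≤ b ^ 2 := fun x => by
    rw [abs_pow]; exact pow_le_pow_left₀ (abs_nonneg _) (hf.bd x) 2
  have hQc := PP_cont hP (hfc.pow 2) hf2b h
  have hQb := fun x => PP_bd (D := D) hf2b h x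
  have i1 : Integrable f (tgt V) := bint_tgt hP hfc hf.bd
  have i2 : Integrable (fun x => f x ^ 2) (tgt V) := bint_tgt hP (hfc.pow 2) hf2b
  have i3 : Integrable (PP D h f) (tgt V) := bint_tgt hP hPc hPb
  have i4 : Integrable (fun x => PP D h f x ^ 2) (tgt V) :=
    bint_tgt hP (hPc.pow 2) (B := b ^ 2) (fun x => by
      show |PP D h f x ^ 2| ≤ b ^ 2
      rw [abs_pow]; exact pow_le_pow_left₀ (abs_nonneg _) (hPb x) 2)
  have i5 : Integrable (PP D h (fun y => f y ^ 2)) (tgt V) := bint_tgt hP hQc hQb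
  have htc : Continuous (tu D h) := (tu_contDiff hP h).continuous
  have i6 : Integrable (fun x => ‖fderiv ℝ f (tu D h x)‖ ^ 2) (tgt V) :=
    bint_tgt hP ((hf.fdc.comp htc).norm.pow 2) (B := l ^ 2) (fun x => by
      show |‖fderiv ℝ f (tu D h x)‖ ^ 2| ≤ l ^ 2
      rw [abs_of_nonneg (by positivity)]
      exact pow_le_pow_left₀ (norm_nonneg _) (hf.gd _) 2)
  have i7 : Integrable (fun x => ‖fderiv ℝ f x‖ ^ 2) (tgt V) :=
    bint_tgt hP (hf.fdc.norm.pow 2) (B := l ^ 2) (fun x => by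
      show |‖fderiv ℝ f x‖ ^ 2| ≤ l ^ 2
      rw [abs_of_nonneg (by positivity)]
      exact pow_le_pow_left₀ (norm_nonneg _) (hf.gd _) 2)
  have b1 := PP_bias hP hh h1 (by positivity : 0 ≤ 2 * b * l) hf.sq_lip hf2b
  have b2 := PP_bias hP hh h1 hl hf.lip hf.bd
  rw [← hc0] at b1 b2
  -- gradient at the moved point
  have g1 : ∫ x, ‖fderiv ℝ f (tu D h x)‖ ^ 2 ∂(tgt V) ≤
      ∫ x, ‖fderiv ℝ f x‖ ^ 2 ∂(tgt V) + 2 * l * L * h * d := by
    have : ∫ x, ‖fderiv ℝ f (tu D h x)‖ ^ 2 ∂(tgt V) ≤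
        ∫ x, (‖fderiv ℝ f x‖ ^ 2 + 2 * l * L * h * ‖D x‖) ∂(tgt V) := by
      apply integral_mono i6 (i7.add ((tgt_D_moment hP).const_mul _))
      intro x
      show ‖fderiv ℝ f (tu D h x)‖ ^ 2 ≤ ‖fderiv ℝ f x‖ ^ 2 + 2 * l * L * h * ‖D x‖
      have h3 : ‖fderiv ℝ f (tu D h x)‖ - ‖fderiv ℝ f x‖ ≤ L * (h * ‖D x‖) := by
        refine (norm_sub_norm_le _ _).trans ((hf.hd _ _).trans (le_of_eq ?_))
        unfold tu
        rw [sub_sub_cancel_left, norm_neg, norm_smul, Real.norm_eq_abs, abs_of_pos hh]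
      have h4 := hf.gd x
      have h5 := hf.gd (tu D h x)
      have h6 := norm_nonneg (fderiv ℝ f (tu D h x))
      have h7 := norm_nonneg (fderiv ℝ f x)
      have h8 : 0 ≤ L * (h * ‖D x‖) := by positivity
      have e : ‖fderiv ℝ f (tu D h x)‖ ^ 2 - ‖fderiv ℝ f x‖ ^ 2 =
        (‖fderiv ℝ f (tu D h x)‖ + ‖fderiv ℝ f x‖) *
        (‖fderiv ℝ f (tu D h x)‖ - ‖fderiv ℝ f x‖) := by ring
      have h9 : (‖fderiv ℝ f (tu D h x)‖ + ‖fderiv ℝ f x‖) *
        (‖fderiv ℝ f (tu D h x)‖ - ‖fderiv ℝ f x‖) ≤ (2 * l) * (L * (h * ‖D x‖)) := by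
        calc _ ≤ (‖fderiv ℝ f (tu D h x)‖ + ‖fderiv ℝ f x‖) * (L * (h * ‖D x‖)) :=
              mul_le_mul_of_nonneg_left h3 (by positivity)
          _ ≤ _ := mul_le_mul_of_nonneg_right (by linarith) h8
      linarith
    rw [integral_add i7 ((tgt_D_moment hP).const_mul _), integral_const_mul] at this
    exact this
  -- integrated variance
  have v1 : ∫ x, PP D h (fun y => f y ^ 2) x ∂(tgt V) - ∫ x, PP D h f x ^ 2 ∂(tgt V) ≤
      2 * h * (∫ x, ‖fderiv ℝ f (tu D h x)‖ ^ 2 ∂(tgt V)) +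
      (2 * l * L * β ^ 3 * m3 + L ^ 2 * β ^ 4 * m4) * M := by
    rw [← integral_sub i5 i4, ← integral_const_mul]
    have : (2 * l * L * β ^ 3 * m3 + L ^ 2 * β ^ 4 * m4) * M =
        ∫ _x, (2 * l * L * β ^ 3 * m3 + L ^ 2 * β ^ 4 * m4) ∂(tgt V) := by
      rw [integral_const, smul_eq_mul, mul_comm]
    rw [this, ← integral_add (i6.const_mul _) (integrable_const _)]
    apply integral_mono (i5.sub i4) ((i6.const_mul _).add (integrable_const _))
    intro x
    exact PP_var hf hL hh.le x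
  have hβ3 : β ^ 3 ≤ 4 * (h * r) := by
    have : β ^ 3 = β ^ 2 * β := by ring
    rw [this, hβ2]
    nlinarith
  have hβ4 : β ^ 4 ≤ 4 * (h * r) := by
    have : β ^ 4 = (β ^ 2) ^ 2 := by ring
    rw [this, hβ2]
    nlinarith
  have err : (2 * l * L * β ^ 3 * m3 + L ^ 2 * β ^ 4 * m4) * M ≤
      ((2 * l * L * 4 * m3 + L ^ 2 * 4 * m4) * M) * (h * r) := by
    have t1 : 2 * l * L * β ^ 3 * m3 ≤ 2 * l * L * (4 * (h * r)) * m3 := by gcongr
    have t2 : L ^ 2 * β ^ 4 * m4 ≤ L ^ 2 * (4 * (h * r)) * m4 := by gcongr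
    have t3 := mul_le_mul_of_nonneg_right (add_le_add t1 t2) hM0
    calc _ ≤ _ := t3
      _ = _ := by ring
  have hI0 : 0 ≤ ∫ x, ‖fderiv ℝ f x‖ ^ 2 ∂(tgt V) := integral_nonneg fun x => by positivity
  have s1 : ∫ x, f x ^ 2 ∂(tgt V) - ∫ x, PP D h f x ^ 2 ∂(tgt V) ≤
      2 * h * (∫ x, ‖fderiv ℝ f x‖ ^ 2 ∂(tgt V)) +
      (2 * b * l * c0 + 4 * l * L * d + (2 * l * L * 4 * m3 + L ^ 2 * 4 * m4) * M) * (h * r) := by
    have a1 := (_root_.abs_le.mp b1).1
    have a2 := mul_le_mul_of_nonneg_left g1 (by positivity : 0 ≤ 2 * h)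
    have a3 : 2 * b * l * h ^ 2 * c0 ≤ 2 * b * l * c0 * (h * r) := by
      have : 0 ≤ 2 * b * l * c0 := by positivity
      nlinarith
    have a4 : 2 * h * (2 * l * L * h * d) ≤ 4 * l * L * d * (h * r) := by
      have : 0 ≤ 4 * l * L * d := by positivity
      nlinarith
    linarith
  have s2 : -(2 * b * M * (l * c0) * (h * r)) ≤
      (∫ x, f x ∂(tgt V)) ^ 2 - (∫ x, PP D h f x ∂(tgt V)) ^ 2 := by
    have e : (∫ x, f x ∂(tgt V)) ^ 2 - (∫ x, PP D h f x ∂(tgt V)) ^ 2 =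
      (∫ x, f x ∂(tgt V) + ∫ x, PP D h f x ∂(tgt V)) *
      (∫ x, f x ∂(tgt V) - ∫ x, PP D h f x ∂(tgt V)) := by ring
    have n1 : |∫ x, f x ∂(tgt V)| ≤ b * M := by
      rw [← Real.norm_eq_abs]
      exact norm_integral_le_of_norm_le_const (ae_of_all _ fun x => by
        rw [Real.norm_eq_abs]; exact hf.bd x)
    have n2 : |∫ x, PP D h f x ∂(tgt V)| ≤ b * M := by
      rw [← Real.norm_eq_abs]
      exact norm_integral_le_of_norm_le_const (ae_of_all _ fun x => by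
        rw [Real.norm_eq_abs]; exact hPb x)
    rw [e]
    refine neg_le_of_abs_le ?_
    rw [abs_mul, abs_sub_comm (∫ x, f x ∂(tgt V))]
    have n3 : |∫ x, f x ∂(tgt V) + ∫ x, PP D h f x ∂(tgt V)| ≤ 2 * b * M :=
      (abs_add_le _ _).trans (by linarith)
    calc _ ≤ (2 * b * M) * (l * h ^ 2 * c0) := mul_le_mul n3 b2 (abs_nonneg _) (by positivity)
      _ = (2 * b * M * (l * c0)) * h ^ 2 := by ring
      _ ≤ (2 * b * M * (l * c0)) * (h * r) := mul_le_mul_of_nonneg_left hhr (by positivity)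
  unfold WV KV
  rw [← hM, ← hc0, ← hm3, ← hm4, ← hd]
  have s3 := mul_le_mul_of_nonneg_left s1 hM0
  linarith

end Pool.Agent.Lib.MP_6d896a_gt
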