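import Mathlib
import Pool.Agent.Lib.MP_6d896a_gt.Sym11

/-!
The Poincare inequality for even functions, and for all functions.
-/

namespace Pool.Agent.Lib.MP_6d896a_gt

open MeasureTheory ProbabilityTheory Filter Topology Metric
open scoped ENNReal NNReal

variable {n : ℕ} {V : EuclideanSpace ℝ (Fin n) → ℝ}
  {D : EuclideanSpace ℝ (Fin n) → EuclideanSpace ℝ (Fin n)} {kap Lam C3 LH : ℝ}

lemma CL.mono {f : EuclideanSpace ℝ (Fin n) → ℝ} {b l L b' l' L' : ℝ} (hf : CL f b l L)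
    (hb : b ≤ b') (hl : l ≤ l') (hL : L ≤ L') : CL f b' l' L' :=
  ⟨hf.cd, fun x => (hf.bd x).trans hb, fun x => (hf.gd x).trans hl,
    fun x y => (hf.hd x y).trans (mul_le_mul_of_nonneg_right hL (norm_nonneg _))⟩

lemma WV_le (hP : Pot V D kap Lam C3) {f : EuclideanSpace ℝ (Fin n) → ℝ} {b l L : ℝ}
    (hf : CL f b l L) :
    WV V f ≤ (tgt V).real Set.univ * (l ^ 2 * ∫ x, ‖x‖ ^ 2 ∂(tgt V)) := by
  have hfin := tgt_finite hP
  obtain ⟨hb, hl⟩ := hf.nonneg
  set M := (tgt V).real Set.univ with hM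
  have hM0 : 0 ≤ M := measureReal_nonneg
  have hfc := hf.cd.continuous
  have i1 : Integrable f (tgt V) := bint_tgt hP hfc hf.bd
  have i2 : Integrable (fun x => f x ^ 2) (tgt V) := bint_tgt hP (hfc.pow 2) (B := b ^ 2)
    (fun x => by
      show |f x ^ 2| ≤ b ^ 2
      rw [abs_pow]; exact pow_le_pow_left₀ (abs_nonneg _) (hf.bd x) 2)
  have e1 : ∫ x, (f x - f 0) ^ 2 ∂(tgt V) =
      ∫ x, f x ^ 2 ∂(tgt V) - 2 * f 0 * (∫ x, f x ∂(tgt V)) + M * f 0 ^ 2 := by
    have : ∀ x, (f x - f 0) ^ 2 = f x ^ 2 - 2 * f 0 * f x + f 0 ^ 2 := fun x => by ring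
    simp only [this]
    have i3 : Integrable (fun x => f x ^ 2 - 2 * f 0 * f x) (tgt V) := i2.sub (i1.const_mul _)
    rw [integral_add i3 (integrable_const _), integral_sub i2 (i1.const_mul _),
      integral_const_mul, integral_const, smul_eq_mul]
  have e2 : WV V f ≤ M * ∫ x, (f x - f 0) ^ 2 ∂(tgt V) := by
    rw [e1]
    unfold WV
    rw [← hM]
    nlinarith [sq_nonneg ((∫ x, f x ∂(tgt V)) - M * f 0)]
  refine e2.trans (mul_le_mul_of_nonneg_left ?_ hM0)
  rw [← integral_const_mul]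
  apply integral_mono
  · have e3 : ∀ x, (f x - f 0) ^ 2 = f x ^ 2 - 2 * f 0 * f x + f 0 ^ 2 := fun x => by ring
    simp only [e3]
    exact (i2.sub (i1.const_mul _)).add (integrable_const _)
  · exact (tgt_sq_moment hP).const_mul _
  · intro x
    show (f x - f 0) ^ 2 ≤ l ^ 2 * ‖x‖ ^ 2
    have := hf.lip x 0
    rw [sub_zero] at this
    rw [← sq_abs (f x - f 0), ← mul_pow]
    exact pow_le_pow_left₀ (abs_nonneg _) this 2

/-- the iterates stay in the class -/
lemma iter_CL (hP : Pot V D kap Lam C3) (hLH : 0 ≤ LH)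
    (hH : ∀ x y, ‖fderiv ℝ D x - fderiv ℝ D y‖ ≤ LH * ‖x - y‖)
    (hD : ∀ i x, D (Rf i x) = Rf i (D x))
    {f : EuclideanSpace ℝ (Fin n) → ℝ} {b l L : ℝ} (hf : CL f b l L) (hL : 0 ≤ L)
    (hLL : LH * l ≤ kap * L) (he : ∀ i x, f (Rf i x) = f x)
    {h : ℝ} (hh : 0 ≤ h) (h2 : h * (kap + Lam) ≤ 1) (k : ℕ) :
    CL ((PP D h)^[k] f) b ((1 - kap * h) ^ k * l) L ∧
      ∀ i x, ((PP D h)^[k] f) (Rf i x) = ((PP D h)^[k] f) x := by
  obtain ⟨hk0, hk1⟩ := kh_le hP hh h2
  obtain ⟨hb, hl⟩ := hf.nonneg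
  have hk := hP.kpos
  induction k with
  | zero => exact ⟨by simpa using hf, by simpa using he⟩
  | succ k ih =>
    obtain ⟨ih1, ih2⟩ := ih
    rw [Function.iterate_succ_apply']
    refine ⟨(PP_CL hP hH ih1 hL hh h2).mono le_rfl (le_of_eq (by ring)) ?_, ?_⟩
    · have h3 : (1 - kap * h) ^ k ≤ 1 := pow_le_one₀ hk0 hk1
      have h4 : (1 - kap * h) ^ k * l ≤ l := mul_le_of_le_one_left hl h3
      have h5 : h * LH * ((1 - kap * h) ^ k * l) ≤ h * LH * l :=
        mul_le_mul_of_nonneg_left h4 (by positivity)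
      have h6 : (1 - kap * h) ^ 2 * L ≤ (1 - kap * h) * L := by
        apply mul_le_mul_of_nonneg_right _ hL
        nlinarith
      have h7 := mul_le_mul_of_nonneg_left hLL hh
      nlinarith
    · intro i x
      rw [PP_comp_refl hD]
      congr 1
      funext y
      exact ih2 i y

/-- Poincare inequality for even functions -/
theorem even_poincare (hP : Pot V D kap Lam C3) (hLH : 0 ≤ LH)
    (hH : ∀ x y, ‖fderiv ℝ D x - fderiv ℝ D y‖ ≤ LH * ‖x - y‖)
    (hD : ∀ i x, D (Rf i x) = Rf i (D x))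
    {Co : ℝ} (hCo : 0 < Co)
    (hO : ∀ (i : Fin n) (u : EuclideanSpace ℝ (Fin n) → ℝ) (U L : ℝ), TF u U L →
      (∀ x, |u x| ≤ L * |x i|) →
      ∫ x, u x ^ 2 ∂(tgt V) ≤ Co * ∫ x, ‖fderiv ℝ u x‖ ^ 2 ∂(tgt V))
    {f : EuclideanSpace ℝ (Fin n) → ℝ} {b l0 L0 : ℝ} (hf0 : CL f b l0 L0)
    (he : ∀ i x, f (Rf i x) = f x) :
    WV V f ≤ (tgt V).real Set.univ * Co * ∫ x, ‖fderiv ℝ f x‖ ^ 2 ∂(tgt V) := by
  have hfin := tgt_finite hP
  have hk := hP.kpos
  have hLam := hP.Lpos
  obtain ⟨hb, hl0⟩ := hf0.nonneg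
  set l := l0 + 1 with hl
  have hlpos : 0 < l := by linarith
  set L := max (max L0 0) (LH * l / kap) with hLdef
  have hL0 : 0 ≤ L := le_trans (le_max_right L0 0) (le_max_left _ _)
  have hf : CL f b l L := hf0.mono le_rfl (by linarith) (le_trans (le_max_left _ _) (le_max_left _ _))
  have hLL : LH * l ≤ kap * L := by
    have : LH * l / kap ≤ L := le_max_right _ _
    rw [div_le_iff₀ hk] at this
    linarith
  set M := (tgt V).real Set.univ with hM
  have hM0 : 0 ≤ M := measureReal_nonneg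
  set e : ℕ → ℝ → ℝ := fun k h => ∫ x, ‖fderiv ℝ ((PP D h)^[k] f) x‖ ^ 2 ∂(tgt V) with he0
  set K2 := 2 * l * L * (C0 V D Lam C3).toReal with hK2
  have hK20 : 0 ≤ K2 := by positivity
  set K := KV V D Lam C3 b l L with hK
  set I2 := ∫ x, ‖x‖ ^ 2 ∂(tgt V) with hI2
  -- the telescoping inequality
  have tel : ∀ h : ℝ, 0 < h → h ≤ 1 → h * (kap + Lam) ≤ 1 → ∀ N : ℕ,
      WV V f ≤ WV V ((PP D h)^[N] f) + M * (Co + 2 * h) * (e 0 h - e N h) +
        N * ((K + M * Co * K2) * (h * Real.sqrt h)) := by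
    intro h hh h1 h2 N
    obtain ⟨hk0, hk1⟩ := kh_le hP hh.le h2
    have hhr : h ^ 2 ≤ h * Real.sqrt h := by
      have h3 : Real.sqrt h ^ 2 = h := Real.sq_sqrt hh.le
      have h4 : Real.sqrt h ≤ 1 := Real.sqrt_le_one.mpr h1
      have h5 : 0 ≤ Real.sqrt h := Real.sqrt_nonneg _
      have h6 : h ≤ Real.sqrt h := by nlinarith
      nlinarith
    induction N with
    | zero => simp
    | succ N ih =>
      obtain ⟨c1, c2⟩ := iter_CL hP hLH hH hD hf hL0 hLL he hh.le h2 N
      have c3 : CL ((PP D h)^[N] f) b l L :=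
        c1.mono le_rfl (mul_le_of_le_one_left hlpos.le (pow_le_one₀ hk0 hk1)) le_rfl
      have v1 := var_step hP c3 hL0 hh h1
      have v2 := energy_step hP hD hCo hO c3 hlpos hL0 c2 hh h1 h2
      rw [← Function.iterate_succ_apply' (PP D h) N f] at v1 v2
      have v3 : (Co + 2 * h) * e (N + 1) h ≤ Co * e N h + Co * (K2 * h ^ 2) := by
        have h3 := mul_le_mul_of_nonneg_left v2 hCo.le
        have h4 : Co * ((1 + 2 * h / Co) * e (N + 1) h) = (Co + 2 * h) * e (N + 1) h := by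
          field_simp
        have h5 : Co * ((1 + 2 * h / Co) * ∫ x, ‖fderiv ℝ ((PP D h)^[N + 1] f) x‖ ^ 2 ∂(tgt V)) =
          (Co + 2 * h) * e (N + 1) h := h4
        rw [Nat.succ_eq_add_one, h5] at h3
        have h6 : Co * (∫ x, ‖fderiv ℝ ((PP D h)^[N] f) x‖ ^ 2 ∂(tgt V) +
          2 * l * L * h ^ 2 * (C0 V D Lam C3).toReal) = Co * e N h + Co * (K2 * h ^ 2) := by
          rw [he0, hK2]; ring
        linarith
      have v4 := mul_le_mul_of_nonneg_left v3 hM0
      have v5 : M * Co * K2 * h ^ 2 ≤ M * Co * K2 * (h * Real.sqrt h) :=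
        mul_le_mul_of_nonneg_left hhr (by positivity)
      have v6 : WV V ((PP D h)^[N] f) ≤ WV V ((PP D h)^[N + 1] f) + 2 * h * M * e N h +
          K * (h * Real.sqrt h) := v1
      push_cast
      linarith
  -- bound of the last term
  have last : ∀ h : ℝ, 0 < h → h ≤ 1 → h * (kap + Lam) ≤ 1 → ∀ N : ℕ,
      WV V ((PP D h)^[N] f) ≤ M * ((Real.exp (-(kap * (N * h))) * l) ^ 2 * I2) := by
    intro h hh h1 h2 N
    obtain ⟨hk0, hk1⟩ := kh_le hP hh.le h2
    obtain ⟨c1, c2⟩ := iter_CL hP hLH hH hD hf hL0 hLL he hh.le h2 N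
    have h3 : (1 - kap * h) ^ N ≤ Real.exp (-(kap * (N * h))) := by
      have h4 : 1 - kap * h ≤ Real.exp (-(kap * h)) := by
        have := Real.add_one_le_exp (-(kap * h)); linarith
      calc (1 - kap * h) ^ N ≤ Real.exp (-(kap * h)) ^ N := pow_le_pow_left₀ hk0 h4 N
        _ = _ := by rw [← Real.exp_nat_mul]; congr 1; ring
    have c3 : CL ((PP D h)^[N] f) b (Real.exp (-(kap * (N * h))) * l) L :=
      c1.mono le_rfl (mul_le_mul_of_nonneg_right h3 hlpos.le) le_rfl
    exact WV_le hP c3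
  -- limit
  have hfin2 : ∀ᶠ m : ℕ in atTop, WV V f ≤ M * ((Real.exp (-(kap * m)) * l) ^ 2 * I2) +
      M * (Co + 2 * (1 / (m : ℝ)) ^ 4) * e 0 1 + (K + M * Co * K2) * (1 / (m : ℝ)) := by
    have hlarge : ∀ᶠ m : ℕ in atTop, kap + Lam ≤ (m : ℝ) :=
      tendsto_natCast_atTop_atTop.eventually_ge_atTop _
    filter_upwards [hlarge, eventually_ge_atTop 1] with m hm hm1
    have hm1' : (1 : ℝ) ≤ m := by exact_mod_cast hm1
    have hm0 : (0 : ℝ) < m := by linarith
    set h : ℝ := (1 / (m : ℝ)) ^ 4 with hh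
    have hinv : 1 / (m : ℝ) ≤ 1 := by rw [div_le_one hm0]; exact hm1'
    have hh0 : 0 < h := by positivity
    have hh1 : h ≤ 1 := pow_le_one₀ (by positivity) hinv
    have hh2 : h * (kap + Lam) ≤ 1 := by
      have h3 : h ≤ 1 / (m : ℝ) := by
        calc h = (1 / (m : ℝ)) ^ 3 * (1 / (m : ℝ)) := by rw [hh]; ring
          _ ≤ 1 * (1 / (m : ℝ)) := by
            apply mul_le_mul_of_nonneg_right _ (by positivity)
            exact pow_le_one₀ (by positivity) hinv
          _ = _ := one_mul _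
      calc h * (kap + Lam) ≤ (1 / (m : ℝ)) * m := mul_le_mul h3 hm (by linarith) (by positivity)
        _ = 1 := by field_simp
    have t1 := tel h hh0 hh1 hh2 (m ^ 5)
    have t2 := last h hh0 hh1 hh2 (m ^ 5)
    have e3 : ((m ^ 5 : ℕ) : ℝ) * h = m := by
      rw [hh]; push_cast; field_simp
    rw [e3] at t2
    have hsq : Real.sqrt h = (1 / (m : ℝ)) ^ 2 := by
      rw [hh, show (1 / (m : ℝ)) ^ 4 = ((1 / (m : ℝ)) ^ 2) ^ 2 by ring]
      exact Real.sqrt_sq (by positivity)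
    have e4 : ((m ^ 5 : ℕ) : ℝ) * ((K + M * Co * K2) * (h * Real.sqrt h)) =
        (K + M * Co * K2) * (1 / (m : ℝ)) := by
      rw [hsq, hh]; push_cast; field_simp
    rw [e4] at t1
    have e5 : 0 ≤ e (m ^ 5) h := integral_nonneg fun x => by positivity
    have e6 : e 0 h = e 0 1 := rfl
    have e7 : M * (Co + 2 * h) * (e 0 h - e (m ^ 5) h) ≤ M * (Co + 2 * h) * e 0 1 := by
      rw [e6]
      apply mul_le_mul_of_nonneg_left _ (by positivity)
      linarith
    linarith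
  have hlim : Tendsto (fun m : ℕ => M * ((Real.exp (-(kap * m)) * l) ^ 2 * I2) +
      M * (Co + 2 * (1 / (m : ℝ)) ^ 4) * e 0 1 + (K + M * Co * K2) * (1 / (m : ℝ))) atTop
      (𝓝 (M * ((0 * l) ^ 2 * I2) + M * (Co + 2 * 0 ^ 4) * e 0 1 + (K + M * Co * K2) * 0)) := by
    have l1 : Tendsto (fun m : ℕ => 1 / (m : ℝ)) atTop (𝓝 0) := tendsto_one_div_atTop_nhds_zero_nat
    have l2 : Tendsto (fun m : ℕ => Real.exp (-(kap * m))) atTop (𝓝 0) := by
      apply Real.tendsto_exp_atBot.comp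
      apply tendsto_neg_atTop_atBot.comp
      exact Tendsto.const_mul_atTop hk tendsto_natCast_atTop_atTop
    exact (((((l2.mul_const l).pow 2).mul_const I2).const_mul M).add
      (((((l1.pow 4).const_mul 2).const_add Co).const_mul M).mul_const (e 0 1))).add
      (l1.const_mul _)
  have := ge_of_tendsto hlim hfin2
  have e8 : e 0 1 = ∫ x, ‖fderiv ℝ f x‖ ^ 2 ∂(tgt V) := rfl
  rw [e8] at this
  linarith

lemma tgt_refl (hV : Continuous V) (hVR : ∀ i x, V (Rf i x) = V x) (i : Fin n)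
    (F : EuclideanSpace ℝ (Fin n) → ℝ) : ∫ x, F (Rf i x) ∂(tgt V) = ∫ x, F x ∂(tgt V) := by
  rw [integral_tgt hV, integral_tgt hV]
  have hme : MeasurableEmbedding (Rf i : EuclideanSpace ℝ (Fin n) → EuclideanSpace ℝ (Fin n)) :=
    (Rf i).toHomeomorph.measurableEmbedding
  have h1 := ((Rf i).measurePreserving).integral_comp hme (fun x => F x * Real.exp (-V x))
  rw [← h1]
  congr 1
  funext x
  show F (Rf i x) * Real.exp (-V x) = F (Rf i x) * Real.exp (-V (Rf i x))
  rw [hVR]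

lemma comp_refl_fderiv {f : EuclideanSpace ℝ (Fin n) → ℝ} (hf : ContDiff ℝ 1 f) (i : Fin n)
    (x : EuclideanSpace ℝ (Fin n)) :
    HasFDerivAt (fun y => f (Rf i y)) ((fderiv ℝ f (Rf i x)).comp
      ((Rf i).toContinuousLinearEquiv :
        EuclideanSpace ℝ (Fin n) →L[ℝ] EuclideanSpace ℝ (Fin n))) x := by
  have h1 : HasFDerivAt f (fderiv ℝ f (Rf i x)) (Rf i x) :=
    (hf.differentiable (by simp)).differentiableAt.hasFDerivAt
  exact h1.comp x (Rf i).toContinuousLinearEquiv.hasFDerivAt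

lemma comp_refl_norm (L : EuclideanSpace ℝ (Fin n) →L[ℝ] ℝ) (i : Fin n) :
    ‖L.comp ((Rf i).toContinuousLinearEquiv :
        EuclideanSpace ℝ (Fin n) →L[ℝ] EuclideanSpace ℝ (Fin n))‖ = ‖L‖ :=
  L.opNorm_comp_linearIsometryEquiv (Rf i)

lemma CL.refl {f : EuclideanSpace ℝ (Fin n) → ℝ} {b l L : ℝ} (hf : CL f b l L) (i : Fin n) :
    CL (fun y => f (Rf i y)) b l L := by
  refine ⟨hf.cd.comp (Rf i).toContinuousLinearEquiv.contDiff, fun x => hf.bd _, fun x => ?_,
    fun x y => ?_⟩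
  · rw [(comp_refl_fderiv hf.cd i x).fderiv, comp_refl_norm]
    exact hf.gd _
  · rw [(comp_refl_fderiv hf.cd i x).fderiv, (comp_refl_fderiv hf.cd i y).fderiv,
      ← ContinuousLinearMap.sub_comp, comp_refl_norm]
    refine (hf.hd _ _).trans (le_of_eq ?_)
    rw [← map_sub, LinearIsometryEquiv.norm_map]

/-- the Poincare inequality -/
theorem full_poincare (hP : Pot V D kap Lam C3) (hLH : 0 ≤ LH)
    (hH : ∀ x y, ‖fderiv ℝ D x - fderiv ℝ D y‖ ≤ LH * ‖x - y‖)
    (hD : ∀ i x, D (Rf i x) = Rf i (D x)) (hVR : ∀ i x, V (Rf i x) = V x)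
    {Co : ℝ} (hCo : 0 < Co)
    (hO : ∀ (i : Fin n) (u : EuclideanSpace ℝ (Fin n) → ℝ) (U L : ℝ), TF u U L →
      (∀ x, |u x| ≤ L * |x i|) →
      ∫ x, u x ^ 2 ∂(tgt V) ≤ Co * ∫ x, ‖fderiv ℝ u x‖ ^ 2 ∂(tgt V))
    {f : EuclideanSpace ℝ (Fin n) → ℝ} {b l L : ℝ} (hf : CL f b l L) :
    WV V f ≤ (tgt V).real Set.univ * Co * ∫ x, ‖fderiv ℝ f x‖ ^ 2 ∂(tgt V) := by
  have hfin := tgt_finite hP
  set M := (tgt V).real Set.univ with hM
  have hM0 : 0 ≤ M := measureReal_nonneg
  have claim : ∀ (T : Finset (Fin n)) (f : EuclideanSpace ℝ (Fin n) → ℝ), CL f b l L →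
      (∀ i, i ∉ T → ∀ x, f (Rf i x) = f x) →
      WV V f ≤ M * Co * ∫ x, ‖fderiv ℝ f x‖ ^ 2 ∂(tgt V) := by
    intro T
    induction T using Finset.induction_on with
    | empty =>
      intro f hf he
      exact even_poincare hP hLH hH hD hCo hO hf (fun i x => he i (by simp) x)
    | insert i T _ ih =>
      intro f hf he
      have hfR := hf.refl i
      set E : EuclideanSpace ℝ (Fin n) → ℝ := fun x => (1 / 2) * f x + (1 / 2) * f (Rf i x) with hE
      set O : EuclideanSpace ℝ (Fin n) → ℝ := fun x => (1 / 2) * f x - (1 / 2) * f (Rf i x) with hO'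
      have hfd : ∀ x, HasFDerivAt f (fderiv ℝ f x) x := fun x =>
        (hf.cd.differentiable (by simp)).differentiableAt.hasFDerivAt
      have hfRd : ∀ x, HasFDerivAt (fun y => f (Rf i y)) (fderiv ℝ (fun y => f (Rf i y)) x) x :=
        fun x => (hfR.cd.differentiable (by simp)).differentiableAt.hasFDerivAt
      have hEd : ∀ x, fderiv ℝ E x = (1 / 2 : ℝ) • fderiv ℝ f x +
          (1 / 2 : ℝ) • fderiv ℝ (fun y => f (Rf i y)) x := fun x =>
        (((hfd x).const_mul (1 / 2)).add ((hfRd x).const_mul (1 / 2))).fderiv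
      have hOd : ∀ x, fderiv ℝ O x = (1 / 2 : ℝ) • fderiv ℝ f x -
          (1 / 2 : ℝ) • fderiv ℝ (fun y => f (Rf i y)) x := fun x =>
        (((hfd x).const_mul (1 / 2)).sub ((hfRd x).const_mul (1 / 2))).fderiv
      have half : ∀ (A B : EuclideanSpace ℝ (Fin n) →L[ℝ] ℝ) (c : ℝ), ‖A‖ ≤ c → ‖B‖ ≤ c →
          ‖(1 / 2 : ℝ) • A + (1 / 2 : ℝ) • B‖ ≤ c ∧ ‖(1 / 2 : ℝ) • A - (1 / 2 : ℝ) • B‖ ≤ c := by
        intro A B c hA hB
        have h3 : ‖(1 / 2 : ℝ) • A‖ = 1 / 2 * ‖A‖ := by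
          rw [norm_smul, Real.norm_eq_abs, abs_of_pos (by norm_num)]
        have h4 : ‖(1 / 2 : ℝ) • B‖ = 1 / 2 * ‖B‖ := by
          rw [norm_smul, Real.norm_eq_abs, abs_of_pos (by norm_num)]
        constructor
        · refine (norm_add_le _ _).trans ?_
          rw [h3, h4]; linarith
        · refine (norm_sub_le _ _).trans ?_
          rw [h3, h4]; linarith
      have hEcd : ContDiff ℝ 1 E := (contDiff_const.mul hf.cd).add (contDiff_const.mul hfR.cd)
      have hOcd : ContDiff ℝ 1 O := (contDiff_const.mul hf.cd).sub (contDiff_const.mul hfR.cd)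
      have hEb : ∀ x, |E x| ≤ b := by
        intro x
        have h3 := _root_.abs_le.mp (hf.bd x)
        have h4 := _root_.abs_le.mp (hf.bd (Rf i x))
        rw [_root_.abs_le, hE]
        constructor <;> simp only [] <;> linarith [h3.1, h3.2, h4.1, h4.2]
      have hOb : ∀ x, |O x| ≤ b := by
        intro x
        have h3 := _root_.abs_le.mp (hf.bd x)
        have h4 := _root_.abs_le.mp (hf.bd (Rf i x))
        rw [_root_.abs_le, hO']
        constructor <;> simp only [] <;> linarith [h3.1, h3.2, h4.1, h4.2]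
      have hECL : CL E b l L := by
        refine ⟨hEcd, hEb, fun x => ?_, fun x y => ?_⟩
        · rw [hEd]
          exact (half _ _ l (hf.gd x) (hfR.gd x)).1
        · rw [hEd, hEd]
          have e : (1 / 2 : ℝ) • fderiv ℝ f x + (1 / 2 : ℝ) • fderiv ℝ (fun y => f (Rf i y)) x -
              ((1 / 2 : ℝ) • fderiv ℝ f y + (1 / 2 : ℝ) • fderiv ℝ (fun y => f (Rf i y)) y) =
              (1 / 2 : ℝ) • (fderiv ℝ f x - fderiv ℝ f y) +
              (1 / 2 : ℝ) • (fderiv ℝ (fun y => f (Rf i y)) x -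
                fderiv ℝ (fun y => f (Rf i y)) y) := by
            ext v
            simp
            ring
          rw [e]
          exact (half _ _ _ (hf.hd x y) (hfR.hd x y)).1
      have hOTF : TF O b l := ⟨hOcd, hOb, fun x => by
        rw [hOd]
        exact (half _ _ l (hf.gd x) (hfR.gd x)).2⟩
      have hOodd : ∀ x, O (Rf i x) = - O x := by
        intro x
        rw [hO']
        simp only [Rf_Rf]
        ring
      have hEev : ∀ j, j ∉ T → ∀ x, E (Rf j x) = E x := by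
        intro j hj x
        rw [hE]
        by_cases hji : j = i
        · subst hji
          simp only [Rf_Rf]
          ring
        · have hj' : j ∉ insert i T := by simp [hji, hj]
          simp only []
          rw [Rf_comm i j, he j hj', he j hj']
      have p1 := ih E hECL hEev
      have p2 := hO i O b l hOTF (odd_bound hOTF hOodd)
      -- integrals
      have hfc := hf.cd.continuous
      have sqb : ∀ (g : EuclideanSpace ℝ (Fin n) → ℝ), (∀ x, |g x| ≤ b) → ∀ x, |g x ^ 2| ≤ b ^ 2 :=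
        fun g hg x => by rw [abs_pow]; exact pow_le_pow_left₀ (abs_nonneg _) (hg x) 2
      have iO : Integrable O (tgt V) := bint_tgt hP hOcd.continuous hOb
      have iE : Integrable E (tgt V) := bint_tgt hP hEcd.continuous hEb
      have iO2 : Integrable (fun x => O x ^ 2) (tgt V) :=
        bint_tgt hP (hOcd.continuous.pow 2) (sqb O hOb)
      have iE2 : Integrable (fun x => E x ^ 2) (tgt V) :=
        bint_tgt hP (hEcd.continuous.pow 2) (sqb E hEb)
      have if2 : Integrable (fun x => f x ^ 2) (tgt V) :=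
        bint_tgt hP (hfc.pow 2) (sqb f hf.bd)
      have if2R : Integrable (fun x => f (Rf i x) ^ 2) (tgt V) :=
        bint_tgt hP (hfR.cd.continuous.pow 2) (sqb _ hfR.bd)
      have gsq : ∀ (g : EuclideanSpace ℝ (Fin n) → ℝ) (L' : ℝ), CL g b l L' →
          Integrable (fun x => ‖fderiv ℝ g x‖ ^ 2) (tgt V) := by
        intro g L' hg
        exact bint_tgt hP (hg.fdc.norm.pow 2) (B := l ^ 2) (fun x => by
          show |‖fderiv ℝ g x‖ ^ 2| ≤ l ^ 2
          rw [abs_of_nonneg (by positivity)]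
          exact pow_le_pow_left₀ (norm_nonneg _) (hg.gd _) 2)
      have iOd : Integrable (fun x => ‖fderiv ℝ O x‖ ^ 2) (tgt V) :=
        bint_tgt hP ((hOcd.continuous_fderiv (by simp)).norm.pow 2) (B := l ^ 2) (fun x => by
          show |‖fderiv ℝ O x‖ ^ 2| ≤ l ^ 2
          rw [abs_of_nonneg (by positivity)]
          exact pow_le_pow_left₀ (norm_nonneg _) (hOTF.gd _) 2)
      have q1 : ∫ x, O x ∂(tgt V) = 0 := by
        have h3 := tgt_refl hP.cV hVR i O
        simp only [hOodd] at h3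
        rw [integral_neg] at h3
        linarith
      have q2 : ∫ x, f x ∂(tgt V) = ∫ x, E x ∂(tgt V) := by
        have : ∫ x, f x ∂(tgt V) = ∫ x, (E x + O x) ∂(tgt V) := by
          congr 1
          funext x
          rw [hE, hO']
          ring
        rw [this, integral_add iE iO, q1, add_zero]
      have q3 : ∫ x, E x ^ 2 ∂(tgt V) + ∫ x, O x ^ 2 ∂(tgt V) = ∫ x, f x ^ 2 ∂(tgt V) := by
        rw [← integral_add iE2 iO2]
        have h3 := tgt_refl hP.cV hVR i (fun x => f x ^ 2)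
        have e : ∀ x, E x ^ 2 + O x ^ 2 = 1 / 2 * f x ^ 2 + 1 / 2 * f (Rf i x) ^ 2 := by
          intro x; rw [hE, hO']; ring
        simp only [e]
        rw [integral_add (if2.const_mul _) (if2R.const_mul _), integral_const_mul,
          integral_const_mul, h3]
        ring
      have q4 : ∫ x, ‖fderiv ℝ E x‖ ^ 2 ∂(tgt V) + ∫ x, ‖fderiv ℝ O x‖ ^ 2 ∂(tgt V) =
          ∫ x, ‖fderiv ℝ f x‖ ^ 2 ∂(tgt V) := by
        rw [← integral_add (gsq E L hECL) iOd]
        have h3 := tgt_refl hP.cV hVR i (fun x => ‖fderiv ℝ f x‖ ^ 2)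
        have e : ∀ x, ‖fderiv ℝ E x‖ ^ 2 + ‖fderiv ℝ O x‖ ^ 2 =
            1 / 2 * ‖fderiv ℝ f x‖ ^ 2 + 1 / 2 * ‖fderiv ℝ f (Rf i x)‖ ^ 2 := by
          intro x
          have h4 : ‖fderiv ℝ f (Rf i x)‖ = ‖fderiv ℝ (fun y => f (Rf i y)) x‖ := by
            rw [(comp_refl_fderiv hf.cd i x).fderiv, comp_refl_norm]
          rw [h4, hEd, hOd, opNorm_sq, opNorm_sq, opNorm_sq, opNorm_sq, Finset.mul_sum,
            Finset.mul_sum, ← Finset.sum_add_distrib, ← Finset.sum_add_distrib]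
          apply Finset.sum_congr rfl
          intro k _
          simp only [_root_.add_apply, _root_.sub_apply, _root_.smul_apply, smul_eq_mul]
          ring
        simp only [e]
        have iR : Integrable (fun x => ‖fderiv ℝ f (Rf i x)‖ ^ 2) (tgt V) :=
          bint_tgt hP ((hf.fdc.comp (Rf i).continuous).norm.pow 2) (B := l ^ 2) (fun x => by
            show |‖fderiv ℝ f (Rf i x)‖ ^ 2| ≤ l ^ 2
            rw [abs_of_nonneg (by positivity)]
            exact pow_le_pow_left₀ (norm_nonneg _) (hf.gd _) 2)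
        rw [integral_add ((gsq f L hf).const_mul _) (iR.const_mul _), integral_const_mul,
          integral_const_mul, h3]
        ring
      have q5 : WV V f = WV V E + M * ∫ x, O x ^ 2 ∂(tgt V) := by
        unfold WV
        rw [q2, ← q3, ← hM]
        ring
      have q6 := mul_le_mul_of_nonneg_left p2 hM0
      rw [q5, ← q4]
      linarith
  exact claim Finset.univ f hf (fun i hi => absurd (Finset.mem_univ i) hi)

end Pool.Agent.Lib.MP_6d896a_gt
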