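import Mathlib
import Pool.Agent.Lib.MP_6d896a_gt.Sym12

/-!
The Langevin chain for potentials invariant under isometries: general form.
-/

namespace Pool.Agent.Lib.MP_6d896a_gt.EX

open MeasureTheory ProbabilityTheory Filter Topology Metric
open scoped ENNReal NNReal

variable {n : ℕ} {V : EuclideanSpace ℝ (Fin n) → ℝ}
  {D : EuclideanSpace ℝ (Fin n) → EuclideanSpace ℝ (Fin n)} {kap Lam C3 LH : ℝ}

lemma tu_iso {R : EuclideanSpace ℝ (Fin n) ≃ₗᵢ[ℝ] EuclideanSpace ℝ (Fin n)}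
    (hD : ∀ x, D (R x) = R (D x)) (h : ℝ)
    (x : EuclideanSpace ℝ (Fin n)) : tu D h (R x) = R (tu D h x) := by
  unfold tu
  rw [hD, map_sub, map_smul]

lemma PP_comp_iso {R : EuclideanSpace ℝ (Fin n) ≃ₗᵢ[ℝ] EuclideanSpace ℝ (Fin n)}
    (hD : ∀ x, D (R x) = R (D x)) (h : ℝ)
    (g : EuclideanSpace ℝ (Fin n) → ℝ) (x : EuclideanSpace ℝ (Fin n)) :
    PP D h g (R x) = PP D h (fun y => g (R y)) x := by
  unfold PP
  rw [tu_iso hD, ← gauss_refl R]
  congr 1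
  funext z
  show g (R (tu D h x) + Real.sqrt (2 * h) • R z) =
    g (R (tu D h x + Real.sqrt (2 * h) • z))
  rw [map_add, map_smul]

lemma comp_iso_fderiv {f : EuclideanSpace ℝ (Fin n) → ℝ} (hf : ContDiff ℝ 1 f)
    (R : EuclideanSpace ℝ (Fin n) ≃ₗᵢ[ℝ] EuclideanSpace ℝ (Fin n))
    (x : EuclideanSpace ℝ (Fin n)) :
    HasFDerivAt (fun y => f (R y)) ((fderiv ℝ f (R x)).comp
      (R.toContinuousLinearEquiv :
        EuclideanSpace ℝ (Fin n) →L[ℝ] EuclideanSpace ℝ (Fin n))) x := by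
  have h1 : HasFDerivAt f (fderiv ℝ f (R x)) (R x) :=
    (hf.differentiable (by simp)).differentiableAt.hasFDerivAt
  exact h1.comp x R.toContinuousLinearEquiv.hasFDerivAt

lemma grad_odd_iso {R : EuclideanSpace ℝ (Fin n) ≃ₗᵢ[ℝ] EuclideanSpace ℝ (Fin n)}
    {v : EuclideanSpace ℝ (Fin n)} (hv : R v = -v)
    {f : EuclideanSpace ℝ (Fin n) → ℝ} (hf : ContDiff ℝ 1 f)
    (he : ∀ x, f (R x) = f x) (x : EuclideanSpace ℝ (Fin n)) :
    fderiv ℝ f (R x) v = - fderiv ℝ f x v := by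
  have h3 := comp_iso_fderiv hf R x
  have h4 : (fun y => f (R y)) = f := funext he
  rw [h4] at h3
  rw [h3.fderiv]
  simp only [ContinuousLinearMap.comp_apply, ContinuousLinearEquiv.coe_coe,
    LinearIsometryEquiv.coe_toContinuousLinearEquiv]
  rw [hv, map_neg, neg_neg]

lemma CL.gv_bd {f : EuclideanSpace ℝ (Fin n) → ℝ} {b l L : ℝ} (hf : CL f b l L)
    (v x : EuclideanSpace ℝ (Fin n)) : |fderiv ℝ f x v| ≤ l * (‖v‖ + 1) := by
  have := (fderiv ℝ f x).le_opNorm v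
  rw [Real.norm_eq_abs] at this
  have hl := hf.nonneg.2
  refine this.trans (mul_le_mul (hf.gd x) (by linarith) (norm_nonneg _) hl)

/-- averaged directional derivatives -/
lemma PP_gv_TF (hP : Pot V D kap Lam C3) {f : EuclideanSpace ℝ (Fin n) → ℝ} {b l L : ℝ}
    (hf : CL f b l L) (hl : 0 < l) {h : ℝ} (hh : 0 < h) (h2 : h * (kap + Lam) ≤ 1)
    (v : EuclideanSpace ℝ (Fin n)) :
    (∃ U L', TF (PP D h (fun y => fderiv ℝ f y v)) U L') ∧
    ∀ x, ‖fderiv ℝ (PP D h (fun y => fderiv ℝ f y v)) x‖ ^ 2 ≤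
      1 / (2 * h) * (PP D h (fun y => fderiv ℝ f y v ^ 2) x -
        PP D h (fun y => fderiv ℝ f y v) x ^ 2) := by
  set g : EuclideanSpace ℝ (Fin n) → ℝ := fun y => fderiv ℝ f y v with hg
  set l' : ℝ := l * (‖v‖ + 1) with hl'
  have hl'0 : 0 < l' := by positivity
  have hgc : Continuous g := hf.g_meas _
  have hgb : ∀ y, |g y| ≤ l' := fun y => CL.gv_bd hf v y
  have hs : 0 < 1 / (4 * h) := by positivity
  have hcd := gconv_contDiff' hs hl'0 hgc.measurable hgb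
  have e1 : PP D h g = fun x => gconv (1 / (4 * h)) g (tu D h x) := by
    funext x; exact PP_gconv hh hgc.measurable x
  have hfd : ∀ x, fderiv ℝ (PP D h g) x =
      (fderiv ℝ (gconv (1 / (4 * h)) g) (tu D h x)).comp (fderiv ℝ (tu D h) x) := by
    intro x
    rw [e1]
    exact ((hcd.differentiable (by simp)).differentiableAt.hasFDerivAt.comp x
      (tu_hasFDerivAt hP h x)).fderiv
  have hbd : ∀ x, ‖fderiv ℝ (PP D h g) x‖ ^ 2 ≤
      1 / (2 * h) * (PP D h (fun y => g y ^ 2) x - PP D h g x ^ 2) := by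
    intro x
    have h3 := gconv_grad' hs hl'0 hgc.measurable hgb (tu D h x)
    rw [← PP_gconv hh hgc.measurable x, ← PP_gconv hh (hgc.measurable.pow_const 2) x] at h3
    have h4 : ‖fderiv ℝ (PP D h g) x‖ ≤ ‖fderiv ℝ (gconv (1 / (4 * h)) g) (tu D h x)‖ := by
      rw [hfd]
      refine (ContinuousLinearMap.opNorm_comp_le _ _).trans ?_
      apply mul_le_of_le_one_right (norm_nonneg _)
      exact (tu_fderiv_norm hP hh.le h2 x).trans (kh_le hP hh.le h2).2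
    have h5 : (2 : ℝ) * (1 / (4 * h)) = 1 / (2 * h) := by field_simp; norm_num
    rw [h5] at h3
    exact (pow_le_pow_left₀ (norm_nonneg _) h4 2).trans h3
  refine ⟨⟨l', Real.sqrt (1 / (2 * h) * l' ^ 2), ?_, ?_, ?_⟩, hbd⟩
  · rw [e1]
    exact hcd.comp (tu_contDiff hP h)
  · intro x
    rw [e1]
    exact gconv_abs_le' hs hl'0 hgb _
  · intro x
    apply Real.le_sqrt_of_sq_le
    refine (hbd x).trans ?_
    apply mul_le_mul_of_nonneg_left _ (by positivity)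
    have h6 : PP D h (fun y => g y ^ 2) x ≤ l' ^ 2 := by
      rw [PP_gconv hh (hgc.measurable.pow_const 2)]
      refine (le_abs_self _).trans (gconv_abs_le' hs (by positivity) (fun y => ?_) _)
      rw [abs_pow]
      exact pow_le_pow_left₀ (abs_nonneg _) (hgb y) 2
    have h7 := sq_nonneg (PP D h g x)
    linarith

/-- gradients after one step -/
lemma PP_grad_le (hP : Pot V D kap Lam C3) {f : EuclideanSpace ℝ (Fin n) → ℝ} {b l L : ℝ}
    (hf : CL f b l L) {h : ℝ} (hh : 0 ≤ h) (h2 : h * (kap + Lam) ≤ 1)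
    (x : EuclideanSpace ℝ (Fin n)) :
    ‖fderiv ℝ (PP D h f) x‖ ≤ ‖GG D h f x‖ * (1 - kap * h) := by
  rw [(PP_hasFDerivAt hP hf hh h2 x).fderiv]
  refine (ContinuousLinearMap.opNorm_comp_le _ _).trans ?_
  exact mul_le_mul_of_nonneg_left (tu_fderiv_norm hP hh h2 x) (norm_nonneg _)

lemma PP_grad_int (hP : Pot V D kap Lam C3) {f : EuclideanSpace ℝ (Fin n) → ℝ} {b l L : ℝ}
    (hf : CL f b l L) {h : ℝ} (hh : 0 ≤ h) (h2 : h * (kap + Lam) ≤ 1) :
    Integrable (fun x => ‖fderiv ℝ (PP D h f) x‖ ^ 2) (tgt V) := by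
  have hfin := tgt_finite hP
  have hl := hf.nonneg.2
  have hgd : ∀ x, ‖fderiv ℝ (PP D h f) x‖ ≤ l := by
    intro x
    refine (PP_grad_le hP hf hh h2 x).trans ?_
    obtain ⟨h3, h4⟩ := kh_le hP hh h2
    have h5 := GG_norm (D := D) hf h x
    calc _ ≤ l * 1 := mul_le_mul h5 h4 h3 hl
      _ = l := mul_one _
  have hm : Measurable (fderiv ℝ (PP D h f)) := measurable_fderiv ℝ _
  refine (integrable_const (l ^ 2)).mono' (hm.norm.pow_const 2).aestronglyMeasurable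
    (ae_of_all _ fun x => ?_)
  rw [Real.norm_eq_abs, abs_of_nonneg (by positivity)]
  exact pow_le_pow_left₀ (norm_nonneg _) (hgd x) 2

/-- bias for the squared gradient -/
lemma PP_bias_grad (hP : Pot V D kap Lam C3) {f : EuclideanSpace ℝ (Fin n) → ℝ} {b l L : ℝ}
    (hf : CL f b l L) (hL : 0 ≤ L) {h : ℝ} (hh : 0 < h) (h1 : h ≤ 1) :
    ∫ x, PP D h (fun y => ‖fderiv ℝ f y‖ ^ 2) x ∂(tgt V) ≤
      ∫ x, ‖fderiv ℝ f x‖ ^ 2 ∂(tgt V) + (2 * l * L) * h ^ 2 * (C0 V D Lam C3).toReal := by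
  have hl := hf.nonneg.2
  have hlipg : ∀ x y, |‖fderiv ℝ f x‖ ^ 2 - ‖fderiv ℝ f y‖ ^ 2| ≤ (2 * l * L) * ‖x - y‖ := by
    intro x y
    have e : ‖fderiv ℝ f x‖ ^ 2 - ‖fderiv ℝ f y‖ ^ 2 =
      (‖fderiv ℝ f x‖ + ‖fderiv ℝ f y‖) * (‖fderiv ℝ f x‖ - ‖fderiv ℝ f y‖) := by ring
    rw [e, abs_mul, abs_of_nonneg (by positivity)]
    have h3 : |‖fderiv ℝ f x‖ - ‖fderiv ℝ f y‖| ≤ L * ‖x - y‖ :=
      (abs_norm_sub_norm_le _ _).trans (hf.hd x y)
    have h4 : ‖fderiv ℝ f x‖ + ‖fderiv ℝ f y‖ ≤ 2 * l := by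
      linarith [hf.gd x, hf.gd y]
    calc _ ≤ (2 * l) * (L * ‖x - y‖) := mul_le_mul h4 h3 (abs_nonneg _) (by positivity)
      _ = _ := by ring
  have s3 := PP_bias hP hh h1 (u := fun y => ‖fderiv ℝ f y‖ ^ 2) (l := 2 * l * L) (B := l ^ 2)
    (by positivity) hlipg (fun x => by
      show |‖fderiv ℝ f x‖ ^ 2| ≤ l ^ 2
      rw [abs_of_nonneg (by positivity)]
      exact pow_le_pow_left₀ (norm_nonneg _) (hf.gd x) 2)
  have s4 := (_root_.abs_le.mp s3).2
  linarith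

/-- the energy inequality without symmetry -/
lemma GG_sq_le (hP : Pot V D kap Lam C3) {f : EuclideanSpace ℝ (Fin n) → ℝ} {b l L : ℝ}
    (hf : CL f b l L) (h : ℝ) (x : EuclideanSpace ℝ (Fin n)) :
    ‖GG D h f x‖ ^ 2 ≤ PP D h (fun y => ‖fderiv ℝ f y‖ ^ 2) x := by
  have hl := hf.nonneg.2
  have h1 : ‖GG D h f x‖ ≤ ∫ z, ‖fderiv ℝ f (tu D h x + Real.sqrt (2 * h) • z)‖
      ∂(stdGaussian (EuclideanSpace ℝ (Fin n))) := norm_integral_le_integral_norm _
  have hc : Continuous fun z : EuclideanSpace ℝ (Fin n) =>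
      ‖fderiv ℝ f (tu D h x + Real.sqrt (2 * h) • z)‖ :=
    (hf.fdc.comp (aff_continuous _ _)).norm
  have i1 : Integrable (fun z : EuclideanSpace ℝ (Fin n) =>
      ‖fderiv ℝ f (tu D h x + Real.sqrt (2 * h) • z)‖)
      (stdGaussian (EuclideanSpace ℝ (Fin n))) :=
    (integrable_const l).mono' hc.aestronglyMeasurable (ae_of_all _ fun z => by
      rw [norm_norm]; exact hf.gd _)
  have i2 : Integrable (fun z : EuclideanSpace ℝ (Fin n) =>
      ‖fderiv ℝ f (tu D h x + Real.sqrt (2 * h) • z)‖ ^ 2)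
      (stdGaussian (EuclideanSpace ℝ (Fin n))) :=
    (integrable_const (l ^ 2)).mono' (hc.pow 2).aestronglyMeasurable (ae_of_all _ fun z => by
      rw [Real.norm_eq_abs, abs_of_nonneg (by positivity)]
      exact pow_le_pow_left₀ (norm_nonneg _) (hf.gd _) 2)
  set m := ∫ z, ‖fderiv ℝ f (tu D h x + Real.sqrt (2 * h) • z)‖
      ∂(stdGaussian (EuclideanSpace ℝ (Fin n))) with hm
  have h2 : 0 ≤ ∫ z, (‖fderiv ℝ f (tu D h x + Real.sqrt (2 * h) • z)‖ - m) ^ 2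
      ∂(stdGaussian (EuclideanSpace ℝ (Fin n))) := integral_nonneg fun z => sq_nonneg _
  have h3 : ∫ z, (‖fderiv ℝ f (tu D h x + Real.sqrt (2 * h) • z)‖ - m) ^ 2
      ∂(stdGaussian (EuclideanSpace ℝ (Fin n))) =
      PP D h (fun y => ‖fderiv ℝ f y‖ ^ 2) x - m ^ 2 := by
    have e : ∀ z : EuclideanSpace ℝ (Fin n),
        (‖fderiv ℝ f (tu D h x + Real.sqrt (2 * h) • z)‖ - m) ^ 2 =
        ‖fderiv ℝ f (tu D h x + Real.sqrt (2 * h) • z)‖ ^ 2 -
        2 * m * ‖fderiv ℝ f (tu D h x + Real.sqrt (2 * h) • z)‖ + m ^ 2 := fun z => by ring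
    simp only [e]
    have i3 : Integrable (fun z : EuclideanSpace ℝ (Fin n) =>
        ‖fderiv ℝ f (tu D h x + Real.sqrt (2 * h) • z)‖ ^ 2 -
        2 * m * ‖fderiv ℝ f (tu D h x + Real.sqrt (2 * h) • z)‖)
        (stdGaussian (EuclideanSpace ℝ (Fin n))) := i2.sub (i1.const_mul _)
    rw [integral_add i3 (integrable_const _), integral_sub i2 (i1.const_mul _),
      integral_const_mul, ← hm]
    have e2 : ∫ _z : EuclideanSpace ℝ (Fin n), m ^ 2 ∂(stdGaussian (EuclideanSpace ℝ (Fin n))) =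
      m ^ 2 := by simp
    rw [e2]
    unfold PP
    ring
  have h4 := pow_le_pow_left₀ (norm_nonneg _) h1 2
  linarith

theorem apriori_step (hP : Pot V D kap Lam C3)
    {f : EuclideanSpace ℝ (Fin n) → ℝ} {b l L : ℝ} (hf : CL f b l L) (hL : 0 ≤ L)
    {h : ℝ} (hh : 0 < h) (h1 : h ≤ 1) (h2 : h * (kap + Lam) ≤ 1) :
    (1 + 2 * h / (2 / kap)) * ∫ x, ‖fderiv ℝ (PP D h f) x‖ ^ 2 ∂(tgt V) ≤
      ∫ x, ‖fderiv ℝ f x‖ ^ 2 ∂(tgt V) + (2 * l * L) * h ^ 2 * (C0 V D Lam C3).toReal := by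
  have hk := hP.kpos
  obtain ⟨h3, h4⟩ := kh_le hP hh.le h2
  have hfin := tgt_finite hP
  have hl := hf.nonneg.2
  refine le_trans ?_ (PP_bias_grad hP hf hL hh h1)
  have hc : Continuous (PP D h (fun y => ‖fderiv ℝ f y‖ ^ 2)) :=
    PP_cont hP (hf.fdc.norm.pow 2) (B := l ^ 2) (fun x => by
      show |‖fderiv ℝ f x‖ ^ 2| ≤ l ^ 2
      rw [abs_of_nonneg (by positivity)]
      exact pow_le_pow_left₀ (norm_nonneg _) (hf.gd x) 2) h
  have hb : ∀ x, |PP D h (fun y => ‖fderiv ℝ f y‖ ^ 2) x| ≤ l ^ 2 := fun x =>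
    PP_bd (fun x => by
      show |‖fderiv ℝ f x‖ ^ 2| ≤ l ^ 2
      rw [abs_of_nonneg (by positivity)]
      exact pow_le_pow_left₀ (norm_nonneg _) (hf.gd x) 2) h x
  have i1 : Integrable (PP D h (fun y => ‖fderiv ℝ f y‖ ^ 2)) (tgt V) := bint_tgt hP hc hb
  rw [← integral_const_mul]
  apply integral_mono ((PP_grad_int hP hf hh.le h2).const_mul _) i1
  intro x
  show (1 + 2 * h / (2 / kap)) * ‖fderiv ℝ (PP D h f) x‖ ^ 2 ≤ _
  have e1 : 2 * h / (2 / kap) = kap * h := by field_simp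
  rw [e1]
  have h5 := pow_le_pow_left₀ (norm_nonneg _) (PP_grad_le hP hf hh.le h2 x) 2
  have h6 := GG_sq_le hP hf h x
  have h7 : (1 + kap * h) * (1 - kap * h) ^ 2 ≤ 1 := by
    have : 0 ≤ kap * h := by positivity
    nlinarith [mul_nonneg this h3, mul_nonneg (mul_nonneg this this) h3]
  calc (1 + kap * h) * ‖fderiv ℝ (PP D h f) x‖ ^ 2
      ≤ (1 + kap * h) * (‖GG D h f x‖ * (1 - kap * h)) ^ 2 := by gcongr
    _ = ((1 + kap * h) * (1 - kap * h) ^ 2) * ‖GG D h f x‖ ^ 2 := by ring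
    _ ≤ 1 * ‖GG D h f x‖ ^ 2 := mul_le_mul_of_nonneg_right h7 (sq_nonneg _)
    _ ≤ _ := by rw [one_mul]; exact h6

/-- decay of the energy for invariant functions -/
theorem energy_step_frame (hP : Pot V D kap Lam C3) {K : Type} [Fintype K]
    {v : K → EuclideanSpace ℝ (Fin n)} {α : K → ℝ} (hα : ∀ k, 0 ≤ α k)
    (hfr : ∀ L : EuclideanSpace ℝ (Fin n) →L[ℝ] ℝ, ‖L‖ ^ 2 = ∑ k, α k * (L (v k)) ^ 2)
    {R : K → EuclideanSpace ℝ (Fin n) ≃ₗᵢ[ℝ] EuclideanSpace ℝ (Fin n)}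
    (hRv : ∀ k, R k (v k) = -v k) (hD : ∀ k x, D (R k x) = R k (D x))
    {Co : ℝ} (hCo : 0 < Co)
    (hO : ∀ (k : K) (u : EuclideanSpace ℝ (Fin n) → ℝ) (U L : ℝ), TF u U L →
      (∀ x, u (R k x) = - u x) →
      ∫ x, u x ^ 2 ∂(tgt V) ≤ Co * ∫ x, ‖fderiv ℝ u x‖ ^ 2 ∂(tgt V))
    {f : EuclideanSpace ℝ (Fin n) → ℝ} {b l L : ℝ} (hf : CL f b l L) (hl : 0 < l) (hL : 0 ≤ L)
    (he : ∀ k x, f (R k x) = f x)
    {h : ℝ} (hh : 0 < h) (h1 : h ≤ 1) (h2 : h * (kap + Lam) ≤ 1) :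
    (1 + 2 * h / Co) * ∫ x, ‖fderiv ℝ (PP D h f) x‖ ^ 2 ∂(tgt V) ≤
      ∫ x, ‖fderiv ℝ f x‖ ^ 2 ∂(tgt V) + (2 * l * L) * h ^ 2 * (C0 V D Lam C3).toReal := by
  have hfin := tgt_finite hP
  have hgc : ∀ k, Continuous (fun y => fderiv ℝ f y (v k)) := fun k => hf.g_meas _
  have hgb : ∀ k y, |fderiv ℝ f y (v k)| ≤ l * (‖v k‖ + 1) := fun k y => CL.gv_bd hf _ _
  have hg2b : ∀ k y, |fderiv ℝ f y (v k) ^ 2| ≤ (l * (‖v k‖ + 1)) ^ 2 := fun k y => by
    rw [abs_pow]; exact pow_le_pow_left₀ (abs_nonneg _) (hgb k y) 2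
  set w : K → EuclideanSpace ℝ (Fin n) → ℝ := fun k => PP D h (fun y => fderiv ℝ f y (v k))
    with hw
  set q : K → EuclideanSpace ℝ (Fin n) → ℝ := fun k => PP D h (fun y => fderiv ℝ f y (v k) ^ 2)
    with hq
  have hwc : ∀ k, Continuous (w k) := fun k => PP_cont hP (hgc k) (hgb k) h
  have hqc : ∀ k, Continuous (q k) := fun k => PP_cont hP ((hgc k).pow 2) (hg2b k) h
  have hwb : ∀ k x, |w k x| ≤ l * (‖v k‖ + 1) := fun k x => PP_bd (hgb k) h x
  have hqb : ∀ k x, |q k x| ≤ (l * (‖v k‖ + 1)) ^ 2 := fun k x => PP_bd (hg2b k) h x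
  have iw : ∀ k, Integrable (fun x => w k x ^ 2) (tgt V) := fun k =>
    bint_tgt hP ((hwc k).pow 2) (B := (l * (‖v k‖ + 1)) ^ 2) (fun x => by
      show |w k x ^ 2| ≤ (l * (‖v k‖ + 1)) ^ 2
      rw [abs_pow]; exact pow_le_pow_left₀ (abs_nonneg _) (hwb k x) 2)
  have iq : ∀ k, Integrable (q k) (tgt V) := fun k => bint_tgt hP (hqc k) (hqb k)
  -- one direction
  have key : ∀ k, (1 + 2 * h / Co) * ∫ x, w k x ^ 2 ∂(tgt V) ≤ ∫ x, q k x ∂(tgt V) := by
    intro k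
    obtain ⟨⟨U, L', hTF⟩, hgr⟩ := PP_gv_TF hP hf hl hh h2 (v k)
    have hodd : ∀ x, w k (R k x) = - w k x := by
      intro x
      rw [hw]
      simp only []
      rw [PP_comp_iso (hD k)]
      unfold PP
      rw [← integral_neg]
      congr 1
      funext z
      exact grad_odd_iso (hRv k) hf.cd (he k) _
    have h3 := hO k (w k) U L' hTF hodd
    have hgi : Integrable (fun x => ‖fderiv ℝ (w k) x‖ ^ 2) (tgt V) :=
      bint_tgt hP ((hTF.cd.continuous_fderiv (by simp)).norm.pow 2) (B := L' ^ 2) (fun x => by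
        show |‖fderiv ℝ (w k) x‖ ^ 2| ≤ L' ^ 2
        rw [abs_of_nonneg (by positivity)]
        exact pow_le_pow_left₀ (norm_nonneg _) (hTF.gd x) 2)
    have h4 : ∫ x, ‖fderiv ℝ (w k) x‖ ^ 2 ∂(tgt V) ≤
        1 / (2 * h) * (∫ x, q k x ∂(tgt V) - ∫ x, w k x ^ 2 ∂(tgt V)) := by
      rw [← integral_sub (iq k) (iw k), ← integral_const_mul]
      apply integral_mono hgi (((iq k).sub (iw k)).const_mul _)
      intro x
      exact hgr x
    have h5 := h3.trans (mul_le_mul_of_nonneg_left h4 hCo.le)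
    have h6 := mul_le_mul_of_nonneg_left h5 (by positivity : 0 ≤ 2 * h / Co)
    have h7 : 2 * h / Co * (Co * (1 / (2 * h) * (∫ x, q k x ∂(tgt V) -
        ∫ x, w k x ^ 2 ∂(tgt V)))) = ∫ x, q k x ∂(tgt V) - ∫ x, w k x ^ 2 ∂(tgt V) := by
      field_simp
    rw [h7] at h6
    linarith
  -- the sum
  have s1 : ∫ x, ‖fderiv ℝ (PP D h f) x‖ ^ 2 ∂(tgt V) ≤ ∑ k, α k * ∫ x, w k x ^ 2 ∂(tgt V) := by
    simp only [← integral_const_mul]
    rw [← integral_finsetSum _ fun k _ => (iw k).const_mul _]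
    apply integral_mono (PP_grad_int hP hf hh.le h2)
      (integrable_finsetSum _ fun k _ => (iw k).const_mul _)
    intro x
    show ‖fderiv ℝ (PP D h f) x‖ ^ 2 ≤ ∑ k, α k * w k x ^ 2
    have h3 : ‖fderiv ℝ (PP D h f) x‖ ≤ ‖GG D h f x‖ := by
      refine (PP_grad_le hP hf hh.le h2 x).trans ?_
      exact mul_le_of_le_one_right (norm_nonneg _) (kh_le hP hh.le h2).2
    refine (pow_le_pow_left₀ (norm_nonneg _) h3 2).trans ?_
    rw [hfr]
    apply le_of_eq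
    apply Finset.sum_congr rfl
    intro k _
    rw [GG_apply hf]
  have s2 : ∑ k, α k * ∫ x, q k x ∂(tgt V) =
      ∫ x, PP D h (fun y => ‖fderiv ℝ f y‖ ^ 2) x ∂(tgt V) := by
    simp only [← integral_const_mul]
    rw [← integral_finsetSum _ fun k _ => (iq k).const_mul _]
    congr 1
    funext x
    rw [hq]
    unfold PP
    simp only [← integral_const_mul]
    rw [← integral_finsetSum]
    · congr 1
      funext z
      rw [hfr]
    · intro k _
      have : Integrable (fun z => fderiv ℝ f (tu D h x + Real.sqrt (2 * h) • z) (v k) ^ 2)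
          (stdGaussian (EuclideanSpace ℝ (Fin n))) := by
        refine (integrable_const ((l * (‖v k‖ + 1)) ^ 2)).mono'
          (((hgc k).pow 2).comp (aff_continuous _ _)).aestronglyMeasurable
          (ae_of_all _ fun z => ?_)
        rw [Real.norm_eq_abs]
        exact hg2b k _
      exact this.const_mul _
  refine le_trans ?_ (PP_bias_grad hP hf hL hh h1)
  rw [← s2]
  calc (1 + 2 * h / Co) * ∫ x, ‖fderiv ℝ (PP D h f) x‖ ^ 2 ∂(tgt V)
      ≤ (1 + 2 * h / Co) * ∑ k, α k * ∫ x, w k x ^ 2 ∂(tgt V) :=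
        mul_le_mul_of_nonneg_left s1 (by positivity)
    _ = ∑ k, α k * ((1 + 2 * h / Co) * ∫ x, w k x ^ 2 ∂(tgt V)) := by
        rw [Finset.mul_sum]
        apply Finset.sum_congr rfl
        intro k _
        ring
    _ ≤ _ := Finset.sum_le_sum fun k _ => mul_le_mul_of_nonneg_left (key k) (hα k)

/-- the iterates stay in the class -/
lemma iter_class (hP : Pot V D kap Lam C3) (hLH : 0 ≤ LH)
    (hH : ∀ x y, ‖fderiv ℝ D x - fderiv ℝ D y‖ ≤ LH * ‖x - y‖)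
    {Q : (EuclideanSpace ℝ (Fin n) → ℝ) → Prop}
    (hQ : ∀ h f, Q f → Q (PP D h f))
    {f : EuclideanSpace ℝ (Fin n) → ℝ} {b l L : ℝ} (hf : CL f b l L) (hL : 0 ≤ L)
    (hLL : LH * l ≤ kap * L) (he : Q f)
    {h : ℝ} (hh : 0 ≤ h) (h2 : h * (kap + Lam) ≤ 1) (k : ℕ) :
    CL ((PP D h)^[k] f) b ((1 - kap * h) ^ k * l) L ∧ Q ((PP D h)^[k] f) := by
  obtain ⟨hk0, hk1⟩ := kh_le hP hh h2
  obtain ⟨hb, hl⟩ := hf.nonneg
  have hk := hP.kpos
  induction k with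
  | zero => exact ⟨by simpa using hf, by simpa using he⟩
  | succ k ih =>
    obtain ⟨ih1, ih2⟩ := ih
    rw [Function.iterate_succ_apply']
    refine ⟨(PP_CL hP hH ih1 hL hh h2).mono le_rfl (le_of_eq (by ring)) ?_, hQ h _ ih2⟩
    have h3 : (1 - kap * h) ^ k ≤ 1 := pow_le_one₀ hk0 hk1
    have h4 : (1 - kap * h) ^ k * l ≤ l := mul_le_of_le_one_left hl h3
    have h5 : h * LH * ((1 - kap * h) ^ k * l) ≤ h * LH * l :=
      mul_le_mul_of_nonneg_left h4 (by positivity)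
    have h6 : (1 - kap * h) ^ 2 * L ≤ (1 - kap * h) * L := by
      apply mul_le_mul_of_nonneg_right _ hL
      nlinarith
    have h7 := mul_le_mul_of_nonneg_left hLL hh
    nlinarith

/-- Poincare inequality from an energy inequality along the chain -/
theorem chain_poincare (hP : Pot V D kap Lam C3) (hLH : 0 ≤ LH)
    (hH : ∀ x y, ‖fderiv ℝ D x - fderiv ℝ D y‖ ≤ LH * ‖x - y‖)
    {Q : (EuclideanSpace ℝ (Fin n) → ℝ) → Prop}
    (hQ : ∀ h f, Q f → Q (PP D h f))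
    {Co : ℝ} (hCo : 0 < Co)
    (hE : ∀ (f : EuclideanSpace ℝ (Fin n) → ℝ) (b l L : ℝ), CL f b l L → 0 < l → 0 ≤ L → Q f →
      ∀ h : ℝ, 0 < h → h ≤ 1 → h * (kap + Lam) ≤ 1 →
      (1 + 2 * h / Co) * ∫ x, ‖fderiv ℝ (PP D h f) x‖ ^ 2 ∂(tgt V) ≤
      ∫ x, ‖fderiv ℝ f x‖ ^ 2 ∂(tgt V) + (2 * l * L) * h ^ 2 * (C0 V D Lam C3).toReal)
    {f : EuclideanSpace ℝ (Fin n) → ℝ} {b l0 L0 : ℝ} (hf0 : CL f b l0 L0) (he : Q f) :
    WV V f ≤ (tgt V).real Set.univ * Co * ∫ x, ‖fderiv ℝ f x‖ ^ 2 ∂(tgt V) := by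
  have hfin := tgt_finite hP
  have hk := hP.kpos
  have hLam := hP.Lpos
  obtain ⟨hb, hl0⟩ := hf0.nonneg
  set l := l0 + 1 with hl
  have hlpos : 0 < l := by linarith
  set L := max (max L0 0) (LH * l / kap) with hLdef
  have hL0 : 0 ≤ L := le_trans (le_max_right L0 0) (le_max_left _ _)
  have hf : CL f b l L := hf0.mono le_rfl (by linarith) (le_trans (le_max_left _ _) (le_max_left _ _))
  have hLL : LH * l ≤ kap * L := by
    have : LH * l / kap ≤ L := le_max_right _ _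
    rw [div_le_iff₀ hk] at this
    linarith
  set M := (tgt V).real Set.univ with hM
  have hM0 : 0 ≤ M := measureReal_nonneg
  set e : ℕ → ℝ → ℝ := fun k h => ∫ x, ‖fderiv ℝ ((PP D h)^[k] f) x‖ ^ 2 ∂(tgt V) with he0
  set K2 := 2 * l * L * (C0 V D Lam C3).toReal with hK2
  have hK20 : 0 ≤ K2 := by positivity
  set K := KV V D Lam C3 b l L with hK
  set I2 := ∫ x, ‖x‖ ^ 2 ∂(tgt V) with hI2
  -- the telescoping inequality
  have tel : ∀ h : ℝ, 0 < h → h ≤ 1 → h * (kap + Lam) ≤ 1 → ∀ N : ℕ,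
      WV V f ≤ WV V ((PP D h)^[N] f) + M * (Co + 2 * h) * (e 0 h - e N h) +
        N * ((K + M * Co * K2) * (h * Real.sqrt h)) := by
    intro h hh h1 h2 N
    obtain ⟨hk0, hk1⟩ := kh_le hP hh.le h2
    have hhr : h ^ 2 ≤ h * Real.sqrt h := by
      have h3 : Real.sqrt h ^ 2 = h := Real.sq_sqrt hh.le
      have h4 : Real.sqrt h ≤ 1 := Real.sqrt_le_one.mpr h1
      have h5 : 0 ≤ Real.sqrt h := Real.sqrt_nonneg _
      have h6 : h ≤ Real.sqrt h := by nlinarith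
      nlinarith
    induction N with
    | zero => simp
    | succ N ih =>
      obtain ⟨c1, c2⟩ := iter_class hP hLH hH hQ hf hL0 hLL he hh.le h2 N
      have c3 : CL ((PP D h)^[N] f) b l L :=
        c1.mono le_rfl (mul_le_of_le_one_left hlpos.le (pow_le_one₀ hk0 hk1)) le_rfl
      have v1 := var_step hP c3 hL0 hh h1
      have v2 := hE _ b l L c3 hlpos hL0 c2 h hh h1 h2
      rw [← Function.iterate_succ_apply' (PP D h) N f] at v1 v2
      have v3 : (Co + 2 * h) * e (N + 1) h ≤ Co * e N h + Co * (K2 * h ^ 2) := by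
        have h3 := mul_le_mul_of_nonneg_left v2 hCo.le
        have h4 : Co * ((1 + 2 * h / Co) * e (N + 1) h) = (Co + 2 * h) * e (N + 1) h := by
          field_simp
        have h5 : Co * ((1 + 2 * h / Co) * ∫ x, ‖fderiv ℝ ((PP D h)^[N + 1] f) x‖ ^ 2 ∂(tgt V)) =
          (Co + 2 * h) * e (N + 1) h := h4
        rw [Nat.succ_eq_add_one, h5] at h3
        have h6 : Co * (∫ x, ‖fderiv ℝ ((PP D h)^[N] f) x‖ ^ 2 ∂(tgt V) +
          2 * l * L * h ^ 2 * (C0 V D Lam C3).toReal) = Co * e N h + Co * (K2 * h ^ 2) := by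
          rw [he0, hK2]; ring
        linarith
      have v4 := mul_le_mul_of_nonneg_left v3 hM0
      have v5 : M * Co * K2 * h ^ 2 ≤ M * Co * K2 * (h * Real.sqrt h) :=
        mul_le_mul_of_nonneg_left hhr (by positivity)
      have v6 : WV V ((PP D h)^[N] f) ≤ WV V ((PP D h)^[N + 1] f) + 2 * h * M * e N h +
          K * (h * Real.sqrt h) := v1
      push_cast
      linarith
  -- bound of the last term
  have last : ∀ h : ℝ, 0 < h → h ≤ 1 → h * (kap + Lam) ≤ 1 → ∀ N : ℕ,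
      WV V ((PP D h)^[N] f) ≤ M * ((Real.exp (-(kap * (N * h))) * l) ^ 2 * I2) := by
    intro h hh h1 h2 N
    obtain ⟨hk0, hk1⟩ := kh_le hP hh.le h2
    obtain ⟨c1, c2⟩ := iter_class hP hLH hH hQ hf hL0 hLL he hh.le h2 N
    have h3 : (1 - kap * h) ^ N ≤ Real.exp (-(kap * (N * h))) := by
      have h4 : 1 - kap * h ≤ Real.exp (-(kap * h)) := by
        have := Real.add_one_le_exp (-(kap * h)); linarith
      calc (1 - kap * h) ^ N ≤ Real.exp (-(kap * h)) ^ N := pow_le_pow_left₀ hk0 h4 N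
        _ = _ := by rw [← Real.exp_nat_mul]; congr 1; ring
    have c3 : CL ((PP D h)^[N] f) b (Real.exp (-(kap * (N * h))) * l) L :=
      c1.mono le_rfl (mul_le_mul_of_nonneg_right h3 hlpos.le) le_rfl
    exact WV_le hP c3
  -- limit
  have hfin2 : ∀ᶠ m : ℕ in atTop, WV V f ≤ M * ((Real.exp (-(kap * m)) * l) ^ 2 * I2) +
      M * (Co + 2 * (1 / (m : ℝ)) ^ 4) * e 0 1 + (K + M * Co * K2) * (1 / (m : ℝ)) := by
    have hlarge : ∀ᶠ m : ℕ in atTop, kap + Lam ≤ (m : ℝ) :=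
      tendsto_natCast_atTop_atTop.eventually_ge_atTop _
    filter_upwards [hlarge, eventually_ge_atTop 1] with m hm hm1
    have hm1' : (1 : ℝ) ≤ m := by exact_mod_cast hm1
    have hm0 : (0 : ℝ) < m := by linarith
    set h : ℝ := (1 / (m : ℝ)) ^ 4 with hh
    have hinv : 1 / (m : ℝ) ≤ 1 := by rw [div_le_one hm0]; exact hm1'
    have hh0 : 0 < h := by positivity
    have hh1 : h ≤ 1 := pow_le_one₀ (by positivity) hinv
    have hh2 : h * (kap + Lam) ≤ 1 := by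
      have h3 : h ≤ 1 / (m : ℝ) := by
        calc h = (1 / (m : ℝ)) ^ 3 * (1 / (m : ℝ)) := by rw [hh]; ring
          _ ≤ 1 * (1 / (m : ℝ)) := by
            apply mul_le_mul_of_nonneg_right _ (by positivity)
            exact pow_le_one₀ (by positivity) hinv
          _ = _ := one_mul _
      calc h * (kap + Lam) ≤ (1 / (m : ℝ)) * m := mul_le_mul h3 hm (by linarith) (by positivity)
        _ = 1 := by field_simp
    have t1 := tel h hh0 hh1 hh2 (m ^ 5)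
    have t2 := last h hh0 hh1 hh2 (m ^ 5)
    have e3 : ((m ^ 5 : ℕ) : ℝ) * h = m := by
      rw [hh]; push_cast; field_simp
    rw [e3] at t2
    have hsq : Real.sqrt h = (1 / (m : ℝ)) ^ 2 := by
      rw [hh, show (1 / (m : ℝ)) ^ 4 = ((1 / (m : ℝ)) ^ 2) ^ 2 by ring]
      exact Real.sqrt_sq (by positivity)
    have e4 : ((m ^ 5 : ℕ) : ℝ) * ((K + M * Co * K2) * (h * Real.sqrt h)) =
        (K + M * Co * K2) * (1 / (m : ℝ)) := by
      rw [hsq, hh]; push_cast; field_simp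
    rw [e4] at t1
    have e5 : 0 ≤ e (m ^ 5) h := integral_nonneg fun x => by positivity
    have e6 : e 0 h = e 0 1 := rfl
    have e7 : M * (Co + 2 * h) * (e 0 h - e (m ^ 5) h) ≤ M * (Co + 2 * h) * e 0 1 := by
      rw [e6]
      apply mul_le_mul_of_nonneg_left _ (by positivity)
      linarith
    linarith
  have hlim : Tendsto (fun m : ℕ => M * ((Real.exp (-(kap * m)) * l) ^ 2 * I2) +
      M * (Co + 2 * (1 / (m : ℝ)) ^ 4) * e 0 1 + (K + M * Co * K2) * (1 / (m : ℝ))) atTop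
      (𝓝 (M * ((0 * l) ^ 2 * I2) + M * (Co + 2 * 0 ^ 4) * e 0 1 + (K + M * Co * K2) * 0)) := by
    have l1 : Tendsto (fun m : ℕ => 1 / (m : ℝ)) atTop (𝓝 0) := tendsto_one_div_atTop_nhds_zero_nat
    have l2 : Tendsto (fun m : ℕ => Real.exp (-(kap * m))) atTop (𝓝 0) := by
      apply Real.tendsto_exp_atBot.comp
      apply tendsto_neg_atTop_atBot.comp
      exact Tendsto.const_mul_atTop hk tendsto_natCast_atTop_atTop
    exact (((((l2.mul_const l).pow 2).mul_const I2).const_mul M).add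
      (((((l1.pow 4).const_mul 2).const_add Co).const_mul M).mul_const (e 0 1))).add
      (l1.const_mul _)
  have := ge_of_tendsto hlim hfin2
  have e8 : e 0 1 = ∫ x, ‖fderiv ℝ f x‖ ^ 2 ∂(tgt V) := rfl
  rw [e8] at this
  linarith

end Pool.Agent.Lib.MP_6d896a_gt.EX
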