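import Mathlib
import Pool.Agent.Lib.MP_6d896a_gt.Ex7

/-!
The Poincare inequality for potentials invariant under a finite reflection group.
-/

namespace Pool.Agent.Lib.MP_6d896a_gt.EX

open MeasureTheory ProbabilityTheory Filter Topology Metric
open scoped ENNReal NNReal

variable {n : ℕ} {V : EuclideanSpace ℝ (Fin n) → ℝ}
  {D : EuclideanSpace ℝ (Fin n) → EuclideanSpace ℝ (Fin n)} {kap Lam C3 LH : ℝ}

/-- energy -/
noncomputable def En (V f : EuclideanSpace ℝ (Fin n) → ℝ) : ℝ :=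
  ∫ x, ‖fderiv ℝ f x‖ ^ 2 ∂(tgt V)

/-- second moment -/
noncomputable def W2 (V f : EuclideanSpace ℝ (Fin n) → ℝ) : ℝ := ∫ x, f x ^ 2 ∂(tgt V)

/-- test functions -/
def CLe (f : EuclideanSpace ℝ (Fin n) → ℝ) : Prop := ∃ b l L, CL f b l L

lemma CLe.cd {f : EuclideanSpace ℝ (Fin n) → ℝ} (hf : CLe f) : ContDiff ℝ 1 f := by
  obtain ⟨b, l, L, h⟩ := hf
  exact h.cd

lemma CLe.fd {f : EuclideanSpace ℝ (Fin n) → ℝ} (hf : CLe f) (x : EuclideanSpace ℝ (Fin n)) :
    HasFDerivAt f (fderiv ℝ f x) x := (hf.cd.differentiable (by simp) x).hasFDerivAt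

lemma CLe.int (hP : Pot V D kap Lam C3) {f : EuclideanSpace ℝ (Fin n) → ℝ} (hf : CLe f) :
    Integrable f (tgt V) := by
  obtain ⟨b, l, L, h⟩ := hf
  exact bint_tgt hP h.cd.continuous h.bd

lemma CLe.int_sq (hP : Pot V D kap Lam C3) {f : EuclideanSpace ℝ (Fin n) → ℝ} (hf : CLe f) :
    Integrable (fun x => f x ^ 2) (tgt V) := by
  obtain ⟨b, l, L, h⟩ := hf
  exact bint_tgt hP (h.cd.continuous.pow 2) (B := b ^ 2) fun x => by
    show |f x ^ 2| ≤ b ^ 2
    rw [abs_pow]; exact pow_le_pow_left₀ (abs_nonneg _) (h.bd x) 2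

lemma CLe.int_gr (hP : Pot V D kap Lam C3) {f : EuclideanSpace ℝ (Fin n) → ℝ} (hf : CLe f) :
    Integrable (fun x => ‖fderiv ℝ f x‖ ^ 2) (tgt V) := by
  obtain ⟨b, l, L, h⟩ := hf
  exact bint_tgt hP (h.fdc.norm.pow 2) (B := l ^ 2) fun x => by
    show |‖fderiv ℝ f x‖ ^ 2| ≤ l ^ 2
    rw [abs_of_nonneg (by positivity)]
    exact pow_le_pow_left₀ (norm_nonneg _) (h.gd x) 2

lemma CLe.add {f g : EuclideanSpace ℝ (Fin n) → ℝ} (hf : CLe f) (hg : CLe g) :
    CLe (fun x => f x + g x) := by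
  have e : ∀ x, fderiv ℝ (fun x => f x + g x) x = fderiv ℝ f x + fderiv ℝ g x := fun x =>
    ((hf.fd x).add (hg.fd x)).fderiv
  obtain ⟨b, l, L, h⟩ := hf
  obtain ⟨b', l', L', h'⟩ := hg
  refine ⟨b + b', l + l', L + L', h.cd.add h'.cd, fun x => ?_, fun x => ?_, fun x y => ?_⟩
  · exact (abs_add_le _ _).trans (add_le_add (h.bd x) (h'.bd x))
  · rw [e]; exact (norm_add_le _ _).trans (add_le_add (h.gd x) (h'.gd x))
  · rw [e, e, add_sub_add_comm]
    refine (norm_add_le _ _).trans ?_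
    have := add_le_add (h.hd x y) (h'.hd x y)
    linarith

lemma CLe.smul {f : EuclideanSpace ℝ (Fin n) → ℝ} (hf : CLe f) (c : ℝ) :
    CLe (fun x => c * f x) := by
  have e : ∀ x, fderiv ℝ (fun x => c * f x) x = c • fderiv ℝ f x := fun x =>
    ((hf.fd x).const_mul c).fderiv
  obtain ⟨b, l, L, h⟩ := hf
  refine ⟨|c| * b, |c| * l, |c| * L, contDiff_const.mul h.cd, fun x => ?_, fun x => ?_,
    fun x y => ?_⟩
  · rw [abs_mul]; exact mul_le_mul_of_nonneg_left (h.bd x) (abs_nonneg _)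
  · rw [e, norm_smul, Real.norm_eq_abs]; exact mul_le_mul_of_nonneg_left (h.gd x) (abs_nonneg _)
  · rw [e, e, ← smul_sub, norm_smul, Real.norm_eq_abs, mul_assoc]
    exact mul_le_mul_of_nonneg_left (h.hd x y) (abs_nonneg _)

lemma CLe.sub {f g : EuclideanSpace ℝ (Fin n) → ℝ} (hf : CLe f) (hg : CLe g) :
    CLe (fun x => f x - g x) := by
  have := hf.add (hg.smul (-1))
  have e : (fun x => f x + -1 * g x) = fun x => f x - g x := by funext x; ring
  rwa [e] at this

lemma CLe.zero : CLe (fun _ : EuclideanSpace ℝ (Fin n) => (0 : ℝ)) :=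
  ⟨0, 0, 0, contDiff_const, fun x => by simp, fun x => by simp, fun x y => by simp⟩

lemma CLe.sum {ι : Type*} (s : Finset ι) {F : ι → EuclideanSpace ℝ (Fin n) → ℝ}
    (hF : ∀ i, CLe (F i)) : CLe (fun x => ∑ i ∈ s, F i x) := by
  classical
  induction s using Finset.induction_on with
  | empty => simpa using CLe.zero
  | insert a s ha ih =>
    simp only [Finset.sum_insert ha]
    exact (hF a).add ih

lemma comp_iso_norm (L : EuclideanSpace ℝ (Fin n) →L[ℝ] ℝ)
    (R : EuclideanSpace ℝ (Fin n) ≃ₗᵢ[ℝ] EuclideanSpace ℝ (Fin n)) :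
    ‖L.comp (R.toContinuousLinearEquiv :
        EuclideanSpace ℝ (Fin n) →L[ℝ] EuclideanSpace ℝ (Fin n))‖ = ‖L‖ :=
  L.opNorm_comp_linearIsometryEquiv R

lemma CLe.comp {f : EuclideanSpace ℝ (Fin n) → ℝ} (hf : CLe f)
    (R : EuclideanSpace ℝ (Fin n) ≃ₗᵢ[ℝ] EuclideanSpace ℝ (Fin n)) :
    CLe (fun x => f (R x)) := by
  obtain ⟨b, l, L, h⟩ := hf
  refine ⟨b, l, L, h.cd.comp R.toContinuousLinearEquiv.contDiff, fun x => h.bd _, fun x => ?_,
    fun x y => ?_⟩
  · rw [(comp_iso_fderiv h.cd R x).fderiv, comp_iso_norm]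
    exact h.gd _
  · rw [(comp_iso_fderiv h.cd R x).fderiv, (comp_iso_fderiv h.cd R y).fderiv,
      ← ContinuousLinearMap.sub_comp, comp_iso_norm]
    refine (h.hd _ _).trans (le_of_eq ?_)
    rw [← map_sub, LinearIsometryEquiv.norm_map]

lemma tgt_iso (hV : Continuous V) {R : EuclideanSpace ℝ (Fin n) ≃ₗᵢ[ℝ] EuclideanSpace ℝ (Fin n)}
    (hVR : ∀ x, V (R x) = V x) (F : EuclideanSpace ℝ (Fin n) → ℝ) :
    ∫ x, F (R x) ∂(tgt V) = ∫ x, F x ∂(tgt V) := by
  rw [integral_tgt hV, integral_tgt hV]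
  have hme : MeasurableEmbedding (R : EuclideanSpace ℝ (Fin n) → EuclideanSpace ℝ (Fin n)) :=
    R.toHomeomorph.measurableEmbedding
  have h1 := (R.measurePreserving).integral_comp hme (fun x => F x * Real.exp (-V x))
  rw [← h1]
  congr 1
  funext x
  show F (R x) * Real.exp (-V x) = F (R x) * Real.exp (-V (R x))
  rw [hVR]

lemma En_comp (hV : Continuous V) {R : EuclideanSpace ℝ (Fin n) ≃ₗᵢ[ℝ] EuclideanSpace ℝ (Fin n)}
    (hVR : ∀ x, V (R x) = V x) {f : EuclideanSpace ℝ (Fin n) → ℝ} (hf : CLe f) :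
    En V (fun x => f (R x)) = En V f := by
  unfold En
  rw [← tgt_iso hV hVR (fun x => ‖fderiv ℝ f x‖ ^ 2)]
  congr 1
  funext x
  rw [(comp_iso_fderiv hf.cd R x).fderiv, comp_iso_norm]

lemma W2_comp (hV : Continuous V) {R : EuclideanSpace ℝ (Fin n) ≃ₗᵢ[ℝ] EuclideanSpace ℝ (Fin n)}
    (hVR : ∀ x, V (R x) = V x) (f : EuclideanSpace ℝ (Fin n) → ℝ) :
    W2 V (fun x => f (R x)) = W2 V f := tgt_iso hV hVR (fun x => f x ^ 2)

lemma En_nonneg (f : EuclideanSpace ℝ (Fin n) → ℝ) : 0 ≤ En V f :=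
  integral_nonneg fun x => by positivity

lemma En_smul (f : EuclideanSpace ℝ (Fin n) → ℝ) (hf : CLe f) (c : ℝ) :
    En V (fun x => c * f x) = c ^ 2 * En V f := by
  unfold En
  rw [← integral_const_mul]
  congr 1
  funext x
  rw [((hf.fd x).const_mul c).fderiv, norm_smul, mul_pow, Real.norm_eq_abs, sq_abs]

lemma En_add_le (hP : Pot V D kap Lam C3) {f g : EuclideanSpace ℝ (Fin n) → ℝ} (hf : CLe f)
    (hg : CLe g) : En V (fun x => f x + g x) ≤ 2 * En V f + 2 * En V g := by
  unfold En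
  rw [← integral_const_mul, ← integral_const_mul,
    ← integral_add ((hf.int_gr hP).const_mul _) ((hg.int_gr hP).const_mul _)]
  apply integral_mono ((hf.add hg).int_gr hP)
    (((hf.int_gr hP).const_mul _).add ((hg.int_gr hP).const_mul _))
  intro x
  show ‖fderiv ℝ (fun x => f x + g x) x‖ ^ 2 ≤ 2 * ‖fderiv ℝ f x‖ ^ 2 + 2 * ‖fderiv ℝ g x‖ ^ 2
  have e : fderiv ℝ (fun x => f x + g x) x = fderiv ℝ f x + fderiv ℝ g x :=
    ((hf.fd x).add (hg.fd x)).fderiv
  rw [e]
  have h1 := norm_add_le (fderiv ℝ f x) (fderiv ℝ g x)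
  have h2 := norm_nonneg (fderiv ℝ f x + fderiv ℝ g x)
  nlinarith [sq_nonneg (‖fderiv ℝ f x‖ - ‖fderiv ℝ g x‖)]

section family

variable {ι : Type} [Fintype ι]
  (T : ι → EuclideanSpace ℝ (Fin n) ≃ₗᵢ[ℝ] EuclideanSpace ℝ (Fin n))

/-- average over a family of isometries -/
noncomputable def av (f : EuclideanSpace ℝ (Fin n) → ℝ) (x : EuclideanSpace ℝ (Fin n)) : ℝ :=
  (Fintype.card ι : ℝ)⁻¹ * ∑ i, f (T i x)

lemma av_CLe {f : EuclideanSpace ℝ (Fin n) → ℝ} (hf : CLe f) : CLe (av T f) :=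
  (CLe.sum Finset.univ (F := fun i x => f (T i x)) fun i => hf.comp (T i)).smul _

lemma av_fderiv {f : EuclideanSpace ℝ (Fin n) → ℝ} (hf : CLe f)
    (x w : EuclideanSpace ℝ (Fin n)) :
    fderiv ℝ (av T f) x w = (Fintype.card ι : ℝ)⁻¹ * ∑ i, fderiv ℝ (fun y => f (T i y)) x w := by
  have h1 : HasFDerivAt (av T f) ((Fintype.card ι : ℝ)⁻¹ • ∑ i, fderiv ℝ (fun y => f (T i y)) x) x := by
    have h2 : HasFDerivAt (fun x => ∑ i, f (T i x)) (∑ i, fderiv ℝ (fun y => f (T i y)) x) x :=
      HasFDerivAt.fun_sum fun i _ => (hf.comp (T i)).fd x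
    exact h2.const_mul _
  rw [h1.fderiv]
  simp

lemma sum_sq_dev [Nonempty ι] (a : ι → ℝ) :
    ∑ i, (a i - (Fintype.card ι : ℝ)⁻¹ * ∑ j, a j) ^ 2 =
      ∑ i, a i ^ 2 - Fintype.card ι * ((Fintype.card ι : ℝ)⁻¹ * ∑ j, a j) ^ 2 := by
  have hN : (Fintype.card ι : ℝ) ≠ 0 := by exact_mod_cast Fintype.card_ne_zero
  set m := (Fintype.card ι : ℝ)⁻¹ * ∑ j, a j with hm
  have h1 : ∑ j, a j = Fintype.card ι * m := by rw [hm]; field_simp
  have e : ∀ i, (a i - m) ^ 2 = a i ^ 2 - 2 * m * a i + m ^ 2 := fun i => by ring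
  simp only [e, Finset.sum_add_distrib, Finset.sum_sub_distrib, ← Finset.mul_sum, h1]
  simp
  ring

variable {T}

/-- decomposition of the energy -/
lemma En_av [Nonempty ι] (hP : Pot V D kap Lam C3) (hT : ∀ i x, V (T i x) = V x)
    {f : EuclideanSpace ℝ (Fin n) → ℝ} (hf : CLe f) (hinv : ∀ i x, av T f (T i x) = av T f x) :
    En V f = En V (av T f) + En V (fun x => f x - av T f x) := by
  have hN : (0 : ℝ) < Fintype.card ι := by exact_mod_cast Fintype.card_pos
  have ha := av_CLe T hf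
  have h1 : ∀ i, En V (fun x => f (T i x) - av T f x) = En V (fun x => f x - av T f x) := by
    intro i
    rw [← En_comp hP.cV (hT i) (hf.sub ha)]
    congr 1
    funext x
    show f (T i x) - av T f x = f (T i x) - av T f (T i x)
    rw [hinv]
  have h2 : ∑ i, En V (fun x => f (T i x) - av T f x) =
      ∑ i, En V (fun x => f (T i x)) - Fintype.card ι * En V (av T f) := by
    unfold En
    rw [← integral_finsetSum _ fun i _ => ((hf.comp (T i)).sub ha).int_gr hP,
      ← integral_finsetSum _ fun i _ => (hf.comp (T i)).int_gr hP, ← integral_const_mul,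
      ← integral_sub (integrable_finsetSum _ fun i _ => (hf.comp (T i)).int_gr hP)
        ((ha.int_gr hP).const_mul _)]
    congr 1
    funext x
    have e : ∀ i, fderiv ℝ (fun x => f (T i x) - av T f x) x =
        fderiv ℝ (fun x => f (T i x)) x - fderiv ℝ (av T f) x := fun i =>
      (((hf.comp (T i)).fd x).sub (ha.fd x)).fderiv
    simp only [opNorm_sq, e, Finset.mul_sum]
    rw [Finset.sum_comm, Finset.sum_comm (s := Finset.univ (α := ι)), ← Finset.sum_sub_distrib]
    apply Finset.sum_congr rfl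
    intro j _
    have := sum_sq_dev (fun i => fderiv ℝ (fun x => f (T i x)) x (ej j))
    simp only [_root_.sub_apply, av_fderiv T hf]
    exact this
  simp only [h1] at h2
  have h3 : ∀ i, En V (fun x => f (T i x)) = En V f := fun i => En_comp hP.cV (hT i) hf
  simp only [h3, Finset.sum_const, Finset.card_univ, nsmul_eq_mul] at h2
  have h4 : (Fintype.card ι : ℝ) * En V (fun x => f x - av T f x) =
    Fintype.card ι * (En V f - En V (av T f)) := by rw [h2]; ring
  have := mul_left_cancel₀ hN.ne' h4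
  linarith

/-- decomposition of the variance -/
lemma WV_av [Nonempty ι] (hP : Pot V D kap Lam C3) (hT : ∀ i x, V (T i x) = V x)
    {f : EuclideanSpace ℝ (Fin n) → ℝ} (hf : CLe f) (hinv : ∀ i x, av T f (T i x) = av T f x) :
    WV V f = WV V (av T f) + (tgt V).real Set.univ * W2 V (fun x => f x - av T f x) ∧
    ∫ x, (f x - av T f x) ∂(tgt V) = 0 := by
  have hN : (0 : ℝ) < Fintype.card ι := by exact_mod_cast Fintype.card_pos
  have ha := av_CLe T hf
  have h1 : ∀ i, W2 V (fun x => f (T i x) - av T f x) = W2 V (fun x => f x - av T f x) := by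
    intro i
    rw [← W2_comp hP.cV (hT i) (fun x => f x - av T f x)]
    congr 1
    funext x
    show f (T i x) - av T f x = f (T i x) - av T f (T i x)
    rw [hinv]
  have h2 : ∑ i, W2 V (fun x => f (T i x) - av T f x) =
      ∑ i, W2 V (fun x => f (T i x)) - Fintype.card ι * W2 V (av T f) := by
    unfold W2
    rw [← integral_finsetSum _ fun i _ => ((hf.comp (T i)).sub ha).int_sq hP,
      ← integral_finsetSum _ fun i _ => (hf.comp (T i)).int_sq hP, ← integral_const_mul,
      ← integral_sub (integrable_finsetSum _ fun i _ => (hf.comp (T i)).int_sq hP)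
        ((ha.int_sq hP).const_mul _)]
    congr 1
    funext x
    exact sum_sq_dev (fun i => f (T i x))
  simp only [h1] at h2
  have h3 : ∀ i, W2 V (fun x => f (T i x)) = W2 V f := fun i => W2_comp hP.cV (hT i) f
  simp only [h3, Finset.sum_const, Finset.card_univ, nsmul_eq_mul] at h2
  have h4 : (Fintype.card ι : ℝ) * W2 V (fun x => f x - av T f x) =
    Fintype.card ι * (W2 V f - W2 V (av T f)) := by rw [h2]; ring
  have h5 := mul_left_cancel₀ hN.ne' h4
  have h6 : ∫ x, av T f x ∂(tgt V) = ∫ x, f x ∂(tgt V) := by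
    unfold av
    rw [integral_const_mul, integral_finsetSum _ fun i _ => (hf.comp (T i)).int hP]
    have : ∀ i, ∫ x, f (T i x) ∂(tgt V) = ∫ x, f x ∂(tgt V) := fun i => tgt_iso hP.cV (hT i) f
    simp only [this, Finset.sum_const, Finset.card_univ, nsmul_eq_mul]
    field_simp
  refine ⟨?_, ?_⟩
  · unfold WV
    rw [h6]
    have e1 : ∫ x, f x ^ 2 ∂(tgt V) = W2 V f := rfl
    have e2 : ∫ x, av T f x ^ 2 ∂(tgt V) = W2 V (av T f) := rfl
    rw [e1, e2, h5]
    ring
  · rw [integral_sub (hf.int hP) (ha.int hP), h6, sub_self]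

end family

/-! ### the group -/

section group

variable {K : Type} [Fintype K]
  {R : K → EuclideanSpace ℝ (Fin n) ≃ₗᵢ[ℝ] EuclideanSpace ℝ (Fin n)}

omit [Fintype K] in
lemma V_closure (hVR : ∀ k x, V (R k x) = V x)
    (g : EuclideanSpace ℝ (Fin n) ≃ₗᵢ[ℝ] EuclideanSpace ℝ (Fin n))
    (hg : g ∈ Subgroup.closure (Set.range R)) : ∀ x, V (g x) = V x := by
  induction hg using Subgroup.closure_induction with
  | mem x hx => obtain ⟨k, rfl⟩ := hx; exact hVR k
  | one => intro x; rfl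
  | mul g h _ _ h1 h2 => intro x; show V (g (h x)) = V x; rw [h1, h2]
  | inv g _ h1 =>
    intro x
    have h3 : g (g⁻¹ x) = x := by
      show g (g.symm x) = x
      exact g.apply_symm_apply x
    rw [← h1 (g⁻¹ x), h3]

lemma dev_closure (hP : Pot V D kap Lam C3) (hVR : ∀ k x, V (R k x) = V x)
    (g : EuclideanSpace ℝ (Fin n) ≃ₗᵢ[ℝ] EuclideanSpace ℝ (Fin n))
    (hg : g ∈ Subgroup.closure (Set.range R)) : ∃ c : ℝ, 0 ≤ c ∧
      ∀ f : EuclideanSpace ℝ (Fin n) → ℝ, CLe f →
      En V (fun x => f x - f (g x)) ≤ c * ∑ k, En V (fun x => f x - f (R k x)) := by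
  induction hg using Subgroup.closure_induction with
  | mem x hx =>
    obtain ⟨k, rfl⟩ := hx
    refine ⟨1, zero_le_one, fun f _ => ?_⟩
    rw [one_mul]
    exact Finset.single_le_sum (f := fun k => En V (fun x => f x - f (R k x)))
      (fun k _ => En_nonneg _) (Finset.mem_univ k)
  | one =>
    refine ⟨0, le_rfl, fun f _ => ?_⟩
    rw [zero_mul]
    have e : (fun x : EuclideanSpace ℝ (Fin n) => f x -
      f ((1 : EuclideanSpace ℝ (Fin n) ≃ₗᵢ[ℝ] EuclideanSpace ℝ (Fin n)) x)) = fun _ => 0 := by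
      funext x
      show f x - f x = 0
      ring
    rw [e]
    unfold En
    simp
  | mul g h hg hh h1 h2 =>
    obtain ⟨c1, hc1, h1⟩ := h1
    obtain ⟨c2, hc2, h2⟩ := h2
    refine ⟨2 * c2 + 2 * c1, by positivity, fun f hf => ?_⟩
    have hS : 0 ≤ ∑ k, En V (fun x => f x - f (R k x)) := Finset.sum_nonneg fun k _ => En_nonneg _
    have e : (fun x => f x - f ((g * h) x)) =
        fun x => (f x - f (h x)) + (f (h x) - f (g (h x))) := by
      funext x
      show f x - f (g (h x)) = _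
      ring
    rw [e]
    have k1 := En_add_le hP (hf.sub (hf.comp h)) ((hf.sub (hf.comp g)).comp h)
    have k2 := En_comp hP.cV (V_closure hVR h hh) (hf.sub (hf.comp g))
    rw [k2] at k1
    refine k1.trans ?_
    have := h1 f hf
    have := h2 f hf
    nlinarith
  | inv g hg h1 =>
    obtain ⟨c1, hc1, h1⟩ := h1
    refine ⟨c1, hc1, fun f hf => ?_⟩
    have hg' := V_closure hVR g hg
    have k2 := En_comp hP.cV hg' (hf.sub (hf.comp g⁻¹))
    rw [← k2]
    have e : (fun x => (fun x => f x - f (g⁻¹ x)) (g x)) = fun x => -1 * (f x - f (g x)) := by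
      funext x
      have h3 : g⁻¹ (g x) = x := by
        show g.symm (g x) = x
        exact g.symm_apply_apply x
      show f (g x) - f (g⁻¹ (g x)) = _
      rw [h3]; ring
    rw [e, En_smul _ (hf.sub (hf.comp g))]
    have := h1 f hf
    linarith

/-- the Poincare inequality -/
theorem group_poincare (hP : Pot V D kap Lam C3) (hLH : 0 ≤ LH)
    (hH : ∀ x y, ‖fderiv ℝ D x - fderiv ℝ D y‖ ≤ LH * ‖x - y‖)
    {v : K → EuclideanSpace ℝ (Fin n)} {α : K → ℝ} (hα : ∀ k, 0 ≤ α k)
    (hfr : ∀ L : EuclideanSpace ℝ (Fin n) →L[ℝ] ℝ, ‖L‖ ^ 2 = ∑ k, α k * (L (v k)) ^ 2)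
    (hRv : ∀ k, R k (v k) = -v k) (hRR : ∀ k x, R k (R k x) = x)
    (hfinG : Finite (Subgroup.closure (Set.range R)))
    (hD : ∀ k x, D (R k x) = R k (D x)) (hVR : ∀ k x, V (R k x) = V x)
    {Co : ℝ} (hCo : 0 < Co)
    (hO : ∀ (k : K) (u : EuclideanSpace ℝ (Fin n) → ℝ) (U L : ℝ), TF u U L →
      (∀ x, u (R k x) = - u x) →
      ∫ x, u x ^ 2 ∂(tgt V) ≤ Co * ∫ x, ‖fderiv ℝ u x‖ ^ 2 ∂(tgt V))
    {f : EuclideanSpace ℝ (Fin n) → ℝ} (hf : CLe f) :
    WV V f ≤ (tgt V).real Set.univ * Co * En V f := by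
  classical
  set G := Subgroup.closure (Set.range R) with hG
  have hftG : Fintype G := Fintype.ofFinite G
  set M := (tgt V).real Set.univ with hM
  have hM0 : 0 ≤ M := measureReal_nonneg
  have hk := hP.kpos
  set T : G → EuclideanSpace ℝ (Fin n) ≃ₗᵢ[ℝ] EuclideanSpace ℝ (Fin n) := fun g => g.1 with hT
  have hVT : ∀ (g : G) x, V (T g x) = V x := fun g x => V_closure hVR g.1 g.2 x
  -- invariance of the average
  have hinv : ∀ (f : EuclideanSpace ℝ (Fin n) → ℝ) (g : G) x, av T f (T g x) = av T f x := by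
    intro f g x
    unfold av
    congr 1
    exact Fintype.sum_equiv (Equiv.mulRight g) _ _ fun h => rfl
  have hinvR : ∀ (f : EuclideanSpace ℝ (Fin n) → ℝ) (k : K) x, av T f (R k x) = av T f x :=
    fun f k x => hinv f ⟨R k, Subgroup.subset_closure ⟨k, rfl⟩⟩ x
  -- invariant functions
  have hinvP : ∀ f : EuclideanSpace ℝ (Fin n) → ℝ, CLe f → (∀ k x, f (R k x) = f x) →
      WV V f ≤ M * Co * En V f := by
    intro f hf he
    obtain ⟨b, l, L, hf⟩ := hf
    refine chain_poincare hP hLH hH (Q := fun f => ∀ k x, f (R k x) = f x) ?_ hCo ?_ hf he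
    · intro h f hf k x
      rw [PP_comp_iso (hD k)]
      congr 1
      funext y
      exact hf k y
    · intro f b l L hf hl hL he h hh h1 h2
      exact energy_step_frame hP hα hfr hRv hD hCo hO hf hl hL he hh h1 h2
  -- a priori inequality
  have hap : ∀ f : EuclideanSpace ℝ (Fin n) → ℝ, CLe f → WV V f ≤ M * (2 / kap) * En V f := by
    intro f hf
    obtain ⟨b, l, L, hf⟩ := hf
    refine chain_poincare hP hLH hH (Q := fun f => True) (fun _ _ _ => trivial) (by positivity) ?_
      hf trivial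
    intro f b l L hf hl hL _ h hh h1 h2
    exact apriori_step hP hf hL hh h1 h2
  -- the constant of the group
  obtain ⟨c, hc, hcG⟩ : ∃ c : ℝ, 0 ≤ c ∧ ∀ f : EuclideanSpace ℝ (Fin n) → ℝ, CLe f →
      En V (fun x => f x - av T f x) ≤ c * ∑ k, En V (fun x => f x - f (R k x)) := by
    choose c hc0 hc using fun g : G => dev_closure hP hVR g.1 g.2
    refine ⟨∑ g, c g, Finset.sum_nonneg fun g _ => hc0 g, fun f hf => ?_⟩
    have hN : (0 : ℝ) < Fintype.card G := by exact_mod_cast Fintype.card_pos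
    have ha := av_CLe T hf
    have hS : 0 ≤ ∑ k, En V (fun x => f x - f (R k x)) := Finset.sum_nonneg fun k _ => En_nonneg _
    have h1 : En V (fun x => f x - av T f x) ≤
        (Fintype.card G : ℝ)⁻¹ * ∑ g : G, En V (fun x => f x - f (T g x)) := by
      unfold En
      rw [← integral_finsetSum _ fun g _ => (hf.sub (hf.comp (T g))).int_gr hP,
        ← integral_const_mul]
      apply integral_mono ((hf.sub ha).int_gr hP)
        ((integrable_finsetSum _ fun g _ => (hf.sub (hf.comp (T g))).int_gr hP).const_mul _)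
      intro x
      show ‖fderiv ℝ (fun x => f x - av T f x) x‖ ^ 2 ≤
        (Fintype.card G : ℝ)⁻¹ * ∑ g : G, ‖fderiv ℝ (fun x => f x - f (T g x)) x‖ ^ 2
      have e1 : fderiv ℝ (fun x => f x - av T f x) x =
          (Fintype.card G : ℝ)⁻¹ • ∑ g : G, fderiv ℝ (fun x => f x - f (T g x)) x := by
        have e2 : ∀ g : G, fderiv ℝ (fun x => f x - f (T g x)) x =
            fderiv ℝ f x - fderiv ℝ (fun x => f (T g x)) x := fun g =>
          ((hf.fd x).sub ((hf.comp (T g)).fd x)).fderiv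
        have e3 : fderiv ℝ (fun x => f x - av T f x) x = fderiv ℝ f x - fderiv ℝ (av T f) x :=
          ((hf.fd x).sub (ha.fd x)).fderiv
        rw [e3]
        ext w
        simp only [e2, _root_.sub_apply, _root_.smul_apply, _root_.sum_apply,
          smul_eq_mul, av_fderiv T hf, Finset.sum_sub_distrib, Finset.sum_const, Finset.card_univ,
          nsmul_eq_mul]
        field_simp
      rw [e1, norm_smul, Real.norm_of_nonneg (by positivity), mul_pow]
      have e4 : ‖∑ g : G, fderiv ℝ (fun x => f x - f (T g x)) x‖ ^ 2 ≤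
          Fintype.card G * ∑ g : G, ‖fderiv ℝ (fun x => f x - f (T g x)) x‖ ^ 2 := by
        refine (pow_le_pow_left₀ (norm_nonneg _) (norm_sum_le _ _) 2).trans ?_
        have := sq_sum_le_card_mul_sum_sq (s := Finset.univ)
          (f := fun g : G => ‖fderiv ℝ (fun x => f x - f (T g x)) x‖)
        simpa using this
      have e5 := mul_le_mul_of_nonneg_left e4 (by positivity : 0 ≤ ((Fintype.card G : ℝ)⁻¹) ^ 2)
      refine e5.trans (le_of_eq ?_)
      field_simp
    refine h1.trans ?_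
    have h2 : ∑ g : G, En V (fun x => f x - f (T g x)) ≤
        (∑ g, c g) * ∑ k, En V (fun x => f x - f (R k x)) := by
      rw [Finset.sum_mul]
      exact Finset.sum_le_sum fun g _ => hc g f hf
    have h3 : (Fintype.card G : ℝ)⁻¹ ≤ 1 := by
      apply inv_le_one_of_one_le₀
      exact_mod_cast Fintype.card_pos
    have h4 : 0 ≤ (∑ g, c g) * ∑ k, En V (fun x => f x - f (R k x)) :=
      mul_nonneg (Finset.sum_nonneg fun g _ => hc0 g) hS
    calc _ ≤ (Fintype.card G : ℝ)⁻¹ * ((∑ g, c g) * ∑ k, En V (fun x => f x - f (R k x))) :=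
          mul_le_mul_of_nonneg_left h2 (by positivity)
      _ ≤ 1 * _ := mul_le_mul_of_nonneg_right h3 h4
      _ = _ := one_mul _
  -- one reflection
  have hone : ∀ (q : ℝ) (_ : 0 ≤ q), (∀ f : EuclideanSpace ℝ (Fin n) → ℝ, CLe f →
      WV V f ≤ M * (Co + q) * En V f) → ∀ f : EuclideanSpace ℝ (Fin n) → ℝ, CLe f → ∀ k,
      WV V f ≤ M * (Co + q) * En V f - M * q * (1 / 4 * En V (fun x => f x - f (R k x))) := by
    intro q hq hyp f hf k
    set T2 : Bool → EuclideanSpace ℝ (Fin n) ≃ₗᵢ[ℝ] EuclideanSpace ℝ (Fin n) :=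
      fun b => if b then R k else 1 with hT2
    have hVT2 : ∀ i x, V (T2 i x) = V x := by
      intro i x
      rw [hT2]
      cases i
      · rfl
      · exact hVR k x
    have eav : ∀ x, av T2 f x = 1 / 2 * (f x + f (R k x)) := by
      intro x
      unfold av
      have e0 : T2 true = R k := rfl
      have e1 : T2 false = 1 := rfl
      rw [Fintype.sum_bool, e0, e1]
      have e2 : (1 : EuclideanSpace ℝ (Fin n) ≃ₗᵢ[ℝ] EuclideanSpace ℝ (Fin n)) x = x := rfl
      rw [e2]
      simp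
      ring
    have hinv2 : ∀ i x, av T2 f (T2 i x) = av T2 f x := by
      intro i x
      cases i
      · rfl
      · show av T2 f (R k x) = av T2 f x
        rw [eav, eav, hRR]
        ring
    have k1 := En_av hP hVT2 hf hinv2
    obtain ⟨k2, -⟩ := WV_av hP hVT2 hf hinv2
    have eA : (fun x => f x - av T2 f x) = fun x => 1 / 2 * (f x - f (R k x)) := by
      funext x
      rw [eav]
      ring
    have hA : CLe (fun x => 1 / 2 * (f x - f (R k x))) := (hf.sub (hf.comp (R k))).smul _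
    have k3 : W2 V (fun x => f x - av T2 f x) ≤ Co * En V (fun x => f x - av T2 f x) := by
      rw [eA]
      obtain ⟨b, l, L, h⟩ := hA
      exact hO k _ b l ⟨h.cd, h.bd, h.gd⟩ (fun x => by
        show 1 / 2 * (f (R k x) - f (R k (R k x))) = -(1 / 2 * (f x - f (R k x)))
        rw [hRR]; ring)
    have k4 := hyp _ (av_CLe T2 hf)
    have k5 : En V (fun x => f x - av T2 f x) = 1 / 4 * En V (fun x => f x - f (R k x)) := by
      rw [eA, En_smul _ (hf.sub (hf.comp (R k)))]
      norm_num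
    have k6 := mul_le_mul_of_nonneg_left k3 hM0
    rw [k5] at k1 k6
    rw [k2, k1]
    linarith
  -- improvement of the constant
  set θ : ℝ := 4 * c * Fintype.card K / (1 + 4 * c * Fintype.card K) with hθ
  have hcK : 0 ≤ 4 * c * Fintype.card K := by positivity
  have hθ0 : 0 ≤ θ := by positivity
  have hθ1 : θ < 1 := by rw [hθ, div_lt_one (by positivity)]; linarith
  have himp : ∀ (q : ℝ) (_ : 0 ≤ q), (∀ f : EuclideanSpace ℝ (Fin n) → ℝ, CLe f →
      WV V f ≤ M * (Co + q) * En V f) → ∀ f : EuclideanSpace ℝ (Fin n) → ℝ, CLe f →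
      WV V f ≤ M * (Co + θ * q) * En V f := by
    intro q hq hyp f hf
    have a1 := hone q hq hyp f hf
    have a2 : Fintype.card K * WV V f ≤ Fintype.card K * (M * (Co + q) * En V f) -
        M * q * (1 / 4 * ∑ k, En V (fun x => f x - f (R k x))) := by
      have := Finset.sum_le_sum fun k (_ : k ∈ Finset.univ) => a1 k
      simp only [Finset.sum_const, Finset.card_univ, nsmul_eq_mul, Finset.sum_sub_distrib,
        ← Finset.mul_sum] at this
      exact this
    set S := ∑ k, En V (fun x => f x - f (R k x)) with hS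
    have ha := av_CLe T hf
    have b1 := En_av hP hVT hf (hinv f)
    obtain ⟨b2, b3⟩ := WV_av hP hVT hf (hinv f)
    have b4 := hinvP _ ha (hinvR f)
    have b5 := hyp _ (hf.sub ha)
    have b6 : WV V (fun x => f x - av T f x) = M * W2 V (fun x => f x - av T f x) := by
      unfold WV W2
      rw [b3]
      ring
    rw [b6] at b5
    have b7 := hcG f hf
    have b8 : WV V f ≤ M * Co * En V f + M * q * (c * S) := by
      rw [b2, b1]
      have := mul_le_mul_of_nonneg_left b7 (mul_nonneg hM0 hq)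
      linarith
    -- combine
    have c1 : (1 + 4 * c * Fintype.card K) * WV V f ≤
        (1 + 4 * c * Fintype.card K) * (M * Co * En V f) +
          4 * c * Fintype.card K * (M * q * En V f) := by
      have := mul_le_mul_of_nonneg_left a2 (by positivity : 0 ≤ 4 * c)
      nlinarith
    have hpos : 0 < 1 + 4 * c * (Fintype.card K : ℝ) := by positivity
    have c2 : M * (Co + θ * q) * En V f =
        ((1 + 4 * c * Fintype.card K) * (M * Co * En V f) +
          4 * c * Fintype.card K * (M * q * En V f)) / (1 + 4 * c * Fintype.card K) := by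
      rw [hθ]; field_simp
    rw [c2, le_div_iff₀ hpos]
    linarith
  -- iteration
  have hiter : ∀ j : ℕ, ∀ f : EuclideanSpace ℝ (Fin n) → ℝ, CLe f →
      WV V f ≤ M * (Co + θ ^ j * (2 / kap)) * En V f := by
    intro j
    induction j with
    | zero =>
      intro f hf
      refine (hap f hf).trans ?_
      have h1 := En_nonneg (V := V) f
      rw [pow_zero, one_mul]
      have : 0 ≤ M * Co * En V f := by positivity
      nlinarith
    | succ j ih =>
      intro f hf
      have := himp _ (by positivity) ih f hf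
      rw [pow_succ']
      rw [mul_assoc θ]
      exact this
  have hlim : Tendsto (fun j : ℕ => M * (Co + θ ^ j * (2 / kap)) * En V f) atTop
      (𝓝 (M * (Co + 0 * (2 / kap)) * En V f)) :=
    ((((tendsto_pow_atTop_nhds_zero_of_lt_one hθ0 hθ1).mul_const _).const_add _).const_mul
      _).mul_const _
  rw [zero_mul, add_zero] at hlim
  exact ge_of_tendsto' hlim fun j => hiter j f hf

end group

end Pool.Agent.Lib.MP_6d896a_gt.EX
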