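import Mathlib
import Pool.Agent.Lib.MP_6d896a_gt.Ex10
import Pool.Agent.Lib.MP_6d896a_gt.Ex6
import Pool.Agent.Lib.MP_6d896a_gt.Ex8
import Pool.Agent.Lib.MP_6d896a_gt.FP.Stable
import Pool.Agent.Lib.MP_6d896a_gt.FP.FibLin
import Pool.Agent.Lib.MP_6d896a_gt.FP.PotOf
import Pool.Agent.Lib.MP_6d896a_gt.FP.PoincExt

/-!
Gibbs measures invariant under the reflections of a frame.
-/

namespace Pool.Agent.Lib.MP_6d896a_gt.EX

open MeasureTheory ProbabilityTheory Filter Topology Metric Pool.Agent.Lib.MP_6d896a_gt.FP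
open scoped ENNReal NNReal

variable {n : ℕ} {ι κ : Type} [Fintype ι] [DecidableEq ι] [DecidableEq κ] {π : ι → κ}
  {ξ : ι → EuclideanSpace ℝ (Fin n) →L[ℝ] ℝ} {v : ι → ι → EuclideanSpace ℝ (Fin n)}

/-- integrals of transformed functions -/
lemma gibbs_iso {ψ : EuclideanSpace ℝ (Fin n) → ℝ} (hψ : Nice ψ)
    {R : EuclideanSpace ℝ (Fin n) ≃ₗᵢ[ℝ] EuclideanSpace ℝ (Fin n)}
    (hR : ∀ x, ψ (R x) = ψ x) (F : EuclideanSpace ℝ (Fin n) → ℝ) :
    ∫ x, F (R x) ∂(gibbs ψ) = ∫ x, F x ∂(gibbs ψ) := by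
  rw [gibbs_integral hψ, gibbs_integral hψ]
  congr 1
  have hme : MeasurableEmbedding (R : EuclideanSpace ℝ (Fin n) → EuclideanSpace ℝ (Fin n)) :=
    R.toHomeomorph.measurableEmbedding
  have h1 := (R.measurePreserving).integral_comp hme (fun x => Real.exp (-ψ x) • F x)
  rw [← h1]
  congr 1
  funext x
  rw [hR]

/-- functionals are square integrable -/
lemma gibbs_lin2 {ψ : EuclideanSpace ℝ (Fin n) → ℝ} (hψ : Nice ψ)
    (L : EuclideanSpace ℝ (Fin n) →L[ℝ] ℝ) : MemLp (fun x => L x) 2 (gibbs ψ) :=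
  gibbs_memLp hψ L.continuous.aestronglyMeasurable ‖L‖ fun x => by
    refine (L.le_opNorm x).trans ?_
    have := norm_nonneg L
    nlinarith [norm_nonneg x]

/-- the reproducing formula -/
lemma Frm.repro (hF : Frm π ξ v) (L : EuclideanSpace ℝ (Fin n) →L[ℝ] ℝ)
    (x : EuclideanSpace ℝ (Fin n)) :
    L x = ∑ p : Prs π, ral p * (L (rv v p)) * (ξ p.1.1 x - ξ p.1.2 x) := by
  set g := (InnerProductSpace.toDual ℝ (EuclideanSpace ℝ (Fin n))).symm L with hg
  have h2 : ∀ x, L x = inner ℝ g x := fun x => by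
    rw [hg, InnerProductSpace.toDual_symm_apply]
  have h3 : ∀ p : Prs π, L (rv v p) = ξ p.1.1 g - ξ p.1.2 g := fun p => by
    rw [h2, rv, real_inner_comm, hF.inner_v p.2.1]
  have h4 : ‖g + x‖ ^ 2 = ‖g‖ ^ 2 + 2 * inner ℝ g x + ‖x‖ ^ 2 := norm_add_sq_real g x
  rw [hF.frame_sq, hF.frame_sq g, hF.frame_sq x] at h4
  rw [h2]
  simp only [h3]
  have h5 : ∑ p : Prs π, ral p * (ξ p.1.1 (g + x) - ξ p.1.2 (g + x)) ^ 2 =
      ∑ p : Prs π, ral p * (ξ p.1.1 g - ξ p.1.2 g) ^ 2 +
      2 * ∑ p : Prs π, ral p * (ξ p.1.1 g - ξ p.1.2 g) * (ξ p.1.1 x - ξ p.1.2 x) +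
      ∑ p : Prs π, ral p * (ξ p.1.1 x - ξ p.1.2 x) ^ 2 := by
    rw [Finset.mul_sum, ← Finset.sum_add_distrib, ← Finset.sum_add_distrib]
    apply Finset.sum_congr rfl
    intro p _
    rw [map_add, map_add]
    ring
  linarith

section inv

variable {ψ : EuclideanSpace ℝ (Fin n) → ℝ} (hψ : Nice ψ) (hF : Frm π ξ v)
  (hinv : ∀ (p : Prs π) x, ψ (rR v p x) = ψ x)

include hψ hF hinv

/-- functionals are centered -/
lemma lin_mean (L : EuclideanSpace ℝ (Fin n) →L[ℝ] ℝ) : ∫ x, L x ∂(gibbs ψ) = 0 := by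
  have hp := gibbs_prob hψ
  have h0 : ∀ p : Prs π, ∫ x, (ξ p.1.1 x - ξ p.1.2 x) ∂(gibbs ψ) = 0 := by
    intro p
    have h1 := gibbs_iso hψ (hinv p) (fun x => ξ p.1.1 x - ξ p.1.2 x)
    have h2 : ∀ x, ξ p.1.1 (rR v p x) - ξ p.1.2 (rR v p x) = -(ξ p.1.1 x - ξ p.1.2 x) := by
      intro x
      unfold rR
      rw [hF.xi_refl p.2.1 p.2.2, hF.xi_refl p.2.1 p.2.2, Equiv.swap_apply_left,
        Equiv.swap_apply_right]
      ring
    simp only [h2] at h1
    rw [integral_neg] at h1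
    linarith
  have h1 : ∫ x, L x ∂(gibbs ψ) =
      ∫ x, ∑ p : Prs π, ral p * (L (rv v p)) * (ξ p.1.1 x - ξ p.1.2 x) ∂(gibbs ψ) := by
    congr 1
    funext x
    exact hF.repro L x
  rw [h1, integral_finsetSum]
  · apply Finset.sum_eq_zero
    intro p _
    rw [integral_const_mul, h0, mul_zero]
  · intro p _
    exact (((gibbs_lin2 hψ (ξ p.1.1)).sub (gibbs_lin2 hψ (ξ p.1.2))).integrable
      (by norm_num)).const_mul _

/-- isotropy -/
theorem lin_var (hnorm : ∀ p : Prs π, Var[fun x => ξ p.1.1 x - ξ p.1.2 x; gibbs ψ] = 2)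
    (L : EuclideanSpace ℝ (Fin n) →L[ℝ] ℝ) :
    Var[fun x => L x; gibbs ψ] = ‖L‖ ^ 2 := by
  have hpr := gibbs_prob hψ
  have hL2 := gibbs_lin2 hψ L
  have e0 : Var[fun x => L x; gibbs ψ] = ∫ x, L x ^ 2 ∂(gibbs ψ) := by
    rw [variance_eq_integral hL2.aestronglyMeasurable.aemeasurable]
    rw [lin_mean hψ hF hinv L]
    simp
  have hp2 : ∀ p : Prs π, ∫ x, (ξ p.1.1 x - ξ p.1.2 x) ^ 2 ∂(gibbs ψ) = 2 := by
    intro p
    rw [← hnorm p]
    have hl := gibbs_lin2 hψ (ξ p.1.1 - ξ p.1.2)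
    have := variance_eq_integral (μ := gibbs ψ) (X := fun x => ξ p.1.1 x - ξ p.1.2 x)
      hl.aestronglyMeasurable.aemeasurable
    rw [this]
    have h1 := lin_mean hψ hF hinv (ξ p.1.1 - ξ p.1.2)
    have h2 : ∫ x, (ξ p.1.1 x - ξ p.1.2 x) ∂(gibbs ψ) = 0 := h1
    rw [h2]
    simp
  have hint : ∀ p : Prs π, Integrable (fun x => L x * (L (rv v p) * (ξ p.1.1 x - ξ p.1.2 x)))
      (gibbs ψ) := by
    intro p
    have hl := (gibbs_lin2 hψ (ξ p.1.1 - ξ p.1.2)).const_mul (L (rv v p))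
    exact hL2.integrable_mul hl
  have hkey : ∀ p : Prs π, ∫ x, L x * (L (rv v p) * (ξ p.1.1 x - ξ p.1.2 x)) ∂(gibbs ψ) =
      (L (rv v p)) ^ 2 := by
    intro p
    have hR : ∀ x, L (rR v p x) = L x - L (rv v p) * (ξ p.1.1 x - ξ p.1.2 x) := by
      intro x
      unfold rR rv
      rw [hF.refl_apply p.2.1 p.2.2, map_sub, map_smul, smul_eq_mul]
      ring
    have hsq : Integrable (fun x => L x ^ 2) (gibbs ψ) := hL2.integrable_sq
    have h1 := gibbs_iso hψ (hinv p) (fun x => L x ^ 2)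
    simp only [hR] at h1
    have hd2 : Integrable (fun x => (ξ p.1.1 x - ξ p.1.2 x) ^ 2) (gibbs ψ) :=
      (gibbs_lin2 hψ (ξ p.1.1 - ξ p.1.2)).integrable_sq
    have e : ∀ x, (L x - L (rv v p) * (ξ p.1.1 x - ξ p.1.2 x)) ^ 2 =
        (L x ^ 2 - 2 * (L x * (L (rv v p) * (ξ p.1.1 x - ξ p.1.2 x)))) +
          (L (rv v p)) ^ 2 * (ξ p.1.1 x - ξ p.1.2 x) ^ 2 := by
      intro x
      ring
    simp only [e] at h1
    have i1 : Integrable (fun x => L x ^ 2 - 2 * (L x * (L (rv v p) * (ξ p.1.1 x - ξ p.1.2 x))))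
      (gibbs ψ) := hsq.sub ((hint p).const_mul 2)
    rw [integral_add i1 (hd2.const_mul _),
      integral_sub hsq ((hint p).const_mul 2), integral_const_mul, integral_const_mul, hp2] at h1
    linarith
  rw [e0, hF.frame L]
  have h1 : ∀ x, L x ^ 2 = ∑ p : Prs π, ral p * (L x * (L (rv v p) * (ξ p.1.1 x - ξ p.1.2 x))) := by
    intro x
    calc L x ^ 2 = L x * L x := by ring
      _ = L x * ∑ p : Prs π, ral p * (L (rv v p)) * (ξ p.1.1 x - ξ p.1.2 x) := by
          rw [← hF.repro L x]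
      _ = _ := by
          rw [Finset.mul_sum]
          apply Finset.sum_congr rfl
          intro p _
          ring
  have h2 : ∫ x, L x ^ 2 ∂(gibbs ψ) =
      ∫ x, ∑ p : Prs π, ral p * (L x * (L (rv v p) * (ξ p.1.1 x - ξ p.1.2 x))) ∂(gibbs ψ) := by
    congr 1
    funext x
    exact h1 x
  rw [h2, integral_finsetSum _ fun p _ => (hint p).const_mul _]
  apply Finset.sum_congr rfl
  intro p _
  rw [integral_const_mul, hkey]

/-- the first absolute moment of a class -/
lemma Nc_mean (hnorm : ∀ p : Prs π, Var[fun x => ξ p.1.1 x - ξ p.1.2 x; gibbs ψ] = 2) (c : κ) :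
    Integrable (fun x => Nc π ξ c x) (gibbs ψ) ∧
    ∫ x, Nc π ξ c x ∂(gibbs ψ) ≤ ((Finset.univ.filter fun i => π i = c).card : ℝ) := by
  have hpr := gibbs_prob hψ
  have hi : ∀ i, Integrable (fun x => |ξ i x|) (gibbs ψ) := fun i =>
    ((gibbs_lin2 hψ (ξ i)).integrable (by norm_num)).abs
  have hm : ∀ i, ∫ x, |ξ i x| ∂(gibbs ψ) ≤ 1 := by
    intro i
    have h1 := lin_var hψ hF hinv hnorm (ξ i)
    have hl := gibbs_lin2 hψ (ξ i)
    rw [variance_eq_integral hl.aestronglyMeasurable.aemeasurable, lin_mean hψ hF hinv (ξ i)] at h1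
    simp only [sub_zero] at h1
    have h2 : ‖ξ i‖ ≤ 1 := by
      apply ContinuousLinearMap.opNorm_le_bound _ zero_le_one
      intro x
      rw [Real.norm_eq_abs, one_mul]
      exact hF.xn i x
    have h3 : ∫ x, |ξ i x| ∂(gibbs ψ) ≤ ∫ x, (1 / 2 + 1 / 2 * ξ i x ^ 2) ∂(gibbs ψ) := by
      apply integral_mono (hi i) ((integrable_const _).add (hl.integrable_sq.const_mul _))
      intro x
      show |ξ i x| ≤ 1 / 2 + 1 / 2 * ξ i x ^ 2
      nlinarith [sq_nonneg (|ξ i x| - 1), sq_abs (ξ i x)]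
    rw [integral_add (integrable_const _) (hl.integrable_sq.const_mul _), integral_const_mul,
      h1] at h3
    simp only [integral_const, probReal_univ, one_smul] at h3
    nlinarith [norm_nonneg (ξ i)]
  unfold Nc
  refine ⟨integrable_finsetSum _ fun i _ => hi i, ?_⟩
  rw [integral_finsetSum _ fun i _ => hi i]
  calc ∑ i with π i = c, ∫ x, |ξ i x| ∂(gibbs ψ) ≤ ∑ i with π i = c, (1 : ℝ) :=
        Finset.sum_le_sum fun i _ => hm i
    _ = _ := by simp

end inv

/-- total variation distance under a small penalty -/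
lemma gibbs_pert {ψ P : EuclideanSpace ℝ (Fin n) → ℝ} (hψ : Nice ψ)
    (hV : Nice (fun x => ψ x + P x)) (hPc : Continuous P) (hP : ∀ x, 0 ≤ P x) {δ : ℝ}
    (hδ : δ ≤ 1 / 2) (h : ∫ x, (1 - Real.exp (-P x)) ∂(gibbs ψ) ≤ δ)
    {S : Set (EuclideanSpace ℝ (Fin n))} (hS : MeasurableSet S) :
    |(gibbs (fun x => ψ x + P x)).real S - (gibbs ψ).real S| ≤ 2 * δ := by
  have hpr := gibbs_prob hψ
  have hpr' := gibbs_prob hV
  have hZ := hψ.Z_pos
  have hZ' := hV.Z_pos
  set Z := ∫ x, Real.exp (-ψ x) with hZd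
  set Z' := ∫ x, Real.exp (-(ψ x + P x)) with hZ'd
  have hbd : ∀ x, |Real.exp (-P x)| ≤ 1 := fun x => by
    rw [abs_of_pos (Real.exp_pos _), Real.exp_le_one_iff]; linarith [hP x]
  have hie : Integrable (fun x => Real.exp (-P x)) (gibbs ψ) :=
    Integrable.of_bound (Real.continuous_exp.comp hPc.neg).aestronglyMeasurable 1
      (ae_of_all _ fun x => hbd x)
  have hieS : ∀ T : Set (EuclideanSpace ℝ (Fin n)), MeasurableSet T →
      Integrable (T.indicator fun x => Real.exp (-P x)) (gibbs ψ) := fun T hT => hie.indicator hT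
  set b := ∫ x, Real.exp (-P x) ∂(gibbs ψ) with hb
  set a := ∫ x, S.indicator (fun x => Real.exp (-P x)) x ∂(gibbs ψ) with ha
  set s := (gibbs ψ).real S with hs
  have hb1 : 1 - δ ≤ b := by
    rw [integral_sub (integrable_const _) hie] at h
    simp only [integral_const, probReal_univ, one_smul] at h
    linarith
  have hble : b ≤ 1 := by
    have : b ≤ ∫ _x, (1 : ℝ) ∂(gibbs ψ) := integral_mono hie (integrable_const _) fun x =>
      (le_abs_self _).trans (hbd x)
    simpa using this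
  have hsi : s = ∫ x, S.indicator (fun _ => (1 : ℝ)) x ∂(gibbs ψ) := by
    rw [integral_indicator hS]
    simp [hs]
  have hi1 : Integrable (S.indicator fun _ => (1 : ℝ)) (gibbs ψ) :=
    (integrable_const _).indicator hS
  have has : a ≤ s := by
    rw [hsi]
    apply integral_mono (hieS S hS) hi1
    intro x
    apply Set.indicator_le_indicator
    exact (le_abs_self _).trans (hbd x)
  have has' : s - (1 - b) ≤ a := by
    have h1 : s - a ≤ 1 - b := by
      have e1 : s - a = ∫ x, S.indicator (fun x => 1 - Real.exp (-P x)) x ∂(gibbs ψ) := by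
        rw [hsi, ha, ← integral_sub hi1 (hieS S hS)]
        congr 1
        funext x
        by_cases hx : x ∈ S
        · simp [hx]
        · simp [hx]
      have e2 : 1 - b = ∫ x, (1 - Real.exp (-P x)) ∂(gibbs ψ) := by
        rw [integral_sub (integrable_const _) hie]
        simp [hb]
      have i3 : Integrable (fun x => 1 - Real.exp (-P x)) (gibbs ψ) := (integrable_const _).sub hie
      rw [e1, e2]
      apply integral_mono (i3.indicator hS) i3
      intro x
      apply Set.indicator_le_self' (f := fun x => 1 - Real.exp (-P x))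
      intro x _
      have := (le_abs_self _).trans (hbd x)
      show 0 ≤ 1 - Real.exp (-P x)
      linarith
    linarith
  -- the new measure
  have hnew : (gibbs (fun x => ψ x + P x)).real S = a / b := by
    have e0 : (gibbs (fun x => ψ x + P x)).real S =
        ∫ x, S.indicator (fun _ => (1 : ℝ)) x ∂(gibbs (fun x => ψ x + P x)) := by
      rw [integral_indicator hS]
      simp
    rw [e0, gibbs_integral hV, ha, hb, gibbs_integral hψ, gibbs_integral hψ]
    simp only [smul_eq_mul]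
    have e1 : ∀ x, Real.exp (-(ψ x + P x)) * S.indicator (fun _ => (1 : ℝ)) x =
        Real.exp (-ψ x) * S.indicator (fun x => Real.exp (-P x)) x := by
      intro x
      by_cases hx : x ∈ S
      · simp only [Set.indicator_of_mem hx, mul_one]
        rw [← Real.exp_add]
        congr 1
        ring
      · simp [hx]
    have e2 : ∀ x, Real.exp (-(ψ x + P x)) = Real.exp (-ψ x) * Real.exp (-P x) := by
      intro x
      rw [← Real.exp_add]
      congr 1
      ring
    simp only [e1]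
    rw [hZ'd] at hZ'
    simp only [e2] at hZ' ⊢
    rw [← hZd]
    field_simp
  rw [hnew]
  have hb0 : 0 < b := by linarith
  have hs0 : 0 ≤ s := measureReal_nonneg
  have hs1 : s ≤ 1 := measureReal_le_one
  rw [abs_le]
  constructor
  · have h1 : a ≤ a / b := by
      rw [le_div_iff₀ hb0]
      have ha0 : 0 ≤ a := integral_nonneg fun x => Set.indicator_nonneg (fun x _ => (Real.exp_pos _).le) x
      nlinarith
    have hδ0 : 0 ≤ δ := by linarith
    linarith
  · have h1 : a / b ≤ s / b := div_le_div_of_nonneg_right has hb0.le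
    have h2 : s / b - s ≤ 2 * δ := by
      rw [div_sub' hb0.ne', div_le_iff₀ hb0]
      have hδ0 : 0 ≤ δ := by linarith
      nlinarith
    linarith

end Pool.Agent.Lib.MP_6d896a_gt.EX
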