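import Mathlib
import Pool.Agent.Lib.MP_6d896a_gt.Ex11

/-!
The Poincare inequality for the penalised potential.
-/

namespace Pool.Agent.Lib.MP_6d896a_gt.EX

open MeasureTheory ProbabilityTheory Filter Topology Metric Pool.Agent.Lib.MP_6d896a_gt.FP
open scoped ENNReal NNReal

variable {n : ℕ} {ι κ : Type} [Fintype ι] [DecidableEq ι] [DecidableEq κ] {π : ι → κ}
  {ξ : ι → EuclideanSpace ℝ (Fin n) →L[ℝ] ℝ} {v : ι → ι → EuclideanSpace ℝ (Fin n)}

section nice

variable {V : EuclideanSpace ℝ (Fin n) → ℝ}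

lemma nice_mono (hV : Nice V) : ∃ kap : ℝ, 0 < kap ∧ ∀ x y,
    kap * ‖x - y‖ ^ 2 ≤ (fderiv ℝ V x - fderiv ℝ V y) (x - y) := by
  obtain ⟨k, hk, hsc⟩ := hV.sc
  refine ⟨4 * k, by positivity, fun x y => ?_⟩
  have h1 := hsc x y
  have h2 := hV.tangent x ((1 / 2 : ℝ) • (x + y))
  have h3 := hV.tangent y ((1 / 2 : ℝ) • (x + y))
  have e1 : (1 / 2 : ℝ) • (x + y) - x = (-(1 / 2) : ℝ) • (x - y) := by module
  have e2 : (1 / 2 : ℝ) • (x + y) - y = (1 / 2 : ℝ) • (x - y) := by module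
  rw [e1, map_smul, smul_eq_mul] at h2
  rw [e2, map_smul, smul_eq_mul] at h3
  rw [_root_.sub_apply]
  linarith

/-- nice potentials are admissible for the chain -/
lemma nice_pot (hV : Nice V) : ∃ kap Lm C3 LH : ℝ,
    Pot V (grd (fderiv ℝ V)) kap Lm C3 ∧ 0 ≤ LH ∧
    ∀ x y, ‖fderiv ℝ (grd (fderiv ℝ V)) x - fderiv ℝ (grd (fderiv ℝ V)) y‖ ≤ LH * ‖x - y‖ := by
  obtain ⟨kap, hkap, hmono⟩ := nice_mono hV
  obtain ⟨Lm, hLm⟩ := hV.bd
  obtain ⟨C3, hC3⟩ := hV.lip
  have hP : ∀ x, HasFDerivAt V (fderiv ℝ V x) x := fun x =>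
    (hV.cd.differentiable (by norm_num) x).hasFDerivAt
  have hQ : ∀ x, HasFDerivAt (fderiv ℝ V) (fderiv ℝ (fderiv ℝ V) x) x := fun x =>
    ((hV.cd.fderiv_right (m := 1) (by norm_num)).differentiable one_ne_zero x).hasFDerivAt
  have hC3' : ∀ x y, ‖fderiv ℝ (fderiv ℝ V) x - fderiv ℝ (fderiv ℝ V) y‖ ≤ |C3| * ‖x - y‖ :=
    fun x y => (hC3 x y).trans (mul_le_mul_of_nonneg_right (le_abs_self _) (norm_nonneg _))
  have hPot := pot_of hP hQ hkap hLm (abs_nonneg C3) hC3' hmono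
  refine ⟨kap, Lm, |C3|, |C3|, hPot, abs_nonneg _, fun x y => ?_⟩
  have hD : ∀ x, HasFDerivAt (grd (fderiv ℝ V)) (fderiv ℝ (grd (fderiv ℝ V)) x) x := fun x =>
    (hPot.cD.differentiable one_ne_zero x).hasFDerivAt
  have hin : ∀ x u w, inner ℝ (fderiv ℝ (grd (fderiv ℝ V)) x u) w =
      fderiv ℝ (fderiv ℝ V) x u w := by
    intro x u w
    have h1 : HasFDerivAt (fun x => inner ℝ (grd (fderiv ℝ V) x) w) _ x :=
      (hD x).inner ℝ (hasFDerivAt_const w x)
    have h2 : HasFDerivAt (fun x => fderiv ℝ V x w) _ x := (hQ x).clm_apply (hasFDerivAt_const w x)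
    have e : (fun x => inner ℝ (grd (fderiv ℝ V) x) w) = fun x => fderiv ℝ V x w := by
      funext x
      exact grd_inner _ _ _
    rw [e] at h1
    have h3 := congrArg (fun L : EuclideanSpace ℝ (Fin n) →L[ℝ] ℝ => L u) (h1.unique h2)
    simp at h3
    exact h3
  apply ContinuousLinearMap.opNorm_le_bound _ (by positivity)
  intro u
  set w := (fderiv ℝ (grd (fderiv ℝ V)) x - fderiv ℝ (grd (fderiv ℝ V)) y) u with hw
  have h1 : ‖w‖ ^ 2 = (fderiv ℝ (fderiv ℝ V) x - fderiv ℝ (fderiv ℝ V) y) u w := by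
    rw [← real_inner_self_eq_norm_sq]
    nth_rewrite 1 [hw]
    rw [_root_.sub_apply, inner_sub_left, hin, hin, _root_.sub_apply, _root_.sub_apply]
  have h2 := ContinuousLinearMap.le_opNorm₂
    (fderiv ℝ (fderiv ℝ V) x - fderiv ℝ (fderiv ℝ V) y) u w
  rw [← h1, Real.norm_eq_abs, abs_of_nonneg (by positivity)] at h2
  have h3 : ‖w‖ ^ 2 ≤ |C3| * ‖x - y‖ * ‖u‖ * ‖w‖ := by
    refine h2.trans ?_
    gcongr
    exact hC3' x y
  rcases (norm_nonneg w).eq_or_lt with h0 | h0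
  · rw [← h0]; positivity
  · have : ‖w‖ * ‖w‖ ≤ (|C3| * ‖x - y‖ * ‖u‖) * ‖w‖ := by nlinarith
    exact le_of_mul_le_mul_right this h0

/-- equivariance of the gradient -/
lemma grd_equiv (hV : Nice V) {R : EuclideanSpace ℝ (Fin n) ≃ₗᵢ[ℝ] EuclideanSpace ℝ (Fin n)}
    (hR : ∀ x, V (R x) = V x) (x : EuclideanSpace ℝ (Fin n)) :
    grd (fderiv ℝ V) (R x) = R (grd (fderiv ℝ V) x) := by
  apply ext_inner_right ℝ
  intro w
  rw [grd_inner]
  have h1 := fderiv_inv (hV.cd.differentiable (by norm_num)) hR x (R.symm w)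
  rw [R.apply_symm_apply] at h1
  rw [h1, ← grd_inner (fderiv ℝ V), ← R.inner_map_map, R.apply_symm_apply]

variable (hF : Frm π ξ v)

include hF

/-- critical point at the origin -/
lemma Frm.crit (hV : Nice V) (hinv : ∀ (p : Prs π) x, V (rR v p x) = V x) :
    fderiv ℝ V 0 = 0 := by
  have h1 : ‖fderiv ℝ V 0‖ ^ 2 = 0 := by
    rw [hF.frame]
    apply Finset.sum_eq_zero
    intro p _
    have h2 := fderiv_inv (hV.cd.differentiable (by norm_num)) (hinv p) 0 (rv v p)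
    have h3 : rR v p (rv v p) = -(rv v p) := rfl2_self _
    rw [map_zero, h3, map_neg] at h2
    have : fderiv ℝ V 0 (rv v p) = 0 := by linarith
    rw [this]
    ring
  have h2 : ‖fderiv ℝ V 0‖ = 0 := by simpa using h1
  exact norm_eq_zero.mp h2

lemma Frm.bp (hV : Nice V) (hinv : ∀ (p : Prs π) x, V (rR v p x) = V x) :
    ∃ k C : ℝ, BP V k C := by
  obtain ⟨kap, hkap, hmono⟩ := nice_mono hV
  obtain ⟨Lm, hLm⟩ := hV.bd
  have hL0 : 0 ≤ Lm := (norm_nonneg (fderiv ℝ (fderiv ℝ V) 0)).trans (hLm 0)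
  have hP : ∀ x, HasFDerivAt V (fderiv ℝ V x) x := fun x =>
    (hV.cd.differentiable (by norm_num) x).hasFDerivAt
  have h0 := hF.crit hV hinv
  refine ⟨kap, Lm, hkap, hV.cd.of_le (by norm_num), fun x => ?_, fun x => ?_⟩
  · have h1 := lower_of hP hmono x
    rw [h0] at h1
    simpa using h1
  · have h1 : ‖fderiv ℝ V x - fderiv ℝ V 0‖ ≤ Lm * ‖x - 0‖ :=
      convex_univ.norm_image_sub_le_of_norm_fderiv_le (𝕜 := ℝ)
        (fun z _ => ((hV.cd.fderiv_right (m := 1) (by norm_num)).differentiable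
          one_ne_zero).differentiableAt) (fun z _ => hLm z) (Set.mem_univ 0) (Set.mem_univ x)
    rw [h0, sub_zero, sub_zero] at h1
    nlinarith [norm_nonneg x]

end nice

/-! ### the potential -/

variable [Fintype κ]

/-- number of elements of a class -/
noncomputable def nc (π : ι → κ) (c : κ) : ℝ := ((Finset.univ.filter fun i => π i = c).card : ℝ)

/-- the total penalty -/
noncomputable def penS (π : ι → κ) (ξ : ι → EuclideanSpace ℝ (Fin n) →L[ℝ] ℝ) (C1 β : ℝ)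
    (x : EuclideanSpace ℝ (Fin n)) : ℝ :=
  ∑ c, pen π ξ c (2 / C1) (C1 * (nc π c + 1)) β x

omit [Fintype κ] [DecidableEq ι] in
lemma nc_nonneg (c : κ) : 0 ≤ nc π c := by unfold nc; positivity

lemma penS_NC (C1 β : ℝ) : NC (penS π ξ C1 β) := NC.sum _ fun c _ => pen_NC c _ _ _

lemma penS_convex (C1 : ℝ) {β : ℝ} (hβ : 0 < β) : ConvexOn ℝ Set.univ (penS π ξ C1 β) := by
  have h : ∀ s : Finset κ, ConvexOn ℝ Set.univ
      (fun x => ∑ c ∈ s, pen π ξ c (2 / C1) (C1 * (nc π c + 1)) β x) := by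
    intro s
    induction s using Finset.induction_on with
    | empty => simpa using convexOn_const (0 : ℝ) convex_univ
    | insert a s ha ih =>
      simp only [Finset.sum_insert ha]
      exact (pen_convex a _ _ hβ).add ih
  exact h _

lemma penS_nonneg (C1 : ℝ) {β : ℝ} (hβ : 0 < β) (x : EuclideanSpace ℝ (Fin n)) :
    0 ≤ penS π ξ C1 β x := Finset.sum_nonneg fun c _ => pen_nonneg c _ _ hβ x

lemma penS_inv (hF : Frm π ξ v) (C1 β : ℝ) (p : Prs π) (x : EuclideanSpace ℝ (Fin n)) :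
    penS π ξ C1 β (rR v p x) = penS π ξ C1 β x :=
  Finset.sum_congr rfl fun c _ => pen_inv hF c _ _ _ p x

/-- pointwise smallness -/
lemma penS_small {C1 β : ℝ} (hC1 : 0 < C1) (hβ : 0 < β) (x : EuclideanSpace ℝ (Fin n)) :
    1 - Real.exp (-penS π ξ C1 β x) ≤
      ∑ c, Nc π ξ c x * (C1 * (nc π c + 1))⁻¹ + Fintype.card κ * (pJ ι / β) := by
  have hN0 : ∀ c, 0 ≤ Nc π ξ c x := fun c => Finset.sum_nonneg fun i _ => abs_nonneg _
  have hc0 : ∀ c, 0 < C1 * (nc π c + 1) := fun c => by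
    have := nc_nonneg (π := π) c
    positivity
  have hJ : 0 ≤ pJ ι / β := div_nonneg (by linarith [pJ_pos (ι := ι)]) hβ.le
  have hJ' : 0 ≤ (Fintype.card κ : ℝ) * (pJ ι / β) := by positivity
  have hS0 : 0 ≤ ∑ c, Nc π ξ c x * (C1 * (nc π c + 1))⁻¹ :=
    Finset.sum_nonneg fun c _ => mul_nonneg (hN0 c) (inv_pos.mpr (hc0 c)).le
  by_cases h : ∀ c, Nc π ξ c x ≤ C1 * (nc π c + 1)
  · have h1 : penS π ξ C1 β x ≤ Fintype.card κ * (pJ ι / β) := by
      unfold penS
      refine (Finset.sum_le_sum fun c _ => pen_small c hβ (by positivity) (h c)).trans ?_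
      simp
    have h2 : 1 - Real.exp (-penS π ξ C1 β x) ≤ penS π ξ C1 β x := by
      linarith [Real.add_one_le_exp (-penS π ξ C1 β x)]
    linarith
  · push Not at h
    obtain ⟨c, hc⟩ := h
    have h1 : 1 ≤ Nc π ξ c x * (C1 * (nc π c + 1))⁻¹ := by
      rw [← div_eq_mul_inv, one_le_div (hc0 c)]
      exact hc.le
    have h2 := Finset.single_le_sum (s := Finset.univ)
      (f := fun c => Nc π ξ c x * (C1 * (nc π c + 1))⁻¹)
      (fun c _ => mul_nonneg (hN0 c) (inv_pos.mpr (hc0 c)).le) (Finset.mem_univ c)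
    have h3 := Real.exp_pos (-penS π ξ C1 β x)
    linarith

section main

variable {ψ : EuclideanSpace ℝ (Fin n) → ℝ} (hψ : Nice ψ) (hF : Frm π ξ v)
  (hinv : ∀ (p : Prs π) x, ψ (rR v p x) = ψ x) {C1 β : ℝ} (hC1 : 0 < C1) (hβ : pJ ι ≤ β)

include hψ hβ

lemma VV_nice : Nice (fun x => ψ x + penS π ξ C1 β x) := by
  have hβ0 : 0 < β := lt_of_lt_of_le (by linarith [pJ_pos (ι := ι)]) hβ
  exact hψ.add_convexH (penS_NC C1 β) (penS_convex C1 hβ0)

include hF hinv hC1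

/-- the hypotheses of the block estimate -/
lemma VV_xp {c : κ} (hc : 10 ^ 6 ≤ Fintype.card {i // π i = c}) : ∃ k C : ℝ,
    XP (ι := {i // π i = c}) (fun i => ξ i.1) (fun i j => v i.1 j.1)
      (fun x => ψ x + penS π ξ C1 β x) k C (4 * C1) := by
  have hβ0 : 0 < β := lt_of_lt_of_le (by linarith [pJ_pos (ι := ι)]) hβ
  have hV := VV_nice (π := π) (ξ := ξ) (C1 := C1) hψ hβ
  have hVi : ∀ (p : Prs π) x, (fun x => ψ x + penS π ξ C1 β x) (rR v p x) =
      (fun x => ψ x + penS π ξ C1 β x) x := fun p x => by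
    simp only
    rw [hinv, penS_inv hF]
  obtain ⟨k, C, hbp⟩ := hF.bp hV hVi
  have hVd : Differentiable ℝ (fun x => ψ x + penS π ξ C1 β x) := hV.cd.differentiable (by norm_num)
  refine ⟨k, C, hbp, hF.blk c, by positivity, by exact_mod_cast hc, fun i j x hij => ?_,
    fun x hx => ?_⟩
  · exact hF.mono hVd hV.convexOn hVi (i.2.trans j.2.symm) x hij
  · set w := FF (fun i : {i // π i = c} => ξ i.1) (fun i j => v i.1 j.1) (fun t => t) x with hw
    set m : ℝ := (Fintype.card {i // π i = c} : ℝ) with hm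
    have hm1 : 1 ≤ m := by
      rw [hm]
      exact_mod_cast (by omega : 1 ≤ Fintype.card {i // π i = c})
    have hnc : nc π c = m := by
      unfold nc
      rw [hm, Fintype.card_subtype]
    rw [← Nc_eq] at hx ⊢
    -- derivative of the potential
    have hdp : ∀ c', HasFDerivAt (pen π ξ c' (2 / C1) (C1 * (nc π c' + 1)) β)
        (fderiv ℝ (pen π ξ c' (2 / C1) (C1 * (nc π c' + 1)) β) x) x := fun c' =>
      ((pen_NC c' _ _ _).1.differentiable (by norm_num) x).hasFDerivAt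
    have hd : fderiv ℝ (fun x => ψ x + penS π ξ C1 β x) x w =
        fderiv ℝ ψ x w + ∑ c', fderiv ℝ (pen π ξ c' (2 / C1) (C1 * (nc π c' + 1)) β) x w := by
      have h1 : HasFDerivAt (penS π ξ C1 β)
          (∑ c', fderiv ℝ (pen π ξ c' (2 / C1) (C1 * (nc π c' + 1)) β) x) x :=
        HasFDerivAt.fun_sum fun c' _ => hdp c'
      have h2 : HasFDerivAt (fun x => ψ x + penS π ξ C1 β x) _ x :=
        (hψ.cd.differentiable (by norm_num) x).hasFDerivAt.add h1
      rw [h2.fderiv, _root_.add_apply, _root_.sum_apply]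
    have h0 : 0 ≤ fderiv ℝ ψ x w := hF.out (hψ.cd.differentiable (by norm_num)) hψ.convexOn hinv c x
    have h1 : ∀ c', 0 ≤ fderiv ℝ (pen π ξ c' (2 / C1) (C1 * (nc π c' + 1)) β) x w := fun c' =>
      hF.out ((pen_NC c' _ _ _).1.differentiable (by norm_num)) (pen_convex c' _ _ hβ0)
        (fun p x => pen_inv hF c' _ _ _ p x) c x
    have h2 : fderiv ℝ (pen π ξ c (2 / C1) (C1 * (nc π c + 1)) β) x w ≤
        ∑ c', fderiv ℝ (pen π ξ c' (2 / C1) (C1 * (nc π c' + 1)) β) x w :=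
      Finset.single_le_sum (s := Finset.univ)
        (f := fun c' => fderiv ℝ (pen π ξ c' (2 / C1) (C1 * (nc π c' + 1)) β) x w)
        (fun c' _ => h1 c') (Finset.mem_univ c)
    have h3 := pen_rad hF c (Lam := 2 / C1) (c0 := C1 * (nc π c + 1)) hβ0 (by positivity)
      (by rw [hnc]; positivity) x
    rw [← hw, ← hm] at h3
    rw [hd]
    have h4 : 6 * m / (4 * C1) * Nc π ξ c x ≤
        2 * m * (2 / C1 * (Nc π ξ c x - C1 * (nc π c + 1)) - pJ ι / β) := by
      rw [hnc]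
      have hJ : pJ ι / β ≤ 1 := by rw [div_le_one hβ0]; exact hβ
      set N := Nc π ξ c x with hN
      have hN1 : m * (4 * C1) ≤ N := hx
      have e1 : 2 * m * (2 / C1 * (N - C1 * (m + 1)) - pJ ι / β) - 6 * m / (4 * C1) * N =
          m / C1 * (5 / 2 * N - 4 * C1 * (m + 1) - 2 * C1 * (pJ ι / β)) := by
        field_simp
        ring
      have e2 : 0 ≤ 5 / 2 * N - 4 * C1 * (m + 1) - 2 * C1 * (pJ ι / β) := by nlinarith
      have e3 : 0 ≤ m / C1 * (5 / 2 * N - 4 * C1 * (m + 1) - 2 * C1 * (pJ ι / β)) := by positivity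
      linarith
    linarith

end main

end Pool.Agent.Lib.MP_6d896a_gt.EX
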