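import Mathlib
import Pool.Agent.Lib.MP_6d896a_gt.Ex12
import Pool.Agent.Lib.MP_6d896a_gt.FP.ExtStepOf

/-!
The affine invariant Poincare inequality for nice potentials invariant under the reflections of a
frame.
-/

namespace Pool.Agent.Lib.MP_6d896a_gt.EX

open MeasureTheory ProbabilityTheory Filter Topology Metric Pool.Agent.Lib.MP_6d896a_gt.FP
open scoped ENNReal NNReal

variable {n : ℕ} {ι κ : Type} [Fintype ι] [DecidableEq ι] [DecidableEq κ] {π : ι → κ}
  {ξ : ι → EuclideanSpace ℝ (Fin n) →L[ℝ] ℝ} {v : ι → ι → EuclideanSpace ℝ (Fin n)}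

/-- integrals of the normalised measure -/
lemma gibbs_eq_tgt {V : EuclideanSpace ℝ (Fin n) → ℝ} (hV : Nice V)
    (F : EuclideanSpace ℝ (Fin n) → ℝ) :
    ∫ x, F x ∂(gibbs V) = ((tgt V).real Set.univ)⁻¹ * ∫ x, F x ∂(tgt V) := by
  rw [gibbs_integral hV, integral_tgt hV.continuous, smul_eq_mul]
  have h1 : (tgt V).real Set.univ = ∫ x, Real.exp (-V x) := by
    have h2 : (tgt V).real Set.univ = ∫ _x, (1 : ℝ) ∂(tgt V) := by simp
    rw [h2, integral_tgt hV.continuous]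
    simp
  rw [h1]
  congr 2
  funext x
  rw [smul_eq_mul, mul_comm]

/-- the Poincare inequality -/
theorem V_poinc {V : EuclideanSpace ℝ (Fin n) → ℝ} (hV : Nice V) (hF : Frm π ξ v)
    (hinv : ∀ (p : Prs π) x, V (rR v p x) = V x) {r : ℝ} (hr : 0 < r)
    (hxp : ∀ p : Prs π, ∃ k C : ℝ, XP (ι := {i // π i = π p.1.1}) (fun i => ξ i.1)
      (fun i j => v i.1 j.1) V k C r)
    {f : EuclideanSpace ℝ (Fin n) → ℝ} (hf : ContDiff ℝ 1 f)
    (hb : ∃ B, ∀ x, ‖fderiv ℝ f x‖ ≤ B) :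
    Var[f; gibbs V] ≤ 10 ^ 16 * r ^ 2 * ∫ x, ‖fderiv ℝ f x‖ ^ 2 ∂(gibbs V) := by
  have hpr := gibbs_prob hV
  refine poinc_ext (gibbs V) ?_ (by positivity) ?_ f hf hb
  · refine gibbs_integrable hV (continuous_norm.pow 2).aestronglyMeasurable 1 2 fun x => ?_
    rw [Real.norm_eq_abs, abs_of_nonneg (by positivity), one_mul]
    have := norm_nonneg x
    nlinarith
  · rintro f hf ⟨b, hb⟩ ⟨l, hl⟩ ⟨L, hL⟩
    have hCLe : CLe f := ⟨b, l, L, hf, hb, hl, hL⟩
    obtain ⟨kap, Lm, C3, LH, hPot, hLH, hH⟩ := nice_pot hV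
    have h1 : WV V f ≤ (tgt V).real Set.univ * (10 ^ 16 * r ^ 2) * En V f := by
      refine group_poincare hPot hLH hH (fun p => ral_nonneg (π := π) p) (v := rv v)
        (R := rR (π := π) v)
        (fun L => hF.frame L) (fun p => rfl2_self _) (fun p x => rfl2_rfl2 _ _) hF.finG
        (fun p x => grd_equiv hV (hinv p) x) hinv (by positivity) ?_ hCLe
      intro p u U L hu hodd
      obtain ⟨k, C, hx⟩ := hxp p
      have hab : (⟨p.1.1, rfl⟩ : {i // π i = π p.1.1}) ≠ ⟨p.1.2, p.2.1.symm⟩ := by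
        intro h
        exact p.2.2 (congrArg Subtype.val h)
      exact hx.odd hu hab fun x => hF.odd_le p.2.1 p.2.2 hu.cd hu.gd hodd x
    set Z := (tgt V).real Set.univ with hZ
    have hZ0 : 0 < Z := by
      have h2 : Z = ∫ _x, (1 : ℝ) ∂(tgt V) := by simp [hZ]
      rw [h2, integral_tgt hV.continuous]
      simpa using hV.Z_pos
    have hfm : MemLp f 2 (gibbs V) := MemLp.of_bound hf.continuous.aestronglyMeasurable b
      (ae_of_all _ fun x => by rw [Real.norm_eq_abs]; exact hb x)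
    have h2 := variance_eq_sub hfm
    have e1 : (∫ x, (f ^ 2) x ∂(gibbs V)) = Z⁻¹ * ∫ x, f x ^ 2 ∂(tgt V) := by
      rw [gibbs_eq_tgt hV]
      rfl
    rw [e1, gibbs_eq_tgt hV, ← hZ] at h2
    rw [h2, gibbs_eq_tgt hV, ← hZ]
    unfold WV En at h1
    rw [← hZ] at h1
    have h3 : Z⁻¹ * ∫ x, f x ^ 2 ∂(tgt V) - (Z⁻¹ * ∫ x, f x ∂(tgt V)) ^ 2 =
        (Z ^ 2)⁻¹ * (Z * ∫ x, f x ^ 2 ∂(tgt V) - (∫ x, f x ∂(tgt V)) ^ 2) := by
      field_simp
    rw [h3]
    calc (Z ^ 2)⁻¹ * (Z * ∫ x, f x ^ 2 ∂(tgt V) - (∫ x, f x ∂(tgt V)) ^ 2)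
        ≤ (Z ^ 2)⁻¹ * (Z * (10 ^ 16 * r ^ 2) * ∫ x, ‖fderiv ℝ f x‖ ^ 2 ∂(tgt V)) :=
          mul_le_mul_of_nonneg_left h1 (by positivity)
      _ = _ := by field_simp

/-- the affine invariant inequality for normalised potentials -/
theorem nice_norm : ∃ C : ℝ, 1 ≤ C ∧ ∀ (n : ℕ) (ι κ : Type) [Fintype ι] [DecidableEq ι]
    [Fintype κ] [DecidableEq κ] (π : ι → κ)
    (ξ : ι → EuclideanSpace ℝ (Fin n) →L[ℝ] ℝ) (v : ι → ι → EuclideanSpace ℝ (Fin n)),
    Frm π ξ v → (∀ p : Prs π, 10 ^ 6 ≤ Fintype.card {i // π i = π p.1.1}) →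
    ∀ ψ : EuclideanSpace ℝ (Fin n) → ℝ, Nice ψ → (∀ (p : Prs π) x, ψ (rR v p x) = ψ x) →
    (∀ p : Prs π, Var[fun x => ξ p.1.1 x - ξ p.1.2 x; gibbs ψ] = 2) →
    AP (gibbs ψ) (C * ((Fintype.card κ : ℝ) + 1) ^ 2) := by
  obtain ⟨Cs, hCs, η0, hη0, hst⟩ := ap_stable
  set η : ℝ := min η0 (5 / 36) with hη
  have hη1 : 0 < η := lt_min hη0 (by norm_num)
  have hηa : η ≤ η0 := min_le_left _ _
  have hηb : η ≤ 5 / 36 := min_le_right _ _
  refine ⟨Cs * (1152 * (10 ^ 16 * (16 / η) ^ 2)), ?_, ?_⟩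
  · have h1 : 1 ≤ 16 / η := by rw [one_le_div hη1]; linarith
    have h2 : 1 ≤ (16 / η) ^ 2 := one_le_pow₀ h1
    nlinarith
  intro n ι κ _ _ _ _ π ξ v hF hbig ψ hψ hinv hnorm
  set m : ℝ := (Fintype.card κ : ℝ) with hm
  have hm0 : 0 ≤ m := by rw [hm]; positivity
  set C1 : ℝ := 4 * (m + 1) / η with hC1
  have hC10 : 0 < C1 := by positivity
  set β : ℝ := pJ ι * (4 * (m + 1) / η) with hβ
  have hJ := pJ_pos (ι := ι)
  have h4 : 1 ≤ 4 * (m + 1) / η := by rw [one_le_div hη1]; linarith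
  have hβJ : pJ ι ≤ β := by rw [hβ]; nlinarith
  have hβ0 : 0 < β := by linarith
  set V := fun x => ψ x + penS π ξ C1 β x with hVd
  have hV : Nice V := VV_nice (π := π) (ξ := ξ) (C1 := C1) hψ hβJ
  have hVi : ∀ (p : Prs π) x, V (rR v p x) = V x := fun p x => by
    rw [hVd]
    simp only
    rw [hinv, penS_inv hF]
  have hprV := gibbs_prob hV
  have hprψ := gibbs_prob hψ
  -- closeness
  have hclose : ∀ S, MeasurableSet S → |(gibbs V).real S - (gibbs ψ).real S| ≤ η := by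
    intro S hS
    have h1 : ∫ x, (1 - Real.exp (-penS π ξ C1 β x)) ∂(gibbs ψ) ≤ η / 2 := by
      have hmean := fun c => Nc_mean hψ hF hinv hnorm c
      have hi : Integrable (fun x => ∑ c, Nc π ξ c x * (C1 * (nc π c + 1))⁻¹ +
          m * (pJ ι / β)) (gibbs ψ) :=
        (integrable_finsetSum _ fun c _ => (hmean c).1.mul_const _).add (integrable_const _)
      have hi' : Integrable (fun x => 1 - Real.exp (-penS π ξ C1 β x)) (gibbs ψ) := by
        refine Integrable.of_bound (C := 1) ?_ (ae_of_all _ fun x => ?_)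
        · exact (continuous_const.sub (Real.continuous_exp.comp
            (penS_NC C1 β).1.continuous.neg)).aestronglyMeasurable
        · have h1 := penS_nonneg (π := π) (ξ := ξ) C1 hβ0 x
          have h2 : Real.exp (-penS π ξ C1 β x) ≤ 1 := by
            rw [Real.exp_le_one_iff]; linarith
          have h3 := Real.exp_pos (-penS π ξ C1 β x)
          rw [Real.norm_eq_abs, abs_le]
          constructor <;> linarith
      refine (integral_mono hi' hi fun x => penS_small hC10 hβ0 x).trans ?_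
      rw [integral_add (integrable_finsetSum _ fun c _ => (hmean c).1.mul_const _)
        (integrable_const _), integral_finsetSum _ fun c _ => (hmean c).1.mul_const _]
      have h2 : ∀ c, ∫ x, Nc π ξ c x * (C1 * (nc π c + 1))⁻¹ ∂(gibbs ψ) ≤ C1⁻¹ := by
        intro c
        rw [integral_mul_const]
        have h3 := nc_nonneg (π := π) c
        have h5 : ∫ x, Nc π ξ c x ∂(gibbs ψ) ≤ nc π c := (hmean c).2
        calc (∫ x, Nc π ξ c x ∂(gibbs ψ)) * (C1 * (nc π c + 1))⁻¹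
            ≤ (nc π c + 1) * (C1 * (nc π c + 1))⁻¹ := by
              apply mul_le_mul_of_nonneg_right (by linarith) (by positivity)
          _ = C1⁻¹ := by field_simp
      have h3 : ∑ c, ∫ x, Nc π ξ c x * (C1 * (nc π c + 1))⁻¹ ∂(gibbs ψ) ≤ m * C1⁻¹ := by
        refine (Finset.sum_le_sum fun c _ => h2 c).trans (le_of_eq ?_)
        rw [Finset.sum_const, nsmul_eq_mul, Finset.card_univ]
      have h5 : ∫ _x, m * (pJ ι / β) ∂(gibbs ψ) = m * (pJ ι / β) := by simp
      rw [h5]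
      have h6 : m * C1⁻¹ ≤ η / 4 := by
        rw [hC1, inv_div, ← mul_div_assoc, div_le_iff₀ (by positivity)]
        nlinarith
      have h7 : m * (pJ ι / β) ≤ η / 4 := by
        have : pJ ι / β = η / (4 * (m + 1)) := by
          rw [hβ]
          field_simp
        rw [this, ← mul_div_assoc, div_le_iff₀ (by positivity)]
        nlinarith
      linarith
    have := gibbs_pert hψ hV (penS_NC C1 β).1.continuous (penS_nonneg C1 hβ0)
      (by linarith : η / 2 ≤ 1 / 2) h1 hS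
    linarith
  have hplV := hV.plm_gibbs
  have hplψ := hψ.plm_gibbs
  -- the inequality for the penalised measure
  have hxp : ∀ p : Prs π, ∃ k C : ℝ, XP (ι := {i // π i = π p.1.1}) (fun i => ξ i.1)
      (fun i j => v i.1 j.1) V k C (4 * C1) := fun p =>
    VV_xp hψ hF hinv hC10 hβJ (hbig p)
  have hAPV : AP (gibbs V) (1152 * (10 ^ 16 * (4 * C1) ^ 2)) := by
    intro f hf hfb
    obtain ⟨T, hT⟩ := whiten (gibbs V) (fun ℓ => hplV.memLp_functional ℓ)
      (fun ℓ h0 => gibbs_nondeg hV ℓ h0)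
    have h1 := V_poinc hV hF hVi (by positivity : 0 < 4 * C1) hxp hf hfb
    refine h1.trans ?_
    obtain ⟨l, hl⟩ := hfb
    have hfd : Continuous (fderiv ℝ f) := hf.continuous_fderiv one_ne_zero
    have i1 : Integrable (fun x => ‖fderiv ℝ f x‖ ^ 2) (gibbs V) := by
      refine Integrable.of_bound (hfd.norm.pow 2).aestronglyMeasurable (l ^ 2)
        (ae_of_all _ fun x => ?_)
      rw [Real.norm_eq_abs, abs_of_nonneg (by positivity)]
      exact pow_le_pow_left₀ (norm_nonneg _) (hl x) 2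
    have i2 : Integrable (fun x => 1152 * Var[fun z => fderiv ℝ f x z; gibbs V]) (gibbs V) := by
      apply Integrable.const_mul
      simp only [hT]
      have hc : Continuous (fun x => ‖(fderiv ℝ f x).comp
          (T : EuclideanSpace ℝ (Fin (Module.finrank ℝ (EuclideanSpace ℝ (Fin n)))) →L[ℝ] _)‖ ^ 2) :=
        ((hfd.clm_comp continuous_const).norm.pow 2)
      refine Integrable.of_bound hc.aestronglyMeasurable
        ((l * ‖(T : EuclideanSpace ℝ (Fin (Module.finrank ℝ (EuclideanSpace ℝ (Fin n)))) →L[ℝ] EuclideanSpace ℝ (Fin n))‖) ^ 2)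
        (ae_of_all _ fun x => ?_)
      rw [Real.norm_eq_abs, abs_of_nonneg (by positivity)]
      apply pow_le_pow_left₀ (norm_nonneg _)
      exact (ContinuousLinearMap.opNorm_comp_le _ _).trans
        (mul_le_mul_of_nonneg_right (hl x) (norm_nonneg _))
    have h2 : ∫ x, ‖fderiv ℝ f x‖ ^ 2 ∂(gibbs V) ≤
        ∫ x, 1152 * Var[fun z => fderiv ℝ f x z; gibbs V] ∂(gibbs V) := by
      apply integral_mono i1 i2
      intro x
      show ‖fderiv ℝ f x‖ ^ 2 ≤ 1152 * Var[fun z => fderiv ℝ f x z; gibbs V]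
      rw [← lin_var hψ hF hinv hnorm (fderiv ℝ f x)]
      refine var_compare hplψ hplV hηb (fun ℓ h0 => gibbs_nondeg hV ℓ h0) (fun S hS => ?_) _
      rw [abs_sub_comm]
      exact hclose S hS
    rw [integral_const_mul] at h2
    have h3 : 0 ≤ 10 ^ 16 * (4 * C1) ^ 2 := by positivity
    nlinarith [mul_le_mul_of_nonneg_left h2 h3]
  have hK : 1 ≤ 1152 * (10 ^ 16 * (4 * C1) ^ 2) := by
    have h5 : 1 ≤ 4 * C1 := by linarith
    have h6 : 1 ≤ (4 * C1) ^ 2 := one_le_pow₀ h5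
    linarith
  have hfin := hst (EuclideanSpace ℝ (Fin n)) (gibbs V) (gibbs ψ) hplV hplψ
    (fun ℓ h0 => gibbs_nondeg hψ ℓ h0) (fun S hS => (hclose S hS).trans hηa) _ hK hAPV
  refine AP.mono hfin (le_of_eq ?_)
  rw [hC1]
  ring

end Pool.Agent.Lib.MP_6d896a_gt.EX
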