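import Mathlib
import Pool.Agent.Lib.MP_6d896a_gt.FP.ForestGen

/-!
Normalised measures and linear changes of variables; the iterated fibre principle.
-/

namespace Pool.Agent.Lib.MP_6d896a_gt.EX

open MeasureTheory ProbabilityTheory Filter Topology Metric Pool.Agent.Lib.MP_6d896a_gt.FP
open scoped ENNReal NNReal

section lin

variable {E F : Type*} [NormedAddCommGroup E] [NormedSpace ℝ E] [MeasureSpace E] [BorelSpace E]
  [FiniteDimensional ℝ E] [(volume : Measure E).IsAddHaarMeasure]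
  [NormedAddCommGroup F] [NormedSpace ℝ F] [MeasureSpace F] [BorelSpace F]
  [FiniteDimensional ℝ F] [(volume : Measure F).IsAddHaarMeasure]

omit [FiniteDimensional ℝ E] in
/-- linear equivalences multiply the volume by a constant -/
lemma haar_scale (e : E ≃L[ℝ] F) : ∃ c : ℝ≥0∞, c ≠ 0 ∧ c ≠ ∞ ∧
    (volume : Measure E).map e = c • (volume : Measure F) := by
  have h1 : ((volume : Measure E).map e).IsAddHaarMeasure := e.isAddHaarMeasure_map volume
  have : ProperSpace F := FiniteDimensional.proper_rclike ℝ F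
  have h2 := Measure.isAddLeftInvariant_eq_smul ((volume : Measure E).map e) (volume : Measure F)
  refine ⟨(Measure.addHaarScalarFactor ((volume : Measure E).map e) (volume : Measure F) : ℝ≥0∞),
    ?_, ENNReal.coe_ne_top, ?_⟩
  · exact_mod_cast (Measure.addHaarScalarFactor_pos_of_isAddHaarMeasure _ _).ne'
  · nth_rewrite 1 [h2]
    rfl

omit [FiniteDimensional ℝ E] in
lemma lintegral_lin (e : E ≃L[ℝ] F) : ∃ c : ℝ≥0∞, c ≠ 0 ∧ c ≠ ∞ ∧
    (volume : Measure E).map e = c • (volume : Measure F) ∧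
    ∀ g : F → ℝ≥0∞, ∫⁻ x, g (e x) = c * ∫⁻ y, g y := by
  obtain ⟨c, h0, ht, hm⟩ := haar_scale e
  refine ⟨c, h0, ht, hm, fun g => ?_⟩
  have h1 : ∫⁻ y, g y ∂((volume : Measure E).map e) = ∫⁻ x, g (e x) :=
    lintegral_map_equiv g e.toHomeomorph.toMeasurableEquiv
  rw [← h1, hm, lintegral_smul_measure, smul_eq_mul]

/-- normalised measures under linear equivalences -/
lemma dens_lin (e : E ≃L[ℝ] F) (ρ : F → ℝ) :
    (dens (fun x => ρ (e x))).map e = dens ρ := by
  obtain ⟨c, h0, ht, hm, hc⟩ := lintegral_lin e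
  have hme : MeasurableEmbedding (e : E → F) := e.toHomeomorph.measurableEmbedding
  unfold dens
  rw [Measure.map_smul, hc (fun y => ENNReal.ofReal (ρ y))]
  have h1 : ((volume : Measure E).withDensity (fun x => ENNReal.ofReal (ρ (e x)))).map e =
      c • (volume : Measure F).withDensity (fun y => ENNReal.ofReal (ρ y)) := by
    ext s hs
    rw [Measure.map_apply hme.measurable hs, withDensity_apply _ (hme.measurable hs),
      Measure.smul_apply, withDensity_apply _ hs, smul_eq_mul]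
    have h2 : ∫⁻ x in e ⁻¹' s, ENNReal.ofReal (ρ (e x)) =
        ∫⁻ y in s, ENNReal.ofReal (ρ y) ∂((volume : Measure E).map e) := by
      rw [hme.restrict_map, hme.lintegral_map]
    rw [h2, hm, Measure.restrict_smul, lintegral_smul_measure, smul_eq_mul]
  rw [h1, smul_smul, ENNReal.mul_inv (Or.inl h0) (Or.inl ht), mul_comm c⁻¹, mul_assoc,
    ENNReal.inv_mul_cancel h0 ht, mul_one]

lemma AP.lin (e : E ≃L[ℝ] F) {ρ : F → ℝ} {K : ℝ} (h : AP (dens (fun x => ρ (e x))) K) :
    AP (dens ρ) K := by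
  rw [← dens_lin e ρ]
  exact h.map e

lemma lint_lin_ne (e : E ≃L[ℝ] F) {ρ : F → ℝ} (h0 : ∫⁻ y, ENNReal.ofReal (ρ y) ≠ 0)
    (ht : ∫⁻ y, ENNReal.ofReal (ρ y) ≠ ∞) :
    ∫⁻ x, ENNReal.ofReal (ρ (e x)) ≠ 0 ∧ ∫⁻ x, ENNReal.ofReal (ρ (e x)) ≠ ∞ := by
  obtain ⟨c, c0, ct, -, hc⟩ := lintegral_lin e
  rw [hc (fun y => ENNReal.ofReal (ρ y))]
  exact ⟨mul_ne_zero c0 h0, ENNReal.mul_ne_top ct ht⟩

lemma LCd.lin {E F : Type*} [NormedAddCommGroup E] [NormedSpace ℝ E] [MeasurableSpace E]
    [BorelSpace E] [NormedAddCommGroup F] [NormedSpace ℝ F] [MeasurableSpace F] [BorelSpace F]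
    (e : E →L[ℝ] F) (b : F) {ρ : F → ℝ} (h : LCd ρ) : LCd (fun x => ρ (b + e x)) := by
  refine h.comp_linear (fun x => b + e x) (by fun_prop) ?_
  intro x y s t hst
  rw [map_add, map_smul, map_smul, smul_add, smul_add]
  have : b = s • b + t • b := by rw [← add_smul, hst, one_smul]
  nth_rewrite 1 [this]
  abel

end lin

/-! ### iteration of the fibre principle -/

/-- peeling one coordinate -/
noncomputable def peel (k : ℕ) (W : Type) : (ℝ × (Fin k ⊕ W → ℝ)) ≃L[ℝ] (Fin (k + 1) ⊕ W → ℝ) where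
  toFun p := Sum.elim (Fin.cons p.1 (fun i => p.2 (Sum.inl i))) (fun w => p.2 (Sum.inr w))
  invFun z := (z (Sum.inl 0), Sum.elim (fun i => z (Sum.inl i.succ)) (fun w => z (Sum.inr w)))
  map_add' p q := by
    funext i
    rcases i with i | w
    · refine Fin.cases ?_ (fun j => ?_) i <;> simp
    · simp
  map_smul' t p := by
    funext i
    rcases i with i | w
    · refine Fin.cases ?_ (fun j => ?_) i <;> simp
    · simp
  left_inv p := by
    ext i
    · simp
    · rcases i with i | w <;> simp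
  right_inv z := by
    funext i
    rcases i with i | w
    · refine Fin.cases ?_ (fun j => ?_) i <;> simp
    · simp
  continuous_toFun := by
    refine continuous_pi fun i => ?_
    rcases i with i | w
    · refine Fin.cases ?_ (fun j => ?_) i
      · simp only [Sum.elim_inl, Fin.cons_zero]
        exact continuous_fst
      · simp only [Sum.elim_inl, Fin.cons_succ]
        exact (continuous_apply (Sum.inl j)).comp continuous_snd
    · exact (continuous_apply (Sum.inr w)).comp continuous_snd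
  continuous_invFun := by
    refine Continuous.prodMk (continuous_apply _) (continuous_pi fun i => ?_)
    rcases i with i | w
    · exact continuous_apply _
    · exact continuous_apply _

/-- the empty base -/
noncomputable def peel0 (W : Type) : (W → ℝ) ≃L[ℝ] (Fin 0 ⊕ W → ℝ) where
  toFun p := Sum.elim (fun i => i.elim0) p
  invFun z := fun w => z (Sum.inr w)
  map_add' p q := by
    funext i
    rcases i with i | w
    · exact i.elim0
    · simp
  map_smul' t p := by
    funext i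
    rcases i with i | w
    · exact i.elim0
    · simp
  left_inv p := by
    ext i
    simp
  right_inv z := by
    funext i
    rcases i with i | w
    · exact i.elim0
    · simp
  continuous_toFun := by
    refine continuous_pi fun i => ?_
    rcases i with i | w
    · exact i.elim0
    · exact continuous_apply w
  continuous_invFun := by
    exact continuous_pi fun i => continuous_apply _

theorem base_iter {C : ℝ} (hC : 1 ≤ C) (hfib : FibreStat C) : ∀ (k : ℕ) (W : Type) [Fintype W]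
    (ρ : (Fin k ⊕ W → ℝ) → ℝ), LCd ρ → ∫⁻ z, ENNReal.ofReal (ρ z) ≠ 0 →
    ∫⁻ z, ENNReal.ofReal (ρ z) ≠ ∞ → ∀ K : ℝ, 1 ≤ K →
    (∀ y : Fin k → ℝ, ∫⁻ x, ENNReal.ofReal (ρ (Sum.elim y x)) ≠ 0 →
      ∫⁻ x, ENNReal.ofReal (ρ (Sum.elim y x)) ≠ ∞ → AP (dens (fun x => ρ (Sum.elim y x))) K) →
    AP (dens ρ) (C ^ k * K) := by
  intro k
  induction k with
  | zero =>
    intro W _ ρ hρ h0 ht K hK hy
    rw [pow_zero, one_mul]
    refine AP.lin (E := W → ℝ) (F := Fin 0 ⊕ W → ℝ) (peel0 W) ?_
    obtain ⟨h0', ht'⟩ := lint_lin_ne (peel0 W) h0 ht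
    have e : ∀ x : W → ℝ, Sum.elim (fun i : Fin 0 => (i.elim0 : ℝ)) x = peel0 W x := fun x => rfl
    exact hy (fun i => i.elim0) h0' ht'
  | succ k ih =>
    intro W _ ρ hρ h0 ht K hK hy
    have hh : (volume : Measure (ℝ × (Fin k ⊕ W → ℝ))).IsAddHaarMeasure := by
      rw [Measure.volume_eq_prod]
      infer_instance
    refine AP.lin (E := ℝ × (Fin k ⊕ W → ℝ)) (F := Fin (k + 1) ⊕ W → ℝ) (peel k W) ?_
    obtain ⟨h0', ht'⟩ := lint_lin_ne (peel k W) h0 ht
    have hρ' : LCd (fun p => ρ (peel k W p)) := by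
      have := LCd.lin ((peel k W : _ ≃L[ℝ] _) : (ℝ × (Fin k ⊕ W → ℝ)) →L[ℝ] _) 0 hρ
      simpa using this
    rw [pow_succ, mul_comm (C ^ k), mul_assoc]
    have hCk : 1 ≤ C ^ k * K := by
      have := one_le_pow₀ hC (n := k)
      nlinarith
    refine hfib.scale (Fin k ⊕ W) hρ' h0' ht' hCk fun t ht0 => ?_
    by_cases htt : ∫⁻ z : Fin k ⊕ W → ℝ, ENNReal.ofReal (ρ (peel k W (t, z))) = ∞
    · rw [dens_top htt]
      exact AP.zero _
    refine ih W (fun z => ρ (peel k W (t, z))) (hρ'.slice t) ht0 htt K hK fun y hy0 hyt => ?_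
    have e : ∀ x : W → ℝ, peel k W (t, Sum.elim y x) = Sum.elim (Fin.cons t y) x := by
      intro x
      show Sum.elim (Fin.cons t (fun i => (Sum.elim y x : Fin k ⊕ W → ℝ) (Sum.inl i)))
        (fun w => (Sum.elim y x : Fin k ⊕ W → ℝ) (Sum.inr w)) = _
      rfl
    simp only [e] at hy0 hyt ⊢
    exact hy (Fin.cons t y) hy0 hyt

end Pool.Agent.Lib.MP_6d896a_gt.EX
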