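import Mathlib
import Pool.Agent.Lib.MP_6d896a_gt.Ex9

/-!
Existence of frames.
-/

namespace Pool.Agent.Lib.MP_6d896a_gt.EX

open MeasureTheory Filter Topology Metric

variable {ι κ : Type} [Fintype ι] [DecidableEq ι] [DecidableEq κ]

/-- vectors with vanishing class sums -/
def HH (π : ι → κ) : Submodule ℝ (EuclideanSpace ℝ ι) where
  carrier := {h | ∀ c, ∑ i with π i = c, h i = 0}
  add_mem' {a b} ha hb c := by
    simp only [PiLp.add_apply, Finset.sum_add_distrib]
    rw [ha c, hb c, add_zero]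
  zero_mem' c := by simp
  smul_mem' t a ha c := by
    simp only [PiLp.smul_apply, smul_eq_mul, ← Finset.mul_sum]
    rw [ha c, mul_zero]

omit [DecidableEq ι] in
lemma mem_HH {π : ι → κ} {h : EuclideanSpace ℝ ι} :
    h ∈ HH π ↔ ∀ c, ∑ i with π i = c, h i = 0 := Iff.rfl

lemma single_sub_mem {π : ι → κ} {i j : ι} (hij : π i = π j) :
    EuclideanSpace.single i (1 : ℝ) - EuclideanSpace.single j (1 : ℝ) ∈ HH π := by
  intro c
  simp only [PiLp.sub_apply, PiLp.single_apply, Finset.sum_sub_distrib,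
    Finset.sum_filter]
  have e : ∀ k : ι, (∑ a, if π a = c then (if a = k then (1 : ℝ) else 0) else 0) =
      if π k = c then 1 else 0 := by
    intro k
    rw [Finset.sum_eq_single k]
    · simp
    · intro b _ hb
      simp [hb]
    · simp
  rw [e, e, hij, sub_self]

/-- every coloring has a frame -/
theorem exists_frame (π : ι → κ) : ∃ (n : ℕ) (ξ : ι → EuclideanSpace ℝ (Fin n) →L[ℝ] ℝ)
    (v : ι → ι → EuclideanSpace ℝ (Fin n)), Frm π ξ v := by
  classical
  set B := stdOrthonormalBasis ℝ (HH π) with hB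
  refine ⟨_, fun i => (EuclideanSpace.proj i : EuclideanSpace ℝ ι →L[ℝ] ℝ).comp
    ((HH π).subtypeL.comp (B.repr.symm.toContinuousLinearEquiv :
      EuclideanSpace ℝ (Fin (Module.finrank ℝ (HH π))) →L[ℝ] (HH π))),
    fun i j => if h : π i = π j then B.repr ⟨_, single_sub_mem h⟩ else 0, ?_⟩
  refine ⟨?_, ?_, ?_, ?_⟩
  · intro i j k hij
    rw [dif_pos hij]
    show ((B.repr.symm (B.repr ⟨_, single_sub_mem hij⟩) : HH π) : EuclideanSpace ℝ ι) k = _
    rw [LinearIsometryEquiv.symm_apply_apply]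
    simp
  · intro c x
    exact (B.repr.symm x).2 c
  · intro x
    have h1 : ‖x‖ = ‖B.repr.symm x‖ := (LinearIsometryEquiv.norm_map _ x).symm
    rw [h1, Submodule.coe_norm, EuclideanSpace.norm_sq_eq]
    apply Finset.sum_congr rfl
    intro i _
    rw [Real.norm_eq_abs, sq_abs]
    rfl
  · intro h hh
    set w : EuclideanSpace ℝ ι := (WithLp.equiv 2 (ι → ℝ)).symm h with hw
    have hw' : w ∈ HH π := hh
    refine ⟨B.repr ⟨w, hw'⟩, fun i => ?_⟩
    show ((B.repr.symm (B.repr ⟨w, hw'⟩) : HH π) : EuclideanSpace ℝ ι) i = _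
    rw [LinearIsometryEquiv.symm_apply_apply]
    rfl

variable {n : ℕ} {π : ι → κ}
  {ξ : ι → EuclideanSpace ℝ (Fin n) →L[ℝ] ℝ} {v : ι → ι → EuclideanSpace ℝ (Fin n)}

/-- class mean -/
noncomputable def mn (π : ι → κ) (h : ι → ℝ) (i : ι) : ℝ := (∑ j with π j = π i, h j) / csz π i

omit [DecidableEq ι] in
lemma mn_congr (h : ι → ℝ) {i j : ι} (hij : π i = π j) : mn π h i = mn π h j := by
  unfold mn
  rw [csz_congr hij, hij]

omit [DecidableEq ι] in
lemma sub_mn_sum (h : ι → ℝ) (c : κ) : ∑ i with π i = c, (h i - mn π h i) = 0 := by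
  by_cases hc : ∃ i, π i = c
  · obtain ⟨i, hi⟩ := hc
    have e : ∀ j ∈ Finset.univ.filter (fun j => π j = c), h j - mn π h j = h j - mn π h i := by
      intro j hj
      rw [Finset.mem_filter] at hj
      rw [mn_congr h (hj.2.trans hi.symm)]
    have hcp := csz_pos (π := π) i
    rw [Finset.sum_congr rfl e, Finset.sum_sub_distrib, Finset.sum_const, nsmul_eq_mul]
    have h1 : ((Finset.univ.filter fun j => π j = c).card : ℝ) = csz π i := by
      unfold csz
      rw [hi]
    rw [h1]
    unfold mn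
    rw [hi]
    field_simp
    ring
  · have : Finset.univ.filter (fun j => π j = c) = ∅ := by
      ext j
      simp only [Finset.mem_filter, Finset.mem_univ, true_and, Finset.notMem_empty, iff_false]
      exact fun hj => hc ⟨j, hj⟩
    rw [this, Finset.sum_empty]

/-- synthesis operator -/
lemma Frm.exists_syn (hF : Frm π ξ v) : ∃ S : (ι → ℝ) →L[ℝ] EuclideanSpace ℝ (Fin n),
    ∀ h k, ξ k (S h) = h k - mn π h k := by
  choose s hs using fun h : ι → ℝ => hF.surj (fun i => h i - mn π h i) (fun c => sub_mn_sum h c)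
  have hadd : ∀ a b i, mn π (a + b) i = mn π a i + mn π b i := by
    intro a b i
    unfold mn
    simp only [Pi.add_apply, Finset.sum_add_distrib]
    ring
  have hsm : ∀ (t : ℝ) a i, mn π (t • a) i = t * mn π a i := by
    intro t a i
    unfold mn
    simp only [Pi.smul_apply, smul_eq_mul, ← Finset.mul_sum]
    ring
  set S0 : (ι → ℝ) →ₗ[ℝ] EuclideanSpace ℝ (Fin n) :=
    { toFun := s
      map_add' := fun a b => hF.ext fun i => by
        rw [map_add, hs, hs, hs, hadd, Pi.add_apply]
        ring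
      map_smul' := fun t a => hF.ext fun i => by
        rw [map_smul, hs, hs, hsm, Pi.smul_apply, smul_eq_mul, RingHom.id_apply, smul_eq_mul]
        ring } with hS0
  exact ⟨LinearMap.toContinuousLinearMap S0, fun h k => hs h k⟩

omit [DecidableEq ι] in
lemma mn_zero {h : ι → ℝ} (hh : ∀ c, ∑ i with π i = c, h i = 0) (i : ι) : mn π h i = 0 := by
  unfold mn
  rw [hh, zero_div]

/-- scaling of the classes -/
lemma Frm.exists_scale (hF : Frm π ξ v) (lam : κ → ℝ) (hl : ∀ c, 0 < lam c) :
    ∃ A : EuclideanSpace ℝ (Fin n) ≃L[ℝ] EuclideanSpace ℝ (Fin n),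
      (∀ i x, ξ i (A x) = lam (π i) * ξ i x) ∧
      (∀ p : Prs π, ∀ x, A (rR v p x) = rR v p (A x)) := by
  obtain ⟨S, hS⟩ := hF.exists_syn
  have key : ∀ mu : κ → ℝ, ∃ A : EuclideanSpace ℝ (Fin n) →L[ℝ] EuclideanSpace ℝ (Fin n),
      ∀ i x, ξ i (A x) = mu (π i) * ξ i x := by
    intro mu
    refine ⟨S.comp (ContinuousLinearMap.pi fun i => mu (π i) • ξ i), fun i x => ?_⟩
    rw [ContinuousLinearMap.comp_apply, hS]
    have : ∀ c, ∑ i with π i = c, (ContinuousLinearMap.pi fun i => mu (π i) • ξ i) x i = 0 := by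
      intro c
      have e : ∀ i ∈ Finset.univ.filter (fun i => π i = c),
          (ContinuousLinearMap.pi fun i => mu (π i) • ξ i) x i = mu c * ξ i x := by
        intro i hi
        rw [Finset.mem_filter] at hi
        simp [hi.2]
      rw [Finset.sum_congr rfl e, ← Finset.mul_sum, hF.sum0, mul_zero]
    rw [mn_zero this, sub_zero]
    simp
  obtain ⟨A, hA⟩ := key lam
  obtain ⟨B, hB⟩ := key (fun c => (lam c)⁻¹)
  refine ⟨ContinuousLinearEquiv.equivOfInverse A B (fun x => hF.ext fun i => ?_)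
    (fun x => hF.ext fun i => ?_), fun i x => hA i x, fun p x => hF.ext fun i => ?_⟩
  · rw [hB, hA]
    have := (hl (π i)).ne'
    field_simp
  · rw [hA, hB]
    have := (hl (π i)).ne'
    field_simp
  · show ξ i (A (rR v p x)) = ξ i (rR v p (A x))
    unfold rR
    rw [hA, hF.xi_refl p.2.1 p.2.2, hF.xi_refl p.2.1 p.2.2, hA]
    congr 2
    by_cases h1 : i = p.1.1
    · subst h1
      rw [Equiv.swap_apply_left]
      exact p.2.1
    · by_cases h2 : i = p.1.2
      · subst h2
        rw [Equiv.swap_apply_right]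
        exact p.2.1.symm
      · rw [Equiv.swap_apply_of_ne_of_ne h1 h2]

/-- decomposition of the space into class means and fluctuations -/
lemma Frm.exists_split {k : ℕ} {π : ι → Fin k} (hπ : Function.Surjective π)
    (hF : Frm π ξ v) :
    ∃ e : (Fin k ⊕ Fin n → ℝ) ≃L[ℝ] (ι → ℝ), ∀ z i,
      e z i = z (Sum.inl (π i)) +
        ξ i ((EuclideanSpace.equiv (Fin n) ℝ).symm (fun j => z (Sum.inr j))) := by
  obtain ⟨S, hS⟩ := hF.exists_syn
  choose s hs using hπ
  set A : (Fin k ⊕ Fin n → ℝ) →L[ℝ] (ι → ℝ) :=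
    ContinuousLinearMap.pi fun i => ContinuousLinearMap.proj (Sum.inl (π i)) +
      (ξ i).comp (((EuclideanSpace.equiv (Fin n) ℝ).symm : (Fin n → ℝ) →L[ℝ] _).comp
        (ContinuousLinearMap.pi fun j => (ContinuousLinearMap.proj (Sum.inr j) :
          (Fin k ⊕ Fin n → ℝ) →L[ℝ] ℝ))) with hA
  have hAe : ∀ z i, A z i = z (Sum.inl (π i)) +
        ξ i ((EuclideanSpace.equiv (Fin n) ℝ).symm (fun j => z (Sum.inr j))) := fun z i => rfl
  set M : Fin k → (ι → ℝ) →L[ℝ] ℝ := fun c =>
    (csz π (s c))⁻¹ • ∑ j ∈ Finset.univ.filter (fun j => π j = c), ContinuousLinearMap.proj j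
    with hM
  have hMe : ∀ c x, M c x = (csz π (s c))⁻¹ * ∑ j with π j = c, x j := by
    intro c x
    simp [hM]
  set B : (ι → ℝ) →L[ℝ] (Fin k ⊕ Fin n → ℝ) :=
    ContinuousLinearMap.pi fun w => Sum.elim (fun c => M c)
      (fun j => (ContinuousLinearMap.proj j).comp
        (((EuclideanSpace.equiv (Fin n) ℝ) : _ →L[ℝ] (Fin n → ℝ)).comp S)) w with hB
  have hBl : ∀ x c, B x (Sum.inl c) = (csz π (s c))⁻¹ * ∑ j with π j = c, x j := fun x c => hMe c x
  have hBr : ∀ x j, B x (Sum.inr j) = EuclideanSpace.equiv (Fin n) ℝ (S x) j := fun x j => rfl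
  refine ⟨ContinuousLinearEquiv.equivOfInverse A B (fun z => ?_) (fun x => ?_), fun z i => hAe z i⟩
  · -- B (A z) = z
    set y := (EuclideanSpace.equiv (Fin n) ℝ).symm (fun j => z (Sum.inr j)) with hy
    have hAz : ∀ i, A z i = z (Sum.inl (π i)) + ξ i y := fun i => hAe z i
    have hsum : ∀ c, ∑ j with π j = c, A z j =
        ((Finset.univ.filter fun j => π j = c).card : ℝ) * z (Sum.inl c) := by
      intro c
      have e : ∀ j ∈ Finset.univ.filter (fun j => π j = c), A z j = z (Sum.inl c) + ξ j y := by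
        intro j hj
        rw [Finset.mem_filter] at hj
        rw [hAz, hj.2]
      rw [Finset.sum_congr rfl e, Finset.sum_add_distrib, hF.sum0, add_zero, Finset.sum_const,
        nsmul_eq_mul]
    funext w
    rcases w with c | j
    · rw [hBl, hsum]
      have hc := csz_pos (π := π) (s c)
      have h1 : ((Finset.univ.filter fun j => π j = c).card : ℝ) = csz π (s c) := by
        unfold csz
        rw [hs]
      rw [h1]
      field_simp
    · rw [hBr]
      have : S (A z) = y := by
        apply hF.ext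
        intro i
        rw [hS]
        unfold mn
        rw [hsum, hAz]
        have hc := csz_pos (π := π) i
        have h1 : ((Finset.univ.filter fun j => π j = π i).card : ℝ) = csz π i := rfl
        rw [h1]
        field_simp
        ring
      rw [this, hy]
      simp
  · funext i
    rw [hAe]
    have e1 : (EuclideanSpace.equiv (Fin n) ℝ).symm (fun j => B x (Sum.inr j)) = S x := by
      rw [show (fun j => B x (Sum.inr j)) = EuclideanSpace.equiv (Fin n) ℝ (S x) from
        funext fun j => hBr x j]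
      exact ContinuousLinearEquiv.symm_apply_apply _ _
    rw [e1, hS, hBl]
    unfold mn
    have h1 : csz π (s (π i)) = csz π i := csz_congr (hs (π i))
    rw [h1]
    ring

end Pool.Agent.Lib.MP_6d896a_gt.EX
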