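import Mathlib
import Pool.Agent.Lib.MP_6d896a_gt.Ex13
import Pool.Agent.Lib.MP_6d896a_gt.Ex14
import Pool.Agent.Lib.MP_6d896a_gt.Ex9b

/-!
The affine invariant Poincare inequality for all nice potentials invariant under the reflections
of a frame.
-/

namespace Pool.Agent.Lib.MP_6d896a_gt.EX

open MeasureTheory ProbabilityTheory Filter Topology Metric Pool.Agent.Lib.MP_6d896a_gt.FP
open scoped ENNReal NNReal

variable {n : ℕ} {ι κ : Type} [Fintype ι] [DecidableEq ι] [DecidableEq κ] {π : ι → κ}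
  {ξ : ι → EuclideanSpace ℝ (Fin n) →L[ℝ] ℝ} {v : ι → ι → EuclideanSpace ℝ (Fin n)}

section inv

variable {ψ : EuclideanSpace ℝ (Fin n) → ℝ} (hψ : Nice ψ) (hF : Frm π ξ v)
  (hinv : ∀ (p : Prs π) x, ψ (rR v p x) = ψ x)

include hψ hF hinv

lemma S_swap {a b : ι} (hab : π a = π b) (i j : ι) :
    ∫ x, (ξ i x - ξ j x) ^ 2 ∂(gibbs ψ) =
      ∫ x, (ξ (Equiv.swap a b i) x - ξ (Equiv.swap a b j) x) ^ 2 ∂(gibbs ψ) := by
  by_cases h : a = b
  · subst h
    simp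
  · have h1 := gibbs_iso hψ (hinv ⟨(a, b), hab, h⟩) (fun x => (ξ i x - ξ j x) ^ 2)
    rw [← h1]
    congr 1
    funext x
    have h2 : ∀ k, ξ k (rR v (⟨(a, b), hab, h⟩ : Prs π) x) = ξ (Equiv.swap a b k) x :=
      fun k => hF.xi_refl hab h k x
    rw [h2, h2]

lemma S_const {i j k l : ι} (hij : π i = π j) (hkl : π k = π l) (hik : π i = π k) (h1 : i ≠ j)
    (h2 : k ≠ l) : ∫ x, (ξ i x - ξ j x) ^ 2 ∂(gibbs ψ) = ∫ x, (ξ k x - ξ l x) ^ 2 ∂(gibbs ψ) := by
  have case1 : ∀ {i j l : ι}, π i = π j → π i = π l → i ≠ j → i ≠ l →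
      ∫ x, (ξ i x - ξ j x) ^ 2 ∂(gibbs ψ) = ∫ x, (ξ i x - ξ l x) ^ 2 ∂(gibbs ψ) := by
    intro i j l hij hil h1 h2
    rw [S_swap hψ hF hinv (hij.symm.trans hil) i j, Equiv.swap_apply_of_ne_of_ne h1 h2,
      Equiv.swap_apply_left]
  by_cases hki : i = k
  · subst hki
    exact case1 hij hkl h1 h2
  · rw [S_swap hψ hF hinv hik i j, Equiv.swap_apply_left]
    by_cases hjk : j = k
    · subst hjk
      rw [Equiv.swap_apply_right]
      exact case1 hij.symm hkl (fun h => hki h.symm) h2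
    · rw [Equiv.swap_apply_of_ne_of_ne (fun h => h1 h.symm) hjk]
      exact case1 (hik.symm.trans hij) hkl (fun h => hjk h.symm) h2

lemma S_var {i j : ι} :
    Var[fun x => ξ i x - ξ j x; gibbs ψ] = ∫ x, (ξ i x - ξ j x) ^ 2 ∂(gibbs ψ) := by
  have hl := gibbs_lin2 hψ (ξ i - ξ j)
  have := variance_eq_integral (μ := gibbs ψ) (X := fun x => ξ i x - ξ j x)
    hl.aestronglyMeasurable.aemeasurable
  rw [this]
  have h1 := lin_mean hψ hF hinv (ξ i - ξ j)
  have h2 : ∫ x, (ξ i x - ξ j x) ∂(gibbs ψ) = 0 := h1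
  rw [h2]
  simp

lemma S_pos {i j : ι} (hij : π i = π j) (hne : i ≠ j) :
    0 < Var[fun x => ξ i x - ξ j x; gibbs ψ] := by
  rcases (variance_nonneg (fun x => ξ i x - ξ j x) (gibbs ψ)).eq_or_lt with h0 | h0
  · exfalso
    have h1 : (ξ i - ξ j) = 0 := gibbs_nondeg hψ (ξ i - ξ j) h0.symm
    have h2 : (ξ i - ξ j) (v i j) = 2 := by
      rw [_root_.sub_apply, hF.dual i j _ hij, hF.dual i j _ hij]
      have hne' : ¬ j = i := fun h => hne h.symm
      simp [hne, hne']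
      norm_num
    rw [h1] at h2
    norm_num at h2
  · exact h0

end inv

/-- the affine invariant inequality for nice potentials -/
theorem nice_gen : ∃ C : ℝ, 1 ≤ C ∧ ∀ (n : ℕ) (ι κ : Type) [Fintype ι] [DecidableEq ι]
    [Fintype κ] [DecidableEq κ] (π : ι → κ)
    (ξ : ι → EuclideanSpace ℝ (Fin n) →L[ℝ] ℝ) (v : ι → ι → EuclideanSpace ℝ (Fin n)),
    Frm π ξ v → (∀ p : Prs π, 10 ^ 6 ≤ Fintype.card {i // π i = π p.1.1}) →
    ∀ ψ : EuclideanSpace ℝ (Fin n) → ℝ, Nice ψ → (∀ (p : Prs π) x, ψ (rR v p x) = ψ x) →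
    AP (gibbs ψ) (C * ((Fintype.card κ : ℝ) + 1) ^ 2) := by
  classical
  obtain ⟨C, hC, hmain⟩ := nice_norm
  refine ⟨C, hC, ?_⟩
  intro n ι κ _ _ _ _ π ξ v hF hbig ψ hψ hinv
  -- the scales
  have hlam : ∀ c : κ, ∃ t : ℝ, 0 < t ∧ ∀ p : Prs π, π p.1.1 = c →
      t ^ 2 * Var[fun x => ξ p.1.1 x - ξ p.1.2 x; gibbs ψ] = 2 := by
    intro c
    by_cases h : ∃ p : Prs π, π p.1.1 = c
    · obtain ⟨p, hp⟩ := h
      have hs := S_pos hψ hF hinv p.2.1 p.2.2
      refine ⟨Real.sqrt (2 / Var[fun x => ξ p.1.1 x - ξ p.1.2 x; gibbs ψ]),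
        Real.sqrt_pos.mpr (by positivity), fun q hq => ?_⟩
      have he : Var[fun x => ξ q.1.1 x - ξ q.1.2 x; gibbs ψ] =
          Var[fun x => ξ p.1.1 x - ξ p.1.2 x; gibbs ψ] := by
        rw [S_var hψ hF hinv, S_var hψ hF hinv]
        exact S_const hψ hF hinv q.2.1 p.2.1 (hq.trans hp.symm) q.2.2 p.2.2
      rw [he, Real.sq_sqrt (by positivity)]
      field_simp
    · exact ⟨1, one_pos, fun p hp => absurd ⟨p, hp⟩ h⟩
  choose lam hl0 hl using hlam
  obtain ⟨A, hA, hAR⟩ := hF.exists_scale lam hl0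
  set ψ' : EuclideanSpace ℝ (Fin n) → ℝ := fun x => ψ (A.symm x) with hψ'
  have hn' : Nice ψ' := by
    have := hψ.comp_affine (A.symm : EuclideanSpace ℝ (Fin n) →L[ℝ] EuclideanSpace ℝ (Fin n))
      (A : EuclideanSpace ℝ (Fin n) →L[ℝ] EuclideanSpace ℝ (Fin n)) (fun x => by simp) 0
    simpa using this
  have hinv' : ∀ (p : Prs π) x, ψ' (rR v p x) = ψ' x := by
    intro p x
    rw [hψ']
    simp only
    have h1 : A.symm (rR v p x) = rR v p (A.symm x) := by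
      apply A.injective
      rw [A.apply_symm_apply, hAR, A.apply_symm_apply]
    rw [h1, hinv]
  have hmap : (gibbs ψ).map A = gibbs ψ' := by
    have h1 := dens_lin A (fun x => Real.exp (-ψ' x))
    rw [gibbs_eq_dens ψ', ← h1]
    congr 1
    rw [gibbs_eq_dens]
    congr 1
    funext x
    rw [hψ']
    simp
  have hnorm' : ∀ p : Prs π, Var[fun x => ξ p.1.1 x - ξ p.1.2 x; gibbs ψ'] = 2 := by
    intro p
    rw [← hmap, variance_map (by fun_prop) A.continuous.measurable.aemeasurable]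
    have e : (fun x => ξ p.1.1 x - ξ p.1.2 x) ∘ A =
        fun x => lam (π p.1.1) * (ξ p.1.1 x - ξ p.1.2 x) := by
      funext x
      simp only [Function.comp]
      rw [hA, hA, ← p.2.1]
      ring
    rw [e, variance_const_mul]
    exact hl _ p rfl
  have h1 := hmain n ι κ π ξ v hF hbig ψ' hn' hinv' hnorm'
  rw [gibbs_eq_dens] at h1 ⊢
  exact AP.lin A.symm h1

end Pool.Agent.Lib.MP_6d896a_gt.EX
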