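import Mathlib
import Pool.Agent.Lib.MP_6d896a_gt.Channel2
import Pool.Agent.Lib.MP_6d896a_gt.Cutoff

/-!
Isoperimetric inequality in integrated form.
-/

namespace Pool.Agent.Lib.MP_6d896a_gt

open MeasureTheory Real Filter Topology Metric

/-- integrated isoperimetric inequality with constant `K` -/
def Iso {E : Type*} [PseudoMetricSpace E] [MeasurableSpace E] (m : Measure E) (K : ℝ) : Prop :=
  ∀ S : Set E, MeasurableSet S → ∀ ε : ℝ, 0 < ε →
    ε * (m.real S * (m.real Set.univ - m.real (thickening ε S))) ≤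
      K * (m.real Set.univ * (m.real (thickening ε S) - m.real S))

section general

variable {E : Type*} [NormedAddCommGroup E] [InnerProductSpace ℝ E] [FiniteDimensional ℝ E]
  [MeasurableSpace E] [BorelSpace E]

lemma split_integral (m : Measure E) [IsFiniteMeasure m] {S : Set E} (hS : MeasurableSet S)
    {ε : ℝ} (hε : 0 < ε) {f : E → ℝ} (hf : Integrable f m) (h0 : ∀ x, x ∉ thickening ε S → f x = 0)
    {c : ℝ} (h1 : ∀ x ∈ S, f x = c) :
    ∫ x, f x ∂m = m.real S * c + ∫ x in thickening ε S \ S, f x ∂m := by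
  have hT : MeasurableSet (thickening ε S) := isOpen_thickening.measurableSet
  have hST : S ⊆ thickening ε S := self_subset_thickening hε S
  rw [← integral_add_compl hT hf, setIntegral_eq_zero_of_forall_eq_zero (t := (thickening ε S)ᶜ)
    (fun x hx => h0 x hx), add_zero, setIntegral_sdiff hS hf.integrableOn hST,
    setIntegral_congr_fun hS h1, setIntegral_const, smul_eq_mul]
  ring

theorem iso_of_smooth (m : Measure E) [IsFiniteMeasure m] {K : ℝ} (hK : 0 ≤ K)
    (h : ∀ (g : E → ℝ) (l l2 : ℝ), 0 ≤ l → 0 ≤ l2 → ContDiff ℝ 1 g → (∀ x, 0 ≤ g x) →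
      (∀ x, g x ≤ 1) → (∀ x y, |g x - g y| ≤ l * ‖x - y‖) →
      (∀ x y, ‖fderiv ℝ g x - fderiv ℝ g y‖ ≤ l2 * ‖x - y‖) →
      m.real Set.univ * ∫ x, g x ^ 2 ∂m - (∫ x, g x ∂m) ^ 2 ≤
        K * (m.real Set.univ * ∫ x, ‖fderiv ℝ g x‖ ∂m)) : Iso m K := by
  intro S hS ε hε
  have hT : MeasurableSet (thickening ε S) := isOpen_thickening.measurableSet
  have hST : S ⊆ thickening ε S := self_subset_thickening hε S
  rcases S.eq_empty_or_nonempty with rfl | hne
  · simp
  set M := m.real Set.univ with hM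
  set A := m.real S with hA
  set T := thickening ε S with hTdef
  set w := m.real (T \ S) with hw
  have hwA : w = m.real T - A := by
    rw [hw, measureReal_sdiff hST hS]
  have hM0 : 0 ≤ M := measureReal_nonneg
  have hA0 : 0 ≤ A := measureReal_nonneg
  have hw0 : 0 ≤ w := measureReal_nonneg
  have hB0 : 0 ≤ M - m.real T := by
    have := measureReal_mono (μ := m) (Set.subset_univ T)
    linarith
  -- inequality for each delta
  have hkey : ∀ δ : ℝ, 0 < δ → 4 * δ < ε →
      (ε - 4 * δ) * (A * (M - m.real T)) ≤ K * (M * w) := by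
    intro δ hd hdε
    have h0 : 0 < ε - 4 * δ := by linarith
    obtain ⟨g, l2, hl2, hgd, hg0, hg1, hgl, hg2, hgS, hgT⟩ := exists_cutoff hne hd hdε
    have hmain := h g (ε - 4 * δ)⁻¹ l2 (inv_pos.mpr h0).le hl2 hgd hg0 hg1 hgl hg2
    have hbd : ∀ x, ‖fderiv ℝ g x‖ ≤ (ε - 4 * δ)⁻¹ := by
      intro x
      have : LipschitzWith (Real.toNNReal (ε - 4 * δ)⁻¹) g := by
        apply LipschitzWith.of_dist_le_mul
        intro a b
        rw [Real.dist_eq, dist_eq_norm, Real.coe_toNNReal _ (inv_pos.mpr h0).le]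
        exact hgl a b
      have h4 := norm_fderiv_le_of_lipschitz ℝ (x₀ := x) this
      rwa [Real.coe_toNNReal _ (inv_pos.mpr h0).le] at h4
    have hfc : Continuous (fun x => ‖fderiv ℝ g x‖) := (hgd.continuous_fderiv (by norm_num)).norm
    have hgm := hgd.continuous.measurable
    have hgi : Integrable g m := bdd_integrable m hgm (C := 1) (fun x => by
      rw [abs_of_nonneg (hg0 x)]; exact hg1 x)
    have hg2i : Integrable (fun x => g x ^ 2) m := bdd_integrable m (hgm.pow_const 2) (C := 1)
      (fun x => by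
        rw [abs_of_nonneg (sq_nonneg _)]
        exact pow_le_one₀ (hg0 x) (hg1 x))
    have hfi : Integrable (fun x => ‖fderiv ℝ g x‖) m :=
      bdd_integrable m hfc.measurable (C := (ε - 4 * δ)⁻¹) (fun x => by
        rw [abs_of_nonneg (norm_nonneg _)]; exact hbd x)
    have e1 := split_integral m hS hε hgi (fun x hx => (hgT x hx).1) (c := 1)
      (fun x hx => (hgS x hx).1)
    have e2 := split_integral m hS hε hg2i (fun x hx => by rw [(hgT x hx).1]; norm_num) (c := 1)
      (fun x hx => by rw [(hgS x hx).1]; norm_num)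
    have e3 := split_integral m hS hε hfi (fun x hx => by rw [(hgT x hx).2, norm_zero]) (c := 0)
      (fun x hx => by rw [(hgS x hx).2, norm_zero])
    rw [← hTdef, ← hA] at e1 e2 e3
    set p := ∫ x in T \ S, g x ∂m with hp
    set q := ∫ x in T \ S, g x ^ 2 ∂m with hq
    have hq0 : 0 ≤ q := integral_nonneg fun x => sq_nonneg _
    have hone : ∫ x in T \ S, (1 : ℝ) ∂m = w := by
      rw [setIntegral_const, smul_eq_mul, mul_one]
    have hcs : p ^ 2 ≤ w * q := by
      have := cs_int (μ := m.restrict (T \ S)) (f := fun _ => (1 : ℝ)) (g := g)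
        (by simp) hg2i.restrict (by simpa using hgi.restrict)
      simp only [one_pow, one_mul] at this
      rw [hone] at this
      exact this
    have hsq : 0 ≤ w + q - 2 * p := by
      have h5 : 0 ≤ ∫ x in T \ S, (1 - g x) ^ 2 ∂m := integral_nonneg fun x => sq_nonneg _
      have e5 : ∫ x in T \ S, (1 - g x) ^ 2 ∂m = w + q - 2 * p := by
        have e6 : ∀ x, (1 - g x) ^ 2 = (1 + g x ^ 2) - 2 * g x := by intro x; ring
        simp only [e6]
        rw [integral_sub, integral_add, hone, integral_const_mul]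
        · exact integrable_const _
        · exact hg2i.restrict
        · exact (integrable_const _).add hg2i.restrict
        · exact hgi.restrict.const_mul 2
      linarith
    have hder : ∫ x, ‖fderiv ℝ g x‖ ∂m ≤ (ε - 4 * δ)⁻¹ * w := by
      rw [e3, mul_zero, zero_add]
      calc ∫ x in T \ S, ‖fderiv ℝ g x‖ ∂m ≤ ∫ x in T \ S, (ε - 4 * δ)⁻¹ ∂m :=
            integral_mono hfi.restrict (integrable_const _) hbd
        _ = (ε - 4 * δ)⁻¹ * w := by
            rw [setIntegral_const, smul_eq_mul, mul_comm]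
    rw [e1, e2] at hmain
    have hB : 0 ≤ M - A - w := by
      rw [hwA]; linarith
    have hlow : A * (M - m.real T) ≤ M * (A * 1 + q) - (A * 1 + p) ^ 2 := by
      have e7 : M * (A * 1 + q) - (A * 1 + p) ^ 2 = A * (M - m.real T) + A * (w + q - 2 * p) +
          (M - A - w) * q + (w * q - p ^ 2) := by
        rw [hwA]; ring
      rw [e7]
      have := mul_nonneg hA0 hsq
      have := mul_nonneg hB hq0
      linarith
    have h6 : A * (M - m.real T) ≤ K * (M * ((ε - 4 * δ)⁻¹ * w)) := by
      refine hlow.trans (hmain.trans ?_)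
      exact mul_le_mul_of_nonneg_left (mul_le_mul_of_nonneg_left hder hM0) hK
    calc (ε - 4 * δ) * (A * (M - m.real T)) ≤
          (ε - 4 * δ) * (K * (M * ((ε - 4 * δ)⁻¹ * w))) := mul_le_mul_of_nonneg_left h6 h0.le
      _ = K * (M * w) * ((ε - 4 * δ) * (ε - 4 * δ)⁻¹) := by ring
      _ = K * (M * w) := by rw [mul_inv_cancel₀ h0.ne', mul_one]
  have hlim : Tendsto (fun δ : ℝ => (ε - 4 * δ) * (A * (M - m.real T))) (𝓝[>] 0)
      (𝓝 (ε * (A * (M - m.real T)))) := by
    have : Continuous (fun δ : ℝ => (ε - 4 * δ) * (A * (M - m.real T))) := by fun_prop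
    have h7 := (this.tendsto 0).mono_left (nhdsWithin_le_nhds (s := Set.Ioi 0))
    simpa using h7
  rw [← hwA]
  apply le_of_tendsto hlim
  have h8 : ∀ᶠ δ : ℝ in 𝓝[>] 0, 4 * δ < ε := by
    have : Continuous (fun δ : ℝ => 4 * δ) := by fun_prop
    have h9 := (this.tendsto 0).mono_left (nhdsWithin_le_nhds (s := Set.Ioi 0))
    exact h9.eventually_lt_const (by simpa using hε)
  filter_upwards [self_mem_nhdsWithin, h8] with δ hd h8'
  exact hkey δ hd h8'

end general

end Pool.Agent.Lib.MP_6d896a_gt
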