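import Mathlib
import Pool.Agent.Lib.MP_6d896a_gt.IsoA

/-!
Transport of the isoperimetric inequality by Lipschitz maps, and its differential form.
-/

namespace Pool.Agent.Lib.MP_6d896a_gt

open MeasureTheory Real Filter Topology Metric
open scoped ENNReal NNReal

lemma Iso.map {E F : Type*} [PseudoMetricSpace E] [MeasurableSpace E]
    [PseudoMetricSpace F] [MeasurableSpace F] [OpensMeasurableSpace F] {m : Measure E}
    [IsFiniteMeasure m] {K : ℝ} (h : Iso m K) (hK : 0 ≤ K) {T : E → F} {L : ℝ≥0} (hL : 0 < L)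
    (hT : LipschitzWith L T) (hTm : Measurable T) : Iso (m.map T) (K * L) := by
  intro S hS ε hε
  have hL' : (0 : ℝ) < L := hL
  have hS' : MeasurableSet (T ⁻¹' S) := hTm hS
  have h1 := h (T ⁻¹' S) hS' (ε / L) (by positivity)
  have hsub : thickening (ε / L) (T ⁻¹' S) ⊆ T ⁻¹' (thickening ε S) := by
    intro x hx
    rw [mem_thickening_iff] at hx
    obtain ⟨z, hz, hd⟩ := hx
    show T x ∈ thickening ε S
    rw [mem_thickening_iff]
    refine ⟨T z, hz, ?_⟩
    have h2 := hT.dist_le_mul x z
    refine h2.trans_lt ?_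
    rw [lt_div_iff₀ hL'] at hd
    linarith
  rw [map_measureReal_apply hTm hS, map_measureReal_apply hTm MeasurableSet.univ,
    map_measureReal_apply hTm isOpen_thickening.measurableSet, Set.preimage_univ]
  have hb := measureReal_mono (μ := m) hsub
  set a := m.real (T ⁻¹' S)
  set b := m.real (thickening (ε / L) (T ⁻¹' S))
  set b' := m.real (T ⁻¹' (thickening ε S))
  set M := m.real Set.univ
  have ha0 : 0 ≤ a := measureReal_nonneg
  have hM0 : 0 ≤ M := measureReal_nonneg
  have h3 : ε * (a * (M - b)) ≤ K * L * (M * (b - a)) := by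
    have h4 := mul_le_mul_of_nonneg_left h1 hL'.le
    have e1 : (L : ℝ) * (ε / L * (a * (M - b))) = ε * (a * (M - b)) := by
      field_simp
    rw [e1] at h4
    refine h4.trans (le_of_eq ?_)
    ring
  calc ε * (a * (M - b')) ≤ ε * (a * (M - b)) := by
        apply mul_le_mul_of_nonneg_left _ hε.le
        apply mul_le_mul_of_nonneg_left _ ha0
        linarith
    _ ≤ K * L * (M * (b - a)) := h3
    _ ≤ K * L * (M * (b' - a)) := by
        apply mul_le_mul_of_nonneg_left _ (by positivity)
        apply mul_le_mul_of_nonneg_left _ hM0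
        linarith

lemma Iso.smul {E : Type*} [PseudoMetricSpace E] [MeasurableSpace E] {m : Measure E} {K : ℝ}
    (h : Iso m K) (c : ℝ≥0∞) : Iso (c • m) K := by
  intro S hS ε hε
  have h1 := h S hS ε hε
  simp only [measureReal_ennreal_smul_apply]
  have h2 := mul_le_mul_of_nonneg_left h1 (sq_nonneg c.toReal)
  calc ε * (c.toReal * m.real S * (c.toReal * m.real Set.univ - c.toReal * m.real (thickening ε S)))
      = c.toReal ^ 2 * (ε * (m.real S * (m.real Set.univ - m.real (thickening ε S)))) := by ring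
    _ ≤ c.toReal ^ 2 * (K * (m.real Set.univ * (m.real (thickening ε S) - m.real S))) := h2
    _ = _ := by ring

lemma Iso.liminf {E : Type*} [PseudoMetricSpace E] [MeasurableSpace E] [OpensMeasurableSpace E]
    {μ : Measure E} [IsProbabilityMeasure μ] {K : ℝ} (h : Iso μ K) (hK : 0 < K) {S : Set E}
    (hS : MeasurableSet S) :
    ENNReal.ofReal (1 / (2 * K)) * min (μ S) (μ Sᶜ) ≤
      Filter.liminf (fun ε : ℝ => (μ (thickening ε S) - μ S) / ENNReal.ofReal ε)
        (𝓝[>] 0) := by
  set A := μ.real S with hA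
  have hA0 : 0 ≤ A := measureReal_nonneg
  have hA1 : A ≤ 1 := measureReal_le_one
  have hmuS : μ S = ENNReal.ofReal A := by rw [hA, ofReal_measureReal]
  have hmuSc : μ Sᶜ = ENNReal.ofReal (1 - A) := by
    rw [← ofReal_measureReal (μ := μ) (s := Sᶜ), probReal_compl_eq_one_sub hS]
  have hlow : ∀ ε : ℝ, 0 < ε → ENNReal.ofReal (A * (1 - A) / (K + ε)) ≤
      (μ (thickening ε S) - μ S) / ENNReal.ofReal ε := by
    intro ε hε
    have h1 := h S hS ε hε
    rw [probReal_univ, one_mul] at h1
    set b := μ.real (thickening ε S) with hb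
    have hb' : μ (thickening ε S) = ENNReal.ofReal b := by rw [hb, ofReal_measureReal]
    have hab : A ≤ b := measureReal_mono (self_subset_thickening hε S)
    rw [hmuS, hb', ← ENNReal.ofReal_sub _ hA0, ← ENNReal.ofReal_div_of_pos hε]
    apply ENNReal.ofReal_le_ofReal
    rw [div_le_div_iff₀ (by positivity) hε]
    -- A (1-A) ε ≤ (b - A) (K + ε)
    have h2 : 0 ≤ (b - A) * ε * (1 - A) := by
      apply mul_nonneg (mul_nonneg (by linarith) hε.le)
      linarith
    rw [← hA] at h1
    nlinarith
  have hlim : Tendsto (fun ε : ℝ => ENNReal.ofReal (A * (1 - A) / (K + ε))) (𝓝[>] 0)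
      (𝓝 (ENNReal.ofReal (A * (1 - A) / K))) := by
    apply ENNReal.tendsto_ofReal
    have : ContinuousAt (fun ε : ℝ => A * (1 - A) / (K + ε)) 0 := by
      apply ContinuousAt.div continuousAt_const (continuousAt_const.add continuousAt_id)
      simpa using hK.ne'
    have h3 := this.tendsto.mono_left (nhdsWithin_le_nhds (s := Set.Ioi 0))
    simpa using h3
  have h4 : ENNReal.ofReal (1 / (2 * K)) * min (μ S) (μ Sᶜ) ≤
      ENNReal.ofReal (A * (1 - A) / K) := by
    rw [hmuS, hmuSc, ← ENNReal.ofReal_min, ← ENNReal.ofReal_mul (by positivity)]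
    apply ENNReal.ofReal_le_ofReal
    rw [div_mul_eq_mul_div, one_mul, div_le_div_iff₀ (by positivity) hK]
    have h5 : min A (1 - A) ≤ 2 * (A * (1 - A)) := by
      rcases le_total A (1 - A) with h6 | h6
      · rw [min_eq_left h6]; nlinarith
      · rw [min_eq_right h6]; nlinarith
    nlinarith
  refine h4.trans ?_
  rw [← hlim.liminf_eq]
  refine Filter.liminf_le_liminf ?_ (by isBoundedDefault) (by isBoundedDefault)
  filter_upwards [self_mem_nhdsWithin] with ε hε
  exact hlow ε hε

end Pool.Agent.Lib.MP_6d896a_gt
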