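import Mathlib
import Pool.Agent.Lib.MP_6d896a_gt.Ex15
import Pool.Agent.Lib.MP_6d896a_gt.FP.ApproxInv
import Pool.Agent.Lib.MP_6d896a_gt.FP.FibreMain

/-!
Approximation by sums of softmax potentials with given supporting functionals, and the affine
invariant Poincare inequality for log-concave densities invariant under the reflections of a
frame.
-/

set_option autoImplicit false

namespace Pool.Agent.Lib.MP_6d896a_gt.EX

open MeasureTheory ProbabilityTheory Set Filter Pool.Agent.Lib.MP_6d896a_gt.FP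
open scoped ENNReal Topology

/-- approximation with prescribed supporting functionals -/
theorem approxGen {V ι : Type} [Fintype V] [DecidableEq V] [Fintype ι] {K : ℝ}
    {f : ι → (V → ℝ) → ℝ} (hf0 : ∀ v x, 0 ≤ f v x) (hfm : ∀ v, Measurable (f v))
    (hlc : ∀ v x y (a b : ℝ), 0 < a → 0 < b → a + b = 1 →
      f v x ^ a * f v y ^ b ≤ f v (a • x + b • y))
    (l : ι → ℕ → (V → ℝ) →L[ℝ] ℝ) (c : ι → ℕ → ℝ)
    (h1 : ∀ v, ∀ᵐ x, (∀ i, f v x ≤ Real.exp (l v i x + c v i)) ∧
        (∀ ε > 0, ∃ i, Real.exp (l v i x + c v i) < f v x + ε))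
    (hnice : ∀ (N : ℕ) (ε : ℝ), 0 < ε →
      AP (gibbs (fun x => ∑ v, softm (fun i => l v i x + c v i) N + ε * ∑ w, x w ^ 2)) K)
    {μ : Measure (V → ℝ)} [IsProbabilityMeasure μ]
    (hμ : μ = (volume : Measure (V → ℝ)).withDensity (fun x => ENNReal.ofReal (∏ v, f v x))) :
    AP μ K := by
  set F : (V → ℝ) → ℝ := fun x => ∏ v, f v x with hF
  have hF0 : ∀ x, 0 ≤ F x := fun x => Finset.prod_nonneg fun v _ => hf0 v x
  have hFm : Measurable F := Finset.measurable_fun_prod _ fun v _ => hfm v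
  have hμ1 : ∫⁻ x, ENNReal.ofReal (F x) = 1 := by
    have := measure_univ (μ := μ)
    rw [hμ, withDensity_apply _ MeasurableSet.univ, Measure.restrict_univ] at this
    exact this
  have hFi : Integrable F := by
    refine ⟨hFm.aestronglyMeasurable, ?_⟩
    rw [hasFiniteIntegral_iff_ofReal (ae_of_all _ hF0), hμ1]
    exact ENNReal.one_lt_top
  have hFint : ∫ x, F x = 1 := by
    rw [integral_eq_lintegral_of_nonneg_ae (ae_of_all _ hF0) hFm.aestronglyMeasurable, hμ1]
    rfl
  have hconv : ∀ᵐ x, ∀ v, Tendsto (fun N => Real.exp (-softm (fun i => l v i x + c v i) N))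
      atTop (𝓝 (f v x)) := by
    rw [ae_all_iff]
    intro v
    filter_upwards [h1 v] with x hx
    exact softm_tendsto _ (hf0 v x) hx.1 hx.2
  set Q : (V → ℝ) → ℝ := fun x => ∑ w, x w ^ 2 with hQ
  have hQ0 : ∀ x, 0 ≤ Q x := fun x => Finset.sum_nonneg fun _ _ => sq_nonneg _
  have hQc : Continuous Q := by fun_prop
  have hstep1 : ∀ ε : ℝ, 0 < ε → GoodD (fun x => F x * Real.exp (-(ε * Q x))) ∧
      AP (dm (fun x => F x * Real.exp (-(ε * Q x)))) K := by
    intro ε hε
    have hpe : ∀ (N : ℕ) x, Real.exp (-(∑ v, softm (fun i => l v i x + c v i) N + ε * Q x)) =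
        (∏ v, Real.exp (-softm (fun i => l v i x + c v i) N)) * Real.exp (-(ε * Q x)) := by
      intro N x
      rw [← Real.exp_sum, ← Real.exp_add]
      congr 1
      rw [Finset.sum_neg_distrib]
      ring
    refine AP_limit (p := fun N x => Real.exp (-(∑ v, softm (fun i => l v i x + c v i) N + ε * Q x)))
      (P := fun x => Real.exp ((∑ v, l v 0) x + ∑ v, c v 0) * Real.exp (-(ε * ∑ w, x w ^ 2)))
      (fun N x => (Real.exp_pos _).le) (fun N => ?_) (fun x => mul_nonneg (hF0 x)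
        (Real.exp_pos _).le) (by fun_prop) (fun N => ae_of_all _ fun x => ?_)
      (integrable_dom _ _ hε) ?_ ?_ (fun N _ => ?_)
    · have h3 : Continuous (fun x : V → ℝ => ∑ v, softm (fun i => l v i x + c v i) N) :=
        continuous_finsetSum _ fun v _ => (NC_softm (l v) (c v) N).1.continuous
      exact (Real.continuous_exp.comp (h3.add (hQc.const_mul ε)).neg).measurable
    · rw [← Real.exp_add]
      apply Real.exp_le_exp.mpr
      have a1 : ∀ v, -softm (fun i => l v i x + c v i) N ≤ l v 0 x + c v 0 := by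
        intro v
        have := softm_ge (fun i => l v i x + c v i) (Nat.zero_le N)
        linarith
      have a2 := Finset.sum_le_sum fun v (_ : v ∈ Finset.univ) => a1 v
      rw [Finset.sum_neg_distrib, Finset.sum_add_distrib] at a2
      have a4 : (∑ v, l v 0) x = ∑ v, l v 0 x := by
        simp
      rw [a4]
      simp only [hQ]
      linarith
    · filter_upwards [hconv] with x hx
      simp only [hpe]
      exact (tendsto_finsetProd _ fun v _ => hx v).mul_const _
    · have hint : Integrable (fun x => F x * Real.exp (-(ε * Q x))) := by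
        refine hFi.mono' (by fun_prop) (ae_of_all _ fun x => ?_)
        rw [Real.norm_of_nonneg (mul_nonneg (hF0 x) (Real.exp_pos _).le)]
        refine mul_le_of_le_one_right (hF0 x) ?_
        rw [Real.exp_le_one_iff]
        have := mul_nonneg hε.le (hQ0 x)
        linarith
      rw [integral_pos_iff_support_of_nonneg (fun x => mul_nonneg (hF0 x) (Real.exp_pos _).le) hint]
      have e : Function.support (fun x => F x * Real.exp (-(ε * Q x))) = Function.support F := by
        ext x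
        simp [Real.exp_ne_zero]
      rw [e, ← integral_pos_iff_support_of_nonneg hF0 hFi, hFint]
      exact one_pos
    · exact hnice N ε hε
  -- second moments
  have hplm : PLm μ := by
    rw [hμ]
    refine (plm_haar _).withDensity hFm.ennreal_ofReal fun x y t ht0 ht1 => ?_
    rw [ENNReal.ofReal_rpow_of_nonneg (hF0 x) (by linarith),
      ENNReal.ofReal_rpow_of_nonneg (hF0 y) ht0.le,
      ← ENNReal.ofReal_mul (Real.rpow_nonneg (hF0 x) _)]
    apply ENNReal.ofReal_le_ofReal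
    simp only [hF]
    rw [← Real.finsetProd_rpow _ _ (fun v _ => hf0 v x), ← Real.finsetProd_rpow _ _
      (fun v _ => hf0 v y), ← Finset.prod_mul_distrib]
    refine Finset.prod_le_prod (fun v _ => mul_nonneg (Real.rpow_nonneg (hf0 v x) _)
      (Real.rpow_nonneg (hf0 v y) _)) fun v _ => ?_
    exact hlc v x y _ _ (by linarith) ht0 (by ring)
  have hPi : Integrable (fun x => (1 + ‖x‖) ^ 2 * F x) := by
    refine ⟨by fun_prop, ?_⟩
    rw [hasFiniteIntegral_iff_ofReal (ae_of_all _ fun x => mul_nonneg (by positivity) (hF0 x))]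
    have e1 : ∫⁻ x, ENNReal.ofReal ((1 + ‖x‖) ^ 2 * F x) =
        ∫⁻ x, ENNReal.ofReal ((1 + ‖x‖) ^ 2) ∂μ := by
      rw [hμ, lintegral_withDensity_eq_lintegral_mul _ hFm.ennreal_ofReal (by fun_prop)]
      refine lintegral_congr fun x => ?_
      simp only [Pi.mul_apply]
      rw [← ENNReal.ofReal_mul (hF0 x), mul_comm]
    rw [e1]
    have e2 : ∫⁻ x, ENNReal.ofReal ((1 + ‖x‖) ^ 2) ∂μ ≤
        ∫⁻ x, (ENNReal.ofReal 2 + ∑ w, ENNReal.ofReal 2 * ENNReal.ofReal (x w ^ 2)) ∂μ := by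
      refine lintegral_mono fun x => ?_
      have : ∀ w, ENNReal.ofReal 2 * ENNReal.ofReal (x w ^ 2) = ENNReal.ofReal (2 * x w ^ 2) :=
        fun w => (ENNReal.ofReal_mul (by norm_num)).symm
      simp only [this]
      rw [← ENNReal.ofReal_sum_of_nonneg (fun w _ => by positivity),
        ← ENNReal.ofReal_add (by norm_num) (Finset.sum_nonneg fun w _ => by positivity)]
      apply ENNReal.ofReal_le_ofReal
      have := norm_sq_le_sum x
      rw [← Finset.mul_sum]
      nlinarith [sq_nonneg (1 - ‖x‖)]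
    refine e2.trans_lt ?_
    rw [lintegral_add_left measurable_const, lintegral_finsetSum _ (fun w _ => by fun_prop)]
    refine ENNReal.add_lt_top.mpr ⟨by simp, ?_⟩
    refine ENNReal.sum_lt_top.mpr fun w _ => ?_
    rw [lintegral_const_mul' _ _ ENNReal.ofReal_ne_top]
    exact ENNReal.mul_lt_top ENNReal.ofReal_lt_top (second_moment hplm w)
  have hfin : GoodD F ∧ AP (dm F) K := by
    refine AP_limit (p := fun k x => F x * Real.exp (-((1 / ((k : ℝ) + 1)) * Q x))) (P := F)
      (fun k x => mul_nonneg (hF0 x) (Real.exp_pos _).le) (fun k => by fun_prop) hF0 hFm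
      (fun k => ae_of_all _ fun x => ?_) hPi (ae_of_all _ fun x => ?_) (by rw [hFint]; exact one_pos)
      (fun k _ => (hstep1 _ (by positivity)).2)
    · refine mul_le_of_le_one_right (hF0 x) ?_
      rw [Real.exp_le_one_iff]
      have := mul_nonneg (by positivity : (0 : ℝ) ≤ 1 / ((k : ℝ) + 1)) (hQ0 x)
      linarith
    · have h3 : Tendsto (fun k : ℕ => -((1 / ((k : ℝ) + 1)) * Q x)) atTop (𝓝 0) := by
        simpa using ((tendsto_one_div_add_atTop_nhds_zero_nat (𝕜 := ℝ)).mul_const (Q x)).neg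
      have h4 := (Real.continuous_exp.tendsto 0).comp h3
      rw [Real.exp_zero] at h4
      simpa using h4.const_mul (F x)
  have hdm : dm F = μ := by
    rw [dm, hμ1, inv_one, one_smul, hμ]
  rw [← hdm]
  exact hfin.2

variable {n : ℕ} {ι κ : Type} [Fintype ι] [DecidableEq ι] [DecidableEq κ] {π : ι → κ}
  {ξ : ι → EuclideanSpace ℝ (Fin n) →L[ℝ] ℝ} {v : ι → ι → EuclideanSpace ℝ (Fin n)}

/-- almost everywhere statements under linear equivalences -/
lemma ae_lin {E F : Type*} [NormedAddCommGroup E] [NormedSpace ℝ E] [MeasureSpace E]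
    [BorelSpace E] [(volume : Measure E).IsAddHaarMeasure]
    [NormedAddCommGroup F] [NormedSpace ℝ F] [MeasureSpace F] [BorelSpace F]
    [FiniteDimensional ℝ F] [(volume : Measure F).IsAddHaarMeasure] (e : E ≃L[ℝ] F)
    {P : F → Prop} (h : ∀ᵐ y, P y) : ∀ᵐ x, P (e x) := by
  obtain ⟨c, h0, ht, hm⟩ := haar_scale e
  have h1 : ∀ᵐ y ∂((volume : Measure E).map e), P y := by
    rw [hm]
    exact Measure.ae_smul_measure h c
  exact ae_of_ae_map e.continuous.measurable.aemeasurable h1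

/-- log-concave densities invariant under the reflections of a frame -/
theorem dens_frame1 : ∃ C : ℝ, 1 ≤ C ∧ ∀ (n : ℕ) (ι κ : Type) [Fintype ι] [DecidableEq ι]
    [Fintype κ] [DecidableEq κ] (π : ι → κ)
    (ξ : ι → EuclideanSpace ℝ (Fin n) →L[ℝ] ℝ) (v : ι → ι → EuclideanSpace ℝ (Fin n)),
    Frm π ξ v → (∀ p : Prs π, 10 ^ 6 ≤ Fintype.card {i // π i = π p.1.1}) →
    ∀ ρ : (Fin n → ℝ) → ℝ, LCd ρ → ∫⁻ x, ENNReal.ofReal (ρ x) = 1 →
    (∀ (p : Prs π) x, ρ (EuclideanSpace.equiv (Fin n) ℝ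
      (rR v p ((EuclideanSpace.equiv (Fin n) ℝ).symm x))) = ρ x) →
    AP (dens ρ) (C * ((Fintype.card κ : ℝ) + 1) ^ 2) := by
  classical
  obtain ⟨C, hC, hmain⟩ := nice_gen
  refine ⟨C, hC, ?_⟩
  intro n ι κ _ _ _ _ π ξ v hF hbig ρ hρ h1 hinv
  set e := EuclideanSpace.equiv (Fin n) ℝ with he
  have hfin := hF.finG
  set G := Subgroup.closure (Set.range (rR (π := π) v)) with hG
  have hftG : Fintype G := Fintype.ofFinite G
  set N0 : ℝ := (Fintype.card G : ℝ) with hN0
  have hN0p : 0 < N0 := by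
    rw [hN0]
    exact_mod_cast Fintype.card_pos
  -- the group on coordinates
  set σ : G → (Fin n → ℝ) ≃L[ℝ] (Fin n → ℝ) := fun g =>
    (e.symm.trans g.1.toContinuousLinearEquiv).trans e with hσ
  have hσe : ∀ (g : G) x, σ g x = e (g.1 (e.symm x)) := fun g x => rfl
  have hinvG : ∀ (g : G) x, ρ (σ g x) = ρ x := by
    intro g x
    rw [hσe]
    have h2 : ∀ y, (fun y => ρ (e y)) (g.1 y) = (fun y => ρ (e y)) y :=
      V_closure (V := fun y => ρ (e y)) (fun p y => by
        have := hinv p (e y)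
        rw [e.symm_apply_apply] at this
        exact this) g.1 g.2
    have h3 := h2 (e.symm x)
    simp only [e.apply_symm_apply] at h3
    exact h3
  -- the root of the density
  set f0 : (Fin n → ℝ) → ℝ := fun x => ρ x ^ (1 / N0) with hf0
  have hf00 : ∀ x, 0 ≤ f0 x := fun x => Real.rpow_nonneg (hρ.nn x) _
  have hf0m : Measurable f0 := hρ.ms.pow_const _
  have hf0lc : ∀ x y (a b : ℝ), 0 < a → 0 < b → a + b = 1 →
      f0 x ^ a * f0 y ^ b ≤ f0 (a • x + b • y) := by
    intro x y a b ha hb hab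
    rw [hf0]
    simp only
    rw [← Real.rpow_mul (hρ.nn x), ← Real.rpow_mul (hρ.nn y), mul_comm _ a, mul_comm _ b,
      Real.rpow_mul (hρ.nn x), Real.rpow_mul (hρ.nn y),
      ← Real.mul_rpow (Real.rpow_nonneg (hρ.nn x) _) (Real.rpow_nonneg (hρ.nn y) _)]
    exact Real.rpow_le_rpow (mul_nonneg (Real.rpow_nonneg (hρ.nn x) _)
      (Real.rpow_nonneg (hρ.nn y) _)) (hρ.lc x y a b ha hb hab) (by positivity)
  have hprod : ∀ x, ∏ g : G, f0 (σ g x) = ρ x := by
    intro x
    have : ∀ g : G, f0 (σ g x) = ρ x ^ (1 / N0) := by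
      intro g
      rw [hf0]
      simp only
      rw [hinvG]
    simp only [this]
    rw [Finset.prod_const, Finset.card_univ, ← Real.rpow_natCast, ← Real.rpow_mul (hρ.nn x),
      ← hN0, one_div, inv_mul_cancel₀ hN0p.ne', Real.rpow_one]
  have hsupp : (volume : Measure (Fin n → ℝ)) {x | 0 < f0 x} ≠ 0 := by
    intro h0
    have h2 : ∀ᵐ x, x ∉ {x | 0 < f0 x} := measure_eq_zero_iff_ae_notMem.mp h0
    have h3 : ∀ᵐ x, ENNReal.ofReal (ρ x) = 0 := by
      filter_upwards [h2] with x hx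
      have h4 : f0 x = 0 := le_antisymm (not_lt.mp hx) (hf00 x)
      have h5 : ρ x = 0 := by
        rw [hf0] at h4
        simp only at h4
        rw [Real.rpow_eq_zero (hρ.nn x) (by positivity)] at h4
        exact h4
      rw [h5, ENNReal.ofReal_zero]
    rw [lintegral_congr_ae h3] at h1
    simp at h1
  obtain ⟨l0, c0, hs1, -⟩ := exists_seq (volume : Measure (Fin n → ℝ)) hf00 hf0lc hsupp
  have hpr : IsProbabilityMeasure (dens ρ) := dens_prob (by rw [h1]; simp) (by rw [h1]; simp)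
  have hdens : dens ρ = (volume : Measure (Fin n → ℝ)).withDensity
      (fun x => ENNReal.ofReal (∏ g : G, f0 (σ g x))) := by
    simp only [hprod]
    unfold dens
    rw [h1, inv_one, one_smul]
  refine approxGen (V := Fin n) (ι := G) (f := fun g x => f0 (σ g x)) (fun g x => hf00 _)
    (fun g => hf0m.comp (σ g).continuous.measurable) (fun g x y a b ha hb hab => ?_)
    (fun g i => (l0 i).comp (σ g : (Fin n → ℝ) →L[ℝ] (Fin n → ℝ))) (fun _ i => c0 i)
    (fun g => ?_) (fun N ε hε => ?_) hdens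
  · rw [map_add, map_smul, map_smul]
    exact hf0lc _ _ a b ha hb hab
  · exact ae_lin (σ g) hs1
  · -- the approximating potentials
    set φ0 : (Fin n → ℝ) → ℝ := fun x => softm (fun i => l0 i x + c0 i) N with hφ0
    set Φ : (Fin n → ℝ) → ℝ := fun x =>
      ∑ g : G, softm (fun i => ((l0 i).comp (σ g : (Fin n → ℝ) →L[ℝ] (Fin n → ℝ))) x + c0 i) N +
        ε * ∑ w, x w ^ 2 with hΦ
    have hΦe : ∀ x, Φ x = ∑ g : G, φ0 (σ g x) + ε * ∑ w, x w ^ 2 := fun x => rfl
    have hnice : Nice Φ := by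
      have h2 := hpot_nice (V := Fin n) (ι := G)
        (φ := fun g x => softm (fun i => ((l0 i).comp (σ g : (Fin n → ℝ) →L[ℝ] (Fin n → ℝ))) x
          + c0 i) N) (κ := ε) hε (fun g => NC_softm _ _ N) (fun g => convexOn_softm _ _ N) 0
      have e2 : hpot (fun (g : G) x => softm (fun i =>
        ((l0 i).comp (σ g : (Fin n → ℝ) →L[ℝ] (Fin n → ℝ))) x + c0 i) N) ε 0 = Φ := by
        funext x
        simp [hpot, hΦ]
      rwa [e2] at h2
    -- transport to the euclidean space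
    set ψ : EuclideanSpace ℝ (Fin n) → ℝ := fun y => Φ (e y) with hψ
    have hψn : Nice ψ := by
      have h2 := hnice.comp_affine (e : EuclideanSpace ℝ (Fin n) →L[ℝ] (Fin n → ℝ))
        (e.symm : (Fin n → ℝ) →L[ℝ] EuclideanSpace ℝ (Fin n)) (fun z => by simp) 0
      simpa using h2
    have hnorm : ∀ y : EuclideanSpace ℝ (Fin n), ∑ w, (e y) w ^ 2 = ‖y‖ ^ 2 := by
      intro y
      rw [EuclideanSpace.norm_sq_eq]
      apply Finset.sum_congr rfl
      intro w _
      rw [Real.norm_eq_abs, sq_abs]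
      rfl
    have hψi : ∀ (p : Prs π) y, ψ (rR v p y) = ψ y := by
      intro p y
      rw [hψ]
      simp only
      rw [hΦe, hΦe, hnorm, hnorm, LinearIsometryEquiv.norm_map]
      congr 1
      have hp : rR v p ∈ G := Subgroup.subset_closure ⟨p, rfl⟩
      have e3 : ∀ g : G, σ g (e (rR v p y)) = σ (g * ⟨rR v p, hp⟩) (e y) := by
        intro g
        rw [hσe, hσe, e.symm_apply_apply, e.symm_apply_apply]
        rfl
      simp only [e3]
      exact Fintype.sum_equiv (Equiv.mulRight (⟨rR v p, hp⟩ : G)) _ _ fun g => rfl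
    have h2 := hmain n ι κ π ξ v hF hbig ψ hψn hψi
    rw [gibbs_eq_dens] at h2 ⊢
    exact AP.lin e h2

/-- scale free form -/
theorem dens_frame : ∃ C : ℝ, 1 ≤ C ∧ ∀ (n : ℕ) (ι κ : Type) [Fintype ι] [DecidableEq ι]
    [Fintype κ] [DecidableEq κ] (π : ι → κ)
    (ξ : ι → EuclideanSpace ℝ (Fin n) →L[ℝ] ℝ) (v : ι → ι → EuclideanSpace ℝ (Fin n)),
    Frm π ξ v → (∀ p : Prs π, 10 ^ 6 ≤ Fintype.card {i // π i = π p.1.1}) →
    ∀ ρ : (Fin n → ℝ) → ℝ, LCd ρ → ∫⁻ x, ENNReal.ofReal (ρ x) ≠ 0 →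
    ∫⁻ x, ENNReal.ofReal (ρ x) ≠ ∞ →
    (∀ (p : Prs π) x, ρ (EuclideanSpace.equiv (Fin n) ℝ
      (rR v p ((EuclideanSpace.equiv (Fin n) ℝ).symm x))) = ρ x) →
    AP (dens ρ) (C * ((Fintype.card κ : ℝ) + 1) ^ 2) := by
  obtain ⟨C, hC, hmain⟩ := dens_frame1
  refine ⟨C, hC, ?_⟩
  intro n ι κ _ _ _ _ π ξ v hF hbig ρ hρ h0 ht hinv
  set Z : ℝ := (∫⁻ p, ENNReal.ofReal (ρ p)).toReal with hZ
  have hZ0 : 0 < Z := ENNReal.toReal_pos h0 ht
  have hc : 0 < Z⁻¹ := inv_pos.2 hZ0
  have hZe : ENNReal.ofReal Z = ∫⁻ p, ENNReal.ofReal (ρ p) := ENNReal.ofReal_toReal ht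
  have h1 : LCd (fun p => Z⁻¹ * ρ p) := by
    refine ⟨fun x => mul_nonneg hc.le (hρ.nn x), hρ.ms.const_mul _, fun x y a b ha hb hab => ?_⟩
    rw [Real.mul_rpow hc.le (hρ.nn x), Real.mul_rpow hc.le (hρ.nn y)]
    have h2 : Z⁻¹ ^ a * Z⁻¹ ^ b = Z⁻¹ := by
      rw [← Real.rpow_add hc, hab, Real.rpow_one]
    calc Z⁻¹ ^ a * ρ x ^ a * (Z⁻¹ ^ b * ρ y ^ b) = (Z⁻¹ ^ a * Z⁻¹ ^ b) * (ρ x ^ a * ρ y ^ b) := by
          ring
      _ ≤ Z⁻¹ * ρ (a • x + b • y) := by
          rw [h2]
          exact mul_le_mul_of_nonneg_left (hρ.lc x y a b ha hb hab) hc.le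
  have h2 : ∫⁻ p, ENNReal.ofReal (Z⁻¹ * ρ p) = 1 := by
    simp_rw [ENNReal.ofReal_mul hc.le]
    rw [lintegral_const_mul' _ _ ENNReal.ofReal_ne_top, ENNReal.ofReal_inv_of_pos hZ0, hZe]
    exact ENNReal.inv_mul_cancel h0 ht
  have h3 := hmain n ι κ π ξ v hF hbig (fun p => Z⁻¹ * ρ p) h1 h2 (fun p x => by rw [hinv])
  rwa [dens_const_mul hρ.ms hc] at h3

end Pool.Agent.Lib.MP_6d896a_gt.EX
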