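import Mathlib
import Pool.Agent.Lib.MP_6d896a_gt.Ex16

/-!
The affine invariant Poincare inequality for partially exchangeable log-concave densities.
-/

set_option autoImplicit false

namespace Pool.Agent.Lib.MP_6d896a_gt.EX

open MeasureTheory ProbabilityTheory Set Filter Pool.Agent.Lib.MP_6d896a_gt.FP
open scoped ENNReal Topology

/-- densities on `ℝ^ι` invariant under the permutations of large classes -/
theorem perm_ap : ∃ C : ℝ, 1 ≤ C ∧ ∀ (ι : Type) [Fintype ι] [DecidableEq ι] (k : ℕ)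
    (π : ι → Fin k), Function.Surjective π →
    (∀ i j, i ≠ j → π i = π j → 10 ^ 6 ≤ Fintype.card {l // π l = π i}) →
    ∀ ρ : (ι → ℝ) → ℝ, LCd ρ → ∫⁻ x, ENNReal.ofReal (ρ x) ≠ 0 →
    ∫⁻ x, ENNReal.ofReal (ρ x) ≠ ∞ →
    (∀ i j, π i = π j → ∀ x : ι → ℝ, ρ (fun l => x (Equiv.swap i j l)) = ρ x) →
    AP (dens ρ) (C ^ k * (C * ((k : ℝ) + 1) ^ 2)) := by
  obtain ⟨C1, hC1, hfib⟩ := fibreStat
  obtain ⟨C2, hC2, hfr⟩ := dens_frame
  refine ⟨max C1 C2, hC1.trans (le_max_left _ _), ?_⟩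
  intro ι _ _ k π hπ hbig ρ hρ h0 ht hinv
  obtain ⟨n, ξ, v, hF⟩ := exists_frame π
  obtain ⟨e, he⟩ := hF.exists_split hπ
  have hkey : AP (dens ρ) (C1 ^ k * (C2 * ((k : ℝ) + 1) ^ 2)) := by
    refine AP.lin (E := Fin k ⊕ Fin n → ℝ) (F := ι → ℝ) e ?_
    obtain ⟨h0', ht'⟩ := lint_lin_ne e h0 ht
    have hρ' : LCd (fun z => ρ (e z)) := by
      have := LCd.lin (e : (Fin k ⊕ Fin n → ℝ) →L[ℝ] (ι → ℝ)) 0 hρ
      simpa using this
    have hK : 1 ≤ C2 * ((k : ℝ) + 1) ^ 2 := by
      have h1 : (1 : ℝ) ≤ ((k : ℝ) + 1) ^ 2 := one_le_pow₀ (by linarith [Nat.cast_nonneg (α := ℝ) k])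
      nlinarith
    refine base_iter hC1 hfib k (Fin n) (fun z => ρ (e z)) hρ' h0' ht' _ hK fun y hy0 hyt => ?_
    have hlc : LCd (fun x : Fin n → ℝ => ρ (e (Sum.elim y x))) := by
      refine hρ'.comp_linear (fun x : Fin n → ℝ => (Sum.elim y x : Fin k ⊕ Fin n → ℝ)) ?_ ?_
      · refine measurable_pi_lambda _ fun w => ?_
        rcases w with w | w
        · exact measurable_const
        · exact measurable_pi_apply w
      · intro x z a b hab
        funext w
        rcases w with w | w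
        · show y w = a * y w + b * y w
          rw [← add_mul, hab, one_mul]
        · rfl
    have hmain := hfr n ι (Fin k) π ξ v hF (fun p => hbig p.1.1 p.1.2 p.2.2 p.2.1)
      (fun x : Fin n → ℝ => ρ (e (Sum.elim y x))) hlc hy0 hyt ?_
    · rwa [Fintype.card_fin] at hmain
    · intro p x
      rw [← hinv p.1.1 p.1.2 p.2.1 (e (Sum.elim y x))]
      congr 1
      funext i
      rw [he, he]
      simp only [Sum.elim_inl, Sum.elim_inr]
      have hc : π (Equiv.swap p.1.1 p.1.2 i) = π i := by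
        by_cases h1 : i = p.1.1
        · subst h1
          rw [Equiv.swap_apply_left]
          exact p.2.1.symm
        · by_cases h2 : i = p.1.2
          · subst h2
            rw [Equiv.swap_apply_right]
            exact p.2.1
          · rw [Equiv.swap_apply_of_ne_of_ne h1 h2]
      rw [hc]
      congr 1
      have h2 := hF.xi_refl p.2.1 p.2.2 i ((EuclideanSpace.equiv (Fin n) ℝ).symm x)
      unfold rR
      rw [← h2]
      congr 1
  refine AP.mono hkey ?_
  have h1 : C1 ^ k ≤ (max C1 C2) ^ k := pow_le_pow_left₀ (by linarith) (le_max_left _ _) k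
  have h2 : C2 * ((k : ℝ) + 1) ^ 2 ≤ max C1 C2 * ((k : ℝ) + 1) ^ 2 :=
    mul_le_mul_of_nonneg_right (le_max_right _ _) (by positivity)
  exact mul_le_mul h1 h2 (by positivity) (by positivity)

/-- counting the colors after splitting the small classes -/
lemma refine_count {N m : ℕ} (π : Fin N → Fin m) (B : ℕ) (hB : 1 ≤ B) :
    (Finset.univ.image (fun i : Fin N =>
      (if B ≤ Fintype.card {l // π l = π i} then Sum.inl (π i) else Sum.inr i :
        Fin m ⊕ Fin N))).card ≤ B * m := by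
  classical
  set f : Fin N → Fin m ⊕ Fin N := fun i =>
    if B ≤ Fintype.card {l // π l = π i} then Sum.inl (π i) else Sum.inr i with hf
  have h1 : Finset.univ.image f ⊆
      (Finset.univ : Finset (Fin m)).biUnion
        (fun c => (Finset.univ.filter (fun i => π i = c)).image f) := by
    intro z hz
    rw [Finset.mem_image] at hz
    obtain ⟨i, -, rfl⟩ := hz
    rw [Finset.mem_biUnion]
    exact ⟨π i, Finset.mem_univ _, Finset.mem_image.mpr ⟨i, by simp, rfl⟩⟩
  refine (Finset.card_le_card h1).trans ?_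
  refine (Finset.card_biUnion_le).trans ?_
  have h2 : ∀ c : Fin m, ((Finset.univ.filter (fun i => π i = c)).image f).card ≤ B := by
    intro c
    by_cases hc : B ≤ Fintype.card {l // π l = c}
    · have h3 : (Finset.univ.filter (fun i => π i = c)).image f ⊆ {Sum.inl c} := by
        intro z hz
        rw [Finset.mem_image] at hz
        obtain ⟨i, hi, rfl⟩ := hz
        rw [Finset.mem_filter] at hi
        rw [Finset.mem_singleton, hf]
        simp only
        rw [hi.2, if_pos hc]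
      exact (Finset.card_le_card h3).trans (by simpa using hB)
    · refine Finset.card_image_le.trans ?_
      rw [Fintype.card_subtype] at hc
      omega
  refine (Finset.sum_le_sum fun c _ => h2 c).trans (le_of_eq ?_)
  simp [mul_comm]

/-- all colorings -/
theorem perm_ap_gen : ∃ D : ℝ, 1 ≤ D ∧ ∀ (N m : ℕ) (π : Fin N → Fin m)
    (ρ : (Fin N → ℝ) → ℝ), LCd ρ → ∫⁻ x, ENNReal.ofReal (ρ x) ≠ 0 →
    ∫⁻ x, ENNReal.ofReal (ρ x) ≠ ∞ →
    (∀ i j, π i = π j → ∀ x : Fin N → ℝ, ρ (fun l => x (Equiv.swap i j l)) = ρ x) →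
    AP (dens ρ) (D ^ (m + 1)) := by
  classical
  obtain ⟨C, hC, hmain⟩ := perm_ap
  set B : ℕ := 10 ^ 6 with hB
  refine ⟨C ^ (B + 1) * (4 * (B : ℝ) ^ 2), ?_, ?_⟩
  · have h1 : 1 ≤ C ^ (B + 1) := one_le_pow₀ hC
    have h2 : (1 : ℝ) ≤ 4 * (B : ℝ) ^ 2 := by
      rw [hB]
      norm_num
    nlinarith
  intro N m π ρ hρ h0 ht hinv
  set f : Fin N → Fin m ⊕ Fin N := fun i =>
    if B ≤ Fintype.card {l // π l = π i} then Sum.inl (π i) else Sum.inr i with hf
  set Y : Finset (Fin m ⊕ Fin N) := Finset.univ.image f with hY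
  set k : ℕ := Y.card with hk
  have hkm : k ≤ B * m := refine_count π B (by norm_num [hB])
  set eY : Y ≃ Fin k := Y.equivFin with heY
  have hfY : ∀ i, f i ∈ Y := fun i => Finset.mem_image.mpr ⟨i, Finset.mem_univ _, rfl⟩
  set π' : Fin N → Fin k := fun i => eY ⟨f i, hfY i⟩ with hπ'
  have hπ'eq : ∀ i j, π' i = π' j ↔ f i = f j := by
    intro i j
    rw [hπ']
    simp only [EmbeddingLike.apply_eq_iff_eq, Subtype.mk.injEq]
  have hsurj : Function.Surjective π' := by
    intro c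
    obtain ⟨⟨z, hz⟩, rfl⟩ := eY.surjective c
    obtain ⟨i, -, rfl⟩ := Finset.mem_image.mp hz
    exact ⟨i, rfl⟩
  have hfπ : ∀ i j, f i = f j → π i = π j := by
    intro i j hij
    rw [hf] at hij
    simp only at hij
    split_ifs at hij with h1 h2 h2
    · exact Sum.inl_injective hij
    · rw [Sum.inr_injective hij]
  have hbig : ∀ i j, i ≠ j → π' i = π' j → 10 ^ 6 ≤ Fintype.card {l // π' l = π' i} := by
    intro i j hne hij
    rw [hπ'eq] at hij
    have hi : B ≤ Fintype.card {l // π l = π i} := by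
      by_contra hcon
      have e1 : f i = Sum.inr i := by
        rw [hf]; simp only; rw [if_neg hcon]
      have hpi := hfπ i j hij
      have hcon' : ¬ B ≤ Fintype.card {l // π l = π j} := by rwa [← hpi]
      have e2 : f j = Sum.inr j := by
        rw [hf]; simp only; rw [if_neg hcon']
      rw [e1, e2] at hij
      exact hne (Sum.inr_injective hij)
    refine hi.trans (le_of_eq ?_)
    apply Fintype.card_congr
    apply Equiv.subtypeEquivRight
    intro l
    rw [hπ'eq]
    constructor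
    · intro h
      rw [hf]
      simp only
      rw [h, if_pos hi, if_pos hi]
    · exact fun h => hfπ l i h
  have h1 := hmain (Fin N) k π' hsurj hbig ρ hρ h0 ht
    (fun i j hij x => hinv i j (hfπ i j ((hπ'eq i j).mp hij)) x)
  refine AP.mono h1 ?_
  have hB1 : (1 : ℝ) ≤ (B : ℝ) := by rw [hB]; norm_num
  have hkm' : (k : ℝ) ≤ B * m := by exact_mod_cast hkm
  have h2 : C ^ k ≤ C ^ (B * m) := pow_le_pow_right₀ hC hkm
  have h3 : ((k : ℝ) + 1) ≤ B * 2 ^ m := by
    have h4 : ((m : ℝ) + 1) ≤ 2 ^ m := by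
      exact_mod_cast Nat.lt_two_pow_self (n := m)
    have h5 : (B : ℝ) * (m + 1) ≤ B * 2 ^ m := mul_le_mul_of_nonneg_left h4 (by linarith)
    nlinarith
  have h4 : ((k : ℝ) + 1) ^ 2 ≤ (B * 2 ^ m) ^ 2 := pow_le_pow_left₀ (by positivity) h3 2
  have h5 : C ^ k * (C * ((k : ℝ) + 1) ^ 2) ≤ C ^ (B * m) * (C * (B * 2 ^ m) ^ 2) := by
    apply mul_le_mul h2 _ (by positivity) (by positivity)
    exact mul_le_mul_of_nonneg_left h4 (by linarith)
  refine h5.trans ?_
  have e1 : (C ^ (B + 1) * (4 * (B : ℝ) ^ 2)) ^ (m + 1) =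
      C ^ (B * m) * (C * (B * 2 ^ m) ^ 2) * (C ^ (B + m) * (4 * ((B : ℝ) ^ 2) ^ m)) := by
    rw [mul_pow, mul_pow, ← pow_mul, mul_pow (B : ℝ) (2 ^ m) 2, ← pow_mul 2 m 2]
    have e2 : (2 : ℝ) ^ (m * 2) = 4 ^ m := by
      rw [mul_comm, pow_mul]
      norm_num
    rw [e2, show (B + 1) * (m + 1) = B * m + 1 + (B + m) by ring, pow_add, pow_add, pow_one]
    ring
  rw [e1]
  apply le_mul_of_one_le_right (by positivity)
  have h6 : 1 ≤ C ^ (B + m) := one_le_pow₀ hC
  have h7 : (1 : ℝ) ≤ ((B : ℝ) ^ 2) ^ m := one_le_pow₀ (one_le_pow₀ hB1)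
  nlinarith

end Pool.Agent.Lib.MP_6d896a_gt.EX
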