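import Mathlib
import Pool.Agent.Lib.MP_6d896a_gt.FP.PLm

/-!
Log-concavity tested on compact sets implies the Prekopa-Leindler inequality.
-/

namespace Pool.Agent.Lib.MP_6d896a_gt

open MeasureTheory ProbabilityTheory Filter Topology Set
open scoped ENNReal NNReal Pointwise

variable {E : Type*} [NormedAddCommGroup E] [NormedSpace ℝ E] [MeasurableSpace E] [BorelSpace E]
  [FiniteDimensional ℝ E]

lemma borell_meas {μ : Measure E} [IsFiniteMeasure μ]
    (hμ : ∀ (A B : Set E) (t : ℝ), IsCompact A → IsCompact B → 0 < t → t < 1 →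
      (μ A) ^ t * (μ B) ^ (1 - t) ≤ μ (t • A + (1 - t) • B))
    {A B C : Set E} (hA : MeasurableSet A) (hB : MeasurableSet B) {l : ℝ} (h0 : 0 < l) (h1 : l < 1)
    (H : ∀ x ∈ A, ∀ y ∈ B, (1 - l) • x + l • y ∈ C) : μ A ^ (1 - l) * μ B ^ l ≤ μ C := by
  have h1' : 0 < 1 - l := by linarith
  by_cases hA0 : μ A = 0
  · rw [hA0, ENNReal.zero_rpow_of_pos h1', zero_mul]; exact zero_le
  by_cases hB0 : μ B = 0
  · rw [hB0, ENNReal.zero_rpow_of_pos h0, mul_zero]; exact zero_le
  have hAt : μ A ≠ ∞ := measure_ne_top _ _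
  have hBt : μ B ≠ ∞ := measure_ne_top _ _
  apply ENNReal.le_of_forall_lt_one_mul_le
  intro a ha
  by_cases ha0 : a = 0
  · rw [ha0, zero_mul]; exact zero_le
  have hat : a ≠ ∞ := (ha.trans ENNReal.one_lt_top).ne
  have hltA : a * μ A < μ A := by
    calc a * μ A < 1 * μ A := by
          rw [ENNReal.mul_lt_mul_iff_left hA0 hAt]; exact ha
      _ = μ A := one_mul _
  have hltB : a * μ B < μ B := by
    calc a * μ B < 1 * μ B := by
          rw [ENNReal.mul_lt_mul_iff_left hB0 hBt]; exact ha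
      _ = μ B := one_mul _
  obtain ⟨K, hKA, hK, hKm⟩ := hA.exists_lt_isCompact_of_ne_top hAt hltA
  obtain ⟨L, hLB, hL, hLm⟩ := hB.exists_lt_isCompact_of_ne_top hBt hltB
  have e1 : a * (μ A ^ (1 - l) * μ B ^ l) = (a * μ A) ^ (1 - l) * (a * μ B) ^ l := by
    rw [ENNReal.mul_rpow_of_nonneg _ _ h1'.le, ENNReal.mul_rpow_of_nonneg _ _ h0.le]
    have e2 : a ^ (1 - l) * a ^ l = a := by
      rw [← ENNReal.rpow_add _ _ ha0 hat]; simp
    calc a * (μ A ^ (1 - l) * μ B ^ l) = (a ^ (1 - l) * a ^ l) * (μ A ^ (1 - l) * μ B ^ l) := by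
          rw [e2]
      _ = _ := by ring
  rw [e1]
  calc (a * μ A) ^ (1 - l) * (a * μ B) ^ l ≤ μ K ^ (1 - l) * μ L ^ l := by
        apply mul_le_mul'
        · exact ENNReal.rpow_le_rpow hKm.le h1'.le
        · exact ENNReal.rpow_le_rpow hLm.le h0.le
    _ ≤ μ ((1 - l) • K + l • L) := by
        have := hμ K L (1 - l) hK hL h1' (by linarith)
        rwa [sub_sub_cancel] at this
    _ ≤ μ C := by
        apply measure_mono
        rintro z ⟨x, ⟨x', hx', rfl⟩, y, ⟨y', hy', rfl⟩, rfl⟩
        exact H x' (hKA hx') y' (hLB hy')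

lemma lint_exp (c : ℝ≥0∞) : ∫⁻ u : ℝ, (if ENNReal.ofReal (Real.exp u) < c then 1 else 0) *
    ENNReal.ofReal (Real.exp u) = c := by
  have h1 := lintegral_image_eq_lintegral_abs_deriv_mul (s := (univ : Set ℝ)) MeasurableSet.univ
    (fun x _ => (Real.hasDerivAt_exp x).hasDerivWithinAt) Real.exp_injective.injOn
    (fun r => if ENNReal.ofReal r < c then 1 else 0)
  rw [image_univ, Real.range_exp, Measure.restrict_univ] at h1
  have h2 : ∫⁻ u : ℝ, (if ENNReal.ofReal (Real.exp u) < c then 1 else 0) *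
      ENNReal.ofReal (Real.exp u) = ∫⁻ r in Ioi (0 : ℝ), (if ENNReal.ofReal r < c then 1 else 0) := by
    rw [h1]
    apply lintegral_congr
    intro u
    rw [abs_of_pos (Real.exp_pos u), mul_comm]
  rw [h2]
  have hm : MeasurableSet {r : ℝ | ENNReal.ofReal r < c} :=
    measurableSet_lt ENNReal.measurable_ofReal measurable_const
  have h3 : ∀ r : ℝ, (if ENNReal.ofReal r < c then (1 : ℝ≥0∞) else 0) =
      {r : ℝ | ENNReal.ofReal r < c}.indicator 1 r := by
    intro r
    by_cases hr : ENNReal.ofReal r < c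
    · simp [hr]
    · simp [hr]
  simp only [h3]
  rw [lintegral_indicator_one hm, Measure.restrict_apply hm]
  by_cases hc : c = ∞
  · have : {r : ℝ | ENNReal.ofReal r < c} ∩ Ioi 0 = Ioi 0 := by
      ext r; simp [hc]
    rw [this, hc]
    simp
  · have : {r : ℝ | ENNReal.ofReal r < c} ∩ Ioi 0 = Ioo 0 c.toReal := by
      ext r
      simp only [mem_inter_iff, mem_ofPred_eq, mem_Ioi, mem_Ioo]
      constructor
      · rintro ⟨hr1, hr0⟩
        exact ⟨hr0, (ENNReal.ofReal_lt_iff_lt_toReal hr0.le hc).mp hr1⟩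
      · rintro ⟨hr0, hr1⟩
        exact ⟨(ENNReal.ofReal_lt_iff_lt_toReal hr0.le hc).mpr hr1, hr0⟩
    rw [this, Real.volume_Ioo, sub_zero, ENNReal.ofReal_toReal hc]

omit [NormedSpace ℝ E] [BorelSpace E] [FiniteDimensional ℝ E] in
lemma lint_layer (μ : Measure E) [SFinite μ] {f : E → ℝ≥0∞} (hf : Measurable f) :
    ∫⁻ x, f x ∂μ = ∫⁻ u : ℝ, μ {x | ENNReal.ofReal (Real.exp u) < f x} *
      ENNReal.ofReal (Real.exp u) := by
  have hm : Measurable (fun p : E × ℝ => (if ENNReal.ofReal (Real.exp p.2) < f p.1 then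
      (1 : ℝ≥0∞) else 0) * ENNReal.ofReal (Real.exp p.2)) := by
    have h1 : MeasurableSet {p : E × ℝ | ENNReal.ofReal (Real.exp p.2) < f p.1} :=
      measurableSet_lt ((Real.measurable_exp.comp measurable_snd).ennreal_ofReal)
        (hf.comp measurable_fst)
    exact (Measurable.ite h1 measurable_const measurable_const).mul
      (Real.measurable_exp.comp measurable_snd).ennreal_ofReal
  calc ∫⁻ x, f x ∂μ = ∫⁻ x, (∫⁻ u : ℝ, (if ENNReal.ofReal (Real.exp u) < f x then 1 else 0) *
        ENNReal.ofReal (Real.exp u)) ∂μ := by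
        apply lintegral_congr
        intro x
        exact (lint_exp (f x)).symm
    _ = ∫⁻ u : ℝ, (∫⁻ x, (if ENNReal.ofReal (Real.exp u) < f x then 1 else 0) *
        ENNReal.ofReal (Real.exp u) ∂μ) := lintegral_lintegral_swap hm.aemeasurable
    _ = _ := by
        apply lintegral_congr
        intro u
        have h1 : MeasurableSet {x | ENNReal.ofReal (Real.exp u) < f x} :=
          measurableSet_lt measurable_const hf
        have h3 : ∀ x, (if ENNReal.ofReal (Real.exp u) < f x then (1 : ℝ≥0∞) else 0) =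
            {x | ENNReal.ofReal (Real.exp u) < f x}.indicator 1 x := by
          intro x
          by_cases hr : ENNReal.ofReal (Real.exp u) < f x
          · simp [hr]
          · simp [hr]
        simp only [h3]
        rw [lintegral_mul_const _ (measurable_one.indicator h1), lintegral_indicator_one h1]

/-- Borell's theorem -/
theorem plm_of_borell {μ : Measure E} [IsFiniteMeasure μ]
    (hμ : ∀ (A B : Set E) (t : ℝ), IsCompact A → IsCompact B → 0 < t → t < 1 →
      (μ A) ^ t * (μ B) ^ (1 - t) ≤ μ (t • A + (1 - t) • B)) : FP.PLm μ := by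
  intro l h0 h1 f g h hf hg hh H
  have h1' : 0 < 1 - l := by linarith
  rw [lint_layer μ hf, lint_layer μ hg, lint_layer μ hh]
  have hmeas : ∀ {f : E → ℝ≥0∞}, Measurable f → Measurable (fun u : ℝ =>
      μ {x | ENNReal.ofReal (Real.exp u) < f x} * ENNReal.ofReal (Real.exp u)) := by
    intro f _
    have ha : Antitone (fun u : ℝ => μ {x | ENNReal.ofReal (Real.exp u) < f x}) := by
      intro u v huv
      apply measure_mono
      intro x hx
      exact lt_of_le_of_lt (ENNReal.ofReal_le_ofReal (Real.exp_le_exp.mpr huv)) hx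
    exact ha.measurable.mul Real.measurable_exp.ennreal_ofReal
  have hpl := FP.plm_haar (volume : Measure ℝ)
  refine hpl l h0 h1 _ _ _ (hmeas hf) (hmeas hg) (hmeas hh) fun u v => ?_
  rw [ENNReal.mul_rpow_of_nonneg _ _ h1'.le, ENNReal.mul_rpow_of_nonneg _ _ h0.le]
  have e1 : ENNReal.ofReal (Real.exp u) ^ (1 - l) * ENNReal.ofReal (Real.exp v) ^ l =
      ENNReal.ofReal (Real.exp ((1 - l) • u + l • v)) := by
    rw [ENNReal.ofReal_rpow_of_pos (Real.exp_pos u), ENNReal.ofReal_rpow_of_pos (Real.exp_pos v),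
      ← ENNReal.ofReal_mul (by positivity), ← Real.exp_mul, ← Real.exp_mul, ← Real.exp_add]
    congr 2
    simp only [smul_eq_mul]
    ring
  have h2 : μ {x | ENNReal.ofReal (Real.exp u) < f x} ^ (1 - l) *
      μ {x | ENNReal.ofReal (Real.exp v) < g x} ^ l ≤
      μ {x | ENNReal.ofReal (Real.exp ((1 - l) • u + l • v)) < h x} := by
    apply borell_meas hμ (measurableSet_lt measurable_const hf)
      (measurableSet_lt measurable_const hg) h0 h1
    intro x hx y hy
    have hx' : ENNReal.ofReal (Real.exp u) < f x := hx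
    have hy' : ENNReal.ofReal (Real.exp v) < g y := hy
    show ENNReal.ofReal (Real.exp ((1 - l) • u + l • v)) < h ((1 - l) • x + l • y)
    rw [← e1]
    refine lt_of_lt_of_le ?_ (H x y)
    exact ENNReal.mul_lt_mul (ENNReal.rpow_lt_rpow hx' h1') (ENNReal.rpow_lt_rpow hy' h0)
  calc _ = (μ {x | ENNReal.ofReal (Real.exp u) < f x} ^ (1 - l) *
      μ {x | ENNReal.ofReal (Real.exp v) < g x} ^ l) *
      (ENNReal.ofReal (Real.exp u) ^ (1 - l) * ENNReal.ofReal (Real.exp v) ^ l) := by ring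
    _ ≤ _ := by
      rw [e1]
      exact mul_le_mul_left h2 _

end Pool.Agent.Lib.MP_6d896a_gt
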