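import Mathlib
import Pool.Agent.Lib.MP_6d896a_gt.Ex17
import Pool.Agent.Lib.MP_6d896a_gt.FP.PostPL
import Pool.Agent.Lib.MP_6d896a_gt.FP.PoincExt
import Pool.Agent.Lib.MP_6d896a_gt.FP.EM
import Pool.Agent.Lib.MP_6d896a_gt.FP.Image
import Pool.Agent.Lib.MP_6d896a_gt.FP.Stable
import Pool.Agent.Lib.MP_6d896a_gt.Sym15

/-!
The affine invariant Poincare inequality for log-concave measures without density, by Gaussian
regularisation.
-/

set_option autoImplicit false

namespace Pool.Agent.Lib.MP_6d896a_gt.EX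

open MeasureTheory ProbabilityTheory Set Filter Pool.Agent.Lib.MP_6d896a_gt.FP
open scoped ENNReal Topology

section reg

variable {E : Type*} [NormedAddCommGroup E] [InnerProductSpace ℝ E] [FiniteDimensional ℝ E]
  [MeasurableSpace E] [BorelSpace E]

/-- variance of a sum -/
lemma var_add_le {Ω : Type*} [MeasurableSpace Ω] {P : Measure Ω} [IsProbabilityMeasure P]
    {X Y : Ω → ℝ} (hX : MemLp X 2 P) (hY : MemLp Y 2 P) {t : ℝ} (ht : 0 < t) :
    Var[fun ω => X ω + t * Y ω; P] ≤ (1 + t) * Var[X; P] + (t + t ^ 2) * Var[Y; P] := by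
  set a := ∫ ω, X ω ∂P with ha
  set b := ∫ ω, Y ω ∂P with hb
  have iX := hX.integrable one_le_two
  have iY := hY.integrable one_le_two
  have hXY : MemLp (fun ω => X ω + t * Y ω) 2 P := hX.add (hY.const_mul t)
  have e1 : Var[fun ω => X ω + t * Y ω; P] = ∫ ω, ((X ω - a) + t * (Y ω - b)) ^ 2 ∂P := by
    rw [variance_eq_integral hXY.aestronglyMeasurable.aemeasurable,
      integral_add iX (iY.const_mul t), integral_const_mul, ← ha, ← hb]
    congr 1
    funext ω
    ring
  have e2 : Var[X; P] = ∫ ω, (X ω - a) ^ 2 ∂P :=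
    variance_eq_integral hX.aestronglyMeasurable.aemeasurable
  have e3 : Var[Y; P] = ∫ ω, (Y ω - b) ^ 2 ∂P :=
    variance_eq_integral hY.aestronglyMeasurable.aemeasurable
  have hX' : MemLp (fun ω => X ω - a) 2 P := hX.sub (memLp_const a)
  have hY' : MemLp (fun ω => Y ω - b) 2 P := hY.sub (memLp_const b)
  have hs : MemLp (fun ω => (X ω - a) + t * (Y ω - b)) 2 P := hX'.add (hY'.const_mul t)
  rw [e1, e2, e3, ← integral_const_mul, ← integral_const_mul,
    ← integral_add (hX'.integrable_sq.const_mul _) (hY'.integrable_sq.const_mul _)]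
  apply integral_mono hs.integrable_sq
    ((hX'.integrable_sq.const_mul _).add (hY'.integrable_sq.const_mul _))
  intro ω
  show ((X ω - a) + t * (Y ω - b)) ^ 2 ≤ (1 + t) * (X ω - a) ^ 2 + (t + t ^ 2) * (Y ω - b) ^ 2
  nlinarith [mul_nonneg ht.le (sq_nonneg ((X ω - a) - (Y ω - b)))]

/-- stability of the affine invariant inequality under removing Gaussian noise -/
theorem ap_of_cv {μ : Measure E} [IsProbabilityMeasure μ] (h2 : Integrable (fun x => ‖x‖ ^ 2) μ)
    {K : ℝ} (hK : 0 ≤ K) (h : ∀ t : ℝ, 0 < t → AP (FP.cv μ t) K) : AP μ K := by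
  rintro f hf ⟨l, hl⟩
  have hl0 : 0 ≤ l := (norm_nonneg _).trans (hl 0)
  set γ : Measure E := stdGaussian E with hγ
  set P : Measure (E × E) := μ.prod γ with hP
  set t : ℕ → ℝ := fun n => 1 / ((n : ℝ) + 1) with ht
  have ht0 : ∀ n, 0 < t n := fun n => by rw [ht]; positivity
  have ht1 : ∀ n, t n ≤ 1 := fun n => by
    rw [ht]
    simp only
    rw [div_le_one (by positivity)]
    linarith [Nat.cast_nonneg (α := ℝ) n]
  have htlim : Tendsto t atTop (𝓝 0) := tendsto_one_div_add_atTop_nhds_zero_nat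
  have hSc : ∀ n, Continuous (fun p : E × E => p.1 + t n • p.2) := fun n =>
    continuous_fst.add (continuous_const.smul continuous_snd)
  have hSm : ∀ n, Measurable (fun p : E × E => p.1 + t n • p.2) := fun n => (hSc n).measurable
  have hN1 : MemLp (fun x : E => ‖x‖) 2 μ := by
    rw [memLp_two_iff_integrable_sq continuous_norm.aestronglyMeasurable]
    exact h2
  have hN2 : MemLp (fun x : E => ‖x‖) 2 γ := (IsGaussian.memLp_two_id (μ := γ)).norm
  have hN1P : MemLp (fun p : E × E => ‖p.1‖) 2 P := hN1.comp_fst γ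
  have hN2P : MemLp (fun p : E × E => ‖p.2‖) 2 P := hN2.comp_snd μ
  have hfc : Continuous f := hf.continuous
  have hfd : Continuous (fderiv ℝ f) := hf.continuous_fderiv one_ne_zero
  have hlip := PE.lip_of_fderiv hf hl
  have hgrow : ∀ x, |f x| ≤ |f 0| + l * ‖x‖ := by
    intro x
    have h1 := hlip x 0
    rw [sub_zero] at h1
    have h3 : |f x| ≤ |f x - f 0| + |f 0| := by
      have := abs_add_le (f x - f 0) (f 0)
      simpa using this
    linarith
  -- left side
  have hleft : Tendsto (fun n => Var[f; FP.cv μ (t n)]) atTop (𝓝 Var[f; μ]) := by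
    have e1 : ∀ n, Var[f; FP.cv μ (t n)] = Var[fun p : E × E => f (p.1 + t n • p.2); P] := by
      intro n
      unfold FP.cv
      rw [variance_map hfc.measurable.aemeasurable (hSm n).aemeasurable]
      rfl
    have e2 : Var[f; μ] = Var[fun p : E × E => f p.1; P] := by
      have h3 : P.map Prod.fst = μ := by rw [hP, Measure.map_fst_prod]; simp
      rw [← h3, variance_map hfc.measurable.aemeasurable measurable_fst.aemeasurable]
      rfl
    simp only [e1]
    rw [e2]
    have a1 : MemLp (fun p : E × E => ‖p.1‖ + ‖p.2‖) 2 P := hN1P.add hN2P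
    have a2 : MemLp (fun p : E × E => l * (‖p.1‖ + ‖p.2‖)) 2 P := a1.const_mul l
    have a3 : MemLp (fun _ : E × E => |f 0|) 2 P := memLp_const _
    have hG : MemLp (fun p : E × E => |f 0| + l * (‖p.1‖ + ‖p.2‖)) 2 P := a3.add a2
    have hgm : ∀ n, AEStronglyMeasurable (fun p : E × E => f (p.1 + t n • p.2)) P :=
      fun n => (hfc.comp (hSc n)).aestronglyMeasurable
    refine PE.var_tendsto P hgm hG (fun n p => ?_) (fun p => ?_)
    · refine (hgrow _).trans ?_
      have h3 : ‖p.1 + t n • p.2‖ ≤ ‖p.1‖ + ‖p.2‖ := by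
        refine (norm_add_le _ _).trans ?_
        rw [norm_smul, Real.norm_eq_abs, abs_of_pos (ht0 n)]
        have := mul_le_mul_of_nonneg_right (ht1 n) (norm_nonneg p.2)
        linarith
      have := mul_le_mul_of_nonneg_left h3 hl0
      linarith
    · have h3 : Tendsto (fun n => p.1 + t n • p.2) atTop (𝓝 (p.1 + (0 : ℝ) • p.2)) :=
        tendsto_const_nhds.add (htlim.smul_const _)
      rw [zero_smul, add_zero] at h3
      exact (hfc.tendsto _).comp h3
  -- right side
  set H : E → ℝ := fun x => Var[fun z => fderiv ℝ f x z; μ] with hH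
  set A : ℝ := ∫ z, ‖z‖ ^ 2 ∂γ with hA
  have hLμ : ∀ L : E →L[ℝ] ℝ, MemLp (fun z => L z) 2 μ := fun L =>
    (hN1.const_mul ‖L‖).mono L.continuous.aestronglyMeasurable (ae_of_all _ fun x => by
      rw [Real.norm_of_nonneg (by positivity : 0 ≤ ‖L‖ * ‖x‖)]; exact L.le_opNorm x)
  have hLγ : ∀ L : E →L[ℝ] ℝ, MemLp (fun z => L z) 2 γ := fun L =>
    (hN2.const_mul ‖L‖).mono L.continuous.aestronglyMeasurable (ae_of_all _ fun x => by
      rw [Real.norm_of_nonneg (by positivity : 0 ≤ ‖L‖ * ‖x‖)]; exact L.le_opNorm x)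
  have hHc : Continuous H := by
    rw [continuous_iff_seqContinuous]
    intro x y hxy
    refine PE.var_tendsto μ (G := fun z => l * ‖z‖)
      (fun n => (fderiv ℝ f (x n)).continuous.aestronglyMeasurable) (hN1.const_mul l)
      (fun n z => ?_) (fun z => ?_)
    · rw [← Real.norm_eq_abs]
      exact ((fderiv ℝ f (x n)).le_opNorm z).trans
        (mul_le_mul_of_nonneg_right (hl _) (norm_nonneg _))
    · have h3 : Tendsto (fun n => fderiv ℝ f (x n)) atTop (𝓝 (fderiv ℝ f y)) :=
        (hfd.tendsto y).comp hxy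
      exact ((ContinuousLinearMap.apply ℝ ℝ z).continuous.tendsto _).comp h3
  have hH0 : ∀ x, 0 ≤ H x := fun x => variance_nonneg _ _
  have hvar_le : ∀ (ν : Measure E) [IsProbabilityMeasure ν] (_ : MemLp (fun x : E => ‖x‖) 2 ν)
      (L : E →L[ℝ] ℝ), Var[fun z => L z; ν] ≤ ‖L‖ ^ 2 * ∫ z, ‖z‖ ^ 2 ∂ν := by
    intro ν _ hν L
    refine (variance_le_expectation_sq L.continuous.aestronglyMeasurable).trans ?_
    rw [← integral_const_mul]
    have hi : Integrable (fun z => ‖L‖ ^ 2 * ‖z‖ ^ 2) ν := hν.integrable_sq.const_mul _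
    have hb : ∀ z, (L z) ^ 2 ≤ ‖L‖ ^ 2 * ‖z‖ ^ 2 := by
      intro z
      rw [← mul_pow, ← sq_abs, ← Real.norm_eq_abs]
      exact pow_le_pow_left₀ (norm_nonneg _) (L.le_opNorm z) 2
    apply integral_mono _ hi
    · exact hb
    · refine hi.mono' (L.continuous.pow 2).aestronglyMeasurable (ae_of_all _ fun z => ?_)
      show ‖(L z) ^ 2‖ ≤ ‖L‖ ^ 2 * ‖z‖ ^ 2
      rw [Real.norm_of_nonneg (sq_nonneg _)]
      exact hb z
  have hHb : ∀ x, H x ≤ l ^ 2 * ∫ z, ‖z‖ ^ 2 ∂μ := by
    intro x
    refine (hvar_le μ hN1 (fderiv ℝ f x)).trans ?_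
    apply mul_le_mul_of_nonneg_right (pow_le_pow_left₀ (norm_nonneg _) (hl x) 2)
    exact integral_nonneg fun z => by positivity
  -- variances of functionals under the regularised measure
  have hcvar : ∀ n (L : E →L[ℝ] ℝ), Var[fun z => L z; FP.cv μ (t n)] ≤
      (1 + t n) * Var[fun z => L z; μ] + (t n + t n ^ 2) * (‖L‖ ^ 2 * A) := by
    intro n L
    have e1 : Var[fun z => L z; FP.cv μ (t n)] =
        Var[fun p : E × E => L p.1 + t n * L p.2; P] := by
      unfold FP.cv
      rw [variance_map L.continuous.measurable.aemeasurable (hSm n).aemeasurable]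
      congr 1
      funext p
      simp
    have hX : MemLp (fun p : E × E => L p.1) 2 P := (hLμ L).comp_fst γ
    have hY : MemLp (fun p : E × E => L p.2) 2 P := (hLγ L).comp_snd μ
    rw [e1]
    refine (var_add_le hX hY (ht0 n)).trans ?_
    have e2 : Var[fun p : E × E => L p.1; P] = Var[fun z => L z; μ] := by
      have h3 : P.map Prod.fst = μ := by rw [hP, Measure.map_fst_prod]; simp
      rw [← h3, variance_map L.continuous.measurable.aemeasurable measurable_fst.aemeasurable]
      rfl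
    have e3 : Var[fun p : E × E => L p.2; P] = Var[fun z => L z; γ] := by
      have h3 : P.map Prod.snd = γ := by rw [hP, Measure.map_snd_prod]; simp
      rw [← h3, variance_map L.continuous.measurable.aemeasurable measurable_snd.aemeasurable]
      rfl
    rw [e2, e3]
    have h4 := hvar_le γ hN2 L
    have h5 : 0 ≤ t n + t n ^ 2 := by have := ht0 n; positivity
    have := mul_le_mul_of_nonneg_left h4 h5
    linarith
  have hcvp : ∀ n, IsProbabilityMeasure (FP.cv μ (t n)) := fun n => by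
    unfold FP.cv
    exact Measure.isProbabilityMeasure_map (hSm n).aemeasurable
  have hHi : ∀ (ν : Measure E) [IsProbabilityMeasure ν], Integrable H ν := fun ν _ =>
    Integrable.of_bound hHc.aestronglyMeasurable (l ^ 2 * ∫ z, ‖z‖ ^ 2 ∂μ)
      (ae_of_all _ fun x => by rw [Real.norm_of_nonneg (hH0 x)]; exact hHb x)
  have hbound : ∀ n, Var[f; FP.cv μ (t n)] ≤
      K * ((1 + t n) * ∫ x, H x ∂(FP.cv μ (t n)) + (t n + t n ^ 2) * (l ^ 2 * A)) := by
    intro n
    have := hcvp n
    refine (h (t n) (ht0 n) f hf ⟨l, hl⟩).trans ?_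
    apply mul_le_mul_of_nonneg_left _ hK
    have hA0 : 0 ≤ A := integral_nonneg fun z => by positivity
    have h5 : 0 ≤ t n + t n ^ 2 := by have := ht0 n; positivity
    have h6 : ∫ x, Var[fun z => fderiv ℝ f x z; FP.cv μ (t n)] ∂(FP.cv μ (t n)) ≤
        ∫ x, ((1 + t n) * H x + (t n + t n ^ 2) * (l ^ 2 * A)) ∂(FP.cv μ (t n)) := by
      apply integral_mono_of_nonneg (ae_of_all _ fun x => variance_nonneg _ _)
        (((hHi _).const_mul _).add (integrable_const _))
      refine ae_of_all _ fun x => ?_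
      refine (hcvar n (fderiv ℝ f x)).trans ?_
      have h7 : ‖fderiv ℝ f x‖ ^ 2 * A ≤ l ^ 2 * A :=
        mul_le_mul_of_nonneg_right (pow_le_pow_left₀ (norm_nonneg _) (hl x) 2) hA0
      have := mul_le_mul_of_nonneg_left h7 h5
      show (1 + t n) * H x + _ ≤ (1 + t n) * H x + _
      linarith
    refine h6.trans (le_of_eq ?_)
    rw [integral_add ((hHi _).const_mul _) (integrable_const _), integral_const_mul]
    simp
  have hHlim : Tendsto (fun n => ∫ x, H x ∂(FP.cv μ (t n))) atTop (𝓝 (∫ x, H x ∂μ)) := by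
    have e1 : ∀ n, ∫ x, H x ∂(FP.cv μ (t n)) = ∫ p : E × E, H (p.1 + t n • p.2) ∂P := by
      intro n
      unfold FP.cv
      rw [integral_map (hSm n).aemeasurable hHc.aestronglyMeasurable]
    have e2 : ∫ x, H x ∂μ = ∫ p : E × E, H p.1 ∂P := by
      have h3 : P.map Prod.fst = μ := by rw [hP, Measure.map_fst_prod]; simp
      rw [← h3, integral_map measurable_fst.aemeasurable hHc.aestronglyMeasurable]
    simp only [e1]
    rw [e2]
    refine tendsto_integral_of_dominated_convergence (fun _ => l ^ 2 * ∫ z, ‖z‖ ^ 2 ∂μ)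
      (fun n => (hHc.comp (hSc n)).aestronglyMeasurable) (integrable_const _)
      (fun n => ae_of_all _ fun p => ?_) (ae_of_all _ fun p => ?_)
    · rw [Real.norm_of_nonneg (hH0 _)]; exact hHb _
    · have h3 : Tendsto (fun n => p.1 + t n • p.2) atTop (𝓝 (p.1 + (0 : ℝ) • p.2)) :=
        tendsto_const_nhds.add (htlim.smul_const _)
      rw [zero_smul, add_zero] at h3
      exact (hHc.tendsto _).comp h3
  have hright : Tendsto (fun n => K * ((1 + t n) * ∫ x, H x ∂(FP.cv μ (t n)) +
      (t n + t n ^ 2) * (l ^ 2 * A))) atTop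
      (𝓝 (K * ((1 + 0) * ∫ x, H x ∂μ + (0 + 0 ^ 2) * (l ^ 2 * A)))) :=
    (((tendsto_const_nhds.add htlim).mul hHlim).add
      ((htlim.add (htlim.pow 2)).mul_const _)).const_mul K
  have hfin := le_of_tendsto_of_tendsto' hleft hright hbound
  simpa using hfin

end reg

/-! ### partially exchangeable measures -/

/-- the action of a permutation -/
noncomputable def pact {N : ℕ} (σ : Equiv.Perm (Fin N)) (x : EuclideanSpace ℝ (Fin N)) :
    EuclideanSpace ℝ (Fin N) := WithLp.toLp 2 fun i => x (σ i)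

lemma pact_cont {N : ℕ} (σ : Equiv.Perm (Fin N)) : Continuous (pact σ) := by
  unfold pact
  apply (PiLp.continuous_toLp 2 (fun _ : Fin N => ℝ)).comp
  apply continuous_pi
  intro k
  fun_prop

lemma pact_sub {N : ℕ} (σ : Equiv.Perm (Fin N)) (x y : EuclideanSpace ℝ (Fin N)) :
    pact σ x - pact σ y = pact σ (x - y) := by
  ext k
  simp [pact]

lemma pact_norm {N : ℕ} (σ : Equiv.Perm (Fin N)) (x : EuclideanSpace ℝ (Fin N)) :
    ‖pact σ x‖ = ‖x‖ := by
  have h : ‖pact σ x‖ ^ 2 = ‖x‖ ^ 2 := by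
    rw [EuclideanSpace.norm_sq_eq, EuclideanSpace.norm_sq_eq]
    exact Equiv.sum_comp σ (fun i => ‖x i‖ ^ 2)
  exact (sq_eq_sq₀ (norm_nonneg _) (norm_nonneg _)).mp h

/-- invariance under the permutations preserving the colors -/
def PInv {N m : ℕ} (π : Fin N → Fin m) (μ : Measure (EuclideanSpace ℝ (Fin N))) : Prop :=
  ∀ σ : Equiv.Perm (Fin N), (∀ i, π (σ i) = π i) → μ.map (pact σ) = μ

lemma fG_pinv {N m : ℕ} {π : Fin N → Fin m} {μ : Measure (EuclideanSpace ℝ (Fin N))}
    (h : PInv π μ) {σ : Equiv.Perm (Fin N)} (hσ : ∀ i, π (σ i) = π i) (d : ℝ)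
    (x : EuclideanSpace ℝ (Fin N)) : fG μ d (pact σ x) = fG μ d x := by
  unfold fG
  have hk : Continuous (fun z : EuclideanSpace ℝ (Fin N) => gk d (pact σ x - z)) :=
    (gk_continuous d).comp (continuous_const.sub continuous_id)
  conv_lhs => rw [← h σ hσ]
  rw [integral_map (pact_cont σ).measurable.aemeasurable hk.aestronglyMeasurable]
  congr 1
  funext z
  rw [pact_sub]
  unfold gk
  rw [pact_norm]

/-- the affine invariant inequality for partially exchangeable log-concave measures -/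
theorem pinv_ap : ∃ D : ℝ, 1 ≤ D ∧ ∀ (N m : ℕ) (π : Fin N → Fin m)
    (μ : Measure (EuclideanSpace ℝ (Fin N))) [IsProbabilityMeasure μ], PLm μ → PInv π μ →
    AP μ (D ^ (m + 1)) := by
  obtain ⟨D, hD, hmain⟩ := perm_ap_gen
  refine ⟨D, hD, ?_⟩
  intro N m π μ _ hpl hinv
  have hD1 : 1 ≤ D ^ (m + 1) := one_le_pow₀ hD
  refine ap_of_cv hpl.sq_integrable (by linarith) fun t ht => ?_
  set d : ℝ := 1 / (2 * t ^ 2) with hd
  have hd0 : 0 < d := by positivity
  have hcv : FP.cv μ t = volume.withDensity (fun x => ENNReal.ofReal (fG μ d x)) := cv_eq ht rfl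
  have hmass : ∫⁻ x, ENNReal.ofReal (fG μ d x) = 1 := by
    have h1 : IsProbabilityMeasure (FP.cv μ t) := by
      unfold FP.cv
      exact Measure.isProbabilityMeasure_map (by fun_prop)
    have h2 := h1.measure_univ
    rw [hcv, withDensity_apply _ MeasurableSet.univ, Measure.restrict_univ] at h2
    exact h2
  have hdens : FP.cv μ t = dens (fG μ d) := by
    unfold dens
    rw [hmass, inv_one, one_smul, hcv]
  have hlc : LCd (fG μ d) := by
    refine ⟨fun x => integral_nonneg fun z => (gk_pos hd0 _).le, fG_measurable,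
      fun x y a b ha hb hab => ?_⟩
    have := fG_logconcave hd0 hpl x y hb (by linarith : b < 1)
    rwa [show 1 - b = a by linarith] at this
  rw [hdens]
  set e := (EuclideanSpace.equiv (Fin N) ℝ).symm with he
  refine AP.lin (E := Fin N → ℝ) (F := EuclideanSpace ℝ (Fin N)) e ?_
  have h0 : ∫⁻ x, ENNReal.ofReal (fG μ d x) ≠ 0 := by rw [hmass]; simp
  have htt : ∫⁻ x, ENNReal.ofReal (fG μ d x) ≠ ∞ := by rw [hmass]; simp
  obtain ⟨h0', ht'⟩ := lint_lin_ne e h0 htt
  have hlc' : LCd (fun x => fG μ d (e x)) := by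
    have := LCd.lin (e : (Fin N → ℝ) →L[ℝ] EuclideanSpace ℝ (Fin N)) 0 hlc
    simpa using this
  refine hmain N m π (fun x => fG μ d (e x)) hlc' h0' ht' fun i j hij x => ?_
  have hσ : ∀ k, π (Equiv.swap i j k) = π k := by
    intro k
    by_cases h1 : k = i
    · subst h1
      rw [Equiv.swap_apply_left]
      exact hij.symm
    · by_cases h2 : k = j
      · subst h2
        rw [Equiv.swap_apply_right]
        exact hij
      · rw [Equiv.swap_apply_of_ne_of_ne h1 h2]
  have h1 := fG_pinv hinv hσ d (e x)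
  rw [← h1]
  rfl

/-- the final statement -/
theorem pinv_cheeger : ∃ C : ℝ, 0 < C ∧ ∀ (N m : ℕ) (π : Fin N → Fin m)
    (μ : Measure (EuclideanSpace ℝ (Fin N))) [IsProbabilityMeasure μ], PLm μ → PInv π μ →
    ∀ (n : ℕ) (T : EuclideanSpace ℝ (Fin N) →ₗ[ℝ] EuclideanSpace ℝ (Fin n)) (s : ℝ), 0 < s →
    (∀ θ : EuclideanSpace ℝ (Fin n), ‖θ‖ = 1 → Var[fun x => inner ℝ x θ; μ.map T] ≤ s) →
    ∀ S : Set (EuclideanSpace ℝ (Fin n)), MeasurableSet S →
      ENNReal.ofReal (C ^ (m + 1) / Real.sqrt s) * min (μ.map T S) (μ.map T Sᶜ) ≤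
        Filter.liminf
          (fun ε : ℝ => (μ.map T (Metric.thickening ε S) - μ.map T S) / ENNReal.ofReal ε)
          (𝓝[>] 0) := by
  obtain ⟨D, hD, hap⟩ := pinv_ap
  obtain ⟨c, hc, hch⟩ := cheeger_image
  set c' : ℝ := min c 1 with hc'
  have hc'0 : 0 < c' := lt_min hc one_pos
  have hsD : 1 ≤ Real.sqrt D := by
    rw [Real.one_le_sqrt]
    exact hD
  refine ⟨c' / Real.sqrt D, by positivity, ?_⟩
  intro N m π μ _ hpl hinv n T s hs hvar S hS
  have hD1 : 1 ≤ D ^ (m + 1) := one_le_pow₀ hD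
  refine le_trans ?_ (hch (EuclideanSpace ℝ (Fin N)) μ hpl _ hD1 (hap N m π μ hpl hinv) n T s hs
    hvar S hS)
  refine mul_le_mul_left ?_ _
  apply ENNReal.ofReal_le_ofReal
  have hsq : Real.sqrt (D ^ (m + 1) * s) = (Real.sqrt D) ^ (m + 1) * Real.sqrt s := by
    rw [Real.sqrt_mul (by positivity)]
    congr 1
    rw [Real.sqrt_eq_iff_mul_self_eq (by positivity) (by positivity), ← mul_pow,
      Real.mul_self_sqrt (by linarith)]
  rw [hsq, div_pow, div_div]
  apply div_le_div_of_nonneg_right _ (by positivity)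
  calc c' ^ (m + 1) ≤ c' ^ 1 := pow_le_pow_of_le_one hc'0.le (min_le_right _ _) (by omega)
    _ = c' := pow_one _
    _ ≤ c := min_le_left _ _

end Pool.Agent.Lib.MP_6d896a_gt.EX
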