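import Mathlib
import Pool.Agent.Lib.MP_6d896a_gt.Sym12
import Pool.Agent.Lib.MP_6d896a_gt.FP.PostPL

/-!
The Gaussian smoothing of a symmetric log-concave measure with bounded support has a symmetric
convex potential, hence satisfies the Poincare inequality.
-/

namespace Pool.Agent.Lib.MP_6d896a_gt

open MeasureTheory ProbabilityTheory Filter Topology Metric
open scoped ENNReal NNReal

variable {n : ℕ}

lemma sperm_sub (σ : Equiv.Perm (Fin n)) (ε : Fin n → ℝ) (x y : EuclideanSpace ℝ (Fin n)) :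
    sperm σ ε x - sperm σ ε y = sperm σ ε (x - y) := by
  ext k
  simp [sperm]
  ring

lemma sperm_norm (σ : Equiv.Perm (Fin n)) {ε : Fin n → ℝ} (hε : IsSign ε)
    (x : EuclideanSpace ℝ (Fin n)) : ‖sperm σ ε x‖ = ‖x‖ := by
  have h : ‖sperm σ ε x‖ ^ 2 = ‖x‖ ^ 2 := by
    rw [EuclideanSpace.norm_sq_eq, EuclideanSpace.norm_sq_eq]
    have : ∀ k, ‖sperm σ ε x k‖ ^ 2 = ‖x (σ k)‖ ^ 2 := by
      intro k
      show ‖ε k * x (σ k)‖ ^ 2 = ‖x (σ k)‖ ^ 2
      rcases hε k with h1 | h1 <;> simp [h1]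
    simp only [this]
    exact Equiv.sum_comp σ (fun k => ‖x k‖ ^ 2)
  have h1 := norm_nonneg (sperm σ ε x)
  have h2 := norm_nonneg x
  exact (sq_eq_sq₀ h1 h2).mp h

lemma sperm_continuous (σ : Equiv.Perm (Fin n)) (ε : Fin n → ℝ) :
    Continuous (sperm σ ε : EuclideanSpace ℝ (Fin n) → _) := by
  unfold sperm
  apply (PiLp.continuous_toLp 2 (fun _ : Fin n => ℝ)).comp
  apply continuous_pi
  intro k
  exact continuous_const.mul (by fun_prop)

/-- symmetric measures -/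
def SymM (m : Measure (EuclideanSpace ℝ (Fin n))) : Prop :=
  ∀ (σ : Equiv.Perm (Fin n)) (ε : Fin n → ℝ), IsSign ε → m.map (sperm σ ε) = m

variable {m : Measure (EuclideanSpace ℝ (Fin n))} [IsFiniteMeasure m] {d R s : ℝ}

omit [IsFiniteMeasure m] in
lemma fG_symm (hm : SymM m) (σ : Equiv.Perm (Fin n)) {ε : Fin n → ℝ} (hε : IsSign ε)
    (x : EuclideanSpace ℝ (Fin n)) : FP.fG m d (sperm σ ε x) = FP.fG m d x := by
  unfold FP.fG
  have hc := sperm_continuous σ ε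
  have hk : Continuous (fun z : EuclideanSpace ℝ (Fin n) => gk d (sperm σ ε x - z)) :=
    (gk_continuous d).comp (continuous_const.sub continuous_id)
  conv_lhs => rw [← hm σ ε hε]
  rw [integral_map hc.measurable.aemeasurable hk.aestronglyMeasurable]
  congr 1
  funext z
  unfold gk
  rw [sperm_sub, sperm_norm σ hε]

lemma Vp_symm (hm : SymM m) (hd : 0 < d) (hm0 : m ≠ 0) (hR : ∀ᵐ z ∂m, ‖z‖ ≤ R) (hs : 0 < s)
    (σ : Equiv.Perm (Fin n)) {ε : Fin n → ℝ} (hε : IsSign ε) (x : EuclideanSpace ℝ (Fin n)) :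
    FP.Vp m d s 0 (sperm σ ε x) = FP.Vp m d s 0 x := by
  have h1 := FP.exp_neg_Vp hd hm0 hR hs 0 (sperm σ ε x)
  have h2 := FP.exp_neg_Vp hd hm0 hR hs 0 x
  rw [fG_symm hm σ hε] at h1
  have h3 : gk s (sperm σ ε x - 0) = gk s (x - 0) := by
    unfold gk
    rw [sub_zero, sub_zero, sperm_norm σ hε]
  rw [h3, ← h2] at h1
  have := Real.exp_injective h1
  linarith

lemma Vp_neg (hm : SymM m) (hd : 0 < d) (hm0 : m ≠ 0) (hR : ∀ᵐ z ∂m, ‖z‖ ≤ R) (hs : 0 < s)
    (x : EuclideanSpace ℝ (Fin n)) : FP.Vp m d s 0 (-x) = FP.Vp m d s 0 x := by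
  have := Vp_symm hm hd hm0 hR hs (Equiv.refl _) (ε := fun _ => -1) (fun k => Or.inr rfl) x
  rw [← this]
  congr 1
  ext k
  simp [sperm]

lemma Pp_zero (hm : SymM m) (hd : 0 < d) (hm0 : m ≠ 0) (hR : ∀ᵐ z ∂m, ‖z‖ ≤ R) (hs : 0 < s) :
    FP.Pp m d s 0 0 = 0 := by
  have h1 := FP.Vp_hasFDerivAt hd hm0 hR s 0 0
  have h2 : HasFDerivAt (fun x : EuclideanSpace ℝ (Fin n) => -x)
      (-ContinuousLinearMap.id ℝ (EuclideanSpace ℝ (Fin n))) 0 := (hasFDerivAt_id 0).neg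
  have h1' : HasFDerivAt (FP.Vp m d s 0) (FP.Pp m d s 0 0)
      ((fun x : EuclideanSpace ℝ (Fin n) => -x) 0) := by simpa using h1
  have h3 := h1'.comp 0 h2
  have h4 : (FP.Vp m d s 0 ∘ fun x => -x) = FP.Vp m d s 0 := by
    funext x
    exact Vp_neg hm hd hm0 hR hs x
  rw [h4] at h3
  have h5 := h1.unique h3
  ext v
  have h6 := congrArg (fun L : EuclideanSpace ℝ (Fin n) →L[ℝ] ℝ => L v) h5
  simp only [ContinuousLinearMap.comp_apply, _root_.neg_apply, ContinuousLinearMap.id_apply,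
    map_neg] at h6
  simp only [_root_.zero_apply]
  linarith

/-- the structure of a symmetric convex potential -/
theorem Vp_SP (hm : SymM m) (hd : 0 < d) (hm0 : m ≠ 0) (hR : ∀ᵐ z ∂m, ‖z‖ ≤ R) (hs : 0 < s)
    (hpl : FP.PLm m) (hR0 : 0 ≤ R) :
    SP (FP.Vp m d s 0) (2 * s) (2 * s + (2 * d + 2 * ((2 * d * R) * (2 * d * R)))) := by
  have hV := FP.Vp_hasFDerivAt hd hm0 hR s 0
  have hP := FP.Pp_hasFDerivAt hd hm0 hR s 0
  have hfd : fderiv ℝ (FP.Vp m d s 0) = FP.Pp m d s 0 := funext fun x => (hV x).fderiv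
  refine ⟨by positivity, ?_, ?_, ?_, ?_, ?_⟩
  · rw [contDiff_one_iff_fderiv]
    refine ⟨fun x => (hV x).differentiableAt, ?_⟩
    rw [hfd]
    exact continuous_iff_continuousAt.mpr fun x => (hP x).continuousAt
  · rw [convexOn_iff_forall_pos]
    refine ⟨convex_univ, fun x _ y _ a b ha hb hab => ?_⟩
    have ea : a = 1 - b := by linarith
    subst ea
    have h1 := FP.Wp_convex hd hm0 hR hpl x y hb (by linarith)
    have h2 := FP.norm_sq_convex x y hb.le (by linarith)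
    unfold FP.Vp
    simp only [sub_zero, smul_eq_mul]
    have h3 := mul_le_mul_of_nonneg_left h2 hs.le
    nlinarith
  · intro σ ε hε x
    exact Vp_symm hm hd hm0 hR hs σ hε x
  · intro x
    have := FP.lower_of hV (FP.Pp_mono hd hm0 hR hpl s 0) x
    rw [Pp_zero hm hd hm0 hR hs, _root_.zero_apply, add_zero] at this
    exact this
  · intro x
    rw [hfd]
    have h1 := convex_univ.norm_image_sub_le_of_norm_hasFDerivWithin_le
      (fun w _ => (hP w).hasFDerivWithinAt) (fun w _ => FP.Qp_bound hd hm0 hR hs w)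
      (Set.mem_univ (0 : EuclideanSpace ℝ (Fin n))) (Set.mem_univ x)
    rw [Pp_zero hm hd hm0 hR hs, sub_zero, sub_zero] at h1
    refine h1.trans (mul_le_mul_of_nonneg_left (by linarith) ?_)
    positivity

lemma grd_refl (hm : SymM m) (hd : 0 < d) (hm0 : m ≠ 0) (hR : ∀ᵐ z ∂m, ‖z‖ ≤ R) (hs : 0 < s)
    (i : Fin n) (x : EuclideanSpace ℝ (Fin n)) :
    FP.grd (FP.Pp m d s 0) (Rf i x) = Rf i (FP.grd (FP.Pp m d s 0) x) := by
  have hV := FP.Vp_hasFDerivAt hd hm0 hR s 0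
  have hVR : ∀ x, FP.Vp m d s 0 (Rf i x) = FP.Vp m d s 0 x := by
    intro x
    rw [Rf_eq_sperm]
    exact Vp_symm hm hd hm0 hR hs _ (fun k => by by_cases hk : k = i <;> simp [hk]) x
  have h1 := (hV (Rf i x)).comp x (Rf i).toContinuousLinearEquiv.hasFDerivAt
  have h2 : (FP.Vp m d s 0 ∘ (Rf i)) = FP.Vp m d s 0 := by
    funext x
    exact hVR x
  rw [h2] at h1
  have h3 := (hV x).unique h1
  apply ext_inner_right ℝ
  intro v
  rw [FP.grd_inner]
  have h4 := congrArg (fun L : EuclideanSpace ℝ (Fin n) →L[ℝ] ℝ => L (Rf i v)) h3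
  simp only [ContinuousLinearMap.comp_apply, ContinuousLinearEquiv.coe_coe,
    LinearIsometryEquiv.coe_toContinuousLinearEquiv, Rf_Rf] at h4
  rw [← h4, ← FP.grd_inner]
  have h5 := (Rf i).inner_map_map (FP.grd (FP.Pp m d s 0) x) (Rf i v)
  rw [Rf_Rf] at h5
  exact h5.symm

lemma grd_fderiv_lip (hd : 0 < d) (hm0 : m ≠ 0) (hR : ∀ᵐ z ∂m, ‖z‖ ≤ R) (hs : 0 < s)
    (hpl : FP.PLm m) (hR0 : 0 ≤ R) (x y : EuclideanSpace ℝ (Fin n)) :
    ‖fderiv ℝ (FP.grd (FP.Pp m d s 0)) x - fderiv ℝ (FP.grd (FP.Pp m d s 0)) y‖ ≤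
      (6 * ((2 * d * R) * ((2 * d * R) * (2 * d * R)))) * ‖x - y‖ := by
  have hP := FP.Pp_hasFDerivAt hd hm0 hR s 0
  have hpot := FP.Vp_pot hd hm0 hR0 hR hpl hs (0 : EuclideanSpace ℝ (Fin n))
  have hlip := FP.Qp_lip hd hm0 hR s x y
  have hcd := hpot.cD.differentiable (by simp)
  -- derivative of the gradient tested against a vector
  have hg : ∀ x v w, inner ℝ (fderiv ℝ (FP.grd (FP.Pp m d s 0)) x v) w =
      FP.Qp m d s x v w := by
    intro x v w
    have h1 : HasFDerivAt (fun x => inner ℝ (FP.grd (FP.Pp m d s 0) x) w) _ x :=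
      (hcd.differentiableAt (x := x)).hasFDerivAt.inner ℝ (hasFDerivAt_const w x)
    have h2 : HasFDerivAt (fun x => inner ℝ (FP.grd (FP.Pp m d s 0) x) w)
        ((FP.Qp m d s x).flip w) x := by
      have h3 := (hP x).clm_apply (hasFDerivAt_const w x)
      simp only [FP.grd_inner]
      refine h3.congr_fderiv ?_
      ext v
      simp
    have h4 := h1.unique h2
    have h5 := congrArg (fun L : EuclideanSpace ℝ (Fin n) →L[ℝ] ℝ => L v) h4
    simpa using h5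
  apply ContinuousLinearMap.opNorm_le_bound _ (by positivity)
  intro v
  set w := (fderiv ℝ (FP.grd (FP.Pp m d s 0)) x - fderiv ℝ (FP.grd (FP.Pp m d s 0)) y) v with hw
  have h1 : ‖w‖ ^ 2 ≤ ((6 * ((2 * d * R) * ((2 * d * R) * (2 * d * R)))) * ‖x - y‖ * ‖v‖) * ‖w‖ := by
    rw [← real_inner_self_eq_norm_sq]
    have h2 : inner ℝ w w = (FP.Qp m d s x - FP.Qp m d s y) v w := by
      conv_lhs => rw [hw]
      rw [_root_.sub_apply, inner_sub_left, hg, hg]
      rfl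
    rw [h2]
    have h3 : ‖(FP.Qp m d s x - FP.Qp m d s y) v w‖ ≤ ‖FP.Qp m d s x - FP.Qp m d s y‖ * ‖v‖ * ‖w‖ :=
      ContinuousLinearMap.le_opNorm₂ _ _ _
    rw [Real.norm_eq_abs] at h3
    refine (le_abs_self _).trans (h3.trans ?_)
    gcongr
  rcases (norm_nonneg w).eq_or_lt with h0 | h0
  · rw [← h0]; positivity
  · rw [sq] at h1
    exact le_of_mul_le_mul_right h1 h0

/-- the Poincare inequality for the smoothing of a symmetric measure -/
theorem smooth_poincare (hm : SymM m) (hd : 0 < d) (hm0 : m ≠ 0) (hR : ∀ᵐ z ∂m, ‖z‖ ≤ R)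
    (hs : 0 < s) (hpl : FP.PLm m) (hR0 : 0 ≤ R) {S : ℝ} (hS : 0 < S)
    (hvar : ∀ j, ∫ y, y j ^ 2 ∂(tgt (FP.Vp m d s 0)) ≤ S * (tgt (FP.Vp m d s 0)).real Set.univ)
    {f : EuclideanSpace ℝ (Fin n) → ℝ} {b l L : ℝ} (hf : CL f b l L) :
    WV (FP.Vp m d s 0) f ≤ (tgt (FP.Vp m d s 0)).real Set.univ * (11 * 10 ^ 7 * Real.exp 8 * S) *
      ∫ x, ‖fderiv ℝ f x‖ ^ 2 ∂(tgt (FP.Vp m d s 0)) := by
  have hpot := FP.Vp_pot hd hm0 hR0 hR hpl hs (0 : EuclideanSpace ℝ (Fin n))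
  have hSP := Vp_SP hm hd hm0 hR hs hpl hR0
  have hVR : ∀ (i : Fin n) x, FP.Vp m d s 0 (Rf i x) = FP.Vp m d s 0 x := by
    intro i x
    rw [Rf_eq_sperm]
    exact Vp_symm hm hd hm0 hR hs _ (fun k => by by_cases hk : k = i <;> simp [hk]) x
  apply full_poincare hpot (by positivity) (grd_fderiv_lip hd hm0 hR hs hpl hR0)
    (grd_refl hm hd hm0 hR hs) hVR (by positivity) _ hf
  intro i u U L hu hodd
  have hmass : (tgt (FP.Vp m d s 0)).real Set.univ = ∫ y, Real.exp (-FP.Vp m d s 0 y) := by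
    have h1 : (tgt (FP.Vp m d s 0)).real Set.univ = ∫ _y, (1 : ℝ) ∂(tgt (FP.Vp m d s 0)) := by
      simp
    rw [h1, integral_tgt hpot.cV]
    simp
  have := hSP.odd_var hS (fun j => by
    have h1 := hvar j
    rw [integral_tgt hpot.cV, hmass] at h1
    exact h1) hu i hodd
  rw [integral_tgt hpot.cV, integral_tgt hpot.cV]
  exact this

end Pool.Agent.Lib.MP_6d896a_gt
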