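import Mathlib
import Pool.Agent.Lib.MP_6d896a_gt.Sym13
import Pool.Agent.Lib.MP_6d896a_gt.FP.ApCheeger
import Pool.Agent.Lib.MP_6d896a_gt.FP.PoincExt

/-!
The Poincare inequality and the isoperimetric inequality for symmetric log-concave probability
measures.
-/

namespace Pool.Agent.Lib.MP_6d896a_gt

open MeasureTheory ProbabilityTheory Filter Topology Metric
open scoped ENNReal NNReal

variable {n : ℕ}

lemma SymM.restrict_ball {ν : Measure (EuclideanSpace ℝ (Fin n))} (hν : SymM ν) (r : ℝ) :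
    SymM (ν.restrict (closedBall 0 r)) := by
  intro σ ε hε
  have hc := (sperm_continuous σ ε).measurable
  have hpre : sperm σ ε ⁻¹' (closedBall 0 r) = closedBall (0 : EuclideanSpace ℝ (Fin n)) r := by
    ext x
    simp only [Set.mem_preimage, mem_closedBall_zero_iff]
    rw [sperm_norm σ hε]
  have h1 := Measure.restrict_map (μ := ν) hc (s := closedBall 0 r)
    (isClosed_closedBall.measurableSet)
  rw [hν σ ε hε, hpre] at h1
  exact h1.symm

/-- the Poincare inequality for smooth functions -/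
theorem sym_poincare_CL (ν : Measure (EuclideanSpace ℝ (Fin n))) [IsProbabilityMeasure ν]
    (hpl : FP.PLm ν) (hsym : SymM ν) (h2 : Integrable (fun x => ‖x‖ ^ 2) ν) {S : ℝ} (hS : 0 < S)
    (hvar : ∀ j, ∫ y, y j ^ 2 ∂ν ≤ S)
    {f : EuclideanSpace ℝ (Fin n) → ℝ} {b l L : ℝ} (hf : CL f b l L) :
    ∫ x, f x ^ 2 ∂ν - (∫ x, f x ∂ν) ^ 2 ≤
      (11 * 10 ^ 7 * Real.exp 8 * S) * ∫ x, ‖fderiv ℝ f x‖ ^ 2 ∂ν := by
  set t : ℕ → ℝ := fun k => 1 / ((k : ℝ) + 1) with ht
  have ht0 : ∀ k, 0 < t k := fun k => by rw [ht]; positivity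
  have htlim : Tendsto t atTop (𝓝 0) := tendsto_one_div_add_atTop_nhds_zero_nat
  set m : ℕ → Measure (EuclideanSpace ℝ (Fin n)) := fun k => ν.restrict (closedBall 0 (k : ℝ))
    with hm
  set g2 : ℝ := ∫ z, ‖z‖ ^ 2 ∂(stdGaussian (EuclideanSpace ℝ (Fin n))) with hg2
  have hg20 : 0 ≤ g2 := integral_nonneg fun z => by positivity
  have hgi := gauss_pow (n := n) 2
  set J : ℕ → (EuclideanSpace ℝ (Fin n) → ℝ) → ℝ := fun k F =>
    ∫ x, F x * Real.exp (-(t k) * ‖x‖ ^ 2) ∂(FP.cv (m k) (t k)) with hJ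
  -- limits
  have hlimJ : ∀ (F : EuclideanSpace ℝ (Fin n) → ℝ), Continuous F → ∀ B, (∀ x, |F x| ≤ B) →
      Tendsto (fun k => J k F) atTop (𝓝 (∫ x, F x ∂ν)) := by
    intro F hF B hB
    apply FP.cv_tendsto ν (C := B) (H := fun k x => F x * Real.exp (-(t k) * ‖x‖ ^ 2))
    · intro k
      exact (hF.mul (by fun_prop)).measurable
    · intro k x
      rw [abs_mul, abs_of_pos (Real.exp_pos _)]
      have h1 : Real.exp (-(t k) * ‖x‖ ^ 2) ≤ 1 := by
        apply Real.exp_le_one_iff.mpr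
        have := mul_nonneg (ht0 k).le (sq_nonneg ‖x‖)
        linarith
      calc |F x| * Real.exp (-(t k) * ‖x‖ ^ 2) ≤ |F x| * 1 :=
            mul_le_mul_of_nonneg_left h1 (abs_nonneg _)
        _ ≤ B := by rw [mul_one]; exact hB x
    · intro p
      have l1 : Tendsto (fun k => p.1 + t k • p.2) atTop (𝓝 (p.1 + (0 : ℝ) • p.2)) :=
        (htlim.smul_const p.2).const_add p.1
      rw [zero_smul, add_zero] at l1
      have l2 : Tendsto (fun k => F (p.1 + t k • p.2)) atTop (𝓝 (F p.1)) :=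
        (hF.tendsto p.1).comp l1
      have l3 : Tendsto (fun k => Real.exp (-(t k) * ‖p.1 + t k • p.2‖ ^ 2)) atTop
          (𝓝 (Real.exp (-0 * ‖p.1‖ ^ 2))) :=
        (Real.continuous_exp.tendsto _).comp ((htlim.neg).mul ((l1.norm).pow 2))
      have l4 := l2.mul l3
      simpa using l4
  have hJ1 : Tendsto (fun k => J k (fun _ => 1)) atTop (𝓝 1) := by
    have := hlimJ (fun _ => 1) continuous_const 1 (by simp)
    simpa using this
  have hfc := hf.cd.continuous
  have hJf : Tendsto (fun k => J k f) atTop (𝓝 (∫ x, f x ∂ν)) := hlimJ f hfc b hf.bd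
  have hJf2 : Tendsto (fun k => J k (fun x => f x ^ 2)) atTop (𝓝 (∫ x, f x ^ 2 ∂ν)) :=
    hlimJ _ (hfc.pow 2) (b ^ 2) (fun x => by
      rw [abs_pow]; exact pow_le_pow_left₀ (abs_nonneg _) (hf.bd x) 2)
  have hJd : Tendsto (fun k => J k (fun x => ‖fderiv ℝ f x‖ ^ 2)) atTop
      (𝓝 (∫ x, ‖fderiv ℝ f x‖ ^ 2 ∂ν)) :=
    hlimJ _ (hf.fdc.norm.pow 2) (l ^ 2) (fun x => by
      rw [abs_of_nonneg (by positivity)]
      exact pow_le_pow_left₀ (norm_nonneg _) (hf.gd x) 2)
  -- second moments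
  set Bk : ℕ → ℝ := fun k => (1 + t k) * S + (t k ^ 2 + t k) * g2 with hBk
  have hBlim : Tendsto Bk atTop (𝓝 S) := by
    have : Tendsto Bk atTop (𝓝 ((1 + 0) * S + (0 ^ 2 + 0) * g2)) :=
      ((htlim.const_add 1).mul_const S).add (((htlim.pow 2).add htlim).mul_const g2)
    simpa using this
  have hxk : ∀ (x : EuclideanSpace ℝ (Fin n)) (k : Fin n), |x k| ≤ ‖x‖ := by
    intro x k
    have := PiLp.norm_apply_le x k
    rwa [Real.norm_eq_abs] at this
  have hmom : ∀ k (j : Fin n), J k (fun y => y j ^ 2) ≤ Bk k := by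
    intro k j
    have htk := ht0 k
    have hS : Measurable (fun p : EuclideanSpace ℝ (Fin n) × EuclideanSpace ℝ (Fin n) =>
      p.1 + t k • p.2) := by fun_prop
    have hFc : Continuous (fun y : EuclideanSpace ℝ (Fin n) =>
      y j ^ 2 * Real.exp (-(t k) * ‖y‖ ^ 2)) := by fun_prop
    have e1 : J k (fun y => y j ^ 2) = ∫ p, ((p.1 + t k • p.2) j ^ 2 *
        Real.exp (-(t k) * ‖p.1 + t k • p.2‖ ^ 2))
        ∂((m k).prod (stdGaussian (EuclideanSpace ℝ (Fin n)))) := by
      rw [hJ]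
      simp only []
      unfold FP.cv
      rw [integral_map hS.aemeasurable hFc.aestronglyMeasurable]
    rw [e1]
    have hj2 : Integrable (fun y : EuclideanSpace ℝ (Fin n) => y j ^ 2) (m k) := by
      refine (h2.restrict (s := closedBall 0 (k : ℝ))).mono' (by fun_prop) (ae_of_all _ fun y => ?_)
      rw [Real.norm_eq_abs, abs_of_nonneg (sq_nonneg _), ← sq_abs]
      exact pow_le_pow_left₀ (abs_nonneg _) (hxk y j) 2
    have i1 : Integrable (fun p : EuclideanSpace ℝ (Fin n) × EuclideanSpace ℝ (Fin n) =>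
        (1 + t k) * p.1 j ^ 2) ((m k).prod (stdGaussian (EuclideanSpace ℝ (Fin n)))) :=
      (hj2.comp_fst _).const_mul _
    have i2 : Integrable (fun p : EuclideanSpace ℝ (Fin n) × EuclideanSpace ℝ (Fin n) =>
        (t k ^ 2 + t k) * ‖p.2‖ ^ 2) ((m k).prod (stdGaussian (EuclideanSpace ℝ (Fin n)))) :=
      (hgi.comp_snd _).const_mul _
    have hpt : ∀ p : EuclideanSpace ℝ (Fin n) × EuclideanSpace ℝ (Fin n),
        0 ≤ (p.1 + t k • p.2) j ^ 2 * Real.exp (-(t k) * ‖p.1 + t k • p.2‖ ^ 2) ∧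
        (p.1 + t k • p.2) j ^ 2 * Real.exp (-(t k) * ‖p.1 + t k • p.2‖ ^ 2) ≤
        (1 + t k) * p.1 j ^ 2 + (t k ^ 2 + t k) * ‖p.2‖ ^ 2 := by
      intro p
      refine ⟨by positivity, ?_⟩
      have h3 : Real.exp (-(t k) * ‖p.1 + t k • p.2‖ ^ 2) ≤ 1 := by
        apply Real.exp_le_one_iff.mpr
        have := mul_nonneg htk.le (sq_nonneg ‖p.1 + t k • p.2‖)
        linarith
      have h4 : (p.1 + t k • p.2) j ^ 2 ≤ (1 + t k) * p.1 j ^ 2 + (t k ^ 2 + t k) * p.2 j ^ 2 := by
        rw [PiLp.add_apply, PiLp.smul_apply, smul_eq_mul]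
        nlinarith [mul_nonneg htk.le (sq_nonneg (p.1 j - p.2 j))]
      have h5 : p.2 j ^ 2 ≤ ‖p.2‖ ^ 2 := by
        rw [← sq_abs]
        exact pow_le_pow_left₀ (abs_nonneg _) (hxk _ j) 2
      have h6 : (t k ^ 2 + t k) * p.2 j ^ 2 ≤ (t k ^ 2 + t k) * ‖p.2‖ ^ 2 :=
        mul_le_mul_of_nonneg_left h5 (by positivity)
      calc _ ≤ (p.1 + t k • p.2) j ^ 2 * 1 := mul_le_mul_of_nonneg_left h3 (sq_nonneg _)
        _ ≤ _ := by linarith
    have h3 : ∫ p, ((p.1 + t k • p.2) j ^ 2 *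
        Real.exp (-(t k) * ‖p.1 + t k • p.2‖ ^ 2))
        ∂((m k).prod (stdGaussian (EuclideanSpace ℝ (Fin n)))) ≤
        ∫ p, ((1 + t k) * p.1 j ^ 2 + (t k ^ 2 + t k) * ‖p.2‖ ^ 2)
        ∂((m k).prod (stdGaussian (EuclideanSpace ℝ (Fin n)))) := by
      apply integral_mono_of_nonneg (ae_of_all _ fun p => (hpt p).1) (i1.add i2)
      exact ae_of_all _ fun p => (hpt p).2
    refine h3.trans ?_
    rw [integral_add i1 i2, integral_const_mul, integral_const_mul,
      integral_fun_fst (f := fun y : EuclideanSpace ℝ (Fin n) => y j ^ 2),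
      integral_fun_snd (f := fun y : EuclideanSpace ℝ (Fin n) => ‖y‖ ^ 2)]
    have h4 : ∫ y, y j ^ 2 ∂(m k) ≤ S := by
      refine le_trans ?_ (hvar j)
      have hj3 : Integrable (fun y : EuclideanSpace ℝ (Fin n) => y j ^ 2) ν := by
        refine h2.mono' (by fun_prop) (ae_of_all _ fun y => ?_)
        rw [Real.norm_eq_abs, abs_of_nonneg (sq_nonneg _), ← sq_abs]
        exact pow_le_pow_left₀ (abs_nonneg _) (hxk y j) 2
      exact setIntegral_le_integral hj3 (ae_of_all _ fun y => sq_nonneg _)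
    have h5 : (m k).real Set.univ ≤ 1 := by
      rw [hm, measureReal_restrict_apply MeasurableSet.univ]
      exact measureReal_le_one
    rw [probReal_univ, one_smul, smul_eq_mul]
    have h6 := mul_le_mul_of_nonneg_left h4 (by positivity : 0 ≤ 1 + t k)
    have h7 : (m k).real Set.univ * g2 ≤ g2 := mul_le_of_le_one_left hg20 h5
    have h8 := mul_le_mul_of_nonneg_left h7 (by positivity : 0 ≤ t k ^ 2 + t k)
    rw [hBk]
    exact add_le_add h6 h8
  -- the inequality for each `k`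
  have hev : ∀ᶠ k in atTop, J k (fun _ => 1) * J k (fun x => f x ^ 2) - J k f ^ 2 ≤
      J k (fun _ => 1) * (11 * 10 ^ 7 * Real.exp 8 * (Bk k / J k (fun _ => 1))) *
        J k (fun x => ‖fderiv ℝ f x‖ ^ 2) := by
    filter_upwards [hJ1.eventually (lt_mem_nhds (by norm_num : (1 / 2 : ℝ) < 1))] with k hk
    have htk := ht0 k
    have hJpos : 0 < J k (fun _ => 1) := by linarith
    have hmk : m k ≠ 0 := by
      intro h0
      have : J k (fun _ => 1) = 0 := by
        rw [hJ]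
        simp only []
        rw [h0]
        unfold FP.cv
        simp
      linarith
    have : IsFiniteMeasure (m k) := by rw [hm]; infer_instance
    have hR : ∀ᵐ z ∂(m k), ‖z‖ ≤ (k : ℝ) := by
      rw [hm]
      filter_upwards [ae_restrict_mem (isClosed_closedBall (x := (0 : EuclideanSpace ℝ (Fin n)))
        (ε := (k : ℝ))).measurableSet] with z hz
      rwa [mem_closedBall_zero_iff] at hz
    have hdt : 1 / (2 * t k ^ 2) = 1 / (2 * t k ^ 2) := rfl
    set d := 1 / (2 * t k ^ 2) with hd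
    have hd0 : 0 < d := by positivity
    have hplk : FP.PLm (m k) := hpl.restrict_ball k
    have hsymk : SymM (m k) := hsym.restrict_ball k
    have hpot := FP.Vp_pot hd0 hmk (Nat.cast_nonneg k) hR hplk htk
      (0 : EuclideanSpace ℝ (Fin n))
    set V := FP.Vp (m k) d (t k) 0 with hV
    set c := (gZ (EuclideanSpace ℝ (Fin n)) (t k))⁻¹ with hc
    have hc0 : 0 < c := inv_pos.mpr (gZ_pos htk)
    have hint : ∀ F : EuclideanSpace ℝ (Fin n) → ℝ, ∫ x, F x ∂(tgt V) = c * J k F := by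
      intro F
      rw [integral_tgt hpot.cV, hJ]
      simp only []
      rw [FP.cv_integral htk hdt, ← integral_const_mul]
      congr 1
      funext x
      rw [hV, FP.exp_neg_Vp hd0 hmk hR htk 0 x, sub_zero]
      unfold gk
      ring
    have hmass : (tgt V).real Set.univ = c * J k (fun _ => 1) := by
      have h1 : (tgt V).real Set.univ = ∫ _y, (1 : ℝ) ∂(tgt V) := by simp
      rw [h1, hint]
    have hSk : 0 < Bk k / J k (fun _ => 1) := by
      apply div_pos _ hJpos
      rw [hBk]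
      positivity
    have key := smooth_poincare hsymk hd0 hmk hR htk hplk (Nat.cast_nonneg k) hSk
      (fun j => by
        rw [hint, hmass]
        have h1 := hmom k j
        have h2 : Bk k / J k (fun _ => 1) * (c * J k (fun _ => 1)) = c * Bk k := by
          field_simp
        rw [h2]
        exact mul_le_mul_of_nonneg_left h1 hc0.le) hf
    unfold WV at key
    rw [hmass, hint, hint, hint] at key
    have e3 : c * J k (fun _ => 1) * (c * J k (fun x => f x ^ 2)) - (c * J k f) ^ 2 =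
        c ^ 2 * (J k (fun _ => 1) * J k (fun x => f x ^ 2) - J k f ^ 2) := by ring
    have e4 : c * J k (fun _ => 1) * (11 * 10 ^ 7 * Real.exp 8 * (Bk k / J k (fun _ => 1))) *
        (c * J k (fun x => ‖fderiv ℝ f x‖ ^ 2)) = c ^ 2 * (J k (fun _ => 1) *
        (11 * 10 ^ 7 * Real.exp 8 * (Bk k / J k (fun _ => 1))) *
        J k (fun x => ‖fderiv ℝ f x‖ ^ 2)) := by ring
    have key2 : c ^ 2 * (J k (fun _ => 1) * J k (fun x => f x ^ 2) - J k f ^ 2) ≤
        c ^ 2 * (J k (fun _ => 1) *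
        (11 * 10 ^ 7 * Real.exp 8 * (Bk k / J k (fun _ => 1))) *
        J k (fun x => ‖fderiv ℝ f x‖ ^ 2)) := by
      rw [← e3, ← e4]; exact key
    exact le_of_mul_le_mul_left key2 (by positivity)
  -- limit
  have hl1 := (hJ1.mul hJf2).sub (hJf.pow 2)
  have hl2 := (hJ1.mul ((hBlim.div hJ1 one_ne_zero).const_mul (11 * 10 ^ 7 * Real.exp 8))).mul hJd
  have := le_of_tendsto_of_tendsto hl1 hl2 hev
  simpa using this

end Pool.Agent.Lib.MP_6d896a_gt
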