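import Mathlib

/-!
Discrete part: the adjacent transposition chain with inhomogeneous rates on the
linear extensions of a relation.  States are permutations `π` (label to site) such that
`r a b` implies `π a < π b`.
-/

namespace Pool.Agent.Lib.MP_6d896a_gt

open Finset

variable {M : ℕ}

/-- swap of the sites `e` and `e+1` -/
def adj (e : Fin M) : Equiv.Perm (Fin (M + 1)) := Equiv.swap e.castSucc e.succ

/-- label to site maps compatible with `r` -/
def Valid (r : Fin (M + 1) → Fin (M + 1) → Prop) (π : Equiv.Perm (Fin (M + 1))) : Prop :=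
  ∀ a b, r a b → π a < π b

/-- weight of an interval of sites -/
def wgt (v : ℕ → ℝ) (p q : ℕ) : ℝ := ∑ j ∈ Ico p q, v j

lemma adj_adj (e : Fin M) (π : Equiv.Perm (Fin (M + 1))) : adj e * (adj e * π) = π := by
  unfold adj
  rw [← mul_assoc, Equiv.swap_mul_self, one_mul]

lemma adj_apply_lt (e : Fin M) {x y : Fin (M + 1)} (h : x < y)
    (hne : ¬ (x = e.castSucc ∧ y = e.succ)) : adj e x < adj e y := by
  unfold adj
  have hc : (e.castSucc : ℕ) = e := rfl
  have hs : (e.succ : ℕ) = e + 1 := rfl
  have hlt : (x : ℕ) < y := h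
  have hne' : ¬ ((x : ℕ) = e ∧ (y : ℕ) = e + 1) := by
    rintro ⟨h1, h2⟩
    exact hne ⟨Fin.ext h1, Fin.ext h2⟩
  rw [Fin.lt_def]
  rcases eq_or_ne x e.castSucc with h1 | h1
  · subst h1
    rw [Equiv.swap_apply_left]
    rcases eq_or_ne y e.succ with h2 | h2
    · exact absurd ⟨rfl, h2⟩ hne
    · rw [Equiv.swap_apply_of_ne_of_ne (ne_of_gt h) h2, hs]
      simp only [hc] at hlt hne'
      omega
  · rcases eq_or_ne x e.succ with h2 | h2
    · subst h2
      rw [Equiv.swap_apply_right]
      rw [Equiv.swap_apply_of_ne_of_ne ?_ (ne_of_gt h), hc]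
      · rw [hs] at hlt
        omega
      · intro h3
        rw [h3, hs, hc] at hlt
        omega
    · rw [Equiv.swap_apply_of_ne_of_ne h1 h2]
      have h1' : (x : ℕ) ≠ e := fun h => h1 (Fin.ext h)
      have h2' : (x : ℕ) ≠ e + 1 := fun h => h2 (Fin.ext h)
      rcases eq_or_ne y e.castSucc with h3 | h3
      · subst h3
        rw [Equiv.swap_apply_left, hs]
        rw [hc] at hlt
        omega
      · rcases eq_or_ne y e.succ with h4 | h4
        · subst h4
          rw [Equiv.swap_apply_right, hc]
          rw [hs] at hlt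
          omega
        · rw [Equiv.swap_apply_of_ne_of_ne h3 h4]
          exact hlt

lemma valid_adj {r : Fin (M + 1) → Fin (M + 1) → Prop} {π : Equiv.Perm (Fin (M + 1))}
    (hπ : Valid r π) (e : Fin M) :
    Valid r (adj e * π) ↔ ¬ r (π.symm e.castSucc) (π.symm e.succ) := by
  constructor
  · intro h hr
    have := h _ _ hr
    simp only [adj, Equiv.Perm.mul_apply, Equiv.apply_symm_apply, Equiv.swap_apply_left,
      Equiv.swap_apply_right] at this
    rw [Fin.lt_def] at this
    simp at this
  · intro h a b hab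
    rw [Equiv.Perm.mul_apply, Equiv.Perm.mul_apply]
    apply adj_apply_lt e (hπ a b hab)
    rintro ⟨h1, h2⟩
    apply h
    rw [← h1, ← h2, Equiv.symm_apply_apply, Equiv.symm_apply_apply]
    exact hab

lemma adj_mul_swap (e : Fin M) (p q : Fin (M + 1)) :
    adj e * Equiv.swap p q = Equiv.swap (adj e p) (adj e q) * adj e :=
  Equiv.mul_swap_eq_swap_mul _ _ _

/-- a function on valid states which is invariant under the allowed moves is constant -/
lemma conn {r : Fin (M + 1) → Fin (M + 1) → Prop} (f : Equiv.Perm (Fin (M + 1)) → ℝ)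
    (hf : ∀ π, Valid r π → ∀ e : Fin M, Valid r (adj e * π) → f (adj e * π) = f π)
    {π σ : Equiv.Perm (Fin (M + 1))} (hπ : Valid r π) (hσ : Valid r σ) : f π = f σ := by
  classical
  let Φ : Equiv.Perm (Fin (M + 1)) → ℤ := fun π => ∑ a, ((π a : ℕ) : ℤ) * ((σ a : ℕ) : ℤ)
  let A : Finset (Equiv.Perm (Fin (M + 1))) := univ.filter fun π' => Valid r π' ∧ f π' = f π
  have hA : A.Nonempty := ⟨π, by simp [A, hπ]⟩
  obtain ⟨τ, hτ, hmax⟩ := A.exists_max_image Φ hA
  have hτ' : Valid r τ ∧ f τ = f π := by simpa [A] using hτ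
  have key : ∀ e : Fin M, σ (τ.symm e.castSucc) < σ (τ.symm e.succ) := by
    intro e
    by_contra hcon
    rw [not_lt] at hcon
    have hne : σ (τ.symm e.succ) ≠ σ (τ.symm e.castSucc) := by
      intro h
      have := τ.symm.injective (σ.injective h)
      rw [Fin.ext_iff] at this
      simp at this
    have hlt : σ (τ.symm e.succ) < σ (τ.symm e.castSucc) := lt_of_le_of_ne hcon hne
    have hv : Valid r (adj e * τ) := by
      rw [valid_adj hτ'.1]
      intro hr
      exact absurd (hσ _ _ hr) (not_lt.mpr hcon)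
    have hmem : adj e * τ ∈ A := by
      simp only [A, mem_filter, mem_univ, true_and]
      exact ⟨hv, (hf τ hτ'.1 e hv).trans hτ'.2⟩
    have h1 := hmax _ hmem
    have h2 : Φ (adj e * τ) - Φ τ =
        ((σ (τ.symm e.castSucc) : ℕ) : ℤ) - ((σ (τ.symm e.succ) : ℕ) : ℤ) := by
      simp only [Φ]
      rw [← sum_sub_distrib]
      have hab : τ.symm e.castSucc ≠ τ.symm e.succ := by
        intro h
        have := τ.symm.injective h
        rw [Fin.ext_iff] at this
        simp at this
      rw [← Finset.sum_subset (Finset.subset_univ {τ.symm e.castSucc, τ.symm e.succ})]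
      · rw [sum_pair hab]
        simp only [Equiv.Perm.mul_apply, adj, Equiv.apply_symm_apply, Equiv.swap_apply_left,
          Equiv.swap_apply_right]
        simp only [Fin.val_succ, Fin.val_castSucc]
        push_cast
        ring
      · intro x _ hx
        simp only [mem_insert, mem_singleton, not_or] at hx
        have h3 : τ x ≠ e.castSucc := fun h => hx.1 (by rw [← h, Equiv.symm_apply_apply])
        have h4 : τ x ≠ e.succ := fun h => hx.2 (by rw [← h, Equiv.symm_apply_apply])
        rw [Equiv.Perm.mul_apply, adj, Equiv.swap_apply_of_ne_of_ne h3 h4, sub_self]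
    have h3 : ((σ (τ.symm e.succ) : ℕ) : ℤ) < ((σ (τ.symm e.castSucc) : ℕ) : ℤ) := by
      exact_mod_cast hlt
    linarith
  have hmono : StrictMono (fun x => σ (τ.symm x)) := by
    rw [Fin.strictMono_iff_lt_succ]
    exact key
  have hid : ∀ x, σ (τ.symm x) = x := by
    intro x
    have hb : (fun x => σ (τ.symm x)) = id := by
      have : Function.Bijective (fun x => σ (τ.symm x)) := (τ.symm.trans σ).bijective
      exact (StrictMono.range_inj hmono strictMono_id).mp (by
        rw [this.surjective.range_eq]; simp)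
    exact congrFun hb x
  have : τ = σ := by
    ext a
    rw [← hid (τ a), Equiv.symm_apply_apply]
  rw [← hτ'.2, this]

/-- `w v` shifted by one and extended by zero -/
def coef (M : ℕ) (w v : ℕ → ℝ) (j : ℕ) : ℝ :=
  if j = 0 ∨ M < j then 0 else w (j - 1) * v (j - 1)

lemma wgt_left (v : ℕ → ℝ) {p q : ℕ} (h : p < q) : wgt v p q = v p + wgt v (p + 1) q := by
  unfold wgt
  rw [Finset.sum_eq_sum_Ico_succ_bot h]

lemma wgt_right (v : ℕ → ℝ) {p q : ℕ} (h : p ≤ q) : wgt v p (q + 1) = wgt v p q + v q := by
  unfold wgt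
  rw [Finset.sum_Ico_succ_top h]

lemma wgt_pos {v : ℕ → ℝ} (hv : ∀ j, 0 < v j) {p q : ℕ} (h : p < q) : 0 < wgt v p q := by
  unfold wgt
  exact Finset.sum_pos (fun j _ => hv j) (by simpa using h)

lemma wgt_succ (v : ℕ → ℝ) (e : ℕ) : wgt v e (e + 1) = v e := by
  unfold wgt
  simp

section incomparable

variable {r : Fin (M + 1) → Fin (M + 1) → Prop} {π : Equiv.Perm (Fin (M + 1))}
  {p q : Fin (M + 1)}

lemma not_rel_of_lt (hπ : Valid r π) {x y : Fin (M + 1)} (h : x < y) :
    ¬ r (π.symm y) (π.symm x) := by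
  intro hr
  have := hπ _ _ hr
  rw [Equiv.apply_symm_apply, Equiv.apply_symm_apply] at this
  exact absurd this (not_lt.mpr h.le)

lemma symm_swap_mul (π : Equiv.Perm (Fin (M + 1))) (p q x : Fin (M + 1)) :
    (Equiv.swap p q * π).symm x = π.symm (Equiv.swap p q x) := by
  rw [Equiv.symm_apply_eq, Equiv.Perm.mul_apply, Equiv.apply_symm_apply, Equiv.swap_apply_self]

/-- disjoint edges are open or closed simultaneously -/
lemma valid_disjoint (hπ : Valid r π) (hπ' : Valid r (Equiv.swap p q * π)) (e : Fin M)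
    (h1 : e.castSucc ≠ p) (h2 : e.castSucc ≠ q) (h3 : e.succ ≠ p) (h4 : e.succ ≠ q) :
    Valid r (adj e * (Equiv.swap p q * π)) ↔ Valid r (adj e * π) := by
  rw [valid_adj hπ, valid_adj hπ', symm_swap_mul, symm_swap_mul,
    Equiv.swap_apply_of_ne_of_ne h1 h2, Equiv.swap_apply_of_ne_of_ne h3 h4]

lemma valid_left (hπ : Valid r π) (hπ' : Valid r (Equiv.swap p q * π)) (e : Fin M)
    (h1 : e.castSucc = p) (h2 : e.succ < q) :
    Valid r (adj e * π) ∧ Valid r (adj e * (Equiv.swap p q * π)) := by
  have hpe : p < e.succ := by rw [← h1]; exact Fin.castSucc_lt_succ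
  have hne1 : e.succ ≠ p := ne_of_gt hpe
  have hne2 : e.succ ≠ q := ne_of_lt h2
  constructor
  · rw [valid_adj hπ, h1]
    have := not_rel_of_lt hπ' h2
    rw [symm_swap_mul, symm_swap_mul, Equiv.swap_apply_right,
      Equiv.swap_apply_of_ne_of_ne hne1 hne2] at this
    exact this
  · rw [valid_adj hπ', h1, symm_swap_mul, symm_swap_mul, Equiv.swap_apply_left,
      Equiv.swap_apply_of_ne_of_ne hne1 hne2]
    exact not_rel_of_lt hπ h2

lemma valid_right (hπ : Valid r π) (hπ' : Valid r (Equiv.swap p q * π)) (e : Fin M)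
    (h1 : e.succ = q) (h2 : p < e.castSucc) :
    Valid r (adj e * π) ∧ Valid r (adj e * (Equiv.swap p q * π)) := by
  have hpe : e.castSucc < q := by rw [← h1]; exact Fin.castSucc_lt_succ
  have hne1 : e.castSucc ≠ p := ne_of_gt h2
  have hne2 : e.castSucc ≠ q := ne_of_lt hpe
  constructor
  · rw [valid_adj hπ, h1]
    have := not_rel_of_lt hπ' h2
    rw [symm_swap_mul, symm_swap_mul, Equiv.swap_apply_left,
      Equiv.swap_apply_of_ne_of_ne hne1 hne2] at this
    exact this
  · rw [valid_adj hπ', h1, symm_swap_mul, symm_swap_mul, Equiv.swap_apply_right,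
      Equiv.swap_apply_of_ne_of_ne hne1 hne2]
    exact not_rel_of_lt hπ h2

end incomparable

/-- the local estimate at one edge -/
lemma bracket_ge {r : Fin (M + 1) → Fin (M + 1) → Prop} [DecidablePred (Valid r)]
    (v : ℕ → ℝ) (hv : ∀ j, 0 < v j)
    (f : Equiv.Perm (Fin (M + 1)) → ℝ) (K : ℝ) (hK : 0 ≤ K)
    (hbd : ∀ (π : Equiv.Perm (Fin (M + 1))) (p q : Fin (M + 1)), p < q → Valid r π →
      Valid r (Equiv.swap p q * π) → |f (Equiv.swap p q * π) - f π| ≤ K * wgt v p q)
    (π : Equiv.Perm (Fin (M + 1))) (p q : Fin (M + 1)) (hpq : p < q) (hπ : Valid r π)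
    (hπ' : Valid r (Equiv.swap p q * π))
    (hD : f (Equiv.swap p q * π) - f π = K * wgt v p q) (e : Fin M) :
    K * v e * ((if (e : ℕ) = p then 1 else 0) + (if (e : ℕ) + 1 = q then 1 else 0)
      - (if (e : ℕ) + 1 = p then 1 else 0) - (if (e : ℕ) = q then 1 else 0)) ≤
    (if Valid r (adj e * (Equiv.swap p q * π)) then
        f (Equiv.swap p q * π) - f (adj e * (Equiv.swap p q * π)) else 0)
      - (if Valid r (adj e * π) then f π - f (adj e * π) else 0) := by
  have hce : (e.castSucc : ℕ) = e := rfl
  have hse : (e.succ : ℕ) = e + 1 := rfl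
  have hcs : e.castSucc < e.succ := Fin.castSucc_lt_succ
  have hpq' : (p : ℕ) < q := hpq
  have hve : 0 ≤ K * v e := mul_nonneg hK (hv e).le
  -- adjacent bounds
  have hadj : ∀ τ : Equiv.Perm (Fin (M + 1)), Valid r τ → Valid r (adj e * τ) →
      |f (adj e * τ) - f τ| ≤ K * v e := by
    intro τ h1 h2
    have := hbd τ e.castSucc e.succ hcs h1 h2
    rwa [hce, hse, wgt_succ] at this
  have hcomm : adj e * (Equiv.swap p q * π) = Equiv.swap (adj e p) (adj e q) * (adj e * π) := by
    rw [← mul_assoc, adj_mul_swap, mul_assoc]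
  by_cases hp1 : (e : ℕ) = p
  · have hp1' : e.castSucc = p := Fin.ext hp1
    have n1 : ¬ ((e : ℕ) + 1 = p) := by omega
    have n2 : ¬ ((e : ℕ) = q) := by omega
    rw [if_pos hp1, if_neg n1, if_neg n2]
    by_cases hq1 : (e : ℕ) + 1 = q
    · have hq1' : e.succ = q := Fin.ext hq1
      have e1 : adj e * π = Equiv.swap p q * π := by rw [adj, hp1', hq1']
      have e2 : adj e * (Equiv.swap p q * π) = π := by rw [← e1, adj_adj]
      rw [if_pos hq1, e2, e1, if_pos hπ, if_pos hπ']
      have : wgt v p q = v e := by rw [← hp1, ← hq1, wgt_succ]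
      rw [this] at hD
      linarith
    · have hq2 : e.succ < q := by
        rw [Fin.lt_def, hse]; omega
      obtain ⟨h1, h2⟩ := valid_left hπ hπ' e hp1' hq2
      rw [if_neg hq1, if_pos h1, if_pos h2]
      have a1 : adj e p = e.succ := by rw [adj, ← hp1', Equiv.swap_apply_left]
      have a2 : adj e q = q := by
        rw [adj]
        apply Equiv.swap_apply_of_ne_of_ne
        · exact ne_of_gt (hcs.trans hq2)
        · exact ne_of_gt hq2
      rw [a1, a2] at hcomm
      have hb := hbd (adj e * π) e.succ q hq2 h1 (hcomm ▸ h2)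
      rw [← hcomm, hse] at hb
      have hw : wgt v p q = v e + wgt v (e + 1) q := by
        rw [← hp1]; exact wgt_left v (by omega)
      rw [hw] at hD
      have := abs_le.mp hb
      nlinarith
  · by_cases hp2 : (e : ℕ) + 1 = p
    · have hp2' : e.succ = p := Fin.ext hp2
      have n1 : ¬ ((e : ℕ) + 1 = q) := by omega
      have n2 : ¬ ((e : ℕ) = q) := by omega
      rw [if_neg hp1, if_neg n1, if_pos hp2, if_neg n2]
      have a1 : adj e p = e.castSucc := by rw [adj, ← hp2', Equiv.swap_apply_right]
      have a2 : adj e q = q := by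
        rw [adj]
        apply Equiv.swap_apply_of_ne_of_ne
        · intro h; apply n2; rw [h]; rfl
        · intro h; apply n1; rw [h]; rfl
      rw [a1, a2] at hcomm
      have hcq : e.castSucc < q := by rw [Fin.lt_def, hce]; omega
      by_cases h1 : Valid r (adj e * π)
      · by_cases h2 : Valid r (adj e * (Equiv.swap p q * π))
        · rw [if_pos h1, if_pos h2]
          have hb := hbd (adj e * π) e.castSucc q hcq h1 (hcomm ▸ h2)
          rw [← hcomm, hce] at hb
          have hw : wgt v e q = v e + wgt v p q := by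
            rw [← hp2]; exact wgt_left v (by omega)
          rw [hw] at hb
          have := abs_le.mp hb
          nlinarith
        · rw [if_pos h1, if_neg h2]
          have := abs_le.mp (hadj π hπ h1)
          linarith
      · by_cases h2 : Valid r (adj e * (Equiv.swap p q * π))
        · rw [if_neg h1, if_pos h2]
          have := abs_le.mp (hadj _ hπ' h2)
          linarith
        · rw [if_neg h1, if_neg h2]
          linarith
    · by_cases hq1 : (e : ℕ) = q
      · have hq1' : e.castSucc = q := Fin.ext hq1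
        have n1 : ¬ ((e : ℕ) + 1 = q) := by omega
        rw [if_neg hp1, if_neg n1, if_neg hp2, if_pos hq1]
        have a1 : adj e p = p := by
          rw [adj]
          apply Equiv.swap_apply_of_ne_of_ne
          · intro h; apply hp1; rw [h]; rfl
          · intro h; apply hp2; rw [h]; rfl
        have a2 : adj e q = e.succ := by rw [adj, ← hq1', Equiv.swap_apply_left]
        rw [a1, a2] at hcomm
        have hcq : p < e.succ := by rw [Fin.lt_def, hse]; omega
        by_cases h1 : Valid r (adj e * π)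
        · by_cases h2 : Valid r (adj e * (Equiv.swap p q * π))
          · rw [if_pos h1, if_pos h2]
            have hb := hbd (adj e * π) p e.succ hcq h1 (hcomm ▸ h2)
            rw [← hcomm, hse] at hb
            have hw : wgt v p (e + 1) = wgt v p q + v e := by
              rw [wgt_right v (by omega), hq1]
            rw [hw] at hb
            have := abs_le.mp hb
            nlinarith
          · rw [if_pos h1, if_neg h2]
            have := abs_le.mp (hadj π hπ h1)
            linarith
        · by_cases h2 : Valid r (adj e * (Equiv.swap p q * π))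
          · rw [if_neg h1, if_pos h2]
            have := abs_le.mp (hadj _ hπ' h2)
            linarith
          · rw [if_neg h1, if_neg h2]
            linarith
      · by_cases hq2 : (e : ℕ) + 1 = q
        · have hq2' : e.succ = q := Fin.ext hq2
          rw [if_neg hp1, if_pos hq2, if_neg hp2, if_neg hq1]
          have hpe : p < e.castSucc := by rw [Fin.lt_def, hce]; omega
          obtain ⟨h1, h2⟩ := valid_right hπ hπ' e hq2' hpe
          rw [if_pos h1, if_pos h2]
          have a1 : adj e p = p := by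
            rw [adj]
            apply Equiv.swap_apply_of_ne_of_ne
            · intro h; apply hp1; rw [h]; rfl
            · intro h; apply hp2; rw [h]; rfl
          have a2 : adj e q = e.castSucc := by rw [adj, ← hq2', Equiv.swap_apply_right]
          rw [a1, a2] at hcomm
          have hb := hbd (adj e * π) p e.castSucc hpe h1 (hcomm ▸ h2)
          rw [← hcomm, hce] at hb
          have hw : wgt v p q = wgt v p e + v e := by
            rw [← hq2]; exact wgt_right v (by omega)
          rw [hw] at hD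
          have := abs_le.mp hb
          nlinarith
        · rw [if_neg hp1, if_neg hq2, if_neg hp2, if_neg hq1]
          have m1 : e.castSucc ≠ p := by intro h; apply hp1; rw [← h]; rfl
          have m2 : e.castSucc ≠ q := by intro h; apply hq1; rw [← h]; rfl
          have m3 : e.succ ≠ p := by intro h; apply hp2; rw [← h]; rfl
          have m4 : e.succ ≠ q := by intro h; apply hq2; rw [← h]; rfl
          have hiff := valid_disjoint hπ hπ' e m1 m2 m3 m4
          by_cases h1 : Valid r (adj e * π)
          · have h2 := hiff.mpr h1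
            rw [if_pos h1, if_pos h2]
            have a1 : adj e p = p := Equiv.swap_apply_of_ne_of_ne m1.symm m3.symm
            have a2 : adj e q = q := Equiv.swap_apply_of_ne_of_ne m2.symm m4.symm
            rw [a1, a2] at hcomm
            have hb := hbd (adj e * π) p q hpq h1 (hcomm ▸ h2)
            rw [← hcomm] at hb
            have := abs_le.mp hb
            nlinarith
          · have h2 : ¬ Valid r (adj e * (Equiv.swap p q * π)) := fun h => h1 (hiff.mp h)
            rw [if_neg h1, if_neg h2]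
            simp

/-- summing the local estimates -/
lemma sum_coef (w v : ℕ → ℝ) (p q : Fin (M + 1)) :
    ∑ e : Fin M, w e * (v e * ((if (e : ℕ) = p then 1 else 0) + (if (e : ℕ) + 1 = q then 1 else 0)
      - (if (e : ℕ) + 1 = p then 1 else 0) - (if (e : ℕ) = q then 1 else 0))) =
    coef M w v (p + 1) + coef M w v q - coef M w v p - coef M w v (q + 1) := by
  have h1 : ∀ p : Fin (M + 1), ∑ e : Fin M, w e * v e * (if (e : ℕ) = p then (1 : ℝ) else 0) =
      coef M w v (p + 1) := by
    intro p
    rw [Fin.sum_univ_eq_sum_range (fun e => w e * v e * (if e = (p : ℕ) then (1 : ℝ) else 0)) M]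
    unfold coef
    by_cases hp : (p : ℕ) < M
    · rw [if_neg (by omega), Finset.sum_eq_single (p : ℕ)]
      · simp
      · intro b _ hb
        rw [if_neg hb, mul_zero]
      · intro h
        exact absurd (Finset.mem_range.mpr hp) h
    · rw [if_pos (by omega)]
      apply Finset.sum_eq_zero
      intro b hb
      rw [Finset.mem_range] at hb
      rw [if_neg (by omega), mul_zero]
  have h2 : ∀ p : Fin (M + 1), ∑ e : Fin M, w e * v e * (if (e : ℕ) + 1 = p then (1 : ℝ) else 0) =
      coef M w v p := by
    intro p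
    rw [Fin.sum_univ_eq_sum_range
      (fun e => w e * v e * (if e + 1 = (p : ℕ) then (1 : ℝ) else 0)) M]
    unfold coef
    by_cases hp : (p : ℕ) = 0
    · rw [if_pos (by omega)]
      apply Finset.sum_eq_zero
      intro b hb
      rw [if_neg (by omega), mul_zero]
    · have := p.2
      rw [if_neg (by omega), Finset.sum_eq_single ((p : ℕ) - 1)]
      · rw [if_pos (by omega), mul_one]
      · intro b _ hb
        rw [if_neg (by omega), mul_zero]
      · intro h
        exact absurd (Finset.mem_range.mpr (by omega)) h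
  rw [← h1 p, ← h2 q, ← h2 p, ← h1 q, ← Finset.sum_add_distrib, ← Finset.sum_sub_distrib,
    ← Finset.sum_sub_distrib]
  apply Finset.sum_congr rfl
  intro e _
  ring

lemma coef_tele (w v : ℕ → ℝ) (lam : ℝ)
    (hC : ∀ j < M, coef M w v (j + 2) - 2 * coef M w v (j + 1) + coef M w v j ≤ - lam * v j)
    {p q : ℕ} (hpq : p ≤ q) (hq : q ≤ M) :
    lam * wgt v p q ≤ coef M w v (p + 1) + coef M w v q - coef M w v p - coef M w v (q + 1) := by
  induction q, hpq using Nat.le_induction with
  | base => simp [wgt]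
  | succ q hpq ih =>
    have h1 := ih (by omega)
    have h2 := hC q (by omega)
    rw [wgt_right v hpq]
    linarith

/-- lower bound on the eigenvalues of the chain -/
lemma eig_ge {r : Fin (M + 1) → Fin (M + 1) → Prop} [DecidablePred (Valid r)]
    (w v : ℕ → ℝ) (lam : ℝ) (hw : ∀ j, 0 < w j) (hv : ∀ j, 0 < v j)
    (hC : ∀ j < M, coef M w v (j + 2) - 2 * coef M w v (j + 1) + coef M w v j ≤ - lam * v j)
    (f : Equiv.Perm (Fin (M + 1)) → ℝ) (mu : ℝ)
    (heig : ∀ π, Valid r π → ∑ e : Fin M, w e *
      (if Valid r (adj e * π) then f π - f (adj e * π) else 0) = mu * f π)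
    {π₀ σ₀ : Equiv.Perm (Fin (M + 1))} (hπ₀ : Valid r π₀) (hσ₀ : Valid r σ₀)
    (hne : f π₀ ≠ f σ₀) : lam ≤ mu := by
  classical
  -- an adjacent pair with different values
  have hex : ∃ π, Valid r π ∧ ∃ e : Fin M, Valid r (adj e * π) ∧ f (adj e * π) ≠ f π := by
    by_contra hcon
    push Not at hcon
    exact hne (conn f hcon hπ₀ hσ₀)
  obtain ⟨π₁, hπ₁, e₁, he₁, hfe⟩ := hex
  let P : Finset (Equiv.Perm (Fin (M + 1)) × Fin (M + 1) × Fin (M + 1)) :=
    univ.filter fun t => t.2.1 < t.2.2 ∧ Valid r t.1 ∧ Valid r (Equiv.swap t.2.1 t.2.2 * t.1)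
  let ρ : Equiv.Perm (Fin (M + 1)) × Fin (M + 1) × Fin (M + 1) → ℝ := fun t =>
    |f (Equiv.swap t.2.1 t.2.2 * t.1) - f t.1| / wgt v t.2.1 t.2.2
  have hcs : e₁.castSucc < e₁.succ := Fin.castSucc_lt_succ
  have hmem₁ : (π₁, e₁.castSucc, e₁.succ) ∈ P := by
    simp only [P, mem_filter, mem_univ, true_and]
    exact ⟨hcs, hπ₁, he₁⟩
  obtain ⟨t, ht, hmax⟩ := P.exists_max_image ρ ⟨_, hmem₁⟩
  have ht' : t.2.1 < t.2.2 ∧ Valid r t.1 ∧ Valid r (Equiv.swap t.2.1 t.2.2 * t.1) := by
    simpa [P] using ht
  have hwpos : ∀ p q : Fin (M + 1), p < q → 0 < wgt v p q := fun p q h => wgt_pos hv h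
  have hK : 0 < ρ t := by
    refine lt_of_lt_of_le ?_ (hmax _ hmem₁)
    simp only [ρ]
    apply div_pos _ (hwpos _ _ hcs)
    apply abs_pos.mpr
    rw [sub_ne_zero]
    exact hfe
  have hbd : ∀ (π : Equiv.Perm (Fin (M + 1))) (p q : Fin (M + 1)), p < q → Valid r π →
      Valid r (Equiv.swap p q * π) → |f (Equiv.swap p q * π) - f π| ≤ ρ t * wgt v p q := by
    intro π p q h1 h2 h3
    have := hmax (π, p, q) (by simp only [P, mem_filter, mem_univ, true_and]; exact ⟨h1, h2, h3⟩)
    rw [← div_le_iff₀ (hwpos _ _ h1)]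
    exact this
  obtain ⟨π, p, q, hpq, hπ, hπ', hD⟩ : ∃ (π : Equiv.Perm (Fin (M + 1))) (p q : Fin (M + 1)),
      p < q ∧ Valid r π ∧ Valid r (Equiv.swap p q * π) ∧
      f (Equiv.swap p q * π) - f π = ρ t * wgt v p q := by
    have hρ : |f (Equiv.swap t.2.1 t.2.2 * t.1) - f t.1| = ρ t * wgt v t.2.1 t.2.2 := by
      simp only [ρ]
      rw [div_mul_cancel₀ _ (hwpos _ _ ht'.1).ne']
    rcases abs_choice (f (Equiv.swap t.2.1 t.2.2 * t.1) - f t.1) with h | h
    · exact ⟨t.1, t.2.1, t.2.2, ht'.1, ht'.2.1, ht'.2.2, by rw [← hρ, h]⟩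
    · refine ⟨Equiv.swap t.2.1 t.2.2 * t.1, t.2.1, t.2.2, ht'.1, ht'.2.2, ?_, ?_⟩
      · rw [← mul_assoc, Equiv.swap_mul_self, one_mul]; exact ht'.2.1
      · rw [← mul_assoc, Equiv.swap_mul_self, one_mul, ← hρ, h]; ring
  have h1 := heig π hπ
  have h2 := heig _ hπ'
  have hDpos : 0 < ρ t * wgt v p q := mul_pos hK (hwpos _ _ hpq)
  have h3 : mu * (ρ t * wgt v p q) ≥ ρ t * (lam * wgt v p q) := by
    rw [← hD, mul_sub, ← h1, ← h2, ← Finset.sum_sub_distrib]
    have h4 : ∀ e : Fin M, w e * (ρ t * (v e * ((if (e : ℕ) = p then 1 else 0)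
        + (if (e : ℕ) + 1 = q then 1 else 0)
        - (if (e : ℕ) + 1 = p then 1 else 0) - (if (e : ℕ) = q then 1 else 0)))) ≤
        w e * (if Valid r (adj e * (Equiv.swap p q * π)) then
          f (Equiv.swap p q * π) - f (adj e * (Equiv.swap p q * π)) else 0)
        - w e * (if Valid r (adj e * π) then f π - f (adj e * π) else 0) := by
      intro e
      rw [← mul_sub]
      apply mul_le_mul_of_nonneg_left _ (hw e).le
      rw [← mul_assoc]
      exact bracket_ge v hv f (ρ t) hK.le hbd π p q hpq hπ hπ' hD e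
    have h5 := Finset.sum_le_sum (fun e (_ : e ∈ (univ : Finset (Fin M))) => h4 e)
    refine le_trans ?_ h5
    have h6 := sum_coef (M := M) w v p q
    have h7 := coef_tele w v lam hC hpq.le (Nat.lt_succ_iff.mp q.2)
    calc ρ t * (lam * wgt v p q) ≤ ρ t * (coef M w v (p + 1) + coef M w v q - coef M w v p
          - coef M w v (q + 1)) := mul_le_mul_of_nonneg_left h7 hK.le
      _ = _ := by
        rw [← h6, Finset.mul_sum]
        apply Finset.sum_congr rfl
        intro e _
        ring
  have h8 : lam * (ρ t * wgt v p q) ≤ mu * (ρ t * wgt v p q) := by linarith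
  exact le_of_mul_le_mul_right h8 hDpos

end Pool.Agent.Lib.MP_6d896a_gt
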