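import Mathlib
import Pool.Agent.Lib.MP_6d896a_gt.Chain

/-!
The discrete Poincare inequality, from the eigenvalue bound and the spectral theorem.
-/

namespace Pool.Agent.Lib.MP_6d896a_gt

open Finset

variable {M : ℕ}

section symm

variable (r : Fin (M + 1) → Fin (M + 1) → Prop) [DecidablePred (Valid r)]

/-- the valid states -/
def Om : Finset (Equiv.Perm (Fin (M + 1))) := univ.filter (Valid r)

lemma mem_Om {π : Equiv.Perm (Fin (M + 1))} : π ∈ Om r ↔ Valid r π := by simp [Om]

/-- one edge: flipping the edge is an involution -/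
lemma flip_sum (F : Equiv.Perm (Fin (M + 1)) → Equiv.Perm (Fin (M + 1)) → ℝ) (e : Fin M) :
    ∑ π ∈ Om r, (if Valid r (adj e * π) then F π (adj e * π) else 0) =
    ∑ π ∈ Om r, (if Valid r (adj e * π) then F (adj e * π) π else 0) := by
  rw [← Finset.sum_filter, ← Finset.sum_filter]
  refine Finset.sum_nbij' (fun π => adj e * π) (fun π => adj e * π) ?_ ?_ ?_ ?_ ?_
  · intro π hπ
    rw [mem_filter, mem_Om] at *
    rw [adj_adj]
    exact ⟨hπ.2, hπ.1⟩
  · intro π hπ
    rw [mem_filter, mem_Om] at *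
    rw [adj_adj]
    exact ⟨hπ.2, hπ.1⟩
  · intro π _
    exact adj_adj e π
  · intro π _
    exact adj_adj e π
  · intro π _
    rw [adj_adj]

lemma form_eq (w : ℕ → ℝ) (f g : Equiv.Perm (Fin (M + 1)) → ℝ) :
    ∑ π ∈ Om r, (∑ e : Fin M, w e * (if Valid r (adj e * π) then f π - f (adj e * π) else 0)) * g π
    = (1 / 2) * ∑ π ∈ Om r, ∑ e : Fin M, w e *
      (if Valid r (adj e * π) then (f π - f (adj e * π)) * (g π - g (adj e * π)) else 0) := by
  have h1 : ∀ e : Fin M, ∑ π ∈ Om r,
      (if Valid r (adj e * π) then (f π - f (adj e * π)) * g π else 0) =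
      (1 / 2) * ∑ π ∈ Om r, (if Valid r (adj e * π) then
        (f π - f (adj e * π)) * (g π - g (adj e * π)) else 0) := by
    intro e
    have h2 := flip_sum r (fun a b => (f a - f b) * g a) e
    have h3 : ∑ π ∈ Om r, (if Valid r (adj e * π) then
        (f π - f (adj e * π)) * (g π - g (adj e * π)) else 0) =
        ∑ π ∈ Om r, (if Valid r (adj e * π) then (f π - f (adj e * π)) * g π else 0) +
        ∑ π ∈ Om r, (if Valid r (adj e * π) then (f (adj e * π) - f π) * g (adj e * π) else 0) := by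
      rw [← Finset.sum_add_distrib]
      apply Finset.sum_congr rfl
      intro π _
      split_ifs
      · ring
      · ring
    rw [h3, ← h2]
    ring
  calc _ = ∑ π ∈ Om r, ∑ e : Fin M, w e *
        (if Valid r (adj e * π) then (f π - f (adj e * π)) * g π else 0) := by
        apply Finset.sum_congr rfl
        intro π _
        rw [Finset.sum_mul]
        apply Finset.sum_congr rfl
        intro e _
        split_ifs
        · ring
        · ring
    _ = ∑ e : Fin M, w e * ∑ π ∈ Om r,
        (if Valid r (adj e * π) then (f π - f (adj e * π)) * g π else 0) := by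
        rw [Finset.sum_comm]
        apply Finset.sum_congr rfl
        intro e _
        rw [Finset.mul_sum]
    _ = _ := by
        rw [Finset.sum_comm, Finset.mul_sum]
        apply Finset.sum_congr rfl
        intro e _
        rw [h1 e, ← Finset.mul_sum]
        ring

end symm

section spectral

variable (r : Fin (M + 1) → Fin (M + 1) → Prop)

open Classical in
/-- extension by zero of a function on the valid states -/
noncomputable def ext0 (f : EuclideanSpace ℝ {π : Equiv.Perm (Fin (M + 1)) // Valid r π})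
    (π : Equiv.Perm (Fin (M + 1))) : ℝ := if h : Valid r π then f ⟨π, h⟩ else 0

lemma ext0_of (f : EuclideanSpace ℝ {π : Equiv.Perm (Fin (M + 1)) // Valid r π})
    {π : Equiv.Perm (Fin (M + 1))} (h : Valid r π) : ext0 r f π = f ⟨π, h⟩ := by
  simp [ext0, h]

lemma ext0_add (f g : EuclideanSpace ℝ {π : Equiv.Perm (Fin (M + 1)) // Valid r π})
    (π : Equiv.Perm (Fin (M + 1))) : ext0 r (f + g) π = ext0 r f π + ext0 r g π := by
  unfold ext0
  split_ifs <;> simp

lemma ext0_smul (c : ℝ) (f : EuclideanSpace ℝ {π : Equiv.Perm (Fin (M + 1)) // Valid r π})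
    (π : Equiv.Perm (Fin (M + 1))) : ext0 r (c • f) π = c * ext0 r f π := by
  unfold ext0
  split_ifs <;> simp

open Classical in
/-- minus the generator -/
noncomputable def gen (w : ℕ → ℝ) :
    EuclideanSpace ℝ {π : Equiv.Perm (Fin (M + 1)) // Valid r π} →ₗ[ℝ]
      EuclideanSpace ℝ {π : Equiv.Perm (Fin (M + 1)) // Valid r π} where
  toFun f := WithLp.toLp 2 fun π => ∑ e : Fin M, w e *
    (if Valid r (adj e * π.1) then ext0 r f π.1 - ext0 r f (adj e * π.1) else 0)
  map_add' f g := by
    ext π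
    simp only [PiLp.add_apply]
    rw [← Finset.sum_add_distrib]
    apply Finset.sum_congr rfl
    intro e _
    split_ifs
    · rw [ext0_add, ext0_add]; ring
    · ring
  map_smul' c f := by
    ext π
    simp only [PiLp.smul_apply, RingHom.id_apply, smul_eq_mul]
    rw [Finset.mul_sum]
    apply Finset.sum_congr rfl
    intro e _
    split_ifs
    · rw [ext0_smul, ext0_smul]; ring
    · ring

variable [DecidablePred (Valid r)]

open Classical in
lemma inner_eq (f g : EuclideanSpace ℝ {π : Equiv.Perm (Fin (M + 1)) // Valid r π}) :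
    inner ℝ f g = ∑ π ∈ Om r, ext0 r f π * ext0 r g π := by
  rw [Om, Finset.sum_filter, PiLp.inner_apply]
  rw [← Finset.sum_filter, Finset.sum_subtype (p := Valid r) _ (by simp)]
  apply Finset.sum_congr rfl
  intro π _
  rw [ext0_of r f π.2, ext0_of r g π.2]
  simp [mul_comm]

lemma gen_apply (w : ℕ → ℝ) (f : EuclideanSpace ℝ {π : Equiv.Perm (Fin (M + 1)) // Valid r π})
    {π : Equiv.Perm (Fin (M + 1))} (h : Valid r π) :
    ext0 r (gen r w f) π = ∑ e : Fin M, w e *
    (if Valid r (adj e * π) then ext0 r f π - ext0 r f (adj e * π) else 0) := by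
  rw [ext0_of r _ h]
  simp only [gen, LinearMap.coe_mk, AddHom.coe_mk]

lemma inner_gen (w : ℕ → ℝ)
    (f g : EuclideanSpace ℝ {π : Equiv.Perm (Fin (M + 1)) // Valid r π}) :
    inner ℝ (gen r w f) g = (1 / 2) * ∑ π ∈ Om r, ∑ e : Fin M, w e *
      (if Valid r (adj e * π) then (ext0 r f π - ext0 r f (adj e * π)) *
        (ext0 r g π - ext0 r g (adj e * π)) else 0) := by
  rw [inner_eq, ← form_eq]
  apply Finset.sum_congr rfl
  intro π hπ
  rw [gen_apply r w f ((mem_Om r).mp hπ)]

lemma gen_symm (w : ℕ → ℝ) : (gen r w).IsSymmetric := by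
  intro f g
  rw [inner_gen, real_inner_comm, inner_gen]
  congr 1
  apply Finset.sum_congr rfl
  intro π _
  apply Finset.sum_congr rfl
  intro e _
  split_ifs
  · ring
  · ring

/-- Poincare inequality for mean zero functions -/
lemma gap_mean_zero (w v : ℕ → ℝ) (lam : ℝ) (hw : ∀ j, 0 < w j) (hv : ∀ j, 0 < v j)
    (hC : ∀ j < M, coef M w v (j + 2) - 2 * coef M w v (j + 1) + coef M w v j ≤ - lam * v j)
    (f : EuclideanSpace ℝ {π : Equiv.Perm (Fin (M + 1)) // Valid r π})
    (hf : ∑ π ∈ Om r, ext0 r f π = 0) :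
    lam * inner ℝ f f ≤ inner ℝ (gen r w f) f := by
  classical
  set T := gen r w with hTdef
  have hT : T.IsSymmetric := gen_symm r w
  set b := hT.eigenvectorBasis rfl with hb
  set ev := hT.eigenvalues rfl with hev
  have h1 : inner ℝ (T f) f = ∑ i, ev i * (inner ℝ f (b i) * inner ℝ (b i) f) := by
    rw [← b.sum_inner_mul_inner]
    apply Finset.sum_congr rfl
    intro i _
    rw [hT, hT.apply_eigenvectorBasis, inner_smul_right]
    simp only [RCLike.ofReal_real_eq_id, id_eq]
    ring
  rw [h1, ← b.sum_inner_mul_inner, Finset.mul_sum]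
  apply Finset.sum_le_sum
  intro i _
  by_cases hconst : ∀ π σ, Valid r π → Valid r σ → ext0 r (b i) π = ext0 r (b i) σ
  · have h2 : inner ℝ (b i) f = (0 : ℝ) := by
      rw [inner_eq]
      rcases (Om r).eq_empty_or_nonempty with h | ⟨π₀, h₀⟩
      · rw [h]; simp
      · have : ∑ π ∈ Om r, ext0 r (b i) π * ext0 r f π
            = ∑ π ∈ Om r, ext0 r (b i) π₀ * ext0 r f π := by
          apply Finset.sum_congr rfl
          intro π hπ
          rw [hconst π π₀ ((mem_Om r).mp hπ) ((mem_Om r).mp h₀)]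
        rw [this, ← Finset.mul_sum, hf, mul_zero]
    rw [h2]
    simp
  · push Not at hconst
    obtain ⟨π, σ, hπ, hσ, hne⟩ := hconst
    have h3 : lam ≤ ev i := by
      apply eig_ge w v lam hw hv hC (ext0 r (b i)) (ev i) _ hπ hσ hne
      intro τ hτ
      rw [← gen_apply r w (b i) hτ, ← hTdef, hT.apply_eigenvectorBasis, ext0_smul]
      rfl
    have h4 : 0 ≤ inner ℝ f (b i) * inner ℝ (b i) f := by
      rw [real_inner_comm]
      exact mul_self_nonneg _
    exact mul_le_mul_of_nonneg_right h3 h4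

/-- Poincare inequality for the chain -/
theorem poincare_chain (w v : ℕ → ℝ) (lam : ℝ) (hw : ∀ j, 0 < w j) (hv : ∀ j, 0 < v j)
    (hC : ∀ j < M, coef M w v (j + 2) - 2 * coef M w v (j + 1) + coef M w v j ≤ - lam * v j)
    (f : Equiv.Perm (Fin (M + 1)) → ℝ) :
    lam * ((Om r).card * ∑ π ∈ Om r, f π ^ 2 - (∑ π ∈ Om r, f π) ^ 2) ≤
      (Om r).card * ((1 / 2) * ∑ π ∈ Om r, ∑ e : Fin M, w e *
        (if Valid r (adj e * π) then (f (adj e * π) - f π) ^ 2 else 0)) := by
  classical
  rcases (Om r).eq_empty_or_nonempty with h | hne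
  · rw [h]; simp
  have hN : (0 : ℝ) < (Om r).card := by exact_mod_cast hne.card_pos
  set N : ℝ := ((Om r).card : ℝ) with hNdef
  set m : ℝ := (∑ π ∈ Om r, f π) / N with hm
  let F : EuclideanSpace ℝ {π : Equiv.Perm (Fin (M + 1)) // Valid r π} :=
    WithLp.toLp 2 fun π => f π.1 - m
  have hF : ∀ π, Valid r π → ext0 r F π = f π - m := by
    intro π hπ
    rw [ext0_of r F hπ]
  have hF0 : ∑ π ∈ Om r, ext0 r F π = 0 := by
    have : ∑ π ∈ Om r, ext0 r F π = ∑ π ∈ Om r, (f π - m) :=
      Finset.sum_congr rfl fun π hπ => hF π ((mem_Om r).mp hπ)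
    rw [this, Finset.sum_sub_distrib, Finset.sum_const, nsmul_eq_mul, ← hNdef, hm]
    field_simp
    ring
  have h1 := gap_mean_zero r w v lam hw hv hC F hF0
  rw [inner_gen, inner_eq] at h1
  have h2 : ∑ π ∈ Om r, ext0 r F π * ext0 r F π = ∑ π ∈ Om r, f π ^ 2 - N * m ^ 2 := by
    have : ∑ π ∈ Om r, ext0 r F π * ext0 r F π = ∑ π ∈ Om r, (f π ^ 2 - 2 * m * f π + m ^ 2) := by
      apply Finset.sum_congr rfl
      intro π hπ
      rw [hF π ((mem_Om r).mp hπ)]
      ring
    rw [this, Finset.sum_add_distrib, Finset.sum_sub_distrib, ← Finset.mul_sum, Finset.sum_const,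
      nsmul_eq_mul, ← hNdef]
    have : ∑ π ∈ Om r, f π = N * m := by rw [hm]; field_simp
    rw [this]
    ring
  have h3 : ∑ π ∈ Om r, ∑ e : Fin M, w e * (if Valid r (adj e * π) then
      (ext0 r F π - ext0 r F (adj e * π)) * (ext0 r F π - ext0 r F (adj e * π)) else 0) =
      ∑ π ∈ Om r, ∑ e : Fin M, w e *
        (if Valid r (adj e * π) then (f (adj e * π) - f π) ^ 2 else 0) := by
    apply Finset.sum_congr rfl
    intro π hπ
    apply Finset.sum_congr rfl
    intro e _
    by_cases h : Valid r (adj e * π)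
    · rw [if_pos h, if_pos h, hF π ((mem_Om r).mp hπ), hF _ h]
      ring
    · rw [if_neg h, if_neg h]
  rw [h2, h3] at h1
  have h4 : N * (∑ π ∈ Om r, f π ^ 2) - (∑ π ∈ Om r, f π) ^ 2 =
      N * (∑ π ∈ Om r, f π ^ 2 - N * m ^ 2) := by
    have : ∑ π ∈ Om r, f π = N * m := by rw [hm]; field_simp
    rw [this]; ring
  rw [h4]
  calc lam * (N * (∑ π ∈ Om r, f π ^ 2 - N * m ^ 2))
      = N * (lam * (∑ π ∈ Om r, f π ^ 2 - N * m ^ 2)) := by ring
    _ ≤ _ := mul_le_mul_of_nonneg_left h1 hN.le

end spectral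

end Pool.Agent.Lib.MP_6d896a_gt
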