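import Mathlib
import Pool.Agent.Lib.MP_6d896a_gt.Spectral

/-!
The rates adapted to the logistic distribution.
-/

namespace Pool.Agent.Lib.MP_6d896a_gt

open Finset

lemma sqrt_one_add_le {a y : ℝ} (ha : 0 ≤ a) (hy : -1 ≤ y) :
    Real.sqrt (a * (1 + y)) ≤ Real.sqrt a * (1 + y / 2 - y ^ 2 / 8 + y ^ 3 / 16) := by
  have hp : 0 ≤ 1 + y / 2 - y ^ 2 / 8 + y ^ 3 / 16 := by
    nlinarith [sq_nonneg (y - 1), sq_nonneg (y + 1), mul_nonneg (by linarith : (0 : ℝ) ≤ y + 1)
      (sq_nonneg (y - 2)), mul_nonneg (by linarith : (0 : ℝ) ≤ y + 1) (sq_nonneg y)]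
  apply Real.sqrt_le_iff.mpr
  constructor
  · exact mul_nonneg (Real.sqrt_nonneg _) hp
  · rw [mul_pow, Real.sq_sqrt ha]
    apply mul_le_mul_of_nonneg_left _ ha
    have : (1 + y / 2 - y ^ 2 / 8 + y ^ 3 / 16) ^ 2 - (1 + y) =
        y ^ 4 / 256 * ((y - 2) ^ 2 + 16) := by ring
    have h2 : 0 ≤ y ^ 4 / 256 * ((y - 2) ^ 2 + 16) := by positivity
    linarith

/-- second difference of the square root of `x (m - x)` -/
lemma second_diff {m x : ℝ} (hx : 1 ≤ x) (hxm : x ≤ m - 1) :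
    Real.sqrt ((x + 1) * (m - (x + 1))) - 2 * Real.sqrt (x * (m - x)) +
      Real.sqrt ((x - 1) * (m - (x - 1))) ≤
      - (m ^ 2 / 4) * (1 / (x * (m - x) * Real.sqrt (x * (m - x)))) := by
  set a := x * (m - x) with ha
  have hmx : 1 ≤ m - x := by linarith
  have hapos : 0 < a := by rw [ha]; positivity
  set s := Real.sqrt a with hs
  have hspos : 0 < s := Real.sqrt_pos.mpr hapos
  set d := m - 2 * x with hd
  have hd2 : d ^ 2 = m ^ 2 - 4 * a := by rw [hd, ha]; ring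
  have e1 : (x + 1) * (m - (x + 1)) = a * (1 + (d - 1) / a) := by
    rw [mul_add, mul_div_cancel₀ _ hapos.ne', hd, ha]; ring
  have e2 : (x - 1) * (m - (x - 1)) = a * (1 + (-d - 1) / a) := by
    rw [mul_add, mul_div_cancel₀ _ hapos.ne', hd, ha]; ring
  have n1 : -1 ≤ (d - 1) / a := by
    rw [le_div_iff₀ hapos]
    have : 0 ≤ (x + 1) * (m - (x + 1)) := mul_nonneg (by linarith) (by linarith)
    have e : (x + 1) * (m - (x + 1)) = a + (d - 1) := by rw [hd, ha]; ring
    linarith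
  have n2 : -1 ≤ (-d - 1) / a := by
    rw [le_div_iff₀ hapos]
    have : 0 ≤ (x - 1) * (m - (x - 1)) := mul_nonneg (by linarith) (by linarith)
    have e : (x - 1) * (m - (x - 1)) = a + (-d - 1) := by rw [hd, ha]; ring
    linarith
  have h1 := sqrt_one_add_le hapos.le n1
  have h2 := sqrt_one_add_le hapos.le n2
  rw [← e1, ← hs] at h1
  rw [← e2, ← hs] at h2
  have h3 : s * (1 + (d - 1) / a / 2 - ((d - 1) / a) ^ 2 / 8 + ((d - 1) / a) ^ 3 / 16) +
      s * (1 + (-d - 1) / a / 2 - ((-d - 1) / a) ^ 2 / 8 + ((-d - 1) / a) ^ 3 / 16) =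
      2 * s - s * (m ^ 2 / (4 * a ^ 2)) - s * (1 / (4 * a ^ 2) + (6 * d ^ 2 + 2) / (16 * a ^ 3)) := by
    have hm : m ^ 2 = d ^ 2 + 4 * a := by linarith
    rw [hm]
    field_simp
    ring
  have h4 : 0 ≤ s * (1 / (4 * a ^ 2) + (6 * d ^ 2 + 2) / (16 * a ^ 3)) := by positivity
  have h5 : s * (m ^ 2 / (4 * a ^ 2)) = (m ^ 2 / 4) * (1 / (a * s)) := by
    have hsa : s * s = a := Real.mul_self_sqrt hapos.le
    field_simp
    nlinarith
  linarith

/-- the product of the two distances to the ends -/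
noncomputable def aa (M e : ℕ) : ℝ := if e < M then ((e : ℝ) + 1) * (M - e) else 1

lemma aa_pos (M e : ℕ) : 0 < aa M e := by
  unfold aa
  split_ifs with h
  · have : (e : ℝ) < M := by exact_mod_cast h
    have h2 : (0 : ℝ) < M - e := by linarith
    positivity
  · norm_num

/-- rates -/
noncomputable def ww (M e : ℕ) : ℝ := (aa M e / (M + 1)) ^ 2

/-- weights -/
noncomputable def vv (M e : ℕ) : ℝ := 1 / (aa M e * Real.sqrt (aa M e))

lemma ww_pos (M e : ℕ) : 0 < ww M e := by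
  unfold ww
  have := aa_pos M e
  positivity

lemma vv_pos (M e : ℕ) : 0 < vv M e := by
  unfold vv
  have := aa_pos M e
  have h2 := Real.sqrt_pos.mpr this
  positivity

lemma coef_eq (M j : ℕ) (hj : j ≤ M + 1) :
    coef M (ww M) (vv M) j = Real.sqrt ((j : ℝ) * ((M : ℝ) + 1 - j)) / ((M : ℝ) + 1) ^ 2 := by
  unfold coef
  split_ifs with h
  · rcases h with h | h
    · subst h; simp
    · have : j = M + 1 := by omega
      subst this
      simp
  · push Not at h
    obtain ⟨h0, h1⟩ := h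
    have ha : aa M (j - 1) = (j : ℝ) * ((M : ℝ) + 1 - j) := by
      unfold aa
      rw [if_pos (by omega)]
      rw [Nat.cast_sub (by omega)]
      push_cast
      ring
    have hp := aa_pos M (j - 1)
    rw [← ha]
    unfold ww vv
    have hs := Real.sqrt_pos.mpr hp
    have hsa : Real.sqrt (aa M (j - 1)) * Real.sqrt (aa M (j - 1)) = aa M (j - 1) :=
      Real.mul_self_sqrt hp.le
    field_simp
    nlinarith

lemma coef_cond (M : ℕ) : ∀ j < M, coef M (ww M) (vv M) (j + 2) -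
    2 * coef M (ww M) (vv M) (j + 1) + coef M (ww M) (vv M) j ≤ - (1 / 4) * vv M j := by
  intro j hj
  rw [coef_eq M (j + 2) (by omega), coef_eq M (j + 1) (by omega), coef_eq M j (by omega)]
  have hjM : (j : ℝ) + 1 ≤ M := by exact_mod_cast hj
  have h := second_diff (m := (M : ℝ) + 1) (x := (j : ℝ) + 1) (by linarith [Nat.cast_nonneg (α := ℝ) j])
    (by linarith)
  have ha : aa M j = ((j : ℝ) + 1) * ((M : ℝ) + 1 - ((j : ℝ) + 1)) := by
    unfold aa
    rw [if_pos hj]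
    ring
  unfold vv
  rw [ha]
  push_cast
  have e1 : ((j : ℝ) + 1 + 1) * ((M : ℝ) + 1 - ((j : ℝ) + 1 + 1)) =
    ((j : ℝ) + 2) * ((M : ℝ) + 1 - ((j : ℝ) + 2)) := by ring
  have e2 : ((j : ℝ) + 1 - 1) * ((M : ℝ) + 1 - ((j : ℝ) + 1 - 1)) =
    (j : ℝ) * ((M : ℝ) + 1 - j) := by ring
  rw [e1, e2] at h
  have hM : (0 : ℝ) < (M + 1) ^ 2 := by positivity
  have h2 := div_le_div_of_nonneg_right h hM.le
  refine le_trans (le_of_eq ?_) (le_trans h2 (le_of_eq ?_))
  · ring
  · field_simp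

/-- the discrete Poincare inequality with the logistic rates -/
theorem poincare_logistic_chain {M : ℕ} (r : Fin (M + 1) → Fin (M + 1) → Prop)
    [DecidablePred (Valid r)] (f : Equiv.Perm (Fin (M + 1)) → ℝ) :
    (1 / 4) * ((Om r).card * ∑ π ∈ Om r, f π ^ 2 - (∑ π ∈ Om r, f π) ^ 2) ≤
      (Om r).card * ((1 / 2) * ∑ π ∈ Om r, ∑ e : Fin M, ww M e *
        (if Valid r (adj e * π) then (f (adj e * π) - f π) ^ 2 else 0)) :=
  poincare_chain r (ww M) (vv M) (1 / 4) (ww_pos M) (vv_pos M) (coef_cond M) f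

/-- grid points: logistic quantiles -/
noncomputable def tt (M k : ℕ) : ℝ := Real.log (((k : ℝ) + 1) / ((M : ℝ) + 1 - k))

lemma tt_step (M k : ℕ) (hk : k < M) :
    0 < tt M (k + 1) - tt M k ∧ ww M k * (tt M (k + 1) - tt M k) ^ 2 ≤ 1 := by
  have hkM : (k : ℝ) + 1 ≤ M := by exact_mod_cast hk
  have hk0 : (0 : ℝ) ≤ k := Nat.cast_nonneg k
  have p1 : (0 : ℝ) < (k : ℝ) + 1 := by linarith
  have p2 : (0 : ℝ) < (M : ℝ) - k := by linarith
  have p3 : (0 : ℝ) < (M : ℝ) + 1 - k := by linarith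
  have e : tt M (k + 1) - tt M k = Real.log (1 + 1 / ((k : ℝ) + 1)) +
      Real.log (1 + 1 / ((M : ℝ) - k)) := by
    unfold tt
    have p4 : (0 : ℝ) < (M : ℝ) + 1 - ((k + 1 : ℕ) : ℝ) := by push_cast; linarith
    rw [← Real.log_div (by positivity) (by positivity), ← Real.log_mul (by positivity)
      (by positivity)]
    congr 1
    push_cast
    have : (M : ℝ) + 1 - (k + 1) = M - k := by ring
    rw [this]
    field_simp
    ring
  have l1 : Real.log (1 + 1 / ((k : ℝ) + 1)) ≤ 1 / ((k : ℝ) + 1) := by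
    have := Real.log_le_sub_one_of_pos (show (0 : ℝ) < 1 + 1 / ((k : ℝ) + 1) by positivity)
    linarith
  have l2 : Real.log (1 + 1 / ((M : ℝ) - k)) ≤ 1 / ((M : ℝ) - k) := by
    have := Real.log_le_sub_one_of_pos (show (0 : ℝ) < 1 + 1 / ((M : ℝ) - k) by positivity)
    linarith
  have g1 : 0 < Real.log (1 + 1 / ((k : ℝ) + 1)) := Real.log_pos (by
    have : 0 < 1 / ((k : ℝ) + 1) := by positivity
    linarith)
  have g2 : 0 < Real.log (1 + 1 / ((M : ℝ) - k)) := Real.log_pos (by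
    have : 0 < 1 / ((M : ℝ) - k) := by positivity
    linarith)
  constructor
  · rw [e]; positivity
  · unfold ww aa
    rw [if_pos hk, ← mul_pow]
    have h1 : 0 ≤ ((k : ℝ) + 1) * (M - k) / (M + 1) * (tt M (k + 1) - tt M k) := by
      rw [e]; positivity
    have h2 : ((k : ℝ) + 1) * (M - k) / (M + 1) * (tt M (k + 1) - tt M k) ≤ 1 := by
      rw [e]
      calc ((k : ℝ) + 1) * (M - k) / (M + 1) * (Real.log (1 + 1 / ((k : ℝ) + 1)) +
            Real.log (1 + 1 / ((M : ℝ) - k)))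
          ≤ ((k : ℝ) + 1) * (M - k) / (M + 1) * (1 / ((k : ℝ) + 1) + 1 / ((M : ℝ) - k)) := by
            apply mul_le_mul_of_nonneg_left (by linarith) (by positivity)
        _ = 1 := by
            field_simp
            ring
    exact pow_le_one₀ h1 h2

end Pool.Agent.Lib.MP_6d896a_gt
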