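import Mathlib
import Pool.Agent.Lib.MP_6d896a_gt.BRefl
import Pool.Agent.Lib.MP_6d896a_gt.Rates

/-!
Discrete part for signed order constraints: a chain of labelled particles on an even number of
sites, with moves symmetric under the reversal of the sites.
-/

namespace Pool.Agent.Lib.MP_6d896a_gt

open Finset

variable {n M : ℕ}

/-- type B reflection on the sites -/
def TB (x y z : Fin (M + 1)) : Fin (M + 1) :=
  ⟨tv M x y z, Nat.lt_succ_of_le (tv_le (by omega) (by omega) (by omega))⟩

lemma TB_val (x y z : Fin (M + 1)) : (TB x y z : ℕ) = tv M x y z := rfl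

lemma rev_val (z : Fin (M + 1)) : (z.rev : ℕ) = M - z := by
  rw [Fin.val_rev]; omega

lemma TB_TB (hM : M % 2 = 1) {x y : Fin (M + 1)} (hxy : x < y) (z : Fin (M + 1)) :
    TB x y (TB x y z) = z := by
  apply Fin.ext
  rw [TB_val, TB_val]
  exact tv_tv hM hxy (by omega) (by omega)

lemma TB_inj (hM : M % 2 = 1) {x y : Fin (M + 1)} (hxy : x < y) :
    Function.Injective (TB x y) := by
  intro a b h
  rw [← TB_TB hM hxy a, h, TB_TB hM hxy]

lemma TB_rev (hM : M % 2 = 1) {x y : Fin (M + 1)} (hxy : x < y) (z : Fin (M + 1)) :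
    TB x y z.rev = (TB x y z).rev := by
  apply Fin.ext
  rw [TB_val, rev_val, rev_val, TB_val]
  exact tv_rev hM hxy (by omega) (by omega)

/-- signed position -/
def ps (k : Fin n → Fin (M + 1)) (u : Fin n × Bool) : Fin (M + 1) :=
  if u.2 then k u.1 else (k u.1).rev

/-- positions are pairwise different up to reversal -/
def BInj (k : Fin n → Fin (M + 1)) : Prop := Function.Injective k ∧ ∀ i j, k i ≠ (k j).rev

/-- admissible tuples -/
def VB (r : Fin n × Bool → Fin n × Bool → Prop) (k : Fin n → Fin (M + 1)) : Prop :=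
  BInj k ∧ ∀ u v, r u v → ps k u < ps k v

/-- action of a reflection on tuples -/
def tb (x y : Fin (M + 1)) (k : Fin n → Fin (M + 1)) : Fin n → Fin (M + 1) := fun i => TB x y (k i)

/-- the simple move at an edge -/
def mv (e : Fin M) (k : Fin n → Fin (M + 1)) : Fin n → Fin (M + 1) := tb e.castSucc e.succ k

lemma tb_tb (hM : M % 2 = 1) {x y : Fin (M + 1)} (hxy : x < y) (k : Fin n → Fin (M + 1)) :
    tb x y (tb x y k) = k := funext fun i => TB_TB hM hxy (k i)

lemma mv_mv (hM : M % 2 = 1) (e : Fin M) (k : Fin n → Fin (M + 1)) : mv e (mv e k) = k :=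
  tb_tb hM Fin.castSucc_lt_succ k

lemma ps_tb (hM : M % 2 = 1) {x y : Fin (M + 1)} (hxy : x < y) (k : Fin n → Fin (M + 1))
    (u : Fin n × Bool) : ps (tb x y k) u = TB x y (ps k u) := by
  unfold ps
  split_ifs
  · rfl
  · rw [TB_rev hM hxy]; rfl

lemma BInj_tb (hM : M % 2 = 1) {x y : Fin (M + 1)} (hxy : x < y) {k : Fin n → Fin (M + 1)}
    (hk : BInj k) : BInj (tb x y k) := by
  refine ⟨(TB_inj hM hxy).comp hk.1, fun i j h => ?_⟩
  apply hk.2 i j
  apply TB_inj hM hxy
  rw [TB_rev hM hxy]
  exact h

/-- the forbidden pairs of positions for the move at `e` -/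
def bad (M : ℕ) (e p q : ℕ) : Prop := (p = e ∧ q = e + 1) ∨ (p + e + 1 = M ∧ q + e = M)

lemma VB_mv (hM : M % 2 = 1) {r : Fin n × Bool → Fin n × Bool → Prop} {k : Fin n → Fin (M + 1)}
    (hk : VB r k) (e : Fin M) :
    VB r (mv e k) ↔ ¬ ∃ u v, r u v ∧ bad M e (ps k u) (ps k v) := by
  have hcs : e.castSucc < e.succ := Fin.castSucc_lt_succ
  have hce : (e.castSucc : ℕ) = e := rfl
  have hse : (e.succ : ℕ) = e + 1 := rfl
  constructor
  · rintro ⟨_, h⟩ ⟨u, v, huv, hb⟩
    have h1 := h u v huv
    have h2 : (ps k u : ℕ) < ps k v := hk.2 u v huv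
    unfold mv at h1
    rw [ps_tb hM hcs, ps_tb hM hcs, Fin.lt_def, TB_val, TB_val, hce, hse] at h1
    have h3 := sv_val (M := M) (z := ps k u) (e := e) hM (by omega) e.2
    have h4 := sv_val (M := M) (z := ps k v) (e := e) hM (by omega) e.2
    have h5 := e.2
    unfold bad at hb
    unfold dd at h3 h4
    split_ifs at h3 h4 <;> omega
  · intro h
    refine ⟨BInj_tb hM hcs hk.1, fun u v huv => ?_⟩
    unfold mv
    rw [ps_tb hM hcs, ps_tb hM hcs, Fin.lt_def, TB_val, TB_val, hce, hse]
    apply sv_lt hM (hk.2 u v huv) (by omega) e.2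
    · intro hc
      exact h ⟨u, v, huv, Or.inl hc⟩
    · intro hc
      exact h ⟨u, v, huv, Or.inr hc⟩

lemma conj_tv {M : ℕ} {s : ℕ → ℕ} (hs : ∀ a b, a ≤ M → b ≤ M → s a = s b → a = b)
    (hle : ∀ a, a ≤ M → s a ≤ M) (hrev : ∀ a, a ≤ M → s (M - a) = M - s a)
    {x y z : ℕ} (hx : x ≤ M) (hy : y ≤ M) (hz : z ≤ M) :
    s (tv M x y z) = tv M (s x) (s y) (s z) := by
  unfold tv
  by_cases h1 : z = x
  · rw [if_pos h1, if_pos (by rw [h1])]
  · have h1' : s z ≠ s x := fun h => h1 (hs _ _ hz hx h)
    rw [if_neg h1, if_neg h1']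
    by_cases h2 : z = y
    · rw [if_pos h2, if_pos (by rw [h2])]
    · have h2' : s z ≠ s y := fun h => h2 (hs _ _ hz hy h)
      rw [if_neg h2, if_neg h2']
      have e1 : z + x = M ↔ s z + s x = M := by
        constructor
        · intro h
          have : z = M - x := by omega
          rw [this, hrev x hx]
          have := hle x hx
          omega
        · intro h
          have h3 : s z = s (M - x) := by rw [hrev x hx]; omega
          have := hs _ _ hz (by omega) h3
          omega
      have e2 : z + y = M ↔ s z + s y = M := by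
        constructor
        · intro h
          have : z = M - y := by omega
          rw [this, hrev y hy]
          have := hle y hy
          omega
        · intro h
          have h3 : s z = s (M - y) := by rw [hrev y hy]; omega
          have := hs _ _ hz (by omega) h3
          omega
      by_cases h3 : z + x = M
      · rw [if_pos h3, if_pos (e1.mp h3), hrev y hy]
      · rw [if_neg h3, if_neg (fun h => h3 (e1.mpr h))]
        by_cases h4 : z + y = M
        · rw [if_pos h4, if_pos (e2.mp h4), hrev x hx]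
        · rw [if_neg h4, if_neg (fun h => h4 (e2.mpr h))]

/-- conjugation of a reflection by a simple one -/
lemma mv_tb (hM : M % 2 = 1) (e : Fin M) (x y : Fin (M + 1)) (k : Fin n → Fin (M + 1)) :
    mv e (tb x y k) = tb (TB e.castSucc e.succ x) (TB e.castSucc e.succ y) (mv e k) := by
  have hcs : (e.castSucc : ℕ) < e.succ := Fin.castSucc_lt_succ
  funext i
  apply Fin.ext
  show tv M e.castSucc e.succ (tv M x y (k i)) = tv M (tv M e.castSucc e.succ x)
    (tv M e.castSucc e.succ y) (tv M e.castSucc e.succ (k i))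
  apply conj_tv (s := fun z => tv M e.castSucc e.succ z)
  · intro a b ha hb h
    have h1 := tv_tv hM hcs (by omega) ha
    have h2 := tv_tv hM hcs (by omega) hb
    rw [← h1, h, h2]
  · intro a ha
    exact tv_le (by omega) (by omega) ha
  · intro a ha
    exact tv_rev hM hcs (by omega) ha
  · omega
  · omega
  · omega

/-- cumulated weights -/
def WW (v : ℕ → ℝ) (x : ℕ) : ℝ := ∑ j ∈ range x, v j

lemma WW_lt {v : ℕ → ℝ} (hv : ∀ j, 0 < v j) {x y : ℕ} (h : x < y) : WW v x < WW v y := by
  unfold WW
  rw [← Finset.sum_range_add_sum_Ico _ h.le]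
  have : 0 < ∑ j ∈ Ico x y, v j := Finset.sum_pos (fun j _ => hv j) (by simpa using h)
  linarith

lemma WW_sv {v : ℕ → ℝ} {M e z : ℕ} (hM : M % 2 = 1) (hsym : v (M - 1 - e) = v e)
    (he : e < M) (hz : z ≤ M) :
    WW v (tv M e (e + 1) z) = WW v z + v e * (dd M z e : ℤ) := by
  unfold tv dd WW
  by_cases h1 : z = e
  · subst h1
    rw [if_pos rfl, if_pos rfl, if_neg (by omega), Finset.sum_range_succ]
    by_cases h2 : 2 * z + 1 = M
    · rw [if_pos h2]; push_cast; ring
    · rw [if_neg h2, if_neg (by omega), if_neg (by omega)]; push_cast; ring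
  · rw [if_neg h1, if_neg h1]
    by_cases h2 : z = e + 1
    · subst h2
      rw [if_pos rfl, if_pos rfl, Finset.sum_range_succ]
      by_cases h3 : 2 * e + 1 = M
      · rw [if_pos h3]; push_cast; ring
      · rw [if_neg h3, if_neg (by omega), if_neg (by omega)]; push_cast; ring
    · rw [if_neg h2, if_neg h2]
      by_cases h3 : z + e = M
      · rw [if_pos h3, if_neg (by omega), if_neg (by omega), if_pos h3]
        have e1 : z = (M - (e + 1)) + 1 := by omega
        have e2 : M - (e + 1) = M - 1 - e := by omega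
        rw [e1, Finset.sum_range_succ, e2, hsym]
        push_cast
        ring
      · rw [if_neg h3]
        by_cases h4 : z + (e + 1) = M
        · rw [if_pos h4, if_neg (by omega), if_pos (by omega), if_neg h3]
          have e1 : M - e = z + 1 := by omega
          have e2 : z = M - 1 - e := by omega
          rw [e1, Finset.sum_range_succ]
          rw [show v z = v e by rw [e2, hsym]]
          push_cast
          ring
        · rw [if_neg h4]
          by_cases h5 : 2 * e + 1 = M
          · rw [if_pos h5]; push_cast; ring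
          · rw [if_neg h5, if_neg (by omega), if_neg h3]; push_cast; ring

set_option maxHeartbeats 4000000 in
/-- the local estimate at one edge -/
lemma bracket_B (hM : M % 2 = 1) {r : Fin n × Bool → Fin n × Bool → Prop}
    [DecidablePred (VB r : (Fin n → Fin (M + 1)) → Prop)]
    (v : ℕ → ℝ) (hv : ∀ j, 0 < v j) (hsym : ∀ e, e < M → v (M - 1 - e) = v e)
    (f : (Fin n → Fin (M + 1)) → ℝ) (K : ℝ) (hK : 0 ≤ K)
    (hbd : ∀ (k : Fin n → Fin (M + 1)) (p q : Fin (M + 1)), p < q → VB r k →
      VB r (tb p q k) → |f (tb p q k) - f k| ≤ K * (WW v q - WW v p))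
    (k : Fin n → Fin (M + 1)) (p q : Fin (M + 1)) (hpq : p < q) (hk : VB r k)
    (hk' : VB r (tb p q k)) (hD : f (tb p q k) - f k = K * (WW v q - WW v p)) (e : Fin M) :
    K * (v e * ((dd M p e : ℤ) - (dd M q e : ℤ))) ≤
    (if VB r (mv e (tb p q k)) then f (tb p q k) - f (mv e (tb p q k)) else 0)
      - (if VB r (mv e k) then f k - f (mv e k) else 0) := by
  have hcs : e.castSucc < e.succ := Fin.castSucc_lt_succ
  have hce : (e.castSucc : ℕ) = e := rfl
  have hse : (e.succ : ℕ) = e + 1 := rfl
  have hve : 0 ≤ K * v e := mul_nonneg hK (hv e).le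
  have hadj : ∀ τ : Fin n → Fin (M + 1), VB r τ → VB r (mv e τ) →
      |f (mv e τ) - f τ| ≤ K * v e := by
    intro τ h1 h2
    have := hbd τ e.castSucc e.succ hcs h1 h2
    have e1 : WW v (e.succ : ℕ) - WW v (e.castSucc : ℕ) = v e := by
      rw [hce, hse]; unfold WW; rw [Finset.sum_range_succ]; ring
    rwa [e1] at this
  by_cases hty : ((p : ℕ) = e ∧ (q : ℕ) = e + 1) ∨ ((p : ℕ) + e + 1 = M ∧ (q : ℕ) + e = M)
  · -- the reflection is the simple one
    have h1 : ∀ τ : Fin n → Fin (M + 1), tb p q τ = mv e τ := by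
      intro τ
      funext i
      apply Fin.ext
      exact tv_eq_sv hM hpq (by omega) e.2 (by omega) hty
    have h2 : mv e (tb p q k) = k := by rw [h1, mv_mv hM]
    rw [h2, if_pos hk, ← h1, if_pos hk']
    have h3 : WW v (q : ℕ) - WW v (p : ℕ) = v e := by
      rcases hty with ⟨a, b⟩ | ⟨a, b⟩
      · rw [a, b]; unfold WW; rw [Finset.sum_range_succ]; ring
      · have e1 : (q : ℕ) = p + 1 := by omega
        have e2 : (p : ℕ) = M - 1 - e := by omega
        rw [e1]
        unfold WW
        rw [Finset.sum_range_succ, e2, hsym e e.2]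
        ring
    rw [h3] at hD
    have h4 : dd M p e - dd M q e = 2 := by
      have := e.2
      unfold dd
      split_ifs <;> omega
    have h5 : ((dd M p e : ℤ) : ℝ) - (dd M q e : ℤ) = 2 := by exact_mod_cast h4
    rw [h5]
    linarith
  · push Not at hty
    have hty1 : ¬ ((p : ℕ) = e ∧ (q : ℕ) = e + 1) := fun h => hty.1 h.1 h.2
    have hty2 : ¬ ((p : ℕ) + e + 1 = M ∧ (q : ℕ) + e = M) := fun h => hty.2 h.1 h.2
    set p' := TB e.castSucc e.succ p with hp'
    set q' := TB e.castSucc e.succ q with hq'
    have hpq' : p' < q' := by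
      rw [Fin.lt_def, hp', hq', TB_val, TB_val, hce, hse]
      exact sv_lt hM hpq (by omega) e.2 hty1 hty2
    have hconj := mv_tb hM e p q k
    have hW : WW v (q' : ℕ) - WW v (p' : ℕ) = WW v (q : ℕ) - WW v (p : ℕ) -
        v e * ((dd M p e : ℤ) - (dd M q e : ℤ)) := by
      rw [hp', hq', TB_val, TB_val, hce, hse, WW_sv hM (hsym e e.2) e.2 (by omega),
        WW_sv hM (hsym e e.2) e.2 (by omega)]
      ring
    -- both moves allowed
    have hboth : VB r (mv e k) → VB r (mv e (tb p q k)) →
        K * (v e * ((dd M p e : ℤ) - (dd M q e : ℤ))) ≤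
          (f (tb p q k) - f (mv e (tb p q k))) - (f k - f (mv e k)) := by
      intro h1 h2
      have hb := hbd (mv e k) p' q' hpq' h1 (by rw [← hconj]; exact h2)
      rw [← hconj, hW] at hb
      have := (abs_le.mp hb).2
      nlinarith
    have hinv : ∀ u : Fin n × Bool, ∀ a : ℕ, (TB p q (ps k u) : ℕ) = a →
        (ps k u : ℕ) = tv M p q a := by
      intro u a h
      have h1 := tv_tv hM hpq (by omega) (show (ps k u : ℕ) ≤ M by omega)
      rw [← h, TB_val]
      exact h1.symm
    have heM := e.2
    rcases lt_trichotomy (0 : ℤ) (dd M p e - dd M q e) with hc | hc | hc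
    · -- positive: both moves are allowed
      have hdesc := tv_desc hM hpq (by omega) e.2 hty1 hty2 hc
      have hte := tv_le (M := M) (x := p) (y := q) (z := e) (by omega) (by omega) (by omega)
      have hte' := tv_le (M := M) (x := p) (y := q) (z := e + 1) (by omega) (by omega) (by omega)
      have r1 := tv_rev (x := p) (y := q) (z := e) hM hpq (by omega) (by omega)
      have r2 := tv_rev (x := p) (y := q) (z := e + 1) hM hpq (by omega) (by omega)
      have h1 : VB r (mv e k) := by
        rw [VB_mv hM hk]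
        rintro ⟨u, w, huw, hb⟩
        have h2 := hk'.2 u w huw
        rw [ps_tb hM hpq, ps_tb hM hpq, Fin.lt_def, TB_val, TB_val] at h2
        rcases hb with ⟨a, b⟩ | ⟨a, b⟩
        · rw [a, b] at h2; exact hdesc h2
        · have a' : (ps k u : ℕ) = M - (e + 1) := by omega
          have b' : (ps k w : ℕ) = M - e := by omega
          rw [a', b', r1, r2] at h2
          omega
      have h2 : VB r (mv e (tb p q k)) := by
        rw [VB_mv hM hk']
        rintro ⟨u, w, huw, hb⟩
        rw [ps_tb hM hpq, ps_tb hM hpq] at hb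
        have h3 : (ps k u : ℕ) < ps k w := hk.2 u w huw
        rcases hb with ⟨a, b⟩ | ⟨a, b⟩
        · rw [hinv u _ a, hinv w _ b] at h3; exact hdesc h3
        · have a' : (TB p q (ps k u) : ℕ) = M - (e + 1) := by omega
          have b' : (TB p q (ps k w) : ℕ) = M - e := by omega
          rw [hinv u _ a', hinv w _ b', r1, r2] at h3
          omega
      rw [if_pos h1, if_pos h2]
      exact hboth h1 h2
    · -- zero
      have hfix := tv_fix hM hpq (by omega) e.2 hc.symm
      have r1 := tv_rev (x := p) (y := q) (z := e) hM hpq (by omega) (by omega)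
      have r2 := tv_rev (x := p) (y := q) (z := e + 1) hM hpq (by omega) (by omega)
      have r3 := tv_tv hM hpq (by omega) (show (e : ℕ) ≤ M by omega)
      have r4 := tv_tv hM hpq (by omega) (show (e : ℕ) + 1 ≤ M by omega)
      have hiff : VB r (mv e k) ↔ VB r (mv e (tb p q k)) := by
        rw [VB_mv hM hk, VB_mv hM hk', not_iff_not]
        constructor
        · rintro ⟨u, w, huw, hb⟩
          refine ⟨u, w, huw, ?_⟩
          rw [ps_tb hM hpq, ps_tb hM hpq, TB_val, TB_val]
          unfold bad at hb ⊢
          rcases hb with ⟨a, b⟩ | ⟨a, b⟩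
          · rw [a, b]; omega
          · have a' : (ps k u : ℕ) = M - (e + 1) := by omega
            have b' : (ps k w : ℕ) = M - e := by omega
            rw [a', b', r1, r2]
            omega
        · rintro ⟨u, w, huw, hb⟩
          refine ⟨u, w, huw, ?_⟩
          rw [ps_tb hM hpq, ps_tb hM hpq] at hb
          unfold bad at hb ⊢
          rcases hb with ⟨a, b⟩ | ⟨a, b⟩
          · rw [hinv u _ a, hinv w _ b]; omega
          · have a' : (TB p q (ps k u) : ℕ) = M - (e + 1) := by omega
            have b' : (TB p q (ps k w) : ℕ) = M - e := by omega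
            rw [hinv u _ a', hinv w _ b', r1, r2]
            omega
      by_cases h1 : VB r (mv e k)
      · rw [if_pos h1, if_pos (hiff.mp h1)]
        exact hboth h1 (hiff.mp h1)
      · rw [if_neg h1, if_neg (fun h => h1 (hiff.mpr h))]
        have h5 : ((dd M p e : ℤ) : ℝ) - (dd M q e : ℤ) = 0 := by exact_mod_cast hc.symm
        rw [h5]; simp
    · -- negative
      have h5 : ((dd M p e : ℤ) : ℝ) - (dd M q e : ℤ) ≤ -1 := by
        have : dd M p e - dd M q e ≤ -1 := by omega
        exact_mod_cast this
      have h6 : K * (v e * (((dd M p e : ℤ) : ℝ) - (dd M q e : ℤ))) ≤ - (K * v e) := by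
        nlinarith
      by_cases h1 : VB r (mv e k)
      · by_cases h2 : VB r (mv e (tb p q k))
        · rw [if_pos h1, if_pos h2]; exact hboth h1 h2
        · rw [if_pos h1, if_neg h2]
          have := abs_le.mp (hadj k hk h1)
          linarith
      · by_cases h2 : VB r (mv e (tb p q k))
        · rw [if_neg h1, if_pos h2]
          have := abs_le.mp (hadj _ hk' h2)
          linarith
        · rw [if_neg h1, if_neg h2]
          linarith

end Pool.Agent.Lib.MP_6d896a_gt
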