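import Mathlib
import Pool.Agent.Lib.MP_6d896a_gt.ChainB

/-!
Connectedness and the eigenvalue bound for the symmetric chain.
-/

namespace Pool.Agent.Lib.MP_6d896a_gt

open Finset

variable {n M : ℕ}

/-! ### connectedness -/

/-- centred coordinate -/
def zc (M : ℕ) (c : Fin (M + 1)) : ℤ := 2 * (c : ℤ) - M

lemma zc_rev (c : Fin (M + 1)) : zc M c.rev = - zc M c := by
  unfold zc
  rw [rev_val]
  omega

/-- two full states -/
lemma conn_full (hM : M % 2 = 1) {N : ℕ} (hN : 2 * N = M + 1)
    {r : Fin N × Bool → Fin N × Bool → Prop}
    (f : (Fin N → Fin (M + 1)) → ℝ)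
    (hf : ∀ k, VB r k → ∀ e : Fin M, VB r (mv e k) → f (mv e k) = f k)
    {k σ : Fin N → Fin (M + 1)} (hk : VB r k) (hσ : VB r σ) : f k = f σ := by
  classical
  let Φ : (Fin N → Fin (M + 1)) → ℤ := fun k => ∑ a, zc M (k a) * zc M (σ a)
  let A : Finset (Fin N → Fin (M + 1)) := univ.filter fun k' => VB r k' ∧ f k' = f k
  have hA : A.Nonempty := ⟨k, by simp [A, hk]⟩
  obtain ⟨τ, hτ, hmax⟩ := A.exists_max_image Φ hA
  have hτ' : VB r τ ∧ f τ = f k := by simpa [A] using hτ
  -- every site carries a signed label
  have hbij : ∀ κ : Fin N → Fin (M + 1), BInj κ → Function.Bijective (fun u : Fin N × Bool => ps κ u) := by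
    intro κ hκ
    have hinj : Function.Injective (fun u : Fin N × Bool => ps κ u) := by
      rintro ⟨i, b⟩ ⟨j, c⟩ h
      simp only [ps] at h
      cases b <;> cases c
      · simp only [Bool.false_eq_true, if_false] at h
        have := hκ.1 (Fin.rev_injective h)
        rw [this]
      · simp only [Bool.false_eq_true, if_false, if_true] at h
        exact absurd h.symm (hκ.2 j i)
      · simp only [Bool.false_eq_true, if_false, if_true] at h
        exact absurd h (hκ.2 i j)
      · simp only [if_true] at h
        rw [hκ.1 h]
    rw [Fintype.bijective_iff_injective_and_card]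
    refine ⟨hinj, ?_⟩
    rw [Fintype.card_prod, Fintype.card_fin, Fintype.card_bool, Fintype.card_fin]
    omega
  have hbτ := hbij τ hτ'.1.1
  have hbσ := hbij σ hσ.1
  let eτ : Fin N × Bool ≃ Fin (M + 1) := Equiv.ofBijective _ hbτ
  have heτ : ∀ u, eτ u = ps τ u := fun u => rfl
  have key : ∀ e : Fin M, ps σ (eτ.symm e.castSucc) < ps σ (eτ.symm e.succ) := by
    intro e
    by_contra hcon
    rw [not_lt] at hcon
    set u := eτ.symm e.castSucc with hu
    set w := eτ.symm e.succ with hw
    have hpu : ps τ u = e.castSucc := by rw [← heτ, hu, Equiv.apply_symm_apply]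
    have hpw : ps τ w = e.succ := by rw [← heτ, hw, Equiv.apply_symm_apply]
    have hne : u ≠ w := by
      intro h
      rw [h, hpw] at hpu
      have := congrArg Fin.val hpu
      simp at this
    have hlt : ps σ w < ps σ u := by
      refine lt_of_le_of_ne hcon fun h => hne ?_
      exact (hbσ.1 h).symm
    have hps_neg : ∀ (κ : Fin N → Fin (M + 1)) (x : Fin N × Bool), ps κ (x.1, !x.2) = (ps κ x).rev := by
      intro κ x
      unfold ps
      rcases x with ⟨i, b⟩
      cases b <;> simp
    have hv : VB r (mv e τ) := by
      rw [VB_mv hM hτ'.1]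
      rintro ⟨x, y, hxy, hb⟩
      have hσxy := hσ.2 x y hxy
      rcases hb with ⟨a, b⟩ | ⟨a, b⟩
      · have hx : x = u := hbτ.1 (by
          show ps τ x = ps τ u
          rw [hpu]; exact Fin.ext a)
        have hy : y = w := hbτ.1 (by
          show ps τ y = ps τ w
          rw [hpw]; exact Fin.ext b)
        rw [hx, hy] at hσxy
        exact absurd hσxy (not_lt.mpr hcon)
      · have hx : x = (w.1, !w.2) := hbτ.1 (by
          show ps τ x = ps τ (w.1, !w.2)
          rw [hps_neg, hpw]
          apply Fin.ext
          rw [rev_val, Fin.val_succ]; omega)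
        have hy : y = (u.1, !u.2) := hbτ.1 (by
          show ps τ y = ps τ (u.1, !u.2)
          rw [hps_neg, hpu]
          apply Fin.ext
          rw [rev_val, Fin.val_castSucc]; omega)
        rw [hx, hy, hps_neg, hps_neg] at hσxy
        have h1 : (ps σ u) < ps σ w := Fin.rev_lt_rev.mp hσxy
        exact absurd h1 (not_lt.mpr hcon)
    have hmem : mv e τ ∈ A := by
      simp only [A, mem_filter, mem_univ, true_and]
      exact ⟨hv, (hf τ hτ'.1 e hv).trans hτ'.2⟩
    have h1 := hmax _ hmem
    -- the potential increases
    have hdd : ∀ a, zc M (mv e τ a) = zc M (τ a) + 2 * dd M (τ a) e := by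
      intro a
      have := sv_val (M := M) (z := τ a) (e := e) hM (by omega) e.2
      show 2 * ((tv M e (e + 1) (τ a) : ℕ) : ℤ) - M = _
      rw [this]
      unfold zc
      ring
    have h2 : Φ (mv e τ) - Φ τ = ∑ a, 2 * dd M (τ a) e * zc M (σ a) := by
      simp only [Φ]
      rw [← Finset.sum_sub_distrib]
      apply Finset.sum_congr rfl
      intro a _
      rw [hdd]
      ring
    have h3 : ∀ a, dd M (τ a) e * zc M (σ a) =
        (if (a, true) = u then zc M (ps σ u) else 0) - (if (a, true) = w then zc M (ps σ w) else 0)
        + (if 2 * (e : ℕ) + 1 = M then 0 else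
          (if (a, false) = u then zc M (ps σ u) else 0) -
          (if (a, false) = w then zc M (ps σ w) else 0)) := by
      intro a
      have i1 : (a, true) = u ↔ (τ a : ℕ) = e := by
        rw [← hbτ.1.eq_iff]
        show ps τ (a, true) = ps τ u ↔ _
        rw [hpu, Fin.ext_iff]
        simp [ps]
      have i2 : (a, true) = w ↔ (τ a : ℕ) = e + 1 := by
        rw [← hbτ.1.eq_iff]
        show ps τ (a, true) = ps τ w ↔ _
        rw [hpw, Fin.ext_iff]
        simp [ps]
      have i3 : (a, false) = u ↔ (τ a : ℕ) + e = M := by
        rw [← hbτ.1.eq_iff]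
        show ps τ (a, false) = ps τ u ↔ _
        rw [hpu, Fin.ext_iff]
        simp only [ps, Bool.false_eq_true, if_false, rev_val, Fin.val_castSucc]
        omega
      have i4 : (a, false) = w ↔ (τ a : ℕ) + e + 1 = M := by
        rw [← hbτ.1.eq_iff]
        show ps τ (a, false) = ps τ w ↔ _
        rw [hpw, Fin.ext_iff]
        simp only [ps, Bool.false_eq_true, if_false, rev_val, Fin.val_succ]
        omega
      have j1 : (a, true) = u → zc M (ps σ u) = zc M (σ a) := fun h => by rw [← h]; simp [ps]
      have j2 : (a, true) = w → zc M (ps σ w) = zc M (σ a) := fun h => by rw [← h]; simp [ps]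
      have j3 : (a, false) = u → zc M (ps σ u) = - zc M (σ a) := fun h => by
        rw [← h]; simp [ps, zc_rev]
      have j4 : (a, false) = w → zc M (ps σ w) = - zc M (σ a) := fun h => by
        rw [← h]; simp [ps, zc_rev]
      have k1 : (if (a, true) = u then zc M (ps σ u) else 0) =
          (if (τ a : ℕ) = e then 1 else 0) * zc M (σ a) := by
        by_cases h : (a, true) = u
        · rw [if_pos h, if_pos (i1.mp h), j1 h, one_mul]
        · rw [if_neg h, if_neg (fun h' => h (i1.mpr h')), zero_mul]
      have k2 : (if (a, true) = w then zc M (ps σ w) else 0) =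
          (if (τ a : ℕ) = e + 1 then 1 else 0) * zc M (σ a) := by
        by_cases h : (a, true) = w
        · rw [if_pos h, if_pos (i2.mp h), j2 h, one_mul]
        · rw [if_neg h, if_neg (fun h' => h (i2.mpr h')), zero_mul]
      have k3 : (if (a, false) = u then zc M (ps σ u) else 0) =
          - ((if (τ a : ℕ) + e = M then 1 else 0) * zc M (σ a)) := by
        by_cases h : (a, false) = u
        · rw [if_pos h, if_pos (i3.mp h), j3 h, one_mul]
        · rw [if_neg h, if_neg (fun h' => h (i3.mpr h')), zero_mul, neg_zero]
      have k4 : (if (a, false) = w then zc M (ps σ w) else 0) =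
          - ((if (τ a : ℕ) + e + 1 = M then 1 else 0) * zc M (σ a)) := by
        by_cases h : (a, false) = w
        · rw [if_pos h, if_pos (i4.mp h), j4 h, one_mul]
        · rw [if_neg h, if_neg (fun h' => h (i4.mpr h')), zero_mul, neg_zero]
      rw [k1, k2, k3, k4]
      unfold dd
      by_cases hcen : 2 * (e : ℕ) + 1 = M
      · rw [if_pos hcen, if_pos hcen]; ring
      · rw [if_neg hcen, if_neg hcen]; ring
    have hone : ∀ (x : Fin N × Bool) (c : ℤ), ∑ a : Fin N, (if (a, true) = x then c else 0) +
        ∑ a : Fin N, (if (a, false) = x then c else 0) = c := by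
      rintro ⟨i, b⟩ c
      cases b
      · have h5 : ∀ a : Fin N, (if (a, true) = (i, false) then c else 0) = 0 := by
          intro a; rw [if_neg]; simp
        have h6 : ∀ a : Fin N, (if (a, false) = (i, false) then c else 0) =
            if a = i then c else 0 := by
          intro a; simp
        simp only [h5, h6, Finset.sum_const_zero, zero_add, Finset.sum_ite_eq', mem_univ, if_true]
      · have h5 : ∀ a : Fin N, (if (a, false) = (i, true) then c else 0) = 0 := by
          intro a; rw [if_neg]; simp
        have h6 : ∀ a : Fin N, (if (a, true) = (i, true) then c else 0) =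
            if a = i then c else 0 := by
          intro a; simp
        simp only [h5, h6, Finset.sum_const_zero, add_zero, Finset.sum_ite_eq', mem_univ, if_true]
    have h4 : Φ (mv e τ) - Φ τ > 0 := by
      rw [h2]
      have h7 : ∑ a, 2 * dd M (τ a) e * zc M (σ a) = 2 * ∑ a, dd M (τ a) e * zc M (σ a) := by
        rw [Finset.mul_sum]
        exact Finset.sum_congr rfl fun a _ => by ring
      rw [h7, Finset.sum_congr rfl fun a _ => h3 a, Finset.sum_add_distrib,
        Finset.sum_sub_distrib]
      have hzlt : zc M (ps σ w) < zc M (ps σ u) := by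
        unfold zc
        have : (ps σ w : ℕ) < ps σ u := hlt
        omega
      by_cases hcen : 2 * (e : ℕ) + 1 = M
      · simp only [if_pos hcen, Finset.sum_const_zero, add_zero]
        -- here w is the negative of u
        have hwu : w = (u.1, !u.2) := hbτ.1 (by
          show ps τ w = ps τ (u.1, !u.2)
          rw [hps_neg, hpu, hpw]
          apply Fin.ext
          rw [rev_val, Fin.val_succ, Fin.val_castSucc]; omega)
        have hzw : zc M (ps σ w) = - zc M (ps σ u) := by
          rw [hwu, hps_neg, zc_rev]
        rw [hzw] at hzlt ⊢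
        have hzpos : 0 < zc M (ps σ u) := by omega
        rcases u with ⟨i, b⟩
        cases b
        · have g1 : ∀ a : Fin N, (if (a, true) = (i, false) then zc M (ps σ (i, false)) else 0)
              = 0 := by
            intro a; rw [if_neg]; simp
          have g2 : ∀ a : Fin N, (if (a, true) = w then - zc M (ps σ (i, false)) else 0) =
              if a = i then - zc M (ps σ (i, false)) else 0 := by
            intro a; rw [hwu]; simp
          simp only [g1, g2, Finset.sum_const_zero, Finset.sum_ite_eq', mem_univ, if_true]
          omega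
        · have g1 : ∀ a : Fin N, (if (a, true) = (i, true) then zc M (ps σ (i, true)) else 0)
              = if a = i then zc M (ps σ (i, true)) else 0 := by
            intro a; simp
          have g2 : ∀ a : Fin N, (if (a, true) = w then - zc M (ps σ (i, true)) else 0) = 0 := by
            intro a; rw [hwu]; simp
          simp only [g1, g2, Finset.sum_const_zero, Finset.sum_ite_eq', mem_univ, if_true]
          omega
      · simp only [if_neg hcen]
        rw [Finset.sum_sub_distrib]
        have o1 := hone u (zc M (ps σ u))
        have o2 := hone w (zc M (ps σ w))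
        linarith
    linarith
  have hmono : StrictMono (fun x => ps σ (eτ.symm x)) := by
    rw [Fin.strictMono_iff_lt_succ]
    exact key
  have hid : ∀ x, ps σ (eτ.symm x) = x := by
    intro x
    have hb : (fun x => ps σ (eτ.symm x)) = id := by
      have : Function.Bijective (fun x => ps σ (eτ.symm x)) := hbσ.comp eτ.symm.bijective
      exact (StrictMono.range_inj hmono strictMono_id).mp (by
        rw [this.surjective.range_eq]; simp)
    exact congrFun hb x
  have : τ = σ := by
    funext a
    have h1 := hid (ps τ (a, true))
    have h2 : eτ.symm (ps τ (a, true)) = (a, true) := by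
      rw [← heτ, Equiv.symm_apply_apply]
    rw [h2] at h1
    simpa [ps] using h1.symm
  rw [← hτ'.2, this]

end Pool.Agent.Lib.MP_6d896a_gt
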