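import Mathlib
import Pool.Agent.Lib.MP_6d896a_gt.ChainB2

/-!
Connectedness for tuples and the eigenvalue bound for the symmetric chain.
-/

namespace Pool.Agent.Lib.MP_6d896a_gt

open Finset

variable {n M : ℕ}

/-- a tuple extends to a full state -/
lemma exists_full (hM : M % 2 = 1) {N : ℕ} (hN : 2 * N = M + 1) (hn : n ≤ N)
    {k : Fin n → Fin (M + 1)} (hk : BInj k) :
    ∃ K : Fin N → Fin (M + 1), BInj K ∧ ∀ i, K (Fin.castLE hn i) = k i := by
  classical
  let fold : Fin (M + 1) → Fin N := fun c =>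
    if h : (c : ℕ) < N then ⟨c, h⟩ else ⟨M - c, by omega⟩
  have hfold_rev : ∀ c, fold c.rev = fold c := by
    intro c
    simp only [fold]
    have := rev_val c
    split_ifs with h1 h2 h2
    · omega
    · apply Fin.ext; simp only; omega
    · apply Fin.ext; simp only; omega
    · omega
  have hfold_eq : ∀ c d, fold c = fold d → c = d ∨ c = d.rev := by
    intro c d h
    simp only [fold] at h
    have h3 := rev_val d
    split_ifs at h with h1 h2 h2
    · left; have := congrArg Fin.val h; simp only at this; exact Fin.ext this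
    · right; have := congrArg Fin.val h; simp only at this; apply Fin.ext; omega
    · right; have := congrArg Fin.val h; simp only at this; apply Fin.ext; omega
    · left; have := congrArg Fin.val h; simp only at this; apply Fin.ext; omega
  have hinj : Function.Injective (fun i => fold (k i)) := by
    intro i j h
    rcases hfold_eq _ _ h with h1 | h1
    · exact hk.1 h1
    · exact absurd h1 (hk.2 i j)
  have hc : Function.Injective (Fin.castLE hn : Fin n → Fin N) := Fin.castLE_injective hn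
  let e : {x : Fin N // x ∈ Set.range (Fin.castLE hn : Fin n → Fin N)} ≃
      {x : Fin N // x ∈ Set.range (fun i => fold (k i))} :=
    (Equiv.ofInjective _ hc).symm.trans (Equiv.ofInjective _ hinj)
  let σ : Equiv.Perm (Fin N) := e.extendSubtype
  have hσ : ∀ i, σ (Fin.castLE hn i) = fold (k i) := by
    intro i
    have h1 := Equiv.extendSubtype_apply_of_mem e (Fin.castLE hn i) ⟨i, rfl⟩
    have h2 : (Equiv.ofInjective _ hc).symm ⟨Fin.castLE hn i, ⟨i, rfl⟩⟩ = i :=
      Equiv.ofInjective_symm_apply hc i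
    simp only [σ]
    rw [h1]
    simp only [e, Equiv.trans_apply]
    rw [h2]
    rfl
  let K : Fin N → Fin (M + 1) := fun a =>
    if h : (a : ℕ) < n then k ⟨a, h⟩ else ⟨σ a, by omega⟩
  have hK : ∀ a, fold (K a) = σ a := by
    intro a
    simp only [K]
    split_ifs with h
    · rw [← hσ]; rfl
    · simp only [fold]
      rw [dif_pos (σ a).2]
  have hKc : ∀ i, K (Fin.castLE hn i) = k i := by
    intro i
    simp only [K]
    rw [dif_pos (by simp)]
    rfl
  refine ⟨K, ⟨?_, ?_⟩, hKc⟩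
  · intro a b h
    have : σ a = σ b := by rw [← hK a, ← hK b, h]
    exact σ.injective this
  · intro a b h
    have h1 : σ a = σ b := by rw [← hK a, ← hK b, h, hfold_rev]
    have h2 := σ.injective h1
    subst h2
    have h3 := congrArg Fin.val h
    rw [rev_val] at h3
    omega

lemma conn_B (hM : M % 2 = 1) {N : ℕ} (hN : 2 * N = M + 1) (hn : n ≤ N)
    {r : Fin n × Bool → Fin n × Bool → Prop}
    (f : (Fin n → Fin (M + 1)) → ℝ)
    (hf : ∀ k, VB r k → ∀ e : Fin M, VB r (mv e k) → f (mv e k) = f k)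
    {k σ : Fin n → Fin (M + 1)} (hk : VB r k) (hσ : VB r σ) : f k = f σ := by
  let r' : Fin N × Bool → Fin N × Bool → Prop := fun u v =>
    ∃ u0 v0, r u0 v0 ∧ u = (Fin.castLE hn u0.1, u0.2) ∧ v = (Fin.castLE hn v0.1, v0.2)
  have hps : ∀ (K : Fin N → Fin (M + 1)) (u : Fin n × Bool),
      ps K (Fin.castLE hn u.1, u.2) = ps (fun i => K (Fin.castLE hn i)) u := fun K u => rfl
  have hiff : ∀ K : Fin N → Fin (M + 1), BInj K →
      (VB r' K ↔ VB r (fun i => K (Fin.castLE hn i))) := by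
    intro K hK
    constructor
    · rintro ⟨_, h⟩
      refine ⟨⟨hK.1.comp (Fin.castLE_injective hn), fun i j => hK.2 _ _⟩, fun u v huv => ?_⟩
      rw [← hps, ← hps]
      exact h _ _ ⟨u, v, huv, rfl, rfl⟩
    · rintro ⟨_, h⟩
      refine ⟨hK, ?_⟩
      rintro u v ⟨u0, v0, h0, rfl, rfl⟩
      rw [hps, hps]
      exact h u0 v0 h0
  obtain ⟨K, hK, hKk⟩ := exists_full hM hN hn hk.1
  obtain ⟨S, hS, hSσ⟩ := exists_full hM hN hn hσ.1
  have eK : (fun i => K (Fin.castLE hn i)) = k := funext hKk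
  have eS : (fun i => S (Fin.castLE hn i)) = σ := funext hSσ
  have hVK : VB r' K := (hiff K hK).mpr (by rw [eK]; exact hk)
  have hVS : VB r' S := (hiff S hS).mpr (by rw [eS]; exact hσ)
  have h := conn_full hM hN (r := r') (fun K => f (fun i => K (Fin.castLE hn i))) (by
    intro L hL e hL'
    have h1 := (hiff L hL.1).mp hL
    have h2 := (hiff _ hL'.1).mp hL'
    exact hf _ h1 e h2) hVK hVS
  rwa [eK, eS] at h

/-! ### summing the local estimates -/

lemma sum_ind1 (w v : ℕ → ℝ) (p : Fin (M + 1)) :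
    ∑ e : Fin M, w e * v e * (if (e : ℕ) = p then (1 : ℝ) else 0) = coef M w v (p + 1) := by
  rw [Fin.sum_univ_eq_sum_range (fun e => w e * v e * (if e = (p : ℕ) then (1 : ℝ) else 0)) M]
  unfold coef
  by_cases hp : (p : ℕ) < M
  · rw [if_neg (by omega), Finset.sum_eq_single (p : ℕ)]
    · simp
    · intro b _ hb
      rw [if_neg hb, mul_zero]
    · intro h
      exact absurd (Finset.mem_range.mpr hp) h
  · rw [if_pos (by omega)]
    apply Finset.sum_eq_zero
    intro b hb
    rw [Finset.mem_range] at hb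
    rw [if_neg (by omega), mul_zero]

lemma sum_ind2 (w v : ℕ → ℝ) (p : Fin (M + 1)) :
    ∑ e : Fin M, w e * v e * (if (e : ℕ) + 1 = p then (1 : ℝ) else 0) = coef M w v p := by
  rw [Fin.sum_univ_eq_sum_range
    (fun e => w e * v e * (if e + 1 = (p : ℕ) then (1 : ℝ) else 0)) M]
  unfold coef
  by_cases hp : (p : ℕ) = 0
  · rw [if_pos (by omega)]
    apply Finset.sum_eq_zero
    intro b hb
    rw [if_neg (by omega), mul_zero]
  · have := p.2
    rw [if_neg (by omega), Finset.sum_eq_single ((p : ℕ) - 1)]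
    · rw [if_pos (by omega), mul_one]
    · intro b _ hb
      rw [if_neg (by omega), mul_zero]
    · intro h
      exact absurd (Finset.mem_range.mpr (by omega)) h

/-- halved rates, except at the central edge -/
noncomputable def om (M : ℕ) (w : ℕ → ℝ) (e : ℕ) : ℝ := if 2 * e + 1 = M then w e else w e / 2

lemma om_pos {w : ℕ → ℝ} (hw : ∀ j, 0 < w j) (M e : ℕ) : 0 < om M w e := by
  unfold om
  have := hw e
  split_ifs
  · exact this
  · linarith

lemma sum_dd {w v : ℕ → ℝ} (hws : ∀ e, e < M → w (M - 1 - e) = w e)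
    (hvs : ∀ e, e < M → v (M - 1 - e) = v e) (z : Fin (M + 1)) :
    ∑ e : Fin M, om M w e * (v e * (dd M z e : ℤ)) = coef M w v (z + 1) - coef M w v z := by
  have h1 : ∀ e : Fin M, om M w e * (v e * ((dd M z e : ℤ) : ℝ)) =
      (1 / 2) * (w e * v e * ((if (e : ℕ) = z then (1 : ℝ) else 0) -
        (if (e : ℕ) + 1 = z then (1 : ℝ) else 0))) +
      (1 / 2) * (w (e.rev : ℕ) * v (e.rev : ℕ) * ((if (e.rev : ℕ) = z then (1 : ℝ) else 0) -
        (if (e.rev : ℕ) + 1 = z then (1 : ℝ) else 0))) := by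
    intro e
    have hr : (e.rev : ℕ) = M - 1 - e := by rw [Fin.val_rev]; omega
    have heM := e.2
    rw [hr, hws e e.2, hvs e e.2]
    unfold om dd
    push_cast
    have a1 : ((z : ℕ) = e) ↔ ((e : ℕ) = z) := eq_comm
    have a2 : ((z : ℕ) = e + 1) ↔ ((e : ℕ) + 1 = z) := eq_comm
    have a3 : ((z : ℕ) + e + 1 = M) ↔ (M - 1 - (e : ℕ) = z) := by omega
    have a4 : ((z : ℕ) + e = M) ↔ (M - 1 - (e : ℕ) + 1 = z) := by omega
    simp only [a1, a2, a3, a4]
    by_cases hcen : 2 * (e : ℕ) + 1 = M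
    · have b1 : (M - 1 - (e : ℕ)) = e := by omega
      rw [if_pos hcen, if_pos hcen, b1]
      ring
    · rw [if_neg hcen, if_neg hcen]
      ring
  rw [Finset.sum_congr rfl fun e _ => h1 e, Finset.sum_add_distrib, ← Finset.mul_sum,
    ← Finset.mul_sum]
  have h2 : ∑ e : Fin M, (w (e.rev : ℕ) * v (e.rev : ℕ) * ((if (e.rev : ℕ) = z then (1 : ℝ) else 0) -
      (if (e.rev : ℕ) + 1 = z then (1 : ℝ) else 0))) =
      ∑ e : Fin M, (w e * v e * ((if (e : ℕ) = z then (1 : ℝ) else 0) -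
      (if (e : ℕ) + 1 = z then (1 : ℝ) else 0))) := by
    apply Equiv.sum_comp Fin.revPerm (fun e : Fin M => (w e * v e *
      ((if (e : ℕ) = z then (1 : ℝ) else 0) - (if (e : ℕ) + 1 = z then (1 : ℝ) else 0))))
  rw [h2]
  have h3 : ∑ e : Fin M, (w e * v e * ((if (e : ℕ) = z then (1 : ℝ) else 0) -
      (if (e : ℕ) + 1 = z then (1 : ℝ) else 0))) = coef M w v (z + 1) - coef M w v z := by
    rw [← sum_ind1 w v z, ← sum_ind2 w v z, ← Finset.sum_sub_distrib]
    apply Finset.sum_congr rfl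
    intro e _
    ring
  rw [h3]
  ring

lemma WW_sub (v : ℕ → ℝ) {p q : ℕ} (h : p ≤ q) : WW v q - WW v p = wgt v p q := by
  unfold WW wgt
  rw [← Finset.sum_range_add_sum_Ico _ h]
  ring

/-- lower bound on the eigenvalues of the symmetric chain -/
lemma eig_ge_B (hM : M % 2 = 1) {N : ℕ} (hN : 2 * N = M + 1) (hn : n ≤ N)
    {r : Fin n × Bool → Fin n × Bool → Prop}
    [DecidablePred (VB r : (Fin n → Fin (M + 1)) → Prop)]
    (w v : ℕ → ℝ) (lam : ℝ) (hw : ∀ j, 0 < w j) (hv : ∀ j, 0 < v j)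
    (hws : ∀ e, e < M → w (M - 1 - e) = w e) (hvs : ∀ e, e < M → v (M - 1 - e) = v e)
    (hC : ∀ j < M, coef M w v (j + 2) - 2 * coef M w v (j + 1) + coef M w v j ≤ - lam * v j)
    (f : (Fin n → Fin (M + 1)) → ℝ) (mu : ℝ)
    (heig : ∀ k, VB r k → ∑ e : Fin M, om M w e *
      (if VB r (mv e k) then f k - f (mv e k) else 0) = mu * f k)
    {k₀ σ₀ : Fin n → Fin (M + 1)} (hk₀ : VB r k₀) (hσ₀ : VB r σ₀)
    (hne : f k₀ ≠ f σ₀) : lam ≤ mu := by
  classical
  have hex : ∃ k, VB r k ∧ ∃ e : Fin M, VB r (mv e k) ∧ f (mv e k) ≠ f k := by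
    by_contra hcon
    push Not at hcon
    exact hne (conn_B hM hN hn f hcon hk₀ hσ₀)
  obtain ⟨k₁, hk₁, e₁, he₁, hfe⟩ := hex
  let P : Finset ((Fin n → Fin (M + 1)) × Fin (M + 1) × Fin (M + 1)) :=
    univ.filter fun t => t.2.1 < t.2.2 ∧ VB r t.1 ∧ VB r (tb t.2.1 t.2.2 t.1)
  let ρ : (Fin n → Fin (M + 1)) × Fin (M + 1) × Fin (M + 1) → ℝ := fun t =>
    |f (tb t.2.1 t.2.2 t.1) - f t.1| / (WW v t.2.2 - WW v t.2.1)
  have hcs : e₁.castSucc < e₁.succ := Fin.castSucc_lt_succ
  have hmem₁ : (k₁, e₁.castSucc, e₁.succ) ∈ P := by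
    simp only [P, mem_filter, mem_univ, true_and]
    exact ⟨hcs, hk₁, he₁⟩
  obtain ⟨t, ht, hmax⟩ := P.exists_max_image ρ ⟨_, hmem₁⟩
  have ht' : t.2.1 < t.2.2 ∧ VB r t.1 ∧ VB r (tb t.2.1 t.2.2 t.1) := by
    simpa [P] using ht
  have hwpos : ∀ p q : Fin (M + 1), p < q → 0 < WW v q - WW v p := fun p q h => by
    have := WW_lt hv (show (p : ℕ) < q from h)
    linarith
  have hK : 0 < ρ t := by
    refine lt_of_lt_of_le ?_ (hmax _ hmem₁)
    simp only [ρ]
    apply div_pos _ (hwpos _ _ hcs)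
    apply abs_pos.mpr
    rw [sub_ne_zero]
    exact hfe
  have hbd : ∀ (k : Fin n → Fin (M + 1)) (p q : Fin (M + 1)), p < q → VB r k →
      VB r (tb p q k) → |f (tb p q k) - f k| ≤ ρ t * (WW v q - WW v p) := by
    intro k p q h1 h2 h3
    have := hmax (k, p, q) (by simp only [P, mem_filter, mem_univ, true_and]; exact ⟨h1, h2, h3⟩)
    rw [← div_le_iff₀ (hwpos _ _ h1)]
    exact this
  obtain ⟨k, p, q, hpq, hk, hk', hD⟩ : ∃ (k : Fin n → Fin (M + 1)) (p q : Fin (M + 1)),
      p < q ∧ VB r k ∧ VB r (tb p q k) ∧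
      f (tb p q k) - f k = ρ t * (WW v q - WW v p) := by
    have hρ : |f (tb t.2.1 t.2.2 t.1) - f t.1| = ρ t * (WW v t.2.2 - WW v t.2.1) := by
      simp only [ρ]
      rw [div_mul_cancel₀ _ (hwpos _ _ ht'.1).ne']
    rcases abs_choice (f (tb t.2.1 t.2.2 t.1) - f t.1) with h | h
    · exact ⟨t.1, t.2.1, t.2.2, ht'.1, ht'.2.1, ht'.2.2, by rw [← hρ, h]⟩
    · refine ⟨tb t.2.1 t.2.2 t.1, t.2.1, t.2.2, ht'.1, ht'.2.2, ?_, ?_⟩
      · rw [tb_tb hM ht'.1]; exact ht'.2.1
      · rw [tb_tb hM ht'.1, ← hρ, h]; ring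
  have h1 := heig k hk
  have h2 := heig _ hk'
  have hDpos : 0 < ρ t * (WW v q - WW v p) := mul_pos hK (hwpos _ _ hpq)
  have h3 : mu * (ρ t * (WW v q - WW v p)) ≥ ρ t * (lam * (WW v q - WW v p)) := by
    rw [← hD, mul_sub, ← h1, ← h2, ← Finset.sum_sub_distrib]
    have h4 : ∀ e : Fin M, om M w e * (ρ t * (v e * ((dd M p e : ℤ) - (dd M q e : ℤ)))) ≤
        om M w e * (if VB r (mv e (tb p q k)) then f (tb p q k) - f (mv e (tb p q k)) else 0)
        - om M w e * (if VB r (mv e k) then f k - f (mv e k) else 0) := by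
      intro e
      rw [← mul_sub]
      apply mul_le_mul_of_nonneg_left _ (om_pos hw M e).le
      exact bracket_B hM v hv hvs f (ρ t) hK.le hbd k p q hpq hk hk' hD e
    have h5 := Finset.sum_le_sum (fun e (_ : e ∈ (univ : Finset (Fin M))) => h4 e)
    refine le_trans ?_ h5
    have h6 := sum_dd hws hvs p
    have h6' := sum_dd hws hvs q
    have h7 := coef_tele w v lam hC hpq.le (Nat.lt_succ_iff.mp q.2)
    rw [WW_sub v (show (p : ℕ) ≤ q from hpq.le)]
    calc ρ t * (lam * wgt v p q) ≤ ρ t * (coef M w v (p + 1) + coef M w v q - coef M w v p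
          - coef M w v (q + 1)) := mul_le_mul_of_nonneg_left h7 hK.le
      _ = ρ t * ((∑ e : Fin M, om M w e * (v e * (dd M p e : ℤ))) -
          ∑ e : Fin M, om M w e * (v e * (dd M q e : ℤ))) := by
        rw [h6, h6']; ring
      _ = _ := by
        rw [← Finset.sum_sub_distrib, Finset.mul_sum]
        apply Finset.sum_congr rfl
        intro e _
        ring
  have h8 : lam * (ρ t * (WW v q - WW v p)) ≤ mu * (ρ t * (WW v q - WW v p)) := by linarith
  exact le_of_mul_le_mul_right h8 hDpos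

end Pool.Agent.Lib.MP_6d896a_gt
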