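import Mathlib
import Pool.Agent.Lib.MP_6d896a_gt.Rates

/-!
From permutations to injective tuples of sites, and to cells of the unit cube.
-/

namespace Pool.Agent.Lib.MP_6d896a_gt

open Finset MeasureTheory

variable {n M : ℕ}

/-- the relation on the labels of the chain -/
def rel (R : Fin n → Fin n → Prop) (h : n ≤ M + 1) : Fin (M + 1) → Fin (M + 1) → Prop :=
  fun a b => ∃ i j, Fin.castLE h i = a ∧ Fin.castLE h j = b ∧ R i j

/-- admissible tuples of sites -/
def VT (R : Fin n → Fin n → Prop) (k : Fin n → Fin (M + 1)) : Prop :=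
  Function.Injective k ∧ ∀ i j, R i j → k i < k j

lemma valid_iff (R : Fin n → Fin n → Prop) (h : n ≤ M + 1) (π : Equiv.Perm (Fin (M + 1))) :
    Valid (rel R h) π ↔ VT R (fun i => π (Fin.castLE h i)) := by
  constructor
  · intro hv
    refine ⟨π.injective.comp (Fin.castLE_injective h), fun i j hij => ?_⟩
    exact hv _ _ ⟨i, j, rfl, rfl, hij⟩
  · rintro ⟨_, hv⟩ a b ⟨i, j, rfl, rfl, hij⟩
    exact hv i j hij

/-- number of permutations fixing the first labels -/
def stab (h : n ≤ M + 1) : ℕ :=
  (univ.filter fun π : Equiv.Perm (Fin (M + 1)) =>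
    (fun i => π (Fin.castLE h i)) = Fin.castLE h).card

lemma stab_pos (h : n ≤ M + 1) : 0 < stab (n := n) (M := M) h := by
  unfold stab
  apply Finset.card_pos.mpr
  exact ⟨1, by simp⟩

open Classical in
lemma fiber_card (h : n ≤ M + 1) (k : Fin n → Fin (M + 1)) :
    (univ.filter fun π : Equiv.Perm (Fin (M + 1)) => (fun i => π (Fin.castLE h i)) = k).card =
      if Function.Injective k then stab (n := n) (M := M) h else 0 := by
  split_ifs with hk
  · have hc : Function.Injective (Fin.castLE h : Fin n → Fin (M + 1)) := Fin.castLE_injective h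
    let e : {x : Fin (M + 1) // x ∈ Set.range (Fin.castLE h : Fin n → Fin (M + 1))} ≃
        {x : Fin (M + 1) // x ∈ Set.range k} :=
      (Equiv.ofInjective _ hc).symm.trans (Equiv.ofInjective k hk)
    let σ : Equiv.Perm (Fin (M + 1)) := e.extendSubtype
    have hσ : ∀ i, σ (Fin.castLE h i) = k i := by
      intro i
      have h1 := Equiv.extendSubtype_apply_of_mem e (Fin.castLE h i) ⟨i, rfl⟩
      have h2 : (Equiv.ofInjective _ hc).symm ⟨Fin.castLE h i, ⟨i, rfl⟩⟩ = i :=
        Equiv.ofInjective_symm_apply hc i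
      simp only [σ]
      rw [h1]
      simp only [e, Equiv.trans_apply]
      rw [h2]
      rfl
    unfold stab
    refine Finset.card_bij' (fun π _ => σ⁻¹ * π) (fun π _ => σ * π) ?_ ?_ ?_ ?_
    · intro π hπ
      simp only [mem_filter, mem_univ, true_and] at *
      funext i
      have := congrFun hπ i
      rw [Equiv.Perm.mul_apply, this, ← hσ i]
      simp
    · intro π hπ
      simp only [mem_filter, mem_univ, true_and] at *
      funext i
      have := congrFun hπ i
      rw [Equiv.Perm.mul_apply, this, hσ i]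
    · intro π _
      simp
    · intro π _
      simp
  · rw [Finset.card_eq_zero, Finset.filter_eq_empty_iff]
    intro π _ hπ
    apply hk
    rw [← hπ]
    exact π.injective.comp (Fin.castLE_injective h)

open Classical in
lemma sum_perm (h : n ≤ M + 1) (G : (Fin n → Fin (M + 1)) → ℝ) :
    ∑ π : Equiv.Perm (Fin (M + 1)), G (fun i => π (Fin.castLE h i)) =
      stab (n := n) (M := M) h * ∑ k : Fin n → Fin (M + 1),
        (if Function.Injective k then G k else 0) := by
  rw [← Finset.sum_fiberwise univ (fun π : Equiv.Perm (Fin (M + 1)) =>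
    (fun i => π (Fin.castLE h i)))]
  rw [Finset.mul_sum]
  apply Finset.sum_congr rfl
  intro k _
  have h1 : ∑ π ∈ univ.filter (fun π : Equiv.Perm (Fin (M + 1)) =>
      (fun i => π (Fin.castLE h i)) = k), G (fun i => π (Fin.castLE h i)) =
      ∑ π ∈ univ.filter (fun π : Equiv.Perm (Fin (M + 1)) =>
      (fun i => π (Fin.castLE h i)) = k), G k := by
    apply Finset.sum_congr rfl
    intro π hπ
    rw [mem_filter] at hπ
    rw [hπ.2]
  rw [h1, Finset.sum_const, nsmul_eq_mul, fiber_card h k]
  split_ifs <;> simp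

open Classical in
/-- sum over the admissible tuples -/
noncomputable def ST (R : Fin n → Fin n → Prop) (G : (Fin n → Fin (M + 1)) → ℝ) : ℝ :=
  ∑ k : Fin n → Fin (M + 1), (if VT R k then G k else 0)

open Classical in
lemma sum_Om (R : Fin n → Fin n → Prop) (h : n ≤ M + 1) (G : (Fin n → Fin (M + 1)) → ℝ) :
    ∑ π ∈ Om (rel R h), G (fun i => π (Fin.castLE h i)) =
      stab (n := n) (M := M) h * ST R G := by
  have h1 : ∑ π ∈ Om (rel R h), G (fun i => π (Fin.castLE h i)) =
      ∑ π : Equiv.Perm (Fin (M + 1)), (fun k => if VT R k then G k else 0)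
        (fun i => π (Fin.castLE h i)) := by
    rw [Om, Finset.sum_filter]
    apply Finset.sum_congr rfl
    intro π _
    by_cases hv : Valid (rel R h) π
    · rw [if_pos hv]
      simp only
      rw [if_pos ((valid_iff R h π).mp hv)]
    · rw [if_neg hv]
      simp only
      rw [if_neg (fun h' => hv ((valid_iff R h π).mpr h'))]
  rw [h1, sum_perm h (fun k => if VT R k then G k else 0), ST]
  congr 1
  apply Finset.sum_congr rfl
  intro k _
  by_cases hk : Function.Injective k
  · rw [if_pos hk]
  · rw [if_neg hk, if_neg (fun h => hk h.1)]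

open Classical in
/-- the energy of a function of tuples at a tuple -/
noncomputable def En (R : Fin n → Fin n → Prop) (H : (Fin n → Fin (M + 1)) → ℝ)
    (k : Fin n → Fin (M + 1)) : ℝ :=
  ∑ e : Fin M, ww M e * (if VT R (fun i => adj e (k i)) then
    (H (fun i => adj e (k i)) - H k) ^ 2 else 0)

open Classical in
theorem poincare_tuple (R : Fin n → Fin n → Prop) (h : n ≤ M + 1)
    (H : (Fin n → Fin (M + 1)) → ℝ) :
    (1 / 4) * (ST R (fun _ : Fin n → Fin (M + 1) => 1) * ST R (fun k => H k ^ 2)
      - (ST R H) ^ 2) ≤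
      ST R (fun _ : Fin n → Fin (M + 1) => 1) * ((1 / 2) * ST R (En R H)) := by
  have h0 := poincare_logistic_chain (rel R h) (fun π => H (fun i => π (Fin.castLE h i)))
  have h1 : ((Om (rel R h)).card : ℝ) =
      stab (n := n) (M := M) h * ST R (fun _ : Fin n → Fin (M + 1) => 1) := by
    rw [← sum_Om R h]; simp
  have h2 := sum_Om R h (fun k => H k ^ 2)
  have h3 := sum_Om R h H
  have h4 : ∑ π ∈ Om (rel R h), ∑ e : Fin M, ww M e *
        (if Valid (rel R h) (adj e * π) then (H (fun i => (adj e * π) (Fin.castLE h i)) -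
          H (fun i => π (Fin.castLE h i))) ^ 2 else 0) =
      stab (n := n) (M := M) h * ST R (En R H) := by
    rw [← sum_Om R h]
    apply Finset.sum_congr rfl
    intro π _
    unfold En
    apply Finset.sum_congr rfl
    intro e _
    have h5 : Valid (rel R h) (adj e * π) ↔
        VT R (fun i => adj e ((fun i => π (Fin.castLE h i)) i)) := valid_iff R h (adj e * π)
    by_cases hv : Valid (rel R h) (adj e * π)
    · rw [if_pos hv, if_pos (h5.mp hv)]
      rfl
    · rw [if_neg hv, if_neg (fun h' => hv (h5.mpr h'))]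
  rw [h1, h2, h3, h4] at h0
  have hs : (0 : ℝ) < stab (n := n) (M := M) h := by exact_mod_cast stab_pos h
  set s : ℝ := (stab (n := n) (M := M) h : ℝ)
  have h6 : s ^ 2 * ((1 / 4) * (ST R (fun _ : Fin n → Fin (M + 1) => 1) *
      ST R (fun k => H k ^ 2) - (ST R H) ^ 2)) ≤
      s ^ 2 * (ST R (fun _ : Fin n → Fin (M + 1) => 1) * ((1 / 2) * ST R (En R H))) := by
    nlinarith
  exact le_of_mul_le_mul_left h6 (by positivity)

/-! ### cells -/

/-- uniform distribution on the unit interval -/
noncomputable def unif : Measure ℝ := volume.restrict (Set.Ioo 0 1)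

instance : IsProbabilityMeasure unif := ⟨by simp [unif]⟩

/-- index of the cell containing a point -/
noncomputable def cell (M : ℕ) (u : ℝ) : Fin (M + 1) :=
  ⟨min ⌊((M : ℝ) + 1) * u⌋₊ M, by omega⟩

lemma cell_measurable (M : ℕ) : Measurable (cell M) := by
  have h1 : Measurable fun u : ℝ => ⌊((M : ℝ) + 1) * u⌋₊ :=
    Nat.measurable_floor.comp (measurable_const.mul measurable_id)
  have h2 : Measurable fun j : ℕ => (⟨min j M, by omega⟩ : Fin (M + 1)) := measurable_from_top
  exact h2.comp h1

lemma cell_mem {M : ℕ} {u : ℝ} (h0 : 0 < u) (h1 : u < 1) :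
    ((cell M u : ℕ) : ℝ) ≤ (M + 1) * u ∧ ((M : ℝ) + 1) * u < (cell M u : ℕ) + 1 := by
  have hM : (0 : ℝ) < (M : ℝ) + 1 := by positivity
  have h2 : ⌊((M : ℝ) + 1) * u⌋₊ ≤ M := by
    have : ⌊((M : ℝ) + 1) * u⌋₊ < M + 1 := by
      rw [Nat.floor_lt (by positivity)]
      push_cast
      nlinarith
    omega
  have h3 : (cell M u : ℕ) = ⌊((M : ℝ) + 1) * u⌋₊ := by
    simp [cell, h2]
  rw [h3]
  exact ⟨Nat.floor_le (by positivity), Nat.lt_floor_add_one _⟩

lemma cell_preimage (M : ℕ) (k : Fin (M + 1)) :
    unif (cell M ⁻¹' {k}) = ENNReal.ofReal (1 / ((M : ℝ) + 1)) := by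
  have hM : (0 : ℝ) < (M : ℝ) + 1 := by positivity
  unfold unif
  rw [Measure.restrict_apply (cell_measurable M (measurableSet_singleton k))]
  have hk1 : (k : ℝ) + 1 ≤ M + 1 := by
    have : (k : ℕ) + 1 ≤ M + 1 := k.2
    exact_mod_cast this
  have hvol1 : volume (Set.Ioo ((k : ℝ) / (M + 1)) (((k : ℝ) + 1) / (M + 1))) =
      ENNReal.ofReal (1 / ((M : ℝ) + 1)) := by
    rw [Real.volume_Ioo]
    congr 1
    field_simp
    ring
  have hvol2 : volume (Set.Icc ((k : ℝ) / (M + 1)) (((k : ℝ) + 1) / (M + 1))) =
      ENNReal.ofReal (1 / ((M : ℝ) + 1)) := by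
    rw [Real.volume_Icc]
    congr 1
    field_simp
    ring
  apply le_antisymm
  · rw [← hvol2]
    apply measure_mono
    rintro u ⟨hu, h0, h1⟩
    have hc := cell_mem (M := M) h0 h1
    have hu' : cell M u = k := hu
    rw [hu'] at hc
    constructor
    · rw [div_le_iff₀ hM]; linarith
    · rw [le_div_iff₀ hM]; linarith
  · rw [← hvol1]
    apply measure_mono
    rintro u ⟨h0, h1⟩
    rw [div_lt_iff₀ hM] at h0
    rw [lt_div_iff₀ hM] at h1
    have hk0 : (0 : ℝ) ≤ (k : ℝ) := by positivity
    have hu0 : 0 < u := by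
      by_contra hcon
      push Not at hcon
      nlinarith
    have hu1 : u < 1 := by
      by_contra hcon
      push Not at hcon
      nlinarith
    refine ⟨?_, hu0, hu1⟩
    have h2 : ⌊((M : ℝ) + 1) * u⌋₊ = k := by
      rw [Nat.floor_eq_iff (by positivity)]
      constructor <;> linarith
    show cell M u = k
    apply Fin.ext
    simp only [cell, h2]
    have := k.2
    omega

/-- the uniform distribution on the cube -/
noncomputable def cube (n : ℕ) : Measure (Fin n → ℝ) := Measure.pi fun _ => unif

instance (n : ℕ) : IsProbabilityMeasure (cube n) := by unfold cube; infer_instance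

/-- the tuple of cells -/
noncomputable def kap (M : ℕ) (U : Fin n → ℝ) : Fin n → Fin (M + 1) := fun i => cell M (U i)

lemma kap_measurable (M n : ℕ) : Measurable (kap M : (Fin n → ℝ) → _) :=
  measurable_pi_lambda _ fun i => (cell_measurable M).comp (measurable_pi_apply i)

lemma integral_cell (M n : ℕ) (G : (Fin n → Fin (M + 1)) → ℝ) :
    ∫ U, G (kap M U) ∂(cube n) = (1 / ((M : ℝ) + 1)) ^ n * ∑ k, G k := by
  have hprob : IsProbabilityMeasure (unif.map (cell M)) :=
    Measure.isProbabilityMeasure_map (cell_measurable M).aemeasurable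
  have h2 : (cube n).map (kap M) =
      Measure.pi fun _ : Fin n => unif.map (cell M) := by
    unfold cube
    exact Measure.pi_map_pi (fun i => (cell_measurable M).aemeasurable)
  have h3 : Measurable G := measurable_of_finite G
  rw [← integral_map (μ := cube n) (φ := kap M) (f := G)
    (kap_measurable M n).aemeasurable h3.aestronglyMeasurable, h2]
  rw [integral_fintype (Integrable.of_finite), Finset.mul_sum]
  apply Finset.sum_congr rfl
  intro k _
  rw [measureReal_def, Measure.pi_singleton]
  have h4 : ∀ i, unif.map (cell M) {k i} = ENNReal.ofReal (1 / ((M : ℝ) + 1)) := by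
    intro i
    rw [Measure.map_apply (cell_measurable M) (measurableSet_singleton _), cell_preimage]
  simp only [h4, Finset.prod_const, Finset.card_univ, Fintype.card_fin, smul_eq_mul]
  rw [ENNReal.toReal_pow, ENNReal.toReal_ofReal (by positivity)]

open Classical in
/-- the discrete inequality written with integrals over the cube -/
theorem poincare_cube (R : Fin n → Fin n → Prop) (h : n ≤ M + 1)
    (H : (Fin n → Fin (M + 1)) → ℝ) :
    (1 / 4) * ((∫ U, (if VT R (kap M U) then (1 : ℝ) else 0) ∂(cube n)) *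
      (∫ U, (if VT R (kap M U) then H (kap M U) ^ 2 else 0) ∂(cube n)) -
      (∫ U, (if VT R (kap M U) then H (kap M U) else 0) ∂(cube n)) ^ 2) ≤
      (∫ U, (if VT R (kap M U) then (1 : ℝ) else 0) ∂(cube n)) *
      ((1 / 2) * (∫ U, (if VT R (kap M U) then En R H (kap M U) else 0) ∂(cube n))) := by
  have e1 := integral_cell M n (fun k => if VT R k then (1 : ℝ) else 0)
  have e2 := integral_cell M n (fun k => if VT R k then H k ^ 2 else 0)
  have e3 := integral_cell M n (fun k => if VT R k then H k else 0)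
  have e4 := integral_cell M n (fun k => if VT R k then En R H k else 0)
  rw [e1, e2, e3, e4]
  have h0 := poincare_tuple R h H
  unfold ST at h0
  have hc : (0 : ℝ) ≤ ((1 / ((M : ℝ) + 1)) ^ n) ^ 2 := by positivity
  have h1 := mul_le_mul_of_nonneg_left h0 hc
  nlinarith

end Pool.Agent.Lib.MP_6d896a_gt
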