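import Mathlib
import Pool.Agent.Lib.MP_6d896a_gt.Tuples

/-!
Passing to the limit: Poincare inequality for independent logistic variables conditioned
on order constraints.
-/

namespace Pool.Agent.Lib.MP_6d896a_gt

open Finset MeasureTheory Filter Topology

variable {n M : ℕ}

/-- the real configuration of a tuple of sites -/
noncomputable def xx (k : Fin n → Fin (M + 1)) : Fin n → ℝ := fun i => tt M (k i)

/-- logistic quantile function -/
noncomputable def lg (u : ℝ) : ℝ := Real.log (u / (1 - u))

/-- separated configurations -/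
def Sep (k : Fin n → Fin (M + 1)) : Prop := ∀ i j, (k i : ℕ) + 1 ≠ k j

/-- upper difference quotient -/
noncomputable def DP (h : (Fin n → ℝ) → ℝ) (k : Fin n → Fin (M + 1)) (i : Fin n) : ℝ :=
  (h (Function.update (xx k) i (tt M (k i + 1))) - h (xx k)) / (tt M (k i + 1) - tt M (k i))

/-- lower difference quotient -/
noncomputable def DM (h : (Fin n → ℝ) → ℝ) (k : Fin n → Fin (M + 1)) (i : Fin n) : ℝ :=
  (h (Function.update (xx k) i (tt M (k i - 1))) - h (xx k)) / (tt M (k i - 1) - tt M (k i))

lemma sum_update (x : Fin n → ℝ) (i : Fin n) (y : ℝ) :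
    ∑ j, |Function.update x i y j - x j| = |y - x i| := by
  rw [Finset.sum_eq_single i]
  · simp
  · intro j _ hj
    rw [Function.update_of_ne hj]; simp
  · intro h; exact absurd (mem_univ i) h

lemma quot_sq_le {h : (Fin n → ℝ) → ℝ} {B : ℝ} (hB0 : 0 ≤ B)
    (hB : ∀ x y, |h x - h y| ≤ B * ∑ i, |x i - y i|) (x : Fin n → ℝ) (i : Fin n) (y : ℝ) :
    ((h (Function.update x i y) - h x) / (y - x i)) ^ 2 ≤ B ^ 2 := by
  have h1 : |(h (Function.update x i y) - h x) / (y - x i)| ≤ B := by
    rw [abs_div]
    apply div_le_of_le_mul₀ (abs_nonneg _) hB0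
    have := hB (Function.update x i y) x
    rwa [sum_update] at this
  rw [← sq_abs]
  exact pow_le_pow_left₀ (abs_nonneg _) h1 2

lemma sum_ite_edge_le (k : Fin (M + 1)) (c : ℝ) (hc : 0 ≤ c) :
    ∑ e : Fin M, (if (e : ℕ) = k then c else 0) ≤ c := by
  rw [Fin.sum_univ_eq_sum_range (fun e => if e = (k : ℕ) then c else 0) M]
  rw [Finset.sum_ite_eq' (range M) (k : ℕ) (fun _ => c)]
  split_ifs
  · exact le_refl _
  · exact hc

lemma sum_ite_edge_le' (k : Fin (M + 1)) (c : ℝ) (hc : 0 ≤ c) :
    ∑ e : Fin M, (if (e : ℕ) + 1 = k then c else 0) ≤ c := by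
  rw [Fin.sum_univ_eq_sum_range (fun e => if e + 1 = (k : ℕ) then c else 0) M]
  have : ∀ e ∈ range M, (if e + 1 = (k : ℕ) then c else 0) ≤
      (if e = (k : ℕ) - 1 then c else 0) := by
    intro e _
    split_ifs with h1 h2
    · exact le_refl _
    · omega
    · exact hc
    · exact le_refl _
  refine (Finset.sum_le_sum this).trans ?_
  rw [Finset.sum_ite_eq' (range M) ((k : ℕ) - 1) (fun _ => c)]
  split_ifs
  · exact le_refl _
  · exact hc

open Classical in
/-- energy bound for separated configurations -/
lemma En_le_sep (R : Fin n → Fin n → Prop) {h : (Fin n → ℝ) → ℝ} (k : Fin n → Fin (M + 1))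
    (hinj : Function.Injective k) (hsep : Sep k) :
    En R (fun k : Fin n → Fin (M + 1) => h (xx k)) k ≤ ∑ i, (DP h k i ^ 2 + DM h k i ^ 2) := by
  have key : ∀ e : Fin M, ww M e * (if VT R (fun i => adj e (k i)) then
      (h (xx (fun i => adj e (k i))) - h (xx k)) ^ 2 else 0) ≤
      ∑ i, ((if (e : ℕ) = k i then DP h k i ^ 2 else 0) +
        (if (e : ℕ) + 1 = k i then DM h k i ^ 2 else 0)) := by
    intro e
    have hnn : ∀ j ∈ (univ : Finset (Fin n)), 0 ≤ ((if (e : ℕ) = k j then DP h k j ^ 2 else 0) +
        (if (e : ℕ) + 1 = k j then DM h k j ^ 2 else 0)) := by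
      intro j _
      split_ifs <;> positivity
    have hle1 : ww M e * (if VT R (fun i => adj e (k i)) then
      (h (xx (fun i => adj e (k i))) - h (xx k)) ^ 2 else 0) ≤
      ww M e * (h (xx (fun i => adj e (k i))) - h (xx k)) ^ 2 := by
      apply mul_le_mul_of_nonneg_left _ (ww_pos M e).le
      split_ifs
      · exact le_refl _
      · positivity
    refine hle1.trans ?_
    obtain ⟨hst0, hst1⟩ := tt_step M e e.2
    have hcs : (e.castSucc : ℕ) = e := rfl
    have hss : (e.succ : ℕ) = e + 1 := rfl
    by_cases h1 : ∃ i, k i = e.castSucc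
    · obtain ⟨i, hi⟩ := h1
      have hiv : (k i : ℕ) = e := by rw [hi]; rfl
      have hoth : xx (fun i => adj e (k i)) = Function.update (xx k) i (tt M (k i + 1)) := by
        funext j
        by_cases hj : j = i
        · subst hj
          rw [Function.update_self]
          simp only [xx]
          rw [hi, adj, Equiv.swap_apply_left, hss, hcs]
        · rw [Function.update_of_ne hj]
          simp only [xx]
          rw [adj, Equiv.swap_apply_of_ne_of_ne]
          · intro hc; exact hj (hinj (hc.trans hi.symm))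
          · intro hc
            apply hsep i j
            rw [hiv, hc, hss]
      rw [hoth]
      refine le_trans ?_ (Finset.single_le_sum hnn (mem_univ i))
      rw [if_pos hiv.symm, if_neg (by omega), add_zero]
      unfold DP
      rw [hiv, div_pow, le_div_iff₀ (by positivity)]
      have hd : 0 ≤ (h (Function.update (xx k) i (tt M (↑e + 1))) - h (xx k)) ^ 2 := by positivity
      calc _ = (ww M e * (tt M (e + 1) - tt M e) ^ 2) *
          (h (Function.update (xx k) i (tt M (↑e + 1))) - h (xx k)) ^ 2 := by ring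
        _ ≤ 1 * _ := mul_le_mul_of_nonneg_right hst1 hd
        _ = _ := one_mul _
    · by_cases h2 : ∃ i, k i = e.succ
      · obtain ⟨i, hi⟩ := h2
        have hiv : (k i : ℕ) = e + 1 := by rw [hi]; rfl
        have hoth : xx (fun i => adj e (k i)) = Function.update (xx k) i (tt M (k i - 1)) := by
          funext j
          by_cases hj : j = i
          · subst hj
            rw [Function.update_self]
            simp only [xx]
            rw [hi, adj, Equiv.swap_apply_right, hss, hcs, Nat.add_sub_cancel]
          · rw [Function.update_of_ne hj]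
            simp only [xx]
            rw [adj, Equiv.swap_apply_of_ne_of_ne]
            · intro hc; exact h1 ⟨j, hc⟩
            · intro hc; exact hj (hinj (hc.trans hi.symm))
        rw [hoth]
        refine le_trans ?_ (Finset.single_le_sum hnn (mem_univ i))
        rw [if_neg (by omega), if_pos hiv.symm, zero_add]
        unfold DM
        rw [hiv, Nat.add_sub_cancel, div_pow, le_div_iff₀ (by
          have : tt M e - tt M (e + 1) ≠ 0 := by linarith [hst0] |> fun (h : tt M e - tt M (e + 1) < 0) => h.ne
          positivity)]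
        have hd : 0 ≤ (h (Function.update (xx k) i (tt M ↑e)) - h (xx k)) ^ 2 := by positivity
        calc _ = (ww M e * (tt M (e + 1) - tt M e) ^ 2) *
            (h (Function.update (xx k) i (tt M ↑e)) - h (xx k)) ^ 2 := by ring
          _ ≤ 1 * _ := mul_le_mul_of_nonneg_right hst1 hd
          _ = _ := one_mul _
      · have hoth : (fun i => adj e (k i)) = k := by
          funext j
          rw [adj, Equiv.swap_apply_of_ne_of_ne]
          · intro hc; exact h1 ⟨j, hc⟩
          · intro hc; exact h2 ⟨j, hc⟩
        rw [hoth, sub_self]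
        simp only [ne_eq, OfNat.ofNat_ne_zero, not_false_eq_true, zero_pow, mul_zero]
        exact Finset.sum_nonneg hnn
  unfold En
  refine (Finset.sum_le_sum fun e _ => key e).trans ?_
  rw [Finset.sum_comm]
  apply Finset.sum_le_sum
  intro i _
  rw [Finset.sum_add_distrib]
  exact add_le_add (sum_ite_edge_le _ _ (by positivity)) (sum_ite_edge_le' _ _ (by positivity))

open Classical in
/-- crude energy bound -/
lemma En_le (R : Fin n → Fin n → Prop) {h : (Fin n → ℝ) → ℝ} {B : ℝ} (hB0 : 0 ≤ B)
    (hB : ∀ x y, |h x - h y| ≤ B * ∑ i, |x i - y i|) (k : Fin n → Fin (M + 1)) :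
    En R (fun k : Fin n → Fin (M + 1) => h (xx k)) k ≤ 2 * B ^ 2 * n ^ 2 := by
  have key : ∀ e : Fin M, ww M e * (if VT R (fun i => adj e (k i)) then
      (h (xx (fun i => adj e (k i))) - h (xx k)) ^ 2 else 0) ≤
      ∑ i, ((if (e : ℕ) = k i then B ^ 2 * n else 0) +
        (if (e : ℕ) + 1 = k i then B ^ 2 * n else 0)) := by
    intro e
    have hle1 : ww M e * (if VT R (fun i => adj e (k i)) then
      (h (xx (fun i => adj e (k i))) - h (xx k)) ^ 2 else 0) ≤
      ww M e * (h (xx (fun i => adj e (k i))) - h (xx k)) ^ 2 := by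
      apply mul_le_mul_of_nonneg_left _ (ww_pos M e).le
      split_ifs
      · exact le_refl _
      · positivity
    refine hle1.trans ?_
    obtain ⟨hst0, hst1⟩ := tt_step M e e.2
    have hcs : (e.castSucc : ℕ) = e := rfl
    have hss : (e.succ : ℕ) = e + 1 := rfl
    set δ := tt M (e + 1) - tt M e with hδ
    set c : Fin n → ℝ := fun i => (if (e : ℕ) = k i then 1 else 0) +
      (if (e : ℕ) + 1 = k i then 1 else 0) with hc
    have hc1 : ∀ i, c i ≤ 1 := by
      intro i
      simp only [hc]
      split_ifs with h1 h2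
      · omega
      · norm_num
      · norm_num
      · norm_num
    have hc0 : ∀ i, 0 ≤ c i := by
      intro i
      simp only [hc]
      split_ifs <;> norm_num
    have hcn : ∑ i, c i ≤ n := by
      calc ∑ i, c i ≤ ∑ _i : Fin n, (1 : ℝ) := Finset.sum_le_sum fun i _ => hc1 i
        _ = n := by simp
    have hd : ∀ i, |xx (fun i => adj e (k i)) i - xx k i| = c i * δ := by
      intro i
      simp only [xx, hc]
      by_cases h1 : k i = e.castSucc
      · have hiv : (k i : ℕ) = e := by rw [h1]; rfl
        rw [h1, adj, Equiv.swap_apply_left, hss, hcs, if_pos rfl, if_neg (by omega), ← hδ,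
          abs_of_pos hst0]
        ring
      · by_cases h2 : k i = e.succ
        · have hiv : (k i : ℕ) = e + 1 := by rw [h2]; rfl
          rw [h2, adj, Equiv.swap_apply_right, hss, hcs, if_neg (by omega), if_pos rfl,
            abs_sub_comm, ← hδ, abs_of_pos hst0]
          ring
        · have n1 : ¬ ((e : ℕ) = k i) := fun h => h1 (Fin.ext h.symm)
          have n2 : ¬ ((e : ℕ) + 1 = k i) := fun h => h2 (Fin.ext h.symm)
          rw [adj, Equiv.swap_apply_of_ne_of_ne h1 h2, if_neg n1, if_neg n2]
          simp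
    have h3 : |h (xx (fun i => adj e (k i))) - h (xx k)| ≤ B * ((∑ i, c i) * δ) := by
      refine (hB _ _).trans (le_of_eq ?_)
      congr 1
      rw [Finset.sum_mul]
      exact Finset.sum_congr rfl fun i _ => hd i
    have hS : 0 ≤ ∑ i, c i := Finset.sum_nonneg fun i _ => hc0 i
    have h4 : (h (xx (fun i => adj e (k i))) - h (xx k)) ^ 2 ≤ (B * ((∑ i, c i) * δ)) ^ 2 := by
      rw [← sq_abs]
      exact pow_le_pow_left₀ (abs_nonneg _) h3 2
    calc ww M e * (h (xx (fun i => adj e (k i))) - h (xx k)) ^ 2
        ≤ ww M e * (B * ((∑ i, c i) * δ)) ^ 2 := mul_le_mul_of_nonneg_left h4 (ww_pos M e).le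
      _ = (ww M e * δ ^ 2) * (B ^ 2 * (∑ i, c i) ^ 2) := by ring
      _ ≤ 1 * (B ^ 2 * (∑ i, c i) ^ 2) := mul_le_mul_of_nonneg_right hst1 (by positivity)
      _ ≤ B ^ 2 * (n * ∑ i, c i) := by
        rw [one_mul]
        apply mul_le_mul_of_nonneg_left _ (by positivity)
        rw [sq]
        exact mul_le_mul_of_nonneg_right hcn hS
      _ = _ := by
        rw [Finset.mul_sum, Finset.mul_sum]
        apply Finset.sum_congr rfl
        intro i _
        simp only [hc]
        split_ifs <;> ring
  unfold En
  refine (Finset.sum_le_sum fun e _ => key e).trans ?_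
  rw [Finset.sum_comm]
  have hb : (0 : ℝ) ≤ B ^ 2 * n := by positivity
  calc ∑ i, ∑ e : Fin M, ((if (e : ℕ) = k i then B ^ 2 * n else 0) +
        (if (e : ℕ) + 1 = k i then B ^ 2 * (n : ℝ) else 0))
      ≤ ∑ _i : Fin n, (B ^ 2 * n + B ^ 2 * (n : ℝ)) := by
        apply Finset.sum_le_sum
        intro i _
        rw [Finset.sum_add_distrib]
        exact add_le_add (sum_ite_edge_le _ _ hb) (sum_ite_edge_le' _ _ hb)
    _ = _ := by
        rw [Finset.sum_const, Finset.card_univ, Fintype.card_fin, nsmul_eq_mul]
        ring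

end Pool.Agent.Lib.MP_6d896a_gt
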