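import Mathlib
import Pool.Agent.Lib.MP_6d896a_gt.Limit

/-!
Passing to the limit: Poincare inequality for independent logistic variables conditioned
on order constraints.
-/

namespace Pool.Agent.Lib.MP_6d896a_gt

open Finset MeasureTheory Filter Topology ProbabilityTheory

variable {n M : ℕ}

lemma pi_ne {n : ℕ} (ν : Measure ℝ) [IsProbabilityMeasure ν] [NullSingletonClass ν]
    {i j : Fin n} (hij : i ≠ j) :
    ∀ᵐ x ∂(Measure.pi fun _ : Fin n => ν), x i ≠ x j := by
  have hind : iIndepFun (fun (i : Fin n) (ω : Fin n → ℝ) => ω i)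
      (Measure.pi fun _ : Fin n => ν) := by
    have := iIndepFun_pi (μ := fun _ : Fin n => ν) (X := fun _ => id)
      (fun _ => aemeasurable_id)
    exact this
  have h2 := hind.indepFun hij
  rw [indepFun_iff_map_prod_eq_prod_map_map (measurable_pi_apply i).aemeasurable
    (measurable_pi_apply j).aemeasurable] at h2
  have e1 : (Measure.pi fun _ : Fin n => ν).map (fun ω => ω i) = ν :=
    (measurePreserving_eval (fun _ : Fin n => ν) i).map_eq
  have e2 : (Measure.pi fun _ : Fin n => ν).map (fun ω => ω j) = ν :=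
    (measurePreserving_eval (fun _ : Fin n => ν) j).map_eq
  rw [e1, e2] at h2
  have hD : MeasurableSet {p : ℝ × ℝ | p.1 = p.2} :=
    measurableSet_eq_fun measurable_fst measurable_snd
  have h3 : (ν.prod ν) {p : ℝ × ℝ | p.1 = p.2} = 0 := by
    rw [Measure.measure_prod_null hD]
    apply ae_of_all
    intro x
    have : Prod.mk x ⁻¹' {p : ℝ × ℝ | p.1 = p.2} = {x} := by
      ext y; simp [eq_comm]
    simp only [this, Pi.zero_apply]
    exact measure_singleton x
  rw [← h2, Measure.map_apply ((measurable_pi_apply i).prodMk (measurable_pi_apply j)) hD] at h3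
  exact measure_eq_zero_iff_ae_notMem.mp h3

/-! ### one dimensional limits -/

lemma tendsto_cell_div {u : ℝ} (h0 : 0 < u) (h1 : u < 1) :
    Tendsto (fun M : ℕ => ((cell M u : ℕ) : ℝ) / ((M : ℝ) + 1)) atTop (𝓝 u) := by
  have hlim : Tendsto (fun M : ℕ => u - 1 / ((M : ℝ) + 1)) atTop (𝓝 u) := by
    have := tendsto_one_div_add_atTop_nhds_zero_nat (𝕜 := ℝ)
    simpa using tendsto_const_nhds.sub this
  refine tendsto_of_tendsto_of_tendsto_of_le_of_le hlim tendsto_const_nhds ?_ ?_
  · intro M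
    have hM : (0 : ℝ) < (M : ℝ) + 1 := by positivity
    have := (cell_mem (M := M) h0 h1).2
    simp only
    rw [le_div_iff₀ hM, sub_mul, div_mul_cancel₀ _ hM.ne']
    linarith
  · intro M
    have hM : (0 : ℝ) < (M : ℝ) + 1 := by positivity
    have := (cell_mem (M := M) h0 h1).1
    simp only
    rw [div_le_iff₀ hM]
    linarith

lemma tendsto_tt_of {u : ℝ} (h0 : 0 < u) (h1 : u < 1) {k : ℕ → ℕ}
    (hk : Tendsto (fun M : ℕ => (k M : ℝ) / ((M : ℝ) + 1)) atTop (𝓝 u)) :
    Tendsto (fun M : ℕ => tt M (k M)) atTop (𝓝 (lg u)) := by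
  have hlim := tendsto_one_div_add_atTop_nhds_zero_nat (𝕜 := ℝ)
  have h2 : Tendsto (fun M : ℕ => ((k M : ℝ) / ((M : ℝ) + 1) + 1 / ((M : ℝ) + 1)) /
      (1 - (k M : ℝ) / ((M : ℝ) + 1))) atTop (𝓝 (u / (1 - u))) := by
    have h3 : Tendsto (fun M : ℕ => (k M : ℝ) / ((M : ℝ) + 1) + 1 / ((M : ℝ) + 1)) atTop
        (𝓝 u) := by simpa using hk.add hlim
    exact h3.div (tendsto_const_nhds.sub hk) (by linarith)
  have h4 : Tendsto (fun M : ℕ => Real.log (((k M : ℝ) / ((M : ℝ) + 1) + 1 / ((M : ℝ) + 1)) /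
      (1 - (k M : ℝ) / ((M : ℝ) + 1)))) atTop (𝓝 (lg u)) := by
    apply (Real.continuousAt_log _).tendsto.comp h2
    have : 0 < u / (1 - u) := div_pos h0 (by linarith)
    exact this.ne'
  refine h4.congr fun M => ?_
  unfold tt
  congr 1
  have hM : (0 : ℝ) < (M : ℝ) + 1 := by positivity
  rw [← add_div, one_sub_div hM.ne', div_div_div_cancel_right₀ hM.ne']

lemma tendsto_tt_cell {u : ℝ} (h0 : 0 < u) (h1 : u < 1) :
    Tendsto (fun M : ℕ => tt M (cell M u)) atTop (𝓝 (lg u)) :=
  tendsto_tt_of h0 h1 (tendsto_cell_div h0 h1)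

lemma tendsto_tt_cell_succ {u : ℝ} (h0 : 0 < u) (h1 : u < 1) :
    Tendsto (fun M : ℕ => tt M (cell M u + 1)) atTop (𝓝 (lg u)) := by
  apply tendsto_tt_of h0 h1
  have h := (tendsto_cell_div h0 h1).add (tendsto_one_div_add_atTop_nhds_zero_nat (𝕜 := ℝ))
  rw [add_zero] at h
  refine h.congr fun M => ?_
  push_cast
  ring

lemma eventually_cell_pos {u : ℝ} (h0 : 0 < u) (h1 : u < 1) :
    ∀ᶠ M : ℕ in atTop, 1 ≤ (cell M u : ℕ) := by
  have h2 : Tendsto (fun M : ℕ => ((M : ℝ) + 1) * u) atTop atTop :=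
    (tendsto_atTop_add_const_right _ _ tendsto_natCast_atTop_atTop).atTop_mul_const h0
  filter_upwards [h2.eventually_gt_atTop 1] with M hM
  have := (cell_mem (M := M) h0 h1).2
  have h3 : (0 : ℝ) < (cell M u : ℕ) := by linarith
  exact_mod_cast h3

lemma eventually_cell_lt {u : ℝ} (h0 : 0 < u) (h1 : u < 1) :
    ∀ᶠ M : ℕ in atTop, (cell M u : ℕ) < M := by
  have h2 : Tendsto (fun M : ℕ => ((M : ℝ) + 1) * (1 - u)) atTop atTop :=
    (tendsto_atTop_add_const_right _ _ tendsto_natCast_atTop_atTop).atTop_mul_const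
      (by linarith)
  filter_upwards [h2.eventually_gt_atTop 1] with M hM
  have := (cell_mem (M := M) h0 h1).1
  have h3 : ((cell M u : ℕ) : ℝ) < M := by linarith
  exact_mod_cast h3

lemma tendsto_tt_cell_pred {u : ℝ} (h0 : 0 < u) (h1 : u < 1) :
    Tendsto (fun M : ℕ => tt M (cell M u - 1)) atTop (𝓝 (lg u)) := by
  apply tendsto_tt_of h0 h1
  have h := (tendsto_cell_div h0 h1).sub (tendsto_one_div_add_atTop_nhds_zero_nat (𝕜 := ℝ))
  rw [sub_zero] at h
  refine h.congr' ?_
  filter_upwards [eventually_cell_pos h0 h1] with M hM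
  rw [Nat.cast_sub hM]
  push_cast
  ring

lemma eventually_cell_gap {u u' : ℝ} (h0 : 0 < u) (h1 : u' < 1) (h : u < u') :
    ∀ᶠ M : ℕ in atTop, (cell M u : ℕ) + 1 < cell M u' := by
  have h2 : Tendsto (fun M : ℕ => ((M : ℝ) + 1) * (u' - u)) atTop atTop :=
    (tendsto_atTop_add_const_right _ _ tendsto_natCast_atTop_atTop).atTop_mul_const
      (by linarith)
  filter_upwards [h2.eventually_gt_atTop 3] with M hM
  have e1 := (cell_mem (M := M) h0 (h.trans h1)).1
  have e2 := (cell_mem (M := M) (h0.trans h) h1).2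
  have h3 : ((cell M u : ℕ) : ℝ) + 1 < (cell M u' : ℕ) := by linarith
  exact_mod_cast h3

lemma lt_of_cell_lt {u u' : ℝ} (h0 : 0 < u) (h1 : u < 1) (h0' : 0 < u') (h1' : u' < 1)
    {M : ℕ} (h : cell M u < cell M u') : u < u' := by
  by_contra hcon
  push Not at hcon
  have e1 := cell_mem (M := M) h0 h1
  have e2 := cell_mem (M := M) h0' h1'
  have h3 : ((cell M u : ℕ) : ℝ) + 1 ≤ (cell M u' : ℕ) := by exact_mod_cast h
  have hM : (0 : ℝ) < (M : ℝ) + 1 := by positivity
  have h4 : ((M : ℝ) + 1) * u' ≤ (M + 1) * u := mul_le_mul_of_nonneg_left hcon hM.le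
  linarith [e1.2, e2.1]

/-! ### good points of the cube -/

/-- good points -/
def Good (U : Fin n → ℝ) : Prop := (∀ i, 0 < U i ∧ U i < 1) ∧ ∀ i j, i ≠ j → U i ≠ U j

lemma unif_nullSingleton : NullSingletonClass unif := by unfold unif; infer_instance

lemma good_ae (n : ℕ) : ∀ᵐ U ∂(cube n), Good U := by
  have h1 : ∀ᵐ U ∂(cube n), ∀ i, 0 < U i ∧ U i < 1 := by
    rw [ae_all_iff]
    intro i
    have h2 : ∀ᵐ u ∂unif, 0 < u ∧ u < 1 := by
      unfold unif
      rw [ae_restrict_iff' measurableSet_Ioo]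
      exact ae_of_all _ fun u hu => hu
    exact (Measure.quasiMeasurePreserving_eval (fun _ : Fin n => unif) i).ae h2
  have h3 : ∀ᵐ U ∂(cube n), ∀ i j, i ≠ j → U i ≠ U j := by
    rw [ae_all_iff]
    intro i
    rw [ae_all_iff]
    intro j
    by_cases hij : i = j
    · exact ae_of_all _ fun U h => absurd hij h
    · haveI := unif_nullSingleton
      filter_upwards [pi_ne unif hij] with U hU _
      exact hU
  filter_upwards [h1, h3] with U ha hb
  exact ⟨ha, hb⟩

/-- the order cone -/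
def OC (R : Fin n → Fin n → Prop) : Set (Fin n → ℝ) := {x | ∀ i j, R i j → x i ≤ x j}

lemma OC_measurable (R : Fin n → Fin n → Prop) : MeasurableSet (OC R) := by
  have : OC R = ⋂ i, ⋂ j, {x : Fin n → ℝ | R i j → x i ≤ x j} := by
    ext x; simp [OC]
  rw [this]
  refine MeasurableSet.iInter fun i => MeasurableSet.iInter fun j => ?_
  by_cases h : R i j
  · have : {x : Fin n → ℝ | R i j → x i ≤ x j} = {x | x i ≤ x j} := by
      ext x; simp [h]
    rw [this]
    exact measurableSet_le (measurable_pi_apply i) (measurable_pi_apply j)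
  · have : {x : Fin n → ℝ | R i j → x i ≤ x j} = Set.univ := by
      ext x; simp [h]
    rw [this]
    exact MeasurableSet.univ

/-- remove the diagonal from a relation -/
def off (R : Fin n → Fin n → Prop) : Fin n → Fin n → Prop := fun i j => R i j ∧ i ≠ j

lemma good_sep {U : Fin n → ℝ} (hU : Good U) : ∀ᶠ M : ℕ in atTop, Sep (kap M U) := by
  have : ∀ i j, ∀ᶠ M : ℕ in atTop, (kap M U i : ℕ) + 1 ≠ kap M U j := by
    intro i j
    by_cases hij : i = j
    · subst hij
      exact Eventually.of_forall fun M => by omega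
    · rcases lt_or_gt_of_ne (hU.2 i j hij) with h | h
      · filter_upwards [eventually_cell_gap (hU.1 i).1 (hU.1 j).2 h] with M hM
        unfold kap
        omega
      · filter_upwards [eventually_cell_gap (hU.1 j).1 (hU.1 i).2 h] with M hM
        unfold kap
        omega
  unfold Sep
  rw [eventually_all]
  intro i
  rw [eventually_all]
  exact this i

lemma good_VT (R : Fin n → Fin n → Prop) {U : Fin n → ℝ} (hU : Good U) :
    ∀ᶠ M : ℕ in atTop, (VT (off R) (kap M U) ↔ U ∈ OC R) := by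
  have h1 : ∀ i j, i ≠ j → U i < U j → ∀ᶠ M : ℕ in atTop, kap M U i < kap M U j := by
    intro i j _ h
    filter_upwards [eventually_cell_gap (hU.1 i).1 (hU.1 j).2 h] with M hM
    show (cell M (U i) : ℕ) < cell M (U j)
    omega
  have h2 : ∀ᶠ M : ℕ in atTop, ∀ i j, i ≠ j → U i < U j → kap M U i < kap M U j := by
    rw [eventually_all]
    intro i
    rw [eventually_all]
    intro j
    by_cases hij : i = j
    · exact Eventually.of_forall fun M h => absurd hij h
    · by_cases hlt : U i < U j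
      · filter_upwards [h1 i j hij hlt] with M hM _ _
        exact hM
      · exact Eventually.of_forall fun M _ h => absurd h hlt
  filter_upwards [h2] with M hM
  constructor
  · rintro ⟨_, hv⟩ i j hij
    by_cases h : i = j
    · rw [h]
    · exact (lt_of_cell_lt (hU.1 i).1 (hU.1 i).2 (hU.1 j).1 (hU.1 j).2 (hv i j ⟨hij, h⟩)).le
  · intro hC
    constructor
    · intro i j hij
      by_contra hne
      rcases lt_or_gt_of_ne (hU.2 i j hne) with h | h
      · exact absurd hij (ne_of_lt (hM i j hne h))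
      · exact absurd hij (ne_of_gt (hM j i (Ne.symm hne) h))
    · rintro i j ⟨hij, hne⟩
      exact hM i j hne (lt_of_le_of_ne (hC i j hij) (hU.2 i j hne))

/-- coordinatewise logistic quantile -/
noncomputable def Lg (U : Fin n → ℝ) : Fin n → ℝ := fun i => lg (U i)

lemma good_xx {U : Fin n → ℝ} (hU : Good U) :
    Tendsto (fun M : ℕ => xx (kap M U)) atTop (𝓝 (Lg U)) := by
  rw [tendsto_pi_nhds]
  intro i
  exact tendsto_tt_cell (hU.1 i).1 (hU.1 i).2

lemma tendsto_quot {h : (Fin n → ℝ) → ℝ} (hh : ContDiff ℝ 1 h) {X : Fin n → ℝ} (i : Fin n)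
    {x : ℕ → Fin n → ℝ} {y : ℕ → ℝ} (hx : Tendsto x atTop (𝓝 X))
    (hy : Tendsto y atTop (𝓝 (X i))) (hne : ∀ᶠ M in atTop, y M ≠ x M i) :
    Tendsto (fun M => (h (Function.update (x M) i (y M)) - h (x M)) / (y M - x M i)) atTop
      (𝓝 (fderiv ℝ h X (Pi.single i 1))) := by
  have hs : HasStrictFDerivAt h (fderiv ℝ h X) X :=
    hh.contDiffAt.hasStrictFDerivAt (by norm_num)
  have hup : Tendsto (fun M => Function.update (x M) i (y M)) atTop (𝓝 X) := by
    have := hx.update i hy
    rwa [Function.update_eq_self] at this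
  have hpair : Tendsto (fun M => (Function.update (x M) i (y M), x M)) atTop (𝓝 (X, X)) :=
    hup.prodMk_nhds hx
  have hlo := hs.isLittleO.comp_tendsto hpair
  rw [Metric.tendsto_nhds]
  intro ε hε
  have h1 := (Asymptotics.isLittleO_iff.mp hlo) (half_pos hε)
  filter_upwards [h1, hne] with M hM hneM
  simp only [Function.comp] at hM
  have hdiff : Function.update (x M) i (y M) - x M = (y M - x M i) • (Pi.single i 1 : Fin n → ℝ) := by
    funext j
    by_cases hj : j = i
    · subst hj; simp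
    · simp [Function.update_of_ne hj, Pi.single_eq_of_ne hj]
  rw [hdiff, map_smul, norm_smul, smul_eq_mul] at hM
  have hd : y M - x M i ≠ 0 := sub_ne_zero.mpr hneM
  have hnorm : ‖(Pi.single i 1 : Fin n → ℝ)‖ ≤ 1 := by
    rw [pi_norm_le_iff_of_nonneg zero_le_one]
    intro j
    by_cases hj : j = i
    · subst hj; simp
    · simp [Pi.single_eq_of_ne hj]
  have hpos : 0 < |y M - x M i| := abs_pos.mpr hd
  rw [Real.dist_eq]
  have e : (h (Function.update (x M) i (y M)) - h (x M)) / (y M - x M i) -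
      fderiv ℝ h X (Pi.single i 1) = (h (Function.update (x M) i (y M)) - h (x M) -
        (y M - x M i) * fderiv ℝ h X (Pi.single i 1)) / (y M - x M i) := by
    field_simp
  rw [e, abs_div, div_lt_iff₀ hpos]
  rw [Real.norm_eq_abs, Real.norm_eq_abs] at hM
  calc _ ≤ ε / 2 * (|y M - x M i| * ‖(Pi.single i 1 : Fin n → ℝ)‖) := hM
    _ ≤ ε / 2 * (|y M - x M i| * 1) := by gcongr
    _ < ε * |y M - x M i| := by
      rw [mul_one]
      exact mul_lt_mul_of_pos_right (by linarith) hpos

lemma good_DP {h : (Fin n → ℝ) → ℝ} (hh : ContDiff ℝ 1 h) {U : Fin n → ℝ} (hU : Good U)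
    (i : Fin n) : Tendsto (fun M : ℕ => DP h (kap M U) i) atTop
      (𝓝 (fderiv ℝ h (Lg U) (Pi.single i 1))) := by
  unfold DP
  apply tendsto_quot hh i (x := fun M => xx (kap M U)) (y := fun M => tt M (kap M U i + 1))
    (good_xx hU)
  · exact tendsto_tt_cell_succ (hU.1 i).1 (hU.1 i).2
  · filter_upwards [eventually_cell_lt (hU.1 i).1 (hU.1 i).2] with M hM
    have := (tt_step M _ hM).1
    simp only [xx, kap]
    intro hc
    linarith

lemma good_DM {h : (Fin n → ℝ) → ℝ} (hh : ContDiff ℝ 1 h) {U : Fin n → ℝ} (hU : Good U)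
    (i : Fin n) : Tendsto (fun M : ℕ => DM h (kap M U) i) atTop
      (𝓝 (fderiv ℝ h (Lg U) (Pi.single i 1))) := by
  unfold DM
  apply tendsto_quot hh i (x := fun M => xx (kap M U)) (y := fun M => tt M (kap M U i - 1))
    (good_xx hU)
  · exact tendsto_tt_cell_pred (hU.1 i).1 (hU.1 i).2
  · filter_upwards [eventually_cell_lt (hU.1 i).1 (hU.1 i).2,
      eventually_cell_pos (hU.1 i).1 (hU.1 i).2] with M hM hM'
    have h1 : (cell M (U i) : ℕ) - 1 < M := by omega
    have := (tt_step M _ h1).1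
    rw [Nat.sub_add_cancel hM'] at this
    simp only [xx, kap]
    intro hc
    linarith

end Pool.Agent.Lib.MP_6d896a_gt
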