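import Mathlib
import Pool.Agent.Lib.MP_6d896a_gt.Cone

/-!
Poincare inequality for independent logistic variables conditioned on order constraints,
written on the unit cube.
-/

namespace Pool.Agent.Lib.MP_6d896a_gt

open Finset MeasureTheory Filter Topology ProbabilityTheory

variable {n : ℕ}

open Classical in
/-- convergence of integrals of functions of the cells -/
lemma tendsto_cells (R : Fin n → Fin n → Prop) (G : (M : ℕ) → (Fin n → Fin (M + 1)) → ℝ)
    (g : (Fin n → ℝ) → ℝ) (C : ℝ) (hC : ∀ M k, |G M k| ≤ C)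
    (hG : ∀ U, Good U → Tendsto (fun M => G M (kap M U)) atTop (𝓝 (g U))) :
    Tendsto (fun M : ℕ => ∫ U, (if VT (off R) (kap M U) then G M (kap M U) else 0) ∂(cube n))
      atTop (𝓝 (∫ U in OC R, g U ∂(cube n))) := by
  have hC0 : 0 ≤ C := le_trans (abs_nonneg _) (hC 0 (fun _ => 0))
  rw [← integral_indicator (OC_measurable R)]
  apply tendsto_integral_of_dominated_convergence (fun _ => C)
  · intro M
    have h1 : Measurable (fun k : Fin n → Fin (M + 1) =>
      if VT (off R) k then G M k else 0) := measurable_of_finite _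
    exact (h1.comp (kap_measurable M n)).aestronglyMeasurable
  · exact integrable_const _
  · intro M
    apply ae_of_all
    intro U
    split_ifs
    · exact hC M _
    · simpa using hC0
  · filter_upwards [good_ae n] with U hU
    by_cases hUC : U ∈ OC R
    · rw [Set.indicator_of_mem hUC]
      refine (hG U hU).congr' ?_
      filter_upwards [good_VT R hU] with M hM
      rw [if_pos (hM.mpr hUC)]
    · rw [Set.indicator_of_notMem hUC]
      refine tendsto_const_nhds.congr' ?_
      filter_upwards [good_VT R hU] with M hM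
      rw [if_neg (fun h => hUC (hM.mp h))]

/-- Poincare inequality on the cube -/
theorem poincare_cone (R : Fin n → Fin n → Prop) {h : (Fin n → ℝ) → ℝ} (hh : ContDiff ℝ 1 h)
    {K : ℝ} (hK : ∀ x, |h x| ≤ K) {B : ℝ} (hB0 : 0 ≤ B)
    (hB : ∀ x y, |h x - h y| ≤ B * ∑ i, |x i - y i|) :
    (cube n).real (OC R) * (∫ U in OC R, h (Lg U) ^ 2 ∂(cube n)) -
      (∫ U in OC R, h (Lg U) ∂(cube n)) ^ 2 ≤
    4 * ((cube n).real (OC R) *
      ∫ U in OC R, ∑ i, (fderiv ℝ h (Lg U) (Pi.single i 1)) ^ 2 ∂(cube n)) := by
  classical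
  have hK0 : 0 ≤ K := le_trans (abs_nonneg _) (hK 0)
  have t1 := tendsto_cells R (fun M _ => (1 : ℝ)) (fun _ => 1) 1 (by simp)
    (fun U _ => tendsto_const_nhds)
  have t2 := tendsto_cells R (fun M k => h (xx k) ^ 2) (fun U => h (Lg U) ^ 2) (K ^ 2)
    (fun M k => by
      rw [abs_pow]
      exact pow_le_pow_left₀ (abs_nonneg _) (hK _) 2)
    (fun U hU => ((hh.continuous.tendsto _).comp (good_xx hU)).pow 2)
  have t3 := tendsto_cells R (fun M k => h (xx k)) (fun U => h (Lg U)) K
    (fun M k => hK _)
    (fun U hU => (hh.continuous.tendsto _).comp (good_xx hU))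
  let q : (M : ℕ) → (Fin n → Fin (M + 1)) → ℝ := fun M k =>
    if Sep k then ∑ i, (DP h k i ^ 2 + DM h k i ^ 2) else 2 * B ^ 2 * n ^ 2
  have hDP : ∀ (M : ℕ) (k : Fin n → Fin (M + 1)) i, DP h k i ^ 2 ≤ B ^ 2 := by
    intro M k i
    unfold DP
    exact quot_sq_le hB0 hB (xx k) i (tt M (k i + 1))
  have hDM : ∀ (M : ℕ) (k : Fin n → Fin (M + 1)) i, DM h k i ^ 2 ≤ B ^ 2 := by
    intro M k i
    unfold DM
    exact quot_sq_le hB0 hB (xx k) i (tt M (k i - 1))
  have t4 := tendsto_cells R q
    (fun U => ∑ i, ((fderiv ℝ h (Lg U) (Pi.single i 1)) ^ 2 +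
      (fderiv ℝ h (Lg U) (Pi.single i 1)) ^ 2)) (2 * B ^ 2 * n ^ 2 + n * (2 * B ^ 2))
    (fun M k => by
      simp only [q]
      split_ifs
      · rw [abs_of_nonneg (Finset.sum_nonneg fun i _ => by positivity)]
        calc ∑ i, (DP h k i ^ 2 + DM h k i ^ 2) ≤ ∑ _i : Fin n, (B ^ 2 + B ^ 2) :=
              Finset.sum_le_sum fun i _ => add_le_add (hDP M k i) (hDM M k i)
          _ = n * (2 * B ^ 2) := by
              rw [Finset.sum_const, Finset.card_univ, Fintype.card_fin, nsmul_eq_mul]; ring
          _ ≤ _ := by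
              have : 0 ≤ 2 * B ^ 2 * (n : ℝ) ^ 2 := by positivity
              linarith
      · rw [abs_of_nonneg (by positivity)]
        have : 0 ≤ n * (2 * B ^ 2) := by positivity
        linarith)
    (fun U hU => by
      have h1 : Tendsto (fun M => ∑ i, (DP h (kap M U) i ^ 2 + DM h (kap M U) i ^ 2)) atTop
          (𝓝 (∑ i, ((fderiv ℝ h (Lg U) (Pi.single i 1)) ^ 2 +
            (fderiv ℝ h (Lg U) (Pi.single i 1)) ^ 2))) :=
        tendsto_finset_sum _ fun i _ => ((good_DP hh hU i).pow 2).add ((good_DM hh hU i).pow 2)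
      refine h1.congr' ?_
      filter_upwards [good_sep hU] with M hM
      simp only [q]
      rw [if_pos hM])
  have hmain : ∀ᶠ M : ℕ in atTop,
      (1 / 4) * ((∫ U, (if VT (off R) (kap M U) then (1 : ℝ) else 0) ∂(cube n)) *
      (∫ U, (if VT (off R) (kap M U) then h (xx (kap M U)) ^ 2 else 0) ∂(cube n)) -
      (∫ U, (if VT (off R) (kap M U) then h (xx (kap M U)) else 0) ∂(cube n)) ^ 2) ≤
      (∫ U, (if VT (off R) (kap M U) then (1 : ℝ) else 0) ∂(cube n)) *
      ((1 / 2) * (∫ U, (if VT (off R) (kap M U) then q M (kap M U) else 0) ∂(cube n))) := by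
    filter_upwards [eventually_ge_atTop n] with M hM
    have h0 := poincare_cube (off R) (by omega : n ≤ M + 1)
      (fun k : Fin n → Fin (M + 1) => h (xx k))
    refine h0.trans ?_
    apply mul_le_mul_of_nonneg_left
    · apply mul_le_mul_of_nonneg_left _ (by norm_num)
      apply integral_mono_of_nonneg
      · apply ae_of_all
        intro U
        simp only [Pi.zero_apply]
        split_ifs
        · unfold En
          apply Finset.sum_nonneg
          intro e _
          apply mul_nonneg (ww_pos M e).le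
          split_ifs
          · positivity
          · exact le_refl _
        · exact le_refl _
      · have h1 : Measurable (fun k : Fin n → Fin (M + 1) =>
          if VT (off R) k then q M k else 0) := measurable_of_finite _
        apply Integrable.of_bound (C := ∑ k : Fin n → Fin (M + 1), |if VT (off R) k then q M k else 0|)
          (h1.comp (kap_measurable M n)).aestronglyMeasurable
        apply ae_of_all
        intro U
        rw [Real.norm_eq_abs]
        exact Finset.single_le_sum (f := fun k => |if VT (off R) k then q M k else 0|)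
          (fun k _ => abs_nonneg _) (Finset.mem_univ (kap M U))
      · apply ae_of_all
        intro U
        by_cases hv : VT (off R) (kap M U)
        · simp only [if_pos hv, q]
          by_cases hs : Sep (kap M U)
          · rw [if_pos hs]
            exact En_le_sep (off R) (kap M U) hv.1 hs
          · rw [if_neg hs]
            exact En_le (off R) hB0 hB (kap M U)
        · simp only [if_neg hv]
          exact le_refl _
    · apply integral_nonneg
      intro U
      simp only [Pi.zero_apply]
      split_ifs <;> norm_num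
  have hlim := le_of_tendsto_of_tendsto
    (((t1.mul t2).sub (t3.pow 2)).const_mul (1 / 4)) (t1.mul (t4.const_mul (1 / 2))) hmain
  have e1 : ∫ _U in OC R, (1 : ℝ) ∂(cube n) = (cube n).real (OC R) := by
    rw [setIntegral_const, smul_eq_mul, mul_one]
  rw [e1] at hlim
  have e2 : ∫ U in OC R, ∑ i, ((fderiv ℝ h (Lg U) (Pi.single i 1)) ^ 2 +
      (fderiv ℝ h (Lg U) (Pi.single i 1)) ^ 2) ∂(cube n) =
      2 * ∫ U in OC R, ∑ i, (fderiv ℝ h (Lg U) (Pi.single i 1)) ^ 2 ∂(cube n) := by
    rw [← integral_const_mul]
    congr 1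
    funext U
    rw [Finset.mul_sum]
    apply Finset.sum_congr rfl
    intro i _
    ring
  rw [e2] at hlim
  linarith

end Pool.Agent.Lib.MP_6d896a_gt
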