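import Mathlib
import Pool.Agent.Lib.MP_6d896a_gt.ConePoincare
import Pool.Agent.Lib.MP_6d896a_gt.Posterior
import Pool.Agent.Lib.MP_6d896a_gt.Channel2

/-!
The law of independent logistic variables on the order cone, as a measure with a density on the
Euclidean space, and its Poincare inequality.
-/

namespace Pool.Agent.Lib.MP_6d896a_gt

open MeasureTheory ProbabilityTheory Real Filter Topology
open scoped ENNReal

/-- logistic measure -/
noncomputable def lgm : Measure ℝ := volume.withDensity (fun x => ENNReal.ofReal (ld1 x))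

lemma ld1_eq_sig (x : ℝ) : ld1 x = Real.sigmoid x * (1 - Real.sigmoid x) := by
  unfold ld1
  rw [Real.sigmoid_def, Real.exp_neg]
  have := Real.exp_pos x
  field_simp
  ring

lemma lg_sig (x : ℝ) : lg (Real.sigmoid x) = x := by
  unfold lg
  have h : Real.sigmoid x / (1 - Real.sigmoid x) = Real.exp x := by
    rw [Real.sigmoid_def, Real.exp_neg]
    have := Real.exp_pos x
    field_simp
    ring
  rw [h, Real.log_exp]

lemma lg_measurable : Measurable lg := by
  unfold lg
  exact Real.measurable_log.comp (measurable_id.div (measurable_const.sub measurable_id))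

lemma lgm_eq : unif.map lg = lgm := by
  apply Measure.ext_of_lintegral
  intro F hF
  rw [lintegral_map hF lg_measurable]
  unfold unif
  have himg : Real.sigmoid '' Set.univ = Set.Ioo 0 1 := by
    rw [Set.image_univ, range_sigmoid]
  rw [← himg]
  rw [lintegral_image_eq_lintegral_abs_deriv_mul MeasurableSet.univ
    (fun x _ => (hasDerivAt_sigmoid x).hasDerivWithinAt) Real.sigmoid_injective.injOn]
  rw [Measure.restrict_univ]
  unfold lgm
  have hm : Measurable (fun x => ENNReal.ofReal (ld1 x)) := ld1_continuous.measurable.ennreal_ofReal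
  rw [lintegral_withDensity_eq_lintegral_mul _ hm hF]
  apply lintegral_congr
  intro x
  simp only [Pi.mul_apply, lg_sig]
  rw [ld1_eq_sig, abs_of_nonneg]
  exact mul_nonneg (Real.sigmoid_nonneg x) (by linarith [Real.sigmoid_le_one x])

lemma lgm_prob : IsProbabilityMeasure lgm := by
  rw [← lgm_eq]
  exact Measure.isProbabilityMeasure_map lg_measurable.aemeasurable

lemma ld1_integrable : Integrable ld1 := by
  have h := lgm_prob.measure_univ
  unfold lgm at h
  rw [withDensity_apply _ MeasurableSet.univ, Measure.restrict_univ] at h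
  refine ⟨ld1_continuous.aestronglyMeasurable, ?_⟩
  rw [hasFiniteIntegral_iff_ofReal (ae_of_all _ fun x => (ld1_pos x).le), h]
  exact ENNReal.one_lt_top

variable {n : ℕ}

lemma pi_lgm : Measure.pi (fun _ : Fin n => lgm) =
    (volume : Measure (Fin n → ℝ)).withDensity (fun x => ENNReal.ofReal (∏ i, ld1 (x i))) := by
  have := lgm_prob
  apply Measure.pi_eq
  intro s hs
  rw [withDensity_apply _ (MeasurableSet.univ_pi hs)]
  have hind : ∀ x : Fin n → ℝ, (Set.univ.pi s).indicator (fun x => ENNReal.ofReal (∏ i, ld1 (x i))) x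
      = ENNReal.ofReal (∏ i, (s i).indicator ld1 (x i)) := by
    intro x
    by_cases hx : x ∈ Set.univ.pi s
    · rw [Set.indicator_of_mem hx]
      congr 1
      apply Finset.prod_congr rfl
      intro i _
      rw [Set.indicator_of_mem (hx i (Set.mem_univ i))]
    · rw [Set.indicator_of_notMem hx]
      have : ∃ i, x i ∉ s i := by
        by_contra hcon
        push Not at hcon
        exact hx fun i _ => hcon i
      obtain ⟨i, hi⟩ := this
      rw [Finset.prod_eq_zero (Finset.mem_univ i) (Set.indicator_of_notMem hi ld1)]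
      simp
  rw [← lintegral_indicator (MeasurableSet.univ_pi hs)]
  simp only [hind]
  have hii : ∀ i, Integrable ((s i).indicator ld1) := fun i => ld1_integrable.indicator (hs i)
  have hnn : ∀ i t, 0 ≤ (s i).indicator ld1 t := fun i t =>
    Set.indicator_nonneg (fun t _ => (ld1_pos t).le) t
  have hprod : Integrable (fun x : Fin n → ℝ => ∏ i, (s i).indicator ld1 (x i)) :=
    Integrable.fintype_prod (f := fun i => (s i).indicator ld1) (fun i => hii i)
  rw [← ofReal_integral_eq_lintegral_ofReal hprod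
    (ae_of_all _ fun x => Finset.prod_nonneg fun i _ => hnn i _)]
  rw [integral_fintype_prod_volume_eq_prod (f := fun i => (s i).indicator ld1)]
  rw [ENNReal.ofReal_prod_of_nonneg (fun i _ => integral_nonneg fun t => hnn i t)]
  apply Finset.prod_congr rfl
  intro i _
  unfold lgm
  rw [withDensity_apply _ (hs i), ofReal_integral_eq_lintegral_ofReal (hii i)
    (ae_of_all _ fun t => hnn i t), ← lintegral_indicator (hs i)]
  apply lintegral_congr
  intro t
  by_cases ht : t ∈ s i
  · rw [Set.indicator_of_mem ht, Set.indicator_of_mem ht]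
  · rw [Set.indicator_of_notMem ht, Set.indicator_of_notMem ht]
    simp

lemma Lg_measurable : Measurable (Lg : (Fin n → ℝ) → _) :=
  measurable_pi_lambda _ fun i => lg_measurable.comp (measurable_pi_apply i)

lemma map_Lg : (cube n).map Lg = Measure.pi (fun _ : Fin n => lgm) := by
  unfold cube Lg
  have hsf : ∀ _ : Fin n, SigmaFinite (unif.map lg) := fun _ => by
    rw [lgm_eq]
    have := lgm_prob
    infer_instance
  rw [Measure.pi_map_pi (fun _ => lg_measurable.aemeasurable)]
  simp only [lgm_eq]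

lemma lg_le_iff {u v : ℝ} (hu : 0 < u ∧ u < 1) (hv : 0 < v ∧ v < 1) : lg u ≤ lg v ↔ u ≤ v := by
  have e : ∀ w : ℝ, 0 < w → w < 1 → ∃ x, Real.sigmoid x = w := by
    intro w h0 h1
    have : w ∈ Set.range Real.sigmoid := by rw [range_sigmoid]; exact ⟨h0, h1⟩
    exact this
  obtain ⟨x, rfl⟩ := e u hu.1 hu.2
  obtain ⟨y, rfl⟩ := e v hv.1 hv.2
  rw [lg_sig, lg_sig, Real.sigmoid_le_iff]

lemma OC_Lg (R : Fin n → Fin n → Prop) : OC R =ᵐ[cube n] Lg ⁻¹' (OC R) := by
  filter_upwards [good_ae n] with U hU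
  apply propext
  show (∀ i j, R i j → U i ≤ U j) ↔ (∀ i j, R i j → lg (U i) ≤ lg (U j))
  constructor
  · intro h i j hij
    exact (lg_le_iff (hU.1 i) (hU.1 j)).mpr (h i j hij)
  · intro h i j hij
    exact (lg_le_iff (hU.1 i) (hU.1 j)).mp (h i j hij)

/-- the measure on the Euclidean space -/
noncomputable def mmE (R : Fin n → Fin n → Prop) : Measure (EuclideanSpace ℝ (Fin n)) :=
  volume.withDensity (fun x => ENNReal.ofReal (Wl R x))

lemma mmE_eq (R : Fin n → Fin n → Prop) :
    ((cube n).restrict (OC R)).map (fun U => WithLp.toLp 2 (Lg U)) = mmE R := by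
  have hto : Measurable (WithLp.toLp 2 : (Fin n → ℝ) → EuclideanSpace ℝ (Fin n)) :=
    (PiLp.continuous_toLp 2 (fun _ : Fin n => ℝ)).measurable
  have h1 : ((cube n).restrict (OC R)).map Lg =
      (Measure.pi (fun _ : Fin n => lgm)).restrict (OC R) := by
    rw [Measure.restrict_congr_set (OC_Lg R), ← map_Lg,
      Measure.restrict_map Lg_measurable (OC_measurable R)]
  apply Measure.ext_of_lintegral
  intro F hF
  have h2 : ((cube n).restrict (OC R)).map (fun U => WithLp.toLp 2 (Lg U)) =
      (((cube n).restrict (OC R)).map Lg).map (WithLp.toLp 2) := by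
    rw [Measure.map_map hto Lg_measurable]
    rfl
  rw [h2, lintegral_map hF hto, h1, pi_lgm]
  have hm1 : Measurable (fun x : Fin n → ℝ => ENNReal.ofReal (∏ i, ld1 (x i))) := by
    apply Measurable.ennreal_ofReal
    exact Finset.measurable_prod _ fun i _ => ld1_continuous.measurable.comp (measurable_pi_apply i)
  have hFm : Measurable (fun x : Fin n → ℝ => F (WithLp.toLp 2 x)) := hF.comp hto
  rw [restrict_withDensity (OC_measurable R), lintegral_withDensity_eq_lintegral_mul _ hm1 hFm]
  rw [← lintegral_indicator (OC_measurable R)]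
  unfold mmE
  rw [lintegral_withDensity_eq_lintegral_mul _ (Wl_measurable R).ennreal_ofReal hF]
  rw [← (PiLp.volume_preserving_toLp (Fin n)).lintegral_comp
    ((Wl_measurable R).ennreal_ofReal.mul hF)]
  apply lintegral_congr
  intro x
  by_cases hx : x ∈ OC R
  · rw [Set.indicator_of_mem hx]
    have hx' : WithLp.toLp 2 x ∈ CE R := hx
    simp only [Pi.mul_apply, Wl, Set.indicator_of_mem hx', ld]
  · rw [Set.indicator_of_notMem hx]
    have hx' : WithLp.toLp 2 x ∉ CE R := hx
    simp only [Pi.mul_apply, Wl, Set.indicator_of_notMem hx', ENNReal.ofReal_zero, zero_mul]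

lemma toLpLg_measurable : Measurable (fun U : Fin n → ℝ => WithLp.toLp 2 (Lg U)) :=
  (PiLp.continuous_toLp 2 (fun _ : Fin n => ℝ)).measurable.comp Lg_measurable

instance mmE_finite (R : Fin n → Fin n → Prop) : IsFiniteMeasure (mmE R) := by
  rw [← mmE_eq]
  infer_instance

lemma mmE_univ (R : Fin n → Fin n → Prop) : (mmE R).real Set.univ = (cube n).real (OC R) := by
  rw [measureReal_def, measureReal_def, ← mmE_eq, Measure.map_apply toLpLg_measurable
    MeasurableSet.univ, Set.preimage_univ, Measure.restrict_apply_univ]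

lemma mmE_integral (R : Fin n → Fin n → Prop) {F : EuclideanSpace ℝ (Fin n) → ℝ}
    (hF : Measurable F) :
    ∫ x, F x ∂(mmE R) = ∫ U in OC R, F (WithLp.toLp 2 (Lg U)) ∂(cube n) := by
  rw [← mmE_eq, integral_map toLpLg_measurable.aemeasurable hF.aestronglyMeasurable]

lemma norm_le_sum (x : EuclideanSpace ℝ (Fin n)) : ‖x‖ ≤ ∑ i, |x i| := by
  rw [EuclideanSpace.norm_eq]
  apply Real.sqrt_le_iff.mpr
  constructor
  · exact Finset.sum_nonneg fun i _ => abs_nonneg _
  · have := Finset.sum_sq_le_sq_sum_of_nonneg (s := Finset.univ) (f := fun i => |x i|)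
      (fun i _ => abs_nonneg _)
    simpa using this

/-- Poincare inequality on the Euclidean space -/
theorem mmE_poincare (R : Fin n → Fin n → Prop) (u : EuclideanSpace ℝ (Fin n) → ℝ)
    (hu : ContDiff ℝ 1 u) (hu1 : ∀ x, |u x| ≤ 1)
    (hul : ∃ B, 0 ≤ B ∧ ∀ x x', |u x - u x'| ≤ B * ‖x - x'‖) :
    (mmE R).real Set.univ * ∫ x, u x ^ 2 ∂(mmE R) - (∫ x, u x ∂(mmE R)) ^ 2 ≤
      4 * ((mmE R).real Set.univ * ∫ x, ‖fderiv ℝ u x‖ ^ 2 ∂(mmE R)) := by
  obtain ⟨B, hB0, hB⟩ := hul
  let h : (Fin n → ℝ) → ℝ := fun x => u (WithLp.toLp 2 x)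
  have hto : ContDiff ℝ 1 (WithLp.toLp 2 : (Fin n → ℝ) → EuclideanSpace ℝ (Fin n)) :=
    PiLp.contDiff_toLp
  have hh : ContDiff ℝ 1 h := hu.comp hto
  have hc := poincare_cone R hh (K := 1) (fun x => hu1 _) hB0 (fun x y => by
    refine (hB _ _).trans (mul_le_mul_of_nonneg_left ?_ hB0)
    exact norm_le_sum (WithLp.toLp 2 x - WithLp.toLp 2 y))
  have huc := hu.continuous
  have hfc : Continuous (fun x => ‖fderiv ℝ u x‖ ^ 2) :=
    (hu.continuous_fderiv (by norm_num)).norm.pow 2
  rw [mmE_univ, mmE_integral R (F := fun x => u x ^ 2) (huc.pow 2).measurable,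
    mmE_integral R huc.measurable,
    mmE_integral R (F := fun x => ‖fderiv ℝ u x‖ ^ 2) hfc.measurable]
  refine hc.trans (le_of_eq ?_)
  congr 2
  congr 1
  funext U
  have e1 : ∀ v : Fin n → ℝ, fderiv ℝ h (Lg U) v =
      fderiv ℝ u (WithLp.toLp 2 (Lg U)) (WithLp.toLp 2 v) := by
    intro v
    let eL : (Fin n → ℝ) ≃L[ℝ] EuclideanSpace ℝ (Fin n) :=
      (PiLp.continuousLinearEquiv 2 ℝ (fun _ : Fin n => ℝ)).symm
    have h2 : HasFDerivAt (fun x : Fin n → ℝ => (eL x)) (eL : (Fin n → ℝ) →L[ℝ] _) (Lg U) :=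
      eL.hasFDerivAt
    have h3 : HasFDerivAt u (fderiv ℝ u (WithLp.toLp 2 (Lg U))) (eL (Lg U)) :=
      (hu.differentiable (by norm_num) _).hasFDerivAt
    have h4 := h3.comp (Lg U) h2
    have h5 : HasFDerivAt h ((fderiv ℝ u (WithLp.toLp 2 (Lg U))).comp
      (eL : (Fin n → ℝ) →L[ℝ] _)) (Lg U) := h4
    rw [h5.fderiv]
    rfl
  have e2 := (EuclideanSpace.basisFun (Fin n) ℝ).norm_dual (fderiv ℝ u (WithLp.toLp 2 (Lg U)))
  rw [e2]
  apply Finset.sum_congr rfl
  intro i _
  rw [e1]
  simp only [EuclideanSpace.basisFun_apply]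
  rfl

end Pool.Agent.Lib.MP_6d896a_gt
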