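import Mathlib
import Pool.Agent.Lib.MP_6d896a_gt.LogMeasure

/-!
The functional inequality for independent logistic variables conditioned on order constraints.
-/

namespace Pool.Agent.Lib.MP_6d896a_gt

open MeasureTheory ProbabilityTheory Real Filter Topology
open scoped ENNReal

variable {n : ℕ}

lemma mmE_int_eq (R : Fin n → Fin n → Prop) (F : EuclideanSpace ℝ (Fin n) → ℝ) :
    ∫ x, F x ∂(mmE R) = ∫ x, F x * Wl R x := by
  unfold mmE
  have h1 : (volume.withDensity (fun x => ENNReal.ofReal (Wl R x))) = volume.withDensity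
      (fun w => ((Real.toNNReal (Wl R w) : NNReal) : ℝ≥0∞)) := rfl
  rw [h1, integral_withDensity_eq_integral_smul ((Wl_measurable R).real_toNNReal)]
  apply integral_congr_ae
  apply ae_of_all
  intro x
  simp only [NNReal.smul_def, Real.coe_toNNReal _ (Wl_nonneg R x), smul_eq_mul]
  ring

theorem smooth_L1 (R : Fin n → Fin n → Prop) (hne : mmE R ≠ 0)
    {g : EuclideanSpace ℝ (Fin n) → ℝ} {l l2 : ℝ} (hl : 0 ≤ l)
    (hl2 : 0 ≤ l2) (hg : ContDiff ℝ 1 g) (hg0 : ∀ x, 0 ≤ g x) (hg1 : ∀ x, g x ≤ 1)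
    (hgl : ∀ x y, |g x - g y| ≤ l * ‖x - y‖)
    (hg2 : ∀ x y, ‖fderiv ℝ g x - fderiv ℝ g y‖ ≤ l2 * ‖x - y‖) :
    (mmE R).real Set.univ * ∫ x, g x ^ 2 ∂(mmE R) - (∫ x, g x ∂(mmE R)) ^ 2 ≤
      π * ((mmE R).real Set.univ * ∫ x, ‖fderiv ℝ g x‖ ∂(mmE R)) := by
  have hbd : ∀ x, ‖fderiv ℝ g x‖ ≤ l := by
    intro x
    have : LipschitzWith (Real.toNNReal l) g := by
      apply LipschitzWith.of_dist_le_mul
      intro a b
      rw [Real.dist_eq, dist_eq_norm, Real.coe_toNNReal l hl]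
      exact hgl a b
    have h4 := norm_fderiv_le_of_lipschitz ℝ (x₀ := x) this
    rwa [Real.coe_toNNReal l hl] at h4
  have hgabs : ∀ x, |g x| ≤ 1 := fun x => by rw [abs_of_nonneg (hg0 x)]; exact hg1 x
  have hfc : Continuous (fun x => ‖fderiv ℝ g x‖) := (hg.continuous_fderiv (by norm_num)).norm
  have hs : (0 : ℝ) < 1 / 8 := by norm_num
  have hmain := channel (mmE R) hne (s := 1 / 8) (CP := 4) (cL := π) (th := 1) hs one_pos
    (by norm_num) (mmE_poincare R) hg.continuous.measurable hg0 hg1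
    (D := fun x => ‖fderiv ℝ g x‖) hfc.measurable (C := l)
    (fun x => by rw [abs_of_nonneg (norm_nonneg _)]; exact hbd x) (by
      intro y
      have hp := post_L1 R (kap := 1 / 4) (by norm_num) y hl hl2 hg hgabs hgl hg2
      set Z := (gZ (EuclideanSpace ℝ (Fin n)) (1 / 8))⁻¹ with hZ
      have hZ0 : 0 < Z := inv_pos.mpr (gZ_pos hs)
      have hsq : Real.sqrt (1 / (1 / 4)) = 2 := by
        rw [show (1 : ℝ) / (1 / 4) = 2 ^ 2 by norm_num]
        exact Real.sqrt_sq (by norm_num)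
      rw [hsq] at hp
      have e0 : ∀ x, gk (1 / 8) (x - y) * Wl R x =
          Z * (Real.exp (-((1 / 4 : ℝ) / 2) * ‖x - y‖ ^ 2) * Wl R x) := by
        intro x
        unfold gk
        rw [hZ, show ((1 : ℝ) / 4 / 2) = 1 / 8 by norm_num]
        ring
      have e1 : ∀ x, ∫ x', |g x' - g x| * gk (1 / 8) (x' - y) ∂(mmE R) =
          Z * ∫ x', |g x' - g x| * (Real.exp (-((1 / 4 : ℝ) / 2) * ‖x' - y‖ ^ 2) * Wl R x') := by
        intro x
        rw [mmE_int_eq, ← integral_const_mul]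
        apply integral_congr_ae
        apply ae_of_all
        intro x'
        beta_reduce
        rw [mul_assoc, e0]
        ring
      have e2 : ∫ x, (∫ x', |g x' - g x| * gk (1 / 8) (x' - y) ∂(mmE R)) *
          gk (1 / 8) (x - y) ∂(mmE R) =
          Z ^ 2 * ∫ x, (∫ x', |g x' - g x| *
            (Real.exp (-((1 / 4 : ℝ) / 2) * ‖x' - y‖ ^ 2) * Wl R x')) *
            (Real.exp (-((1 / 4 : ℝ) / 2) * ‖x - y‖ ^ 2) * Wl R x) := by
        rw [mmE_int_eq, ← integral_const_mul]
        apply integral_congr_ae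
        apply ae_of_all
        intro x
        beta_reduce
        rw [mul_assoc, e0, e1]
        ring
      have e3 : ∫ x, gk (1 / 8) (x - y) ∂(mmE R) =
          Z * ∫ x, Real.exp (-((1 / 4 : ℝ) / 2) * ‖x - y‖ ^ 2) * Wl R x := by
        rw [mmE_int_eq, ← integral_const_mul]
        apply integral_congr_ae
        apply ae_of_all
        intro x
        beta_reduce
        rw [e0]
      have e4 : ∫ x, ‖fderiv ℝ g x‖ * gk (1 / 8) (x - y) ∂(mmE R) =
          Z * ∫ x, ‖fderiv ℝ g x‖ * (Real.exp (-((1 / 4 : ℝ) / 2) * ‖x - y‖ ^ 2) * Wl R x) := by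
        rw [mmE_int_eq, ← integral_const_mul]
        apply integral_congr_ae
        apply ae_of_all
        intro x
        beta_reduce
        rw [mul_assoc, e0]
        ring
      rw [e2, e3, e4]
      have h5 := mul_le_mul_of_nonneg_left hp (sq_nonneg Z)
      refine h5.trans (le_of_eq ?_)
      ring)
  refine hmain.trans (le_of_eq ?_)
  ring

end Pool.Agent.Lib.MP_6d896a_gt
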