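import Mathlib

/-!
Poincare inequality for a finite reversible chain with involutive moves, from a lower bound on the
eigenvalues.
-/

namespace Pool.Agent.Lib.MP_6d896a_gt

open Finset

section symm

variable {Ω I : Type} [Fintype Ω] [Fintype I] (V : Ω → Prop) [DecidablePred V]
  (mo : I → Ω → Ω)

/-- the valid states -/
def OmA : Finset Ω := univ.filter V

omit [Fintype I] in
lemma mem_OmA {k : Ω} : k ∈ OmA V ↔ V k := by simp [OmA]

/-- one edge: flipping the edge is an involution -/
lemma flip_sumA (hinv : ∀ e k, mo e (mo e k) = k) (F : Ω → Ω → ℝ) (e : I) :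
    ∑ k ∈ OmA V, (if V (mo e k) then F k (mo e k) else 0) =
    ∑ k ∈ OmA V, (if V (mo e k) then F (mo e k) k else 0) := by
  rw [← Finset.sum_filter, ← Finset.sum_filter]
  refine Finset.sum_nbij' (fun k => mo e k) (fun k => mo e k) ?_ ?_ ?_ ?_ ?_
  · intro k hk
    rw [mem_filter, mem_OmA] at *
    rw [hinv]
    exact ⟨hk.2, hk.1⟩
  · intro k hk
    rw [mem_filter, mem_OmA] at *
    rw [hinv]
    exact ⟨hk.2, hk.1⟩
  · intro k _
    exact hinv e k
  · intro k _
    exact hinv e k
  · intro k _
    rw [hinv]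

lemma form_eqA (hinv : ∀ e k, mo e (mo e k) = k) (w : I → ℝ) (f g : Ω → ℝ) :
    ∑ k ∈ OmA V, (∑ e : I, w e * (if V (mo e k) then f k - f (mo e k) else 0)) * g k
    = (1 / 2) * ∑ k ∈ OmA V, ∑ e : I, w e *
      (if V (mo e k) then (f k - f (mo e k)) * (g k - g (mo e k)) else 0) := by
  have h1 : ∀ e : I, ∑ k ∈ OmA V,
      (if V (mo e k) then (f k - f (mo e k)) * g k else 0) =
      (1 / 2) * ∑ k ∈ OmA V, (if V (mo e k) then
        (f k - f (mo e k)) * (g k - g (mo e k)) else 0) := by
    intro e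
    have h2 := flip_sumA V mo hinv (fun a b => (f a - f b) * g a) e
    have h3 : ∑ k ∈ OmA V, (if V (mo e k) then
        (f k - f (mo e k)) * (g k - g (mo e k)) else 0) =
        ∑ k ∈ OmA V, (if V (mo e k) then (f k - f (mo e k)) * g k else 0) +
        ∑ k ∈ OmA V, (if V (mo e k) then (f (mo e k) - f k) * g (mo e k) else 0) := by
      rw [← Finset.sum_add_distrib]
      apply Finset.sum_congr rfl
      intro k _
      split_ifs
      · ring
      · ring
    rw [h3, ← h2]
    ring
  calc _ = ∑ k ∈ OmA V, ∑ e : I, w e *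
        (if V (mo e k) then (f k - f (mo e k)) * g k else 0) := by
        apply Finset.sum_congr rfl
        intro k _
        rw [Finset.sum_mul]
        apply Finset.sum_congr rfl
        intro e _
        split_ifs
        · ring
        · ring
    _ = ∑ e : I, w e * ∑ k ∈ OmA V,
        (if V (mo e k) then (f k - f (mo e k)) * g k else 0) := by
        rw [Finset.sum_comm]
        apply Finset.sum_congr rfl
        intro e _
        rw [Finset.mul_sum]
    _ = _ := by
        rw [Finset.sum_comm, Finset.mul_sum]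
        apply Finset.sum_congr rfl
        intro e _
        rw [h1 e, ← Finset.mul_sum]
        ring

end symm

section spectral

variable {Ω I : Type} [Fintype Ω] [Fintype I] (V : Ω → Prop) (mo : I → Ω → Ω)

open Classical in
/-- extension by zero of a function on the valid states -/
noncomputable def extA (f : EuclideanSpace ℝ {k : Ω // V k}) (k : Ω) : ℝ :=
  if h : V k then f ⟨k, h⟩ else 0

omit [Fintype Ω] [Fintype I] in
lemma extA_of (f : EuclideanSpace ℝ {k : Ω // V k})
    {k : Ω} (h : V k) : extA V f k = f ⟨k, h⟩ := by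
  simp [extA, h]

omit [Fintype Ω] [Fintype I] in
lemma extA_add (f g : EuclideanSpace ℝ {k : Ω // V k})
    (k : Ω) : extA V (f + g) k = extA V f k + extA V g k := by
  unfold extA
  split_ifs <;> simp

omit [Fintype Ω] [Fintype I] in
lemma extA_smul (c : ℝ) (f : EuclideanSpace ℝ {k : Ω // V k})
    (k : Ω) : extA V (c • f) k = c * extA V f k := by
  unfold extA
  split_ifs <;> simp

open Classical in
/-- minus the generator -/
noncomputable def genA (w : I → ℝ) :
    EuclideanSpace ℝ {k : Ω // V k} →ₗ[ℝ]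
      EuclideanSpace ℝ {k : Ω // V k} where
  toFun f := WithLp.toLp 2 fun k => ∑ e : I, w e *
    (if V (mo e k.1) then extA V f k.1 - extA V f (mo e k.1) else 0)
  map_add' f g := by
    ext k
    simp only [PiLp.add_apply]
    rw [← Finset.sum_add_distrib]
    apply Finset.sum_congr rfl
    intro e _
    split_ifs
    · rw [extA_add, extA_add]; ring
    · ring
  map_smul' c f := by
    ext k
    simp only [PiLp.smul_apply, RingHom.id_apply, smul_eq_mul]
    rw [Finset.mul_sum]
    apply Finset.sum_congr rfl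
    intro e _
    split_ifs
    · rw [extA_smul, extA_smul]; ring
    · ring

variable [DecidablePred V]

open Classical in
omit [Fintype I] in
lemma inner_eqA (f g : EuclideanSpace ℝ {k : Ω // V k}) :
    inner ℝ f g = ∑ k ∈ OmA V, extA V f k * extA V g k := by
  rw [OmA, Finset.sum_filter, PiLp.inner_apply]
  rw [← Finset.sum_filter, Finset.sum_subtype (p := V) _ (by simp)]
  apply Finset.sum_congr rfl
  intro k _
  rw [extA_of V f k.2, extA_of V g k.2]
  simp [mul_comm]

lemma genA_apply (w : I → ℝ) (f : EuclideanSpace ℝ {k : Ω // V k})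
    {k : Ω} (h : V k) :
    extA V (genA V mo w f) k = ∑ e : I, w e *
    (if V (mo e k) then extA V f k - extA V f (mo e k) else 0) := by
  rw [extA_of V _ h]
  simp only [genA, LinearMap.coe_mk, AddHom.coe_mk]

lemma inner_genA (hinv : ∀ e k, mo e (mo e k) = k) (w : I → ℝ)
    (f g : EuclideanSpace ℝ {k : Ω // V k}) :
    inner ℝ (genA V mo w f) g = (1 / 2) * ∑ k ∈ OmA V, ∑ e : I, w e *
      (if V (mo e k) then (extA V f k - extA V f (mo e k)) *
        (extA V g k - extA V g (mo e k)) else 0) := by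
  rw [inner_eqA, ← form_eqA V mo hinv]
  apply Finset.sum_congr rfl
  intro k hk
  rw [genA_apply V mo w f ((mem_OmA V).mp hk)]

lemma genA_symm (hinv : ∀ e k, mo e (mo e k) = k) (w : I → ℝ) :
    (genA V mo w).IsSymmetric := by
  intro f g
  rw [inner_genA V mo hinv, real_inner_comm, inner_genA V mo hinv]
  congr 1
  apply Finset.sum_congr rfl
  intro k _
  apply Finset.sum_congr rfl
  intro e _
  split_ifs
  · ring
  · ring

/-- Poincare inequality for mean zero functions -/
lemma gap_mean_zeroA (hinv : ∀ e k, mo e (mo e k) = k) (w : I → ℝ) (lam : ℝ)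
    (heig : ∀ (f : Ω → ℝ) (mu : ℝ), (∀ k, V k → ∑ e : I, w e *
      (if V (mo e k) then f k - f (mo e k) else 0) = mu * f k) →
      ∀ k σ, V k → V σ → f k ≠ f σ → lam ≤ mu)
    (f : EuclideanSpace ℝ {k : Ω // V k})
    (hf : ∑ k ∈ OmA V, extA V f k = 0) :
    lam * inner ℝ f f ≤ inner ℝ (genA V mo w f) f := by
  classical
  set T := genA V mo w with hTdef
  have hT : T.IsSymmetric := genA_symm V mo hinv w
  set b := hT.eigenvectorBasis rfl with hb
  set ev := hT.eigenvalues rfl with hev
  have h1 : inner ℝ (T f) f = ∑ i, ev i * (inner ℝ f (b i) * inner ℝ (b i) f) := by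
    rw [← b.sum_inner_mul_inner]
    apply Finset.sum_congr rfl
    intro i _
    rw [hT, hT.apply_eigenvectorBasis, inner_smul_right]
    simp only [RCLike.ofReal_real_eq_id, id_eq]
    ring
  rw [h1, ← b.sum_inner_mul_inner, Finset.mul_sum]
  apply Finset.sum_le_sum
  intro i _
  by_cases hconst : ∀ k σ, V k → V σ → extA V (b i) k = extA V (b i) σ
  · have h2 : inner ℝ (b i) f = (0 : ℝ) := by
      rw [inner_eqA]
      rcases (OmA V).eq_empty_or_nonempty with h | ⟨k₀, h₀⟩
      · rw [h]; simp
      · have : ∑ k ∈ OmA V, extA V (b i) k * extA V f k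
            = ∑ k ∈ OmA V, extA V (b i) k₀ * extA V f k := by
          apply Finset.sum_congr rfl
          intro k hk
          rw [hconst k k₀ ((mem_OmA V).mp hk) ((mem_OmA V).mp h₀)]
        rw [this, ← Finset.mul_sum, hf, mul_zero]
    rw [h2]
    simp
  · push Not at hconst
    obtain ⟨k, σ, hk, hσ, hne⟩ := hconst
    have h3 : lam ≤ ev i := by
      apply heig (extA V (b i)) (ev i) _ k σ hk hσ hne
      intro τ hτ
      rw [← genA_apply V mo w (b i) hτ, ← hTdef, hT.apply_eigenvectorBasis, extA_smul]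
      rfl
    have h4 : 0 ≤ inner ℝ f (b i) * inner ℝ (b i) f := by
      rw [real_inner_comm]
      exact mul_self_nonneg _
    exact mul_le_mul_of_nonneg_right h3 h4

/-- Poincare inequality for the chain -/
theorem poincareA (hinv : ∀ e k, mo e (mo e k) = k) (w : I → ℝ) (lam : ℝ)
    (heig : ∀ (f : Ω → ℝ) (mu : ℝ), (∀ k, V k → ∑ e : I, w e *
      (if V (mo e k) then f k - f (mo e k) else 0) = mu * f k) →
      ∀ k σ, V k → V σ → f k ≠ f σ → lam ≤ mu)
    (f : Ω → ℝ) :
    lam * ((OmA V).card * ∑ k ∈ OmA V, f k ^ 2 - (∑ k ∈ OmA V, f k) ^ 2) ≤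
      (OmA V).card * ((1 / 2) * ∑ k ∈ OmA V, ∑ e : I, w e *
        (if V (mo e k) then (f (mo e k) - f k) ^ 2 else 0)) := by
  classical
  rcases (OmA V).eq_empty_or_nonempty with h | hne
  · rw [h]; simp
  have hN : (0 : ℝ) < (OmA V).card := by exact_mod_cast hne.card_pos
  set N : ℝ := ((OmA V).card : ℝ) with hNdef
  set m : ℝ := (∑ k ∈ OmA V, f k) / N with hm
  let F : EuclideanSpace ℝ {k : Ω // V k} :=
    WithLp.toLp 2 fun k => f k.1 - m
  have hF : ∀ k, V k → extA V F k = f k - m := by
    intro k hk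
    rw [extA_of V F hk]
  have hF0 : ∑ k ∈ OmA V, extA V F k = 0 := by
    have : ∑ k ∈ OmA V, extA V F k = ∑ k ∈ OmA V, (f k - m) :=
      Finset.sum_congr rfl fun k hk => hF k ((mem_OmA V).mp hk)
    rw [this, Finset.sum_sub_distrib, Finset.sum_const, nsmul_eq_mul, ← hNdef, hm]
    field_simp
    ring
  have h1 := gap_mean_zeroA V mo hinv w lam heig F hF0
  rw [inner_genA V mo hinv, inner_eqA] at h1
  have h2 : ∑ k ∈ OmA V, extA V F k * extA V F k = ∑ k ∈ OmA V, f k ^ 2 - N * m ^ 2 := by
    have : ∑ k ∈ OmA V, extA V F k * extA V F k = ∑ k ∈ OmA V, (f k ^ 2 - 2 * m * f k + m ^ 2) := by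
      apply Finset.sum_congr rfl
      intro k hk
      rw [hF k ((mem_OmA V).mp hk)]
      ring
    rw [this, Finset.sum_add_distrib, Finset.sum_sub_distrib, ← Finset.mul_sum, Finset.sum_const,
      nsmul_eq_mul, ← hNdef]
    have : ∑ k ∈ OmA V, f k = N * m := by rw [hm]; field_simp
    rw [this]
    ring
  have h3 : ∑ k ∈ OmA V, ∑ e : I, w e * (if V (mo e k) then
      (extA V F k - extA V F (mo e k)) * (extA V F k - extA V F (mo e k)) else 0) =
      ∑ k ∈ OmA V, ∑ e : I, w e *
        (if V (mo e k) then (f (mo e k) - f k) ^ 2 else 0) := by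
    apply Finset.sum_congr rfl
    intro k hk
    apply Finset.sum_congr rfl
    intro e _
    by_cases h : V (mo e k)
    · rw [if_pos h, if_pos h, hF k ((mem_OmA V).mp hk), hF _ h]
      ring
    · rw [if_neg h, if_neg h]
  rw [h2, h3] at h1
  have h4 : N * (∑ k ∈ OmA V, f k ^ 2) - (∑ k ∈ OmA V, f k) ^ 2 =
      N * (∑ k ∈ OmA V, f k ^ 2 - N * m ^ 2) := by
    have : ∑ k ∈ OmA V, f k = N * m := by rw [hm]; field_simp
    rw [this]; ring
  rw [h4]
  calc lam * (N * (∑ k ∈ OmA V, f k ^ 2 - N * m ^ 2))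
      = N * (lam * (∑ k ∈ OmA V, f k ^ 2 - N * m ^ 2)) := by ring
    _ ≤ _ := mul_le_mul_of_nonneg_left h1 hN.le

end spectral

end Pool.Agent.Lib.MP_6d896a_gt
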