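import Mathlib
import Pool.Agent.Lib.MP_6d896a_gt.ChainB3
import Pool.Agent.Lib.MP_6d896a_gt.SpectralAbs
import Pool.Agent.Lib.MP_6d896a_gt.Cone

/-!
Poincare inequality for tuples of sites under signed order constraints, and energy bounds.
-/

namespace Pool.Agent.Lib.MP_6d896a_gt

open Finset MeasureTheory

variable {n M : ℕ}

lemma aa_symm {M e : ℕ} (he : e < M) : aa M (M - 1 - e) = aa M e := by
  unfold aa
  rw [if_pos (by omega), if_pos he]
  have : ((M - 1 - e : ℕ) : ℝ) = M - 1 - e := by
    rw [Nat.cast_sub (by omega), Nat.cast_sub (by omega)]; push_cast; ring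
  rw [this]
  ring

lemma ww_symm {M e : ℕ} (he : e < M) : ww M (M - 1 - e) = ww M e := by
  unfold ww; rw [aa_symm he]

lemma vv_symm {M e : ℕ} (he : e < M) : vv M (M - 1 - e) = vv M e := by
  unfold vv; rw [aa_symm he]

lemma om_le (M : ℕ) (e : ℕ) : om M (ww M) e ≤ ww M e := by
  unfold om
  have := ww_pos M e
  split_ifs <;> linarith

open Classical in
/-- the energy for the symmetric chain -/
noncomputable def EnB (r : Fin n × Bool → Fin n × Bool → Prop)
    (H : (Fin n → Fin (M + 1)) → ℝ) (k : Fin n → Fin (M + 1)) : ℝ :=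
  ∑ e : Fin M, om M (ww M) e * (if VB r (mv e k) then (H (mv e k) - H k) ^ 2 else 0)

open Classical in
lemma EnB_nonneg (r : Fin n × Bool → Fin n × Bool → Prop)
    (H : (Fin n → Fin (M + 1)) → ℝ) (k : Fin n → Fin (M + 1)) : 0 ≤ EnB r H k := by
  unfold EnB
  apply Finset.sum_nonneg
  intro e _
  apply mul_nonneg (om_pos (ww_pos M) M e).le
  split_ifs
  · positivity
  · exact le_refl _

open Classical in
theorem poincare_tupleB (hM : M % 2 = 1) {N : ℕ} (hN : 2 * N = M + 1) (hn : n ≤ N)
    (r : Fin n × Bool → Fin n × Bool → Prop) (H : (Fin n → Fin (M + 1)) → ℝ) :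
    (1 / 4) * ((∑ k : Fin n → Fin (M + 1), if VB r k then (1 : ℝ) else 0) *
      (∑ k : Fin n → Fin (M + 1), if VB r k then H k ^ 2 else 0) -
      (∑ k : Fin n → Fin (M + 1), if VB r k then H k else 0) ^ 2) ≤
      (∑ k : Fin n → Fin (M + 1), if VB r k then (1 : ℝ) else 0) *
        ((1 / 2) * ∑ k : Fin n → Fin (M + 1), if VB r k then EnB r H k else 0) := by
  have h := poincareA (Ω := Fin n → Fin (M + 1)) (I := Fin M) (VB r) mv (mv_mv hM)
    (fun e => om M (ww M) e) (1 / 4)
    (fun f mu heig k σ hk hσ hne =>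
      eig_ge_B hM hN hn (ww M) (vv M) (1 / 4) (ww_pos M) (vv_pos M)
        (fun e he => ww_symm he) (fun e he => vv_symm he) (coef_cond M) f mu heig hk hσ hne) H
  have e1 : ((OmA (VB r : (Fin n → Fin (M + 1)) → Prop)).card : ℝ) =
      ∑ k : Fin n → Fin (M + 1), if VB r k then (1 : ℝ) else 0 := by
    unfold OmA
    rw [Finset.card_filter]
    push_cast
    rfl
  have e2 : ∀ G : (Fin n → Fin (M + 1)) → ℝ,
      ∑ k ∈ OmA (VB r : (Fin n → Fin (M + 1)) → Prop), G k =
      ∑ k : Fin n → Fin (M + 1), if VB r k then G k else 0 := by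
    intro G
    unfold OmA
    rw [Finset.sum_filter]
  rw [e1, e2, e2, e2] at h
  exact h

open Classical in
/-- the discrete inequality written with integrals over the cube -/
theorem poincare_cubeB (hM : M % 2 = 1) {N : ℕ} (hN : 2 * N = M + 1) (hn : n ≤ N)
    (r : Fin n × Bool → Fin n × Bool → Prop) (H : (Fin n → Fin (M + 1)) → ℝ) :
    (1 / 4) * ((∫ U, (if VB r (kap M U) then (1 : ℝ) else 0) ∂(cube n)) *
      (∫ U, (if VB r (kap M U) then H (kap M U) ^ 2 else 0) ∂(cube n)) -
      (∫ U, (if VB r (kap M U) then H (kap M U) else 0) ∂(cube n)) ^ 2) ≤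
      (∫ U, (if VB r (kap M U) then (1 : ℝ) else 0) ∂(cube n)) *
      ((1 / 2) * (∫ U, (if VB r (kap M U) then EnB r H (kap M U) else 0) ∂(cube n))) := by
  have e1 := integral_cell M n (fun k => if VB r k then (1 : ℝ) else 0)
  have e2 := integral_cell M n (fun k => if VB r k then H k ^ 2 else 0)
  have e3 := integral_cell M n (fun k => if VB r k then H k else 0)
  have e4 := integral_cell M n (fun k => if VB r k then EnB r H k else 0)
  rw [e1, e2, e3, e4]
  have h0 := poincare_tupleB hM hN hn r H
  have hc : (0 : ℝ) ≤ ((1 / ((M : ℝ) + 1)) ^ n) ^ 2 := by positivity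
  have h1 := mul_le_mul_of_nonneg_left h0 hc
  nlinarith

/-! ### energy bounds -/

/-- separated configurations -/
def SepB (k : Fin n → Fin (M + 1)) : Prop :=
  ∀ i j, (k i : ℕ) + 1 ≠ k j ∧ (k i : ℕ) + k j + 1 ≠ M ∧ (k i : ℕ) + k j ≠ M + 1

lemma mv_val (e : Fin M) (k : Fin n → Fin (M + 1)) (i : Fin n) :
    ((mv e k i : Fin (M + 1)) : ℕ) = tv M e (e + 1) (k i) := rfl

lemma tt_anti (M k : ℕ) (hk : k ≤ M) : tt M (M - k) = - tt M k := by
  unfold tt
  rw [← Real.log_inv]
  congr 1
  rw [Nat.cast_sub hk, inv_div]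
  congr 1 <;> ring

lemma step_symm {M e : ℕ} (he : e < M) : tt M (M - e) - tt M (M - e - 1) = tt M (e + 1) - tt M e := by
  rw [tt_anti M e he.le, show M - e - 1 = M - (e + 1) by omega, tt_anti M (e + 1) he]
  ring

/-- a bound for one edge -/
lemma edge_quot {M e : ℕ} (he : e < M) (D : ℝ) :
    ww M e * D ^ 2 ≤ (D / (tt M (e + 1) - tt M e)) ^ 2 := by
  obtain ⟨hst0, hst1⟩ := tt_step M e he
  rw [div_pow, le_div_iff₀ (by positivity)]
  calc _ = (ww M e * (tt M (e + 1) - tt M e) ^ 2) * D ^ 2 := by ring
    _ ≤ 1 * D ^ 2 := mul_le_mul_of_nonneg_right hst1 (by positivity)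
    _ = _ := one_mul _

lemma edge_quot' {M e : ℕ} (he : e < M) (D : ℝ) :
    ww M e * D ^ 2 ≤ (D / (tt M e - tt M (e + 1))) ^ 2 := by
  have h := edge_quot he D
  rw [← neg_sub (tt M (e + 1)) (tt M e), div_neg, neg_sq]
  exact h

open Classical in
/-- energy bound for separated configurations -/
lemma EnB_le_sep (hM : M % 2 = 1) (r : Fin n × Bool → Fin n × Bool → Prop) {h : (Fin n → ℝ) → ℝ}
    (k : Fin n → Fin (M + 1)) (hinj : BInj k) (hsep : SepB k) :
    EnB r (fun k : Fin n → Fin (M + 1) => h (xx k)) k ≤ ∑ i, (DP h k i ^ 2 + DM h k i ^ 2) := by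
  have hkle : ∀ i, (k i : ℕ) ≤ M := fun i => by have := (k i).2; omega
  have hinj' : ∀ i j, (k i : ℕ) = k j → i = j := fun i j hij => hinj.1 (Fin.ext hij)
  have hrev' : ∀ i j, (k i : ℕ) + k j ≠ M := by
    intro i j hij
    apply hinj.2 i j
    apply Fin.ext
    rw [rev_val]
    omega
  have key : ∀ e : Fin M, om M (ww M) e * (if VB r (mv e k) then
      (h (xx (mv e k)) - h (xx k)) ^ 2 else 0) ≤
      ∑ i, (1 / 2) * (((if (e : ℕ) = k i then DP h k i ^ 2 else 0) +
        (if (e : ℕ) + 1 = k i then DM h k i ^ 2 else 0)) +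
        ((if M - 1 - (e : ℕ) = k i then DP h k i ^ 2 else 0) +
        (if M - 1 - (e : ℕ) + 1 = k i then DM h k i ^ 2 else 0))) := by
    intro e
    have heM := e.2
    have hnn : ∀ j ∈ (univ : Finset (Fin n)), 0 ≤ (1 / 2) *
        (((if (e : ℕ) = k j then DP h k j ^ 2 else 0) +
        (if (e : ℕ) + 1 = k j then DM h k j ^ 2 else 0)) +
        ((if M - 1 - (e : ℕ) = k j then DP h k j ^ 2 else 0) +
        (if M - 1 - (e : ℕ) + 1 = k j then DM h k j ^ 2 else 0))) := by
      intro j _
      have a1 : (0 : ℝ) ≤ if (e : ℕ) = k j then DP h k j ^ 2 else 0 := by split_ifs <;> positivity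
      have a2 : (0 : ℝ) ≤ if (e : ℕ) + 1 = k j then DM h k j ^ 2 else 0 := by
        split_ifs <;> positivity
      have a3 : (0 : ℝ) ≤ if M - 1 - (e : ℕ) = k j then DP h k j ^ 2 else 0 := by
        split_ifs <;> positivity
      have a4 : (0 : ℝ) ≤ if M - 1 - (e : ℕ) + 1 = k j then DM h k j ^ 2 else 0 := by
        split_ifs <;> positivity
      linarith
    by_cases hmoved : ∃ i, (k i : ℕ) = e ∨ (k i : ℕ) = e + 1 ∨ (k i : ℕ) + e = M ∨
        (k i : ℕ) + e + 1 = M
    · obtain ⟨i, hi⟩ := hmoved
      -- other particles do not move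
      have hoth : ∀ j, j ≠ i → mv e k j = k j := by
        intro j hj
        apply Fin.ext
        rw [mv_val]
        have hkj := hkle j
        have hki := hkle i
        have s1 := hsep i j
        have s2 := hsep j i
        have s3 := hrev' i j
        have s4 : (k j : ℕ) ≠ k i := fun hc => hj (hinj' j i hc)
        unfold tv
        split_ifs <;> omega
      have hcen : 2 * (e : ℕ) + 1 ≠ M := by
        intro hc
        have s1 := hsep i i
        omega
      have hom : om M (ww M) e = ww M e / 2 := by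
        unfold om; rw [if_neg hcen]
      have hupd : xx (mv e k) = Function.update (xx k) i (tt M (tv M e (e + 1) (k i))) := by
        funext j
        by_cases hj : j = i
        · subst hj
          rw [Function.update_self]
          rfl
        · rw [Function.update_of_ne hj]
          simp only [xx]
          rw [hoth j hj]
      have hle1 : om M (ww M) e * (if VB r (mv e k) then
          (h (xx (mv e k)) - h (xx k)) ^ 2 else 0) ≤
          (1 / 2) * (ww M e * (h (xx (mv e k)) - h (xx k)) ^ 2) := by
        rw [hom]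
        have h0 : 0 ≤ ww M e * (h (xx (mv e k)) - h (xx k)) ^ 2 := by
          have := ww_pos M e; positivity
        split_ifs
        · apply le_of_eq; ring
        · rw [mul_zero]; positivity
      refine hle1.trans ?_
      refine le_trans ?_ (Finset.single_le_sum hnn (mem_univ i))
      apply mul_le_mul_of_nonneg_left _ (by norm_num)
      rw [hupd]
      have a1 : (0 : ℝ) ≤ if (e : ℕ) = k i then DP h k i ^ 2 else 0 := by split_ifs <;> positivity
      have a2 : (0 : ℝ) ≤ if (e : ℕ) + 1 = k i then DM h k i ^ 2 else 0 := by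
        split_ifs <;> positivity
      have a3 : (0 : ℝ) ≤ if M - 1 - (e : ℕ) = k i then DP h k i ^ 2 else 0 := by
        split_ifs <;> positivity
      have a4 : (0 : ℝ) ≤ if M - 1 - (e : ℕ) + 1 = k i then DM h k i ^ 2 else 0 := by
        split_ifs <;> positivity
      have hki := hkle i
      rcases hi with hi | hi | hi | hi
      · have ht : tv M e (e + 1) (k i) = k i + 1 := by unfold tv; split_ifs <;> omega
        rw [if_pos hi.symm] at a1 ⊢
        have hq : ww M e * (h (Function.update (xx k) i (tt M (tv M e (e + 1) (k i)))) -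
            h (xx k)) ^ 2 ≤ DP h k i ^ 2 := by
          unfold DP
          rw [ht, hi]
          exact edge_quot heM _
        linarith
      · have ht : tv M e (e + 1) (k i) = k i - 1 := by unfold tv; split_ifs <;> omega
        rw [if_pos hi.symm] at a2 ⊢
        have hq : ww M e * (h (Function.update (xx k) i (tt M (tv M e (e + 1) (k i)))) -
            h (xx k)) ^ 2 ≤ DM h k i ^ 2 := by
          unfold DM
          rw [ht, hi, Nat.add_sub_cancel]
          exact edge_quot' heM _
        linarith
      · have ht : tv M e (e + 1) (k i) = k i - 1 := by unfold tv; split_ifs <;> omega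
        have hk' : (k i : ℕ) = M - 1 - e + 1 := by omega
        rw [if_pos hk'.symm] at a4 ⊢
        have hq : ww M e * (h (Function.update (xx k) i (tt M (tv M e (e + 1) (k i)))) -
            h (xx k)) ^ 2 ≤ DM h k i ^ 2 := by
          unfold DM
          rw [ht, hk', Nat.add_sub_cancel, ← ww_symm heM]
          exact edge_quot' (by omega) _
        linarith
      · have ht : tv M e (e + 1) (k i) = k i + 1 := by unfold tv; split_ifs <;> omega
        have hk' : (k i : ℕ) = M - 1 - e := by omega
        rw [if_pos hk'.symm] at a3 ⊢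
        have hq : ww M e * (h (Function.update (xx k) i (tt M (tv M e (e + 1) (k i)))) -
            h (xx k)) ^ 2 ≤ DP h k i ^ 2 := by
          unfold DP
          rw [ht, hk', ← ww_symm heM]
          exact edge_quot (by omega) _
        linarith
    · push Not at hmoved
      have hoth : mv e k = k := by
        funext j
        apply Fin.ext
        rw [mv_val]
        have hkj := hkle j
        have s1 := hmoved j
        unfold tv
        split_ifs <;> omega
      rw [hoth, sub_self]
      simp only [ne_eq, OfNat.ofNat_ne_zero, not_false_eq_true, zero_pow, ite_self, mul_zero]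
      exact Finset.sum_nonneg hnn
  unfold EnB
  refine (Finset.sum_le_sum fun e _ => key e).trans ?_
  rw [Finset.sum_comm]
  apply Finset.sum_le_sum
  intro i _
  rw [← Finset.mul_sum, Finset.sum_add_distrib]
  have h2 : ∑ e : Fin M, ((if M - 1 - (e : ℕ) = k i then DP h k i ^ 2 else 0) +
        (if M - 1 - (e : ℕ) + 1 = k i then DM h k i ^ 2 else 0)) =
      ∑ e : Fin M, ((if (e : ℕ) = k i then DP h k i ^ 2 else 0) +
        (if (e : ℕ) + 1 = k i then DM h k i ^ 2 else 0)) := by
    rw [← Equiv.sum_comp Fin.revPerm]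
    apply Finset.sum_congr rfl
    intro e _
    have : M - 1 - ((Fin.revPerm e : Fin M) : ℕ) = e := by
      rw [Fin.revPerm_apply, Fin.val_rev]
      have := e.2
      omega
    rw [this]
  rw [h2, Finset.sum_add_distrib]
  have h3 := sum_ite_edge_le (k i) (DP h k i ^ 2) (by positivity)
  have h4 := sum_ite_edge_le' (k i) (DM h k i ^ 2) (by positivity)
  linarith

open Classical in
/-- crude energy bound -/
lemma EnB_le (r : Fin n × Bool → Fin n × Bool → Prop) {h : (Fin n → ℝ) → ℝ} {B : ℝ}
    (hB0 : 0 ≤ B) (hB : ∀ x y, |h x - h y| ≤ B * ∑ i, |x i - y i|) (k : Fin n → Fin (M + 1)) :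
    EnB r (fun k : Fin n → Fin (M + 1) => h (xx k)) k ≤ 4 * B ^ 2 * n ^ 2 := by
  have hkle : ∀ i, (k i : ℕ) ≤ M := fun i => by have := (k i).2; omega
  have key : ∀ e : Fin M, om M (ww M) e * (if VB r (mv e k) then
      (h (xx (mv e k)) - h (xx k)) ^ 2 else 0) ≤
      ∑ i, (((if (e : ℕ) = k i then B ^ 2 * n else 0) +
        (if (e : ℕ) + 1 = k i then B ^ 2 * n else 0)) +
        ((if M - 1 - (e : ℕ) = k i then B ^ 2 * (n : ℝ) else 0) +
        (if M - 1 - (e : ℕ) + 1 = k i then B ^ 2 * (n : ℝ) else 0))) := by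
    intro e
    have heM := e.2
    have hle1 : om M (ww M) e * (if VB r (mv e k) then
      (h (xx (mv e k)) - h (xx k)) ^ 2 else 0) ≤
      ww M e * (h (xx (mv e k)) - h (xx k)) ^ 2 := by
      apply mul_le_mul (om_le M e) _ _ (ww_pos M e).le
      · split_ifs
        · exact le_refl _
        · positivity
      · split_ifs
        · positivity
        · exact le_refl _
    refine hle1.trans ?_
    obtain ⟨hst0, hst1⟩ := tt_step M e heM
    have hst2 := step_symm heM
    set δ := tt M (e + 1) - tt M e with hδ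
    set c : Fin n → ℝ := fun i => if ((k i : ℕ) = e ∨ (k i : ℕ) = e + 1 ∨ (k i : ℕ) + e = M ∨
        (k i : ℕ) + e + 1 = M) then 1 else 0 with hc
    have hc1 : ∀ i, c i ≤ 1 := by
      intro i
      simp only [hc]
      split_ifs <;> norm_num
    have hc0 : ∀ i, 0 ≤ c i := by
      intro i
      simp only [hc]
      split_ifs <;> norm_num
    have hcn : ∑ i, c i ≤ n := by
      calc ∑ i, c i ≤ ∑ _i : Fin n, (1 : ℝ) := Finset.sum_le_sum fun i _ => hc1 i
        _ = n := by simp
    have hd : ∀ i, |xx (mv e k) i - xx k i| = c i * δ := by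
      intro i
      have hki := hkle i
      simp only [xx, hc]
      rw [mv_val]
      by_cases h1 : (k i : ℕ) = e
      · rw [if_pos (Or.inl h1), h1]
        have : tv M e (e + 1) e = e + 1 := by unfold tv; rw [if_pos rfl]
        rw [this, ← hδ, abs_of_pos hst0, one_mul]
      · by_cases h2 : (k i : ℕ) = e + 1
        · rw [if_pos (Or.inr (Or.inl h2)), h2]
          have : tv M e (e + 1) (e + 1) = e := by
            unfold tv; rw [if_neg (by omega), if_pos rfl]
          rw [this, abs_sub_comm, ← hδ, abs_of_pos hst0, one_mul]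
        · by_cases h3 : (k i : ℕ) + e = M
          · rw [if_pos (Or.inr (Or.inr (Or.inl h3)))]
            have : tv M e (e + 1) (k i) = M - e - 1 := by
              unfold tv; rw [if_neg h1, if_neg h2, if_pos h3]; omega
            rw [this, show (k i : ℕ) = M - e by omega, abs_sub_comm, hst2, abs_of_pos hst0, one_mul]
          · by_cases h4 : (k i : ℕ) + e + 1 = M
            · rw [if_pos (Or.inr (Or.inr (Or.inr h4)))]
              have : tv M e (e + 1) (k i) = M - e := by
                unfold tv; rw [if_neg h1, if_neg h2, if_neg h3, if_pos (by omega)]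
              rw [this, show (k i : ℕ) = M - e - 1 by omega, hst2, abs_of_pos hst0, one_mul]
            · rw [if_neg (by omega)]
              have : tv M e (e + 1) (k i) = k i := by
                unfold tv; rw [if_neg h1, if_neg h2, if_neg h3, if_neg (by omega)]
              rw [this]
              simp
    have h3 : |h (xx (mv e k)) - h (xx k)| ≤ B * ((∑ i, c i) * δ) := by
      refine (hB _ _).trans (le_of_eq ?_)
      congr 1
      rw [Finset.sum_mul]
      exact Finset.sum_congr rfl fun i _ => hd i
    have hS : 0 ≤ ∑ i, c i := Finset.sum_nonneg fun i _ => hc0 i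
    have h4 : (h (xx (mv e k)) - h (xx k)) ^ 2 ≤ (B * ((∑ i, c i) * δ)) ^ 2 := by
      rw [← sq_abs]
      exact pow_le_pow_left₀ (abs_nonneg _) h3 2
    have hBn : (0 : ℝ) ≤ B ^ 2 * n := by positivity
    calc ww M e * (h (xx (mv e k)) - h (xx k)) ^ 2
        ≤ ww M e * (B * ((∑ i, c i) * δ)) ^ 2 := mul_le_mul_of_nonneg_left h4 (ww_pos M e).le
      _ = (ww M e * δ ^ 2) * (B ^ 2 * (∑ i, c i) ^ 2) := by ring
      _ ≤ 1 * (B ^ 2 * (∑ i, c i) ^ 2) := mul_le_mul_of_nonneg_right hst1 (by positivity)
      _ ≤ B ^ 2 * (n * ∑ i, c i) := by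
        rw [one_mul]
        apply mul_le_mul_of_nonneg_left _ (by positivity)
        rw [sq]
        exact mul_le_mul_of_nonneg_right hcn hS
      _ ≤ _ := by
        rw [← mul_assoc, Finset.mul_sum]
        apply Finset.sum_le_sum
        intro i _
        have hki := hkle i
        simp only [hc]
        by_cases h1 : (e : ℕ) = k i
        · rw [if_pos (Or.inl h1.symm), if_pos h1]
          have b2 : (0 : ℝ) ≤ if (e : ℕ) + 1 = k i then B ^ 2 * n else 0 := by
            split_ifs <;> positivity
          have b3 : (0 : ℝ) ≤ if M - 1 - (e : ℕ) = k i then B ^ 2 * (n : ℝ) else 0 := by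
            split_ifs <;> positivity
          have b4 : (0 : ℝ) ≤ if M - 1 - (e : ℕ) + 1 = k i then B ^ 2 * (n : ℝ) else 0 := by
            split_ifs <;> positivity
          linarith
        · by_cases h2 : (e : ℕ) + 1 = k i
          · rw [if_pos (Or.inr (Or.inl h2.symm)), if_pos h2]
            have b1 : (0 : ℝ) ≤ if (e : ℕ) = k i then B ^ 2 * (n : ℝ) else 0 := by
              split_ifs <;> positivity
            have b3 : (0 : ℝ) ≤ if M - 1 - (e : ℕ) = k i then B ^ 2 * (n : ℝ) else 0 := by
              split_ifs <;> positivity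
            have b4 : (0 : ℝ) ≤ if M - 1 - (e : ℕ) + 1 = k i then B ^ 2 * (n : ℝ) else 0 := by
              split_ifs <;> positivity
            linarith
          · have b1 : (0 : ℝ) ≤ if (e : ℕ) = k i then B ^ 2 * (n : ℝ) else 0 := by
              split_ifs <;> positivity
            have b2 : (0 : ℝ) ≤ if (e : ℕ) + 1 = k i then B ^ 2 * (n : ℝ) else 0 := by
              split_ifs <;> positivity
            by_cases h3 : (k i : ℕ) + e = M
            · rw [if_pos (Or.inr (Or.inr (Or.inl h3)))]
              have b3 : (0 : ℝ) ≤ if M - 1 - (e : ℕ) = k i then B ^ 2 * (n : ℝ) else 0 := by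
                split_ifs <;> positivity
              have b4 : (if M - 1 - (e : ℕ) + 1 = k i then B ^ 2 * (n : ℝ) else 0) =
                  B ^ 2 * (n : ℝ) := if_pos (by omega)
              linarith
            · by_cases h4 : (k i : ℕ) + e + 1 = M
              · rw [if_pos (Or.inr (Or.inr (Or.inr h4)))]
                have b4 : (0 : ℝ) ≤ if M - 1 - (e : ℕ) + 1 = k i then B ^ 2 * (n : ℝ) else 0 := by
                  split_ifs <;> positivity
                have b3 : (if M - 1 - (e : ℕ) = k i then B ^ 2 * (n : ℝ) else 0) =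
                    B ^ 2 * (n : ℝ) := if_pos (by omega)
                linarith
              · rw [if_neg (by omega)]
                have b3 : (0 : ℝ) ≤ if M - 1 - (e : ℕ) = k i then B ^ 2 * (n : ℝ) else 0 := by
                  split_ifs <;> positivity
                have b4 : (0 : ℝ) ≤ if M - 1 - (e : ℕ) + 1 = k i then B ^ 2 * (n : ℝ) else 0 := by
                  split_ifs <;> positivity
                linarith
  unfold EnB
  refine (Finset.sum_le_sum fun e _ => key e).trans ?_
  rw [Finset.sum_comm]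
  have hb : (0 : ℝ) ≤ B ^ 2 * n := by positivity
  have hsum : ∀ i : Fin n, ∑ e : Fin M, (((if (e : ℕ) = k i then B ^ 2 * n else 0) +
        (if (e : ℕ) + 1 = k i then B ^ 2 * n else 0)) +
        ((if M - 1 - (e : ℕ) = k i then B ^ 2 * (n : ℝ) else 0) +
        (if M - 1 - (e : ℕ) + 1 = k i then B ^ 2 * (n : ℝ) else 0))) ≤ 4 * (B ^ 2 * n) := by
    intro i
    rw [Finset.sum_add_distrib]
    have h2 : ∑ e : Fin M, ((if M - 1 - (e : ℕ) = k i then B ^ 2 * (n : ℝ) else 0) +
          (if M - 1 - (e : ℕ) + 1 = k i then B ^ 2 * (n : ℝ) else 0)) =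
        ∑ e : Fin M, ((if (e : ℕ) = k i then B ^ 2 * (n : ℝ) else 0) +
          (if (e : ℕ) + 1 = k i then B ^ 2 * (n : ℝ) else 0)) := by
      rw [← Equiv.sum_comp Fin.revPerm]
      apply Finset.sum_congr rfl
      intro e _
      have : M - 1 - ((Fin.revPerm e : Fin M) : ℕ) = e := by
        rw [Fin.revPerm_apply, Fin.val_rev]
        have := e.2
        omega
      rw [this]
    rw [h2, Finset.sum_add_distrib]
    have h3 := sum_ite_edge_le (k i) (B ^ 2 * n) hb
    have h4 := sum_ite_edge_le' (k i) (B ^ 2 * n) hb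
    linarith
  calc _ ≤ ∑ _i : Fin n, 4 * (B ^ 2 * (n : ℝ)) := Finset.sum_le_sum fun i _ => hsum i
    _ = _ := by
        rw [Finset.sum_const, Finset.card_univ, Fintype.card_fin, nsmul_eq_mul]
        ring

end Pool.Agent.Lib.MP_6d896a_gt
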