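import Mathlib
import Pool.Agent.Lib.MP_6d896a_gt.TuplesB

/-!
Poincare inequality for independent logistic variables conditioned on signed order constraints,
written on the unit cube.
-/

namespace Pool.Agent.Lib.MP_6d896a_gt

open Finset MeasureTheory Filter Topology ProbabilityTheory

variable {n M : ℕ}

lemma pi_ne_fun {n : ℕ} (ν : Measure ℝ) [IsProbabilityMeasure ν] [NullSingletonClass ν]
    {φ : ℝ → ℝ} (hφ : Measurable φ) {i j : Fin n} (hij : i ≠ j) :
    ∀ᵐ x ∂(Measure.pi fun _ : Fin n => ν), φ (x i) ≠ x j := by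
  have hind : iIndepFun (fun (i : Fin n) (ω : Fin n → ℝ) => ω i)
      (Measure.pi fun _ : Fin n => ν) := by
    have := iIndepFun_pi (μ := fun _ : Fin n => ν) (X := fun _ => id)
      (fun _ => aemeasurable_id)
    exact this
  have h2 := hind.indepFun hij
  rw [indepFun_iff_map_prod_eq_prod_map_map (measurable_pi_apply i).aemeasurable
    (measurable_pi_apply j).aemeasurable] at h2
  have e1 : (Measure.pi fun _ : Fin n => ν).map (fun ω => ω i) = ν :=
    (measurePreserving_eval (fun _ : Fin n => ν) i).map_eq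
  have e2 : (Measure.pi fun _ : Fin n => ν).map (fun ω => ω j) = ν :=
    (measurePreserving_eval (fun _ : Fin n => ν) j).map_eq
  rw [e1, e2] at h2
  have hD : MeasurableSet {p : ℝ × ℝ | φ p.1 = p.2} :=
    measurableSet_eq_fun (hφ.comp measurable_fst) measurable_snd
  have h3 : (ν.prod ν) {p : ℝ × ℝ | φ p.1 = p.2} = 0 := by
    rw [Measure.measure_prod_null hD]
    apply ae_of_all
    intro x
    have : Prod.mk x ⁻¹' {p : ℝ × ℝ | φ p.1 = p.2} = {φ x} := by
      ext y; simp [eq_comm]
    simp only [this, Pi.zero_apply]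
    exact measure_singleton _
  rw [← h2, Measure.map_apply ((measurable_pi_apply i).prodMk (measurable_pi_apply j)) hD] at h3
  exact measure_eq_zero_iff_ae_notMem.mp h3

/-- signed value in the cube -/
noncomputable def su (U : Fin n → ℝ) (u : Fin n × Bool) : ℝ := if u.2 then U u.1 else 1 - U u.1

/-- signed coordinate -/
noncomputable def sx (x : Fin n → ℝ) (u : Fin n × Bool) : ℝ := if u.2 then x u.1 else - x u.1

/-- signed order cone in the cube -/
def CU (r : Fin n × Bool → Fin n × Bool → Prop) : Set (Fin n → ℝ) :=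
  {U | ∀ u v, r u v → su U u ≤ su U v}

/-- signed order cone -/
def CX (r : Fin n × Bool → Fin n × Bool → Prop) : Set (Fin n → ℝ) :=
  {x | ∀ u v, r u v → sx x u ≤ sx x v}

lemma su_measurable (u : Fin n × Bool) : Measurable (fun U : Fin n → ℝ => su U u) := by
  unfold su
  split_ifs
  · exact measurable_pi_apply _
  · exact measurable_const.sub (measurable_pi_apply _)

lemma sx_measurable (u : Fin n × Bool) : Measurable (fun x : Fin n → ℝ => sx x u) := by
  unfold sx
  split_ifs
  · exact measurable_pi_apply _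
  · exact (measurable_pi_apply _).neg

lemma CU_measurable (r : Fin n × Bool → Fin n × Bool → Prop) : MeasurableSet (CU r) := by
  have : CU r = ⋂ u, ⋂ v, {U : Fin n → ℝ | r u v → su U u ≤ su U v} := by
    ext x; simp [CU]
  rw [this]
  refine MeasurableSet.iInter fun u => MeasurableSet.iInter fun v => ?_
  by_cases h : r u v
  · have : {U : Fin n → ℝ | r u v → su U u ≤ su U v} = {U | su U u ≤ su U v} := by
      ext x; simp [h]
    rw [this]
    exact measurableSet_le (su_measurable u) (su_measurable v)
  · have : {U : Fin n → ℝ | r u v → su U u ≤ su U v} = Set.univ := by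
      ext x; simp [h]
    rw [this]
    exact MeasurableSet.univ

lemma CX_measurable (r : Fin n × Bool → Fin n × Bool → Prop) : MeasurableSet (CX r) := by
  have : CX r = ⋂ u, ⋂ v, {x : Fin n → ℝ | r u v → sx x u ≤ sx x v} := by
    ext x; simp [CX]
  rw [this]
  refine MeasurableSet.iInter fun u => MeasurableSet.iInter fun v => ?_
  by_cases h : r u v
  · have : {x : Fin n → ℝ | r u v → sx x u ≤ sx x v} = {x | sx x u ≤ sx x v} := by
      ext x; simp [h]
    rw [this]
    exact measurableSet_le (sx_measurable u) (sx_measurable v)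
  · have : {x : Fin n → ℝ | r u v → sx x u ≤ sx x v} = Set.univ := by
      ext x; simp [h]
    rw [this]
    exact MeasurableSet.univ

/-- good points -/
def GoodB (U : Fin n → ℝ) : Prop :=
  (∀ i, 0 < U i ∧ U i < 1) ∧ ∀ u v : Fin n × Bool, u ≠ v → su U u ≠ su U v

lemma GoodB.good {U : Fin n → ℝ} (hU : GoodB U) : Good U := by
  refine ⟨hU.1, fun i j hij => ?_⟩
  have := hU.2 (i, true) (j, true) (by simpa using hij)
  simpa [su] using this

lemma goodB_ae (n : ℕ) : ∀ᵐ U ∂(cube n), GoodB U := by
  haveI := unif_nullSingleton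
  have h1 : ∀ᵐ U ∂(cube n), ∀ i j : Fin n, i ≠ j → 1 - U i ≠ U j := by
    rw [ae_all_iff]
    intro i
    rw [ae_all_iff]
    intro j
    by_cases hij : i = j
    · exact ae_of_all _ fun U h => absurd hij h
    · filter_upwards [pi_ne_fun unif (φ := fun t => 1 - t) (by fun_prop) hij] with U hU _
      exact hU
  have h2 : ∀ᵐ U ∂(cube n), ∀ i : Fin n, U i ≠ 1 / 2 := by
    rw [ae_all_iff]
    intro i
    have h3 : ∀ᵐ u ∂unif, u ≠ 1 / 2 := by
      rw [ae_iff]
      simp only [ne_eq, not_not]
      exact measure_singleton _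
    exact (Measure.quasiMeasurePreserving_eval (fun _ : Fin n => unif) i).ae h3
  filter_upwards [good_ae n, h1, h2] with U ha hb hc
  refine ⟨ha.1, ?_⟩
  rintro ⟨i, a⟩ ⟨j, b⟩ huv
  by_cases hij : i = j
  · subst hij
    have hab : a ≠ b := by
      intro h; exact huv (by rw [h])
    have hci := hc i
    cases a <;> cases b
    · exact absurd rfl hab
    · simp only [su, Bool.false_eq_true, if_false, if_true]
      intro h; apply hci; linarith
    · simp only [su, Bool.false_eq_true, if_false, if_true]
      intro h; apply hci; linarith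
    · exact absurd rfl hab
  · have h1 := ha.2 i j hij
    have h2 := hb i j hij
    cases a <;> cases b
    · simp only [su, Bool.false_eq_true, if_false]
      intro h; apply h1; linarith
    · simp only [su, Bool.false_eq_true, if_false, if_true]
      exact h2
    · simp only [su, Bool.false_eq_true, if_false, if_true]
      intro h; apply h2; linarith
    · simp only [su, if_true]
      exact h1

/-- remove the diagonal from a relation -/
def offB (r : Fin n × Bool → Fin n × Bool → Prop) : Fin n × Bool → Fin n × Bool → Prop :=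
  fun u v => r u v ∧ u ≠ v

/-- signed positions and signed values -/
lemma ps_mem {M : ℕ} {U : Fin n → ℝ} (hU : ∀ i, 0 < U i ∧ U i < 1) (u : Fin n × Bool) :
    ((M : ℝ) + 1) * su U u - 1 ≤ ((ps (kap M U) u : Fin (M + 1)) : ℕ) ∧
      (((ps (kap M U) u : Fin (M + 1)) : ℕ) : ℝ) ≤ (M + 1) * su U u := by
  obtain ⟨h1, h2⟩ := cell_mem (M := M) (hU u.1).1 (hU u.1).2
  unfold ps su kap
  by_cases hb : u.2 = true
  · rw [if_pos hb, if_pos hb]
    constructor <;> linarith
  · rw [if_neg hb, if_neg hb, rev_val]
    have h3 : (cell M (U u.1) : ℕ) ≤ M := by have := (cell M (U u.1)).2; omega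
    rw [Nat.cast_sub h3]
    constructor <;> nlinarith

lemma eventually_ps_gap {U : Fin n → ℝ} (hU : ∀ i, 0 < U i ∧ U i < 1) {u v : Fin n × Bool}
    (h : su U u < su U v) :
    ∀ᶠ M : ℕ in atTop, ((ps (kap M U) u : Fin (M + 1)) : ℕ) + 1 <
      ((ps (kap M U) v : Fin (M + 1)) : ℕ) := by
  have h2 : Tendsto (fun M : ℕ => ((M : ℝ) + 1) * (su U v - su U u)) atTop atTop :=
    (tendsto_atTop_add_const_right _ _ tendsto_natCast_atTop_atTop).atTop_mul_const
      (by linarith)
  filter_upwards [h2.eventually_gt_atTop 3] with M hM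
  have e1 := (ps_mem (M := M) hU u).2
  have e2 := (ps_mem (M := M) hU v).1
  have h3 : ((((ps (kap M U) u : Fin (M + 1)) : ℕ) : ℝ)) + 1 <
      (((ps (kap M U) v : Fin (M + 1)) : ℕ) : ℝ) := by linarith
  exact_mod_cast h3

lemma goodB_gap {U : Fin n → ℝ} (hU : GoodB U) :
    ∀ᶠ M : ℕ in atTop, ∀ u v : Fin n × Bool, su U u < su U v →
      ((ps (kap M U) u : Fin (M + 1)) : ℕ) + 1 < ((ps (kap M U) v : Fin (M + 1)) : ℕ) := by
  rw [eventually_all]
  intro u
  rw [eventually_all]
  intro v
  by_cases h : su U u < su U v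
  · filter_upwards [eventually_ps_gap hU.1 h] with M hM _
    exact hM
  · exact Eventually.of_forall fun M h' => absurd h' h

lemma goodB_sep {U : Fin n → ℝ} (hU : GoodB U) : ∀ᶠ M : ℕ in atTop, SepB (kap M U) := by
  filter_upwards [goodB_gap hU] with M hM
  have key : ∀ u v : Fin n × Bool, u ≠ v →
      ((ps (kap M U) u : Fin (M + 1)) : ℕ) + 1 < ((ps (kap M U) v : Fin (M + 1)) : ℕ) ∨
      ((ps (kap M U) v : Fin (M + 1)) : ℕ) + 1 < ((ps (kap M U) u : Fin (M + 1)) : ℕ) := by
    intro u v huv
    rcases lt_or_gt_of_ne (hU.2 u v huv) with h | h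
    · exact Or.inl (hM u v h)
    · exact Or.inr (hM v u h)
  intro i j
  have hi : ((ps (kap M U) (i, true) : Fin (M + 1)) : ℕ) = kap M U i := by simp [ps]
  have hj : ((ps (kap M U) (j, true) : Fin (M + 1)) : ℕ) = kap M U j := by simp [ps]
  have hj' : ((ps (kap M U) (j, false) : Fin (M + 1)) : ℕ) = M - kap M U j := by
    simp only [ps, Bool.false_eq_true, if_false]
    rw [rev_val]
  have hkj : (kap M U j : ℕ) ≤ M := by have := (kap M U j).2; omega
  have k2 := key (i, true) (j, false) (by simp)
  rw [hi, hj'] at k2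
  refine ⟨?_, by omega, by omega⟩
  by_cases hij : i = j
  · subst hij; omega
  · have k1 := key (i, true) (j, true) (by simpa using hij)
    rw [hi, hj] at k1
    omega

lemma goodB_VB (r : Fin n × Bool → Fin n × Bool → Prop) {U : Fin n → ℝ} (hU : GoodB U) :
    ∀ᶠ M : ℕ in atTop, (VB (offB r) (kap M U) ↔ U ∈ CU r) := by
  filter_upwards [goodB_gap hU] with M hM
  have hne : ∀ u v : Fin n × Bool, u ≠ v → ps (kap M U) u ≠ ps (kap M U) v := by
    intro u v huv hc
    have hc' : ((ps (kap M U) u : Fin (M + 1)) : ℕ) = ps (kap M U) v := by rw [hc]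
    rcases lt_or_gt_of_ne (hU.2 u v huv) with h | h
    · have := hM u v h; omega
    · have := hM v u h; omega
  constructor
  · rintro ⟨_, hv⟩ u v huv
    by_cases h : u = v
    · rw [h]
    · by_contra hcon
      push Not at hcon
      have h1 := hM v u hcon
      have h2 : ((ps (kap M U) u : Fin (M + 1)) : ℕ) < ps (kap M U) v := hv u v ⟨huv, h⟩
      omega
  · intro hC
    refine ⟨⟨?_, ?_⟩, ?_⟩
    · intro i j hij
      by_contra hne'
      have := hne (i, true) (j, true) (by simpa using hne')
      apply this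
      simpa [ps] using hij
    · intro i j hij
      have := hne (i, true) (j, false) (by simp)
      apply this
      simpa [ps] using hij
    · rintro u v ⟨huv, hne'⟩
      have h1 := hM u v (lt_of_le_of_ne (hC u v huv) (hU.2 u v hne'))
      show ((ps (kap M U) u : Fin (M + 1)) : ℕ) < ps (kap M U) v
      omega

/-- odd numbers of edges -/
def odd2 (N : ℕ) : ℕ := 2 * N + 1

lemma tendsto_odd2 : Tendsto odd2 atTop atTop := by
  apply tendsto_atTop_mono (f := fun N : ℕ => N) _ tendsto_id
  intro N
  unfold odd2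
  omega

open Classical in
/-- convergence of integrals of functions of the cells -/
lemma tendsto_cellsB (r : Fin n × Bool → Fin n × Bool → Prop)
    (G : (M : ℕ) → (Fin n → Fin (M + 1)) → ℝ)
    (g : (Fin n → ℝ) → ℝ) (C : ℝ) (hC : ∀ M k, |G M k| ≤ C)
    (hG : ∀ U, GoodB U → Tendsto (fun M => G M (kap M U)) atTop (𝓝 (g U))) :
    Tendsto (fun N : ℕ => ∫ U, (if VB (offB r) (kap (odd2 N) U) then
      G (odd2 N) (kap (odd2 N) U) else 0) ∂(cube n))
      atTop (𝓝 (∫ U in CU r, g U ∂(cube n))) := by
  have hC0 : 0 ≤ C := le_trans (abs_nonneg _) (hC 0 (fun _ => 0))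
  have main : Tendsto (fun M : ℕ => ∫ U, (if VB (offB r) (kap M U) then
      G M (kap M U) else 0) ∂(cube n)) atTop (𝓝 (∫ U in CU r, g U ∂(cube n))) := by
    rw [← integral_indicator (CU_measurable r)]
    apply tendsto_integral_of_dominated_convergence (fun _ => C)
    · intro M
      have h1 : Measurable (fun k : Fin n → Fin (M + 1) =>
        if VB (offB r) k then G M k else 0) := measurable_of_finite _
      exact (h1.comp (kap_measurable M n)).aestronglyMeasurable
    · exact integrable_const _
    · intro M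
      apply ae_of_all
      intro U
      split_ifs
      · exact hC M _
      · simpa using hC0
    · filter_upwards [goodB_ae n] with U hU
      by_cases hUC : U ∈ CU r
      · rw [Set.indicator_of_mem hUC]
        refine (hG U hU).congr' ?_
        filter_upwards [goodB_VB r hU] with M hM
        rw [if_pos (hM.mpr hUC)]
      · rw [Set.indicator_of_notMem hUC]
        refine tendsto_const_nhds.congr' ?_
        filter_upwards [goodB_VB r hU] with M hM
        rw [if_neg (fun h => hUC (hM.mp h))]
  exact main.comp tendsto_odd2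

/-- Poincare inequality on the cube -/
theorem poincare_coneB (r : Fin n × Bool → Fin n × Bool → Prop) {h : (Fin n → ℝ) → ℝ}
    (hh : ContDiff ℝ 1 h)
    {K : ℝ} (hK : ∀ x, |h x| ≤ K) {B : ℝ} (hB0 : 0 ≤ B)
    (hB : ∀ x y, |h x - h y| ≤ B * ∑ i, |x i - y i|) :
    (cube n).real (CU r) * (∫ U in CU r, h (Lg U) ^ 2 ∂(cube n)) -
      (∫ U in CU r, h (Lg U) ∂(cube n)) ^ 2 ≤
    4 * ((cube n).real (CU r) *
      ∫ U in CU r, ∑ i, (fderiv ℝ h (Lg U) (Pi.single i 1)) ^ 2 ∂(cube n)) := by
  classical
  have hK0 : 0 ≤ K := le_trans (abs_nonneg _) (hK 0)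
  have t1 := tendsto_cellsB r (fun M _ => (1 : ℝ)) (fun _ => 1) 1 (by simp)
    (fun U _ => tendsto_const_nhds)
  have t2 := tendsto_cellsB r (fun M k => h (xx k) ^ 2) (fun U => h (Lg U) ^ 2) (K ^ 2)
    (fun M k => by
      rw [abs_pow]
      exact pow_le_pow_left₀ (abs_nonneg _) (hK _) 2)
    (fun U hU => ((hh.continuous.tendsto _).comp (good_xx hU.good)).pow 2)
  have t3 := tendsto_cellsB r (fun M k => h (xx k)) (fun U => h (Lg U)) K
    (fun M k => hK _)
    (fun U hU => (hh.continuous.tendsto _).comp (good_xx hU.good))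
  let q : (M : ℕ) → (Fin n → Fin (M + 1)) → ℝ := fun M k =>
    if SepB k then ∑ i, (DP h k i ^ 2 + DM h k i ^ 2) else 4 * B ^ 2 * n ^ 2
  have hDP : ∀ (M : ℕ) (k : Fin n → Fin (M + 1)) i, DP h k i ^ 2 ≤ B ^ 2 := by
    intro M k i
    unfold DP
    exact quot_sq_le hB0 hB (xx k) i (tt M (k i + 1))
  have hDM : ∀ (M : ℕ) (k : Fin n → Fin (M + 1)) i, DM h k i ^ 2 ≤ B ^ 2 := by
    intro M k i
    unfold DM
    exact quot_sq_le hB0 hB (xx k) i (tt M (k i - 1))
  have t4 := tendsto_cellsB r q
    (fun U => ∑ i, ((fderiv ℝ h (Lg U) (Pi.single i 1)) ^ 2 +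
      (fderiv ℝ h (Lg U) (Pi.single i 1)) ^ 2)) (4 * B ^ 2 * n ^ 2 + n * (2 * B ^ 2))
    (fun M k => by
      simp only [q]
      split_ifs
      · rw [abs_of_nonneg (Finset.sum_nonneg fun i _ => by positivity)]
        calc ∑ i, (DP h k i ^ 2 + DM h k i ^ 2) ≤ ∑ _i : Fin n, (B ^ 2 + B ^ 2) :=
              Finset.sum_le_sum fun i _ => add_le_add (hDP M k i) (hDM M k i)
          _ = n * (2 * B ^ 2) := by
              rw [Finset.sum_const, Finset.card_univ, Fintype.card_fin, nsmul_eq_mul]; ring
          _ ≤ _ := by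
              have : 0 ≤ 4 * B ^ 2 * (n : ℝ) ^ 2 := by positivity
              linarith
      · rw [abs_of_nonneg (by positivity)]
        have : 0 ≤ n * (2 * B ^ 2) := by positivity
        linarith)
    (fun U hU => by
      have h1 : Tendsto (fun M => ∑ i, (DP h (kap M U) i ^ 2 + DM h (kap M U) i ^ 2)) atTop
          (𝓝 (∑ i, ((fderiv ℝ h (Lg U) (Pi.single i 1)) ^ 2 +
            (fderiv ℝ h (Lg U) (Pi.single i 1)) ^ 2))) :=
        tendsto_finset_sum _ fun i _ =>
          ((good_DP hh hU.good i).pow 2).add ((good_DM hh hU.good i).pow 2)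
      refine h1.congr' ?_
      filter_upwards [goodB_sep hU] with M hM
      simp only [q]
      rw [if_pos hM])
  have hmain : ∀ᶠ N : ℕ in atTop,
      (1 / 4) * ((∫ U, (if VB (offB r) (kap (odd2 N) U) then (1 : ℝ) else 0) ∂(cube n)) *
      (∫ U, (if VB (offB r) (kap (odd2 N) U) then h (xx (kap (odd2 N) U)) ^ 2 else 0) ∂(cube n)) -
      (∫ U, (if VB (offB r) (kap (odd2 N) U) then h (xx (kap (odd2 N) U)) else 0) ∂(cube n)) ^ 2) ≤
      (∫ U, (if VB (offB r) (kap (odd2 N) U) then (1 : ℝ) else 0) ∂(cube n)) *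
      ((1 / 2) * (∫ U, (if VB (offB r) (kap (odd2 N) U) then
        q (odd2 N) (kap (odd2 N) U) else 0) ∂(cube n))) := by
    filter_upwards [eventually_ge_atTop n] with N hN
    have hodd : odd2 N % 2 = 1 := by unfold odd2; omega
    have h0 := poincare_cubeB hodd (N := N + 1) (by unfold odd2; omega) (by omega) (offB r)
      (fun k : Fin n → Fin (odd2 N + 1) => h (xx k))
    refine h0.trans ?_
    apply mul_le_mul_of_nonneg_left
    · apply mul_le_mul_of_nonneg_left _ (by norm_num)
      apply integral_mono_of_nonneg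
      · apply ae_of_all
        intro U
        simp only [Pi.zero_apply]
        split_ifs
        · exact EnB_nonneg _ _ _
        · exact le_refl _
      · have h1 : Measurable (fun k : Fin n → Fin (odd2 N + 1) =>
          if VB (offB r) k then q (odd2 N) k else 0) := measurable_of_finite _
        apply Integrable.of_bound (C := ∑ k : Fin n → Fin (odd2 N + 1),
          |if VB (offB r) k then q (odd2 N) k else 0|)
          (h1.comp (kap_measurable (odd2 N) n)).aestronglyMeasurable
        apply ae_of_all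
        intro U
        rw [Real.norm_eq_abs]
        exact Finset.single_le_sum (f := fun k => |if VB (offB r) k then q (odd2 N) k else 0|)
          (fun k _ => abs_nonneg _) (Finset.mem_univ (kap (odd2 N) U))
      · apply ae_of_all
        intro U
        by_cases hv : VB (offB r) (kap (odd2 N) U)
        · simp only [if_pos hv, q]
          by_cases hs : SepB (kap (odd2 N) U)
          · rw [if_pos hs]
            exact EnB_le_sep hodd (offB r) (kap (odd2 N) U) hv.1 hs
          · rw [if_neg hs]
            exact EnB_le (offB r) hB0 hB (kap (odd2 N) U)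
        · simp only [if_neg hv]
          exact le_refl _
    · apply integral_nonneg
      intro U
      simp only [Pi.zero_apply]
      split_ifs <;> norm_num
  have hlim := le_of_tendsto_of_tendsto
    (((t1.mul t2).sub (t3.pow 2)).const_mul (1 / 4)) (t1.mul (t4.const_mul (1 / 2))) hmain
  have e1 : ∫ _U in CU r, (1 : ℝ) ∂(cube n) = (cube n).real (CU r) := by
    rw [setIntegral_const, smul_eq_mul, mul_one]
  rw [e1] at hlim
  have e2 : ∫ U in CU r, ∑ i, ((fderiv ℝ h (Lg U) (Pi.single i 1)) ^ 2 +
      (fderiv ℝ h (Lg U) (Pi.single i 1)) ^ 2) ∂(cube n) =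
      2 * ∫ U in CU r, ∑ i, (fderiv ℝ h (Lg U) (Pi.single i 1)) ^ 2 ∂(cube n) := by
    rw [← integral_const_mul]
    congr 1
    funext U
    rw [Finset.mul_sum]
    apply Finset.sum_congr rfl
    intro i _
    ring
  rw [e2] at hlim
  linarith

end Pool.Agent.Lib.MP_6d896a_gt
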