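import Mathlib
import Pool.Agent.Lib.MP_6d896a_gt.Combine
import Pool.Agent.Lib.MP_6d896a_gt.IsoA

/-!
Isoperimetric inequality in integrated form.
-/

namespace Pool.Agent.Lib.MP_6d896a_gt

open MeasureTheory Real Filter Topology Metric

variable {n : ℕ}

theorem iso_mmE (R : Fin n → Fin n → Prop) (hne : mmE R ≠ 0) : Iso (mmE R) π := by
  apply iso_of_smooth _ pi_pos.le
  intro g l l2 hl hl2 hg hg0 hg1 hgl hg2
  exact smooth_L1 R hne hl hl2 hg hg0 hg1 hgl hg2

end Pool.Agent.Lib.MP_6d896a_gt
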