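import Mathlib
import Pool.Agent.Lib.MP_6d896a_gt.Iso
import Pool.Agent.Lib.MP_6d896a_gt.TransA

/-!
Transport of the isoperimetric inequality by Lipschitz maps, and its differential form.
-/

namespace Pool.Agent.Lib.MP_6d896a_gt

open MeasureTheory Real Filter Topology Metric
open scoped ENNReal NNReal

variable {n : ℕ}

lemma mmE_eq' (R : Fin n → Fin n → Prop) :
    mmE R = ((Measure.pi (fun _ : Fin n => lgm)).restrict (OC R)).map (WithLp.toLp 2) := by
  have hto : Measurable (WithLp.toLp 2 : (Fin n → ℝ) → EuclideanSpace ℝ (Fin n)) :=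
    (PiLp.continuous_toLp 2 (fun _ : Fin n => ℝ)).measurable
  have h1 : ((cube n).restrict (OC R)).map Lg =
      (Measure.pi (fun _ : Fin n => lgm)).restrict (OC R) := by
    rw [Measure.restrict_congr_set (OC_Lg R), ← map_Lg,
      Measure.restrict_map Lg_measurable (OC_measurable R)]
  rw [← mmE_eq, ← h1, Measure.map_map hto Lg_measurable]
  rfl

/-- coordinatewise map -/
def TT (T : ℝ → ℝ) (x : EuclideanSpace ℝ (Fin n)) : EuclideanSpace ℝ (Fin n) :=
  WithLp.toLp 2 fun i => T (x i)

lemma TT_lip {T : ℝ → ℝ} {L : ℝ≥0} (hT : LipschitzWith L T) :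
    LipschitzWith L (TT T : EuclideanSpace ℝ (Fin n) → _) := by
  apply LipschitzWith.of_dist_le_mul
  intro x y
  rw [EuclideanSpace.dist_eq, EuclideanSpace.dist_eq]
  rw [show (L : ℝ) * Real.sqrt (∑ i, dist (x i) (y i) ^ 2) =
    Real.sqrt ((L : ℝ) ^ 2 * ∑ i, dist (x i) (y i) ^ 2) by
      rw [Real.sqrt_mul (sq_nonneg _), Real.sqrt_sq (NNReal.coe_nonneg L)]]
  apply Real.sqrt_le_sqrt
  rw [Finset.mul_sum]
  apply Finset.sum_le_sum
  intro i _
  rw [← mul_pow]
  apply pow_le_pow_left₀ dist_nonneg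
  exact hT.dist_le_mul (x i) (y i)

lemma OC_T {ρ : Measure ℝ} [IsProbabilityMeasure ρ] [NullSingletonClass ρ] {T : ℝ → ℝ}
    (hT : Monotone T) (hmap : lgm.map T = ρ) (R : Fin n → Fin n → Prop) :
    OC R =ᵐ[Measure.pi (fun _ : Fin n => lgm)] (fun x i => T (x i)) ⁻¹' (OC R) := by
  have := lgm_prob
  have hTm : Measurable T := hT.measurable
  have hmapn : (Measure.pi (fun _ : Fin n => lgm)).map (fun x i => T (x i)) =
      Measure.pi (fun _ : Fin n => ρ) := by
    have hsf : ∀ _ : Fin n, SigmaFinite (lgm.map T) := fun _ => by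
      rw [hmap]; infer_instance
    rw [Measure.pi_map_pi (fun _ => hTm.aemeasurable)]
    simp only [hmap]
  have hTTm : Measurable (fun (x : Fin n → ℝ) i => T (x i)) :=
    measurable_pi_lambda _ fun i => hTm.comp (measurable_pi_apply i)
  have hall : ∀ᵐ x ∂(Measure.pi (fun _ : Fin n => lgm)), ∀ i j, i ≠ j → T (x i) ≠ T (x j) := by
    rw [ae_all_iff]; intro i
    rw [ae_all_iff]; intro j
    by_cases hij : i = j
    · exact ae_of_all _ fun x h => absurd hij h
    · have h1 := pi_ne ρ hij
      rw [← hmapn] at h1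
      have h2 := ae_of_ae_map hTTm.aemeasurable h1
      filter_upwards [h2] with x hx _
      exact hx
  filter_upwards [hall] with x hx
  apply propext
  show (∀ i j, R i j → x i ≤ x j) ↔ (∀ i j, R i j → T (x i) ≤ T (x j))
  constructor
  · intro h i j hij
    exact hT (h i j hij)
  · intro h i j hij
    by_contra hcon
    push Not at hcon
    have hne : i ≠ j := by rintro rfl; exact lt_irrefl _ hcon
    exact hx i j hne (le_antisymm (h i j hij) (hT hcon.le))

lemma mmE_map {ρ : Measure ℝ} [IsProbabilityMeasure ρ] [NullSingletonClass ρ] {T : ℝ → ℝ}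
    (hT : Monotone T) (hmap : lgm.map T = ρ) (R : Fin n → Fin n → Prop) :
    (mmE R).map (TT T) =
      ((Measure.pi (fun _ : Fin n => ρ)).restrict (OC R)).map (WithLp.toLp 2) := by
  have := lgm_prob
  have hTm : Measurable T := hT.measurable
  have hto : Measurable (WithLp.toLp 2 : (Fin n → ℝ) → EuclideanSpace ℝ (Fin n)) :=
    (PiLp.continuous_toLp 2 (fun _ : Fin n => ℝ)).measurable
  have hmapn : (Measure.pi (fun _ : Fin n => lgm)).map (fun x i => T (x i)) =
      Measure.pi (fun _ : Fin n => ρ) := by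
    have hsf : ∀ _ : Fin n, SigmaFinite (lgm.map T) := fun _ => by
      rw [hmap]; infer_instance
    rw [Measure.pi_map_pi (fun _ => hTm.aemeasurable)]
    simp only [hmap]
  have hTTm : Measurable (fun (x : Fin n → ℝ) i => T (x i)) :=
    measurable_pi_lambda _ fun i => hTm.comp (measurable_pi_apply i)
  have hTT : Measurable (TT T : EuclideanSpace ℝ (Fin n) → _) := by
    unfold TT
    apply hto.comp
    apply measurable_pi_lambda
    intro i
    exact hTm.comp (EuclideanSpace.proj (𝕜 := ℝ) i).continuous.measurable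
  rw [mmE_eq', Measure.map_map hTT hto, ← hmapn, Measure.restrict_map hTTm (OC_measurable R),
    ← Measure.restrict_congr_set (OC_T hT hmap R), Measure.map_map hto hTTm]
  rfl

end Pool.Agent.Lib.MP_6d896a_gt
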