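import Mathlib
import Pool.Agent.Lib.MP_6d896a_gt.Transport

/-!
One-dimensional log-concave measures as Lipschitz images of the logistic measure.
-/

namespace Pool.Agent.Lib.MP_6d896a_gt

open MeasureTheory ProbabilityTheory Real Filter Topology Set
open scoped ENNReal NNReal Pointwise

/-! ### second moment of the logistic measure -/

lemma ld1_le_exp (x : ℝ) : ld1 x ≤ Real.exp x := by
  unfold ld1
  have h := Real.exp_pos x
  rw [div_le_iff₀ (by positivity)]
  nlinarith [mul_pos h h, mul_pos (mul_pos h h) h]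

lemma ld1_neg (x : ℝ) : ld1 (-x) = ld1 x := by
  unfold ld1
  rw [Real.exp_neg]
  have h := Real.exp_pos x
  field_simp
  ring

lemma sq_ld1_le {x : ℝ} (hx : x ≤ 0) : x ^ 2 * ld1 x ≤ 8 * Real.exp (1 / 2 * x) := by
  have h1 : x ^ 2 ≤ 8 * Real.exp (-(1 / 2) * x) := by
    have := Real.quadratic_le_exp_of_nonneg (x := -(1 / 2) * x) (by linarith)
    nlinarith
  calc x ^ 2 * ld1 x ≤ 8 * Real.exp (-(1 / 2) * x) * Real.exp x :=
        mul_le_mul h1 (ld1_le_exp x) (ld1_pos x).le (by positivity)
    _ = 8 * Real.exp (1 / 2 * x) := by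
        rw [mul_assoc, ← Real.exp_add]
        congr 2
        ring

lemma sq_ld1_integrable : Integrable (fun x : ℝ => x ^ 2 * ld1 x) := by
  have hc : Continuous (fun x : ℝ => x ^ 2 * ld1 x) := (continuous_pow 2).mul ld1_continuous
  rw [← integrableOn_univ, ← Set.Iic_union_Ioi (a := (0 : ℝ)), integrableOn_union]
  constructor
  · refine ((integrableOn_exp_mul_Iic (a := 1 / 2) (by norm_num) 0).const_mul 8).mono'
      hc.aestronglyMeasurable ?_
    filter_upwards [ae_restrict_mem measurableSet_Iic] with x hx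
    rw [Real.norm_eq_abs, abs_of_nonneg (mul_nonneg (sq_nonneg _) (ld1_pos x).le)]
    exact sq_ld1_le hx
  · refine ((integrableOn_exp_mul_Ioi (a := -(1 / 2)) (by norm_num) 0).const_mul 8).mono'
      hc.aestronglyMeasurable ?_
    filter_upwards [ae_restrict_mem measurableSet_Ioi] with x hx
    rw [Real.norm_eq_abs, abs_of_nonneg (mul_nonneg (sq_nonneg _) (ld1_pos x).le)]
    have h1 := sq_ld1_le (x := -x) (by have : 0 < x := hx; linarith)
    rw [ld1_neg, neg_sq] at h1
    refine h1.trans (le_of_eq ?_)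
    congr 2
    ring

lemma lgm_memLp : MemLp (fun x : ℝ => x) 2 lgm := by
  have hid : AEStronglyMeasurable (fun x : ℝ => x) lgm := aestronglyMeasurable_id
  rw [memLp_two_iff_integrable_sq hid]
  have h1 : lgm = volume.withDensity
      (fun w => ((Real.toNNReal (ld1 w) : NNReal) : ℝ≥0∞)) := rfl
  rw [h1, integrable_withDensity_iff_integrable_smul (ld1_continuous.measurable.real_toNNReal)]
  refine sq_ld1_integrable.congr (ae_of_all _ fun x => ?_)
  simp only [NNReal.smul_def, Real.coe_toNNReal _ (ld1_pos x).le, smul_eq_mul]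
  ring

/-! ### variance lower bound from two tails -/

lemma var_lower {ρ : Measure ℝ} [IsProbabilityMeasure ρ] (h2 : MemLp (fun x : ℝ => x) 2 ρ)
    {p q α β : ℝ} (hpq : p ≤ q) (hα : ρ.real (Iic p) = α) (hβ : ρ.real (Ici q) = β) :
    α * β * (q - p) ^ 2 ≤ (α + β) * variance (fun x : ℝ => x) ρ := by
  have hα0 : 0 ≤ α := by rw [← hα]; exact measureReal_nonneg
  have hβ0 : 0 ≤ β := by rw [← hβ]; exact measureReal_nonneg
  set c := ∫ x, x ∂ρ with hc
  set b := max (c - p) 0 with hb
  set a := max (q - c) 0 with ha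
  have hb0 : 0 ≤ b := le_max_right _ _
  have ha0 : 0 ≤ a := le_max_right _ _
  have hab : q - p ≤ a + b := by
    have := le_max_left (c - p) 0
    have := le_max_left (q - c) 0
    linarith
  have hvar : variance (fun x : ℝ => x) ρ = ∫ x, (x - c) ^ 2 ∂ρ := by
    have hid : AEMeasurable (fun x : ℝ => x) ρ := aemeasurable_id
    rw [variance_eq_integral hid]
  have hint : Integrable (fun x : ℝ => (x - c) ^ 2) ρ := by
    have := (h2.sub (memLp_const c)).integrable_sq
    exact this
  have hge : α * b ^ 2 + β * a ^ 2 ≤ variance (fun x : ℝ => x) ρ := by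
    rw [hvar]
    have e1 : ∫ x, ((Iic p).indicator (fun _ => b ^ 2) x + (Ici q).indicator (fun _ => a ^ 2) x) ∂ρ
        = α * b ^ 2 + β * a ^ 2 := by
      rw [integral_add]
      · rw [integral_indicator_const _ measurableSet_Iic, integral_indicator_const _ measurableSet_Ici,
          hα, hβ]
        simp
      · exact (integrable_const _).indicator measurableSet_Iic
      · exact (integrable_const _).indicator measurableSet_Ici
    rw [← e1]
    apply integral_mono
    · exact ((integrable_const _).indicator measurableSet_Iic).add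
        ((integrable_const _).indicator measurableSet_Ici)
    · exact hint
    · intro x
      beta_reduce
      have hA : x ≤ p → b ^ 2 ≤ (x - c) ^ 2 := by
        intro hx
        rw [hb]
        rcases le_total (c - p) 0 with h | h
        · rw [max_eq_right h, zero_pow two_ne_zero]; exact sq_nonneg _
        · rw [max_eq_left h]; nlinarith
      have hB : q ≤ x → a ^ 2 ≤ (x - c) ^ 2 := by
        intro hx
        rw [ha]
        rcases le_total (q - c) 0 with h | h
        · rw [max_eq_right h, zero_pow two_ne_zero]; exact sq_nonneg _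
        · rw [max_eq_left h]; nlinarith
      by_cases h1 : x ≤ p
      · by_cases h3 : q ≤ x
        · -- then p = q = x, and the sum is max
          have hx1 : x = p := le_antisymm h1 (hpq.trans h3)
          have hx2 : x = q := le_antisymm (h1.trans hpq) h3
          rw [Set.indicator_of_mem (show x ∈ Iic p from h1), Set.indicator_of_mem (show x ∈ Ici q from h3)]
          rw [ha, hb, ← hx1, ← hx2]
          rcases le_total c x with h | h
          · rw [max_eq_right (by linarith), max_eq_left (by linarith)]; nlinarith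
          · rw [max_eq_left (by linarith), max_eq_right (by linarith)]; nlinarith
        · rw [Set.indicator_of_mem (show x ∈ Iic p from h1),
            Set.indicator_of_notMem (show x ∉ Ici q from h3), add_zero]
          exact hA h1
      · by_cases h3 : q ≤ x
        · rw [Set.indicator_of_notMem (show x ∉ Iic p from h1),
            Set.indicator_of_mem (show x ∈ Ici q from h3), zero_add]
          exact hB h3
        · rw [Set.indicator_of_notMem (show x ∉ Iic p from h1),
            Set.indicator_of_notMem (show x ∉ Ici q from h3), add_zero]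
          positivity
  have h3 : (q - p) ^ 2 ≤ (a + b) ^ 2 := pow_le_pow_left₀ (by linarith) hab 2
  have h4 : α * β * (a + b) ^ 2 ≤ (α + β) * (α * b ^ 2 + β * a ^ 2) := by
    nlinarith [sq_nonneg (α * b - β * a)]
  have h5 : α * β * (q - p) ^ 2 ≤ α * β * (a + b) ^ 2 :=
    mul_le_mul_of_nonneg_left h3 (mul_nonneg hα0 hβ0)
  have h6 := mul_le_mul_of_nonneg_left hge (add_nonneg hα0 hβ0)
  linarith

/-! ### log-concavity of the distribution function -/

/-- log-concavity in the sense of Borell -/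
def LC (ρ : Measure ℝ) : Prop := ∀ (A B : Set ℝ) (t : ℝ),
  IsCompact A → IsCompact B → 0 < t → t < 1 →
    (ρ A) ^ t * (ρ B) ^ (1 - t) ≤ ρ (t • A + (1 - t) • B)

lemma lc_ext {ρ : Measure ℝ} [IsProbabilityMeasure ρ] (h : LC ρ) {A B : ℕ → Set ℝ}
    (hA : Monotone A) (hB : Monotone B) (hAc : ∀ N, IsCompact (A N)) (hBc : ∀ N, IsCompact (B N))
    {t : ℝ} (h0 : 0 < t) (h1 : t < 1) {C : Set ℝ} (hC : ∀ N, t • A N + (1 - t) • B N ⊆ C) :
    (ρ (⋃ N, A N)) ^ t * (ρ (⋃ N, B N)) ^ (1 - t) ≤ ρ C := by
  have hta : Tendsto (fun N => ρ (A N)) atTop (𝓝 (ρ (⋃ N, A N))) :=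
    tendsto_measure_iUnion_atTop hA
  have htb : Tendsto (fun N => ρ (B N)) atTop (𝓝 (ρ (⋃ N, B N))) :=
    tendsto_measure_iUnion_atTop hB
  have h2 := (ENNReal.continuous_rpow_const (y := t)).continuousAt.tendsto.comp hta
  have h3 := (ENNReal.continuous_rpow_const (y := 1 - t)).continuousAt.tendsto.comp htb
  have h4 := ENNReal.Tendsto.mul h2 (Or.inr (ENNReal.rpow_ne_top_of_nonneg (by linarith)
    (measure_ne_top ρ _))) h3 (Or.inr (ENNReal.rpow_ne_top_of_nonneg h0.le (measure_ne_top ρ _)))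
  refine le_of_tendsto h4 (Eventually.of_forall fun N => ?_)
  exact (h (A N) (B N) t (hAc N) (hBc N) h0 h1).trans (measure_mono (hC N))

lemma iUnion_Icc_left (x : ℝ) : (⋃ N : ℕ, Icc (-(N : ℝ)) x) = Iic x := by
  ext y
  simp only [mem_iUnion, mem_Icc, mem_Iic, exists_and_right]
  constructor
  · rintro ⟨_, h⟩; exact h
  · intro h
    obtain ⟨N, hN⟩ := exists_nat_ge (-y)
    exact ⟨⟨N, by linarith⟩, h⟩

lemma iUnion_Icc_right (x : ℝ) : (⋃ N : ℕ, Icc x (N : ℝ)) = Ici x := by
  ext y
  simp only [mem_iUnion, mem_Icc, mem_Ici, exists_and_left]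
  constructor
  · rintro ⟨h, _⟩; exact h
  · intro h
    obtain ⟨N, hN⟩ := exists_nat_ge y
    exact ⟨h, N, hN⟩

lemma lc_Iic {ρ : Measure ℝ} [IsProbabilityMeasure ρ] (h : LC ρ) (x y : ℝ) {t : ℝ} (h0 : 0 < t)
    (h1 : t < 1) : (ρ (Iic x)) ^ t * (ρ (Iic y)) ^ (1 - t) ≤ ρ (Iic (t * x + (1 - t) * y)) := by
  have := lc_ext h (A := fun N : ℕ => Icc (-(N : ℝ)) x) (B := fun N : ℕ => Icc (-(N : ℝ)) y)
    (fun a b hab => Icc_subset_Icc_left (by
      have : (a : ℝ) ≤ b := by exact_mod_cast hab
      linarith))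
    (fun a b hab => Icc_subset_Icc_left (by
      have : (a : ℝ) ≤ b := by exact_mod_cast hab
      linarith))
    (fun N => isCompact_Icc) (fun N => isCompact_Icc) h0 h1
    (C := Iic (t * x + (1 - t) * y)) (by
      intro N z hz
      obtain ⟨u, ⟨a, ha, rfl⟩, v, ⟨b, hb, rfl⟩, rfl⟩ := hz
      have h3 : t * a ≤ t * x := mul_le_mul_of_nonneg_left ha.2 h0.le
      have h4 : (1 - t) * b ≤ (1 - t) * y := mul_le_mul_of_nonneg_left hb.2 (by linarith)
      show t • a + (1 - t) • b ≤ t * x + (1 - t) * y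
      rw [smul_eq_mul, smul_eq_mul]
      linarith)
  rwa [iUnion_Icc_left, iUnion_Icc_left] at this

lemma lc_Ici {ρ : Measure ℝ} [IsProbabilityMeasure ρ] (h : LC ρ) (x y : ℝ) {t : ℝ} (h0 : 0 < t)
    (h1 : t < 1) : (ρ (Ici x)) ^ t * (ρ (Ici y)) ^ (1 - t) ≤ ρ (Ici (t * x + (1 - t) * y)) := by
  have := lc_ext h (A := fun N : ℕ => Icc x (N : ℝ)) (B := fun N : ℕ => Icc y (N : ℝ))
    (fun a b hab => Icc_subset_Icc_right (by exact_mod_cast hab))
    (fun a b hab => Icc_subset_Icc_right (by exact_mod_cast hab))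
    (fun N => isCompact_Icc) (fun N => isCompact_Icc) h0 h1
    (C := Ici (t * x + (1 - t) * y)) (by
      intro N z hz
      obtain ⟨u, ⟨a, ha, rfl⟩, v, ⟨b, hb, rfl⟩, rfl⟩ := hz
      have h3 : t * x ≤ t * a := mul_le_mul_of_nonneg_left ha.1 h0.le
      have h4 : (1 - t) * y ≤ (1 - t) * b := mul_le_mul_of_nonneg_left hb.1 (by linarith)
      show t * x + (1 - t) * y ≤ t • a + (1 - t) • b
      rw [smul_eq_mul, smul_eq_mul]
      linarith)
  rwa [iUnion_Icc_right, iUnion_Icc_right] at this

lemma toReal_lc {a b c : ℝ≥0∞} {t : ℝ} (ha : a ≠ ⊤) (hb : b ≠ ⊤) (hc : c ≠ ⊤)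
    (h : a ^ t * b ^ (1 - t) ≤ c) (ha0 : 0 < a.toReal) (hb0 : 0 < b.toReal) :
    0 < c.toReal ∧ t * Real.log a.toReal + (1 - t) * Real.log b.toReal ≤ Real.log c.toReal := by
  have h1 := ENNReal.toReal_mono hc h
  rw [ENNReal.toReal_mul, ← ENNReal.toReal_rpow, ← ENNReal.toReal_rpow] at h1
  have h2 : 0 < a.toReal ^ t := Real.rpow_pos_of_pos ha0 _
  have h3 : 0 < b.toReal ^ (1 - t) := Real.rpow_pos_of_pos hb0 _
  have h4 : 0 < c.toReal := lt_of_lt_of_le (mul_pos h2 h3) h1
  refine ⟨h4, ?_⟩
  have h5 := Real.log_le_log (mul_pos h2 h3) h1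
  rwa [Real.log_mul h2.ne' h3.ne', Real.log_rpow ha0, Real.log_rpow hb0] at h5

lemma concave_Iic {ρ : Measure ℝ} [IsProbabilityMeasure ρ] (h : LC ρ) :
    ConcaveOn ℝ {x | 0 < ρ.real (Iic x)} (fun x => Real.log (ρ.real (Iic x))) := by
  have key : ∀ x y : ℝ, 0 < ρ.real (Iic x) → 0 < ρ.real (Iic y) → ∀ a b : ℝ, 0 ≤ a → 0 ≤ b →
      a + b = 1 → 0 < ρ.real (Iic (a * x + b * y)) ∧
      a * Real.log (ρ.real (Iic x)) + b * Real.log (ρ.real (Iic y)) ≤
        Real.log (ρ.real (Iic (a * x + b * y))) := by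
    intro x y hx hy a b ha hb hab
    rcases ha.eq_or_lt with rfl | ha'
    · have : b = 1 := by linarith
      subst this
      simpa using hy
    rcases hb.eq_or_lt with rfl | hb'
    · have : a = 1 := by linarith
      subst this
      simpa using hx
    have hb1 : b = 1 - a := by linarith
    subst hb1
    exact toReal_lc (measure_ne_top _ _) (measure_ne_top _ _) (measure_ne_top _ _)
      (lc_Iic h x y ha' (by linarith)) hx hy
  constructor
  · intro x hx y hy a b ha hb hab
    exact (key x y hx hy a b ha hb hab).1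
  · intro x hx y hy a b ha hb hab
    exact (key x y hx hy a b ha hb hab).2

lemma concave_Ici {ρ : Measure ℝ} [IsProbabilityMeasure ρ] (h : LC ρ) :
    ConcaveOn ℝ {x | 0 < ρ.real (Ici x)} (fun x => Real.log (ρ.real (Ici x))) := by
  have key : ∀ x y : ℝ, 0 < ρ.real (Ici x) → 0 < ρ.real (Ici y) → ∀ a b : ℝ, 0 ≤ a → 0 ≤ b →
      a + b = 1 → 0 < ρ.real (Ici (a * x + b * y)) ∧
      a * Real.log (ρ.real (Ici x)) + b * Real.log (ρ.real (Ici y)) ≤
        Real.log (ρ.real (Ici (a * x + b * y))) := by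
    intro x y hx hy a b ha hb hab
    rcases ha.eq_or_lt with rfl | ha'
    · have : b = 1 := by linarith
      subst this
      simpa using hy
    rcases hb.eq_or_lt with rfl | hb'
    · have : a = 1 := by linarith
      subst this
      simpa using hx
    have hb1 : b = 1 - a := by linarith
    subst hb1
    exact toReal_lc (measure_ne_top _ _) (measure_ne_top _ _) (measure_ne_top _ _)
      (lc_Ici h x y ha' (by linarith)) hx hy
  constructor
  · intro x hx y hy a b ha hb hab
    exact (key x y hx hy a b ha hb hab).1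
  · intro x hx y hy a b ha hb hab
    exact (key x y hx hy a b ha hb hab).2

end Pool.Agent.Lib.MP_6d896a_gt
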