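import Mathlib
import Pool.Agent.Lib.MP_6d896a_gt.OneD

/-!
One-dimensional log-concave measures as Lipschitz images of the logistic measure, II.
-/

namespace Pool.Agent.Lib.MP_6d896a_gt

open MeasureTheory ProbabilityTheory Real Filter Topology Set
open scoped ENNReal NNReal Pointwise

variable {ρ : Measure ℝ} [IsProbabilityMeasure ρ]

lemma F_eq : (fun x => ρ.real (Iic x)) = cdf ρ := by
  funext x
  rw [cdf_eq_real]

lemma F_continuous [NullSingletonClass ρ] : Continuous (fun x => ρ.real (Iic x)) := by
  rw [F_eq, continuous_iff_continuousAt]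
  intro x
  rw [(monotone_cdf ρ).continuousAt_iff_leftLim_eq_rightLim, StieltjesFunction.rightLim_eq]
  apply le_antisymm ((monotone_cdf ρ).leftLim_le le_rfl)
  have h1 := (cdf ρ).measure_singleton x
  rw [measure_cdf, measure_singleton] at h1
  have h2 := ENNReal.ofReal_eq_zero.mp h1.symm
  linarith

lemma F_mono : Monotone (fun x => ρ.real (Iic x)) := by
  rw [F_eq]; exact monotone_cdf ρ

lemma F_surj [NullSingletonClass ρ] {u : ℝ} (h0 : 0 < u) (h1 : u < 1) :
    ∃ x, ρ.real (Iic x) = u := by
  have hb := tendsto_cdf_atBot ρ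
  have ht := tendsto_cdf_atTop ρ
  rw [← F_eq] at hb ht
  obtain ⟨a, ha⟩ := (hb.eventually_lt_const h0).exists
  obtain ⟨b, hb⟩ := (ht.eventually_const_lt h1).exists
  exact mem_range_of_exists_le_of_exists_ge F_continuous ⟨a, ha.le⟩ ⟨b, hb.le⟩

lemma Ici_eq [NullSingletonClass ρ] (x : ℝ) : ρ.real (Ici x) = 1 - ρ.real (Iic x) := by
  have h1 : ρ.real (Ici x) = ρ.real (Ioi x) := by
    rw [measureReal_def, measureReal_def, measure_congr Ioi_ae_eq_Ici.symm]
  rw [h1, ← Set.compl_Iic, probReal_compl_eq_one_sub measurableSet_Iic]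

/-- slopes of the logit of the distribution function -/
theorem logit_slope [NullSingletonClass ρ] (h : LC ρ) {q1 m q3 w : ℝ}
    (h1 : ρ.real (Iic q1) = 1 / 4) (h2 : ρ.real (Iic m) = 1 / 2) (h3 : ρ.real (Iic q3) = 3 / 4)
    (hw1 : m - q1 ≤ w) (hw3 : q3 - m ≤ w) {x y : ℝ} (hxy : x < y)
    (hx : 0 < ρ.real (Iic x)) (hy : ρ.real (Iic y) < 1) :
    Real.log (3 / 2) / w * (y - x) ≤ lg (ρ.real (Iic y)) - lg (ρ.real (Iic x)) := by
  have hmono := F_mono (ρ := ρ)
  have hm3 : m < q3 := by
    by_contra hcon
    push Not at hcon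
    have := hmono hcon
    simp only [h2, h3] at this
    norm_num at this
  have hm1 : q1 < m := by
    by_contra hcon
    push Not at hcon
    have := hmono hcon
    simp only [h1, h2] at this
    norm_num at this
  have hw : 0 < w := by linarith
  have hlog : 0 < Real.log (3 / 2) := Real.log_pos (by norm_num)
  have hcI := concave_Iic h
  have hcJ := concave_Ici h
  have hyx : 0 < y - x := by linarith
  have hposy : ∀ z, x ≤ z → 0 < ρ.real (Iic z) := fun z hz => lt_of_lt_of_le hx (hmono hz)
  have hposx : ∀ z, z ≤ y → 0 < ρ.real (Ici z) := by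
    intro z hz
    rw [Ici_eq]
    have := hmono hz
    simp only at this
    linarith
  have hlogit : ∀ z, 0 < ρ.real (Iic z) → 0 < ρ.real (Ici z) →
      lg (ρ.real (Iic z)) = Real.log (ρ.real (Iic z)) - Real.log (ρ.real (Ici z)) := by
    intro z hz hz'
    unfold lg
    rw [← Ici_eq, Real.log_div hz.ne' hz'.ne']
  -- left part
  have hleft : ∀ a b : ℝ, 0 < ρ.real (Iic a) → a < b → b ≤ m →
      Real.log (3 / 2) / w * (b - a) ≤
        Real.log (ρ.real (Iic b)) - Real.log (ρ.real (Iic a)) := by
    intro a b ha hab hbm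
    have hb : 0 < ρ.real (Iic b) := lt_of_lt_of_le ha (hmono hab.le)
    have hs1 : Real.log (3 / 2) / w ≤
        (Real.log (ρ.real (Iic q3)) - Real.log (ρ.real (Iic m))) / (q3 - m) := by
      rw [h3, h2, ← Real.log_div (by norm_num) (by norm_num)]
      norm_num
      apply div_le_div_of_nonneg_left hlog.le (by linarith) hw3
    have hs2 : (Real.log (ρ.real (Iic q3)) - Real.log (ρ.real (Iic m))) / (q3 - m) ≤
        (Real.log (ρ.real (Iic b)) - Real.log (ρ.real (Iic a))) / (b - a) := by
      have hq3 : q3 ∈ {x | 0 < ρ.real (Iic x)} := by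
        show 0 < ρ.real (Iic q3); rw [h3]; norm_num
      have hm : m ∈ {x | 0 < ρ.real (Iic x)} := by
        show 0 < ρ.real (Iic m); rw [h2]; norm_num
      rcases hbm.eq_or_lt with rfl | hbm'
      · exact hcI.slope_anti_adjacent ha hq3 hab hm3
      · have e1 := hcI.slope_anti_adjacent (x := b) (y := m) (z := q3) hb hq3 hbm' hm3
        have e2 := hcI.slope_anti_adjacent (x := a) (y := b) (z := m) ha hm hab hbm'
        exact e1.trans e2
    have hs3 := hs1.trans hs2
    rwa [le_div_iff₀ (by linarith)] at hs3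
  -- right part
  have hright : ∀ a b : ℝ, 0 < ρ.real (Ici b) → a < b → m ≤ a →
      Real.log (3 / 2) / w * (b - a) ≤
        Real.log (ρ.real (Ici a)) - Real.log (ρ.real (Ici b)) := by
    intro a b hb hab hma
    have ha : 0 < ρ.real (Ici a) := by
      rw [Ici_eq] at hb ⊢
      have := hmono hab.le
      simp only at this
      linarith
    have g1 : ρ.real (Ici q1) = 3 / 4 := by rw [Ici_eq, h1]; norm_num
    have g2 : ρ.real (Ici m) = 1 / 2 := by rw [Ici_eq, h2]; norm_num
    have hs1 : (Real.log (ρ.real (Ici m)) - Real.log (ρ.real (Ici q1))) / (m - q1) ≤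
        - (Real.log (3 / 2) / w) := by
      rw [g1, g2, ← Real.log_div (by norm_num) (by norm_num)]
      have e : Real.log (1 / 2 / (3 / 4)) = - Real.log (3 / 2) := by
        rw [← Real.log_inv]; norm_num
      rw [e, neg_div]
      apply neg_le_neg
      apply div_le_div_of_nonneg_left hlog.le (by linarith) hw1
    have hs2 : (Real.log (ρ.real (Ici b)) - Real.log (ρ.real (Ici a))) / (b - a) ≤
        (Real.log (ρ.real (Ici m)) - Real.log (ρ.real (Ici q1))) / (m - q1) := by
      have hq1 : q1 ∈ {x | 0 < ρ.real (Ici x)} := by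
        show 0 < ρ.real (Ici q1); rw [g1]; norm_num
      have hm : m ∈ {x | 0 < ρ.real (Ici x)} := by
        show 0 < ρ.real (Ici m); rw [g2]; norm_num
      rcases hma.eq_or_lt with rfl | hma'
      · exact hcJ.slope_anti_adjacent hq1 hb hm1 hab
      · have e1 := hcJ.slope_anti_adjacent (x := q1) (y := m) (z := a) hq1 ha hm1 hma'
        have e2 := hcJ.slope_anti_adjacent (x := m) (y := a) (z := b) hm hb hma' hab
        exact e2.trans e1
    have hs3 := hs2.trans hs1
    rw [div_le_iff₀ (by linarith)] at hs3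
    linarith
  rw [hlogit y (hposy y hxy.le) (hposx y le_rfl), hlogit x (hposy x le_rfl) (hposx x hxy.le)]
  have hI : ∀ a b : ℝ, 0 < ρ.real (Iic a) → a ≤ b →
      0 ≤ Real.log (ρ.real (Iic b)) - Real.log (ρ.real (Iic a)) := by
    intro a b ha hab
    have := Real.log_le_log ha (hmono hab)
    simp only at this
    linarith
  have hJ : ∀ a b : ℝ, 0 < ρ.real (Ici b) → a ≤ b →
      0 ≤ Real.log (ρ.real (Ici a)) - Real.log (ρ.real (Ici b)) := by
    intro a b hb hab
    have hle : ρ.real (Ici b) ≤ ρ.real (Ici a) := by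
      rw [Ici_eq, Ici_eq]
      have := hmono hab
      simp only at this
      linarith
    have := Real.log_le_log hb hle
    linarith
  rcases le_total y m with hym | hym
  · have e1 := hleft x y hx hxy hym
    have e2 := hJ x y (hposx y le_rfl) hxy.le
    linarith
  · rcases le_total m x with hmx | hmx
    · have e1 := hright x y (hposx y le_rfl) hxy hmx
      have e2 := hI x y hx hxy.le
      linarith
    · -- x ≤ m ≤ y
      have e1 : Real.log (3 / 2) / w * (m - x) ≤
          Real.log (ρ.real (Iic m)) - Real.log (ρ.real (Iic x)) := by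
        rcases hmx.eq_or_lt with rfl | hmx'
        · simp
        · exact hleft x m hx hmx' le_rfl
      have e2 : Real.log (3 / 2) / w * (y - m) ≤
          Real.log (ρ.real (Ici m)) - Real.log (ρ.real (Ici y)) := by
        rcases hym.eq_or_lt with rfl | hym'
        · simp
        · exact hright m y (hposx y le_rfl) hym' le_rfl
      have e3 := hI m y (hposy m hmx) hym
      have e4 := hJ x m (hposx m hym) hmx
      have e5 : Real.log (3 / 2) / w * (y - x) = Real.log (3 / 2) / w * (m - x) +
        Real.log (3 / 2) / w * (y - m) := by ring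
      rw [e5]
      linarith

end Pool.Agent.Lib.MP_6d896a_gt
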