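import Mathlib
import Pool.Agent.Lib.MP_6d896a_gt.OneD2

/-!
One-dimensional log-concave measures as Lipschitz images of the logistic measure, III.
-/

namespace Pool.Agent.Lib.MP_6d896a_gt

open MeasureTheory ProbabilityTheory Real Filter Topology Set
open scoped ENNReal NNReal Pointwise

/-- the increasing rearrangement map -/
noncomputable def Tq (ρ : Measure ℝ) (y : ℝ) : ℝ := sInf {x | Real.sigmoid y ≤ ρ.real (Iic x)}

variable {ρ : Measure ℝ} [IsProbabilityMeasure ρ]

lemma sig_pos (y : ℝ) : 0 < Real.sigmoid y ∧ Real.sigmoid y < 1 := by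
  have : Real.sigmoid y ∈ Set.range Real.sigmoid := ⟨y, rfl⟩
  rw [range_sigmoid] at this
  exact this

lemma Tq_bdd (y : ℝ) : BddBelow {x | Real.sigmoid y ≤ ρ.real (Iic x)} := by
  have hb := tendsto_cdf_atBot ρ
  rw [← F_eq] at hb
  obtain ⟨a, ha⟩ := (hb.eventually_lt_const (sig_pos y).1).exists
  refine ⟨a, fun x hx => ?_⟩
  by_contra hcon
  push Not at hcon
  have := F_mono (ρ := ρ) hcon.le
  simp only at this
  have hx' : Real.sigmoid y ≤ ρ.real (Iic x) := hx
  linarith

lemma F_Tq [NullSingletonClass ρ] (y : ℝ) : ρ.real (Iic (Tq ρ y)) = Real.sigmoid y := by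
  obtain ⟨z, hz⟩ := F_surj (ρ := ρ) (sig_pos y).1 (sig_pos y).2
  have hzm : z ∈ {x | Real.sigmoid y ≤ ρ.real (Iic x)} := hz.ge
  have hcl : IsClosed {x | Real.sigmoid y ≤ ρ.real (Iic x)} :=
    isClosed_le continuous_const F_continuous
  have h1 : Tq ρ y ∈ {x | Real.sigmoid y ≤ ρ.real (Iic x)} := hcl.csInf_mem ⟨z, hzm⟩ (Tq_bdd y)
  have h2 : Tq ρ y ≤ z := csInf_le (Tq_bdd y) hzm
  apply le_antisymm
  · have := F_mono (ρ := ρ) h2
    simp only at this
    rw [hz] at this
    exact this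
  · exact h1

lemma Tq_le_iff [NullSingletonClass ρ] (y x : ℝ) : Tq ρ y ≤ x ↔ Real.sigmoid y ≤ ρ.real (Iic x) := by
  constructor
  · intro h
    rw [← F_Tq (ρ := ρ) y]
    exact F_mono h
  · intro h
    exact csInf_le (Tq_bdd y) h

lemma Tq_mono [NullSingletonClass ρ] : Monotone (Tq ρ) := by
  intro y y' h
  rw [Tq_le_iff, F_Tq]
  exact Real.sigmoid_le_iff.mpr h

lemma sig_lg {u : ℝ} (h0 : 0 < u) (h1 : u < 1) : Real.sigmoid (lg u) = u := by
  have : u ∈ Set.range Real.sigmoid := by rw [range_sigmoid]; exact ⟨h0, h1⟩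
  obtain ⟨x, rfl⟩ := this
  rw [lg_sig]

lemma Tq_map [NullSingletonClass ρ] : lgm.map (Tq ρ) = ρ := by
  have hTm : Measurable (Tq ρ) := Tq_mono.measurable
  have := lgm_prob
  have : IsProbabilityMeasure (lgm.map (Tq ρ)) := Measure.isProbabilityMeasure_map hTm.aemeasurable
  apply Measure.ext_of_Iic
  intro a
  rw [Measure.map_apply hTm measurableSet_Iic, ← lgm_eq,
    Measure.map_apply lg_measurable (hTm measurableSet_Iic)]
  unfold unif
  rw [Measure.restrict_apply (lg_measurable (hTm measurableSet_Iic))]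
  set c := ρ.real (Iic a) with hc
  have hc1 : c ≤ 1 := measureReal_le_one
  have hc0 : 0 ≤ c := measureReal_nonneg
  have hset : lg ⁻¹' (Tq ρ ⁻¹' (Iic a)) ∩ Ioo 0 1 = Ioo 0 1 ∩ Iic c := by
    ext u
    simp only [mem_inter_iff, mem_preimage, mem_Iic, mem_Ioo]
    constructor
    · rintro ⟨h, h0, h1⟩
      rw [Tq_le_iff, sig_lg h0 h1] at h
      exact ⟨⟨h0, h1⟩, h⟩
    · rintro ⟨⟨h0, h1⟩, h⟩
      refine ⟨?_, h0, h1⟩
      rw [Tq_le_iff, sig_lg h0 h1]
      exact h
  rw [hset]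
  have hvol : volume (Ioo (0 : ℝ) 1 ∩ Iic c) = ENNReal.ofReal c := by
    apply le_antisymm
    · calc volume (Ioo (0 : ℝ) 1 ∩ Iic c) ≤ volume (Ioc (0 : ℝ) c) := by
            apply measure_mono
            rintro u ⟨⟨h0, _⟩, h⟩
            exact ⟨h0, h⟩
        _ = ENNReal.ofReal c := by rw [Real.volume_Ioc, sub_zero]
    · calc ENNReal.ofReal c = volume (Ioo (0 : ℝ) c) := by rw [Real.volume_Ioo, sub_zero]
        _ ≤ volume (Ioo (0 : ℝ) 1 ∩ Iic c) := by
            apply measure_mono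
            rintro u ⟨h0, h⟩
            exact ⟨⟨h0, lt_of_lt_of_le h hc1⟩, h.le⟩
  rw [hvol, hc, ofReal_measureReal]

lemma memLp_of_lip {T : ℝ → ℝ} {L : ℝ≥0} (hT : LipschitzWith L T) : MemLp T 2 lgm := by
  have := lgm_prob
  have h1 : MemLp (fun _ : ℝ => |T 0|) 2 lgm := memLp_const _
  have h2 : MemLp (fun y : ℝ => ‖y‖) 2 lgm := lgm_memLp.norm
  have h3 : MemLp (fun y : ℝ => (L : ℝ) * ‖y‖) 2 lgm := h2.const_mul _
  have hb : MemLp (fun y : ℝ => |T 0| + (L : ℝ) * ‖y‖) 2 lgm := h1.add h3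
  refine hb.mono hT.continuous.aestronglyMeasurable (ae_of_all _ fun y => ?_)
  have h7 := hT.dist_le_mul y 0
  rw [Real.dist_eq, Real.dist_eq, sub_zero] at h7
  rw [Real.norm_eq_abs, Real.norm_eq_abs,
    abs_of_nonneg (by positivity : 0 ≤ |T 0| + (L : ℝ) * ‖y‖), Real.norm_eq_abs]
  have h8 := abs_sub_abs_le_abs_sub (T y) (T 0)
  linarith

/-- The quantile map is Lipschitz with a constant controlled by the standard deviation. -/
theorem Tq_lip [NullSingletonClass ρ] (h : LC ρ) :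
    ∃ L : ℝ≥0, 0 < L ∧ LipschitzWith L (Tq ρ) ∧ MemLp (fun x : ℝ => x) 2 ρ ∧
      (Real.log (3 / 2) * L) ^ 2 ≤ 6 * variance (fun x : ℝ => x) ρ := by
  obtain ⟨q1, h1⟩ := F_surj (ρ := ρ) (u := 1 / 4) (by norm_num) (by norm_num)
  obtain ⟨m, h2⟩ := F_surj (ρ := ρ) (u := 1 / 2) (by norm_num) (by norm_num)
  obtain ⟨q3, h3⟩ := F_surj (ρ := ρ) (u := 3 / 4) (by norm_num) (by norm_num)
  have hmono := F_mono (ρ := ρ)
  have hm3 : m < q3 := by
    by_contra hcon
    push Not at hcon
    have := hmono hcon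
    simp only [h2, h3] at this
    norm_num at this
  have hm1 : q1 < m := by
    by_contra hcon
    push Not at hcon
    have := hmono hcon
    simp only [h1, h2] at this
    norm_num at this
  have hlog : 0 < Real.log (3 / 2) := Real.log_pos (by norm_num)
  set w := max (m - q1) (q3 - m) with hw
  have hw0 : 0 < w := lt_of_lt_of_le (by linarith) (le_max_left (m - q1) (q3 - m))
  have hLpos : 0 < w / Real.log (3 / 2) := by positivity
  let L : ℝ≥0 := ⟨w / Real.log (3 / 2), hLpos.le⟩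
  have hL : (L : ℝ) = w / Real.log (3 / 2) := rfl
  have hlip : LipschitzWith L (Tq ρ) := by
    apply LipschitzWith.of_le_add_mul
    intro y y'
    rw [Real.dist_eq, hL]
    rcases le_total y y' with hyy | hyy
    · have := Tq_mono (ρ := ρ) hyy
      have h5 : 0 ≤ w / Real.log (3 / 2) * |y - y'| := by positivity
      linarith
    · rcases (Tq_mono (ρ := ρ) hyy).eq_or_lt with heq | hlt
      · have h5 : 0 ≤ w / Real.log (3 / 2) * |y - y'| := by positivity
        linarith
      · have hs := logit_slope h h1 h2 h3 (le_max_left _ _) (le_max_right _ _) hlt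
          (by rw [F_Tq]; exact (sig_pos y').1) (by rw [F_Tq]; exact (sig_pos y).2)
        rw [F_Tq, F_Tq, lg_sig, lg_sig, ← hw] at hs
        rw [abs_of_nonneg (by linarith : 0 ≤ y - y')]
        have h6 := mul_le_mul_of_nonneg_left hs hLpos.le
        have e : w / Real.log (3 / 2) * (Real.log (3 / 2) / w * (Tq ρ y - Tq ρ y')) =
            Tq ρ y - Tq ρ y' := by
          field_simp
        rw [e] at h6
        linarith
  have hmem : MemLp (fun x : ℝ => x) 2 ρ := by
    have hTm : Measurable (Tq ρ) := Tq_mono.measurable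
    have hprob := lgm_prob
    rw [← Tq_map (ρ := ρ)]
    have hid : AEStronglyMeasurable (fun x : ℝ => x) (lgm.map (Tq ρ)) := aestronglyMeasurable_id
    rw [memLp_map_measure_iff hid hTm.aemeasurable]
    exact memLp_of_lip hlip
  refine ⟨L, hLpos, hlip, hmem, ?_⟩
  have e1 : Real.log (3 / 2) * (L : ℝ) = w := by
    rw [hL]; field_simp
  rw [e1]
  have g1 : ρ.real (Ici m) = 1 / 2 := by rw [Ici_eq, h2]; norm_num
  have g2 : ρ.real (Ici q3) = 1 / 4 := by rw [Ici_eq, h3]; norm_num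
  rcases le_total (m - q1) (q3 - m) with hcase | hcase
  · rw [hw, max_eq_right hcase]
    have := var_lower hmem hm3.le h2 g2
    linarith
  · rw [hw, max_eq_left hcase]
    have := var_lower hmem hm1.le h1 g1
    linarith

end Pool.Agent.Lib.MP_6d896a_gt
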