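import Mathlib
import Pool.Agent.Lib.MP_6d896a_gt.OneD3

/-!
Even log-concave measures on the line.
-/

namespace Pool.Agent.Lib.MP_6d896a_gt

open MeasureTheory ProbabilityTheory Real Filter Topology Set
open scoped ENNReal NNReal Pointwise

variable {ρ : Measure ℝ} [IsProbabilityMeasure ρ]

lemma even_Ici (he : ρ.map (fun x => -x) = ρ) (x : ℝ) : ρ.real (Ici x) = ρ.real (Iic (-x)) := by
  have hm : Measurable (fun x : ℝ => -x) := measurable_neg
  rw [measureReal_def, measureReal_def]
  congr 1
  conv_lhs => rw [← he]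
  rw [Measure.map_apply hm measurableSet_Ici]
  congr 1
  ext y
  simp only [mem_preimage, mem_Ici, mem_Iic]
  constructor <;> intro h <;> linarith

lemma even_zero [NullSingletonClass ρ] (he : ρ.map (fun x => -x) = ρ) :
    ρ.real (Iic 0) = 1 / 2 := by
  have h1 := even_Ici he 0
  rw [Ici_eq, neg_zero] at h1
  linarith

lemma lip_of_quartiles [NullSingletonClass ρ] (h : LC ρ) {q1 m q3 w : ℝ}
    (h1 : ρ.real (Iic q1) = 1 / 4) (h2 : ρ.real (Iic m) = 1 / 2) (h3 : ρ.real (Iic q3) = 3 / 4)
    (hw1 : m - q1 ≤ w) (hw3 : q3 - m ≤ w) (hw : 0 < w) {L : ℝ≥0}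
    (hL : (L : ℝ) = w / Real.log (3 / 2)) : LipschitzWith L (Tq ρ) := by
  have hlog : 0 < Real.log (3 / 2) := Real.log_pos (by norm_num)
  have hLpos : 0 < w / Real.log (3 / 2) := by positivity
  apply LipschitzWith.of_le_add_mul
  intro y y'
  rw [Real.dist_eq, hL]
  rcases le_total y y' with hyy | hyy
  · have := Tq_mono (ρ := ρ) hyy
    have h5 : 0 ≤ w / Real.log (3 / 2) * |y - y'| := by positivity
    linarith
  · rcases (Tq_mono (ρ := ρ) hyy).eq_or_lt with heq | hlt
    · have h5 : 0 ≤ w / Real.log (3 / 2) * |y - y'| := by positivity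
      linarith
    · have hs := logit_slope h h1 h2 h3 hw1 hw3 hlt
        (by rw [F_Tq]; exact (sig_pos y').1) (by rw [F_Tq]; exact (sig_pos y).2)
      rw [F_Tq, F_Tq, lg_sig, lg_sig] at hs
      rw [abs_of_nonneg (by linarith : 0 ≤ y - y')]
      have h6 := mul_le_mul_of_nonneg_left hs hLpos.le
      have e : w / Real.log (3 / 2) * (Real.log (3 / 2) / w * (Tq ρ y - Tq ρ y')) =
          Tq ρ y - Tq ρ y' := by
        field_simp
      rw [e] at h6
      linarith

lemma Tq_odd [NullSingletonClass ρ] (h : LC ρ) (he : ρ.map (fun x => -x) = ρ) (t : ℝ) :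
    Tq ρ (-t) = - Tq ρ t := by
  obtain ⟨q1, h1⟩ := F_surj (ρ := ρ) (u := 1 / 4) (by norm_num) (by norm_num)
  obtain ⟨m, h2⟩ := F_surj (ρ := ρ) (u := 1 / 2) (by norm_num) (by norm_num)
  obtain ⟨q3, h3⟩ := F_surj (ρ := ρ) (u := 3 / 4) (by norm_num) (by norm_num)
  have hmono := F_mono (ρ := ρ)
  have hm3 : m < q3 := by
    by_contra hcon
    push Not at hcon
    have := hmono hcon
    simp only [h2, h3] at this
    norm_num at this
  have hlog : 0 < Real.log (3 / 2) := Real.log_pos (by norm_num)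
  set w := max (m - q1) (q3 - m) with hw
  have hw0 : 0 < w := lt_of_lt_of_le (by linarith) (le_max_right (m - q1) (q3 - m))
  have hinj : ∀ x y : ℝ, 0 < ρ.real (Iic x) → ρ.real (Iic y) < 1 → x < y →
      ρ.real (Iic x) ≠ ρ.real (Iic y) := by
    intro x y hx hy hxy heq
    have hs := logit_slope h h1 h2 h3 (le_max_left _ _) (le_max_right _ _) hxy hx hy
    rw [heq, sub_self, ← hw] at hs
    have : 0 < Real.log (3 / 2) / w * (y - x) := by
      have : 0 < y - x := by linarith
      positivity
    linarith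
  have e1 : ρ.real (Iic (- Tq ρ t)) = Real.sigmoid (-t) := by
    rw [← even_Ici he, Ici_eq, F_Tq, Real.sigmoid_neg]
  have e2 : ρ.real (Iic (Tq ρ (-t))) = Real.sigmoid (-t) := F_Tq (-t)
  have hp := sig_pos (-t)
  rcases lt_trichotomy (Tq ρ (-t)) (- Tq ρ t) with hlt | heq | hlt
  · exfalso
    apply hinj _ _ _ _ hlt
    · rw [e1, e2]
    · rw [e2]; exact hp.1
    · rw [e1]; exact hp.2
  · exact heq
  · exfalso
    apply hinj _ _ _ _ hlt
    · rw [e1, e2]
    · rw [e1]; exact hp.1
    · rw [e2]; exact hp.2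

lemma Tq_injective [NullSingletonClass ρ] : Function.Injective (Tq ρ) := by
  intro a b hab
  have h1 := F_Tq (ρ := ρ) a
  have h2 := F_Tq (ρ := ρ) b
  rw [hab, h2] at h1
  exact (Real.sigmoid_injective h1).symm

lemma Tq_zero [NullSingletonClass ρ] (h : LC ρ) (he : ρ.map (fun x => -x) = ρ) :
    Tq ρ 0 = 0 := by
  have := Tq_odd h he 0
  rw [neg_zero] at this
  linarith

lemma Tq_nonneg_iff [NullSingletonClass ρ] (h : LC ρ) (he : ρ.map (fun x => -x) = ρ) (t : ℝ) :
    0 ≤ Tq ρ t ↔ 0 ≤ t := by
  have hs : StrictMono (Tq ρ) := Tq_mono.strictMono_of_injective Tq_injective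
  conv_lhs => rw [← Tq_zero h he]
  exact hs.le_iff_le

/-- quartile of an even measure -/
lemma exists_quartile [NullSingletonClass ρ] (he : ρ.map (fun x => -x) = ρ) :
    ∃ w : ℝ, 0 < w ∧ ρ.real (Iic w) = 3 / 4 ∧ ρ.real (Ici w) = 1 / 4 ∧
      ρ.real (Iic (-w)) = 1 / 4 := by
  obtain ⟨w, h3⟩ := F_surj (ρ := ρ) (u := 3 / 4) (by norm_num) (by norm_num)
  have h0 := even_zero he
  have hmono := F_mono (ρ := ρ)
  refine ⟨w, ?_, h3, ?_, ?_⟩
  · by_contra hcon
    push Not at hcon
    have := hmono hcon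
    simp only [h0, h3] at this
    norm_num at this
  · rw [Ici_eq, h3]; norm_num
  · rw [← even_Ici he, Ici_eq, h3]; norm_num

lemma Tq_lip_even [NullSingletonClass ρ] (h : LC ρ) (he : ρ.map (fun x => -x) = ρ) {w : ℝ}
    (hw : 0 < w) (h3 : ρ.real (Iic w) = 3 / 4) {L : ℝ≥0}
    (hL : (L : ℝ) = w / Real.log (3 / 2)) : LipschitzWith L (Tq ρ) := by
  apply lip_of_quartiles h (q1 := -w) (m := 0) (q3 := w) (w := w) _ (even_zero he) h3
    (by linarith) (by linarith) hw hL
  rw [← even_Ici he, Ici_eq, h3]; norm_num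

/-- small ball estimate -/
lemma small_ball [NullSingletonClass ρ] (h : LC ρ) (he : ρ.map (fun x => -x) = ρ) {w : ℝ}
    (hw4 : ρ.real (Ici w) = 1 / 4) {κ : ℝ} (hk0 : 0 < κ) (hk1 : κ < 1) :
    ρ.real {x | |x| ≤ κ * w} ≤ κ := by
  have h0 : ρ.real (Ici 0) = 1 / 2 := by
    rw [even_Ici he, neg_zero, even_zero he]
  have h1 := lc_Ici h w 0 hk0 hk1
  rw [mul_zero, add_zero] at h1
  obtain ⟨hp, h2⟩ := toReal_lc (measure_ne_top _ _) (measure_ne_top _ _) (measure_ne_top _ _)
    h1 (by rw [← measureReal_def, hw4]; norm_num) (by rw [← measureReal_def, h0]; norm_num)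
  rw [← measureReal_def] at hp h2
  rw [← measureReal_def, ← measureReal_def, hw4, h0] at h2
  set G := ρ.real (Ici (κ * w)) with hG
  have h3 : Real.log (1 / 4) = 2 * Real.log (1 / 2) := by
    rw [show (1 / 4 : ℝ) = (1 / 2) ^ 2 by norm_num, Real.log_pow]
    norm_num
  have h4 : Real.log (1 / 2) = - Real.log 2 := by
    rw [one_div, Real.log_inv]
  have h5 : - Real.log 2 - κ * Real.log 2 ≤ Real.log G := by
    rw [h3, h4] at h2
    linarith
  have h6 : Real.log (2 * G) = Real.log 2 + Real.log G := Real.log_mul (by norm_num) hp.ne'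
  have h7 : - (κ * Real.log 2) ≤ Real.log (2 * G) := by rw [h6]; linarith
  have h8 : Real.exp (- (κ * Real.log 2)) ≤ 2 * G := by
    rw [← Real.exp_log (show 0 < 2 * G by positivity)]
    exact Real.exp_le_exp.mpr h7
  have h9 : 1 - κ * Real.log 2 ≤ 2 * G := by
    have := Real.add_one_le_exp (- (κ * Real.log 2))
    linarith
  have hlog2 : Real.log 2 ≤ 1 := by
    have := Real.log_le_sub_one_of_pos (show (0 : ℝ) < 2 by norm_num)
    linarith
  have h10 : κ * Real.log 2 ≤ κ := mul_le_of_le_one_right hk0.le hlog2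
  -- measure of the complement
  have hsub : {x : ℝ | |x| ≤ κ * w} ⊆ (Ioi (κ * w) ∪ Iio (-(κ * w)))ᶜ := by
    intro x hx
    have hx' : |x| ≤ κ * w := hx
    rw [abs_le] at hx'
    simp only [mem_compl_iff, mem_union, mem_Ioi, mem_Iio, not_or, not_lt]
    exact ⟨hx'.2, hx'.1⟩
  by_cases hneg : κ * w < 0
  · have : {x : ℝ | |x| ≤ κ * w} = ∅ := by
      ext x
      simp only [mem_setOf_eq, mem_empty_iff_false, iff_false, not_le]
      exact lt_of_lt_of_le hneg (abs_nonneg x)
    rw [this, measureReal_empty]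
    exact hk0.le
  · push Not at hneg
    refine (measureReal_mono hsub).trans ?_
    rw [probReal_compl_eq_one_sub (measurableSet_Ioi.union measurableSet_Iio)]
    rw [measureReal_union _ measurableSet_Iio]
    · have e1 : ρ.real (Ioi (κ * w)) = G := by
        rw [hG, measureReal_def, measureReal_def, measure_congr Ioi_ae_eq_Ici]
      have e2 : ρ.real (Iio (-(κ * w))) = G := by
        rw [hG, even_Ici he, measureReal_def, measureReal_def, measure_congr Iio_ae_eq_Iic]
      rw [e1, e2]
      linarith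
    · rw [Set.disjoint_left]
      intro x h1 h2
      have h1' : κ * w < x := h1
      have h2' : x < -(κ * w) := h2
      linarith

/-- variance of the absolute value -/
lemma var_abs_lower [NullSingletonClass ρ] (h : LC ρ) (he : ρ.map (fun x => -x) = ρ) {w : ℝ}
    (hw : 0 < w) (h3 : ρ.real (Iic w) = 3 / 4) (h2 : MemLp (fun x : ℝ => x) 2 ρ) :
    w ^ 2 / 72 ≤ variance (fun x : ℝ => |x|) ρ := by
  have h4 : ρ.real (Ici w) = 1 / 4 := by rw [Ici_eq, h3]; norm_num
  have h5 : ρ.real (Iic (-w)) = 1 / 4 := by rw [← even_Ici he, h4]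
  have habs : Measurable (fun x : ℝ => |x|) := measurable_id.abs
  have hprob : IsProbabilityMeasure (ρ.map (fun x : ℝ => |x|)) :=
    Measure.isProbabilityMeasure_map habs.aemeasurable
  -- central interval
  have hc : 1 / 6 ≤ ρ.real (Icc (-(w / 2)) (w / 2)) := by
    set a := ρ.real (Icc (-(w / 2)) (w / 2)) with ha
    have hA : ρ.real (Icc (w / 2) w) = ρ.real (Icc (-w) (-(w / 2))) := by
      rw [measureReal_def, measureReal_def]
      congr 1
      conv_lhs => rw [← he]
      rw [Measure.map_apply measurable_neg measurableSet_Icc]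
      congr 1
      ext y
      simp only [mem_preimage, mem_Icc]
      constructor <;> rintro ⟨h1, h2⟩ <;> constructor <;> linarith
    set b := ρ.real (Icc (w / 2) w) with hb
    have hlc := h (Icc (w / 2) w) (Icc (-w) (-(w / 2))) (1 / 2) isCompact_Icc isCompact_Icc
      (by norm_num) (by norm_num)
    have hsub : (1 / 2 : ℝ) • Icc (w / 2) w + (1 - 1 / 2 : ℝ) • Icc (-w) (-(w / 2)) ⊆
        Icc (-(w / 2)) (w / 2) := by
      rintro z ⟨u, ⟨x, hx, rfl⟩, v, ⟨y, hy, rfl⟩, rfl⟩
      show (1 / 2 : ℝ) • x + (1 - 1 / 2 : ℝ) • y ∈ _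
      rw [smul_eq_mul, smul_eq_mul]
      rw [mem_Icc] at hx hy ⊢
      constructor <;> linarith [hx.1, hx.2, hy.1, hy.2]
    have hlc2 := hlc.trans (measure_mono hsub)
    have hle : b ≤ a := by
      have e1 : ρ (Icc (w / 2) w) = ENNReal.ofReal b := by rw [hb, ofReal_measureReal]
      have e2 : ρ (Icc (-w) (-(w / 2))) = ENNReal.ofReal b := by rw [hA, ofReal_measureReal]
      rw [e1, e2] at hlc2
      have hbnn : 0 ≤ b := measureReal_nonneg
      rcases hbnn.eq_or_lt with hb0 | hb0
      · rw [← hb0]; exact measureReal_nonneg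
      · rw [show (1 - 1 / 2 : ℝ) = 1 / 2 by norm_num, ← ENNReal.rpow_add _ _ (by
          simpa using hb0) ENNReal.ofReal_ne_top] at hlc2
        norm_num at hlc2
        have h6 := ENNReal.toReal_mono (measure_ne_top _ _) hlc2
        rw [ENNReal.toReal_ofReal hb0.le] at h6
        exact h6
    have hsum : (1 : ℝ) / 4 ≤ b + a / 2 := by
      have e0 : ρ.real (Ioc 0 w) = 1 / 4 := by
        have e1 : Iic w \ Iic 0 = Ioc (0 : ℝ) w := by
          ext x; simp only [mem_diff, mem_Iic, mem_Ioc, not_le]; exact and_comm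
        rw [← e1, measureReal_sdiff (Iic_subset_Iic.mpr hw.le) measurableSet_Iic, h3,
          even_zero he]
        norm_num
      have e2 : ρ.real (Icc 0 (w / 2)) = ρ.real (Icc (-(w / 2)) 0) := by
        rw [measureReal_def, measureReal_def]
        congr 1
        conv_lhs => rw [← he]
        rw [Measure.map_apply measurable_neg measurableSet_Icc]
        congr 1
        ext y
        simp only [mem_preimage, mem_Icc]
        constructor <;> rintro ⟨h1, h2⟩ <;> constructor <;> linarith
      have e3 : ρ.real (Icc 0 (w / 2)) + ρ.real (Icc (-(w / 2)) 0) = a := by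
        have h6 : ρ.real (Icc (-(w / 2)) 0) = ρ.real (Ico (-(w / 2)) 0) := by
          rw [measureReal_def, measureReal_def, measure_congr Ico_ae_eq_Icc]
        rw [h6, add_comm, ← measureReal_union _ measurableSet_Icc]
        · rw [ha, Ico_union_Icc_eq_Icc (by linarith) (by linarith)]
        · rw [Set.disjoint_left]
          intro x h1 h2
          have := h1.2
          have := h2.1
          linarith
      have e4 : ρ.real (Icc 0 (w / 2)) = a / 2 := by linarith
      rw [← e0, ← e4]
      calc ρ.real (Ioc 0 w) ≤ ρ.real (Icc (w / 2) w ∪ Icc 0 (w / 2)) := by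
            refine measureReal_mono (fun x hx => ?_) (measure_ne_top _ _)
            rcases le_total x (w / 2) with h | h
            · right; exact ⟨hx.1.le, h⟩
            · left; exact ⟨h, hx.2⟩
        _ ≤ _ := measureReal_union_le _ _
    linarith
  have hmem : MemLp (fun x : ℝ => x) 2 (ρ.map (fun x : ℝ => |x|)) := by
    have hid : AEStronglyMeasurable (fun x : ℝ => x) (ρ.map (fun x : ℝ => |x|)) :=
      aestronglyMeasurable_id
    rw [memLp_map_measure_iff hid habs.aemeasurable]
    exact h2.abs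
  have hv := var_lower hmem (p := w / 2) (q := w) (by linarith) rfl rfl
  have hα : 1 / 6 ≤ (ρ.map (fun x : ℝ => |x|)).real (Iic (w / 2)) := by
    rw [map_measureReal_apply habs measurableSet_Iic]
    have : (fun x : ℝ => |x|) ⁻¹' (Iic (w / 2)) = Icc (-(w / 2)) (w / 2) := by
      ext x; simp only [mem_preimage, mem_Iic, mem_Icc, abs_le]
    rw [this]
    exact hc
  have hβ : (ρ.map (fun x : ℝ => |x|)).real (Ici w) = 1 / 2 := by
    rw [map_measureReal_apply habs measurableSet_Ici]
    have : (fun x : ℝ => |x|) ⁻¹' (Ici w) = Iic (-w) ∪ Ici w := by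
      ext x; simp only [mem_preimage, mem_Iic, mem_Ici, mem_union, le_abs]
      constructor
      · rintro (h | h)
        · right; exact h
        · left; linarith
      · rintro (h | h)
        · right; linarith
        · left; exact h
    rw [this, measureReal_union _ measurableSet_Ici, h4, h5]
    · norm_num
    · rw [Set.disjoint_left]
      intro x h1 h2
      have h1' : x ≤ -w := h1
      have h2' : w ≤ x := h2
      linarith
  have hvar : variance (fun x : ℝ => x) (ρ.map (fun x : ℝ => |x|)) =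
      variance (fun x : ℝ => |x|) ρ := by
    have hid : AEMeasurable (fun x : ℝ => x) (ρ.map (fun x : ℝ => |x|)) := aemeasurable_id
    rw [variance_map hid habs.aemeasurable]
    rfl
  rw [hvar, hβ] at hv
  have hv0 : 0 ≤ variance (fun x : ℝ => |x|) ρ := variance_nonneg _ _
  set α := (ρ.map (fun x : ℝ => |x|)).real (Iic (w / 2)) with hαd
  have hα1 : α ≤ 1 := measureReal_le_one
  nlinarith

end Pool.Agent.Lib.MP_6d896a_gt
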