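import Mathlib
import Pool.Agent.Lib.MP_6d896a_gt.Posterior

/-!
`L^1` Poincare inequality for a Gaussian times independent logistic variables, conditioned on
a polyhedral cone.
-/

namespace Pool.Agent.Lib.MP_6d896a_gt

open MeasureTheory ProbabilityTheory Real Filter Topology
open scoped ENNReal

variable {n : ℕ} {K : Type} [Fintype K]

/-- polyhedral cone -/
def CK (d : K → EuclideanSpace ℝ (Fin n)) : Set (EuclideanSpace ℝ (Fin n)) :=
  {x | ∀ k, (inner ℝ (d k) x : ℝ) ≤ 0}

/-- smooth penalisation of the constraints -/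
noncomputable def SbK (d : K → EuclideanSpace ℝ (Fin n)) (β : ℝ) (x : EuclideanSpace ℝ (Fin n)) :
    ℝ := ∏ k, (1 + Real.exp (β * inner ℝ (d k) x))⁻¹

lemma SbK_pos (d : K → EuclideanSpace ℝ (Fin n)) (β : ℝ) (x : EuclideanSpace ℝ (Fin n)) :
    0 < SbK d β x := by
  unfold SbK
  apply Finset.prod_pos
  intro p _
  positivity

lemma SbK_le (d : K → EuclideanSpace ℝ (Fin n)) (β : ℝ) (x : EuclideanSpace ℝ (Fin n)) :
    SbK d β x ≤ 1 := by
  unfold SbK
  apply Finset.prod_le_one
  · intro p _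
    positivity
  · intro p _
    apply inv_le_one_of_one_le₀
    have := Real.exp_pos (β * inner ℝ (d p) x)
    linarith

lemma SbK_continuous (d : K → EuclideanSpace ℝ (Fin n)) (β : ℝ) : Continuous (SbK d β) := by
  unfold SbK
  apply continuous_finsetProd
  intro p _
  apply Continuous.inv₀
  · exact continuous_const.add (Real.continuous_exp.comp
      (continuous_const.mul (continuous_const.inner continuous_id)))
  · intro x; positivity

/-- coefficients of the softplus potential -/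
noncomputable def ccK (n : ℕ) (K : Type) : Fin n ⊕ K → ℝ
  | Sum.inl _ => 2
  | Sum.inr _ => 1

/-- directions of the softplus potential -/
noncomputable def uuK (d : K → EuclideanSpace ℝ (Fin n)) (β : ℝ) :
    Fin n ⊕ K → EuclideanSpace ℝ (Fin n)
  | Sum.inl i => EuclideanSpace.single i 1
  | Sum.inr k => β • d k

omit [Fintype K] in
lemma ccK_nonneg (k : Fin n ⊕ K) : 0 ≤ ccK n K k := by
  cases k with
  | inl i => simp [ccK]
  | inr p => simp [ccK]

lemma exp_neg_VsK (d : K → EuclideanSpace ℝ (Fin n)) (kap : ℝ) (y : EuclideanSpace ℝ (Fin n))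
    (β : ℝ) (x : EuclideanSpace ℝ (Fin n)) :
    Real.exp (-Vs kap y (bb n) (ccK n K) (uuK d β) x) =
      Real.exp (-(kap / 2) * ‖x - y‖ ^ 2) * ld x * SbK d β x := by
  unfold Vs
  rw [Fintype.sum_sum_type]
  simp only [ccK, uuK]
  have e1 : inner ℝ (bb n) x = - ∑ i, x i := by
    unfold bb
    rw [PiLp.inner_apply]
    simp
  have e2 : ∀ i : Fin n, inner ℝ (EuclideanSpace.single i (1 : ℝ)) x = x i := by
    intro i
    rw [EuclideanSpace.inner_single_left]; simp
  simp only [inner_smul_left, e1, e2, conj_trivial]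
  have e3 : ∀ t : ℝ, Real.exp (-(2 * sp t)) * Real.exp t = ld1 t := by
    intro t
    unfold sp ld1
    rw [show -(2 * Real.log (1 + Real.exp t)) = Real.log (((1 + Real.exp t) ^ 2)⁻¹) by
      rw [Real.log_inv, Real.log_pow]; push_cast; ring, Real.exp_log (by positivity)]
    field_simp
  have e4 : ∀ t : ℝ, Real.exp (-sp t) = (1 + Real.exp t)⁻¹ := by
    intro t
    unfold sp
    rw [← Real.log_inv, Real.exp_log (by positivity)]
  have e5 : ld x = Real.exp (∑ i, x i) * Real.exp (-∑ i : Fin n, 2 * sp (x i)) := by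
    unfold ld
    rw [← Finset.sum_neg_distrib, Real.exp_sum, Real.exp_sum, ← Finset.prod_mul_distrib]
    apply Finset.prod_congr rfl
    intro i _
    rw [← e3, mul_comm]
  have e6 : SbK d β x = Real.exp (-∑ k : K, 1 * sp (β * inner ℝ (d k) x)) := by
    unfold SbK
    rw [← Finset.sum_neg_distrib, Real.exp_sum]
    apply Finset.prod_congr rfl
    intro p _
    rw [one_mul, e4]
  rw [e5, e6, ← Real.exp_add, ← Real.exp_add, ← Real.exp_add]
  congr 1
  ring

/-- limit weight -/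
noncomputable def WlC (C : Set (EuclideanSpace ℝ (Fin n))) (x : EuclideanSpace ℝ (Fin n)) : ℝ :=
  Set.indicator C (fun x => ld x) x

lemma CK_measurable (d : K → EuclideanSpace ℝ (Fin n)) : MeasurableSet (CK d) := by
  have : CK d = ⋂ k, {x : EuclideanSpace ℝ (Fin n) | (inner ℝ (d k) x : ℝ) ≤ 0} := by
    ext x; simp [CK]
  rw [this]
  refine MeasurableSet.iInter fun k => ?_
  exact measurableSet_le (continuous_const.inner continuous_id).measurable measurable_const

lemma WlC_nonneg (C : Set (EuclideanSpace ℝ (Fin n))) (x : EuclideanSpace ℝ (Fin n)) :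
    0 ≤ WlC C x := Set.indicator_nonneg (fun x _ => (ld_pos x).le) x

open Classical in
lemma WlC_le (C : Set (EuclideanSpace ℝ (Fin n))) (x : EuclideanSpace ℝ (Fin n)) :
    WlC C x ≤ 1 := by
  unfold WlC
  rw [Set.indicator_apply]
  split_ifs
  · exact ld_le x
  · exact zero_le_one

lemma WlC_measurable {C : Set (EuclideanSpace ℝ (Fin n))} (hC : MeasurableSet C) :
    Measurable (WlC C) := ld_continuous.measurable.indicator hC

lemma inner_ne_ae {v : EuclideanSpace ℝ (Fin n)} (hv : v ≠ 0) :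
    ∀ᵐ x ∂(volume : Measure (EuclideanSpace ℝ (Fin n))), (inner ℝ v x : ℝ) ≠ 0 := by
  let s : Submodule ℝ (EuclideanSpace ℝ (Fin n)) := LinearMap.ker (innerₛₗ ℝ v)
  have hs : s ≠ ⊤ := by
    intro h
    have h1 : v ∈ s := by rw [h]; trivial
    have h2 : (inner ℝ v v : ℝ) = 0 := h1
    exact hv (inner_self_eq_zero.mp h2)
  have h3 := Measure.addHaar_submodule (volume : Measure (EuclideanSpace ℝ (Fin n))) s hs
  exact measure_eq_zero_iff_ae_notMem.mp h3

lemma SbK_tendsto (d : K → EuclideanSpace ℝ (Fin n)) {x : EuclideanSpace ℝ (Fin n)}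
    (hx : ∀ k, (inner ℝ (d k) x : ℝ) ≠ 0) :
    Tendsto (fun k : ℕ => ld x * SbK d (k : ℝ) x) atTop (𝓝 (WlC (CK d) x)) := by
  classical
  have hfac : ∀ p : K, Tendsto (fun k : ℕ => (1 + Real.exp ((k : ℝ) * inner ℝ (d p) x))⁻¹) atTop
        (𝓝 (if (inner ℝ (d p) x : ℝ) ≤ 0 then 1 else 0)) := by
    intro p
    rcases lt_or_gt_of_ne (hx p) with h | h
    · rw [if_pos h.le]
      have h1 : Tendsto (fun k : ℕ => (k : ℝ) * inner ℝ (d p) x) atTop atBot :=
        tendsto_natCast_atTop_atTop.atTop_mul_const_of_neg (by linarith)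
      have h2 := (Real.tendsto_exp_atBot.comp h1).const_add 1
      rw [add_zero] at h2
      have h3 := h2.inv₀ one_ne_zero
      rw [inv_one] at h3
      exact h3
    · rw [if_neg (not_le.mpr h)]
      have h1 : Tendsto (fun k : ℕ => (k : ℝ) * inner ℝ (d p) x) atTop atTop :=
        tendsto_natCast_atTop_atTop.atTop_mul_const (by linarith)
      have h2 : Tendsto (fun k : ℕ => 1 + Real.exp ((k : ℝ) * inner ℝ (d p) x)) atTop atTop :=
        tendsto_atTop_add_const_left _ _ (Real.tendsto_exp_atTop.comp h1)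
      exact tendsto_inv_atTop_zero.comp h2
  have hprod : Tendsto (fun k : ℕ => SbK d (k : ℝ) x) atTop
      (𝓝 (∏ p : K, if (inner ℝ (d p) x : ℝ) ≤ 0 then (1 : ℝ) else 0)) := by
    unfold SbK
    apply tendsto_finsetProd
    intro p _
    exact hfac p
  have hval : (∏ p : K, if (inner ℝ (d p) x : ℝ) ≤ 0 then (1 : ℝ) else 0) =
      if x ∈ CK d then 1 else 0 := by
    by_cases hxC : x ∈ CK d
    · rw [if_pos hxC]
      apply Finset.prod_eq_one
      intro p _
      rw [if_pos (hxC p)]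
    · rw [if_neg hxC]
      have : ∃ p, ¬ (inner ℝ (d p) x : ℝ) ≤ 0 := by
        by_contra hcon
        push Not at hcon
        exact hxC fun p => hcon p
      obtain ⟨p, hp⟩ := this
      apply Finset.prod_eq_zero (Finset.mem_univ p)
      rw [if_neg hp]
  rw [hval] at hprod
  have h := hprod.const_mul (ld x)
  unfold WlC
  rw [Set.indicator_apply]
  by_cases hxC : x ∈ CK d
  · rw [if_pos hxC] at h ⊢
    rwa [mul_one] at h
  · rw [if_neg hxC] at h ⊢
    rwa [mul_zero] at h

/-- convergence of weighted integrals -/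
lemma int_tendstoK {d : K → EuclideanSpace ℝ (Fin n)} (hd : ∀ k, d k ≠ 0) {s : ℝ} (hs : 0 < s)
    (y : EuclideanSpace ℝ (Fin n))
    (F : ℕ → EuclideanSpace ℝ (Fin n) → ℝ) (F0 : EuclideanSpace ℝ (Fin n) → ℝ) (C : ℝ)
    (hFm : ∀ k, AEStronglyMeasurable (F k) volume)
    (hF : ∀ k x, |F k x| ≤ C) (hlim : ∀ x, Tendsto (fun k => F k x) atTop (𝓝 (F0 x))) :
    Tendsto (fun k : ℕ => ∫ x, F k x * (Real.exp (-s * ‖x - y‖ ^ 2) * ld x * SbK d (k : ℝ) x))
      atTop (𝓝 (∫ x, F0 x * (Real.exp (-s * ‖x - y‖ ^ 2) * WlC (CK d) x))) := by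
  apply tendsto_integral_of_dominated_convergence
    (fun x => C * Real.exp (-s * ‖x - y‖ ^ 2))
  · intro k
    apply (hFm k).mul
    have h1 := ld_continuous (n := n)
    have h2 := SbK_continuous d (k : ℝ)
    have : Continuous (fun x : EuclideanSpace ℝ (Fin n) =>
      Real.exp (-s * ‖x - y‖ ^ 2) * ld x * SbK d (k : ℝ) x) := by fun_prop
    exact this.aestronglyMeasurable
  · apply Integrable.const_mul
    exact (gexp_integrable hs).comp_sub_right y
  · intro k
    apply ae_of_all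
    intro x
    have h1 := ld_pos x
    have h2 := ld_le x
    have h3 := SbK_pos d (k : ℝ) x
    have h4 := SbK_le d (k : ℝ) x
    have h5 := Real.exp_pos (-s * ‖x - y‖ ^ 2)
    rw [Real.norm_eq_abs, abs_mul, abs_of_pos (by positivity :
      0 < Real.exp (-s * ‖x - y‖ ^ 2) * ld x * SbK d (k : ℝ) x)]
    apply mul_le_mul (hF k x) _ (by positivity) (le_trans (abs_nonneg _) (hF k x))
    calc Real.exp (-s * ‖x - y‖ ^ 2) * ld x * SbK d (k : ℝ) x
        ≤ Real.exp (-s * ‖x - y‖ ^ 2) * 1 * 1 := by gcongr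
      _ = _ := by ring
  · have hall : ∀ᵐ x ∂(volume : Measure (EuclideanSpace ℝ (Fin n))),
        ∀ k, (inner ℝ (d k) x : ℝ) ≠ 0 := by
      rw [ae_all_iff]
      intro k
      exact inner_ne_ae (hd k)
    filter_upwards [hall] with x hx
    have h1 := (SbK_tendsto d hx).const_mul (Real.exp (-s * ‖x - y‖ ^ 2))
    have h2 := (hlim x).mul h1
    refine h2.congr fun k => ?_
    ring

/-- the `L^1` Poincare inequality of the posterior measures -/
theorem post_L1K {d : K → EuclideanSpace ℝ (Fin n)} (hd : ∀ k, d k ≠ 0) {kap : ℝ} (hk : 0 < kap)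
    (y : EuclideanSpace ℝ (Fin n)) {g : EuclideanSpace ℝ (Fin n) → ℝ} {l l2 : ℝ} (hl : 0 ≤ l)
    (hl2 : 0 ≤ l2) (hg : ContDiff ℝ 1 g) (hg1 : ∀ x, |g x| ≤ 1)
    (hgl : ∀ x y, |g x - g y| ≤ l * ‖x - y‖)
    (hg2 : ∀ x y, ‖fderiv ℝ g x - fderiv ℝ g y‖ ≤ l2 * ‖x - y‖) :
    ∫ x, (∫ x', |g x' - g x| * (Real.exp (-(kap / 2) * ‖x' - y‖ ^ 2) * WlC (CK d) x')) *
        (Real.exp (-(kap / 2) * ‖x - y‖ ^ 2) * WlC (CK d) x) ≤
      π / 2 * Real.sqrt (1 / kap) *
        ((∫ x, Real.exp (-(kap / 2) * ‖x - y‖ ^ 2) * WlC (CK d) x) *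
        ∫ x, ‖fderiv ℝ g x‖ * (Real.exp (-(kap / 2) * ‖x - y‖ ^ 2) * WlC (CK d) x)) := by
  have hs : 0 < kap / 2 := by positivity
  have hbd : ∀ x, ‖fderiv ℝ g x‖ ≤ l := by
    intro x
    have : LipschitzWith (Real.toNNReal l) g := by
      apply LipschitzWith.of_dist_le_mul
      intro a b
      rw [Real.dist_eq, dist_eq_norm, Real.coe_toNNReal l hl]
      exact hgl a b
    have h4 := norm_fderiv_le_of_lipschitz ℝ (x₀ := x) this
    rwa [Real.coe_toNNReal l hl] at h4
  have hgc := hg.continuous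
  have hfc : Continuous (fun x => ‖fderiv ℝ g x‖) := (hg.continuous_fderiv (by norm_num)).norm
  have habs : ∀ x x', |(|g x' - g x|)| ≤ 2 := by
    intro x x'
    rw [abs_abs]
    have h1 := abs_le.mp (hg1 x)
    have h2 := abs_le.mp (hg1 x')
    rw [abs_le]
    constructor <;> linarith
  -- the inequality for each k
  have hkey : ∀ k : ℕ, ∫ x, (∫ x', |g x' - g x| * (Real.exp (-(kap / 2) * ‖x' - y‖ ^ 2) * ld x' *
        SbK d (k : ℝ) x')) * (Real.exp (-(kap / 2) * ‖x - y‖ ^ 2) * ld x * SbK d (k : ℝ) x) ≤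
      π / 2 * Real.sqrt (1 / kap) *
      ((∫ x, 1 * (Real.exp (-(kap / 2) * ‖x - y‖ ^ 2) * ld x * SbK d (k : ℝ) x)) *
        ∫ x, ‖fderiv ℝ g x‖ * (Real.exp (-(kap / 2) * ‖x - y‖ ^ 2) * ld x *
          SbK d (k : ℝ) x)) := by
    intro k
    have hP := soft_pot hk y (bb n) (ccK_nonneg (n := n) (K := K)) (uuK d (k : ℝ))
    set V := Vs kap y (bb n) (ccK n K) (uuK d (k : ℝ)) with hV
    have h1 := pot_L1 hP hl hl2 hg hgl hg2
    rw [tgtN_integral hP, tgtN_integral hP] at h1
    simp only [tgtN_integral hP] at h1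
    have hfin := tgt_finite hP
    have hZ : 0 < (tgt V).real Set.univ := by
      rw [measureReal_def]
      exact ENNReal.toReal_pos (tgt_univ_pos hP) (measure_ne_top _ _)
    set Z := (tgt V).real Set.univ with hZdef
    rw [integral_const_mul] at h1
    have h2 := mul_le_mul_of_nonneg_left h1 (by positivity : 0 ≤ Z ^ 2)
    have e1 : Z ^ 2 * (Z⁻¹ * (Z⁻¹ * ∫ x, ∫ y, |g y - g x| ∂(tgt V) ∂(tgt V))) =
      ∫ x, ∫ y, |g y - g x| ∂(tgt V) ∂(tgt V) := by
      field_simp
    have e2 : Z ^ 2 * (π / 2 * Real.sqrt (1 / kap) * (Z⁻¹ * ∫ x, ‖fderiv ℝ g x‖ ∂(tgt V))) =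
      π / 2 * Real.sqrt (1 / kap) * (Z * ∫ x, ‖fderiv ℝ g x‖ ∂(tgt V)) := by
      field_simp
    rw [e1, e2] at h2
    have e3 : Z = ∫ x, 1 ∂(tgt V) := by simp [hZdef]
    rw [e3, integral_tgt hP.cV, integral_tgt hP.cV, integral_tgt hP.cV] at h2
    simp only [integral_tgt hP.cV] at h2
    simp only [hV, exp_neg_VsK] at h2
    exact h2
  -- limits
  have L1 := int_tendstoK hd hs y (fun _ _ => 1) (fun _ => 1) 1
    (fun k => aestronglyMeasurable_const) (by simp) (fun x => tendsto_const_nhds)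
  have L2 := int_tendstoK hd hs y (fun _ x => ‖fderiv ℝ g x‖) (fun x => ‖fderiv ℝ g x‖) l
    (fun k => hfc.aestronglyMeasurable) (fun k x => by rw [abs_norm]; exact hbd x)
    (fun x => tendsto_const_nhds)
  have Lin : ∀ x, Tendsto (fun k : ℕ => ∫ x', |g x' - g x| *
      (Real.exp (-(kap / 2) * ‖x' - y‖ ^ 2) * ld x' * SbK d (k : ℝ) x')) atTop
      (𝓝 (∫ x', |g x' - g x| * (Real.exp (-(kap / 2) * ‖x' - y‖ ^ 2) * WlC (CK d) x'))) := by
    intro x
    exact int_tendstoK hd hs y (fun _ x' => |g x' - g x|) (fun x' => |g x' - g x|) 2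
      (fun k => (hgc.sub continuous_const).abs.aestronglyMeasurable) (fun k x' => habs x x')
      (fun x => tendsto_const_nhds)
  have hI0 : Integrable (fun x' : EuclideanSpace ℝ (Fin n) =>
      Real.exp (-(kap / 2) * ‖x' - y‖ ^ 2)) := (gexp_integrable hs).comp_sub_right y
  have L3 := int_tendstoK hd hs y
    (fun k x => ∫ x', |g x' - g x| *
      (Real.exp (-(kap / 2) * ‖x' - y‖ ^ 2) * ld x' * SbK d (k : ℝ) x'))
    (fun x => ∫ x', |g x' - g x| * (Real.exp (-(kap / 2) * ‖x' - y‖ ^ 2) * WlC (CK d) x'))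
    (∫ x' : EuclideanSpace ℝ (Fin n), 2 * Real.exp (-(kap / 2) * ‖x' - y‖ ^ 2))
    (fun k => by
      have h1 := ld_continuous (n := n)
      have h2 := SbK_continuous d (k : ℝ)
      have hc : Continuous (fun p : EuclideanSpace ℝ (Fin n) × EuclideanSpace ℝ (Fin n) =>
        |g p.2 - g p.1| * (Real.exp (-(kap / 2) * ‖p.2 - y‖ ^ 2) * ld p.2 *
          SbK d (k : ℝ) p.2)) := by
        fun_prop
      exact (hc.stronglyMeasurable.integral_prod_right').aestronglyMeasurable)
    (fun k x => by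
      rw [← Real.norm_eq_abs]
      refine norm_integral_le_of_norm_le (hI0.const_mul 2) (ae_of_all _ fun x' => ?_)
      have h1 := ld_pos x'
      have h2 := ld_le x'
      have h3 := SbK_pos d (k : ℝ) x'
      have h4 := SbK_le d (k : ℝ) x'
      have h5 := Real.exp_pos (-(kap / 2) * ‖x' - y‖ ^ 2)
      rw [Real.norm_eq_abs, abs_mul, abs_of_pos (by positivity :
        0 < Real.exp (-(kap / 2) * ‖x' - y‖ ^ 2) * ld x' * SbK d (k : ℝ) x')]
      apply mul_le_mul (habs x x') _ (by positivity) (by norm_num)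
      calc Real.exp (-(kap / 2) * ‖x' - y‖ ^ 2) * ld x' * SbK d (k : ℝ) x'
          ≤ Real.exp (-(kap / 2) * ‖x' - y‖ ^ 2) * 1 * 1 := by gcongr
        _ = _ := by ring)
    Lin
  have hlim := le_of_tendsto_of_tendsto' L3
    ((L1.mul L2).const_mul (π / 2 * Real.sqrt (1 / kap))) hkey
  simpa only [one_mul] using hlim

/-- the measure with the logistic density on a set -/
noncomputable def mmC (C : Set (EuclideanSpace ℝ (Fin n))) : Measure (EuclideanSpace ℝ (Fin n)) :=
  volume.withDensity (fun x => ENNReal.ofReal (WlC C x))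

lemma mmC_int_eq {C : Set (EuclideanSpace ℝ (Fin n))} (hC : MeasurableSet C)
    (F : EuclideanSpace ℝ (Fin n) → ℝ) :
    ∫ x, F x ∂(mmC C) = ∫ x, F x * WlC C x := by
  unfold mmC
  have h1 : (volume.withDensity (fun x => ENNReal.ofReal (WlC C x))) = volume.withDensity
      (fun w => ((Real.toNNReal (WlC C w) : NNReal) : ℝ≥0∞)) := rfl
  rw [h1, integral_withDensity_eq_integral_smul ((WlC_measurable hC).real_toNNReal)]
  apply integral_congr_ae
  apply ae_of_all
  intro x
  simp only [NNReal.smul_def, Real.coe_toNNReal _ (WlC_nonneg C x), smul_eq_mul]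
  ring

end Pool.Agent.Lib.MP_6d896a_gt
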