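import Mathlib
import Pool.Agent.Lib.MP_6d896a_gt.ConeB
import Pool.Agent.Lib.MP_6d896a_gt.PosteriorK
import Pool.Agent.Lib.MP_6d896a_gt.OneD3

/-!
The functional and isoperimetric inequalities for independent logistic variables conditioned on
signed order constraints.
-/

namespace Pool.Agent.Lib.MP_6d896a_gt

open MeasureTheory ProbabilityTheory Real Filter Topology
open scoped ENNReal NNReal

variable {n : ℕ}

/-- signed order cone in the Euclidean space -/
def CXE (r : Fin n × Bool → Fin n × Bool → Prop) : Set (EuclideanSpace ℝ (Fin n)) :=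
  {x | (fun i => x i) ∈ CX r}

/-- signed unit vectors -/
noncomputable def se (u : Fin n × Bool) : EuclideanSpace ℝ (Fin n) :=
  if u.2 then EuclideanSpace.single u.1 1 else - EuclideanSpace.single u.1 1

lemma inner_se (u : Fin n × Bool) (x : EuclideanSpace ℝ (Fin n)) :
    (inner ℝ (se u) x : ℝ) = sx (fun i => x i) u := by
  unfold se sx
  split_ifs
  · rw [EuclideanSpace.inner_single_left]; simp
  · rw [inner_neg_left, EuclideanSpace.inner_single_left]; simp

lemma se_ne {u v : Fin n × Bool} (h : u ≠ v) : se u - se v ≠ 0 := by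
  intro h0
  have h1 : se u = se v := sub_eq_zero.mp h0
  obtain ⟨i, a⟩ := u
  obtain ⟨j, b⟩ := v
  have h2 := congrArg (fun x : EuclideanSpace ℝ (Fin n) => x i) h1
  by_cases hij : i = j
  · subst hij
    have hab : a ≠ b := fun h' => h (by rw [h'])
    cases a <;> cases b
    · exact hab rfl
    · simp [se] at h2; norm_num at h2
    · simp [se] at h2; norm_num at h2
    · exact hab rfl
  · cases a <;> cases b <;> simp [se, hij] at h2

/-- index set of the constraints -/
def KK (r : Fin n × Bool → Fin n × Bool → Prop) : Type :=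
  {p : (Fin n × Bool) × (Fin n × Bool) // r p.1 p.2 ∧ p.1 ≠ p.2}

open Classical in
noncomputable instance (r : Fin n × Bool → Fin n × Bool → Prop) : Fintype (KK r) := by
  unfold KK; infer_instance

/-- directions of the constraints -/
noncomputable def dK (r : Fin n × Bool → Fin n × Bool → Prop) (p : KK r) :
    EuclideanSpace ℝ (Fin n) := se p.1.1 - se p.1.2

lemma dK_ne (r : Fin n × Bool → Fin n × Bool → Prop) (p : KK r) : dK r p ≠ 0 := se_ne p.2.2

lemma CK_dK (r : Fin n × Bool → Fin n × Bool → Prop) : CK (dK r) = CXE r := by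
  ext x
  constructor
  · intro h u v huv
    by_cases huv' : u = v
    · rw [huv']
    · have := h ⟨(u, v), huv, huv'⟩
      unfold dK at this
      rw [inner_sub_left, inner_se, inner_se] at this
      linarith
  · intro h p
    unfold dK
    rw [inner_sub_left, inner_se, inner_se]
    have := h p.1.1 p.1.2 p.2.1
    linarith

lemma CXE_measurable (r : Fin n × Bool → Fin n × Bool → Prop) : MeasurableSet (CXE r) := by
  rw [← CK_dK]; exact CK_measurable _

lemma lg_one_sub {u : ℝ} (h0 : 0 < u) (h1 : u < 1) : lg (1 - u) = - lg u := by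
  unfold lg
  rw [← Real.log_inv, inv_div]
  congr 1
  congr 1
  ring

lemma sx_Lg {U : Fin n → ℝ} (hU : ∀ i, 0 < U i ∧ U i < 1) (u : Fin n × Bool) :
    sx (Lg U) u = lg (su U u) := by
  unfold sx su Lg
  split_ifs
  · rfl
  · rw [lg_one_sub (hU _).1 (hU _).2]

lemma su_mem {U : Fin n → ℝ} (hU : ∀ i, 0 < U i ∧ U i < 1) (u : Fin n × Bool) :
    0 < su U u ∧ su U u < 1 := by
  have h := hU u.1
  unfold su
  split_ifs
  · exact h
  · constructor <;> linarith

lemma CX_Lg (r : Fin n × Bool → Fin n × Bool → Prop) : CU r =ᵐ[cube n] Lg ⁻¹' (CX r) := by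
  filter_upwards [goodB_ae n] with U hU
  apply propext
  show (∀ u v, r u v → su U u ≤ su U v) ↔ (∀ u v, r u v → sx (Lg U) u ≤ sx (Lg U) v)
  constructor
  · intro h u v huv
    rw [sx_Lg hU.1, sx_Lg hU.1]
    exact (lg_le_iff (su_mem hU.1 u) (su_mem hU.1 v)).mpr (h u v huv)
  · intro h u v huv
    have := h u v huv
    rw [sx_Lg hU.1, sx_Lg hU.1] at this
    exact (lg_le_iff (su_mem hU.1 u) (su_mem hU.1 v)).mp this

lemma mmC_eq' (r : Fin n × Bool → Fin n × Bool → Prop) :
    ((Measure.pi (fun _ : Fin n => lgm)).restrict (CX r)).map (WithLp.toLp 2) = mmC (CXE r) := by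
  have hto : Measurable (WithLp.toLp 2 : (Fin n → ℝ) → EuclideanSpace ℝ (Fin n)) :=
    (PiLp.continuous_toLp 2 (fun _ : Fin n => ℝ)).measurable
  apply Measure.ext_of_lintegral
  intro F hF
  rw [lintegral_map hF hto, pi_lgm]
  have hm1 : Measurable (fun x : Fin n → ℝ => ENNReal.ofReal (∏ i, ld1 (x i))) := by
    apply Measurable.ennreal_ofReal
    exact Finset.measurable_prod _ fun i _ => ld1_continuous.measurable.comp (measurable_pi_apply i)
  have hFm : Measurable (fun x : Fin n → ℝ => F (WithLp.toLp 2 x)) := hF.comp hto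
  rw [restrict_withDensity (CX_measurable r), lintegral_withDensity_eq_lintegral_mul _ hm1 hFm]
  rw [← lintegral_indicator (CX_measurable r)]
  unfold mmC
  rw [lintegral_withDensity_eq_lintegral_mul _ (WlC_measurable (CXE_measurable r)).ennreal_ofReal hF]
  rw [← (PiLp.volume_preserving_toLp (Fin n)).lintegral_comp
    ((WlC_measurable (CXE_measurable r)).ennreal_ofReal.mul hF)]
  apply lintegral_congr
  intro x
  by_cases hx : x ∈ CX r
  · rw [Set.indicator_of_mem hx]
    have hx' : WithLp.toLp 2 x ∈ CXE r := hx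
    simp only [Pi.mul_apply, WlC, Set.indicator_of_mem hx', ld]
  · rw [Set.indicator_of_notMem hx]
    have hx' : WithLp.toLp 2 x ∉ CXE r := hx
    simp only [Pi.mul_apply, WlC, Set.indicator_of_notMem hx', ENNReal.ofReal_zero, zero_mul]

lemma mmC_eq (r : Fin n × Bool → Fin n × Bool → Prop) :
    ((cube n).restrict (CU r)).map (fun U => WithLp.toLp 2 (Lg U)) = mmC (CXE r) := by
  have hto : Measurable (WithLp.toLp 2 : (Fin n → ℝ) → EuclideanSpace ℝ (Fin n)) :=
    (PiLp.continuous_toLp 2 (fun _ : Fin n => ℝ)).measurable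
  have h1 : ((cube n).restrict (CU r)).map Lg =
      (Measure.pi (fun _ : Fin n => lgm)).restrict (CX r) := by
    rw [Measure.restrict_congr_set (CX_Lg r), ← map_Lg,
      Measure.restrict_map Lg_measurable (CX_measurable r)]
  rw [← mmC_eq', ← h1, Measure.map_map hto Lg_measurable]
  rfl

instance mmC_finite (r : Fin n × Bool → Fin n × Bool → Prop) : IsFiniteMeasure (mmC (CXE r)) := by
  rw [← mmC_eq]
  infer_instance

lemma mmC_univ (r : Fin n × Bool → Fin n × Bool → Prop) :
    (mmC (CXE r)).real Set.univ = (cube n).real (CU r) := by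
  rw [measureReal_def, measureReal_def, ← mmC_eq, Measure.map_apply toLpLg_measurable
    MeasurableSet.univ, Set.preimage_univ, Measure.restrict_apply_univ]

lemma mmC_integral (r : Fin n × Bool → Fin n × Bool → Prop) {F : EuclideanSpace ℝ (Fin n) → ℝ}
    (hF : Measurable F) :
    ∫ x, F x ∂(mmC (CXE r)) = ∫ U in CU r, F (WithLp.toLp 2 (Lg U)) ∂(cube n) := by
  rw [← mmC_eq, integral_map toLpLg_measurable.aemeasurable hF.aestronglyMeasurable]

/-- Poincare inequality on the Euclidean space -/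
theorem mmC_poincare (r : Fin n × Bool → Fin n × Bool → Prop) (u : EuclideanSpace ℝ (Fin n) → ℝ)
    (hu : ContDiff ℝ 1 u) (hu1 : ∀ x, |u x| ≤ 1)
    (hul : ∃ B, 0 ≤ B ∧ ∀ x x', |u x - u x'| ≤ B * ‖x - x'‖) :
    (mmC (CXE r)).real Set.univ * ∫ x, u x ^ 2 ∂(mmC (CXE r)) -
      (∫ x, u x ∂(mmC (CXE r))) ^ 2 ≤
      4 * ((mmC (CXE r)).real Set.univ * ∫ x, ‖fderiv ℝ u x‖ ^ 2 ∂(mmC (CXE r))) := by
  obtain ⟨B, hB0, hB⟩ := hul
  let h : (Fin n → ℝ) → ℝ := fun x => u (WithLp.toLp 2 x)
  have hto : ContDiff ℝ 1 (WithLp.toLp 2 : (Fin n → ℝ) → EuclideanSpace ℝ (Fin n)) :=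
    PiLp.contDiff_toLp
  have hh : ContDiff ℝ 1 h := hu.comp hto
  have hc := poincare_coneB r hh (K := 1) (fun x => hu1 _) hB0 (fun x y => by
    refine (hB _ _).trans (mul_le_mul_of_nonneg_left ?_ hB0)
    exact norm_le_sum (WithLp.toLp 2 x - WithLp.toLp 2 y))
  have huc := hu.continuous
  have hfc : Continuous (fun x => ‖fderiv ℝ u x‖ ^ 2) :=
    (hu.continuous_fderiv (by norm_num)).norm.pow 2
  rw [mmC_univ, mmC_integral r (F := fun x => u x ^ 2) (huc.pow 2).measurable,
    mmC_integral r huc.measurable,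
    mmC_integral r (F := fun x => ‖fderiv ℝ u x‖ ^ 2) hfc.measurable]
  refine hc.trans (le_of_eq ?_)
  congr 2
  congr 1
  funext U
  have e1 : ∀ v : Fin n → ℝ, fderiv ℝ h (Lg U) v =
      fderiv ℝ u (WithLp.toLp 2 (Lg U)) (WithLp.toLp 2 v) := by
    intro v
    let eL : (Fin n → ℝ) ≃L[ℝ] EuclideanSpace ℝ (Fin n) :=
      (PiLp.continuousLinearEquiv 2 ℝ (fun _ : Fin n => ℝ)).symm
    have h2 : HasFDerivAt (fun x : Fin n → ℝ => (eL x)) (eL : (Fin n → ℝ) →L[ℝ] _) (Lg U) :=
      eL.hasFDerivAt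
    have h3 : HasFDerivAt u (fderiv ℝ u (WithLp.toLp 2 (Lg U))) (eL (Lg U)) :=
      (hu.differentiable (by norm_num) _).hasFDerivAt
    have h4 := h3.comp (Lg U) h2
    have h5 : HasFDerivAt h ((fderiv ℝ u (WithLp.toLp 2 (Lg U))).comp
      (eL : (Fin n → ℝ) →L[ℝ] _)) (Lg U) := h4
    rw [h5.fderiv]
    rfl
  have e2 := (EuclideanSpace.basisFun (Fin n) ℝ).norm_dual (fderiv ℝ u (WithLp.toLp 2 (Lg U)))
  rw [e2]
  apply Finset.sum_congr rfl
  intro i _
  rw [e1]
  simp only [EuclideanSpace.basisFun_apply]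
  rfl

theorem smooth_L1B (r : Fin n × Bool → Fin n × Bool → Prop) (hne : mmC (CXE r) ≠ 0)
    {g : EuclideanSpace ℝ (Fin n) → ℝ} {l l2 : ℝ} (hl : 0 ≤ l)
    (hl2 : 0 ≤ l2) (hg : ContDiff ℝ 1 g) (hg0 : ∀ x, 0 ≤ g x) (hg1 : ∀ x, g x ≤ 1)
    (hgl : ∀ x y, |g x - g y| ≤ l * ‖x - y‖)
    (hg2 : ∀ x y, ‖fderiv ℝ g x - fderiv ℝ g y‖ ≤ l2 * ‖x - y‖) :
    (mmC (CXE r)).real Set.univ * ∫ x, g x ^ 2 ∂(mmC (CXE r)) - (∫ x, g x ∂(mmC (CXE r))) ^ 2 ≤
      π * ((mmC (CXE r)).real Set.univ * ∫ x, ‖fderiv ℝ g x‖ ∂(mmC (CXE r))) := by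
  have hbd : ∀ x, ‖fderiv ℝ g x‖ ≤ l := by
    intro x
    have : LipschitzWith (Real.toNNReal l) g := by
      apply LipschitzWith.of_dist_le_mul
      intro a b
      rw [Real.dist_eq, dist_eq_norm, Real.coe_toNNReal l hl]
      exact hgl a b
    have h4 := norm_fderiv_le_of_lipschitz ℝ (x₀ := x) this
    rwa [Real.coe_toNNReal l hl] at h4
  have hgabs : ∀ x, |g x| ≤ 1 := fun x => by rw [abs_of_nonneg (hg0 x)]; exact hg1 x
  have hfc : Continuous (fun x => ‖fderiv ℝ g x‖) := (hg.continuous_fderiv (by norm_num)).norm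
  have hs : (0 : ℝ) < 1 / 8 := by norm_num
  have hCm := CXE_measurable r
  have hmain := channel (mmC (CXE r)) hne (s := 1 / 8) (CP := 4) (cL := π) (th := 1) hs one_pos
    (by norm_num) (mmC_poincare r) hg.continuous.measurable hg0 hg1
    (D := fun x => ‖fderiv ℝ g x‖) hfc.measurable (C := l)
    (fun x => by rw [abs_of_nonneg (norm_nonneg _)]; exact hbd x) (by
      intro y
      have hp := post_L1K (dK_ne r) (kap := 1 / 4) (by norm_num) y hl hl2 hg hgabs hgl hg2
      rw [CK_dK] at hp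
      set Z := (gZ (EuclideanSpace ℝ (Fin n)) (1 / 8))⁻¹ with hZ
      have hZ0 : 0 < Z := inv_pos.mpr (gZ_pos hs)
      have hsq : Real.sqrt (1 / (1 / 4)) = 2 := by
        rw [show (1 : ℝ) / (1 / 4) = 2 ^ 2 by norm_num]
        exact Real.sqrt_sq (by norm_num)
      rw [hsq] at hp
      have e0 : ∀ x, gk (1 / 8) (x - y) * WlC (CXE r) x =
          Z * (Real.exp (-((1 / 4 : ℝ) / 2) * ‖x - y‖ ^ 2) * WlC (CXE r) x) := by
        intro x
        unfold gk
        rw [hZ, show ((1 : ℝ) / 4 / 2) = 1 / 8 by norm_num]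
        ring
      have e1 : ∀ x, ∫ x', |g x' - g x| * gk (1 / 8) (x' - y) ∂(mmC (CXE r)) =
          Z * ∫ x', |g x' - g x| *
            (Real.exp (-((1 / 4 : ℝ) / 2) * ‖x' - y‖ ^ 2) * WlC (CXE r) x') := by
        intro x
        rw [mmC_int_eq hCm, ← integral_const_mul]
        apply integral_congr_ae
        apply ae_of_all
        intro x'
        beta_reduce
        rw [mul_assoc, e0]
        ring
      have e2 : ∫ x, (∫ x', |g x' - g x| * gk (1 / 8) (x' - y) ∂(mmC (CXE r))) *
          gk (1 / 8) (x - y) ∂(mmC (CXE r)) =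
          Z ^ 2 * ∫ x, (∫ x', |g x' - g x| *
            (Real.exp (-((1 / 4 : ℝ) / 2) * ‖x' - y‖ ^ 2) * WlC (CXE r) x')) *
            (Real.exp (-((1 / 4 : ℝ) / 2) * ‖x - y‖ ^ 2) * WlC (CXE r) x) := by
        rw [mmC_int_eq hCm, ← integral_const_mul]
        apply integral_congr_ae
        apply ae_of_all
        intro x
        beta_reduce
        rw [mul_assoc, e0, e1]
        ring
      have e3 : ∫ x, gk (1 / 8) (x - y) ∂(mmC (CXE r)) =
          Z * ∫ x, Real.exp (-((1 / 4 : ℝ) / 2) * ‖x - y‖ ^ 2) * WlC (CXE r) x := by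
        rw [mmC_int_eq hCm, ← integral_const_mul]
        apply integral_congr_ae
        apply ae_of_all
        intro x
        beta_reduce
        rw [e0]
      have e4 : ∫ x, ‖fderiv ℝ g x‖ * gk (1 / 8) (x - y) ∂(mmC (CXE r)) =
          Z * ∫ x, ‖fderiv ℝ g x‖ *
            (Real.exp (-((1 / 4 : ℝ) / 2) * ‖x - y‖ ^ 2) * WlC (CXE r) x) := by
        rw [mmC_int_eq hCm, ← integral_const_mul]
        apply integral_congr_ae
        apply ae_of_all
        intro x
        beta_reduce
        rw [mul_assoc, e0]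
        ring
      rw [e2, e3, e4]
      have h5 := mul_le_mul_of_nonneg_left hp (sq_nonneg Z)
      refine h5.trans (le_of_eq ?_)
      ring)
  refine hmain.trans (le_of_eq ?_)
  ring

theorem iso_mmC (r : Fin n × Bool → Fin n × Bool → Prop) (hne : mmC (CXE r) ≠ 0) :
    Iso (mmC (CXE r)) π := by
  apply iso_of_smooth _ pi_pos.le
  intro g l l2 hl hl2 hg hg0 hg1 hgl hg2
  exact smooth_L1B r hne hl hl2 hg hg0 hg1 hgl hg2

/-! ### transport -/

lemma sx_T {T : ℝ → ℝ} (hodd : ∀ t, T (-t) = - T t) (x : Fin n → ℝ) (u : Fin n × Bool) :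
    sx (fun i => T (x i)) u = T (sx x u) := by
  unfold sx
  split_ifs
  · rfl
  · rw [hodd]

lemma sx_ne_ae {ρ : Measure ℝ} [IsProbabilityMeasure ρ] [NullSingletonClass ρ] :
    ∀ᵐ x ∂(Measure.pi (fun _ : Fin n => ρ)), ∀ u v : Fin n × Bool, u ≠ v → sx x u ≠ sx x v := by
  have h1 : ∀ᵐ x ∂(Measure.pi (fun _ : Fin n => ρ)), ∀ i j : Fin n, i ≠ j → - x i ≠ x j := by
    rw [ae_all_iff]
    intro i
    rw [ae_all_iff]
    intro j
    by_cases hij : i = j
    · exact ae_of_all _ fun U h => absurd hij h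
    · filter_upwards [pi_ne_fun ρ (φ := fun t => - t) (by fun_prop) hij] with x hx _
      exact hx
  have h3 : ∀ᵐ x ∂(Measure.pi (fun _ : Fin n => ρ)), ∀ i j : Fin n, i ≠ j → x i ≠ x j := by
    rw [ae_all_iff]
    intro i
    rw [ae_all_iff]
    intro j
    by_cases hij : i = j
    · exact ae_of_all _ fun U h => absurd hij h
    · filter_upwards [pi_ne ρ hij] with x hx _
      exact hx
  have h2 : ∀ᵐ x ∂(Measure.pi (fun _ : Fin n => ρ)), ∀ i : Fin n, x i ≠ 0 := by
    rw [ae_all_iff]
    intro i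
    have h3 : ∀ᵐ u ∂ρ, u ≠ 0 := by
      rw [ae_iff]
      simp only [ne_eq, not_not]
      exact measure_singleton _
    exact (Measure.quasiMeasurePreserving_eval (fun _ : Fin n => ρ) i).ae h3
  filter_upwards [h3, h1, h2] with x ha hb hc
  rintro ⟨i, a⟩ ⟨j, b⟩ huv
  by_cases hij : i = j
  · subst hij
    have hab : a ≠ b := by
      intro h; exact huv (by rw [h])
    have hci := hc i
    cases a <;> cases b
    · exact absurd rfl hab
    · simp only [sx, Bool.false_eq_true, if_false, if_true]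
      intro h; apply hci; linarith
    · simp only [sx, Bool.false_eq_true, if_false, if_true]
      intro h; apply hci; linarith
    · exact absurd rfl hab
  · have h1 := ha i j hij
    have h2 := hb i j hij
    cases a <;> cases b
    · simp only [sx, Bool.false_eq_true, if_false]
      intro h; apply h1; linarith
    · simp only [sx, Bool.false_eq_true, if_false, if_true]
      exact h2
    · simp only [sx, Bool.false_eq_true, if_false, if_true]
      intro h; apply h2; linarith
    · simp only [sx, if_true]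
      exact h1

lemma CX_T {ρ : Measure ℝ} [IsProbabilityMeasure ρ] [NullSingletonClass ρ] {T : ℝ → ℝ}
    (hT : Monotone T) (hodd : ∀ t, T (-t) = - T t) (hmap : lgm.map T = ρ)
    (r : Fin n × Bool → Fin n × Bool → Prop) :
    CX r =ᵐ[Measure.pi (fun _ : Fin n => lgm)] (fun x i => T (x i)) ⁻¹' (CX r) := by
  have := lgm_prob
  have hTm : Measurable T := hT.measurable
  have hmapn : (Measure.pi (fun _ : Fin n => lgm)).map (fun x i => T (x i)) =
      Measure.pi (fun _ : Fin n => ρ) := by
    have hsf : ∀ _ : Fin n, SigmaFinite (lgm.map T) := fun _ => by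
      rw [hmap]; infer_instance
    rw [Measure.pi_map_pi (fun _ => hTm.aemeasurable)]
    simp only [hmap]
  have hTTm : Measurable (fun (x : Fin n → ℝ) i => T (x i)) :=
    measurable_pi_lambda _ fun i => hTm.comp (measurable_pi_apply i)
  have h1 := sx_ne_ae (n := n) (ρ := ρ)
  rw [← hmapn] at h1
  have h2 := ae_of_ae_map hTTm.aemeasurable h1
  filter_upwards [h2] with x hx
  apply propext
  show (∀ u v, r u v → sx x u ≤ sx x v) ↔ (∀ u v, r u v →
    sx (fun i => T (x i)) u ≤ sx (fun i => T (x i)) v)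
  constructor
  · intro h u v huv
    rw [sx_T hodd, sx_T hodd]
    exact hT (h u v huv)
  · intro h u v huv
    by_contra hcon
    push Not at hcon
    have hne : u ≠ v := by rintro rfl; exact lt_irrefl _ hcon
    have h3 := hx u v hne
    have h4 := h u v huv
    apply h3
    apply le_antisymm h4
    rw [sx_T hodd, sx_T hodd]
    exact hT hcon.le

lemma mmC_map {ρ : Measure ℝ} [IsProbabilityMeasure ρ] [NullSingletonClass ρ] {T : ℝ → ℝ}
    (hT : Monotone T) (hodd : ∀ t, T (-t) = - T t) (hmap : lgm.map T = ρ)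
    (r : Fin n × Bool → Fin n × Bool → Prop) :
    (mmC (CXE r)).map (TT T) =
      ((Measure.pi (fun _ : Fin n => ρ)).restrict (CX r)).map (WithLp.toLp 2) := by
  have := lgm_prob
  have hTm : Measurable T := hT.measurable
  have hto : Measurable (WithLp.toLp 2 : (Fin n → ℝ) → EuclideanSpace ℝ (Fin n)) :=
    (PiLp.continuous_toLp 2 (fun _ : Fin n => ℝ)).measurable
  have hmapn : (Measure.pi (fun _ : Fin n => lgm)).map (fun x i => T (x i)) =
      Measure.pi (fun _ : Fin n => ρ) := by
    have hsf : ∀ _ : Fin n, SigmaFinite (lgm.map T) := fun _ => by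
      rw [hmap]; infer_instance
    rw [Measure.pi_map_pi (fun _ => hTm.aemeasurable)]
    simp only [hmap]
  have hTTm : Measurable (fun (x : Fin n → ℝ) i => T (x i)) :=
    measurable_pi_lambda _ fun i => hTm.comp (measurable_pi_apply i)
  have hTT : Measurable (TT T : EuclideanSpace ℝ (Fin n) → _) := by
    unfold TT
    apply hto.comp
    apply measurable_pi_lambda
    intro i
    exact hTm.comp (EuclideanSpace.proj (𝕜 := ℝ) i).continuous.measurable
  rw [← mmC_eq', Measure.map_map hTT hto, ← hmapn, Measure.restrict_map hTTm (CX_measurable r),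
    ← Measure.restrict_congr_set (CX_T hT hodd hmap r), Measure.map_map hto hTTm]
  rfl

end Pool.Agent.Lib.MP_6d896a_gt
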