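import Mathlib
import Pool.Agent.Lib.MP_6d896a_gt.ConeB
import Pool.Agent.Lib.MP_6d896a_gt.IsoB

/-!
Conditioning independent symmetric variables on signed order constraints does not change
events invariant under signed permutations.
-/

namespace Pool.Agent.Lib.MP_6d896a_gt

open MeasureTheory ProbabilityTheory
open scoped ENNReal

variable {n : ℕ}

/-- sign of a boolean -/
noncomputable def sg (b : Bool) : ℝ := if b then 1 else -1

/-- action of a signed permutation -/
noncomputable def ac (p : Equiv.Perm (Fin n) × (Fin n → Bool)) (x : Fin n → ℝ) : Fin n → ℝ :=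
  fun i => sg (p.2 i) * x (p.1 i)

lemma sg_mul (a b : Bool) : sg a * sg b = sg (a == b) := by
  cases a <;> cases b <;> simp [sg]

lemma sg_abs (b : Bool) : |sg b| = 1 := by cases b <;> simp [sg]

lemma ac_measurable (p : Equiv.Perm (Fin n) × (Fin n → Bool)) : Measurable (ac p) :=
  measurable_pi_lambda _ fun i => (measurable_pi_apply (p.1 i)).const_mul _

lemma perm_map' (ρ : Measure ℝ) [IsProbabilityMeasure ρ] (σ : Equiv.Perm (Fin n)) :
    (Measure.pi (fun _ : Fin n => ρ)).map (fun (x : Fin n → ℝ) i => x (σ i)) =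
      Measure.pi (fun _ : Fin n => ρ) := by
  have hpm : Measurable (fun (x : Fin n → ℝ) i => x (σ i)) :=
    measurable_pi_lambda _ fun i => measurable_pi_apply (σ i)
  symm
  apply Measure.pi_eq
  intro s hs
  rw [Measure.map_apply hpm (MeasurableSet.univ_pi hs)]
  have h1 : (fun (x : Fin n → ℝ) i => x (σ i)) ⁻¹' (Set.univ.pi s) =
      Set.univ.pi (fun j => s (σ⁻¹ j)) := by
    ext x
    simp only [Set.mem_preimage, Set.mem_pi, Set.mem_univ, true_implies]
    constructor
    · intro h j
      have := h (σ⁻¹ j)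
      simpa using this
    · intro h i
      have := h (σ i)
      rwa [show σ⁻¹ (σ i) = i from σ.symm_apply_apply i] at this
  rw [h1, Measure.pi_pi]
  exact Equiv.prod_comp σ⁻¹ (fun i => ρ (s i))

variable (ρ : Measure ℝ) [IsProbabilityMeasure ρ]

lemma ac_map (he : ρ.map (fun x => -x) = ρ) (p : Equiv.Perm (Fin n) × (Fin n → Bool)) :
    (Measure.pi (fun _ : Fin n => ρ)).map (ac p) = Measure.pi (fun _ : Fin n => ρ) := by
  have hf : ∀ b : Bool, ρ.map (fun t => sg b * t) = ρ := by
    intro b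
    cases b
    · have : (fun t : ℝ => sg false * t) = fun t => - t := by funext t; simp [sg]
      rw [this, he]
    · have : (fun t : ℝ => sg true * t) = id := by funext t; simp [sg]
      rw [this, Measure.map_id]
  have h1 : (ac p) = (fun (x : Fin n → ℝ) i => sg (p.2 i) * x i) ∘
      (fun (x : Fin n → ℝ) i => x (p.1 i)) := rfl
  have hm1 : Measurable (fun (x : Fin n → ℝ) i => sg (p.2 i) * x i) :=
    measurable_pi_lambda _ fun i => (measurable_pi_apply i).const_mul _
  have hm2 : Measurable (fun (x : Fin n → ℝ) i => x (p.1 i)) :=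
    measurable_pi_lambda _ fun i => measurable_pi_apply (p.1 i)
  rw [h1, ← Measure.map_map hm1 hm2, perm_map' ρ p.1]
  have hsf : ∀ i : Fin n, SigmaFinite (ρ.map (fun t => sg (p.2 i) * t)) := fun i => by
    rw [hf]; infer_instance
  have h2 := Measure.pi_map_pi (μ := fun _ : Fin n => ρ)
    (f := fun (i : Fin n) (t : ℝ) => sg (p.2 i) * t)
    (fun i => (measurable_id.const_mul _).aemeasurable)
  rw [h2]
  simp only [hf]

/-- reference point -/
noncomputable def zz (n : ℕ) : Fin n → ℝ := fun j => (j : ℝ) + 1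

open Classical in
/-- number of signed permutations compatible with the constraints -/
noncomputable def NB (r : Fin n × Bool → Fin n × Bool → Prop) : ℕ :=
  (Finset.univ.filter fun p : Equiv.Perm (Fin n) × (Fin n → Bool) => ac p (zz n) ∈ CX r).card

lemma sx_sg (x : Fin n → ℝ) (u : Fin n × Bool) : sx x u = sg u.2 * x u.1 := by
  unfold sx sg
  split_ifs <;> ring

open Classical in
lemma count_signed (r : Fin n × Bool → Fin n × Bool → Prop) {x : Fin n → ℝ}
    (hx : ∀ u v : Fin n × Bool, u ≠ v → sx x u ≠ sx x v) :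
    (Finset.univ.filter fun p : Equiv.Perm (Fin n) × (Fin n → Bool) => ac p x ∈ CX r).card =
      NB r := by
  unfold NB
  set y : Fin n → ℝ := fun i => |x i| with hy
  set τ := Tuple.sort y with hτ
  set η : Fin n → Bool := fun a => decide (0 < x a) with hη
  have hx0 : ∀ a, x a ≠ 0 := by
    intro a h
    have := hx (a, true) (a, false) (by simp)
    simp [sx, h] at this
  have hxη : ∀ a, x a = sg (η a) * y a := by
    intro a
    simp only [hη, hy, sg]
    by_cases h : 0 < x a
    · simp [h, abs_of_pos h]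
    · have h' : x a < 0 := lt_of_le_of_ne (not_lt.mp h) (hx0 a)
      simp [h, abs_of_neg h']
  have hypos : ∀ a, 0 < y a := fun a => abs_pos.mpr (hx0 a)
  have hyinj : Function.Injective y := by
    intro a b hab
    by_contra hne
    have h1 := hx (a, η a) (b, η b) (by
      intro h; exact hne (congrArg Prod.fst h))
    apply h1
    rw [sx_sg, sx_sg, hxη a, hxη b]
    simp only
    rw [← mul_assoc, ← mul_assoc, sg_mul, sg_mul, hab]
    simp
  have hmono : Monotone (y ∘ τ) := Tuple.monotone_sort y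
  have hstrict : StrictMono (y ∘ τ) := hmono.strictMono_of_injective (hyinj.comp τ.injective)
  have hle : ∀ a b : Fin n, y a ≤ y b ↔ τ⁻¹ a ≤ τ⁻¹ b := by
    intro a b
    have := hstrict.le_iff_le (a := τ⁻¹ a) (b := τ⁻¹ b)
    simp only [Function.comp] at this
    rwa [show τ (τ⁻¹ a) = a from τ.apply_symm_apply a,
      show τ (τ⁻¹ b) = b from τ.apply_symm_apply b] at this
  have hzpos : ∀ j : Fin n, 0 < zz n j := fun j => by unfold zz; positivity
  have hzle : ∀ i j : Fin n, zz n i ≤ zz n j ↔ i ≤ j := by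
    intro i j
    unfold zz
    rw [add_le_add_iff_right, Nat.cast_le]
    rfl
  have hcmp : ∀ (a b : Fin n) (s t : Bool), sg s * y a ≤ sg t * y b ↔
      sg s * zz n (τ⁻¹ a) ≤ sg t * zz n (τ⁻¹ b) := by
    intro a b s t
    have p1 := hypos a
    have p2 := hypos b
    have p3 := hzpos (τ⁻¹ a)
    have p4 := hzpos (τ⁻¹ b)
    have h1 := (hle a b).trans (hzle (τ⁻¹ a) (τ⁻¹ b)).symm
    have h2 := (hle b a).trans (hzle (τ⁻¹ b) (τ⁻¹ a)).symm
    cases s <;> cases t
    · simp only [sg, Bool.false_eq_true, if_false, neg_mul, one_mul, neg_le_neg_iff]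
      exact h2
    · simp only [sg, Bool.false_eq_true, if_false, if_true, neg_mul, one_mul]
      constructor <;> intro _ <;> linarith
    · simp only [sg, Bool.false_eq_true, if_false, if_true, neg_mul, one_mul]
      constructor <;> intro h <;> linarith
    · simp only [sg, if_true, one_mul]
      exact h1
  -- the correspondence
  have hkey : ∀ p : Equiv.Perm (Fin n) × (Fin n → Bool), ac p x ∈ CX r ↔
      ac (τ⁻¹ * p.1, fun i => p.2 i == η (p.1 i)) (zz n) ∈ CX r := by
    intro p
    have h1 : ∀ u : Fin n × Bool, sx (ac p x) u =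
        sg (u.2 == (p.2 u.1 == η (p.1 u.1))) * y (p.1 u.1) := by
      intro u
      rw [sx_sg]
      unfold ac
      rw [hxη (p.1 u.1), ← sg_mul, ← sg_mul]
      ring
    have h2 : ∀ u : Fin n × Bool,
        sx (ac (τ⁻¹ * p.1, fun i => p.2 i == η (p.1 i)) (zz n)) u =
        sg (u.2 == (p.2 u.1 == η (p.1 u.1))) * zz n (τ⁻¹ (p.1 u.1)) := by
      intro u
      rw [sx_sg]
      unfold ac
      simp only [Equiv.Perm.mul_apply]
      rw [← sg_mul u.2]
      ring
    constructor
    · intro h u v huv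
      rw [h2, h2, ← hcmp, ← h1, ← h1]
      exact h u v huv
    · intro h u v huv
      rw [h1, h1, hcmp, ← h2, ← h2]
      exact h u v huv
  have hbb : ∀ a b : Bool, ((a == b) == b) = a := by decide
  apply Finset.card_bij'
    (fun (p : Equiv.Perm (Fin n) × (Fin n → Bool)) _ =>
      ((τ⁻¹ * p.1, fun i => p.2 i == η (p.1 i)) : Equiv.Perm (Fin n) × (Fin n → Bool)))
    (fun (q : Equiv.Perm (Fin n) × (Fin n → Bool)) _ =>
      ((τ * q.1, fun i => q.2 i == η (τ (q.1 i))) : Equiv.Perm (Fin n) × (Fin n → Bool)))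
  · intro p hp
    simp only [Finset.mem_filter, Finset.mem_univ, true_and] at hp ⊢
    exact (hkey p).mp hp
  · intro q hq
    simp only [Finset.mem_filter, Finset.mem_univ, true_and] at hq ⊢
    rw [hkey]
    have e : ((τ⁻¹ * (τ * q.1), fun i => (q.2 i == η (τ (q.1 i))) == η ((τ * q.1) i)) :
        Equiv.Perm (Fin n) × (Fin n → Bool)) = q := by
      apply Prod.ext
      · simp
      · funext i
        simp only [Equiv.Perm.mul_apply]
        exact hbb _ _
    simp only
    rw [e]
    exact hq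
  · intro p _
    apply Prod.ext
    · simp
    · funext i
      have : τ ((τ⁻¹ * p.1) i) = p.1 i := by
        rw [Equiv.Perm.mul_apply]
        exact τ.apply_symm_apply _
      simp only
      rw [this]
      exact hbb _ _
  · intro q _
    apply Prod.ext
    · simp
    · funext i
      simp only [Equiv.Perm.mul_apply]
      exact hbb _ _

lemma sym_countB [NullSingletonClass ρ] (he : ρ.map (fun x => -x) = ρ)
    (r : Fin n × Bool → Fin n × Bool → Prop) {B : Set (Fin n → ℝ)}
    (hB : MeasurableSet B)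
    (hsym : ∀ (p : Equiv.Perm (Fin n) × (Fin n → Bool)) (x : Fin n → ℝ), ac p x ∈ B ↔ x ∈ B) :
    (Fintype.card (Equiv.Perm (Fin n) × (Fin n → Bool)) : ℝ≥0∞) *
      (Measure.pi (fun _ : Fin n => ρ)) (CX r ∩ B) =
      (NB r : ℝ≥0∞) * (Measure.pi (fun _ : Fin n => ρ)) B := by
  classical
  set P := Measure.pi (fun _ : Fin n => ρ) with hP
  have hOC := CX_measurable r
  have h1 : ∀ p : Equiv.Perm (Fin n) × (Fin n → Bool), P (CX r ∩ B) =
      ∫⁻ x in B, (CX r).indicator 1 (ac p x) ∂P := by
    intro p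
    have e1 : P (CX r ∩ B) = P ((ac p) ⁻¹' (CX r ∩ B)) := by
      rw [← Measure.map_apply (ac_measurable p) (hOC.inter hB), hP, ac_map ρ he]
    rw [e1]
    have e2 : ((ac p) ⁻¹' (CX r ∩ B)) = ((ac p) ⁻¹' (CX r)) ∩ B := by
      ext x
      simp only [Set.mem_preimage, Set.mem_inter_iff]
      rw [hsym]
    rw [e2, ← Measure.restrict_apply ((ac_measurable p) hOC),
      ← lintegral_indicator_one ((ac_measurable p) hOC)]
    rfl
  have h2 : (Fintype.card (Equiv.Perm (Fin n) × (Fin n → Bool)) : ℝ≥0∞) * P (CX r ∩ B) =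
      ∑ _p : Equiv.Perm (Fin n) × (Fin n → Bool), P (CX r ∩ B) := by
    rw [Finset.sum_const, Finset.card_univ, nsmul_eq_mul]
  rw [h2, Finset.sum_congr rfl (fun p _ => h1 p), ← lintegral_finsetSum]
  · have h3 : ∀ᵐ x ∂(P.restrict B), ∑ p : Equiv.Perm (Fin n) × (Fin n → Bool),
        (CX r).indicator (1 : (Fin n → ℝ) → ℝ≥0∞) (ac p x) = NB r := by
      filter_upwards [ae_restrict_of_ae (sx_ne_ae (n := n) (ρ := ρ))] with x hx
      rw [← count_signed r hx, Finset.card_filter]
      push_cast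
      apply Finset.sum_congr rfl
      intro p _
      rw [Set.indicator_apply]
      simp
    rw [lintegral_congr_ae h3, setLIntegral_const]
  · intro p _
    have hm : Measurable ((CX r).indicator (1 : (Fin n → ℝ) → ℝ≥0∞)) :=
      measurable_one.indicator hOC
    exact hm.comp (ac_measurable p)

theorem sym_indepB [NullSingletonClass ρ] (he : ρ.map (fun x => -x) = ρ)
    (r : Fin n × Bool → Fin n × Bool → Prop) {B : Set (Fin n → ℝ)}
    (hB : MeasurableSet B)
    (hsym : ∀ (p : Equiv.Perm (Fin n) × (Fin n → Bool)) (x : Fin n → ℝ), ac p x ∈ B ↔ x ∈ B) :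
    (Measure.pi (fun _ : Fin n => ρ)) (CX r ∩ B) =
      (Measure.pi (fun _ : Fin n => ρ)) (CX r) * (Measure.pi (fun _ : Fin n => ρ)) B := by
  have h1 := sym_countB ρ he r hB hsym
  have h2 := sym_countB ρ he r (B := Set.univ) MeasurableSet.univ (fun _ _ => by simp)
  rw [Set.inter_univ, measure_univ, mul_one] at h2
  rw [← h2, mul_assoc] at h1
  have h3 : (Fintype.card (Equiv.Perm (Fin n) × (Fin n → Bool)) : ℝ≥0∞) ≠ 0 := by
    exact_mod_cast Fintype.card_ne_zero
  have h4 : (Fintype.card (Equiv.Perm (Fin n) × (Fin n → Bool)) : ℝ≥0∞) ≠ ⊤ :=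
    ENNReal.natCast_ne_top _
  exact (ENNReal.mul_right_inj h3 h4).mp h1

/-- invariant functions keep their law -/
lemma inv_map [NullSingletonClass ρ] (he : ρ.map (fun x => -x) = ρ)
    (r : Fin n × Bool → Fin n × Bool → Prop)
    (hpos : (Measure.pi (fun _ : Fin n => ρ)) (CX r) ≠ 0) {f : (Fin n → ℝ) → ℝ}
    (hf : Measurable f) (hinv : ∀ p x, f (ac p x) = f x) :
    (cond (Measure.pi (fun _ : Fin n => ρ)) (CX r)).map f =
      (Measure.pi (fun _ : Fin n => ρ)).map f := by
  ext B hB
  rw [Measure.map_apply hf hB, Measure.map_apply hf hB, cond_apply (CX_measurable r)]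
  rw [sym_indepB ρ he r (hf hB), ← mul_assoc, ENNReal.inv_mul_cancel hpos (measure_ne_top _ _),
    one_mul]
  intro p x
  simp only [Set.mem_preimage]
  rw [hinv]

lemma inv_ident [NullSingletonClass ρ] (he : ρ.map (fun x => -x) = ρ)
    (r : Fin n × Bool → Fin n × Bool → Prop)
    (hpos : (Measure.pi (fun _ : Fin n => ρ)) (CX r) ≠ 0) {f : (Fin n → ℝ) → ℝ}
    (hf : Measurable f) (hinv : ∀ p x, f (ac p x) = f x) :
    IdentDistrib f f (cond (Measure.pi (fun _ : Fin n => ρ)) (CX r))
      (Measure.pi (fun _ : Fin n => ρ)) :=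
  ⟨hf.aemeasurable, hf.aemeasurable, inv_map ρ he r hpos hf hinv⟩

/-- a sum of even functions is invariant -/
lemma even_sum_inv {φ : ℝ → ℝ} (hφ : ∀ t, φ (-t) = φ t)
    (p : Equiv.Perm (Fin n) × (Fin n → Bool)) (x : Fin n → ℝ) :
    ∑ i, φ (ac p x i) = ∑ i, φ (x i) := by
  have h1 : ∀ i, φ (ac p x i) = φ (x (p.1 i)) := by
    intro i
    unfold ac sg
    split_ifs
    · rw [one_mul]
    · rw [neg_one_mul, hφ]
  rw [Finset.sum_congr rfl fun i _ => h1 i]
  exact Equiv.sum_comp p.1 (fun i => φ (x i))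

theorem even_sum_variance [NullSingletonClass ρ] (he : ρ.map (fun x => -x) = ρ)
    (r : Fin n × Bool → Fin n × Bool → Prop)
    (hpos : (Measure.pi (fun _ : Fin n => ρ)) (CX r) ≠ 0) {φ : ℝ → ℝ} (hφm : Measurable φ)
    (hφ : ∀ t, φ (-t) = φ t) (h2 : MemLp φ 2 ρ) :
    variance (fun x : Fin n → ℝ => ∑ i, φ (x i)) (cond (Measure.pi (fun _ : Fin n => ρ)) (CX r)) =
      n * variance φ ρ := by
  have hm : Measurable (fun x : Fin n → ℝ => ∑ i, φ (x i)) :=
    Finset.measurable_sum _ fun i _ => hφm.comp (measurable_pi_apply i)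
  rw [(inv_ident ρ he r hpos hm (fun p x => even_sum_inv hφ p x)).variance_eq]
  have h3 := variance_sum_pi (μ := fun _ : Fin n => ρ) (X := fun _ : Fin n => φ)
    (fun _ => h2)
  have e : (fun x : Fin n → ℝ => ∑ i, φ (x i)) = ∑ i, fun x : Fin n → ℝ => φ (x i) := by
    funext x; simp
  rw [e]
  refine h3.trans ?_
  rw [Finset.sum_const, Finset.card_univ, Fintype.card_fin, nsmul_eq_mul]

theorem even_sum_integral [NullSingletonClass ρ] (he : ρ.map (fun x => -x) = ρ)
    (r : Fin n × Bool → Fin n × Bool → Prop)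
    (hpos : (Measure.pi (fun _ : Fin n => ρ)) (CX r) ≠ 0) {φ : ℝ → ℝ} (hφm : Measurable φ)
    (hφ : ∀ t, φ (-t) = φ t) (h1 : Integrable φ ρ) :
    ∫ x, (∑ i, φ (x i)) ∂(cond (Measure.pi (fun _ : Fin n => ρ)) (CX r)) =
      n * ∫ t, φ t ∂ρ := by
  have hm : Measurable (fun x : Fin n → ℝ => ∑ i, φ (x i)) :=
    Finset.measurable_sum _ fun i _ => hφm.comp (measurable_pi_apply i)
  rw [(inv_ident ρ he r hpos hm (fun p x => even_sum_inv hφ p x)).integral_eq]
  have hi : ∀ i : Fin n, Integrable (fun x : Fin n → ℝ => φ (x i)) (Measure.pi (fun _ : Fin n => ρ)) ∧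
      ∫ x, φ (x i) ∂(Measure.pi (fun _ : Fin n => ρ)) = ∫ t, φ t ∂ρ := by
    intro i
    have hmp := measurePreserving_eval (fun _ : Fin n => ρ) i
    constructor
    · exact hmp.integrable_comp_of_integrable h1
    · have h3 := hmp.map_eq
      conv_rhs => rw [← h3]
      rw [integral_map (measurable_pi_apply i).aemeasurable hφm.aestronglyMeasurable]
  rw [integral_finsetSum _ fun i _ => (hi i).1]
  rw [Finset.sum_congr rfl fun i _ => (hi i).2, Finset.sum_const, Finset.card_univ,
    Fintype.card_fin, nsmul_eq_mul]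

end Pool.Agent.Lib.MP_6d896a_gt
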