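import Mathlib

/-!
From the Poincare inequality for smooth bounded functions to sums of one-variable Lipschitz
functions.
-/

namespace Pool.Agent.Lib.MP_6d896a_gt

open MeasureTheory Filter Topology

variable {n : ℕ}

/-- one-sided averages of a function -/
noncomputable def avg (f : ℝ → ℝ) (d : ℝ) (t : ℝ) : ℝ :=
  ((∫ s in (0 : ℝ)..(t + d), f s) - ∫ s in (0 : ℝ)..t, f s) / d

lemma avg_hasDerivAt {f : ℝ → ℝ} (hf : Continuous f) (d t : ℝ) :
    HasDerivAt (avg f d) ((f (t + d) - f t) / d) t := by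
  have h1 : ∀ t, HasDerivAt (fun t => ∫ s in (0 : ℝ)..t, f s) (f t) t := fun t =>
    intervalIntegral.integral_hasDerivAt_right (hf.intervalIntegrable _ _)
      hf.stronglyMeasurable.stronglyMeasurableAtFilter hf.continuousAt
  have h2 : HasDerivAt (fun t => ∫ s in (0 : ℝ)..(t + d), f s) (f (t + d)) t := by
    have := (h1 (t + d)).comp_add_const t d
    exact this
  exact (h2.sub (h1 t)).div_const d

lemma avg_sub {f : ℝ → ℝ} (hf : Continuous f) {Λ : ℝ} (hΛ : 0 ≤ Λ)
    (hl : ∀ s t, |f s - f t| ≤ Λ * |s - t|)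
    {d : ℝ} (hd : d ≠ 0) (t : ℝ) : |avg f d t - f t| ≤ Λ * |d| := by
  unfold avg
  rw [intervalIntegral.integral_interval_sub_left (hf.intervalIntegrable _ _)
    (hf.intervalIntegrable _ _)]
  have h1 : ∫ s in t..(t + d), (f s - f t) = (∫ s in t..(t + d), f s) - d * f t := by
    rw [intervalIntegral.integral_sub (hf.intervalIntegrable _ _) (by simp)]
    simp
  have h2 : ‖∫ s in t..(t + d), (f s - f t)‖ ≤ (Λ * |d|) * |t + d - t| := by
    apply intervalIntegral.norm_integral_le_of_norm_le_const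
    intro s hs
    rw [Real.norm_eq_abs]
    refine (hl s t).trans (mul_le_mul_of_nonneg_left ?_ hΛ)
    rw [Set.mem_uIoc] at hs
    rcases hs with ⟨h3, h4⟩ | ⟨h3, h4⟩
    · rw [abs_of_pos (by linarith), abs_of_pos (by linarith)]; linarith
    · rw [abs_of_nonpos (by linarith), abs_of_neg (by linarith)]; linarith
  rw [h1, Real.norm_eq_abs, show t + d - t = d by ring] at h2
  have e : (∫ s in t..(t + d), f s) / d - f t = ((∫ s in t..(t + d), f s) - d * f t) / d := by
    field_simp
  have hdp : 0 < |d| := abs_pos.mpr hd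
  rw [e, abs_div, div_le_iff₀ hdp]
  exact h2

lemma avg_deriv_bound {f : ℝ → ℝ} {Λ : ℝ} (hl : ∀ s t, |f s - f t| ≤ Λ * |s - t|)
    {d : ℝ} (hd : d ≠ 0) (t : ℝ) : |(f (t + d) - f t) / d| ≤ Λ := by
  have hdp : 0 < |d| := abs_pos.mpr hd
  rw [abs_div, div_le_iff₀ hdp]
  have := hl (t + d) t
  rwa [show t + d - t = d by ring] at this

theorem poinc_sum (m : Measure (EuclideanSpace ℝ (Fin n))) [IsFiniteMeasure m] {C : ℝ} (hC : 0 ≤ C)
    (hP : ∀ u : EuclideanSpace ℝ (Fin n) → ℝ, ContDiff ℝ 1 u → (∀ x, |u x| ≤ 1) →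
      (∃ B, 0 ≤ B ∧ ∀ x x', |u x - u x'| ≤ B * ‖x - x'‖) →
      m.real Set.univ * ∫ x, u x ^ 2 ∂m - (∫ x, u x ∂m) ^ 2 ≤
        C * (m.real Set.univ * ∫ x, ‖fderiv ℝ u x‖ ^ 2 ∂m))
    (hm2 : Integrable (fun x : EuclideanSpace ℝ (Fin n) => ‖x‖ ^ 2) m)
    {Λ : ℝ} (hΛ : 0 ≤ Λ) (ψ : Fin n → ℝ → ℝ) (hψ : ∀ i s t, |ψ i s - ψ i t| ≤ Λ * |s - t|)
    (e : Fin n → ℝ) (he : ∀ i, e i = 1 ∨ e i = -1) (h0 : ∀ i t, 0 ≤ e i * t → ψ i t = 0) :
    m.real Set.univ * ∫ x, (∑ i, ψ i (x i)) ^ 2 ∂m - (∫ x, ∑ i, ψ i (x i) ∂m) ^ 2 ≤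
      C * (m.real Set.univ * ∫ x, ∑ i, (if e i * x i < 0 then Λ ^ 2 else 0) ∂m) := by
  have hψc : ∀ i, Continuous (ψ i) := by
    intro i
    have : LipschitzWith (Real.toNNReal Λ) (ψ i) := by
      apply LipschitzWith.of_dist_le_mul
      intro a b
      rw [Real.dist_eq, Real.dist_eq, Real.coe_toNNReal Λ hΛ]
      exact hψ i a b
    exact this.continuous
  have hsq : ∀ i, e i ^ 2 = 1 := fun i => by rcases he i with h | h <;> rw [h] <;> norm_num
  have habs : ∀ i, |e i| = 1 := fun i => by rcases he i with h | h <;> rw [h] <;> norm_num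
  set U0 : EuclideanSpace ℝ (Fin n) → ℝ := fun x => ∑ i, ψ i (x i) with hU0
  set dl : ℕ → Fin n → ℝ := fun k i => e i * (1 / ((k : ℝ) + 1)) with hdl
  have hk1 : ∀ k : ℕ, (0 : ℝ) < (k : ℝ) + 1 := fun k => by positivity
  have hdlne : ∀ k i, dl k i ≠ 0 := by
    intro k i
    simp only [hdl]
    apply mul_ne_zero
    · intro h
      have := hsq i
      rw [h] at this
      norm_num at this
    · have := hk1 k; positivity
  have hdlabs : ∀ k i, |dl k i| = 1 / ((k : ℝ) + 1) := by
    intro k i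
    simp only [hdl]
    rw [abs_mul, habs, one_mul, abs_of_pos (by have := hk1 k; positivity)]
  set U : ℕ → EuclideanSpace ℝ (Fin n) → ℝ := fun k x => ∑ i, avg (ψ i) (dl k i) (x i) with hU
  set D : ℕ → Fin n → ℝ → ℝ := fun k i t => (ψ i (t + dl k i) - ψ i t) / dl k i with hD
  have hDb : ∀ k i t, |D k i t| ≤ Λ := fun k i t => avg_deriv_bound (hψ i) (hdlne k i) t
  have hD0 : ∀ k i t, 0 ≤ e i * t → D k i t = 0 := by
    intro k i t ht
    simp only [hD]
    rw [h0 i t ht, h0 i (t + dl k i), sub_self, zero_div]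
    simp only [hdl]
    have : e i * (t + e i * (1 / ((k : ℝ) + 1))) = e i * t + e i ^ 2 * (1 / ((k : ℝ) + 1)) := by
      ring
    rw [this, hsq, one_mul]
    have := hk1 k
    positivity
  -- derivative of U
  have hUd : ∀ k x, HasFDerivAt (U k)
      (∑ i, D k i (x i) • (EuclideanSpace.proj i : EuclideanSpace ℝ (Fin n) →L[ℝ] ℝ)) x := by
    intro k x
    simp only [hU]
    apply HasFDerivAt.fun_sum
    intro i _
    have h1 := avg_hasDerivAt (hψc i) (dl k i) (x i)
    have h2 : HasFDerivAt (fun x : EuclideanSpace ℝ (Fin n) => x i)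
      (EuclideanSpace.proj i : EuclideanSpace ℝ (Fin n) →L[ℝ] ℝ) x :=
      (EuclideanSpace.proj i : EuclideanSpace ℝ (Fin n) →L[ℝ] ℝ).hasFDerivAt
    exact h1.comp_hasFDerivAt x h2
  have hUC : ∀ k, ContDiff ℝ 1 (U k) := by
    intro k
    rw [contDiff_one_iff_fderiv]
    refine ⟨fun x => (hUd k x).differentiableAt, ?_⟩
    have e1 : fderiv ℝ (U k) = fun x => ∑ i, D k i (x i) •
        (EuclideanSpace.proj i : EuclideanSpace ℝ (Fin n) →L[ℝ] ℝ) := by
      funext x
      exact (hUd k x).fderiv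
    rw [e1]
    apply continuous_finset_sum
    intro i _
    have h3 : Continuous (fun x : EuclideanSpace ℝ (Fin n) => x i) :=
      (EuclideanSpace.proj (𝕜 := ℝ) i).continuous
    have h4 : Continuous (fun x : EuclideanSpace ℝ (Fin n) => D k i (x i)) :=
      (((hψc i).comp (h3.add continuous_const)).sub ((hψc i).comp h3)).div_const _
    exact h4.smul continuous_const
  have hUnorm : ∀ k x, ‖fderiv ℝ (U k) x‖ ^ 2 ≤ ∑ i, (if e i * x i < 0 then Λ ^ 2 else 0) := by
    intro k x
    rw [(hUd k x).fderiv]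
    have e2 := (EuclideanSpace.basisFun (Fin n) ℝ).norm_dual
      (∑ i, D k i (x i) • (EuclideanSpace.proj i : EuclideanSpace ℝ (Fin n) →L[ℝ] ℝ))
    rw [e2]
    apply Finset.sum_le_sum
    intro j _
    have e3 : (∑ i, D k i (x i) • (EuclideanSpace.proj i : EuclideanSpace ℝ (Fin n) →L[ℝ] ℝ))
        ((EuclideanSpace.basisFun (Fin n) ℝ) j) = D k j (x j) := by
      rw [ContinuousLinearMap.sum_apply]
      rw [Finset.sum_eq_single j]
      · simp [EuclideanSpace.basisFun_apply]
      · intro i _ hij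
        simp [EuclideanSpace.basisFun_apply, hij]
      · intro h; exact absurd (Finset.mem_univ j) h
    rw [e3]
    by_cases hneg : e j * x j < 0
    · rw [if_pos hneg, ← sq_abs]
      exact pow_le_pow_left₀ (abs_nonneg _) (hDb k j (x j)) 2
    · rw [if_neg hneg, hD0 k j (x j) (not_lt.mp hneg)]
      simp
  have hUsub : ∀ k x, |U k x - U0 x| ≤ n * Λ * (1 / ((k : ℝ) + 1)) := by
    intro k x
    simp only [hU, hU0]
    rw [← Finset.sum_sub_distrib]
    refine (Finset.abs_sum_le_sum_abs _ _).trans ?_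
    calc ∑ i, |avg (ψ i) (dl k i) (x i) - ψ i (x i)| ≤ ∑ _i : Fin n, Λ * (1 / ((k : ℝ) + 1)) := by
          apply Finset.sum_le_sum
          intro i _
          have := avg_sub (hψc i) hΛ (hψ i) (hdlne k i) (x i)
          rwa [hdlabs] at this
      _ = _ := by
          rw [Finset.sum_const, Finset.card_univ, Fintype.card_fin, nsmul_eq_mul]; ring
  have hU0b : ∀ x, |U0 x| ≤ n * Λ * ‖x‖ := by
    intro x
    simp only [hU0]
    refine (Finset.abs_sum_le_sum_abs _ _).trans ?_
    calc ∑ i, |ψ i (x i)| ≤ ∑ _i : Fin n, Λ * ‖x‖ := by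
          apply Finset.sum_le_sum
          intro i _
          have h1 := hψ i (x i) 0
          rw [h0 i 0 (by simp), sub_zero, sub_zero] at h1
          refine h1.trans (mul_le_mul_of_nonneg_left ?_ hΛ)
          have := EuclideanSpace.norm_eq x
          have h2 : ‖x i‖ ≤ ‖x‖ := PiLp.norm_apply_le x i
          rwa [Real.norm_eq_abs] at h2
      _ = _ := by
          rw [Finset.sum_const, Finset.card_univ, Fintype.card_fin, nsmul_eq_mul]; ring
  have hUb : ∀ k x, |U k x| ≤ n * Λ * (‖x‖ + 1) := by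
    intro k x
    have h1 := hUsub k x
    have h2 := hU0b x
    have h3 : (1 : ℝ) / ((k : ℝ) + 1) ≤ 1 := by
      rw [div_le_one (hk1 k)]
      have : (0 : ℝ) ≤ k := Nat.cast_nonneg k
      linarith
    have h4 : n * Λ * (1 / ((k : ℝ) + 1)) ≤ n * Λ * 1 :=
      mul_le_mul_of_nonneg_left h3 (by positivity)
    have h5 : |U k x| ≤ |U k x - U0 x| + |U0 x| := by
      have := abs_add_le (U k x - U0 x) (U0 x)
      rwa [sub_add_cancel] at this
    calc |U k x| ≤ n * Λ * 1 + n * Λ * ‖x‖ := by linarith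
      _ = _ := by ring
  -- the truncated functions
  set N : ℕ → ℝ := fun k => (k : ℝ) + 1 with hN
  set v : ℕ → EuclideanSpace ℝ (Fin n) → ℝ := fun k x => N k * Real.sin (U k x / N k) with hv
  have hvb : ∀ k x, |v k x| ≤ n * Λ * (‖x‖ + 1) := by
    intro k x
    refine le_trans ?_ (hUb k x)
    simp only [hv]
    rw [abs_mul, abs_of_pos (hk1 k)]
    have h1 : |Real.sin (U k x / N k)| ≤ |U k x / N k| := Real.abs_sin_le_abs
    rw [abs_div, abs_of_pos (hk1 k)] at h1
    calc N k * |Real.sin (U k x / N k)| ≤ N k * (|U k x| / N k) :=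
          mul_le_mul_of_nonneg_left h1 (hk1 k).le
      _ = _ := mul_div_cancel₀ _ (hk1 k).ne'
  have hvlim : ∀ x, Tendsto (fun k => v k x) atTop (𝓝 (U0 x)) := by
    intro x
    have h1 : Tendsto (fun k : ℕ => n * Λ * (1 / ((k : ℝ) + 1))) atTop (𝓝 0) := by
      have := (tendsto_one_div_add_atTop_nhds_zero_nat (𝕜 := ℝ)).const_mul (n * Λ)
      simpa using this
    have h2 : Tendsto (fun k => U k x) atTop (𝓝 (U0 x)) := by
      rw [tendsto_iff_norm_sub_tendsto_zero]
      refine squeeze_zero (fun k => norm_nonneg _) (fun k => ?_) h1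
      rw [Real.norm_eq_abs]
      exact hUsub k x
    have h3 : Tendsto (fun k => U k x / N k) atTop (𝓝 0) := by
      have := h2.mul (tendsto_one_div_add_atTop_nhds_zero_nat (𝕜 := ℝ))
      rw [mul_zero] at this
      refine this.congr fun k => ?_
      simp only [hN]
      ring
    have h4 : Tendsto (fun k => Real.sinc (U k x / N k)) atTop (𝓝 1) := by
      have := (Real.continuous_sinc.tendsto 0).comp h3
      rwa [Real.sinc_zero] at this
    have h5 := h2.mul h4
    rw [mul_one] at h5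
    refine h5.congr fun k => ?_
    simp only [hv]
    have hNk : N k ≠ 0 := (hk1 k).ne'
    by_cases hz : U k x = 0
    · simp [hz]
    · rw [Real.sinc_of_ne_zero (div_ne_zero hz hNk)]
      field_simp
  have hineq : ∀ k, m.real Set.univ * ∫ x, v k x ^ 2 ∂m - (∫ x, v k x ∂m) ^ 2 ≤
      C * (m.real Set.univ * ∫ x, ∑ i, (if e i * x i < 0 then Λ ^ 2 else 0) ∂m) := by
    intro k
    have hNk := hk1 k
    set u : EuclideanSpace ℝ (Fin n) → ℝ := fun x => Real.sin (U k x / N k) with hu
    have huC : ContDiff ℝ 1 u := by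
      have h1 : ContDiff ℝ 1 Real.sin := Real.contDiff_sin.of_le le_top
      exact h1.comp ((hUC k).div_const _)
    have hud : ∀ x, HasFDerivAt u (Real.cos (U k x / N k) • ((N k)⁻¹ • fderiv ℝ (U k) x)) x := by
      intro x
      have h1 : HasFDerivAt (U k) (fderiv ℝ (U k) x) x := (hUd k x).differentiableAt.hasFDerivAt
      have h2 : HasFDerivAt (fun x => U k x / N k) ((N k)⁻¹ • fderiv ℝ (U k) x) x := by
        have := h1.const_mul (N k)⁻¹
        refine this.congr_of_eventuallyEq (Eventually.of_forall fun y => ?_)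
        ring
      exact h2.sin
    have hun : ∀ x, ‖fderiv ℝ u x‖ ≤ (N k)⁻¹ * ‖fderiv ℝ (U k) x‖ := by
      intro x
      rw [(hud x).fderiv, norm_smul, norm_smul, Real.norm_eq_abs, Real.norm_eq_abs,
        abs_of_pos (inv_pos.mpr hNk)]
      exact mul_le_of_le_one_left (by positivity) (Real.abs_cos_le_one _)
    have hUnb : ∀ x, ‖fderiv ℝ (U k) x‖ ^ 2 ≤ n * Λ ^ 2 := by
      intro x
      refine (hUnorm k x).trans ?_
      calc ∑ i, (if e i * x i < 0 then Λ ^ 2 else 0) ≤ ∑ _i : Fin n, Λ ^ 2 := by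
            apply Finset.sum_le_sum
            intro i _
            split_ifs
            · exact le_refl _
            · positivity
        _ = _ := by rw [Finset.sum_const, Finset.card_univ, Fintype.card_fin, nsmul_eq_mul]
    have hUnb' : ∀ x, ‖fderiv ℝ (U k) x‖ ≤ Real.sqrt (n * Λ ^ 2) := fun x =>
      Real.le_sqrt_of_sq_le (hUnb x)
    have hlip : ∃ B, 0 ≤ B ∧ ∀ x x', |u x - u x'| ≤ B * ‖x - x'‖ := by
      refine ⟨(N k)⁻¹ * Real.sqrt (n * Λ ^ 2), by positivity, fun x x' => ?_⟩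
      have := convex_univ.norm_image_sub_le_of_norm_fderiv_le (𝕜 := ℝ)
        (fun x _ => (hud x).differentiableAt)
        (fun x _ => (hun x).trans (mul_le_mul_of_nonneg_left (hUnb' x) (by positivity)))
        (Set.mem_univ x') (Set.mem_univ x)
      exact this
    have h1 := hP u huC (fun x => Real.abs_sin_le_one _) hlip
    have e1 : ∫ x, v k x ^ 2 ∂m = N k ^ 2 * ∫ x, u x ^ 2 ∂m := by
      rw [← integral_const_mul]
      congr 1
      funext x
      simp only [hv, hu]
      ring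
    have e2 : ∫ x, v k x ∂m = N k * ∫ x, u x ∂m := by
      rw [← integral_const_mul]
    have hMn : 0 ≤ m.real Set.univ := measureReal_nonneg
    have hint : Integrable (fun x : EuclideanSpace ℝ (Fin n) =>
        ∑ i, (if e i * x i < 0 then Λ ^ 2 else 0)) m := by
      apply integrable_finset_sum
      intro i _
      have hms : MeasurableSet {x : EuclideanSpace ℝ (Fin n) | e i * x i < 0} := by
        have h3 : Continuous (fun x : EuclideanSpace ℝ (Fin n) => x i) :=
          (EuclideanSpace.proj (𝕜 := ℝ) i).continuous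
        exact measurableSet_lt (continuous_const.mul h3).measurable measurable_const
      have hmm : Measurable (fun x : EuclideanSpace ℝ (Fin n) =>
        if e i * x i < 0 then Λ ^ 2 else 0) := Measurable.ite hms measurable_const measurable_const
      refine (integrable_const (Λ ^ 2)).mono' hmm.aestronglyMeasurable (ae_of_all _ fun x => ?_)
      rw [Real.norm_eq_abs]
      split_ifs
      · rw [abs_of_nonneg (by positivity)]
      · rw [abs_zero]; positivity
    have hfd : Continuous (fun x => ‖fderiv ℝ u x‖ ^ 2) :=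
      (huC.continuous_fderiv (by norm_num)).norm.pow 2
    have h2 : N k ^ 2 * ∫ x, ‖fderiv ℝ u x‖ ^ 2 ∂m ≤
        ∫ x, ∑ i, (if e i * x i < 0 then Λ ^ 2 else 0) ∂m := by
      rw [← integral_const_mul]
      apply integral_mono_of_nonneg
      · apply ae_of_all
        intro x
        simp only [Pi.zero_apply]
        positivity
      · exact hint
      · apply ae_of_all
        intro x
        beta_reduce
        refine le_trans ?_ (hUnorm k x)
        have h3 := pow_le_pow_left₀ (norm_nonneg _) (hun x) 2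
        calc N k ^ 2 * ‖fderiv ℝ u x‖ ^ 2 ≤ N k ^ 2 * ((N k)⁻¹ * ‖fderiv ℝ (U k) x‖) ^ 2 :=
              mul_le_mul_of_nonneg_left h3 (by positivity)
          _ = (N k * (N k)⁻¹) ^ 2 * ‖fderiv ℝ (U k) x‖ ^ 2 := by ring
          _ = _ := by rw [mul_inv_cancel₀ hNk.ne', one_pow, one_mul]
    rw [e1, e2]
    have h3 := mul_le_mul_of_nonneg_left h1 (by positivity : 0 ≤ N k ^ 2)
    have h4 : C * (m.real Set.univ * (N k ^ 2 * ∫ x, ‖fderiv ℝ u x‖ ^ 2 ∂m)) ≤
        C * (m.real Set.univ * ∫ x, ∑ i, (if e i * x i < 0 then Λ ^ 2 else 0) ∂m) :=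
      mul_le_mul_of_nonneg_left (mul_le_mul_of_nonneg_left h2 hMn) hC
    linarith
  -- the limit
  have hvc : ∀ k, Continuous (v k) := fun k =>
    continuous_const.mul (Real.continuous_sin.comp ((hUC k).continuous.div_const _))
  have hdom2 : Integrable (fun x : EuclideanSpace ℝ (Fin n) => (n * Λ) ^ 2 * (2 * (‖x‖ ^ 2 + 1))) m :=
    ((hm2.add (integrable_const 1)).const_mul 2).const_mul _
  have hdom1 : Integrable (fun x : EuclideanSpace ℝ (Fin n) => (n * Λ) * (‖x‖ ^ 2 + 2)) m :=
    (hm2.add (integrable_const 2)).const_mul _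
  have L2 : Tendsto (fun k => ∫ x, v k x ^ 2 ∂m) atTop (𝓝 (∫ x, U0 x ^ 2 ∂m)) := by
    apply tendsto_integral_of_dominated_convergence _ (fun k => ((hvc k).pow 2).aestronglyMeasurable)
      hdom2
    · intro k
      apply ae_of_all
      intro x
      rw [Real.norm_eq_abs, Pi.pow_apply, abs_pow]
      calc |v k x| ^ 2 ≤ (n * Λ * (‖x‖ + 1)) ^ 2 := pow_le_pow_left₀ (abs_nonneg _) (hvb k x) 2
        _ = (n * Λ) ^ 2 * (‖x‖ + 1) ^ 2 := by ring
        _ ≤ _ := by
          apply mul_le_mul_of_nonneg_left _ (by positivity)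
          nlinarith [sq_nonneg (‖x‖ - 1)]
    · exact ae_of_all _ fun x => (hvlim x).pow 2
  have L1 : Tendsto (fun k => ∫ x, v k x ∂m) atTop (𝓝 (∫ x, U0 x ∂m)) := by
    apply tendsto_integral_of_dominated_convergence _ (fun k => (hvc k).aestronglyMeasurable) hdom1
    · intro k
      apply ae_of_all
      intro x
      rw [Real.norm_eq_abs]
      refine (hvb k x).trans ?_
      apply mul_le_mul_of_nonneg_left _ (by positivity)
      nlinarith [sq_nonneg (‖x‖ - 1), norm_nonneg x]
    · exact ae_of_all _ fun x => hvlim x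
  exact le_of_tendsto ((L2.const_mul (m.real Set.univ)).sub (L1.pow 2))
    (Eventually.of_forall hineq)

end Pool.Agent.Lib.MP_6d896a_gt
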