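import Mathlib
import Pool.Agent.Lib.MP_6d896a_gt.ExchB
import Pool.Agent.Lib.MP_6d896a_gt.EvenLC
import Pool.Agent.Lib.MP_6d896a_gt.PoincSum

/-!
Lower bound for the covariance of independent symmetric log-concave variables conditioned on
signed order constraints.
-/

namespace Pool.Agent.Lib.MP_6d896a_gt

open MeasureTheory ProbabilityTheory Real Filter Topology Set
open scoped ENNReal NNReal

lemma log32 : (2 : ℝ) / 5 ≤ Real.log (3 / 2) := by
  have h1 : Real.exp 2 ≤ (3 / 2) ^ 5 := by
    have h2 : Real.exp 2 = Real.exp 1 ^ 2 := by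
      rw [← Real.exp_nat_mul]; norm_num
    rw [h2]
    have h3 := Real.exp_one_lt_d9
    have h4 := Real.exp_pos 1
    nlinarith
  have h5 : (2 : ℝ) ≤ Real.log ((3 / 2) ^ 5) := by
    rw [Real.le_log_iff_exp_le (by positivity)]
    exact h1
  rw [Real.log_pow] at h5
  push_cast at h5
  linarith

lemma variance_add_le {Ω : Type*} [MeasurableSpace Ω] {μ : Measure Ω} [IsProbabilityMeasure μ]
    {X Y : Ω → ℝ} (hX : MemLp X 2 μ) (hY : MemLp Y 2 μ) :
    variance (fun ω => X ω + Y ω) μ ≤ 2 * variance X μ + 2 * variance Y μ := by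
  have h1 := variance_fun_add hX hY
  have h2 := variance_fun_sub hX hY
  have h3 := variance_nonneg (fun ω => X ω - Y ω) μ
  rw [h1]
  rw [h2] at h3
  linarith

variable {n : ℕ} {ρ : Measure ℝ} [IsProbabilityMeasure ρ]

lemma cond_integral {P : Measure (Fin n → ℝ)} [IsProbabilityMeasure P] (K : Set (Fin n → ℝ))
    (f : (Fin n → ℝ) → ℝ) :
    ∫ x, f x ∂(cond P K) = (P.real K)⁻¹ * ∫ x in K, f x ∂P := by
  unfold ProbabilityTheory.cond
  rw [integral_smul_measure, smul_eq_mul, ENNReal.toReal_inv]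
  rfl

lemma coord_memLp (h2 : MemLp (fun x : ℝ => x) 2 ρ) (i : Fin n) :
    MemLp (fun x : Fin n → ℝ => x i) 2 (Measure.pi (fun _ : Fin n => ρ)) := by
  have hmp := measurePreserving_eval (fun _ : Fin n => ρ) i
  exact h2.comp_measurePreserving hmp

lemma cond_memLp {P : Measure (Fin n → ℝ)} [IsProbabilityMeasure P] {K : Set (Fin n → ℝ)}
    (hK : P K ≠ 0) {f : (Fin n → ℝ) → ℝ} (hf : MemLp f 2 P) : MemLp f 2 (cond P K) := by
  unfold ProbabilityTheory.cond
  apply MemLp.smul_measure
  · exact hf.restrict K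
  · exact ENNReal.inv_ne_top.mpr hK

/-- variance of a linear form -/
lemma var_linear {Q : Measure (Fin n → ℝ)} [IsProbabilityMeasure Q] {s : ℝ} (hs : 0 ≤ s)
    (hvar : ∀ θ : EuclideanSpace ℝ (Fin n), ‖θ‖ = 1 → variance (fun x => inner ℝ x θ)
      (Q.map (WithLp.toLp 2)) ≤ s) (θ : Fin n → ℝ) :
    variance (fun x : Fin n → ℝ => ∑ i, θ i * x i) Q ≤ s * ∑ i, θ i ^ 2 := by
  have hto : Measurable (WithLp.toLp 2 : (Fin n → ℝ) → EuclideanSpace ℝ (Fin n)) :=
    (PiLp.continuous_toLp 2 (fun _ : Fin n => ℝ)).measurable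
  set N := ‖(WithLp.toLp 2 θ : EuclideanSpace ℝ (Fin n))‖ with hN
  have hN2 : N ^ 2 = ∑ i, θ i ^ 2 := by
    rw [hN, EuclideanSpace.norm_sq_eq]
    simp
  rw [← hN2]
  rcases eq_or_ne N 0 with h0 | h0
  · have hθ : ∀ i, θ i = 0 := by
      intro i
      have h1 : (WithLp.toLp 2 θ : EuclideanSpace ℝ (Fin n)) = 0 := norm_eq_zero.mp h0
      have h2 := congrArg (fun x : EuclideanSpace ℝ (Fin n) => x i) h1
      simpa using h2
    have e : (fun x : Fin n → ℝ => ∑ i, θ i * x i) = fun _ => 0 := by
      funext x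
      simp [hθ]
    rw [e, h0]
    have : variance (fun _ : Fin n → ℝ => (0 : ℝ)) Q = 0 := variance_zero Q
    rw [this]
    simp
  · have hNpos : 0 < N := lt_of_le_of_ne (norm_nonneg _) (Ne.symm h0)
    set θ' : EuclideanSpace ℝ (Fin n) := N⁻¹ • (WithLp.toLp 2 θ) with hθ'
    have hn : ‖θ'‖ = 1 := by
      rw [hθ', norm_smul, norm_inv, Real.norm_eq_abs, abs_of_pos hNpos, ← hN,
        inv_mul_cancel₀ h0]
    have h1 := hvar θ' hn
    have hme : Measurable (fun x : EuclideanSpace ℝ (Fin n) => (inner ℝ x θ' : ℝ)) :=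
      (continuous_id.inner continuous_const).measurable
    rw [variance_map hme.aemeasurable hto.aemeasurable] at h1
    have e1 : ((fun x : EuclideanSpace ℝ (Fin n) => (inner ℝ x θ' : ℝ)) ∘ (WithLp.toLp 2)) =
        fun x : Fin n → ℝ => N⁻¹ * ∑ i, θ i * x i := by
      funext x
      simp only [Function.comp, hθ', inner_smul_right, PiLp.inner_apply]
      congr 1
    rw [e1, variance_const_mul] at h1
    have h2 : variance (fun x : Fin n → ℝ => ∑ i, θ i * x i) Q =
        N ^ 2 * (N⁻¹ ^ 2 * variance (fun x : Fin n → ℝ => ∑ i, θ i * x i) Q) := by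
      field_simp
    rw [h2, mul_comm s]
    exact mul_le_mul_of_nonneg_left h1 (by positivity)

/-- probability of the wrong sign -/
lemma wrong_sign {Q : Measure (Fin n → ℝ)} [IsProbabilityMeasure Q] {s : ℝ}
    {i : Fin n} (hmem : MemLp (fun x : Fin n → ℝ => x i) 2 Q)
    (hv : variance (fun x : Fin n → ℝ => x i) Q ≤ s) {t : ℝ} (ht : 0 < t) {e : ℝ}
    (he : e = if 0 ≤ ∫ x, x i ∂Q then 1 else -1) :
    Q.real {x | e * x i < 0} ≤ Q.real {x | |x i| ≤ t} + 4 * s / t ^ 2 := by
  set a := ∫ x, x i ∂Q with ha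
  have hsub : {x : Fin n → ℝ | e * x i < 0} ⊆ {x | |x i| ≤ t} ∪ {x | t / 2 ≤ |x i - a|} := by
    intro x hx
    have hx' : e * x i < 0 := hx
    by_cases h1 : |x i| ≤ t
    · left; exact h1
    · right
      push Not at h1
      show t / 2 ≤ |x i - a|
      by_cases h2 : t / 2 ≤ |a|
      · refine h2.trans ?_
        by_cases h3 : 0 ≤ a
        · rw [if_pos h3] at he
          rw [he, one_mul] at hx'
          rw [abs_of_nonneg h3, abs_of_neg (by linarith)]
          linarith
        · rw [if_neg h3] at he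
          push Not at h3
          rw [he] at hx'
          rw [abs_of_neg h3, abs_of_nonneg (by linarith)]
          linarith
      · push Not at h2
        have := abs_sub_abs_le_abs_sub (x i) a
        linarith
  have hch := meas_ge_le_variance_div_sq hmem (c := t / 2) (by positivity)
  rw [← ha] at hch
  have hch2 : Q.real {x | t / 2 ≤ |x i - a|} ≤ 4 * s / t ^ 2 := by
    rw [measureReal_def]
    have h4 := ENNReal.toReal_mono ENNReal.ofReal_ne_top hch
    rw [ENNReal.toReal_ofReal (by have := variance_nonneg (fun x : Fin n → ℝ => x i) Q; positivity)]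
      at h4
    refine h4.trans ?_
    calc variance (fun x : Fin n → ℝ => x i) Q / (t / 2) ^ 2 ≤ s / (t / 2) ^ 2 := by
          apply div_le_div_of_nonneg_right hv (by positivity)
      _ = _ := by field_simp; ring
  calc Q.real {x | e * x i < 0} ≤ Q.real ({x | |x i| ≤ t} ∪ {x | t / 2 ≤ |x i - a|}) :=
        measureReal_mono hsub
    _ ≤ _ := measureReal_union_le _ _
    _ ≤ _ := by linarith

lemma mmC_sq_integrable (r : Fin n × Bool → Fin n × Bool → Prop) :
    Integrable (fun x : EuclideanSpace ℝ (Fin n) => ‖x‖ ^ 2) (mmC (CXE r)) := by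
  have := lgm_prob
  have hto : Measurable (WithLp.toLp 2 : (Fin n → ℝ) → EuclideanSpace ℝ (Fin n)) :=
    (PiLp.continuous_toLp 2 (fun _ : Fin n => ℝ)).measurable
  have hc : Continuous (fun x : EuclideanSpace ℝ (Fin n) => ‖x‖ ^ 2) := by fun_prop
  rw [← mmC_eq', integrable_map_measure hc.aestronglyMeasurable hto.aemeasurable]
  have e : ((fun x : EuclideanSpace ℝ (Fin n) => ‖x‖ ^ 2) ∘ (WithLp.toLp 2)) =
      fun x : Fin n → ℝ => ∑ i, x i ^ 2 := by
    funext x
    simp only [Function.comp]
    rw [EuclideanSpace.norm_sq_eq]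
    simp
  rw [e]
  apply Integrable.restrict
  apply integrable_finsetSum
  intro i _
  exact (coord_memLp lgm_memLp i).integrable_sq

/-- variance of the difference between the two sums -/
theorem var_diff [NullSingletonClass ρ] (h : LC ρ) (he : ρ.map (fun x => -x) = ρ)
    (r : Fin n × Bool → Fin n × Bool → Prop)
    (hpos : (Measure.pi (fun _ : Fin n => ρ)) (CX r) ≠ 0) {w : ℝ} (hw : 0 < w)
    (h3 : ρ.real (Iic w) = 3 / 4) (h2 : MemLp (fun x : ℝ => x) 2 ρ)
    (e : Fin n → ℝ) (hee : ∀ i, e i = 1 ∨ e i = -1) :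
    variance (fun x : Fin n → ℝ => ∑ i, (|x i| - e i * x i))
      (cond (Measure.pi (fun _ : Fin n => ρ)) (CX r)) ≤
      16 * (w / Real.log (3 / 2)) ^ 2 *
        ∑ i, (cond (Measure.pi (fun _ : Fin n => ρ)) (CX r)).real {x | e i * x i < 0} := by
  set P := Measure.pi (fun _ : Fin n => ρ) with hP
  have hQp : IsProbabilityMeasure (cond P (CX r)) := cond_isProbabilityMeasure hpos
  have hto : Measurable (WithLp.toLp 2 : (Fin n → ℝ) → EuclideanSpace ℝ (Fin n)) :=
    (PiLp.continuous_toLp 2 (fun _ : Fin n => ℝ)).measurable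
  have hlog : 0 < Real.log (3 / 2) := Real.log_pos (by norm_num)
  have hLpos : 0 < w / Real.log (3 / 2) := by positivity
  let L : ℝ≥0 := ⟨w / Real.log (3 / 2), hLpos.le⟩
  have hL : (L : ℝ) = w / Real.log (3 / 2) := rfl
  have hlip := Tq_lip_even h he hw h3 hL
  set T := Tq ρ with hT
  have hTm : Measurable T := Tq_mono.measurable
  have hodd : ∀ t, T (-t) = - T t := Tq_odd h he
  have hTl : ∀ s t, |T s - T t| ≤ (w / Real.log (3 / 2)) * |s - t| := by
    intro s t
    have := hlip.dist_le_mul s t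
    rwa [Real.dist_eq, Real.dist_eq, hL] at this
  have hsign : ∀ (i : Fin n) (t : ℝ), e i * T t = T (e i * t) := by
    intro i t
    rcases hee i with h1 | h1
    · rw [h1, one_mul, one_mul]
    · rw [h1, neg_one_mul, neg_one_mul, hodd]
  have habse : ∀ i, |e i| = 1 := fun i => by rcases hee i with h | h <;> rw [h] <;> norm_num
  set ψ : Fin n → ℝ → ℝ := fun i t => |T t| - e i * T t with hψ
  have hψl : ∀ i s t, |ψ i s - ψ i t| ≤ (2 * (w / Real.log (3 / 2))) * |s - t| := by
    intro i s t
    simp only [hψ]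
    have e1 : |T s| - e i * T s - (|T t| - e i * T t) = (|T s| - |T t|) - e i * (T s - T t) := by
      ring
    rw [e1]
    refine (abs_sub _ _).trans ?_
    have h5 := abs_abs_sub_abs_le (T s) (T t)
    have h6 := hTl s t
    rw [abs_mul, habse, one_mul]
    linarith
  have hψ0 : ∀ i t, 0 ≤ e i * t → ψ i t = 0 := by
    intro i t ht
    simp only [hψ]
    have h5 : 0 ≤ e i * T t := by
      rw [hsign]
      exact (Tq_nonneg_iff h he _).mpr ht
    have h6 : |T t| = e i * T t := by
      have : |e i * T t| = |T t| := by rw [abs_mul, habse, one_mul]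
      rw [← this, abs_of_nonneg h5]
    rw [h6, sub_self]
  have hneg : ∀ (i : Fin n) (t : ℝ), e i * T t < 0 ↔ e i * t < 0 := by
    intro i t
    rw [hsign, ← not_le, ← not_le, Tq_nonneg_iff h he]
  set m := mmC (CXE r) with hm
  have hmap := mmC_map (ρ := ρ) Tq_mono hodd Tq_map r
  have hTT : Measurable (TT T : EuclideanSpace ℝ (Fin n) → _) := (TT_lip hlip).continuous.measurable
  have hpo := poinc_sum m (C := 4) (by norm_num) (mmC_poincare r) (mmC_sq_integrable r)
    (Λ := 2 * (w / Real.log (3 / 2))) (by positivity) ψ hψl e hee hψ0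
  -- transfer to P restricted
  have htr : ∀ f : (Fin n → ℝ) → ℝ, Measurable f →
      ∫ x, f (fun i => T (x i)) ∂m = ∫ x in CX r, f x ∂P := by
    intro f hf
    have hof : Measurable (fun x : EuclideanSpace ℝ (Fin n) => f (fun i => x i)) := by
      apply hf.comp
      exact measurable_pi_lambda _ fun i => (EuclideanSpace.proj (𝕜 := ℝ) i).continuous.measurable
    have h5 : ∫ x, (fun x : EuclideanSpace ℝ (Fin n) => f (fun i => x i)) x ∂(m.map (TT T)) =
        ∫ x, f (fun i => T (x i)) ∂m := by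
      rw [integral_map hTT.aemeasurable hof.aestronglyMeasurable]
      rfl
    rw [← h5, hmap, integral_map hto.aemeasurable hof.aestronglyMeasurable]
  have hDm : Measurable (fun x : Fin n → ℝ => ∑ i, (|x i| - e i * x i)) := by
    apply Finset.measurable_sum
    intro i _
    exact (measurable_pi_apply i).abs.sub ((measurable_pi_apply i).const_mul _)
  have hms : ∀ i, MeasurableSet {x : Fin n → ℝ | e i * x i < 0} := fun i =>
    measurableSet_lt ((measurable_pi_apply i).const_mul _) measurable_const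
  have hIm : Measurable (fun x : Fin n → ℝ => ∑ i, (if e i * x i < 0 then
      (2 * (w / Real.log (3 / 2))) ^ 2 else 0)) := by
    apply Finset.measurable_sum
    intro i _
    exact Measurable.ite (hms i) measurable_const measurable_const
  have e1 : m.real Set.univ = P.real (CX r) := by
    have h5 : (m.map (TT T)).real Set.univ = m.real Set.univ := by
      rw [map_measureReal_apply hTT MeasurableSet.univ, Set.preimage_univ]
    rw [← h5, hmap, map_measureReal_apply hto MeasurableSet.univ, Set.preimage_univ,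
      measureReal_restrict_apply_univ]
  have e2 := htr (fun x => (∑ i, (|x i| - e i * x i)) ^ 2) (hDm.pow_const 2)
  have e3 := htr (fun x => ∑ i, (|x i| - e i * x i)) hDm
  have e4 := htr (fun x => ∑ i, (if e i * x i < 0 then
      (2 * (w / Real.log (3 / 2))) ^ 2 else 0)) hIm
  simp only [hneg] at e4
  simp only [hψ] at hpo
  rw [e1, e2, e3, e4] at hpo
  have hMpos : 0 < P.real (CX r) := by
    rw [measureReal_def]
    exact ENNReal.toReal_pos hpos (measure_ne_top _ _)
  set M := P.real (CX r) with hM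
  have hmem : MemLp (fun x : Fin n → ℝ => ∑ i, (|x i| - e i * x i)) 2 (cond P (CX r)) := by
    apply memLp_finsetSum
    intro i _
    have h5 := cond_memLp hpos (coord_memLp h2 i)
    exact h5.abs.sub (h5.const_mul _)
  rw [variance_eq_sub hmem]
  simp only [Pi.pow_apply]
  rw [cond_integral, cond_integral]
  have e5 : ∑ i, (cond P (CX r)).real {x | e i * x i < 0} = M⁻¹ *
      ∫ x in CX r, ∑ i, (if e i * x i < 0 then (1 : ℝ) else 0) ∂P := by
    rw [← cond_integral, integral_finsetSum]
    · apply Finset.sum_congr rfl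
      intro i _
      rw [← integral_indicator_one (hms i)]
      apply integral_congr_ae
      apply ae_of_all
      intro x
      beta_reduce
      by_cases hx : e i * x i < 0
      · rw [Set.indicator_of_mem (show x ∈ {x | e i * x i < 0} from hx), if_pos hx]; rfl
      · rw [Set.indicator_of_notMem (show x ∉ {x | e i * x i < 0} from hx), if_neg hx]
    · intro i _
      have hmm : Measurable (fun x : Fin n → ℝ => if e i * x i < 0 then (1 : ℝ) else 0) :=
        Measurable.ite (hms i) measurable_const measurable_const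
      refine (integrable_const (1 : ℝ)).mono' hmm.aestronglyMeasurable (ae_of_all _ fun x => ?_)
      rw [Real.norm_eq_abs]
      split_ifs <;> simp
  rw [e5]
  have e6 : ∫ x in CX r, ∑ i, (if e i * x i < 0 then (2 * (w / Real.log (3 / 2))) ^ 2 else 0) ∂P =
      (2 * (w / Real.log (3 / 2))) ^ 2 *
        ∫ x in CX r, ∑ i, (if e i * x i < 0 then (1 : ℝ) else 0) ∂P := by
    rw [← integral_const_mul]
    congr 1
    funext x
    rw [Finset.mul_sum]
    apply Finset.sum_congr rfl
    intro i _
    split_ifs <;> ring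
  rw [e6] at hpo
  set I2 := ∫ x in CX r, (∑ i, (|x i| - e i * x i)) ^ 2 ∂P
  set I1 := ∫ x in CX r, ∑ i, (|x i| - e i * x i) ∂P
  set J := ∫ x in CX r, ∑ i, (if e i * x i < 0 then (1 : ℝ) else 0) ∂P
  have e7 : M⁻¹ * I2 - (M⁻¹ * I1) ^ 2 = (M⁻¹) ^ 2 * (M * I2 - I1 ^ 2) := by
    field_simp
  have e8 : 16 * (w / Real.log (3 / 2)) ^ 2 * (M⁻¹ * J) =
      (M⁻¹) ^ 2 * (4 * (M * ((2 * (w / Real.log (3 / 2))) ^ 2 * J))) := by
    field_simp
    ring
  rw [e7, e8]
  exact mul_le_mul_of_nonneg_left hpo (by positivity)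

/-- lower bound on the largest variance -/
theorem cov_lower [NullSingletonClass ρ] (h : LC ρ) (he : ρ.map (fun x => -x) = ρ)
    (r : Fin n × Bool → Fin n × Bool → Prop) (hn : 0 < n)
    (hpos : (Measure.pi (fun _ : Fin n => ρ)) (CX r) ≠ 0) {w : ℝ} (hw : 0 < w)
    (h3 : ρ.real (Iic w) = 3 / 4) (h2 : MemLp (fun x : ℝ => x) 2 ρ) {s : ℝ} (hs : 0 ≤ s)
    (hvar : ∀ θ : EuclideanSpace ℝ (Fin n), ‖θ‖ = 1 → variance (fun x => inner ℝ x θ)
      ((cond (Measure.pi (fun _ : Fin n => ρ)) (CX r)).map (WithLp.toLp 2)) ≤ s) :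
    w ^ 2 ≤ 10 ^ 14 * s := by
  set P := Measure.pi (fun _ : Fin n => ρ) with hP
  set Q := cond P (CX r) with hQ
  have hQp : IsProbabilityMeasure Q := cond_isProbabilityMeasure hpos
  have hnpos : (0 : ℝ) < n := by exact_mod_cast hn
  have hmemi : ∀ i, MemLp (fun x : Fin n → ℝ => x i) 2 Q := fun i =>
    cond_memLp hpos (coord_memLp h2 i)
  have hvi : ∀ i, variance (fun x : Fin n → ℝ => x i) Q ≤ s := by
    intro i
    have h5 := var_linear hs hvar (Pi.single i 1)
    have e1 : (fun x : Fin n → ℝ => ∑ j, (Pi.single i (1 : ℝ) : Fin n → ℝ) j * x j) =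
        fun x => x i := by
      funext x
      rw [Finset.sum_eq_single i]
      · simp
      · intro j _ hj
        rw [Pi.single_eq_of_ne hj]; simp
      · intro hh; exact absurd (Finset.mem_univ i) hh
    have e2 : ∑ j, (Pi.single i (1 : ℝ) : Fin n → ℝ) j ^ 2 = 1 := by
      rw [Finset.sum_eq_single i]
      · simp
      · intro j _ hj
        rw [Pi.single_eq_of_ne hj]; simp
      · intro hh; exact absurd (Finset.mem_univ i) hh
    rwa [e1, e2, mul_one] at h5
  set e : Fin n → ℝ := fun i => if 0 ≤ ∫ x, x i ∂Q then 1 else -1 with hedef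
  have hee : ∀ i, e i = 1 ∨ e i = -1 := by
    intro i
    simp only [hedef]
    split_ifs
    · left; rfl
    · right; rfl
  -- variance of the sum of absolute values
  have hF := even_sum_variance ρ he r hpos (φ := fun t => |t|) measurable_id.abs
    (fun t => abs_neg t) h2.abs
  have hva := var_abs_lower h he hw h3 h2
  -- decomposition
  have hg : variance (fun x : Fin n → ℝ => ∑ i, e i * x i) Q ≤ s * n := by
    have h5 := var_linear hs hvar e
    have e2 : ∑ j, e j ^ 2 = n := by
      have : ∀ j, e j ^ 2 = 1 := fun j => by rcases hee j with h | h <;> rw [h] <;> norm_num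
      simp [this]
    rwa [e2] at h5
  have hD := var_diff h he r hpos hw h3 h2 e hee
  rw [← hP, ← hQ] at hD
  have hmg : MemLp (fun x : Fin n → ℝ => ∑ i, e i * x i) 2 Q :=
    memLp_finsetSum _ fun i _ => (hmemi i).const_mul _
  have hmD : MemLp (fun x : Fin n → ℝ => ∑ i, (|x i| - e i * x i)) 2 Q :=
    memLp_finsetSum _ fun i _ => (hmemi i).abs.sub ((hmemi i).const_mul _)
  have hadd := variance_add_le hmg hmD
  have e3 : (fun x : Fin n → ℝ => ∑ i, e i * x i + ∑ i, (|x i| - e i * x i)) =
      fun x => ∑ i, |x i| := by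
    funext x
    rw [← Finset.sum_add_distrib]
    apply Finset.sum_congr rfl
    intro i _
    ring
  rw [e3, hF] at hadd
  -- wrong signs
  have hsum : ∀ κ : ℝ, 0 < κ → κ < 1 → ∑ i, Q.real {x | e i * x i < 0} ≤
      n * κ + n * (4 * s / (κ * w) ^ 2) := by
    intro κ hk0 hk1
    have h5 : ∀ i, Q.real {x | e i * x i < 0} ≤ Q.real {x | |x i| ≤ κ * w} +
        4 * s / (κ * w) ^ 2 := fun i =>
      wrong_sign (hmemi i) (hvi i) (by positivity) rfl
    refine (Finset.sum_le_sum fun i _ => h5 i).trans ?_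
    rw [Finset.sum_add_distrib, Finset.sum_const, Finset.card_univ, Fintype.card_fin,
      nsmul_eq_mul]
    apply add_le_add_left
    have hmsb : MeasurableSet {t : ℝ | |t| ≤ κ * w} :=
      measurableSet_le measurable_id.abs measurable_const
    have h6 := even_sum_integral ρ he r hpos
      (φ := {t : ℝ | |t| ≤ κ * w}.indicator (fun _ => (1 : ℝ)))
      (measurable_const.indicator hmsb) (fun t => by
        by_cases ht : |t| ≤ κ * w
        · rw [Set.indicator_of_mem (show t ∈ {t : ℝ | |t| ≤ κ * w} from ht),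
            Set.indicator_of_mem (show -t ∈ {t : ℝ | |t| ≤ κ * w} by
              show |(-t)| ≤ κ * w
              rwa [abs_neg])]
        · rw [Set.indicator_of_notMem (show t ∉ {t : ℝ | |t| ≤ κ * w} from ht),
            Set.indicator_of_notMem (show -t ∉ {t : ℝ | |t| ≤ κ * w} by
              show ¬ |(-t)| ≤ κ * w
              rwa [abs_neg])])
      ((integrable_const _).indicator hmsb)
    rw [integral_indicator_const _ hmsb, smul_eq_mul, mul_one] at h6
    have h7 := small_ball h he (w := w) (by rw [Ici_eq, h3]; norm_num) hk0 hk1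
    have h8 : ∑ i, Q.real {x | |x i| ≤ κ * w} =
        ∫ x, ∑ i, {t : ℝ | |t| ≤ κ * w}.indicator (fun _ => (1 : ℝ)) (x i) ∂Q := by
      rw [integral_finsetSum]
      · apply Finset.sum_congr rfl
        intro i _
        have hmi : MeasurableSet {x : Fin n → ℝ | |x i| ≤ κ * w} :=
          measurableSet_le (measurable_pi_apply i).abs measurable_const
        rw [← integral_indicator_one hmi]
        rfl
      · intro i _
        have hmm : Measurable (fun x : Fin n → ℝ =>
            {t : ℝ | |t| ≤ κ * w}.indicator (fun _ => (1 : ℝ)) (x i)) :=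
          (measurable_const.indicator hmsb).comp (measurable_pi_apply i)
        refine (integrable_const (1 : ℝ)).mono' hmm.aestronglyMeasurable (ae_of_all _ fun x => ?_)
        rw [Real.norm_eq_abs, abs_of_nonneg (Set.indicator_nonneg (fun _ _ => zero_le_one) _)]
        exact Set.indicator_le_self' (fun _ _ => zero_le_one) _
    rw [h8, h6]
    exact mul_le_mul_of_nonneg_left h7 hnpos.le
  have hk := hsum (1 / 28800) (by norm_num) (by norm_num)
  have hlog := log32
  have hL2 : (w / Real.log (3 / 2)) ^ 2 ≤ 25 / 4 * w ^ 2 := by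
    have h5 : w / Real.log (3 / 2) ≤ w / (2 / 5) := by
      apply div_le_div_of_nonneg_left hw.le (by norm_num) hlog
    have h6 : 0 ≤ w / Real.log (3 / 2) := by
      have : 0 < Real.log (3 / 2) := by linarith
      positivity
    calc (w / Real.log (3 / 2)) ^ 2 ≤ (w / (2 / 5)) ^ 2 := pow_le_pow_left₀ h6 h5 2
      _ = _ := by ring
  set S := ∑ i, Q.real {x | e i * x i < 0} with hS
  have hS0 : 0 ≤ S := Finset.sum_nonneg fun i _ => measureReal_nonneg
  have hD2 : variance (fun x : Fin n → ℝ => ∑ i, (|x i| - e i * x i)) Q ≤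
      16 * (25 / 4 * w ^ 2) * (n * (1 / 28800) + n * (4 * s / ((1 / 28800) * w) ^ 2)) := by
    refine hD.trans ?_
    apply mul_le_mul _ hk hS0 (by positivity)
    linarith
  have e9 : 16 * (25 / 4 * w ^ 2) * (n * (1 / 28800) + n * (4 * s / ((1 / 28800) * w) ^ 2)) =
      n * (w ^ 2 / 288 + 400 * 28800 ^ 2 * s) := by
    field_simp
    ring
  rw [e9] at hD2
  have h10 : (n : ℝ) * (w ^ 2 / 72) ≤ n * variance (fun t : ℝ => |t|) ρ :=
    mul_le_mul_of_nonneg_left hva hnpos.le
  have h11 : (n : ℝ) * (w ^ 2 / 72) ≤ n * (2 * s + 2 * (w ^ 2 / 288 + 400 * 28800 ^ 2 * s)) := by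
    calc (n : ℝ) * (w ^ 2 / 72) ≤ n * variance (fun t : ℝ => |t|) ρ := h10
      _ ≤ 2 * variance (fun x : Fin n → ℝ => ∑ i, e i * x i) Q +
          2 * variance (fun x : Fin n → ℝ => ∑ i, (|x i| - e i * x i)) Q := hadd
      _ ≤ 2 * (s * n) + 2 * (n * (w ^ 2 / 288 + 400 * 28800 ^ 2 * s)) := by linarith
      _ = _ := by ring
  have h12 := le_of_mul_le_mul_left h11 hnpos
  nlinarith

end Pool.Agent.Lib.MP_6d896a_gt
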