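import Mathlib
import Pool.Agent.Lib.MP_6d896a_gt.Cone

/-!
Conditioning exchangeable variables on order constraints does not change symmetric events.
-/

namespace Pool.Agent.Lib.MP_6d896a_gt

open MeasureTheory ProbabilityTheory
open scoped ENNReal

variable {n : ℕ} (ρ : Measure ℝ) [IsProbabilityMeasure ρ]

lemma perm_measurable (σ : Equiv.Perm (Fin n)) :
    Measurable (fun (x : Fin n → ℝ) i => x (σ i)) :=
  measurable_pi_lambda _ fun i => measurable_pi_apply (σ i)

lemma perm_map (σ : Equiv.Perm (Fin n)) :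
    (Measure.pi (fun _ : Fin n => ρ)).map (fun (x : Fin n → ℝ) i => x (σ i)) =
      Measure.pi (fun _ : Fin n => ρ) := by
  symm
  apply Measure.pi_eq
  intro s hs
  rw [Measure.map_apply (perm_measurable σ) (MeasurableSet.univ_pi hs)]
  have h1 : (fun (x : Fin n → ℝ) i => x (σ i)) ⁻¹' (Set.univ.pi s) =
      Set.univ.pi (fun j => s (σ⁻¹ j)) := by
    ext x
    simp only [Set.mem_preimage, Set.mem_pi, Set.mem_univ, true_implies]
    constructor
    · intro h j
      have := h (σ⁻¹ j)
      simpa using this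
    · intro h i
      have := h (σ i)
      rwa [show σ⁻¹ (σ i) = i from σ.symm_apply_apply i] at this
  rw [h1, Measure.pi_pi]
  exact Equiv.prod_comp σ⁻¹ (fun i => ρ (s i))

open Classical in
/-- number of linear extensions -/
noncomputable def NE (R : Fin n → Fin n → Prop) : ℕ :=
  (Finset.univ.filter fun π : Equiv.Perm (Fin n) => ∀ i j, R i j → π i ≤ π j).card

open Classical in
lemma count_perm (R : Fin n → Fin n → Prop) {x : Fin n → ℝ} (hx : Function.Injective x) :
    (Finset.univ.filter fun σ : Equiv.Perm (Fin n) => (fun i => x (σ i)) ∈ OC R).card = NE R := by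
  unfold NE
  set τ := Tuple.sort x with hτ
  have hmono : Monotone (x ∘ τ) := Tuple.monotone_sort x
  have hstrict : StrictMono (x ∘ τ) := hmono.strictMono_of_injective (hx.comp τ.injective)
  have hle : ∀ a b : Fin n, x a ≤ x b ↔ τ⁻¹ a ≤ τ⁻¹ b := by
    intro a b
    have := hstrict.le_iff_le (a := τ⁻¹ a) (b := τ⁻¹ b)
    simp only [Function.comp] at this
    rwa [show τ (τ⁻¹ a) = a from τ.apply_symm_apply a,
      show τ (τ⁻¹ b) = b from τ.apply_symm_apply b] at this
  apply Finset.card_bij' (fun σ _ => τ⁻¹ * σ) (fun π _ => τ * π)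
  · intro σ hσ
    simp only [Finset.mem_filter, Finset.mem_univ, true_and] at hσ ⊢
    intro i j hij
    exact (hle _ _).mp (hσ i j hij)
  · intro π hπ
    simp only [Finset.mem_filter, Finset.mem_univ, true_and] at hπ ⊢
    intro i j hij
    show x ((τ * π) i) ≤ x ((τ * π) j)
    rw [hle]
    have := hπ i j hij
    simpa using this
  · intro σ _
    simp
  · intro π _
    simp

lemma inj_ae [NullSingletonClass ρ] :
    ∀ᵐ x ∂(Measure.pi (fun _ : Fin n => ρ)), Function.Injective x := by
  have hall : ∀ᵐ x ∂(Measure.pi (fun _ : Fin n => ρ)), ∀ i j, i ≠ j → x i ≠ x j := by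
    rw [ae_all_iff]; intro i
    rw [ae_all_iff]; intro j
    by_cases hij : i = j
    · exact ae_of_all _ fun x h => absurd hij h
    · filter_upwards [pi_ne ρ hij] with x hx _
      exact hx
  filter_upwards [hall] with x hx i j hij
  by_contra hne
  exact hx i j hne hij

lemma sym_count [NullSingletonClass ρ] (R : Fin n → Fin n → Prop) {B : Set (Fin n → ℝ)}
    (hB : MeasurableSet B)
    (hsym : ∀ (σ : Equiv.Perm (Fin n)) (x : Fin n → ℝ), (fun i => x (σ i)) ∈ B ↔ x ∈ B) :
    (Nat.factorial n : ℝ≥0∞) * (Measure.pi (fun _ : Fin n => ρ)) (OC R ∩ B) =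
      (NE R : ℝ≥0∞) * (Measure.pi (fun _ : Fin n => ρ)) B := by
  classical
  set P := Measure.pi (fun _ : Fin n => ρ) with hP
  have hOC := OC_measurable R
  have h1 : ∀ σ : Equiv.Perm (Fin n), P (OC R ∩ B) =
      ∫⁻ x in B, (OC R).indicator 1 (fun i => x (σ i)) ∂P := by
    intro σ
    have e1 : P (OC R ∩ B) = P ((fun (x : Fin n → ℝ) i => x (σ i)) ⁻¹' (OC R ∩ B)) := by
      rw [← Measure.map_apply (perm_measurable σ) (hOC.inter hB), hP, perm_map]
    rw [e1]
    have e2 : ((fun (x : Fin n → ℝ) i => x (σ i)) ⁻¹' (OC R ∩ B)) =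
        ((fun (x : Fin n → ℝ) i => x (σ i)) ⁻¹' (OC R)) ∩ B := by
      ext x
      simp only [Set.mem_preimage, Set.mem_inter_iff]
      rw [hsym]
    rw [e2, ← Measure.restrict_apply ((perm_measurable σ) hOC),
      ← lintegral_indicator_one ((perm_measurable σ) hOC)]
    rfl
  have h2 : (Nat.factorial n : ℝ≥0∞) * P (OC R ∩ B) =
      ∑ _σ : Equiv.Perm (Fin n), P (OC R ∩ B) := by
    rw [Finset.sum_const, Finset.card_univ, Fintype.card_perm, Fintype.card_fin, nsmul_eq_mul]
  rw [h2, Finset.sum_congr rfl (fun σ _ => h1 σ), ← lintegral_finsetSum]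
  · have h3 : ∀ᵐ x ∂(P.restrict B), ∑ σ : Equiv.Perm (Fin n),
        (OC R).indicator (1 : (Fin n → ℝ) → ℝ≥0∞) (fun i => x (σ i)) = NE R := by
      filter_upwards [ae_restrict_of_ae (inj_ae ρ)] with x hx
      rw [← count_perm R hx, Finset.card_filter]
      push_cast
      apply Finset.sum_congr rfl
      intro σ _
      rw [Set.indicator_apply]
      simp
    rw [lintegral_congr_ae h3, setLIntegral_const]
  · intro σ _
    have hm : Measurable ((OC R).indicator (1 : (Fin n → ℝ) → ℝ≥0∞)) :=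
      measurable_one.indicator hOC
    exact hm.comp (perm_measurable σ)

theorem sym_indep [NullSingletonClass ρ] (R : Fin n → Fin n → Prop) {B : Set (Fin n → ℝ)}
    (hB : MeasurableSet B)
    (hsym : ∀ (σ : Equiv.Perm (Fin n)) (x : Fin n → ℝ), (fun i => x (σ i)) ∈ B ↔ x ∈ B) :
    (Measure.pi (fun _ : Fin n => ρ)) (OC R ∩ B) =
      (Measure.pi (fun _ : Fin n => ρ)) (OC R) * (Measure.pi (fun _ : Fin n => ρ)) B := by
  have h1 := sym_count ρ R hB hsym
  have h2 := sym_count ρ R (B := Set.univ) MeasurableSet.univ (fun _ _ => by simp)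
  rw [Set.inter_univ, measure_univ, mul_one] at h2
  rw [← h2, mul_assoc] at h1
  have h3 : (Nat.factorial n : ℝ≥0∞) ≠ 0 := by
    exact_mod_cast Nat.factorial_ne_zero n
  have h4 : (Nat.factorial n : ℝ≥0∞) ≠ ⊤ := ENNReal.natCast_ne_top _
  exact (ENNReal.mul_right_inj h3 h4).mp h1

/-- the sum -/
lemma sum_map [NullSingletonClass ρ] (R : Fin n → Fin n → Prop)
    (hpos : (Measure.pi (fun _ : Fin n => ρ)) (OC R) ≠ 0) :
    (cond (Measure.pi (fun _ : Fin n => ρ)) (OC R)).map (fun x => ∑ i, x i) =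
      (Measure.pi (fun _ : Fin n => ρ)).map (fun x => ∑ i, x i) := by
  have hm : Measurable (fun x : Fin n → ℝ => ∑ i, x i) :=
    Finset.measurable_sum _ fun i _ => measurable_pi_apply i
  ext B hB
  rw [Measure.map_apply hm hB, Measure.map_apply hm hB, cond_apply (OC_measurable R)]
  rw [sym_indep ρ R (hm hB), ← mul_assoc, ENNReal.inv_mul_cancel hpos (measure_ne_top _ _),
    one_mul]
  intro σ x
  simp only [Set.mem_preimage]
  rw [Equiv.sum_comp σ x]

theorem sum_variance [NullSingletonClass ρ] (R : Fin n → Fin n → Prop)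
    (hpos : (Measure.pi (fun _ : Fin n => ρ)) (OC R) ≠ 0) (h2 : MemLp (fun x : ℝ => x) 2 ρ) :
    variance (fun x : Fin n → ℝ => ∑ i, x i) (cond (Measure.pi (fun _ : Fin n => ρ)) (OC R)) =
      n * variance (fun x : ℝ => x) ρ := by
  have hm : Measurable (fun x : Fin n → ℝ => ∑ i, x i) :=
    Finset.measurable_sum _ fun i _ => measurable_pi_apply i
  have hid : IdentDistrib (fun x : Fin n → ℝ => ∑ i, x i) (fun x : Fin n → ℝ => ∑ i, x i)
      (cond (Measure.pi (fun _ : Fin n => ρ)) (OC R)) (Measure.pi (fun _ : Fin n => ρ)) :=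
    ⟨hm.aemeasurable, hm.aemeasurable, sum_map ρ R hpos⟩
  rw [hid.variance_eq]
  have h3 := variance_sum_pi (μ := fun _ : Fin n => ρ) (X := fun _ : Fin n => fun x : ℝ => x)
    (fun _ => h2)
  have e : (fun x : Fin n → ℝ => ∑ i, x i) = ∑ i, fun x : Fin n → ℝ => x i := by
    funext x; simp
  rw [e]
  refine h3.trans ?_
  rw [Finset.sum_const, Finset.card_univ, Fintype.card_fin, nsmul_eq_mul]

end Pool.Agent.Lib.MP_6d896a_gt
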