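import Mathlib
import Pool.Agent.Lib.MP_6d896a_gt.OneD3
import Pool.Agent.Lib.MP_6d896a_gt.Exch

/-!
The isoperimetric inequality for independent log-concave variables conditioned on order constraints.
-/

namespace Pool.Agent.Lib.MP_6d896a_gt

open MeasureTheory ProbabilityTheory Real Filter Topology Set
open scoped ENNReal NNReal Pointwise

/-- a log-concave probability measure with an atom is a Dirac mass -/
lemma lc_atom {ρ : Measure ℝ} [IsProbabilityMeasure ρ] (h : LC ρ) {a : ℝ} (ha : ρ {a} ≠ 0) :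
    ρ {a}ᶜ = 0 := by
  by_contra hcon
  have hpos : 0 < ρ {a}ᶜ := pos_iff_ne_zero.mpr hcon
  obtain ⟨A, hAsub, hAc, hA⟩ := isOpen_compl_singleton.exists_lt_isCompact hpos
  obtain ⟨D, hD⟩ := hAc.isBounded.subset_closedBall a
  set D' := max D 0 with hD'
  have hD0 : 0 ≤ D' := le_max_right _ _
  set B : ℕ → Set ℝ := fun k => {x | x ≠ a ∧ |x - a| ≤ D' / ((k : ℝ) + 2)} with hB
  have hBm : ∀ k, MeasurableSet (B k) := by
    intro k
    apply MeasurableSet.inter
    · exact (measurableSet_singleton a).compl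
    · exact measurableSet_le (f := fun x : ℝ => |x - a|)
        (measurable_id.sub_const a).abs measurable_const
  have hanti : Antitone B := by
    intro k l hkl x hx
    refine ⟨hx.1, hx.2.trans ?_⟩
    have : (k : ℝ) ≤ l := by exact_mod_cast hkl
    apply div_le_div_of_nonneg_left hD0 (by positivity) (by linarith)
  have hinter : (⋂ k, B k) = ∅ := by
    ext x
    simp only [mem_iInter, mem_empty_iff_false, iff_false]
    intro hx
    have hne : x ≠ a := (hx 0).1
    have hlim : Tendsto (fun k : ℕ => D' / ((k : ℝ) + 2)) atTop (𝓝 0) := by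
      apply Tendsto.div_atTop tendsto_const_nhds
      exact tendsto_atTop_add_const_right _ _ tendsto_natCast_atTop_atTop
    have h1 : |x - a| ≤ 0 := ge_of_tendsto hlim (Eventually.of_forall fun k => (hx k).2)
    have h2 : x - a = 0 := abs_nonpos_iff.mp h1
    exact hne (by linarith)
  have hlim := tendsto_measure_iInter_atTop (μ := ρ) (fun k => (hBm k).nullMeasurableSet) hanti
    ⟨0, measure_ne_top _ _⟩
  rw [hinter, measure_empty] at hlim
  have hlow : ∀ k : ℕ, min (ρ A) (ρ {a}) ≤ ρ (B k) := by
    intro k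
    set t : ℝ := 1 / ((k : ℝ) + 2) with ht
    have hk : (0 : ℝ) < (k : ℝ) + 2 := by positivity
    have ht0 : 0 < t := by positivity
    have ht1 : t < 1 := by
      rw [ht, div_lt_one hk]
      have : (0 : ℝ) ≤ k := Nat.cast_nonneg k
      linarith
    have h1 := h A {a} t hAc isCompact_singleton ht0 ht1
    have h2 : t • A + (1 - t) • ({a} : Set ℝ) ⊆ B k := by
      rintro z ⟨u, ⟨x, hx, rfl⟩, v, ⟨b, hb, rfl⟩, rfl⟩
      have hb' : b = a := hb
      have hxa : x ≠ a := hAsub hx
      have hdist : |x - a| ≤ D' := by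
        have := hD hx
        rw [Metric.mem_closedBall, Real.dist_eq] at this
        exact this.trans (le_max_left _ _)
      have e : (t • x + (1 - t) • b) - a = t * (x - a) := by
        rw [hb', smul_eq_mul, smul_eq_mul]; ring
      constructor
      · show t • x + (1 - t) • b ≠ a
        intro hc
        have : t * (x - a) = 0 := by rw [← e, hc, sub_self]
        rcases mul_eq_zero.mp this with h3 | h3
        · exact ht0.ne' h3
        · exact hxa (by linarith)
      · show |(t • x + (1 - t) • b) - a| ≤ D' / ((k : ℝ) + 2)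
        have e9 : D' / ((k : ℝ) + 2) = t * D' := by rw [ht]; ring
        rw [e, abs_mul, abs_of_pos ht0, e9]
        exact mul_le_mul_of_nonneg_left hdist ht0.le
    refine le_trans ?_ (h1.trans (measure_mono h2))
    set mn := min (ρ A) (ρ {a}) with hmn
    have hmn0 : mn ≠ 0 := by
      rw [hmn]
      exact (lt_min (lt_of_le_of_lt zero_le hA) (pos_iff_ne_zero.mpr ha)).ne'
    have hmnt : mn ≠ ⊤ := ne_top_of_le_ne_top (measure_ne_top ρ A) (min_le_left _ _)
    calc mn = mn ^ t * mn ^ (1 - t) := by
          rw [← ENNReal.rpow_add _ _ hmn0 hmnt]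
          simp
      _ ≤ (ρ A) ^ t * (ρ {a}) ^ (1 - t) := by
          apply mul_le_mul'
          · exact ENNReal.rpow_le_rpow (min_le_left _ _) ht0.le
          · exact ENNReal.rpow_le_rpow (min_le_right _ _) (by linarith)
  have h5 : min (ρ A) (ρ {a}) ≤ 0 := ge_of_tendsto hlim (Eventually.of_forall hlow)
  have h6 : 0 < min (ρ A) (ρ {a}) :=
    lt_min (lt_of_le_of_lt zero_le hA) (pos_iff_ne_zero.mpr ha)
  exact absurd h5 (not_le.mpr h6)

variable {n : ℕ}

/-- the case of an atom is trivial -/
lemma dirac_case {ρ : Measure ℝ} [IsProbabilityMeasure ρ] (h : LC ρ) {a : ℝ} (ha : ρ {a} ≠ 0)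
    (R : Fin n → Fin n → Prop) {S : Set (EuclideanSpace ℝ (Fin n))} (hS : MeasurableSet S) :
    min (((cond (Measure.pi (fun _ : Fin n => ρ)) (OC R)).map (WithLp.toLp 2)) S)
      (((cond (Measure.pi (fun _ : Fin n => ρ)) (OC R)).map (WithLp.toLp 2)) Sᶜ) = 0 := by
  have hto : Measurable (WithLp.toLp 2 : (Fin n → ℝ) → EuclideanSpace ℝ (Fin n)) :=
    (PiLp.continuous_toLp 2 (fun _ : Fin n => ℝ)).measurable
  set P := Measure.pi (fun _ : Fin n => ρ) with hP
  set x0 : Fin n → ℝ := fun _ => a with hx0
  have h1 : ρ {a} = 1 := (prob_compl_eq_zero_iff (measurableSet_singleton a)).mp (lc_atom h ha)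
  have h2 : P {x0} = 1 := by
    have e : ({x0} : Set (Fin n → ℝ)) = Set.univ.pi (fun _ => {a}) := by
      rw [Set.univ_pi_singleton]
    rw [e, hP, Measure.pi_pi]
    simp [h1]
  have h3 : P {x0}ᶜ = 0 := (prob_compl_eq_zero_iff (measurableSet_singleton x0)).mpr h2
  have h4 : (cond P (OC R)) {x0}ᶜ = 0 := cond_absolutelyContinuous h3
  rw [Measure.map_apply hto hS, Measure.map_apply hto hS.compl]
  by_cases hx : WithLp.toLp 2 x0 ∈ S
  · have h5 : (cond P (OC R)) ((WithLp.toLp 2) ⁻¹' Sᶜ) = 0 := by
      apply measure_mono_null _ h4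
      intro y hy hy0
      have hy0' : y = x0 := hy0
      subst hy0'
      exact hy hx
    rw [h5]; simp
  · have h5 : (cond P (OC R)) ((WithLp.toLp 2) ⁻¹' S) = 0 := by
      apply measure_mono_null _ h4
      intro y hy hy0
      have hy0' : y = x0 := hy0
      subst hy0'
      exact hx hy
    rw [h5]; simp

/-- Main inequality in the atomless case -/
theorem main_atomless {ρ : Measure ℝ} [IsProbabilityMeasure ρ] [NullSingletonClass ρ] (h : LC ρ)
    (R : Fin n → Fin n → Prop) (hpos : (Measure.pi (fun _ : Fin n => ρ)) (OC R) ≠ 0)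
    {s : ℝ} (hs : 0 < s)
    (hvar : ∀ θ : EuclideanSpace ℝ (Fin n), ‖θ‖ = 1 → variance (fun x => inner ℝ x θ)
      ((cond (Measure.pi (fun _ : Fin n => ρ)) (OC R)).map (WithLp.toLp 2)) ≤ s)
    {S : Set (EuclideanSpace ℝ (Fin n))} (hS : MeasurableSet S) :
    ENNReal.ofReal (Real.log (3 / 2) / (2 * π * Real.sqrt 6) / Real.sqrt s) *
      min (((cond (Measure.pi (fun _ : Fin n => ρ)) (OC R)).map (WithLp.toLp 2)) S)
        (((cond (Measure.pi (fun _ : Fin n => ρ)) (OC R)).map (WithLp.toLp 2)) Sᶜ) ≤
      Filter.liminf (fun ε : ℝ =>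
        (((cond (Measure.pi (fun _ : Fin n => ρ)) (OC R)).map (WithLp.toLp 2))
          (Metric.thickening ε S) -
        ((cond (Measure.pi (fun _ : Fin n => ρ)) (OC R)).map (WithLp.toLp 2)) S) /
          ENNReal.ofReal ε) (𝓝[>] 0) := by
  set P := Measure.pi (fun _ : Fin n => ρ) with hP
  set μ := (cond P (OC R)).map (WithLp.toLp 2) with hμ
  have hto : Measurable (WithLp.toLp 2 : (Fin n → ℝ) → EuclideanSpace ℝ (Fin n)) :=
    (PiLp.continuous_toLp 2 (fun _ : Fin n => ℝ)).measurable
  have hcp : IsProbabilityMeasure (cond P (OC R)) := cond_isProbabilityMeasure hpos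
  have hμp : IsProbabilityMeasure μ := Measure.isProbabilityMeasure_map hto.aemeasurable
  -- the trivial case
  rcases Nat.eq_zero_or_pos n with hn | hn
  · subst hn
    have hmin : min (μ S) (μ Sᶜ) = 0 := by
      rcases S.eq_empty_or_nonempty with h0 | h0
      · rw [h0, measure_empty]; simp
      · have : Sᶜ = ∅ := by
          ext x
          obtain ⟨y, hy⟩ := h0
          have : x = y := Subsingleton.elim _ _
          simp [this, hy]
        rw [this, measure_empty]; simp
    rw [hmin, mul_zero]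
    exact zero_le
  obtain ⟨L, hL, hlip, hmem, hLvar⟩ := Tq_lip h
  -- isoperimetry
  have hne : mmE R ≠ 0 := by
    intro h0
    have h1 := mmE_map (Tq_mono (ρ := ρ)) Tq_map R
    rw [h0, Measure.map_zero] at h1
    have h2 : (Measure.map (WithLp.toLp 2) (P.restrict (OC R)) :
        Measure (EuclideanSpace ℝ (Fin n))) Set.univ = 0 := by
      rw [← h1]; simp
    rw [Measure.map_apply hto MeasurableSet.univ, Set.preimage_univ,
      Measure.restrict_apply_univ] at h2
    exact hpos h2
  have hiso : Iso μ (π * L) := by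
    have h1 := (iso_mmE R hne).map pi_pos.le hL (TT_lip hlip) (TT_lip hlip).continuous.measurable
    rw [mmE_map (Tq_mono (ρ := ρ)) Tq_map R] at h1
    have h2 := h1.smul (P (OC R))⁻¹
    rw [← Measure.map_smul] at h2
    exact h2
  -- the variance
  have hsig : variance (fun x : ℝ => x) ρ ≤ s := by
    have hsum := sum_variance ρ R hpos hmem
    have hnpos : (0 : ℝ) < n := by exact_mod_cast hn
    set θ : EuclideanSpace ℝ (Fin n) := WithLp.toLp 2 (fun _ => 1 / Real.sqrt n) with hθ
    have hθn : ‖θ‖ = 1 := by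
      rw [EuclideanSpace.norm_eq, hθ]
      simp only [Real.norm_eq_abs, sq_abs, Finset.sum_const, Finset.card_univ, Fintype.card_fin,
        nsmul_eq_mul, div_pow, one_pow]
      rw [Real.sq_sqrt hnpos.le]
      rw [mul_one_div_cancel hnpos.ne', Real.sqrt_one]
    have h1 := hvar θ hθn
    have hme : Measurable (fun x : EuclideanSpace ℝ (Fin n) => (inner ℝ x θ : ℝ)) :=
      (continuous_id.inner continuous_const).measurable
    rw [variance_map hme.aemeasurable hto.aemeasurable] at h1
    have e1 : ((fun x : EuclideanSpace ℝ (Fin n) => (inner ℝ x θ : ℝ)) ∘ (WithLp.toLp 2)) =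
        fun x : Fin n → ℝ => (1 / Real.sqrt n) * ∑ i, x i := by
      funext x
      simp only [Function.comp, hθ, PiLp.inner_apply]
      rw [Finset.mul_sum]
      apply Finset.sum_congr rfl
      intro i _
      simp
    rw [e1, variance_const_mul, hsum] at h1
    rw [div_pow, one_pow, Real.sq_sqrt hnpos.le] at h1
    have e2 : 1 / (n : ℝ) * (n * variance (fun x : ℝ => x) ρ) = variance (fun x : ℝ => x) ρ := by
      field_simp
    rwa [e2] at h1
  have hL' : (0 : ℝ) < L := hL
  have hK : 0 < π * L := by positivity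
  have hmain := hiso.liminf hK hS
  refine le_trans ?_ hmain
  apply mul_le_mul_left
  apply ENNReal.ofReal_le_ofReal
  have hlog : 0 < Real.log (3 / 2) := Real.log_pos (by norm_num)
  have hss : 0 < Real.sqrt s := Real.sqrt_pos.mpr hs
  have h6 : (0 : ℝ) < Real.sqrt 6 := Real.sqrt_pos.mpr (by norm_num)
  have hb : Real.log (3 / 2) * L ≤ Real.sqrt 6 * Real.sqrt s := by
    rw [← Real.sqrt_mul (by norm_num)]
    apply Real.le_sqrt_of_sq_le
    linarith
  rw [div_div, div_le_div_iff₀ (by positivity) (by positivity)]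
  have hpi := pi_pos
  calc Real.log (3 / 2) * (2 * (π * L)) = 2 * π * (Real.log (3 / 2) * L) := by ring
    _ ≤ 2 * π * (Real.sqrt 6 * Real.sqrt s) := by
        apply mul_le_mul_of_nonneg_left hb (by positivity)
    _ = 1 * (2 * π * Real.sqrt 6 * Real.sqrt s) := by ring

end Pool.Agent.Lib.MP_6d896a_gt
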