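import Mathlib
import Pool.Agent.Lib.MP_6d896a_gt.CovLower
import Pool.Agent.Lib.MP_6d896a_gt.Final

/-!
The isoperimetric inequality for independent symmetric log-concave variables conditioned on
signed order constraints.
-/

namespace Pool.Agent.Lib.MP_6d896a_gt

open MeasureTheory ProbabilityTheory Real Filter Topology Set
open scoped ENNReal NNReal

variable {n : ℕ}

/-- the case of an atom is trivial -/
lemma dirac_caseC {ρ : Measure ℝ} [IsProbabilityMeasure ρ] (h : LC ρ) {a : ℝ} (ha : ρ {a} ≠ 0)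
    (K : Set (Fin n → ℝ)) {S : Set (EuclideanSpace ℝ (Fin n))} (hS : MeasurableSet S) :
    min (((cond (Measure.pi (fun _ : Fin n => ρ)) K).map (WithLp.toLp 2)) S)
      (((cond (Measure.pi (fun _ : Fin n => ρ)) K).map (WithLp.toLp 2)) Sᶜ) = 0 := by
  have hto : Measurable (WithLp.toLp 2 : (Fin n → ℝ) → EuclideanSpace ℝ (Fin n)) :=
    (PiLp.continuous_toLp 2 (fun _ : Fin n => ℝ)).measurable
  set P := Measure.pi (fun _ : Fin n => ρ) with hP
  set x0 : Fin n → ℝ := fun _ => a with hx0
  have h1 : ρ {a} = 1 := (prob_compl_eq_zero_iff (measurableSet_singleton a)).mp (lc_atom h ha)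
  have h2 : P {x0} = 1 := by
    have e : ({x0} : Set (Fin n → ℝ)) = Set.univ.pi (fun _ => {a}) := by
      rw [Set.univ_pi_singleton]
    rw [e, hP, Measure.pi_pi]
    simp [h1]
  have h3 : P {x0}ᶜ = 0 := (prob_compl_eq_zero_iff (measurableSet_singleton x0)).mpr h2
  have h4 : (cond P K) {x0}ᶜ = 0 := cond_absolutelyContinuous h3
  rw [Measure.map_apply hto hS, Measure.map_apply hto hS.compl]
  by_cases hx : WithLp.toLp 2 x0 ∈ S
  · have h5 : (cond P K) ((WithLp.toLp 2) ⁻¹' Sᶜ) = 0 := by
      apply measure_mono_null _ h4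
      intro y hy hy0
      have hy0' : y = x0 := hy0
      subst hy0'
      exact hy hx
    rw [h5]; simp
  · have h5 : (cond P K) ((WithLp.toLp 2) ⁻¹' S) = 0 := by
      apply measure_mono_null _ h4
      intro y hy hy0
      have hy0' : y = x0 := hy0
      subst hy0'
      exact hx hy
    rw [h5]; simp

/-- Main inequality in the atomless case -/
theorem main_atomlessB {ρ : Measure ℝ} [IsProbabilityMeasure ρ] [NullSingletonClass ρ] (h : LC ρ)
    (he : ρ.map (fun x => -x) = ρ) (r : Fin n × Bool → Fin n × Bool → Prop)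
    (hpos : (Measure.pi (fun _ : Fin n => ρ)) (CX r) ≠ 0)
    {s : ℝ} (hs : 0 < s)
    (hvar : ∀ θ : EuclideanSpace ℝ (Fin n), ‖θ‖ = 1 → variance (fun x => inner ℝ x θ)
      ((cond (Measure.pi (fun _ : Fin n => ρ)) (CX r)).map (WithLp.toLp 2)) ≤ s)
    {S : Set (EuclideanSpace ℝ (Fin n))} (hS : MeasurableSet S) :
    ENNReal.ofReal (Real.log (3 / 2) / (2 * π * 10 ^ 7) / Real.sqrt s) *
      min (((cond (Measure.pi (fun _ : Fin n => ρ)) (CX r)).map (WithLp.toLp 2)) S)
        (((cond (Measure.pi (fun _ : Fin n => ρ)) (CX r)).map (WithLp.toLp 2)) Sᶜ) ≤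
      Filter.liminf (fun ε : ℝ =>
        (((cond (Measure.pi (fun _ : Fin n => ρ)) (CX r)).map (WithLp.toLp 2))
          (Metric.thickening ε S) -
        ((cond (Measure.pi (fun _ : Fin n => ρ)) (CX r)).map (WithLp.toLp 2)) S) /
          ENNReal.ofReal ε) (𝓝[>] 0) := by
  set P := Measure.pi (fun _ : Fin n => ρ) with hP
  set μ := (cond P (CX r)).map (WithLp.toLp 2) with hμ
  have hto : Measurable (WithLp.toLp 2 : (Fin n → ℝ) → EuclideanSpace ℝ (Fin n)) :=
    (PiLp.continuous_toLp 2 (fun _ : Fin n => ℝ)).measurable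
  have hcp : IsProbabilityMeasure (cond P (CX r)) := cond_isProbabilityMeasure hpos
  have hμp : IsProbabilityMeasure μ := Measure.isProbabilityMeasure_map hto.aemeasurable
  -- the trivial case
  rcases Nat.eq_zero_or_pos n with hn | hn
  · subst hn
    have hmin : min (μ S) (μ Sᶜ) = 0 := by
      rcases S.eq_empty_or_nonempty with h0 | h0
      · rw [h0, measure_empty]; simp
      · have : Sᶜ = ∅ := by
          ext x
          obtain ⟨y, hy⟩ := h0
          have : x = y := Subsingleton.elim _ _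
          simp [this, hy]
        rw [this, measure_empty]; simp
    rw [hmin, mul_zero]
    exact zero_le
  obtain ⟨w, hw, h3, _, _⟩ := exists_quartile (ρ := ρ) he
  obtain ⟨_, _, _, hmem, _⟩ := Tq_lip h
  have hlog : 0 < Real.log (3 / 2) := Real.log_pos (by norm_num)
  have hLpos : 0 < w / Real.log (3 / 2) := by positivity
  let L : ℝ≥0 := ⟨w / Real.log (3 / 2), hLpos.le⟩
  have hL : (L : ℝ) = w / Real.log (3 / 2) := rfl
  have hL0 : 0 < L := hLpos
  have hlip := Tq_lip_even h he hw h3 hL
  have hodd := Tq_odd h he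
  -- isoperimetry
  have hne : mmC (CXE r) ≠ 0 := by
    intro h0
    have h1 := mmC_map (ρ := ρ) Tq_mono hodd Tq_map r
    rw [h0, Measure.map_zero] at h1
    have h2 : (Measure.map (WithLp.toLp 2) (P.restrict (CX r)) :
        Measure (EuclideanSpace ℝ (Fin n))) Set.univ = 0 := by
      rw [← h1]; simp
    rw [Measure.map_apply hto MeasurableSet.univ, Set.preimage_univ,
      Measure.restrict_apply_univ] at h2
    exact hpos h2
  have hiso : Iso μ (π * L) := by
    have h1 := (iso_mmC r hne).map pi_pos.le hL0 (TT_lip hlip) (TT_lip hlip).continuous.measurable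
    rw [mmC_map (ρ := ρ) Tq_mono hodd Tq_map r] at h1
    have h2 := h1.smul (P (CX r))⁻¹
    rw [← Measure.map_smul] at h2
    exact h2
  have hcov := cov_lower h he r hn hpos hw h3 hmem hs.le hvar
  have hK : 0 < π * L := by positivity
  have hmain := hiso.liminf hK hS
  refine le_trans ?_ hmain
  apply mul_le_mul_left
  apply ENNReal.ofReal_le_ofReal
  have hss : 0 < Real.sqrt s := Real.sqrt_pos.mpr hs
  have hws : w ≤ 10 ^ 7 * Real.sqrt s := by
    have h5 : w ^ 2 ≤ (10 ^ 7 * Real.sqrt s) ^ 2 := by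
      rw [mul_pow, Real.sq_sqrt hs.le]
      calc w ^ 2 ≤ 10 ^ 14 * s := hcov
        _ = _ := by ring
    exact abs_le_of_sq_le_sq' h5 (by positivity) |>.2
  rw [hL, div_div, div_le_div_iff₀ (by positivity) (by positivity)]
  have hpi := pi_pos
  calc Real.log (3 / 2) * (2 * (π * (w / Real.log (3 / 2)))) = 2 * π * w := by field_simp
    _ ≤ 2 * π * (10 ^ 7 * Real.sqrt s) := mul_le_mul_of_nonneg_left hws (by positivity)
    _ = 1 * (2 * π * 10 ^ 7 * Real.sqrt s) := by ring

end Pool.Agent.Lib.MP_6d896a_gt
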