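import Mathlib
import Pool.Agent.Lib.MP_6d896a_gt.FP.PoincExt
import Pool.Agent.Lib.MP_6d896a_gt.FP.ApCheeger
import Pool.Agent.Lib.MP_6d896a_gt.Sym14
import Pool.Agent.Lib.MP_6d896a_gt.Sym15

/-!
The Cheeger inequality for 1-symmetric log-concave measures.
-/

namespace Pool.Agent.Lib.MP_6d896a_gt

open MeasureTheory ProbabilityTheory Filter Topology Set
open scoped ENNReal NNReal Pointwise

variable {n : ℕ} {ν : Measure (EuclideanSpace ℝ (Fin n))} [IsProbabilityMeasure ν]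

/-- a coordinate has a finite second moment under a log-concave probability measure -/
lemma second_mom (h : FP.PLm ν) (w : Fin n) :
    ∫⁻ x, ENNReal.ofReal (x w ^ 2) ∂ν < ∞ := by
  obtain ⟨r, hr, hK⟩ : ∃ r : ℝ, 0 < r ∧
      3 / 4 ≤ ν.real {x : EuclideanSpace ℝ (Fin n) | |x w| ≤ r} := by
    have hmono : Monotone (fun k : ℕ => {x : EuclideanSpace ℝ (Fin n) | |x w| ≤ (k : ℝ)}) := by
      intro m k hmn x hx
      have hx' : |x w| ≤ (m : ℝ) := hx
      have hmn' : (m : ℝ) ≤ k := by exact_mod_cast hmn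
      exact hx'.trans hmn'
    have hU : (⋃ k : ℕ, {x : EuclideanSpace ℝ (Fin n) | |x w| ≤ (k : ℝ)}) = univ := by
      ext x
      simp only [mem_iUnion, mem_ofPred_eq, mem_univ, iff_true]
      exact exists_nat_ge _
    have h1 := tendsto_measure_iUnion_atTop (μ := ν) hmono
    rw [hU, measure_univ] at h1
    have h2 : Tendsto (fun k : ℕ => ν.real {x : EuclideanSpace ℝ (Fin n) | |x w| ≤ (k : ℝ)})
        atTop (𝓝 1) := by
      have := (ENNReal.tendsto_toReal ENNReal.one_ne_top).comp h1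
      rw [ENNReal.toReal_one] at this
      exact this
    have h3 := (h2.eventually (lt_mem_nhds (by norm_num : (3 / 4 : ℝ) < 1))).and
      (eventually_gt_atTop 0)
    obtain ⟨k, hn, hn0⟩ := h3.exists
    exact ⟨k, by exact_mod_cast hn0, hn.le⟩
  have h1 := h.exp_moment (ξ := fun x : EuclideanSpace ℝ (Fin n) => x w)
    (by fun_prop) (fun x y l => by simp) hr hK
  have h2 : ∫⁻ x, ENNReal.ofReal (x w ^ 2) ∂ν ≤
      ∫⁻ x, ENNReal.ofReal (2 * (4 * r) ^ 2) * ENNReal.ofReal (Real.exp (|x w| / (4 * r))) ∂ν := by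
    refine lintegral_mono fun x => ?_
    rw [← ENNReal.ofReal_mul (by positivity)]
    apply ENNReal.ofReal_le_ofReal
    have h3 := Real.quadratic_le_exp_of_nonneg (x := |x w| / (4 * r)) (by positivity)
    have h4 : x w ^ 2 = (4 * r) ^ 2 * (|x w| / (4 * r)) ^ 2 := by
      rw [div_pow, mul_div_cancel₀ _ (by positivity), sq_abs]
    rw [h4]
    have h5 : 0 ≤ |x w| / (4 * r) := by positivity
    nlinarith [mul_le_mul_of_nonneg_left h3 (by positivity : (0 : ℝ) ≤ (4 * r) ^ 2),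
      mul_nonneg (by positivity : (0 : ℝ) ≤ (4 * r) ^ 2) h5]
  refine h2.trans_lt ?_
  rw [lintegral_const_mul' _ _ ENNReal.ofReal_ne_top]
  exact ENNReal.mul_lt_top ENNReal.ofReal_lt_top (h1.trans_lt (by norm_num))

lemma coord_sq_int (h : FP.PLm ν) (w : Fin n) : Integrable (fun x => x w ^ 2) ν := by
  refine ⟨by fun_prop, ?_⟩
  rw [hasFiniteIntegral_iff_ofReal (ae_of_all _ fun x => sq_nonneg _)]
  exact second_mom h w

lemma norm_sq_int (h : FP.PLm ν) : Integrable (fun x => ‖x‖ ^ 2) ν := by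
  have e : (fun x : EuclideanSpace ℝ (Fin n) => ‖x‖ ^ 2) = fun x => ∑ w, x w ^ 2 := by
    funext x
    rw [EuclideanSpace.norm_sq_eq]
    simp [sq_abs]
  rw [e]
  exact integrable_finsetSum _ fun w _ => coord_sq_int h w

/-- coordinates of symmetric measures are centred -/
lemma coord_mean (hs : SymM ν) (w : Fin n) : ∫ x, x w ∂ν = 0 := by
  have h1 := hs (Equiv.refl _) (fun _ => -1) (fun k => Or.inr rfl)
  have hc := sperm_continuous (Equiv.refl (Fin n)) (fun _ => (-1 : ℝ))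
  have h2 : ∫ x, x w ∂ν = ∫ x, -(x w) ∂ν := by
    conv_lhs => rw [← h1]
    rw [integral_map hc.measurable.aemeasurable (by fun_prop)]
    congr 1
    funext x
    simp [sperm]
  rw [integral_neg] at h2
  linarith

lemma coord_sq_le (h : FP.PLm ν) (hs : SymM ν) {s : ℝ}
    (hv : ∀ θ : EuclideanSpace ℝ (Fin n), ‖θ‖ = 1 → Var[fun x => inner ℝ x θ; ν] ≤ s)
    (w : Fin n) : ∫ x, x w ^ 2 ∂ν ≤ s := by
  have h1 := hv (EuclideanSpace.single w 1) (by simp)
  have e : (fun x : EuclideanSpace ℝ (Fin n) => inner ℝ x (EuclideanSpace.single w (1 : ℝ))) =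
      fun x => x w := by
    funext x
    simp [EuclideanSpace.inner_single_right]
  rw [e] at h1
  have hm : MemLp (fun x : EuclideanSpace ℝ (Fin n) => x w) 2 ν := by
    rw [memLp_two_iff_integrable_sq (by fun_prop)]
    exact coord_sq_int h w
  rw [variance_eq_sub hm] at h1
  have h2 : ∫ x, x w ∂ν = 0 := coord_mean hs w
  rw [h2] at h1
  simpa using h1

/-- Poincare inequality for 1-symmetric log-concave measures -/
theorem sym_poincare (hpl : FP.PLm ν) (hsym : SymM ν) {s : ℝ} (hs0 : 0 < s)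
    (hv : ∀ θ : EuclideanSpace ℝ (Fin n), ‖θ‖ = 1 → Var[fun x => inner ℝ x θ; ν] ≤ s)
    {f : EuclideanSpace ℝ (Fin n) → ℝ} (hf : ContDiff ℝ 1 f)
    (hb : ∃ B, ∀ x, ‖fderiv ℝ f x‖ ≤ B) :
    Var[f; ν] ≤ (11 * 10 ^ 7 * Real.exp 8 * s) * ∫ x, ‖fderiv ℝ f x‖ ^ 2 ∂ν := by
  have h2 := norm_sq_int hpl
  refine FP.poinc_ext ν h2 (by positivity) ?_ f hf hb
  rintro g hg ⟨b, hgb⟩ ⟨l, hgl⟩ ⟨L, hgL⟩
  have hgm : MemLp g 2 ν := MemLp.of_bound hg.continuous.aestronglyMeasurable b
    (ae_of_all _ fun x => by rw [Real.norm_eq_abs]; exact hgb x)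
  rw [variance_eq_sub hgm]
  have := sym_poincare_CL ν hpl hsym h2 hs0 (fun j => coord_sq_le hpl hsym hv j)
    (f := g) (b := b) (l := l) (L := L) ⟨hg, hgb, hgl, hgL⟩
  simpa using this

/-- isoperimetry for 1-symmetric log-concave measures -/
theorem sym_iso (hpl : FP.PLm ν) (hsym : SymM ν) {s : ℝ} (hs0 : 0 < s)
    (hv : ∀ θ : EuclideanSpace ℝ (Fin n), ‖θ‖ = 1 → Var[fun x => inner ℝ x θ; ν] ≤ s) :
    Iso ν (Real.pi / 2 * Real.sqrt (11 * 10 ^ 7 * Real.exp 8 * s)) := by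
  apply iso_of_smooth _ (by positivity)
  intro g l l2 hl hl2 hg hg0 hg1 hgl hg2
  have hbd : ∀ x, ‖fderiv ℝ g x‖ ≤ l := by
    intro x
    have : LipschitzWith (Real.toNNReal l) g := by
      apply LipschitzWith.of_dist_le_mul
      intro a b
      rw [Real.dist_eq, dist_eq_norm, Real.coe_toNNReal l hl]
      exact hgl a b
    have h4 := norm_fderiv_le_of_lipschitz ℝ (x₀ := x) this
    rwa [Real.coe_toNNReal l hl] at h4
  have hgabs : ∀ x, |g x| ≤ 1 := fun x => by rw [abs_of_nonneg (hg0 x)]; exact hg1 x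
  have hfc : Continuous (fun x => ‖fderiv ℝ g x‖) := (hg.continuous_fderiv (by norm_num)).norm
  obtain ⟨CP, hCP⟩ : ∃ CP, 11 * 10 ^ 7 * Real.exp 8 * s = CP := ⟨_, rfl⟩
  have hCP0 : 0 < CP := by rw [← hCP]; positivity
  rw [hCP]
  set σ : ℝ := 1 / (2 * CP) with hσ
  have hσ0 : 0 < σ := by positivity
  have hcL : Real.sqrt (1 / (2 * σ)) = Real.sqrt CP := by
    congr 1
    rw [hσ]
    field_simp
  have hmain := channel ν (IsProbabilityMeasure.ne_zero ν) (s := σ) (CP := CP)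
    (cL := Real.pi / 2 * Real.sqrt CP) (th := 1) hσ0 one_pos
    (by rw [hσ]; field_simp) (fun u hu hub hB => by
      obtain ⟨B, hB0, hB⟩ := hB
      have hubd : ∀ x, ‖fderiv ℝ u x‖ ≤ B := by
        intro x
        have : LipschitzWith (Real.toNNReal B) u := by
          apply LipschitzWith.of_dist_le_mul
          intro a b
          rw [Real.dist_eq, dist_eq_norm, Real.coe_toNNReal B hB0]
          exact hB a b
        have h4 := norm_fderiv_le_of_lipschitz ℝ (x₀ := x) this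
        rwa [Real.coe_toNNReal B hB0] at h4
      have h1 := sym_poincare hpl hsym hs0 hv hu ⟨B, hubd⟩
      have hmem : MemLp u 2 ν := MemLp.of_bound hu.continuous.aestronglyMeasurable 1
        (ae_of_all _ fun x => by rw [Real.norm_eq_abs]; exact hub x)
      rw [variance_eq_sub hmem, hCP] at h1
      rw [probReal_univ, one_mul, one_mul]
      exact h1)
    hg.continuous.measurable hg0 hg1
    (D := fun x => ‖fderiv ℝ g x‖) hfc.measurable (C := l)
    (fun x => by rw [abs_of_nonneg (norm_nonneg _)]; exact hbd x) (by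
      intro y
      have hp := FP.post_plm hpl hσ0 y hl hl2 hg hgabs hgl hg2
      rw [hcL] at hp
      exact hp)
  refine hmain.trans (le_of_eq ?_)
  ring

/-- Cheeger constants of 1-symmetric log-concave measures -/
theorem sym_cheeger (hpl : FP.PLm ν) (hsym : SymM ν) {s : ℝ} (hs0 : 0 < s)
    (hv : ∀ θ : EuclideanSpace ℝ (Fin n), ‖θ‖ = 1 → Var[fun x => inner ℝ x θ; ν] ≤ s)
    {S : Set (EuclideanSpace ℝ (Fin n))} (hS : MeasurableSet S) :
    ENNReal.ofReal ((1 / (Real.pi * Real.sqrt (11 * 10 ^ 7 * Real.exp 8))) / Real.sqrt s) *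
      min (ν S) (ν Sᶜ) ≤
        Filter.liminf (fun ε : ℝ => (ν (Metric.thickening ε S) - ν S) / ENNReal.ofReal ε)
          (𝓝[>] 0) := by
  have hq : 0 < Real.sqrt s := Real.sqrt_pos.mpr hs0
  have hq2 : 0 < Real.sqrt (11 * 10 ^ 7 * Real.exp 8) := Real.sqrt_pos.mpr (by positivity)
  have h := (sym_iso hpl hsym hs0 hv).liminf (by positivity) hS
  have e : 1 / (2 * (Real.pi / 2 * Real.sqrt (11 * 10 ^ 7 * Real.exp 8 * s))) =
      (1 / (Real.pi * Real.sqrt (11 * 10 ^ 7 * Real.exp 8))) / Real.sqrt s := by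
    have := Real.pi_pos
    rw [Real.sqrt_mul (by positivity) s]
    field_simp
  rw [e] at h
  exact h

end Pool.Agent.Lib.MP_6d896a_gt
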